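import Mathlib

set_option autoImplicit false
open MeasureTheory Filter Topology

namespace Pool.Agent.H433R3.Bump

noncomputable def be (m : ℕ) : ℝ := ((m:ℝ) + 1) * Real.sqrt ((m:ℝ) + 1)

theorem be_pos (m : ℕ) : 0 < be m := by unfold be; positivity

theorem one_le_be (m : ℕ) : 1 ≤ be m := by
  unfold be
  have h : (1:ℝ) ≤ (m:ℝ) + 1 := by linarith [Nat.cast_nonneg (α := ℝ) m]
  have h2 : 1 ≤ Real.sqrt ((m:ℝ) + 1) := Real.one_le_sqrt.2 h
  nlinarith

theorem be_mono {m n : ℕ} (h : m ≤ n) : be m ≤ be n := by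
  unfold be
  have h1 : ((m:ℝ) + 1) ≤ (n:ℝ) + 1 := by
    have : (m:ℝ) ≤ n := by exact_mod_cast h
    linarith
  have h2 := Real.sqrt_le_sqrt h1
  have h3 : (0:ℝ) ≤ (m:ℝ) + 1 := by positivity
  have h4 := Real.sqrt_nonneg ((m:ℝ) + 1)
  nlinarith [Real.sqrt_nonneg ((n:ℝ) + 1)]

theorem be_le_sq (m : ℕ) : be m ≤ ((m:ℝ) + 1) ^ 2 := by
  unfold be
  have h : (1:ℝ) ≤ (m:ℝ) + 1 := by linarith [Nat.cast_nonneg (α := ℝ) m]
  have h2 : Real.sqrt ((m:ℝ) + 1) ≤ (m:ℝ) + 1 := by
    rw [Real.sqrt_le_left (by linarith)]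
    nlinarith
  nlinarith

noncomputable def bb (m : ℕ) : ℝ := 2 ^ m * be m

theorem bb_pos (m : ℕ) : 0 < bb m := mul_pos (by positivity) (be_pos m)

noncomputable def term (t : ℝ) (k : ℕ) : ℝ := bb k * max (t - 2 ^ k) 0

noncomputable def Phi (t : ℝ) : ℝ := ∑' k : ℕ, term t k

theorem term_nonneg (t : ℝ) (k : ℕ) : 0 ≤ term t k :=
  mul_nonneg (bb_pos k).le (le_max_right _ _)

theorem term_zero (t : ℝ) (n : ℕ) (ht : t ≤ 2 ^ n) (k : ℕ) (hk : n ≤ k) : term t k = 0 := by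
  unfold term
  have h : (2:ℝ) ^ n ≤ 2 ^ k := pow_le_pow_right₀ (by norm_num) hk
  rw [max_eq_right (by linarith), mul_zero]

theorem exists_pow (t : ℝ) : ∃ n : ℕ, t ≤ 2 ^ n := by
  obtain ⟨n, hn⟩ := pow_unbounded_of_one_lt t (by norm_num : (1:ℝ) < 2)
  exact ⟨n, hn.le⟩

theorem term_summable (t : ℝ) : Summable (term t) := by
  obtain ⟨n, hn⟩ := exists_pow t
  apply summable_of_ne_finset_zero (s := Finset.range n)
  intro k hk
  rw [Finset.mem_range, not_lt] at hk
  exact term_zero t n hn k hk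

theorem Phi_eq (t : ℝ) (n : ℕ) (ht : t ≤ 2 ^ n) : Phi t = ∑ k ∈ Finset.range n, term t k := by
  unfold Phi
  apply tsum_eq_sum
  intro k hk
  rw [Finset.mem_range, not_lt] at hk
  exact term_zero t n ht k hk

theorem Phi_nonneg (t : ℝ) : 0 ≤ Phi t := tsum_nonneg (term_nonneg t)

theorem Phi_mono {s t : ℝ} (h : s ≤ t) : Phi s ≤ Phi t := by
  unfold Phi
  apply Summable.tsum_le_tsum _ (term_summable s) (term_summable t)
  intro k
  unfold term
  apply mul_le_mul_of_nonneg_left _ (bb_pos k).le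
  exact max_le_max (by linarith) le_rfl

theorem Phi_zero : Phi 0 = 0 := by
  rw [Phi_eq 0 0 (by norm_num)]; simp

theorem Phi_of_nonpos {t : ℝ} (h : t ≤ 0) : Phi t = 0 := by
  rw [Phi_eq t 0 (by norm_num; linarith)]; simp

theorem Phi_convex : ConvexOn ℝ (Set.Ici 0) Phi := by
  refine ⟨convex_Ici 0, ?_⟩
  intro x _ y _ a b ha hb hab
  simp only [smul_eq_mul]
  unfold Phi
  rw [← tsum_mul_left, ← tsum_mul_left, ← Summable.tsum_add ((term_summable x).mul_left a)
    ((term_summable y).mul_left b)]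
  apply Summable.tsum_le_tsum _ (term_summable _)
    (((term_summable x).mul_left a).add ((term_summable y).mul_left b))
  intro k
  unfold term
  have h1 : max (a * x + b * y - 2 ^ k) 0 ≤ a * max (x - 2 ^ k) 0 + b * max (y - 2 ^ k) 0 := by
    apply max_le
    · have h2 := le_max_left (x - 2 ^ k) 0
      have h3 := le_max_left (y - 2 ^ k) 0
      have h4 : a * x + b * y - 2 ^ k = a * (x - 2 ^ k) + b * (y - 2 ^ k) := by
        have : (2:ℝ) ^ k = (a + b) * 2 ^ k := by rw [hab, one_mul]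
        linear_combination -this
      rw [h4]
      nlinarith
    · have h2 := le_max_right (x - 2 ^ k) 0
      have h3 := le_max_right (y - 2 ^ k) 0
      nlinarith
  calc bb k * max (a * x + b * y - 2 ^ k) 0 ≤ bb k * (a * max (x - 2 ^ k) 0 + b * max (y - 2 ^ k) 0) :=
        mul_le_mul_of_nonneg_left h1 (bb_pos k).le
    _ = _ := by ring

theorem term_le_Phi (t : ℝ) (k : ℕ) : term t k ≤ Phi t :=
  (term_summable t).le_tsum k (fun j _ => term_nonneg t j)

theorem Phi_superlinear : Tendsto (fun t => Phi t / t) atTop atTop := by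
  rw [tendsto_atTop]
  intro C
  obtain ⟨k, hk⟩ := exists_pow (2 * C)
  filter_upwards [eventually_ge_atTop ((2:ℝ) ^ (k + 1))] with t ht
  have htpos : 0 < t := lt_of_lt_of_le (by positivity) ht
  rw [le_div_iff₀ htpos]
  refine le_trans ?_ (term_le_Phi t k)
  unfold term
  rw [pow_succ] at ht
  have h1 : t / 2 ≤ max (t - 2 ^ k) 0 := le_trans (by linarith) (le_max_left _ _)
  have h2 : (2:ℝ) ^ k ≤ bb k := by
    unfold bb
    have := one_le_be k
    have h3 : (0:ℝ) < 2 ^ k := by positivity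
    nlinarith
  have h4 : 2 * C ≤ bb k := hk.trans h2
  have h5 := bb_pos k
  calc C * t = (2 * C) * (t / 2) := by ring
    _ ≤ bb k * (t / 2) := mul_le_mul_of_nonneg_right h4 (by linarith)
    _ ≤ _ := mul_le_mul_of_nonneg_left h1 h5.le

/-- closed form of a truncated sum -/
theorem sum_lin (t : ℝ) (n : ℕ) : ∑ k ∈ Finset.range n, (2:ℝ) ^ k * (t - 2 ^ k) =
    t * (2 ^ n - 1) - (4 ^ n - 1) / 3 := by
  induction n with
  | zero => simp
  | succ n ih =>
    rw [Finset.sum_range_succ, ih]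
    have : (4:ℝ) ^ n = 2 ^ n * 2 ^ n := by rw [← mul_pow]; norm_num
    rw [pow_succ, pow_succ, this]
    ring

theorem sum_max_le (n : ℕ) : ∀ t : ℝ, 0 ≤ t → t ≤ 2 ^ n →
    ∑ k ∈ Finset.range n, (2:ℝ) ^ k * max (t - 2 ^ k) 0 ≤ t ^ 2 := by
  induction n with
  | zero => intro t _ _; simp; positivity
  | succ n ih =>
    intro t h0 ht
    rcases le_or_gt t (2 ^ n) with h | h
    · rw [Finset.sum_range_succ, max_eq_right (a := t - 2 ^ n) (by linarith), mul_zero, add_zero]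
      exact ih t h0 h
    · have : ∑ k ∈ Finset.range (n + 1), (2:ℝ) ^ k * max (t - 2 ^ k) 0 =
          ∑ k ∈ Finset.range (n + 1), (2:ℝ) ^ k * (t - 2 ^ k) := by
        apply Finset.sum_congr rfl
        intro k hk
        rw [Finset.mem_range] at hk
        have h2 : (2:ℝ) ^ k ≤ 2 ^ n := pow_le_pow_right₀ (by norm_num) (by omega)
        rw [max_eq_left (by linarith)]
      rw [this, sum_lin]
      have h4 : (4:ℝ) ^ (n + 1) = 2 ^ (n + 1) * 2 ^ (n + 1) := by rw [← mul_pow]; norm_num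
      rw [h4]
      have h5 : (1:ℝ) ≤ 2 ^ n := one_le_pow₀ (by norm_num)
      nlinarith [sq_nonneg (t - 2 ^ (n + 1) / 2), sq_nonneg ((2:ℝ) ^ (n + 1))]

theorem Phi_le (n : ℕ) (t : ℝ) (h0 : 0 ≤ t) (ht : t ≤ 2 ^ n) : Phi t ≤ t ^ 2 * be n := by
  rw [Phi_eq t n ht]
  have h1 : ∀ k ∈ Finset.range n, term t k ≤ be n * ((2:ℝ) ^ k * max (t - 2 ^ k) 0) := by
    intro k hk
    rw [Finset.mem_range] at hk
    unfold term bb
    have h2 := be_mono hk.le
    have h3 : 0 ≤ (2:ℝ) ^ k * max (t - 2 ^ k) 0 := mul_nonneg (by positivity) (le_max_right _ _)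
    nlinarith
  calc ∑ k ∈ Finset.range n, term t k ≤ ∑ k ∈ Finset.range n, be n * ((2:ℝ) ^ k * max (t - 2 ^ k) 0) :=
        Finset.sum_le_sum h1
    _ = be n * ∑ k ∈ Finset.range n, ((2:ℝ) ^ k * max (t - 2 ^ k) 0) := by rw [Finset.mul_sum]
    _ ≤ be n * t ^ 2 := mul_le_mul_of_nonneg_left (sum_max_le n t h0 ht) (be_pos n).le
    _ = _ := by ring

/-- bound of the complementary function -/
theorem conj_le (t : ℝ) (ht : 0 ≤ t) (m : ℕ) (hm : t ≤ bb m) :
    (⨆ s : Set.Ici (0:ℝ), (t * (s:ℝ) - Phi s)) ≤ t * 2 ^ m := by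
  apply ciSup_le
  rintro ⟨s, hs⟩
  simp only
  rcases le_or_gt s (2 ^ m) with h | h
  · have := Phi_nonneg s
    nlinarith
  · have h1 := term_le_Phi s m
    unfold term at h1
    rw [max_eq_left (by linarith)] at h1
    nlinarith

theorem summable_inv_be : Summable (fun m : ℕ => (be m)⁻¹) := by
  have h := (Real.summable_one_div_nat_rpow (p := (3:ℝ)/2)).2 (by norm_num)
  have h2 := (summable_nat_add_iff 1).2 h
  refine h2.congr fun m => ?_
  unfold be
  rw [one_div]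
  congr 1
  push_cast
  have hpos : (0:ℝ) < (m:ℝ) + 1 := by positivity
  rw [show (3:ℝ)/2 = 1 + 1/2 by norm_num, Real.rpow_add hpos, Real.rpow_one, Real.sqrt_eq_rpow]

theorem bb_unbounded (t : ℝ) : ∃ m, t ≤ bb m := by
  obtain ⟨n, hn⟩ := exists_pow t
  refine ⟨n, hn.trans ?_⟩
  unfold bb
  have := one_le_be n
  have h3 : (0:ℝ) < 2 ^ n := by positivity
  nlinarith

theorem lint_pow (c : ℝ) (hc : 0 < c) (A : ℝ) (hA : 0 ≤ A) :
    ∫⁻ t in Set.Ioi c, ENNReal.ofReal (A * t ^ (-2:ℝ)) = ENNReal.ofReal (A / c) := by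
  rw [← ofReal_integral_eq_lintegral_ofReal]
  · rw [integral_const_mul, integral_Ioi_rpow_of_lt (by norm_num) hc]
    congr 1
    rw [show (-2:ℝ) + 1 = -1 by norm_num, Real.rpow_neg_one]
    field_simp
  · exact (integrableOn_Ioi_rpow_of_lt (by norm_num) hc).const_mul A
  · rw [EventuallyLE, ae_restrict_iff' measurableSet_Ioi]
    refine Eventually.of_forall fun t ht => ?_
    have : 0 < t := lt_trans hc ht
    simp only [Pi.zero_apply]
    positivity

theorem conj_B2 : (∫⁻ t in Set.Ioi (1:ℝ),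
    ENNReal.ofReal ((⨆ s : Set.Ici (0:ℝ), (t * (s:ℝ) - Phi s)) * t ^ (-2:ℝ) / t)) < ⊤ := by
  classical
  have hb0 : bb 0 = 1 := by unfold bb be; simp
  have hpt : ∀ t ∈ Set.Ioi (1:ℝ),
      ENNReal.ofReal ((⨆ s : Set.Ici (0:ℝ), (t * (s:ℝ) - Phi s)) * t ^ (-2:ℝ) / t) ≤
      ∑' j : ℕ, (Set.Ioi (bb j)).indicator (fun t => ENNReal.ofReal (2 ^ (j + 1) * t ^ (-2:ℝ))) t := by
    intro t ht
    have ht1 : (1:ℝ) < t := ht
    have htpos : 0 < t := by linarith
    have hex := bb_unbounded t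
    set m := Nat.find hex with hm
    have hm1 : t ≤ bb m := Nat.find_spec hex
    have hm0 : m ≠ 0 := by
      intro h0
      rw [h0, hb0] at hm1
      linarith
    obtain ⟨j, hj⟩ := Nat.exists_eq_succ_of_ne_zero hm0
    have hj2 : bb j < t := by
      have := Nat.find_min hex (m := j) (by omega)
      exact not_le.1 this
    refine le_trans ?_ (ENNReal.le_tsum j)
    rw [Set.indicator_of_mem (show t ∈ Set.Ioi (bb j) from hj2)]
    apply ENNReal.ofReal_le_ofReal
    have h1 := conj_le t htpos.le m hm1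
    rw [hj] at h1
    have h2 : (0:ℝ) < t ^ (-2:ℝ) := Real.rpow_pos_of_pos htpos _
    calc (⨆ s : Set.Ici (0:ℝ), (t * (s:ℝ) - Phi s)) * t ^ (-2:ℝ) / t
        ≤ (t * 2 ^ (j.succ)) * t ^ (-2:ℝ) / t := by gcongr
      _ = 2 ^ (j + 1) * t ^ (-2:ℝ) := by
        rw [Nat.succ_eq_add_one]; field_simp
  refine lt_of_le_of_lt (setLIntegral_mono' measurableSet_Ioi hpt) ?_
  refine lt_of_le_of_lt (lintegral_mono' Measure.restrict_le_self le_rfl) ?_
  rw [lintegral_tsum]
  · have h1 : ∀ j : ℕ, ∫⁻ t, (Set.Ioi (bb j)).indicator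
        (fun t => ENNReal.ofReal (2 ^ (j + 1) * t ^ (-2:ℝ))) t = ENNReal.ofReal (2 * (be j)⁻¹) := by
      intro j
      rw [lintegral_indicator measurableSet_Ioi, lint_pow _ (bb_pos j) _ (by positivity)]
      congr 1
      unfold bb
      have := be_pos j
      rw [pow_succ]
      field_simp
    simp_rw [h1]
    have hs : Summable (fun j : ℕ => 2 * (be j)⁻¹) := summable_inv_be.mul_left 2
    rw [← ENNReal.ofReal_tsum_of_nonneg (fun j => by have := be_pos j; positivity) hs]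
    exact ENNReal.ofReal_lt_top
  · intro j
    apply AEMeasurable.indicator _ measurableSet_Ioi
    fun_prop

end Pool.Agent.H433R3.Bump
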