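import Mathlib
import Pool.Agent.H433R3.Bump1

set_option autoImplicit false
open MeasureTheory Filter Topology
open scoped ENNReal

namespace Pool.Agent.H433R3.Bump

noncomputable def XX (n : ℕ) : ℝ := 16 ^ (n + 1)

def box (a0 b0 a1 b1 : ℝ) : Set (Fin 2 → ℝ) :=
  Set.univ.pi (fun i : Fin 2 => Set.Ico ((![a0, a1] : Fin 2 → ℝ) i) ((![b0, b1] : Fin 2 → ℝ) i))

theorem mem_box (a0 b0 a1 b1 : ℝ) (x : Fin 2 → ℝ) :
    x ∈ box a0 b0 a1 b1 ↔ (a0 ≤ x 0 ∧ x 0 < b0) ∧ (a1 ≤ x 1 ∧ x 1 < b1) := by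
  unfold box
  rw [Set.mem_univ_pi, Fin.forall_fin_two]
  simp

theorem vol_box (a0 b0 a1 b1 : ℝ) :
    volume (box a0 b0 a1 b1) = ENNReal.ofReal (b0 - a0) * ENNReal.ofReal (b1 - a1) := by
  unfold box
  rw [Real.volume_pi_Ico, Fin.prod_univ_two]
  simp

theorem meas_box (a0 b0 a1 b1 : ℝ) : MeasurableSet (box a0 b0 a1 b1) :=
  MeasurableSet.univ_pi (fun _ => measurableSet_Ico)

def St (n : ℕ) : Set (Fin 2 → ℝ) := box (XX n) (XX n + 1) 0 ((1/4) ^ n)

noncomputable def aa (n : ℕ) : ℝ := (Real.sqrt (be n))⁻¹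

theorem aa_pos (n : ℕ) : 0 < aa n := by
  unfold aa
  have := be_pos n
  positivity

theorem aa_le_one (n : ℕ) : aa n ≤ 1 := by
  unfold aa
  apply inv_le_one_of_one_le₀
  exact Real.one_le_sqrt.2 (one_le_be n)

theorem aa_sq (n : ℕ) : aa n ^ 2 * be n = 1 := by
  unfold aa
  rw [inv_pow, Real.sq_sqrt (be_pos n).le]
  have := be_pos n
  field_simp

theorem XX_gap {i n : ℕ} (h : i < n) : XX i + 1 + 14 * 16 ^ n ≤ XX n := by
  unfold XX
  obtain ⟨k, rfl⟩ : ∃ k, n = k + 1 := ⟨n - 1, by omega⟩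
  have h1 : (16:ℝ) ^ (i + 1) ≤ 16 ^ (k + 1) := pow_le_pow_right₀ (by norm_num) (by omega)
  have h2 : (1:ℝ) ≤ 16 ^ (k + 1) := one_le_pow₀ (by norm_num)
  rw [pow_succ (16:ℝ) (k + 1)]
  linarith

theorem St_disj {i n : ℕ} (h : i ≠ n) (x : Fin 2 → ℝ) (hi : x ∈ St i) : x ∉ St n := by
  intro hn
  unfold St at hi hn
  rw [mem_box] at hi hn
  rcases lt_or_gt_of_ne h with h1 | h1
  · have := XX_gap h1
    have h3 : (0:ℝ) < 16 ^ n := by positivity
    linarith [hi.1.2, hn.1.1]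
  · have := XX_gap h1
    have h3 : (0:ℝ) < 16 ^ i := by positivity
    linarith [hi.1.1, hn.1.2]

noncomputable def vv (n : ℕ) : ℝ := aa n * 4 ^ n

theorem vv_pos (n : ℕ) : 0 < vv n := mul_pos (aa_pos n) (by positivity)

noncomputable def WW (x : Fin 2 → ℝ) : ℝ≥0∞ :=
  ∑' n : ℕ, (St n).indicator (fun _ => ENNReal.ofReal (vv n)) x

noncomputable def ww (x : Fin 2 → ℝ) : ℝ := (WW x).toReal

theorem meas_WW : Measurable WW := by
  unfold WW
  apply Measurable.tsum
  intro n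
  exact measurable_const.indicator (meas_box _ _ _ _)

theorem meas_ww : Measurable ww := meas_WW.ennreal_toReal

theorem ww_nonneg (x : Fin 2 → ℝ) : 0 ≤ ww x := ENNReal.toReal_nonneg

theorem tsum_ind {n : ℕ} {x : Fin 2 → ℝ} (hx : x ∈ St n) (g : ℕ → ℝ≥0∞) :
    ∑' k : ℕ, (St k).indicator (fun _ => g k) x = g n := by
  rw [tsum_eq_single n]
  · rw [Set.indicator_of_mem hx]
  · intro k hk
    rw [Set.indicator_of_notMem (St_disj hk.symm x hx)]

theorem tsum_ind_zero {x : Fin 2 → ℝ} (hx : ∀ n, x ∉ St n) (g : ℕ → ℝ≥0∞) :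
    ∑' k : ℕ, (St k).indicator (fun _ => g k) x = 0 := by
  rw [ENNReal.tsum_eq_zero]
  intro k
  rw [Set.indicator_of_notMem (hx k)]

theorem ww_of_mem {n : ℕ} {x : Fin 2 → ℝ} (hx : x ∈ St n) : ww x = vv n := by
  unfold ww WW
  rw [tsum_ind hx, ENNReal.toReal_ofReal (vv_pos n).le]

theorem ww_of_not {x : Fin 2 → ℝ} (hx : ∀ n, x ∉ St n) : ww x = 0 := by
  unfold ww WW
  rw [tsum_ind_zero hx]; simp

theorem G_ww (G : ℝ → ℝ≥0∞) (hG : G 0 = 0) (x : Fin 2 → ℝ) :
    G (ww x) = ∑' n : ℕ, (St n).indicator (fun _ => G (vv n)) x := by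
  by_cases h : ∃ n, x ∈ St n
  · obtain ⟨n, hn⟩ := h
    rw [ww_of_mem hn, tsum_ind hn]
  · push Not at h
    rw [ww_of_not h, hG, tsum_ind_zero h]

theorem lint_G (G : ℝ → ℝ≥0∞) (hG : G 0 = 0) (Q : Set (Fin 2 → ℝ)) :
    ∫⁻ x in Q, G (ww x) = ∑' n : ℕ, G (vv n) * volume (St n ∩ Q) := by
  simp_rw [G_ww G hG]
  rw [lintegral_tsum]
  · congr 1
    ext n
    have hm : MeasurableSet (St n) := meas_box _ _ _ _
    rw [lintegral_indicator hm, setLIntegral_const, Measure.restrict_apply hm]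
  · intro n
    exact (measurable_const.indicator (meas_box _ _ _ _)).aemeasurable

theorem vol_St (n : ℕ) : volume (St n) = ENNReal.ofReal ((1/4) ^ n) := by
  unfold St
  rw [vol_box]
  simp

def cube (a : Fin 2 → ℝ) (ℓ : ℝ) : Set (Fin 2 → ℝ) :=
  Set.univ.pi (fun i => Set.Ico (a i) (a i + ℓ))

theorem cube_eq (a : Fin 2 → ℝ) (ℓ : ℝ) : cube a ℓ = box (a 0) (a 0 + ℓ) (a 1) (a 1 + ℓ) := by
  ext x
  rw [mem_box]
  unfold cube
  rw [Set.mem_univ_pi, Fin.forall_fin_two]
  simp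

theorem vol_cube (a : Fin 2 → ℝ) (ℓ : ℝ) (hℓ : 0 < ℓ) : volume (cube a ℓ) = ENNReal.ofReal (ℓ ^ 2) := by
  rw [cube_eq, vol_box, add_sub_cancel_left, add_sub_cancel_left, ← ENNReal.ofReal_mul hℓ.le, sq]

theorem vol_inter_le (a : Fin 2 → ℝ) (ℓ : ℝ) (hℓ : 0 < ℓ) (n : ℕ) :
    volume (St n ∩ cube a ℓ) ≤ ENNReal.ofReal (min ℓ 1 * (1/4) ^ n) := by
  rcases le_total ℓ 1 with h | h
  · rw [min_eq_left h]
    have h1 : St n ∩ cube a ℓ ⊆ box (a 0) (a 0 + ℓ) 0 ((1/4) ^ n) := by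
      rintro x ⟨h1, h2⟩
      unfold St at h1
      rw [cube_eq] at h2
      rw [mem_box] at *
      exact ⟨h2.1, h1.2⟩
    refine (measure_mono h1).trans ?_
    rw [vol_box, add_sub_cancel_left, sub_zero, ENNReal.ofReal_mul hℓ.le]
  · rw [min_eq_right h, one_mul]
    exact (measure_mono Set.inter_subset_left).trans (vol_St n).le

theorem finite_idx (a : Fin 2 → ℝ) (ℓ : ℝ) : ∃ M : ℕ, ∀ n, M ≤ n → St n ∩ cube a ℓ = ∅ := by
  obtain ⟨M, hM⟩ := pow_unbounded_of_one_lt (a 0 + ℓ) (by norm_num : (1:ℝ) < 16)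
  refine ⟨M, fun n hn => ?_⟩
  rw [Set.eq_empty_iff_forall_notMem]
  rintro x ⟨h1, h2⟩
  unfold St at h1
  rw [cube_eq] at h2
  rw [mem_box] at *
  have h3 : (16:ℝ) ^ M ≤ XX n := by
    unfold XX
    exact pow_le_pow_right₀ (by norm_num) (by omega)
  linarith [h1.1.1, h2.1.2]

theorem Kbound (a : Fin 2 → ℝ) (ℓ : ℝ) (hℓ : 0 < ℓ) : ∃ l : ℝ, 0 < l ∧
    ∫⁻ x in cube a ℓ, ENNReal.ofReal (Phi (Real.sqrt (ww x) / l)) ≤ volume (cube a ℓ) ∧
    ENNReal.ofReal (l ^ 2) * ∫⁻ x in cube a ℓ, ENNReal.ofReal (ww x) ≤ 1 := by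
  classical
  have hG1 : ∀ l : ℝ, (fun s : ℝ => ENNReal.ofReal (Phi (Real.sqrt s / l))) 0 = 0 := by
    intro l; simp [Phi_zero]
  have hint1 : ∀ l : ℝ, ∫⁻ x in cube a ℓ, ENNReal.ofReal (Phi (Real.sqrt (ww x) / l)) =
      ∑' n : ℕ, ENNReal.ofReal (Phi (Real.sqrt (vv n) / l)) * volume (St n ∩ cube a ℓ) :=
    fun l => lint_G (fun s : ℝ => ENNReal.ofReal (Phi (Real.sqrt s / l))) (hG1 l) _
  have hint2 : ∫⁻ x in cube a ℓ, ENNReal.ofReal (ww x) =
      ∑' n : ℕ, ENNReal.ofReal (vv n) * volume (St n ∩ cube a ℓ) :=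
    lint_G (fun s : ℝ => ENNReal.ofReal s) (by simp) _
  simp_rw [hint1, hint2]
  rw [vol_cube a ℓ hℓ]
  set lam := min ℓ 1 with hlam
  have hlam0 : 0 < lam := lt_min hℓ one_pos
  have hlam1 : lam ≤ 1 := min_le_right _ _
  have hlaml : lam ≤ ℓ := min_le_left _ _
  by_cases hA : ∃ n, ∀ m, m ≠ n → St m ∩ cube a ℓ = ∅
  · obtain ⟨n, hn⟩ := hA
    have hal : 0 < aa n * lam := mul_pos (aa_pos n) hlam0
    refine ⟨(Real.sqrt (aa n * lam))⁻¹, by positivity, ?_, ?_⟩
    · rw [tsum_eq_single n (fun m hm => by rw [hn m hm]; simp)]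
      have hs : Real.sqrt (vv n) / (Real.sqrt (aa n * lam))⁻¹ = aa n * 2 ^ n * Real.sqrt lam := by
        rw [div_inv_eq_mul, ← Real.sqrt_mul (vv_pos n).le]
        unfold vv
        have h4 : (4:ℝ) ^ n = 2 ^ n * 2 ^ n := by rw [← mul_pow]; norm_num
        have : aa n * 4 ^ n * (aa n * lam) = (aa n * 2 ^ n) ^ 2 * lam := by rw [h4]; ring
        rw [this, Real.sqrt_mul (by positivity), Real.sqrt_sq]
        have := aa_pos n
        positivity
      rw [hs]
      have hsl : Real.sqrt lam ≤ 1 := Real.sqrt_le_one.2 hlam1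
      have hsl0 : 0 ≤ Real.sqrt lam := Real.sqrt_nonneg _
      have ha1 := aa_le_one n
      have ha0 := aa_pos n
      have hle : aa n * 2 ^ n * Real.sqrt lam ≤ 2 ^ n := by
        have h5 : (0:ℝ) < 2 ^ n := by positivity
        calc aa n * 2 ^ n * Real.sqrt lam ≤ 1 * 2 ^ n * 1 := by gcongr
          _ = 2 ^ n := by ring
      have hP := Phi_le n (aa n * 2 ^ n * Real.sqrt lam) (by positivity) hle
      have hP2 : (aa n * 2 ^ n * Real.sqrt lam) ^ 2 * be n = 4 ^ n * lam := by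
        have h4 : (4:ℝ) ^ n = 2 ^ n * 2 ^ n := by rw [← mul_pow]; norm_num
        rw [mul_pow, mul_pow, Real.sq_sqrt hlam0.le, h4]
        linear_combination (2 ^ n) ^ 2 * lam * aa_sq n
      rw [hP2] at hP
      calc ENNReal.ofReal (Phi (aa n * 2 ^ n * Real.sqrt lam)) * volume (St n ∩ cube a ℓ)
          ≤ ENNReal.ofReal (4 ^ n * lam) * ENNReal.ofReal (lam * (1/4) ^ n) := by
            gcongr
            exact vol_inter_le a ℓ hℓ n
        _ = ENNReal.ofReal (lam ^ 2) := by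
            rw [← ENNReal.ofReal_mul (by positivity)]
            congr 1
            rw [one_div, inv_pow]
            field_simp
        _ ≤ ENNReal.ofReal (ℓ ^ 2) := by
            apply ENNReal.ofReal_le_ofReal
            gcongr
    · rw [tsum_eq_single n (fun m hm => by rw [hn m hm]; simp)]
      calc ENNReal.ofReal ((Real.sqrt (aa n * lam))⁻¹ ^ 2) * (ENNReal.ofReal (vv n) * volume (St n ∩ cube a ℓ))
          ≤ ENNReal.ofReal ((Real.sqrt (aa n * lam))⁻¹ ^ 2) * (ENNReal.ofReal (vv n) *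
              ENNReal.ofReal (lam * (1/4) ^ n)) := by
            gcongr
            exact vol_inter_le a ℓ hℓ n
        _ = 1 := by
            rw [← ENNReal.ofReal_mul (vv_pos n).le, ← ENNReal.ofReal_mul (by positivity)]
            rw [← ENNReal.ofReal_one]
            congr 1
            rw [inv_pow, Real.sq_sqrt hal.le]
            unfold vv
            have := aa_pos n
            rw [one_div, inv_pow]
            field_simp
        _ ≤ 1 := le_rfl
  · push Not at hA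
    -- the largest index
    obtain ⟨M, hM⟩ := finite_idx a ℓ
    obtain ⟨m0, _, hm0⟩ := hA 0
    have hex : ∃ n, (St n ∩ cube a ℓ).Nonempty := ⟨m0, hm0⟩
    set N := Nat.findGreatest (fun n => (St n ∩ cube a ℓ).Nonempty) M with hN
    have hm0M : m0 ≤ M := by
      by_contra hc
      rw [hM m0 (by omega)] at hm0
      exact Set.not_nonempty_empty hm0
    have hNne : (St N ∩ cube a ℓ).Nonempty := Nat.findGreatest_spec (P := fun n => (St n ∩ cube a ℓ).Nonempty) hm0M hm0
    have hNmax : ∀ n, N < n → St n ∩ cube a ℓ = ∅ := by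
      intro n hn
      by_contra hc
      have hne : (St n ∩ cube a ℓ).Nonempty := Set.nonempty_iff_ne_empty.2 hc
      rcases le_or_gt M n with h | h
      · exact hc (hM n h)
      · exact Nat.findGreatest_is_greatest hn h.le hne
    obtain ⟨i, hiN, hi⟩ := hA N
    have hilt : i < N := by
      rcases lt_or_gt_of_ne hiN with h | h
      · exact h
      · rw [hNmax i h] at hi
        exact absurd hi Set.not_nonempty_empty
    have hgap : 14 * 16 ^ N ≤ ℓ := by
      obtain ⟨y, hy1, hy2⟩ := hi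
      obtain ⟨z, hz1, hz2⟩ := hNne
      unfold St at hy1 hz1
      rw [cube_eq] at hy2 hz2
      rw [mem_box] at *
      have := XX_gap hilt
      linarith [hy1.1.2, hy2.1.1, hz1.1.1, hz2.1.2]
    have hvol1 : ∀ n, volume (St n ∩ cube a ℓ) ≤ ENNReal.ofReal ((1/4) ^ n) :=
      fun n => (measure_mono Set.inter_subset_left).trans (vol_St n).le
    have hN2 : ((N:ℝ) + 1) ≤ 2 ^ N := by
      have : N + 1 ≤ 2 ^ N := Nat.lt_two_pow_self
      exact_mod_cast this
    refine ⟨(2 ^ N)⁻¹, by positivity, ?_, ?_⟩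
    · rw [tsum_eq_sum (s := Finset.range (N + 1)) (fun m hm => by
        rw [Finset.mem_range, not_lt] at hm
        rw [hNmax m (by omega)]; simp)]
      have hterm : ∀ n ∈ Finset.range (N + 1),
          ENNReal.ofReal (Phi (Real.sqrt (vv n) / (2 ^ N)⁻¹)) * volume (St n ∩ cube a ℓ) ≤
          ENNReal.ofReal (16 ^ N * (2 * 2 ^ N) ^ 2) := by
        intro n hn
        rw [Finset.mem_range] at hn
        have hv : Real.sqrt (vv n) ≤ 2 ^ N := by
          rw [Real.sqrt_le_left (by positivity)]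
          unfold vv
          have h4 : (4:ℝ) ^ n ≤ 4 ^ N := pow_le_pow_right₀ (by norm_num) (by omega)
          have h5 : (4:ℝ) ^ N = (2 ^ N) ^ 2 := by rw [← pow_mul, mul_comm, pow_mul]; norm_num
          have := aa_le_one n
          have := aa_pos n
          calc aa n * 4 ^ n ≤ 1 * 4 ^ N := by gcongr
            _ = _ := by rw [h5]; ring
        have harg : Real.sqrt (vv n) / (2 ^ N)⁻¹ ≤ 2 ^ (2 * N) := by
          rw [div_inv_eq_mul]
          calc Real.sqrt (vv n) * 2 ^ N ≤ 2 ^ N * 2 ^ N := by gcongr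
            _ = _ := by rw [← pow_add]; congr 1; ring
        have hPhi : Phi (Real.sqrt (vv n) / (2 ^ N)⁻¹) ≤ 16 ^ N * (2 * 2 ^ N) ^ 2 := by
          refine (Phi_mono harg).trans ((Phi_le (2 * N) _ (by positivity) le_rfl).trans ?_)
          have h6 : ((2:ℝ) ^ (2 * N)) ^ 2 = 16 ^ N := by
            rw [← pow_mul, show 2 * N * 2 = 4 * N by ring, pow_mul]; norm_num
          rw [h6]
          have h7 := be_le_sq (2 * N)
          have h8 : ((2 * N : ℕ) : ℝ) + 1 ≤ 2 * 2 ^ N := by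
            push_cast; linarith
          have h9 : (((2 * N : ℕ) : ℝ) + 1) ^ 2 ≤ (2 * 2 ^ N) ^ 2 := by
            apply pow_le_pow_left₀ (by positivity) h8
          have := h7.trans h9
          gcongr
        calc ENNReal.ofReal (Phi (Real.sqrt (vv n) / (2 ^ N)⁻¹)) * volume (St n ∩ cube a ℓ)
            ≤ ENNReal.ofReal (16 ^ N * (2 * 2 ^ N) ^ 2) * ENNReal.ofReal 1 := by
              gcongr
              refine (hvol1 n).trans (ENNReal.ofReal_le_ofReal ?_)
              exact pow_le_one₀ (by norm_num) (by norm_num)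
          _ = _ := by simp
      refine (Finset.sum_le_sum hterm).trans ?_
      rw [Finset.sum_const, Finset.card_range, nsmul_eq_mul]
      rw [show ((N + 1 : ℕ) : ℝ≥0∞) = ENNReal.ofReal ((N:ℝ) + 1) by
        rw [ENNReal.ofReal_add (by positivity) (by norm_num)]; simp]
      rw [← ENNReal.ofReal_mul (by positivity)]
      apply ENNReal.ofReal_le_ofReal
      have h2N : (0:ℝ) < 2 ^ N := by positivity
      have h16 : (16:ℝ) ^ N = (2 ^ N) ^ 4 := by
        rw [← pow_mul, mul_comm, pow_mul]; norm_num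
      have h1le : (1:ℝ) ≤ 2 ^ N := one_le_pow₀ (by norm_num)
      calc ((N:ℝ) + 1) * (16 ^ N * (2 * 2 ^ N) ^ 2) ≤ 2 ^ N * (16 ^ N * (2 * 2 ^ N) ^ 2) := by gcongr
        _ = 4 * (2 ^ N) ^ 7 := by rw [h16]; ring
        _ ≤ 196 * (2 ^ N) ^ 8 := by
            have : ((2:ℝ) ^ N) ^ 7 ≤ (2 ^ N) ^ 8 := pow_le_pow_right₀ h1le (by norm_num)
            have h7 : (0:ℝ) < (2 ^ N) ^ 7 := by positivity
            linarith
        _ = (14 * 16 ^ N) ^ 2 := by rw [h16]; ring
        _ ≤ ℓ ^ 2 := by gcongr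
    · rw [tsum_eq_sum (s := Finset.range (N + 1)) (fun m hm => by
        rw [Finset.mem_range, not_lt] at hm
        rw [hNmax m (by omega)]; simp)]
      have hterm : ∀ n ∈ Finset.range (N + 1),
          ENNReal.ofReal (vv n) * volume (St n ∩ cube a ℓ) ≤ 1 := by
        intro n _
        calc ENNReal.ofReal (vv n) * volume (St n ∩ cube a ℓ)
            ≤ ENNReal.ofReal (vv n) * ENNReal.ofReal ((1/4) ^ n) := by
              gcongr
              exact hvol1 n
          _ = ENNReal.ofReal (aa n) := by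
              rw [← ENNReal.ofReal_mul (vv_pos n).le]
              congr 1
              unfold vv
              rw [one_div, inv_pow]
              field_simp
          _ ≤ 1 := by
              rw [← ENNReal.ofReal_one]
              exact ENNReal.ofReal_le_ofReal (aa_le_one n)
      calc ENNReal.ofReal (((2:ℝ) ^ N)⁻¹ ^ 2) * ∑ n ∈ Finset.range (N + 1),
            ENNReal.ofReal (vv n) * volume (St n ∩ cube a ℓ)
          ≤ ENNReal.ofReal (((2:ℝ) ^ N)⁻¹ ^ 2) * ∑ n ∈ Finset.range (N + 1), 1 := by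
            gcongr with n hn
            exact hterm n hn
        _ = ENNReal.ofReal (((2:ℝ) ^ N)⁻¹ ^ 2 * ((N:ℝ) + 1)) := by
            rw [Finset.sum_const, Finset.card_range, nsmul_eq_mul, mul_one,
              ENNReal.ofReal_mul (by positivity)]
            congr 1
            rw [ENNReal.ofReal_add (by positivity) (by norm_num)]; simp
        _ ≤ 1 := by
            rw [← ENNReal.ofReal_one]
            apply ENNReal.ofReal_le_ofReal
            have h2N : (0:ℝ) < 2 ^ N := by positivity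
            have h1le : (1:ℝ) ≤ 2 ^ N := one_le_pow₀ (by norm_num)
            rw [inv_pow, inv_mul_le_iff₀ (by positivity), mul_one]
            nlinarith

end Pool.Agent.H433R3.Bump
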