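import Mathlib
import Pool.Agent.H433R3.Bump2

set_option autoImplicit false
open MeasureTheory Filter Topology
open scoped ENNReal

namespace Pool.Agent.H433R3.Bump

theorem ww_locInt : LocallyIntegrable ww volume := by
  intro x
  refine ⟨Metric.ball x 1, Metric.ball_mem_nhds x one_pos, ?_⟩
  apply Measure.integrableOn_of_bounded (M := |x 0| + 1) measure_ball_lt_top.ne
    meas_ww.aestronglyMeasurable
  rw [ae_restrict_iff' Metric.isOpen_ball.measurableSet]
  refine Eventually.of_forall fun y hy => ?_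
  rw [Real.norm_of_nonneg (ww_nonneg y)]
  by_cases h : ∃ n, y ∈ St n
  · obtain ⟨n, hn⟩ := h
    rw [ww_of_mem hn]
    have h1 : dist (y 0) (x 0) < 1 := lt_of_le_of_lt (dist_le_pi_dist y x 0) hy
    rw [Real.dist_eq] at h1
    have h2 := (abs_lt.1 h1).2
    unfold St at hn
    rw [mem_box] at hn
    have h3 := hn.1.1
    unfold XX at h3
    have h4 : (4:ℝ) ^ n ≤ 16 ^ (n + 1) := by
      calc (4:ℝ) ^ n ≤ 16 ^ n := pow_le_pow_left₀ (by norm_num) (by norm_num) n
        _ ≤ 16 ^ (n + 1) := pow_le_pow_right₀ (by norm_num) (by omega)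
    have h5 := le_abs_self (x 0)
    have h6 := aa_le_one n
    have h7 := aa_pos n
    have h8 : (0:ℝ) < 4 ^ n := by positivity
    unfold vv
    nlinarith
  · push Not at h
    rw [ww_of_not h]
    positivity

noncomputable def AA (x : Fin 2 → ℝ) (n j : ℕ) : Set (Fin 2 → ℝ) :=
  box (x 0 + (1/2) ^ (j + 2)) (x 0 + (1/2) ^ (j + 1)) 0 ((1/4) ^ n)

theorem lower (n : ℕ) (x : Fin 2 → ℝ) (hx : x ∈ St n) (hx2 : x 0 < XX n + 1/2) :
    ENNReal.ofReal (aa n * (n / 2)) ≤
      ∫⁻ y, (St n).indicator 1 y * ENNReal.ofReal (ww y) *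
        ENNReal.ofReal (Real.sqrt (∑ i, (x i - y i) ^ 2) ^ ((1:ℝ) - ((2:ℕ):ℝ))) := by
  set g : (Fin 2 → ℝ) → ℝ≥0∞ := fun y => (St n).indicator 1 y * ENNReal.ofReal (ww y) *
        ENNReal.ofReal (Real.sqrt (∑ i, (x i - y i) ^ 2) ^ ((1:ℝ) - ((2:ℕ):ℝ))) with hg
  have hxb := hx
  unfold St at hxb
  rw [mem_box] at hxb
  have hsub : ∀ j, AA x n j ⊆ St n := by
    intro j y hy
    unfold AA at hy
    unfold St
    rw [mem_box] at *
    have h1 : (0:ℝ) < (1/2) ^ (j + 2) := by positivity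
    have h2 : ((1:ℝ)/2) ^ (j + 1) ≤ 1/2 := by
      rw [pow_succ]
      have : ((1:ℝ)/2) ^ j ≤ 1 := pow_le_one₀ (by norm_num) (by norm_num)
      linarith
    refine ⟨⟨by linarith [hy.1.1, hxb.1.1], by linarith [hy.1.2]⟩, hy.2⟩
  have hpt : ∀ j ∈ Finset.range (2 * n), ∀ y ∈ AA x n j, ENNReal.ofReal (vv n * 2 ^ j) ≤ g y := by
    intro j hj y hy
    rw [Finset.mem_range] at hj
    have hyS := hsub j hy
    simp only [hg]
    rw [Set.indicator_of_mem hyS, ww_of_mem hyS]
    simp only [Pi.one_apply, one_mul]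
    rw [← ENNReal.ofReal_mul (vv_pos n).le]
    apply ENNReal.ofReal_le_ofReal
    apply mul_le_mul_of_nonneg_left _ (vv_pos n).le
    have hyb := hy
    unfold AA at hyb
    rw [mem_box] at hyb
    rw [Fin.sum_univ_two, show (1:ℝ) - ((2:ℕ):ℝ) = -1 by norm_num, Real.rpow_neg_one]
    have hq : ((1:ℝ)/4) ^ n ≤ (1/2) ^ (j + 1) := by
      rw [show ((1:ℝ)/4) = (1/2) ^ 2 by norm_num, ← pow_mul]
      exact pow_le_pow_of_le_one (by norm_num) (by norm_num) (by omega)
    have hp2 : (0:ℝ) < (1/2) ^ (j + 2) := by positivity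
    have hp1 : (0:ℝ) < (1/2) ^ (j + 1) := by positivity
    have e0 : (x 0 - y 0) ^ 2 ≤ ((1/2) ^ (j + 1)) ^ 2 := by
      apply sq_le_sq' <;> linarith [hyb.1.1, hyb.1.2]
    have e1 : (x 1 - y 1) ^ 2 ≤ ((1/2) ^ (j + 1)) ^ 2 := by
      have a1 := hxb.2.1
      have a2 := hxb.2.2
      have a3 := hyb.2.1
      have a4 := hyb.2.2
      apply sq_le_sq' <;> linarith
    have hr : Real.sqrt ((x 0 - y 0) ^ 2 + (x 1 - y 1) ^ 2) ≤ (1/2) ^ j := by
      rw [Real.sqrt_le_left (by positivity)]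
      have : ((1:ℝ)/2) ^ j = 2 * (1/2) ^ (j + 1) := by rw [pow_succ]; ring
      rw [this]
      nlinarith
    have hr0 : 0 < Real.sqrt ((x 0 - y 0) ^ 2 + (x 1 - y 1) ^ 2) := by
      apply Real.sqrt_pos.2
      have : 0 < y 0 - x 0 := by linarith [hyb.1.1]
      nlinarith [sq_nonneg (x 1 - y 1)]
    have h2j : (2:ℝ) ^ j = ((1/2) ^ j)⁻¹ := by
      rw [one_div, inv_pow, inv_inv]
    rw [h2j]
    exact inv_anti₀ hr0 hr
  have hmeas : ∀ j, MeasurableSet (AA x n j) := fun j => meas_box _ _ _ _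
  have hdisj : Set.PairwiseDisjoint (Finset.range (2 * n) : Set ℕ) (AA x n) := by
    intro j _ k _ hjk
    have key : ∀ j k : ℕ, j < k → Disjoint (AA x n j) (AA x n k) := by
      intro j k h
      rw [Set.disjoint_left]
      intro y h1 h2
      unfold AA at h1 h2
      rw [mem_box] at h1 h2
      have : ((1:ℝ)/2) ^ (k + 1) ≤ (1/2) ^ (j + 2) :=
        pow_le_pow_of_le_one (by norm_num) (by norm_num) (by omega)
      linarith [h1.1.1, h2.1.2]
    rcases lt_or_gt_of_ne hjk with h | h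
    · exact key j k h
    · exact (key k j h).symm
  calc ENNReal.ofReal (aa n * (n / 2))
      = ∑ j ∈ Finset.range (2 * n), ENNReal.ofReal (vv n * 2 ^ j) * volume (AA x n j) := by
        have h1 : ∀ j ∈ Finset.range (2 * n),
            ENNReal.ofReal (vv n * 2 ^ j) * volume (AA x n j) = ENNReal.ofReal (aa n / 4) := by
          intro j _
          unfold AA
          have h2 : x 0 + ((1:ℝ)/2) ^ (j + 1) - (x 0 + (1/2) ^ (j + 2)) = (1/2) ^ (j + 2) := by
            rw [pow_succ _ (j + 1)]; ring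
          rw [vol_box, h2, sub_zero, ← ENNReal.ofReal_mul (by positivity),
            ← ENNReal.ofReal_mul (mul_nonneg (vv_pos n).le (by positivity))]
          congr 1
          unfold vv
          rw [pow_add]
          have e1 : ((1:ℝ)/2) ^ j = (2 ^ j)⁻¹ := by rw [one_div, inv_pow]
          have e2 : ((1:ℝ)/4) ^ n = (4 ^ n)⁻¹ := by rw [one_div, inv_pow]
          rw [e1, e2]
          have p1 : (2:ℝ) ^ j ≠ 0 := by positivity
          have p2 : (4:ℝ) ^ n ≠ 0 := by positivity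
          field_simp
          norm_num
        rw [Finset.sum_congr rfl h1, Finset.sum_const, Finset.card_range, nsmul_eq_mul]
        rw [show ((2 * n : ℕ) : ℝ≥0∞) = ENNReal.ofReal (2 * (n:ℝ)) by
          rw [ENNReal.ofReal_mul (by norm_num)]; simp]
        rw [← ENNReal.ofReal_mul (by positivity)]
        congr 1
        ring
    _ ≤ ∑ j ∈ Finset.range (2 * n), ∫⁻ y in AA x n j, g y := by
        apply Finset.sum_le_sum
        intro j hj
        rw [← setLIntegral_const]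
        exact setLIntegral_mono' (hmeas j) (hpt j hj)
    _ = ∫⁻ y in ⋃ j ∈ Finset.range (2 * n), AA x n j, g y :=
        (lintegral_biUnion_finset hdisj (fun j _ => hmeas j) g).symm
    _ ≤ ∫⁻ y, g y := lintegral_mono' Measure.restrict_le_self le_rfl

theorem final (C : ℝ) (hC : ∀ f : (Fin 2 → ℝ) → ℝ≥0∞, Measurable f →
      ∫⁻ x, (∫⁻ y, f y * ENNReal.ofReal (ww y) *
          ENNReal.ofReal (Real.sqrt (∑ i, (x i - y i) ^ 2) ^ ((1:ℝ) - ((2:ℕ):ℝ)))) ^ (2:ℝ)
          * ENNReal.ofReal (ww x)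
        ≤ ENNReal.ofReal C * ∫⁻ y, f y ^ (2:ℝ) * ENNReal.ofReal (ww y)) : False := by
  have key : ∀ n : ℕ, (n:ℝ) ^ 2 ≤ 8 * max C 0 * be n := by
    intro n
    have hm : MeasurableSet (St n) := meas_box _ _ _ _
    have h1 := hC ((St n).indicator 1) (measurable_one.indicator hm)
    have hR : ∫⁻ y, (St n).indicator (1 : (Fin 2 → ℝ) → ℝ≥0∞) y ^ (2:ℝ) * ENNReal.ofReal (ww y) =
        ENNReal.ofReal (aa n) := by
      have : ∀ y, (St n).indicator (1 : (Fin 2 → ℝ) → ℝ≥0∞) y ^ (2:ℝ) * ENNReal.ofReal (ww y) =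
          (St n).indicator (fun _ => ENNReal.ofReal (vv n)) y := by
        intro y
        by_cases hy : y ∈ St n
        · rw [Set.indicator_of_mem hy, Set.indicator_of_mem hy, ww_of_mem hy]; simp
        · rw [Set.indicator_of_notMem hy, Set.indicator_of_notMem hy]; simp
      simp_rw [this]
      rw [lintegral_indicator hm, setLIntegral_const, vol_St, ← ENNReal.ofReal_mul (vv_pos n).le]
      congr 1
      unfold vv
      rw [one_div, inv_pow]; field_simp
    rw [hR] at h1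
    have hL : ENNReal.ofReal ((aa n * (n / 2)) ^ 2 * (aa n / 2)) ≤ ∫⁻ x, (∫⁻ y, (St n).indicator (1 : (Fin 2 → ℝ) → ℝ≥0∞) y * ENNReal.ofReal (ww y) *
          ENNReal.ofReal (Real.sqrt (∑ i, (x i - y i) ^ 2) ^ ((1:ℝ) - ((2:ℕ):ℝ)))) ^ (2:ℝ)
          * ENNReal.ofReal (ww x) := by
      set H := box (XX n) (XX n + 1/2) 0 ((1/4) ^ n) with hH
      have hHm : MeasurableSet H := meas_box _ _ _ _
      have hHS : H ⊆ St n := by
        intro x hx
        unfold St
        rw [hH, mem_box] at hx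
        rw [mem_box]
        exact ⟨⟨hx.1.1, by linarith [hx.1.2]⟩, hx.2⟩
      calc ENNReal.ofReal ((aa n * (n / 2)) ^ 2 * (aa n / 2))
          = ∫⁻ x in H, ENNReal.ofReal (aa n * (n / 2)) ^ (2:ℝ) * ENNReal.ofReal (vv n) := by
            rw [setLIntegral_const, hH, vol_box, sub_zero, add_sub_cancel_left]
            have ha := aa_pos n
            rw [ENNReal.ofReal_rpow_of_nonneg (by positivity) (by norm_num),
              ← ENNReal.ofReal_mul (by positivity), ← ENNReal.ofReal_mul (by positivity),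
              ← ENNReal.ofReal_mul (mul_nonneg (by positivity) (vv_pos n).le)]
            congr 1
            rw [Real.rpow_two]
            unfold vv
            rw [one_div (4:ℝ), inv_pow]; field_simp
        _ ≤ ∫⁻ x in H, (∫⁻ y, (St n).indicator (1 : (Fin 2 → ℝ) → ℝ≥0∞) y * ENNReal.ofReal (ww y) *
          ENNReal.ofReal (Real.sqrt (∑ i, (x i - y i) ^ 2) ^ ((1:ℝ) - ((2:ℕ):ℝ)))) ^ (2:ℝ)
          * ENNReal.ofReal (ww x) := by
            apply setLIntegral_mono' hHm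
            intro x hx
            rw [ww_of_mem (hHS hx)]
            gcongr
            apply lower n x (hHS hx)
            rw [hH, mem_box] at hx
            exact hx.1.2
        _ ≤ _ := lintegral_mono' Measure.restrict_le_self le_rfl
    have h2 := hL.trans h1
    have h3 : ENNReal.ofReal C ≤ ENNReal.ofReal (max C 0) := ENNReal.ofReal_le_ofReal (le_max_left _ _)
    have h4 : ENNReal.ofReal ((aa n * (n / 2)) ^ 2 * (aa n / 2)) ≤ ENNReal.ofReal (max C 0 * aa n) := by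
      rw [ENNReal.ofReal_mul (le_max_right _ _)]
      exact h2.trans (by gcongr)
    have ha := aa_pos n
    rw [ENNReal.ofReal_le_ofReal_iff (mul_nonneg (le_max_right _ _) ha.le)] at h4
    have h5 : (aa n) ^ 2 * (n:ℝ) ^ 2 ≤ 8 * max C 0 := by
      have : (aa n * ((n:ℝ) / 2)) ^ 2 * (aa n / 2) = (aa n ^ 2 * (n:ℝ) ^ 2 / 8) * aa n := by ring
      rw [this] at h4
      have := le_of_mul_le_mul_right h4 ha
      linarith
    have h6 := aa_sq n
    have hb := be_pos n
    calc (n:ℝ) ^ 2 = (aa n ^ 2 * be n) * (n:ℝ) ^ 2 := by rw [h6, one_mul]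
      _ = (aa n ^ 2 * (n:ℝ) ^ 2) * be n := by ring
      _ ≤ 8 * max C 0 * be n := mul_le_mul_of_nonneg_right h5 hb.le
  obtain ⟨M, hM⟩ := exists_nat_gt (32 * max C 0 + 2)
  have hD : 0 ≤ max C 0 := le_max_right _ _
  set D := max C 0
  have hM2 : (2:ℝ) < M := by linarith
  have hM2' : 2 < M := by exact_mod_cast hM2
  have h := key (M ^ 2 - 1)
  have hc : ((M ^ 2 - 1 : ℕ) : ℝ) = (M:ℝ) ^ 2 - 1 := by
    rw [Nat.cast_sub (Nat.one_le_pow _ _ (by omega))]; simp
  unfold be at h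
  rw [hc, sub_add_cancel, Real.sqrt_sq (by positivity)] at h
  have hM0 : (0:ℝ) < M := by linarith
  have hq : (4:ℝ) ≤ (M:ℝ) ^ 2 := by nlinarith
  have h1 : ((M:ℝ) ^ 2) ^ 2 / 4 ≤ ((M:ℝ) ^ 2 - 1) ^ 2 := by
    nlinarith [mul_nonneg (sub_nonneg.2 hq) (sub_nonneg.2 hq)]
  have h2 : (M:ℝ) ^ 4 ≤ (32 * D) * (M:ℝ) ^ 3 := by nlinarith
  have h3 : (M:ℝ) * (M:ℝ) ^ 3 ≤ (32 * D) * (M:ℝ) ^ 3 := by nlinarith
  have h4 := le_of_mul_le_mul_right h3 (by positivity)
  linarith

end Pool.Agent.H433R3.Bump
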