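import Mathlib

/-!
# The endpoint `α = 0`: the self-similar weight

Definitions and elementary facts.
-/

set_option autoImplicit false

namespace Pool.Agent.H433R3.Ce

open MeasureTheory

/-- `2^{-i}`. -/
noncomputable def pw (i : ℕ) : ℝ := (1 / 2 : ℝ) ^ i

lemma pw_pos (i : ℕ) : 0 < pw i := by unfold pw; positivity

lemma pw_succ (i : ℕ) : pw (i + 1) = pw i / 2 := by unfold pw; rw [pow_succ]; ring

lemma pw_zero : pw 0 = 1 := by simp [pw]

lemma pw_add (i j : ℕ) : pw (i + j) = pw i * pw j := by unfold pw; rw [pow_add]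

lemma pw_anti {i j : ℕ} (h : i ≤ j) : pw j ≤ pw i :=
  pow_le_pow_of_le_one (by norm_num) (by norm_num) h

lemma pw_le_one (i : ℕ) : pw i ≤ 1 := by
  have := pw_anti (Nat.zero_le i); rwa [pw_zero] at this

/-- Centre of the child `i`. -/
noncomputable def cc (i : ℕ) : ℝ := 3 / 4 * pw i

/-- Radius of the child `i`. -/
noncomputable def lm (K i : ℕ) : ℝ := pw i / (16 * K)

/-- The child `i`. -/
def ch (K i : ℕ) : Set ℝ := {x | |x - cc i| < lm K i}

/-- The background. -/
noncomputable def bb (K M : ℕ) (x : ℝ) : ℝ :=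
  min (max (pw K / |x|) (pw K)) (max (|x| / pw K) (pw M))

/-- The weights. -/
noncomputable def ww (K M : ℕ) : ℕ → ℝ → ℝ
  | 0, x => if |x| < 1 then 1 else pw K
  | g + 1, x => bb K M x + ∑ i ∈ Finset.range K, (ch K i).indicator
      (fun x => 8 * K * ww K M g ((x - cc i) / lm K i) - bb K M x) x

section
variable {K M : ℕ}

lemma lm_pos (hK : 1 ≤ K) (i : ℕ) : 0 < lm K i := by
  unfold lm
  have : (0:ℝ) < K := by exact_mod_cast hK
  have := pw_pos i
  positivity

lemma lm_le (hK : 1 ≤ K) (i : ℕ) : lm K i ≤ pw i / 16 := by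
  unfold lm
  have h1 : (1:ℝ) ≤ K := by exact_mod_cast hK
  have := pw_pos i
  apply div_le_div_of_nonneg_left this.le (by norm_num) (by linarith)

lemma lm_mul (hK : 1 ≤ K) (i : ℕ) : lm K i * (8 * K) = pw (i + 1) := by
  unfold lm
  have : (0:ℝ) < K := by exact_mod_cast hK
  rw [pw_succ]
  field_simp
  ring

lemma ch_zone (hK : 1 ≤ K) {i : ℕ} {x : ℝ} (hx : x ∈ ch K i) :
    11 / 16 * pw i < x ∧ x < 13 / 16 * pw i := by
  have h : |x - cc i| < lm K i := hx
  have h1 := lm_le hK i
  have h2 := abs_lt.mp h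
  unfold cc at h2
  constructor <;> linarith [h2.1, h2.2]

lemma ch_disj (hK : 1 ≤ K) {i j : ℕ} {x : ℝ} (hx : x ∈ ch K i) (hy : x ∈ ch K j) : i = j := by
  have h1 := ch_zone hK hx
  have h2 := ch_zone hK hy
  rcases lt_trichotomy i j with h | h | h
  · have h3 := pw_anti (Nat.succ_le_of_lt h)
    rw [Nat.succ_eq_add_one, pw_succ] at h3
    have := pw_pos i
    exfalso; linarith [h1.1, h2.2]
  · exact h
  · have h3 := pw_anti (Nat.succ_le_of_lt h)
    rw [Nat.succ_eq_add_one, pw_succ] at h3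
    have := pw_pos j
    exfalso; linarith [h2.1, h1.2]

lemma ch_meas (i : ℕ) : MeasurableSet (ch K i) := by
  unfold ch
  exact measurableSet_lt (by fun_prop) measurable_const

lemma ww_ch (hK : 1 ≤ K) (g : ℕ) {i : ℕ} (hi : i < K) {x : ℝ} (hx : x ∈ ch K i) :
    ww K M (g + 1) x = 8 * K * ww K M g ((x - cc i) / lm K i) := by
  rw [ww, Finset.sum_eq_single i]
  · rw [Set.indicator_of_mem hx]; ring
  · intro j _ hj
    apply Set.indicator_of_notMem
    intro h
    exact hj (ch_disj hK h hx)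
  · intro h
    exact absurd (Finset.mem_range.mpr hi) h

lemma ww_out (g : ℕ) {x : ℝ} (hx : ∀ i < K, x ∉ ch K i) : ww K M (g + 1) x = bb K M x := by
  rw [ww, Finset.sum_eq_zero]
  · ring
  · intro i hi
    exact Set.indicator_of_notMem (hx i (Finset.mem_range.mp hi)) _

lemma ww_cases (hK : 1 ≤ K) (g : ℕ) (x : ℝ) :
    (∃ i < K, x ∈ ch K i ∧ ww K M (g + 1) x = 8 * K * ww K M g ((x - cc i) / lm K i)) ∨
      ww K M (g + 1) x = bb K M x := by
  by_cases h : ∃ i < K, x ∈ ch K i
  · obtain ⟨i, hi, hx⟩ := h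
    exact Or.inl ⟨i, hi, hx, ww_ch hK g hi hx⟩
  · push Not at h
    exact Or.inr (ww_out g h)

lemma bb_meas : Measurable (bb K M) := by
  unfold bb
  fun_prop

lemma ww_meas (g : ℕ) : Measurable (ww K M g) := by
  induction g with
  | zero =>
    have : ww K M 0 = fun x => if |x| < 1 then 1 else pw K := by funext x; rw [ww]
    rw [this]
    exact Measurable.ite (measurableSet_lt (by fun_prop) measurable_const) measurable_const
      measurable_const
  | succ g ih =>
    have : ww K M (g + 1) = fun x => bb K M x + ∑ i ∈ Finset.range K, (ch K i).indicator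
      (fun x => 8 * K * ww K M g ((x - cc i) / lm K i) - bb K M x) x := by funext x; rw [ww]
    rw [this]
    apply bb_meas.add
    apply Finset.measurable_sum
    intro i _
    apply Measurable.indicator _ (ch_meas i)
    have h1 : Measurable (fun x : ℝ => ww K M g ((x - cc i) / lm K i)) := ih.comp (by fun_prop)
    exact (h1.const_mul _).sub bb_meas

lemma bb_le (x : ℝ) : bb K M x ≤ 1 := by
  unfold bb
  by_cases h : pw K ≤ |x|
  · apply (min_le_left _ _).trans
    apply max_le _ (pw_le_one K)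
    exact div_le_one_of_le₀ h (abs_nonneg _)
  · push Not at h
    apply (min_le_right _ _).trans
    apply max_le _ (pw_le_one M)
    exact div_le_one_of_le₀ h.le (pw_pos K).le

lemma bb_ge (hKM : K ≤ M) (x : ℝ) : pw M ≤ bb K M x :=
  le_min ((pw_anti hKM).trans (le_max_right _ _)) (le_max_right _ _)

/-- For `|x| ≥ 2^{-K}`. -/
lemma bb_far {x : ℝ} (h : pw K ≤ |x|) : bb K M x = max (pw K / |x|) (pw K) := by
  unfold bb
  apply min_eq_left
  have h1 : max (pw K / |x|) (pw K) ≤ 1 :=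
    max_le (div_le_one_of_le₀ h (abs_nonneg _)) (pw_le_one K)
  apply h1.trans
  apply le_max_of_le_left
  rwa [one_le_div (pw_pos K)]

lemma bb_far_ge {x : ℝ} (h : pw K ≤ |x|) : pw K ≤ bb K M x := by
  rw [bb_far h]; exact le_max_right _ _

lemma bb_near (hKM : K ≤ M) {x : ℝ} (h : |x| ≤ pw K) : bb K M x = max (|x| / pw K) (pw M) := by
  unfold bb
  apply min_eq_right
  by_cases hx0 : x = 0
  · rw [hx0]
    simp only [abs_zero, zero_div]
    rw [max_eq_right (pw_pos M).le]
    exact (pw_anti hKM).trans (le_max_right _ _)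
  have h1 : max (|x| / pw K) (pw M) ≤ 1 :=
    max_le (div_le_one_of_le₀ h (pw_pos K).le) (pw_le_one M)
  apply h1.trans
  apply le_max_of_le_left
  rwa [one_le_div (abs_pos.mpr hx0)]

/-- The background varies slowly. -/
lemma bb_comp {c x y : ℝ} (hc : 1 ≤ c) (hx : 0 < |x|) (hy : 0 < |y|) (hxy : |x| ≤ c * |y|)
    (hyx : |y| ≤ c * |x|) : bb K M x ≤ c * bb K M y := by
  unfold bb
  have hK := pw_pos K
  have hM := pw_pos M
  have hc0 : 0 ≤ c := by linarith
  rw [mul_min_of_nonneg _ _ hc0, mul_max_of_nonneg _ _ hc0, mul_max_of_nonneg _ _ hc0]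
  apply min_le_min
  · apply max_le_max
    · rw [mul_div_assoc', div_le_div_iff₀ hx hy]
      nlinarith
    · nlinarith
  · apply max_le_max
    · rw [mul_div_assoc']
      exact div_le_div_of_nonneg_right hxy hK.le
    · nlinarith

lemma ww_pos (hK : 1 ≤ K) (g : ℕ) (x : ℝ) : 0 < ww K M g x := by
  induction g generalizing x with
  | zero => rw [ww]; split_ifs <;> [exact one_pos; exact pw_pos K]
  | succ g ih =>
    rcases ww_cases (M := M) hK g x with ⟨i, _, _, h⟩ | h
    · rw [h]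
      have : (0:ℝ) < K := by exact_mod_cast hK
      have := ih ((x - cc i) / lm K i)
      positivity
    · rw [h]
      unfold bb
      exact lt_min (lt_max_of_lt_right (pw_pos K)) (lt_max_of_lt_right (pw_pos M))

lemma ww_ge (hK : 1 ≤ K) (hKM : K ≤ M) (g : ℕ) (x : ℝ) : pw M ≤ ww K M g x := by
  induction g generalizing x with
  | zero =>
    rw [ww]
    split_ifs
    · exact pw_le_one M
    · exact pw_anti hKM
  | succ g ih =>
    rcases ww_cases (M := M) hK g x with ⟨i, _, _, h⟩ | h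
    · rw [h]
      have h1 : (1:ℝ) ≤ K := by exact_mod_cast hK
      have h2 := ih ((x - cc i) / lm K i)
      have := pw_pos M
      nlinarith
    · rw [h]
      exact bb_ge hKM x

lemma ww_le (hK : 1 ≤ K) (g : ℕ) (x : ℝ) : ww K M g x ≤ (8 * K) ^ g := by
  have h1 : (1:ℝ) ≤ K := by exact_mod_cast hK
  induction g generalizing x with
  | zero =>
    rw [ww]
    split_ifs
    · simp
    · simpa using pw_le_one K
  | succ g ih =>
    rcases ww_cases (M := M) hK g x with ⟨i, _, _, h⟩ | h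
    · rw [h, pow_succ']
      have h2 := ih ((x - cc i) / lm K i)
      gcongr
    · rw [h]
      exact (bb_le x).trans (one_le_pow₀ (by linarith))

end

/-- Bounded measurable functions. -/
structure BM (f : ℝ → ℝ) : Prop where
  m : Measurable f
  b : ∃ C, ∀ x, |f x| ≤ C

lemma BM.int {f : ℝ → ℝ} (hf : BM f) {s : Set ℝ} (hs : volume s ≠ ⊤) : IntegrableOn f s := by
  obtain ⟨C, hC⟩ := hf.b
  exact Measure.integrableOn_of_bounded (M := C) hs hf.m.aestronglyMeasurable
    (ae_of_all _ (fun x => by rw [Real.norm_eq_abs]; exact hC x))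

lemma si_mono {f : ℝ → ℝ} (hf : BM f) (h0 : ∀ x, 0 ≤ f x) {s t : Set ℝ} (hst : s ⊆ t)
    (ht : volume t ≠ ⊤) : ∫ x in s, f x ≤ ∫ x in t, f x :=
  setIntegral_mono_set (hf.int ht) (ae_of_all _ h0) (ae_of_all _ hst)

lemma si_le {f : ℝ → ℝ} (hf : BM f) {s : Set ℝ} (hs : MeasurableSet s) (hsf : volume s ≠ ⊤) {q : ℝ}
    (h : ∀ x ∈ s, f x ≤ q) : ∫ x in s, f x ≤ q * volume.real s := by
  have := setIntegral_mono_on (hf.int hsf) (integrableOn_const hsf (C := q)) hs h
  rwa [setIntegral_const, smul_eq_mul, mul_comm] at this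

lemma si_ge {f : ℝ → ℝ} (hf : BM f) {s : Set ℝ} (hs : MeasurableSet s) (hsf : volume s ≠ ⊤) {q : ℝ}
    (h : ∀ x ∈ s, q ≤ f x) : q * volume.real s ≤ ∫ x in s, f x := by
  have := setIntegral_mono_on (integrableOn_const hsf (C := q)) (hf.int hsf) hs h
  rwa [setIntegral_const, smul_eq_mul, mul_comm] at this

lemma si_union {f : ℝ → ℝ} (hf : BM f) {s t : Set ℝ} (hd : Disjoint s t) (ht : MeasurableSet t)
    (hsf : volume s ≠ ⊤) (htf : volume t ≠ ⊤) :
    ∫ x in s ∪ t, f x = (∫ x in s, f x) + ∫ x in t, f x :=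
  setIntegral_union hd ht (hf.int hsf) (hf.int htf)

/-- The ball. -/
def B (m : ℕ) : Set ℝ := {x | |x| < pw m}

/-- The zones. -/
def Z (i : ℕ) : Set ℝ := {x | pw (i + 1) ≤ |x| ∧ |x| < pw i}

lemma B_meas (m : ℕ) : MeasurableSet (B m) := measurableSet_lt (by fun_prop) measurable_const

lemma B_eq (m : ℕ) : B m = Set.Ioo (-pw m) (pw m) := by
  ext x
  exact (abs_lt (a := x) (b := pw m))

lemma B_vol (m : ℕ) : volume (B m) = ENNReal.ofReal (2 * pw m) := by
  rw [B_eq, Real.volume_Ioo]; congr 1; ring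

lemma B_fin (m : ℕ) : volume (B m) ≠ ⊤ := by rw [B_vol]; exact ENNReal.ofReal_ne_top

lemma B_real (m : ℕ) : volume.real (B m) = 2 * pw m := by
  rw [measureReal_def, B_vol, ENNReal.toReal_ofReal]
  have := pw_pos m
  positivity

lemma Z_meas (i : ℕ) : MeasurableSet (Z i) := by
  have h1 : MeasurableSet {x : ℝ | pw (i + 1) ≤ |x|} :=
    measurableSet_le measurable_const (by fun_prop)
  have h2 : MeasurableSet {x : ℝ | |x| < pw i} := measurableSet_lt (by fun_prop) measurable_const
  exact h1.inter h2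

lemma Z_sub (i : ℕ) : Z i ⊆ B i := fun _ hx => hx.2

lemma Z_fin (i : ℕ) : volume (Z i) ≠ ⊤ := ne_top_of_le_ne_top (B_fin i) (measure_mono (Z_sub i))

lemma B_split (m : ℕ) : B m = Z m ∪ B (m + 1) := by
  ext x
  have h2 : pw (m + 1) ≤ pw m := pw_anti (Nat.le_succ m)
  constructor
  · intro h
    have h' : |x| < pw m := h
    by_cases h1 : pw (m + 1) ≤ |x|
    · exact Or.inl ⟨h1, h'⟩
    · exact Or.inr (not_le.mp h1)
  · rintro (h | h)
    · exact h.2
    · have h' : |x| < pw (m + 1) := h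
      exact lt_of_lt_of_le h' h2

lemma ZB_disj (m : ℕ) : Disjoint (Z m) (B (m + 1)) := by
  rw [Set.disjoint_left]
  intro x h1 h2
  have h2' : |x| < pw (m + 1) := h2
  exact absurd h1.1 (not_le.mpr h2')

lemma Z_real (i : ℕ) : volume.real (Z i) = pw i := by
  have h := measureReal_union (μ := volume) (ZB_disj i) (B_meas (i + 1)) (Z_fin i) (B_fin (i + 1))
  rw [← B_split, B_real, B_real, pw_succ] at h
  linarith

lemma si_split {f : ℝ → ℝ} (hf : BM f) (m : ℕ) :
    ∫ x in B m, f x = (∫ x in Z m, f x) + ∫ x in B (m + 1), f x := by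
  rw [B_split m, si_union hf (ZB_disj m) (B_meas _) (Z_fin m) (B_fin _)]

lemma zl_le {f : ℝ → ℝ} (hf : BM f) (β : ℕ → ℝ) {m n : ℕ} (hmn : m ≤ n)
    (h : ∀ i, m ≤ i → i < n → ∫ x in Z i, f x ≤ β i - β (i + 1)) (hn : ∫ x in B n, f x ≤ β n) :
    ∫ x in B m, f x ≤ β m := by
  induction hmn using Nat.decreasingInduction with
  | self => exact hn
  | of_succ m hm ih =>
    rw [si_split hf]
    have h1 := h m le_rfl hm
    have h2 := ih (fun i hi hi' => h i (by omega) hi')
    linarith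

lemma zl_ge {f : ℝ → ℝ} (hf : BM f) (β : ℕ → ℝ) {m n : ℕ} (hmn : m ≤ n)
    (h : ∀ i, m ≤ i → i < n → β i - β (i + 1) ≤ ∫ x in Z i, f x) (hn : β n ≤ ∫ x in B n, f x) :
    β m ≤ ∫ x in B m, f x := by
  induction hmn using Nat.decreasingInduction with
  | self => exact hn
  | of_succ m hm ih =>
    rw [si_split hf]
    have h1 := h m le_rfl hm
    have h2 := ih (fun i hi hi' => h i (by omega) hi')
    linarith

/-- Rescaling a child. -/
lemma si_child {K i : ℕ} (hK : 1 ≤ K) (φ ψ : ℝ → ℝ) (S : Set ℝ)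
    (h : ∀ x ∈ ch K i, φ x = ψ ((x - cc i) / lm K i)) (hS : MeasurableSet S) :
    ∫ x in S ∩ ch K i, φ x = lm K i * ∫ y in {y | cc i + lm K i * y ∈ S} ∩ B 0, ψ y := by
  have hl := lm_pos hK i
  have hS' : MeasurableSet {y | cc i + lm K i * y ∈ S} := by
    have : Measurable (fun y : ℝ => cc i + lm K i * y) := by fun_prop
    exact this hS
  rw [← integral_indicator (hS.inter (ch_meas i)), ← integral_indicator (hS'.inter (B_meas 0))]
  set G : ℝ → ℝ := ({y | cc i + lm K i * y ∈ S} ∩ B 0).indicator ψ with hG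
  have h1 : (S ∩ ch K i).indicator φ = fun x => G ((x - cc i) / lm K i) := by
    funext x
    have e1 : cc i + lm K i * ((x - cc i) / lm K i) = x := by field_simp; ring
    have e2 : (x - cc i) / lm K i ∈ B 0 ↔ x ∈ ch K i := by
      show |(x - cc i) / lm K i| < pw 0 ↔ |x - cc i| < lm K i
      rw [abs_div, abs_of_pos hl, div_lt_iff₀ hl, pw_zero, one_mul]
    by_cases hx : x ∈ S ∩ ch K i
    · rw [Set.indicator_of_mem hx, hG, Set.indicator_of_mem, h x hx.2]
      refine ⟨?_, e2.mpr hx.2⟩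
      show cc i + lm K i * ((x - cc i) / lm K i) ∈ S
      rw [e1]; exact hx.1
    · rw [Set.indicator_of_notMem hx, hG, Set.indicator_of_notMem]
      intro hy
      apply hx
      have hy1 : cc i + lm K i * ((x - cc i) / lm K i) ∈ S := hy.1
      rw [e1] at hy1
      exact ⟨hy1, e2.mp hy.2⟩
  rw [h1]
  have h2 := integral_sub_right_eq_self (μ := volume) (fun x => G (x / lm K i)) (cc i)
  have h3 := Measure.integral_comp_div G (lm K i)
  calc ∫ x, G ((x - cc i) / lm K i) = ∫ x, G (x / lm K i) := h2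
    _ = |lm K i| • ∫ y, G y := h3
    _ = lm K i * ∫ y, G y := by rw [abs_of_pos hl, smul_eq_mul]

end Pool.Agent.H433R3.Ce
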