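import Pool.Agent.H433R3.Sep23

set_option autoImplicit false
set_option linter.unusedSectionVars false
set_option linter.unusedVariables false

namespace Pool.Agent.H433R3.Sep

open MeasureTheory Metric Filter Topology
open scoped ENNReal NNReal

variable {d : ℕ} {𝕜 : Type*} [RCLike 𝕜]

/-- Operators on functions which are bounded and linear on `L²` give continuous linear maps. -/
lemma exists_clm {T : ((Fin d → ℝ) → 𝕜) → ((Fin d → ℝ) → 𝕜)}
    (mem : ∀ f, MemLp f 2 volume → MemLp (T f) 2 volume)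
    (add : ∀ f g, MemLp f 2 volume → MemLp g 2 volume →
      T (fun x => f x + g x) =ᵐ[volume] fun x => T f x + T g x)
    (smul : ∀ (c : 𝕜) (f : (Fin d → ℝ) → 𝕜), MemLp f 2 volume →
      T (fun x => c * f x) =ᵐ[volume] fun x => c * T f x)
    (bound : ∃ A : ℝ≥0, ∀ f, MemLp f 2 volume → eLpNorm (T f) 2 volume ≤ A * eLpNorm f 2 volume) :
    ∃ T' : Lp 𝕜 2 (volume : Measure (Fin d → ℝ)) →L[𝕜] Lp 𝕜 2 (volume : Measure (Fin d → ℝ)),
      ∀ f (hf : MemLp f 2 volume), T' (hf.toLp f) =ᵐ[volume] T f := by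
  obtain ⟨A, hA⟩ := bound
  have congr : ∀ f g, MemLp f 2 volume → MemLp g 2 volume → f =ᵐ[volume] g →
      T f =ᵐ[volume] T g := by
    intro f g hf hg hfg
    have hg' : MemLp (fun x => (-1:𝕜) * g x) 2 volume := hg.const_mul (-1)
    have h1 := add f (fun x => (-1:𝕜) * g x) hf hg'
    have h2 := smul (-1) g hg
    have h3 : MemLp (fun x => f x + (-1:𝕜) * g x) 2 volume := hf.add hg'
    have h4 := hA _ h3
    have h5 : (fun x => f x + (-1:𝕜) * g x) =ᵐ[volume] fun _ => (0:𝕜) := by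
      filter_upwards [hfg] with x hx
      rw [hx]; ring
    have h0 : eLpNorm (fun _ : Fin d → ℝ => (0:𝕜)) 2 volume = 0 := eLpNorm_zero
    rw [eLpNorm_congr_ae h5, h0, mul_zero] at h4
    have h6 : T (fun x => f x + (-1:𝕜) * g x) =ᵐ[volume] 0 :=
      (eLpNorm_eq_zero_iff (mem _ h3).1 (by norm_num)).1 (le_antisymm h4 bot_le)
    filter_upwards [h1, h2, h6] with x hx1 hx2 hx3
    rw [hx1] at hx3
    have hx2' : T (fun x => (-1:𝕜) * g x) x = -1 * T g x := hx2
    rw [hx2'] at hx3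
    have hx4 : T f x + -1 * T g x = 0 := hx3
    have : T f x = T g x + (T f x + -1 * T g x) := by ring
    rw [this, hx4, add_zero]
  have hLp : ∀ f (hf : MemLp f 2 volume), T (hf.toLp f) =ᵐ[volume] T f := fun f hf =>
    congr _ _ (Lp.memLp _) hf hf.coeFn_toLp
  refine ⟨LinearMap.mkContinuous
    { toFun := fun u => (mem u (Lp.memLp u)).toLp (T u)
      map_add' := ?_
      map_smul' := ?_ } A ?_, ?_⟩
  · intro u v
    rw [← MemLp.toLp_add]
    apply MemLp.toLp_congr
    have h1 : T (u + v : Lp 𝕜 2 (volume : Measure (Fin d → ℝ))) =ᵐ[volume] T (fun x => u x + v x) :=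
      congr _ _ (Lp.memLp _) ((Lp.memLp u).add (Lp.memLp v)) (Lp.coeFn_add u v)
    exact h1.trans (add _ _ (Lp.memLp u) (Lp.memLp v))
  · intro c u
    rw [RingHom.id_apply, ← MemLp.toLp_const_smul]
    apply MemLp.toLp_congr
    have h1 : T (c • u : Lp 𝕜 2 (volume : Measure (Fin d → ℝ))) =ᵐ[volume] T (fun x => c * u x) :=
      congr _ _ (Lp.memLp _) ((Lp.memLp u).const_mul c) (by
        filter_upwards [Lp.coeFn_smul c u] with x hx
        rw [hx]; rfl)
    exact h1.trans (smul c _ (Lp.memLp u))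
  · intro u
    show ‖(mem u (Lp.memLp u)).toLp (T u)‖ ≤ A * ‖u‖
    rw [Lp.norm_toLp, Lp.norm_def]
    have h1 := hA u (Lp.memLp u)
    have h2 : (A * eLpNorm u 2 volume : ℝ≥0∞) ≠ ∞ :=
      ENNReal.mul_ne_top ENNReal.coe_ne_top (Lp.memLp u).2.ne
    calc (eLpNorm (T u) 2 volume).toReal ≤ (A * eLpNorm u 2 volume : ℝ≥0∞).toReal :=
          ENNReal.toReal_mono h2 h1
      _ = _ := by rw [ENNReal.toReal_mul]; rfl
  · intro f hf
    show (mem _ (Lp.memLp (hf.toLp f))).toLp (T (hf.toLp f)) =ᵐ[volume] T f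
    exact (MemLp.coeFn_toLp _).trans (hLp f hf)

end Pool.Agent.H433R3.Sep
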