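import Pool.Agent.H433R3.Ml11
import Pool.Agent.H433R3.Sep24

/-!
# One-supremum mixed `A_p`-`A_∞` bounds for Calderon-Zygmund operators, `0 < α < 1`

For every Calderon-Zygmund operator `T` on `ℝ^d`, every `1 < p < ∞` and every `0 < α < 1`, with
`θ = 1 / (p - α)`, `η = 1 / (p' - α)`, the weak type norm of `T` on `L^p(w)` is at most a constant times
`[w]_{(A_p)^θ (A_∞^exp)^{1-θ}}`, and the strong type norm is at most a constant times
`[w]_{(A_p)^θ (A_∞^exp)^{1-θ}} + [σ]_{(A_{p'})^η (A_∞^exp)^{1-η}}`, for all `w ∈ A_p`.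
-/

set_option autoImplicit false

namespace Pool.Agent.H433R3.MixedSup

open MeasureTheory Filter Topology
open scoped ENNReal NNReal

/-- The cube in `ℝ^d` with lower corner `a` and side length `l`, sides parallel to the axes. -/
def cube {d : ℕ} (a : Fin d → ℝ) (l : ℝ) : Set (Fin d → ℝ) := {x | ∀ i, a i ≤ x i ∧ x i < a i + l}

/-- The average of a function over a set, with respect to Lebesgue measure. -/
noncomputable def avg {d : ℕ} (v : (Fin d → ℝ) → ℝ) (Q : Set (Fin d → ℝ)) : ℝ :=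
  (volume Q).toReal⁻¹ * ∫ x in Q, v x

/-- The dual weight `w^{1-p'}`, where `p' = p / (p - 1)`. -/
noncomputable def dual {d : ℕ} (p : ℝ) (w : (Fin d → ℝ) → ℝ) (x : Fin d → ℝ) : ℝ :=
  w x ^ (1 - p / (p - 1))

/-- `A_p(w, Q)`. -/
noncomputable def Ap {d : ℕ} (p : ℝ) (w : (Fin d → ℝ) → ℝ) (Q : Set (Fin d → ℝ)) : ℝ :=
  avg w Q * avg (dual p w) Q ^ (p - 1)

/-- `A_∞^exp(w, Q)`. -/
noncomputable def Aexp {d : ℕ} (w : (Fin d → ℝ) → ℝ) (Q : Set (Fin d → ℝ)) : ℝ :=
  avg w Q * Real.exp (avg (fun x => Real.log (w x)⁻¹) Q)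

/-- The one-supremum constant `[w]_{(A_p)^a (A_∞^exp)^b}`. -/
noncomputable def oneSup {d : ℕ} (p a b : ℝ) (w : (Fin d → ℝ) → ℝ) : ℝ≥0∞ :=
  ⨆ (c : Fin d → ℝ) (l : ℝ) (_ : 0 < l),
    ENNReal.ofReal (Ap p w (cube c l) ^ a * Aexp w (cube c l) ^ b)

/-- The class `A_p`: positive weights, locally integrable together with the dual weight, with
`sup_Q A_p(w, Q) < ∞`. -/
structure MemAp {d : ℕ} (p : ℝ) (w : (Fin d → ℝ) → ℝ) : Prop where
  pos : ∀ x, 0 < w x
  loc : LocallyIntegrable w volume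
  locDual : LocallyIntegrable (dual p w) volume
  bdd : ∃ M : ℝ, ∀ (c : Fin d → ℝ) (l : ℝ), 0 < l → Ap p w (cube c l) ≤ M

/-- The measure `w dx`. -/
noncomputable def wm {d : ℕ} (w : (Fin d → ℝ) → ℝ) : Measure (Fin d → ℝ) :=
  volume.withDensity (fun x => ENNReal.ofReal (w x))

/-- Euclidean length in `ℝ^d`. -/
noncomputable def len {d : ℕ} (x : Fin d → ℝ) : ℝ := Real.sqrt (∑ i, x i ^ 2)

section ops

variable {𝕜 : Type*} [RCLike 𝕜] {d : ℕ}

/-- `T` is a bounded linear operator on `L²(ℝ^d)`, given by its action on square integrable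
functions, up to null sets. -/
structure IsL2Op (T : ((Fin d → ℝ) → 𝕜) → ((Fin d → ℝ) → 𝕜)) : Prop where
  mem : ∀ f, MemLp f 2 volume → MemLp (T f) 2 volume
  add : ∀ f g, MemLp f 2 volume → MemLp g 2 volume →
    T (fun x => f x + g x) =ᵐ[volume] fun x => T f x + T g x
  smul : ∀ (c : 𝕜) (f : (Fin d → ℝ) → 𝕜), MemLp f 2 volume →
    T (fun x => c * f x) =ᵐ[volume] fun x => c * T f x
  bound : ∃ A : ℝ≥0, ∀ f, MemLp f 2 volume → eLpNorm (T f) 2 volume ≤ A * eLpNorm f 2 volume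

/-- `T` is a Calderon-Zygmund operator with kernel `K`. The representation formula is only asked for
bounded `f` with compact support. -/
structure IsCZO (T : ((Fin d → ℝ) → 𝕜) → ((Fin d → ℝ) → 𝕜))
    (K : (Fin d → ℝ) → (Fin d → ℝ) → 𝕜) : Prop where
  l2 : IsL2Op T
  rep : ∀ f : (Fin d → ℝ) → 𝕜, MemLp f 2 volume → (∃ B : ℝ, ∀ x, ‖f x‖ ≤ B) →
    HasCompactSupport f → ∀ᵐ x, x ∉ tsupport f → T f x = ∫ y, K x y * f y
  size : ∃ C : ℝ, ∀ x y, x ≠ y → ‖K x y‖ ≤ C / len (x - y) ^ d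
  reg : ∃ C α : ℝ, 0 < α ∧ α ≤ 1 ∧ ∀ x x' y, x ≠ y → len (x - x') ≤ len (x - y) / 2 →
    ‖K x y - K x' y‖ + ‖K y x - K y x'‖ ≤ C * len (x - x') ^ α / len (x - y) ^ ((d : ℝ) + α)

end ops

section aux

open Pool.Agent.H433R3

variable {𝕜 : Type*} [RCLike 𝕜] {d : ℕ}
variable {T : ((Fin d → ℝ) → 𝕜) → ((Fin d → ℝ) → 𝕜)}
variable {K : (Fin d → ℝ) → (Fin d → ℝ) → 𝕜}

lemma IsCZO.toSep (h : IsCZO T K) :
    ∃ T' : Lp 𝕜 2 (volume : Measure (Fin d → ℝ)) →L[𝕜] Lp 𝕜 2 (volume : Measure (Fin d → ℝ)),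
      Sep.IsCZO T' K ∧ ∀ f, MemLp f 2 volume → Sep.TT T' f =ᵐ[volume] T f := by
  obtain ⟨T', hT'⟩ := Sep.exists_clm h.l2.mem h.l2.add h.l2.smul h.l2.bound
  refine ⟨T', ⟨?_, h.size, h.reg⟩, ?_⟩
  · intro f hf hB hc
    filter_upwards [hT' f hf, h.rep f hf hB hc] with x hx hx' hxs
    rw [hx, hx' hxs]
  · intro f hf
    rw [Sep.TT_eq hf]
    exact hT' f hf

lemma cube_meas (a : Fin d → ℝ) (l : ℝ) : MeasurableSet (cube a l) := by
  have : cube a l = Set.pi Set.univ (fun i => Set.Ico (a i) (a i + l)) := by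
    ext x
    simp only [cube, Set.mem_univ_pi, Set.mem_Ico, Set.mem_ofPred_eq]
  rw [this]
  exact MeasurableSet.univ_pi (fun i => measurableSet_Ico)

lemma int_cube {v : (Fin d → ℝ) → ℝ} (hv : LocallyIntegrable v volume) (a : Fin d → ℝ) (l : ℝ) :
    IntegrableOn v (cube a l) := by
  apply IntegrableOn.mono_set (LocallyIntegrable.integrableOn_isCompact hv
    (isCompact_Icc (a := a) (b := fun i => a i + l)))
  intro x hx
  have hx' : ∀ i, a i ≤ x i ∧ x i < a i + l := hx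
  exact ⟨fun i => (hx' i).1, fun i => (hx' i).2.le⟩

lemma avg_congr {u v : (Fin d → ℝ) → ℝ} (huv : u =ᵐ[volume] v) (Q : Set (Fin d → ℝ)) :
    avg u Q = avg v Q := by
  unfold avg
  rw [integral_congr_ae (ae_restrict_of_ae huv)]

lemma dual_dual {p : ℝ} (hp : 1 < p) {w : (Fin d → ℝ) → ℝ} (hw : ∀ x, 0 < w x) :
    dual (p / (p - 1)) (dual p w) = w := by
  funext x
  unfold dual
  rw [← Real.rpow_mul (hw x).le]
  have hp1 : p - 1 ≠ 0 := by
    have : 0 < p - 1 := by linarith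
    exact this.ne'
  have e1 : p / (p - 1) - 1 = 1 / (p - 1) := by field_simp; ring
  have e2 : p / (p - 1) / (p / (p - 1) - 1) = p := by
    rw [e1]; field_simp
  have : (1 - p / (p - 1)) * (1 - p / (p - 1) / (p / (p - 1) - 1)) = 1 := by
    rw [e2]; field_simp; ring
  rw [this, Real.rpow_one]

lemma eLp_eq {p : ℝ} (hp : 0 < p) (μ : Measure (Fin d → ℝ)) (f : (Fin d → ℝ) → 𝕜) :
    eLpNorm f (ENNReal.ofReal p) μ = (∫⁻ x, ‖f x‖ₑ ^ p ∂μ) ^ (1 / p) := by
  have h0 : ENNReal.ofReal p ≠ 0 := by simpa using hp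
  rw [eLpNorm_eq_lintegral_rpow_enorm_toReal h0 ENNReal.ofReal_ne_top, ENNReal.toReal_ofReal hp.le]

end aux

open Pool.Agent.H433R3 in
/-- **One-supremum mixed bounds for `0 < α < 1`.** -/
theorem both {d : ℕ} (hd : 0 < d) {𝕜 : Type*} [RCLike 𝕜] {p α : ℝ} (hp : 1 < p) (hα : 0 < α)
    (hα1 : α < 1) (T : ((Fin d → ℝ) → 𝕜) → ((Fin d → ℝ) → 𝕜))
    (K : (Fin d → ℝ) → (Fin d → ℝ) → 𝕜) (hT : IsCZO T K) :
    ∃ C : ℝ≥0, ∀ w : (Fin d → ℝ) → ℝ, MemAp p w →
      ∀ f : (Fin d → ℝ) → 𝕜, MemLp f 2 volume → MemLp f (ENNReal.ofReal p) (wm w) →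
        (∀ lam : ℝ≥0, (lam : ℝ≥0∞) * wm w {x | (lam : ℝ≥0∞) < ‖T f x‖ₑ} ^ (1 / p) ≤
          C * oneSup p (1 / (p - α)) (1 - 1 / (p - α)) w *
            eLpNorm f (ENNReal.ofReal p) (wm w)) ∧
        eLpNorm (T f) (ENNReal.ofReal p) (wm w) ≤
          C * (oneSup p (1 / (p - α)) (1 - 1 / (p - α)) w +
            oneSup (p / (p - 1)) (1 / (p / (p - 1) - α)) (1 - 1 / (p / (p - 1) - α))
              (dual p w)) * eLpNorm f (ENNReal.ofReal p) (wm w) := by
  have hp0 : 0 < p := by linarith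
  have hp1 : 0 < p - 1 := by linarith
  set q : ℝ := p / (p - 1) with hq
  have hpq : p.HolderConjugate q := Real.HolderConjugate.conjExponent hp
  have hq1 : 1 < q := hpq.symm.lt
  have hq0 := hpq.symm.pos
  set θ : ℝ := 1 / (p - α) with hθd
  set η : ℝ := 1 / (q - α) with hηd
  have hθ : 1 / p < θ := one_div_lt_one_div_of_lt (by linarith) (by linarith)
  have hη : 1 / q < η := one_div_lt_one_div_of_lt (by linarith) (by linarith)
  obtain ⟨T', hT', hTT⟩ := hT.toSep
  obtain ⟨C, hC⟩ := Ml.czoGen hd hT' hpq hθ hη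
  refine ⟨C ^ (1 / p) + 1, ?_⟩
  intro w hw f hf2 hfp
  -- a measurable representative of the weight
  obtain ⟨v, hv, hwv⟩ := (LocallyIntegrable.aestronglyMeasurable hw.loc).aemeasurable
  set w' : (Fin d → ℝ) → ℝ := fun x => if 0 < v x then v x else 1 with hw'd
  have hw'm : Measurable w' := Measurable.ite (measurableSet_lt measurable_const hv) hv
    measurable_const
  have hw'0 : ∀ x, 0 < w' x := by
    intro x
    simp only [hw'd]
    split_ifs with h
    · exact h
    · exact one_pos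
  have hww : w =ᵐ[volume] w' := by
    filter_upwards [hwv] with x hx
    have h1 := hw.pos x
    rw [hx] at h1
    simp only [hw'd]
    rw [if_pos h1, hx]
  have hdd : dual p w =ᵐ[volume] Ml.sg q w' := by
    filter_upwards [hww] with x hx
    unfold dual Ml.sg
    rw [hx]
  have hWM : wm w = Ml.WM w' := by
    unfold wm Ml.WM
    apply withDensity_congr_ae
    filter_upwards [hww] with x hx
    rw [hx]
  have hWD : Ml.WData q w' := by
    refine ⟨hw'm, hw'0, ?_, ?_⟩
    · intro c l _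
      exact (int_cube hw.loc c l).congr_fun_ae (ae_restrict_of_ae hww)
    · intro c l _
      exact (int_cube hw.locDual c l).congr_fun_ae (ae_restrict_of_ae hdd)
  have hcube : ∀ (c : Fin d → ℝ) (l : ℝ), Sep.cube c l = cube c l := fun c l => rfl
  have hav : ∀ {a b : (Fin d → ℝ) → ℝ}, a =ᵐ[volume] b → ∀ Q, Ml.AV b Q = avg a Q := by
    intro a b hab Q
    rw [avg_congr hab]; rfl
  have hlog : (fun x => Real.log (w x)⁻¹) =ᵐ[volume] fun x => Real.log (w' x)⁻¹ := by
    filter_upwards [hww] with x hx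
    rw [hx]
  have hlogd : (fun x => Real.log (dual p w x)⁻¹) =ᵐ[volume]
      fun x => Real.log (Ml.sg q w' x)⁻¹ := by
    filter_upwards [hdd] with x hx
    rw [hx]
  have hS1 : oneSup p θ (1 - θ) w ≠ ∞ → Ml.OneSup p θ (oneSup p θ (1 - θ) w).toReal w'
      (Ml.sg q w') := by
    intro hne c l hl
    rw [hcube, hav hww, hav hdd, hav hlog]
    rw [← ENNReal.ofReal_le_iff_le_toReal hne]
    unfold oneSup
    exact le_iSup_of_le c (le_iSup_of_le l (le_iSup_of_le hl le_rfl))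
  have hS2 : oneSup q η (1 - η) (dual p w) ≠ ∞ →
      Ml.OneSup q η (oneSup q η (1 - η) (dual p w)).toReal (Ml.sg q w') w' := by
    intro hne c l hl
    rw [hcube, hav hww, hav hdd, hav hlogd]
    rw [← ENNReal.ofReal_le_iff_le_toReal hne]
    unfold oneSup
    refine le_iSup_of_le c (le_iSup_of_le l (le_iSup_of_le hl (le_of_eq ?_)))
    unfold Ap Aexp
    rw [dual_dual hp hw.pos]
  -- integrals
  set I := ∫⁻ x, ‖f x‖ₑ ^ p ∂(wm w) with hI
  have hfI : eLpNorm f (ENNReal.ofReal p) (wm w) = I ^ (1 / p) := eLp_eq hp0 _ f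
  have hIfin : I ≠ ∞ := by
    intro h
    have h1 := hfp.2
    rw [hfI, h, ENNReal.top_rpow_of_pos (by positivity)] at h1
    exact absurd h1 (lt_irrefl _)
  have hac : wm w ≪ volume := withDensity_absolutelyContinuous _ _
  have hTf : Sep.TT T' f =ᵐ[wm w] T f := hac.ae_le (hTT f hf2)
  have hTI : eLpNorm (T f) (ENNReal.ofReal p) (wm w) =
      (∫⁻ x, ‖Sep.TT T' f x‖ₑ ^ p ∂(wm w)) ^ (1 / p) := by
    rw [← eLpNorm_congr_ae hTf]
    exact eLp_eq hp0 _ _
  have hset : ∀ lam : ℝ≥0∞, wm w {x | lam < ‖T f x‖ₑ} = wm w {x | lam < ‖Sep.TT T' f x‖ₑ} := by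
    intro lam
    apply measure_congr
    filter_upwards [hTf] with x hx
    show (lam < ‖T f x‖ₑ) = (lam < ‖Sep.TT T' f x‖ₑ)
    rw [hx]
  -- the degenerate case
  have hzero : I = 0 → T f =ᵐ[wm w] fun _ => 0 := by
    intro h0
    have hfm : AEMeasurable (fun x => ‖f x‖ₑ ^ p) (wm w) := (hfp.1.enorm).pow_const p
    have h1 := (lintegral_eq_zero_iff' hfm).1 h0
    have hac' : (volume : Measure (Fin d → ℝ)) ≪ wm w := by
      apply withDensity_absolutelyContinuous'
      · exact (LocallyIntegrable.aestronglyMeasurable hw.loc).aemeasurable.ennreal_ofReal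
      · exact Eventually.of_forall (fun x => by
          have := hw.pos x
          simpa using this)
    have h2 : f =ᵐ[volume] fun _ => 0 := by
      filter_upwards [hac'.ae_le h1] with x hx
      have h3 : ‖f x‖ₑ ^ p = 0 := hx
      rw [ENNReal.rpow_eq_zero_iff_of_pos hp0] at h3
      exact enorm_eq_zero.1 h3
    have h3 : Sep.TT T' f = Sep.TT T' (fun _ => 0) := Sep.TT_congr h2
    filter_upwards [hTf, hac.ae_le (Sep.TT_zero (T := T'))] with x hx hx'
    rw [← hx, h3, hx']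
  have hC1 : ((C ^ (1 / p) : ℝ≥0) : ℝ≥0∞) = (C : ℝ≥0∞) ^ (1 / p) :=
    ENNReal.coe_rpow_of_nonneg _ (by positivity)
  have hCle : (C : ℝ≥0∞) ^ (1 / p) ≤ ((C ^ (1 / p) + 1 : ℝ≥0) : ℝ≥0∞) := by
    rw [ENNReal.coe_add, hC1]; exact le_self_add
  have hC0 : ((C ^ (1 / p) + 1 : ℝ≥0) : ℝ≥0∞) ≠ 0 := by
    have : 0 < C ^ (1 / p) + 1 := by positivity
    exact_mod_cast this.ne'
  constructor
  · intro lam
    rw [hfI, hset]
    by_cases hS : oneSup p θ (1 - θ) w = ∞
    · by_cases hI0 : I = 0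
      · have h1 : wm w {x | (lam : ℝ≥0∞) < ‖Sep.TT T' f x‖ₑ} = 0 := by
          rw [← hset]
          have h2 : wm w {x | (lam : ℝ≥0∞) < ‖T f x‖ₑ} = wm w ∅ := by
            apply measure_congr
            filter_upwards [hzero hI0] with x hx
            show ((lam : ℝ≥0∞) < ‖T f x‖ₑ) = False
            rw [hx]; simp
          rw [h2, measure_empty]
        rw [h1, ENNReal.zero_rpow_of_pos (by positivity), mul_zero]
        exact bot_le
      · have h1 : I ^ (1 / p) ≠ 0 := by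
          rw [Ne, ENNReal.rpow_eq_zero_iff_of_pos (by positivity)]
          exact hI0
        rw [hS, ENNReal.mul_top hC0, ENNReal.top_mul h1]
        exact le_top
    · rcases eq_or_lt_of_le (bot_le : (0:ℝ≥0) ≤ lam) with h0 | h0
      · rw [← h0]; simp
      · have h1 := (hC w' hWD _ ENNReal.toReal_nonneg (hS1 hS) f hf2 (by rw [← hWM]; exact hIfin)).1
          (lam : ℝ) (by exact_mod_cast h0)
        rw [← hWM, ENNReal.ofReal_coe_nnreal] at h1
        have h2 := ENNReal.rpow_le_rpow h1 (z := 1 / p) (by positivity)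
        rw [ENNReal.mul_rpow_of_nonneg _ _ (by positivity), ENNReal.mul_rpow_of_nonneg _ _
          (by positivity), ENNReal.mul_rpow_of_nonneg _ _ (by positivity)] at h2
        have e1 : ENNReal.ofReal ((lam : ℝ) ^ p) ^ (1 / p) = (lam : ℝ≥0∞) := by
          rw [ENNReal.ofReal_rpow_of_nonneg (by positivity) (by positivity),
            ← Real.rpow_mul lam.coe_nonneg, mul_one_div_cancel hp0.ne', Real.rpow_one,
            ENNReal.ofReal_coe_nnreal]
        have e2 : ENNReal.ofReal ((oneSup p θ (1 - θ) w).toReal ^ p) ^ (1 / p) =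
            oneSup p θ (1 - θ) w := by
          rw [ENNReal.ofReal_rpow_of_nonneg (by positivity) (by positivity),
            ← Real.rpow_mul ENNReal.toReal_nonneg, mul_one_div_cancel hp0.ne', Real.rpow_one,
            ENNReal.ofReal_toReal hS]
        rw [e1, e2] at h2
        refine h2.trans ?_
        apply mul_le_mul' _ le_rfl
        exact mul_le_mul' hCle le_rfl
  · rw [hfI, hTI]
    by_cases hS : oneSup p θ (1 - θ) w + oneSup q η (1 - η) (dual p w) = ∞
    · by_cases hI0 : I = 0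
      · have h1 : ∫⁻ x, ‖Sep.TT T' f x‖ₑ ^ p ∂(wm w) = 0 := by
          rw [lintegral_congr_ae (g := fun _ => 0)]
          · simp
          · filter_upwards [hTf, hzero hI0] with x hx hx'
            rw [hx, hx', enorm_zero, ENNReal.zero_rpow_of_pos hp0]
        rw [h1, ENNReal.zero_rpow_of_pos (by positivity)]
        exact bot_le
      · have h1 : I ^ (1 / p) ≠ 0 := by
          rw [Ne, ENNReal.rpow_eq_zero_iff_of_pos (by positivity)]
          exact hI0
        rw [hS, ENNReal.mul_top hC0, ENNReal.top_mul h1]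
        exact le_top
    · obtain ⟨hSa, hSb⟩ := ENNReal.add_ne_top.1 hS
      have h1 := (hC w' hWD _ ENNReal.toReal_nonneg (hS1 hSa) f hf2
        (by rw [← hWM]; exact hIfin)).2 _ ENNReal.toReal_nonneg (hS2 hSb)
      rw [← hWM] at h1
      have h2 := ENNReal.rpow_le_rpow h1 (z := 1 / p) (by positivity)
      rw [ENNReal.mul_rpow_of_nonneg _ _ (by positivity), ENNReal.mul_rpow_of_nonneg _ _
          (by positivity)] at h2
      have e2 : ENNReal.ofReal (((oneSup p θ (1 - θ) w).toReal +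
          (oneSup q η (1 - η) (dual p w)).toReal) ^ p) ^ (1 / p) =
          oneSup p θ (1 - θ) w + oneSup q η (1 - η) (dual p w) := by
        rw [ENNReal.ofReal_rpow_of_nonneg (by positivity) (by positivity),
          ← Real.rpow_mul (by positivity), mul_one_div_cancel hp0.ne', Real.rpow_one,
          ENNReal.ofReal_add ENNReal.toReal_nonneg ENNReal.toReal_nonneg,
          ENNReal.ofReal_toReal hSa, ENNReal.ofReal_toReal hSb]
      rw [e2] at h2
      refine h2.trans ?_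
      apply mul_le_mul' _ le_rfl
      exact mul_le_mul' hCle le_rfl

end Pool.Agent.H433R3.MixedSup
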