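import Pool.Agent.H433R3.Ce9
import Pool.Agent.H433R3.Ml12

/-!
# The endpoint `α = 0`: the Calderon-Zygmund operator
-/

set_option autoImplicit false

namespace Pool.Agent.H433R3.Ce

open MeasureTheory Pool.Agent.H433R3.MixedSup
open scoped ENNReal NNReal

/-- The parameters. -/
def Kn (n : ℕ) : ℕ := n + 2
/-- The parameters. -/
def Mn (n : ℕ) : ℕ := 1024 * (n + 2) ^ 2 * 4 ^ (n + 2)
/-- The number of generations. -/
def gn (n : ℕ) : ℕ := 2 ^ (n + 2) / (n + 2)
/-- The index of the piece. -/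
noncomputable def nn (y : ℝ) : ℕ := ⌊(y + 2) / 4⌋₊
/-- The glued kernel. -/
noncomputable def kg (x y : ℝ) : ℝ := kk (Kn (nn y)) (gn (nn y)) (x - 4 * nn y) (y - 4 * nn y)
/-- The glued Schur weight. -/
noncomputable def hg (t : ℝ) : ℝ := hh (Kn (nn t)) (gn (nn t)) (t - 4 * nn t)

lemma par_n (n : ℕ) : Par (Kn n) (Mn n) := ⟨by unfold Kn; omega, le_rfl⟩

lemma K1 (n : ℕ) : 1 ≤ Kn n := (par_n n).hK1

lemma nn_eq {n : ℕ} {y : ℝ} (h : |y - 4 * n| < 1) : nn y = n := by
  have h1 := abs_lt.mp h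
  have hn : (0:ℝ) ≤ n := Nat.cast_nonneg n
  unfold nn
  rw [Nat.floor_eq_iff (by linarith [h1.1])]
  constructor <;> linarith [h1.1, h1.2]

lemma kg_symm (x y : ℝ) : kg x y = kg y x := by
  by_cases h : nn x = nn y
  · unfold kg
    rw [h, kk_symm]
  · have e1 : kg x y = 0 := by
      unfold kg
      by_cases h1 : |x - 4 * nn y| < 1
      · exact absurd (nn_eq h1) h
      · exact kk_supp (K1 _) _ (not_lt.mp h1) _
    have e2 : kg y x = 0 := by
      unfold kg
      by_cases h1 : |y - 4 * nn x| < 1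
      · exact absurd (nn_eq h1).symm h
      · exact kk_supp (K1 _) _ (not_lt.mp h1) _
    rw [e1, e2]

lemma kg_eq (x t : ℝ) :
    kg x t = kk (Kn (nn x)) (gn (nn x)) (x - 4 * nn x) (t - 4 * nn x) := by
  rw [kg_symm]
  unfold kg
  rw [kk_symm]

lemma kg_nonneg (x y : ℝ) : 0 ≤ kg x y := kk_nonneg (K1 _) _ _ _

lemma nn_meas : Measurable nn := Nat.measurable_floor.comp (by fun_prop)

lemma kg_meas : Measurable (fun q : ℝ × ℝ => kg q.1 q.2) := by
  have h1 : Measurable (fun p : ℕ × (ℝ × ℝ) =>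
      kk (Kn p.1) (gn p.1) (p.2.1 - 4 * p.1) (p.2.2 - 4 * p.1)) := by
    apply measurable_from_prod_countable_right
    intro n
    have h2 : Measurable (fun q : ℝ × ℝ => (q.1 - 4 * (n:ℝ), q.2 - 4 * (n:ℝ))) := by fun_prop
    exact (kk_meas (K := Kn n) (gn n)).comp h2
  have h2 : Measurable (fun q : ℝ × ℝ => (nn q.2, q)) :=
    (nn_meas.comp measurable_snd).prodMk measurable_id
  exact h1.comp h2

lemma hg_meas : Measurable hg := by
  have h1 : Measurable (fun p : ℕ × ℝ => hh (Kn p.1) (gn p.1) (p.2 - 4 * p.1)) := by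
    apply measurable_from_prod_countable_right
    intro n
    exact (hh_meas (K := Kn n) (gn n)).comp (by fun_prop : Measurable (fun t : ℝ => t - 4 * (n:ℝ)))
  have h2 : Measurable (fun t : ℝ => (nn t, t)) := nn_meas.prodMk measurable_id
  exact h1.comp h2

lemma mp1 : MeasurePreserving (fun x : Fin 1 → ℝ => x 0) volume volume :=
  volume_preserving_funUnique (Fin 1) ℝ

lemma mp1e : MeasurableEmbedding (fun x : Fin 1 → ℝ => x 0) :=
  (MeasurableEquiv.funUnique (Fin 1) ℝ).measurableEmbedding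

/-- The Schur estimate for the glued kernel. -/
lemma schur_glue (x : ℝ) : ∫⁻ t, ENNReal.ofReal (kg x t) * ENNReal.ofReal (hg t) ≤
    12 * ENNReal.ofReal (hg x) := by
  set n := nn x with hn
  set K := Kn n with hK
  set g := gn n with hgd
  set H : ℝ → ℝ≥0∞ := fun s =>
    ENNReal.ofReal (kk K g (x - 4 * n) s) * ENNReal.ofReal (hh K g s) with hH
  have e1 : ∫⁻ t, ENNReal.ofReal (kg x t) * ENNReal.ofReal (hg t) = ∫⁻ t, H (t - 4 * n) := by
    apply lintegral_congr
    intro t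
    rw [kg_eq, ← hn, ← hK, ← hgd, hH]
    by_cases ht : |t - 4 * n| < 1
    · have : hg t = hh K g (t - 4 * n) := by unfold hg; rw [nn_eq ht]
      rw [this]
    · have : kk K g (x - 4 * n) (t - 4 * n) = 0 := kk_supp' (K1 _) _ _ (not_lt.mp ht)
      simp only [this, ENNReal.ofReal_zero, zero_mul]
  rw [e1, lintegral_sub_right_eq_self H (4 * (n:ℝ))]
  have e2 : ∫⁻ s, H s = ∫⁻ s in B 0, H s := by
    rw [← lintegral_indicator (B_meas 0)]
    apply lintegral_congr
    intro s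
    by_cases hs : s ∈ B 0
    · rw [Set.indicator_of_mem hs]
    · rw [Set.indicator_of_notMem hs, hH]
      have : kk K g (x - 4 * n) s = 0 := kk_supp' (K1 _) _ _ (by
        have : ¬ |s| < pw 0 := hs
        rw [pw_zero] at this
        exact not_lt.mp this)
      simp only [this, ENNReal.ofReal_zero, zero_mul]
  have e3 : ∫⁻ s in B 0, H s = ENNReal.ofReal (TT K g (hh K g) (x - 4 * n)) := by
    unfold TT
    rw [ofReal_integral_eq_lintegral_ofReal (((kk_BM (K1 _) g _).mul (hh_BM (K1 _) g)).int (B_fin 0))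
      (ae_of_all _ (fun y => mul_nonneg (kk_nonneg (K1 _) g _ y) (by
        have := hh_ge (K1 n) g y
        linarith)))]
    apply lintegral_congr
    intro s
    rw [hH, ENNReal.ofReal_mul (kk_nonneg (K1 _) g _ _)]
  rw [e2, e3]
  have e4 := schur (K1 n) g (x - 4 * n)
  have e5 : hg x = hh K g (x - 4 * n) := rfl
  rw [e5]
  calc ENNReal.ofReal (TT K g (hh K g) (x - 4 * n))
      ≤ ENNReal.ofReal (12 * hh K g (x - 4 * n)) := ENNReal.ofReal_le_ofReal (by linarith)
    _ = 12 * ENNReal.ofReal (hh K g (x - 4 * n)) := by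
        rw [ENNReal.ofReal_mul (by norm_num)]; norm_num

/-- The kernel on `ℝ¹`. -/
noncomputable def KK (x y : Fin 1 → ℝ) : ℝ := kg (x 0) (y 0)

/-- The operator on `ℝ¹`. -/
noncomputable def TG (f : (Fin 1 → ℝ) → ℝ) (x : Fin 1 → ℝ) : ℝ := ∫ y, KK x y * f y

lemma KK_nonneg (x y : Fin 1 → ℝ) : 0 ≤ KK x y := kg_nonneg _ _

lemma KK_meas : Measurable (fun q : (Fin 1 → ℝ) × (Fin 1 → ℝ) => KK q.1 q.2) := by
  have h2 : Measurable (fun q : (Fin 1 → ℝ) × (Fin 1 → ℝ) => (q.1 0, q.2 0)) := by fun_prop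
  exact kg_meas.comp h2

lemma TG_bound {f : (Fin 1 → ℝ) → ℝ} (hf : AEStronglyMeasurable f volume) :
    ∫⁻ x, ‖TG f x‖ₑ ^ 2 ≤ 12 ^ 2 * ∫⁻ x, ‖f x‖ₑ ^ 2 := by
  have hu : AEMeasurable (fun x => ‖f x‖ₑ) volume := hf.enorm
  set u := hu.mk _ with hud
  have hum : Measurable u := hu.measurable_mk
  have huu : (fun x => ‖f x‖ₑ) =ᵐ[volume] u := hu.ae_eq_mk
  have h1 : ∀ x, ‖TG f x‖ₑ ≤ ∫⁻ y, ENNReal.ofReal (KK x y) * u y := by
    intro x
    unfold TG
    refine (enorm_integral_le_lintegral_enorm _).trans (le_of_eq ?_)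
    apply lintegral_congr_ae
    filter_upwards [huu] with y hy
    rw [enorm_mul, hy, Real.enorm_of_nonneg (KK_nonneg _ _)]
  have h2 := schur_abs (μ := (volume : Measure (Fin 1 → ℝ)))
    (fun x y => ENNReal.ofReal (KK x y)) KK_meas.ennreal_ofReal
    (fun x y => by unfold KK; rw [kg_symm]) (fun x => ENNReal.ofReal (hg (x 0)))
    (hg_meas.ennreal_ofReal.comp (measurable_pi_apply 0))
    (fun x => by
      have : 1 ≤ hg (x 0) := hh_ge (K1 _) _ _
      have := ENNReal.ofReal_pos.mpr (by linarith : 0 < hg (x 0))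
      exact this.ne')
    (fun x => ENNReal.ofReal_ne_top) 12
    (fun x => by
      have e1 : Measurable (fun t : ℝ => ENNReal.ofReal (kg (x 0) t) * ENNReal.ofReal (hg t)) :=
        (kg_meas.comp measurable_prodMk_left).ennreal_ofReal.mul hg_meas.ennreal_ofReal
      have e2 := mp1.lintegral_comp e1
      have e3 := schur_glue (x 0)
      rw [← e2] at e3
      exact e3) u hum
  calc ∫⁻ x, ‖TG f x‖ₑ ^ 2 ≤ ∫⁻ x, (∫⁻ y, ENNReal.ofReal (KK x y) * u y) ^ 2 :=
        lintegral_mono (fun x => pow_le_pow_left' (h1 x) 2)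
    _ ≤ 12 ^ 2 * ∫⁻ x, u x ^ 2 := h2
    _ = 12 ^ 2 * ∫⁻ x, ‖f x‖ₑ ^ 2 := by
        congr 1
        apply lintegral_congr_ae
        filter_upwards [huu] with y hy
        rw [hy]

lemma eLp2 {α : Type*} [MeasurableSpace α] (μ : Measure α) (f : α → ℝ) :
    eLpNorm f 2 μ = (∫⁻ x, ‖f x‖ₑ ^ 2 ∂μ) ^ (1 / 2 : ℝ) := by
  rw [eLpNorm_eq_lintegral_rpow_enorm_toReal (by norm_num) (by norm_num)]
  simp

lemma TG_eLp {f : (Fin 1 → ℝ) → ℝ} (hf : AEStronglyMeasurable f volume) :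
    eLpNorm (TG f) 2 volume ≤ (12 : ℝ≥0) * eLpNorm f 2 volume := by
  rw [eLp2, eLp2]
  have h := ENNReal.rpow_le_rpow (TG_bound hf) (by norm_num : (0:ℝ) ≤ 1 / 2)
  rw [ENNReal.mul_rpow_of_nonneg _ _ (by norm_num)] at h
  have e : ((12:ℝ≥0∞) ^ 2) ^ (1 / 2 : ℝ) = ((12 : ℝ≥0) : ℝ≥0∞) := by
    rw [← ENNReal.rpow_two, ← ENNReal.rpow_mul]
    norm_num
  rwa [e] at h

lemma TG_aesm {f : (Fin 1 → ℝ) → ℝ} (hf : AEStronglyMeasurable f volume) :
    AEStronglyMeasurable (TG f) volume := by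
  have h1 : TG f = TG (hf.mk f) := by
    funext x
    unfold TG
    apply integral_congr_ae
    filter_upwards [hf.ae_eq_mk] with y hy
    rw [hy]
  rw [h1]
  have h2 : StronglyMeasurable (fun q : (Fin 1 → ℝ) × (Fin 1 → ℝ) => KK q.1 q.2 * (hf.mk f) q.2) :=
    (KK_meas.mul (hf.stronglyMeasurable_mk.measurable.comp measurable_snd)).stronglyMeasurable
  exact (h2.integral_prod_right (ν := volume)).aestronglyMeasurable

lemma KK_mem (x : Fin 1 → ℝ) : MemLp (fun y => KK x y) 2 volume := by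
  set n := nn (x 0) with hn
  obtain ⟨C, hC0, hC⟩ := kk_bdd (K1 n) (gn n)
  set S : Set (Fin 1 → ℝ) := {y | |y 0 - 4 * n| < 1} with hS
  have hSm : MeasurableSet S := measurableSet_lt (by fun_prop) measurable_const
  have hSf : volume S ≠ ⊤ := by
    have h1 : S = (fun y : Fin 1 → ℝ => y 0) ⁻¹' (Set.Ioo (4 * (n:ℝ) - 1) (4 * n + 1)) := by
      ext y
      simp only [hS, Set.mem_ofPred_eq, Set.mem_preimage, Set.mem_Ioo, abs_lt]
      constructor
      · rintro ⟨h1, h2⟩; constructor <;> linarith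
      · rintro ⟨h1, h2⟩; constructor <;> linarith
    rw [h1, mp1.measure_preimage measurableSet_Ioo.nullMeasurableSet, Real.volume_Ioo]
    exact ENNReal.ofReal_ne_top
  apply MemLp.mono' (memLp_indicator_const 2 hSm C (Or.inr hSf))
  · exact (KK_meas.comp measurable_prodMk_left).aestronglyMeasurable
  · refine ae_of_all _ (fun y => ?_)
    unfold KK
    rw [kg_eq, ← hn, Real.norm_eq_abs, abs_of_nonneg (kk_nonneg (K1 _) _ _ _)]
    by_cases hy : y ∈ S
    · rw [Set.indicator_of_mem hy]; exact hC _ _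
    · rw [Set.indicator_of_notMem hy, kk_supp' (K1 _) _ _ (not_lt.mp hy)]

lemma KK_int (x : Fin 1 → ℝ) {f : (Fin 1 → ℝ) → ℝ} (hf : MemLp f 2 volume) :
    Integrable (fun y => KK x y * f y) volume :=
  (KK_mem x).integrable_mul hf

lemma len1 (x : Fin 1 → ℝ) : len x = |x 0| := by
  unfold len
  rw [Fin.sum_univ_one, Real.sqrt_sq_eq_abs]

/-- The operator `TG` is a Calderon-Zygmund operator. -/
theorem TG_czo : IsCZO (d := 1) (𝕜 := ℝ) TG KK := by
  refine ⟨⟨?_, ?_, ?_, ?_⟩, ?_, ?_, ?_⟩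
  · intro f hf
    refine ⟨TG_aesm hf.1, lt_of_le_of_lt (TG_eLp hf.1) ?_⟩
    exact ENNReal.mul_lt_top ENNReal.coe_lt_top hf.2
  · intro f g hf hg
    refine ae_of_all _ (fun x => ?_)
    unfold TG
    show ∫ y, KK x y * (f y + g y) = (∫ y, KK x y * f y) + ∫ y, KK x y * g y
    rw [← integral_add (KK_int x hf) (KK_int x hg)]
    congr 1
    funext y
    ring
  · intro c f hf
    refine ae_of_all _ (fun x => ?_)
    unfold TG
    show ∫ y, KK x y * (c * f y) = c * ∫ y, KK x y * f y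
    rw [← integral_const_mul]
    congr 1
    funext y
    ring
  · exact ⟨12, fun f hf => TG_eLp hf.1⟩
  · intro f _ _ _
    exact ae_of_all _ (fun x _ => rfl)
  · refine ⟨4, fun x y hxy => ?_⟩
    have h0 : x 0 ≠ y 0 := by
      intro h
      apply hxy
      funext i
      rw [Subsingleton.elim i 0, h]
    rw [len1, pow_one, Real.norm_eq_abs, abs_of_nonneg (KK_nonneg _ _)]
    unfold KK kg
    have := size (K1 (nn (y 0))) (gn (nn (y 0))) (x := x 0 - 4 * nn (y 0))
      (y := y 0 - 4 * nn (y 0)) (by intro h; apply h0; linarith)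
    rw [sub_sub_sub_cancel_right] at this
    exact this
  · refine ⟨80, 1, one_pos, le_rfl, fun x x' y hxy hxx => ?_⟩
    have h0 : x 0 ≠ y 0 := by
      intro h
      apply hxy
      funext i
      rw [Subsingleton.elim i 0, h]
    rw [len1, len1] at hxx ⊢
    have e0 : (x - x') 0 = x 0 - x' 0 := rfl
    have e1 : (x - y) 0 = x 0 - y 0 := rfl
    rw [e0, e1] at hxx ⊢
    have h1 : |kg (x 0) (y 0) - kg (x' 0) (y 0)| ≤ 40 * |x 0 - x' 0| / |x 0 - y 0| ^ 2 := by
      unfold kg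
      have := reg (K1 (nn (y 0))) (gn (nn (y 0))) (x := x 0 - 4 * nn (y 0))
        (x' := x' 0 - 4 * nn (y 0)) (y := y 0 - 4 * nn (y 0)) (by intro h; apply h0; linarith)
        (by rw [sub_sub_sub_cancel_right, sub_sub_sub_cancel_right]; exact hxx)
      rw [sub_sub_sub_cancel_right, sub_sub_sub_cancel_right] at this
      exact this
    have h2 : ‖KK x y - KK x' y‖ + ‖KK y x - KK y x'‖ ≤
        40 * |x 0 - x' 0| / |x 0 - y 0| ^ 2 + 40 * |x 0 - x' 0| / |x 0 - y 0| ^ 2 := by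
      unfold KK
      rw [kg_symm (y 0) (x 0), kg_symm (y 0) (x' 0), Real.norm_eq_abs]
      exact add_le_add h1 h1
    refine h2.trans (le_of_eq ?_)
    have e2 : ((1:ℕ):ℝ) + 1 = 2 := by norm_num
    rw [e2, Real.rpow_one, Real.rpow_two]
    ring

end Pool.Agent.H433R3.Ce
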