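import Pool.Agent.H433R3.Ce10

/-!
# The endpoint `α = 0`: the conjectured weak type bound fails
-/

set_option autoImplicit false

namespace Pool.Agent.H433R3.Ce

open MeasureTheory Pool.Agent.H433R3.MixedSup Filter Topology
open scoped ENNReal NNReal

lemma pow_pw (K : ℕ) : (2:ℝ) ^ K * pw K = 1 := by
  unfold pw
  rw [← mul_pow]; norm_num

lemma good_n (n : ℕ) : Good (Kn n) (Mn n) (gn n) := by
  refine ⟨par_n n, ?_⟩
  have h1 : gn n * Kn n ≤ 2 ^ Kn n := Nat.div_mul_le_self _ _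
  have h2 : ((gn n : ℝ) * Kn n) ≤ 2 ^ Kn n := by exact_mod_cast h1
  have hp := pw_pos (Kn n)
  calc (gn n : ℝ) * Kn n * pw (Kn n) ≤ 2 ^ Kn n * pw (Kn n) := by gcongr
    _ = 1 := pow_pw _

lemma Z_low_n (n : ℕ) : (Kn n : ℝ) * Mn n / 1024 ≤ ZZ (Kn n) (Mn n) (gn n) := by
  have h := good_n n
  have h1 := ZZ_low h
  refine le_trans ?_ h1
  have hK2 := h.par.K2
  have hp := pw_pos (Kn n)
  have hg := h.gK
  have hlow : 1 / 2 ≤ (gn n : ℝ) * Kn n * pw (Kn n) := by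
    have e1 : 2 ^ Kn n < gn n * Kn n + Kn n := by
      have := Nat.lt_div_mul_add (a := 2 ^ Kn n) (b := Kn n) (by have := h.par.hK; omega)
      exact this
    have e2 : 2 ^ Kn n ≤ gn n * Kn n + (Kn n - 1) := by
      have := h.par.hK
      omega
    have e3 : Kn n - 1 < 2 ^ (Kn n - 1) := Nat.lt_two_pow_self
    have e4 : 2 ^ Kn n = 2 * 2 ^ (Kn n - 1) := by
      rw [← pow_succ', Nat.sub_add_cancel h.par.hK1]
    have e5 : 2 ^ Kn n ≤ 2 * (gn n * Kn n) := by omega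
    have e6 : (2:ℝ) ^ Kn n ≤ 2 * (gn n * Kn n) := by exact_mod_cast e5
    have e7 := mul_le_mul_of_nonneg_right e6 hp.le
    rw [pow_pw] at e7
    linarith
  set K : ℝ := (Kn n : ℝ) with hK
  set M : ℝ := (Mn n : ℝ) with hM
  set g : ℝ := (gn n : ℝ) with hgd
  set p := pw (Kn n) with hpd
  have hM0 : 0 ≤ M := Nat.cast_nonneg _
  have hg0 : 0 ≤ g := Nat.cast_nonneg _
  have f1 : g * p ≤ 1 / 2 := by nlinarith [mul_nonneg hg0 hp.le]
  have f2 : 1 / 2 * (g * p) ≤ (1 - g * p) * (g * p) :=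
    mul_le_mul_of_nonneg_right (by linarith) (by positivity)
  have f3 : (K / 16) ^ 2 * (M * p) * (g * (1 - g * p)) =
      (K ^ 2 * M / 256) * ((1 - g * p) * (g * p)) := by ring
  rw [f3]
  calc K * M / 1024 = K * M / 512 * (1 / 2) := by ring
    _ ≤ K * M / 512 * (g * K * p) := by gcongr
    _ = (K ^ 2 * M / 256) * (1 / 2 * (g * p)) := by ring
    _ ≤ (K ^ 2 * M / 256) * ((1 - g * p) * (g * p)) := by gcongr

/-- The translation. -/
noncomputable def tau (n : ℕ) (x : Fin 1 → ℝ) : ℝ := x 0 - 4 * n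

lemma tau_mp (n : ℕ) : MeasurePreserving (tau n) volume volume :=
  (measurePreserving_sub_right volume (4 * (n:ℝ))).comp mp1

lemma tau_emb (n : ℕ) : MeasurableEmbedding (tau n) :=
  (MeasurableEquiv.subRight (4 * (n:ℝ))).measurableEmbedding.comp mp1e

lemma cube_tau (n : ℕ) (c : Fin 1 → ℝ) (l : ℝ) :
    cube c l = tau n ⁻¹' Set.Ico (c 0 - 4 * n) (c 0 - 4 * n + l) := by
  ext x
  unfold cube tau
  simp only [Set.mem_ofPred_eq, Set.mem_preimage, Set.mem_Ico, Fin.forall_fin_one]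
  constructor
  · rintro ⟨h1, h2⟩; constructor <;> linarith
  · rintro ⟨h1, h2⟩; constructor <;> linarith

lemma avg_tau (n : ℕ) (c : Fin 1 → ℝ) {l : ℝ} (hl : 0 < l) (F : ℝ → ℝ) :
    avg (fun x => F (tau n x)) (cube c l) =
      l⁻¹ * ∫ t in Set.Ico (c 0 - 4 * n) (c 0 - 4 * n + l), F t := by
  unfold avg
  rw [cube_tau n, (tau_mp n).setIntegral_preimage_emb (tau_emb n),
    (tau_mp n).measure_preimage measurableSet_Ico.nullMeasurableSet, Real.volume_Ico,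
    add_sub_cancel_left, ENNReal.toReal_ofReal hl.le]

/-- The weight. -/
noncomputable def wn (n : ℕ) (x : Fin 1 → ℝ) : ℝ := ww (Kn n) (Mn n) (gn n) (tau n x)

lemma dual_two (w : (Fin 1 → ℝ) → ℝ) : dual 2 w = fun x => (w x)⁻¹ := by
  funext x
  unfold dual
  have : (1:ℝ) - 2 / (2 - 1) = -1 := by norm_num
  rw [this, Real.rpow_neg_one]

lemma wn_pos (n : ℕ) (x : Fin 1 → ℝ) : 0 < wn n x := (ww_WB (par_n n) (gn n)).pos _

lemma bm_loc {n : ℕ} {F : ℝ → ℝ} (hF : BM F) : LocallyIntegrable (fun x => F (tau n x)) volume := by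
  obtain ⟨C, hC⟩ := hF.b
  have h1 : MemLp (fun x : Fin 1 → ℝ => F (tau n x)) ⊤ volume :=
    memLp_top_of_bound (hF.m.comp (tau_mp n).measurable).aestronglyMeasurable C
      (ae_of_all _ (fun x => by rw [Real.norm_eq_abs]; exact hC _))
  exact h1.locallyIntegrable le_top

lemma wn_Ap (n : ℕ) : MemAp 2 (wn n) := by
  have hw := ww_WB (par_n n) (gn n)
  refine ⟨wn_pos n, bm_loc hw.bm, ?_, ?_⟩
  · rw [dual_two]
    exact bm_loc hw.inv
  · obtain ⟨q, hq, hq'⟩ := hw.lo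
    obtain ⟨Q, hQ⟩ := hw.hi
    refine ⟨Q * q⁻¹, fun c l hl => ?_⟩
    unfold Ap
    rw [dual_two]
    have e1 := avg_tau n c hl (ww (Kn n) (Mn n) (gn n))
    have e2 := avg_tau n c hl (fun t => (ww (Kn n) (Mn n) (gn n) t)⁻¹)
    have e3 : avg (wn n) (cube c l) = _ := e1
    have e4 : avg (fun x => (wn n x)⁻¹) (cube c l) = _ := e2
    rw [e3, e4]
    have hlt : c 0 - 4 * n < c 0 - 4 * n + l := by linarith
    have h1 := si_le hw.bm measurableSet_Ico (I_fin (c 0 - 4 * n) (c 0 - 4 * n + l))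
      (fun x _ => hQ x)
    have h2 := si_le hw.inv measurableSet_Ico (I_fin (c 0 - 4 * n) (c 0 - 4 * n + l))
      (fun x _ => inv_anti₀ hq (hq' x))
    rw [I_real hlt, add_sub_cancel_left] at h1 h2
    have e5 : (2:ℝ) - 1 = 1 := by norm_num
    rw [e5, Real.rpow_one]
    have a0 : 0 ≤ ∫ t in Set.Ico (c 0 - 4 * n) (c 0 - 4 * n + l), ww (Kn n) (Mn n) (gn n) t :=
      integral_nonneg (fun t => (hw.pos t).le)
    have b0 : 0 ≤ ∫ t in Set.Ico (c 0 - 4 * n) (c 0 - 4 * n + l),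
        (ww (Kn n) (Mn n) (gn n) t)⁻¹ :=
      integral_nonneg (fun t => (inv_pos.mpr (hw.pos t)).le)
    have hQ0 : 0 ≤ Q := (hw.pos 0).le.trans (hQ 0)
    have h3 : l⁻¹ * (∫ t in Set.Ico (c 0 - 4 * n) (c 0 - 4 * n + l),
        ww (Kn n) (Mn n) (gn n) t) ≤ Q := by
      rw [inv_mul_le_iff₀ hl]; linarith
    have h4 : l⁻¹ * (∫ t in Set.Ico (c 0 - 4 * n) (c 0 - 4 * n + l),
        (ww (Kn n) (Mn n) (gn n) t)⁻¹) ≤ q⁻¹ := by
      rw [inv_mul_le_iff₀ hl]; linarith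
    exact mul_le_mul h3 h4 (by positivity) hQ0

lemma wn_sup (n : ℕ) : oneSup 2 (1 / 2) (1 / 2) (wn n) ≤
    ENNReal.ofReal (Real.sqrt (CA (Kn n) (Mn n))) := by
  have hw := ww_WB (par_n n) (gn n)
  unfold oneSup
  apply iSup_le; intro c
  apply iSup_le; intro l
  apply iSup_le; intro hl
  apply ENNReal.ofReal_le_ofReal
  have hlt : c 0 - 4 * n < c 0 - 4 * n + l := by linarith
  have hP := main_Pr (good_n n) hlt
  rw [add_sub_cancel_left] at hP
  unfold Pr at hP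
  rw [add_sub_cancel_left] at hP
  unfold Ap Aexp
  rw [dual_two]
  have e1 := avg_tau n c hl (ww (Kn n) (Mn n) (gn n))
  have e2 := avg_tau n c hl (fun t => (ww (Kn n) (Mn n) (gn n) t)⁻¹)
  have e2' := avg_tau n c hl (fun t => Real.log (ww (Kn n) (Mn n) (gn n) t)⁻¹)
  have e3 : avg (wn n) (cube c l) = _ := e1
  have e4 : avg (fun x => (wn n x)⁻¹) (cube c l) = _ := e2
  have e4' : avg (fun x => Real.log (wn n x)⁻¹) (cube c l) = _ := e2'
  rw [e3, e4, e4']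
  have e5 : (2:ℝ) - 1 = 1 := by norm_num
  rw [e5, Real.rpow_one]
  have a0 : 0 ≤ ∫ t in Set.Ico (c 0 - 4 * n) (c 0 - 4 * n + l), ww (Kn n) (Mn n) (gn n) t :=
    integral_nonneg (fun t => (hw.pos t).le)
  have b0 : 0 ≤ ∫ t in Set.Ico (c 0 - 4 * n) (c 0 - 4 * n + l),
      (ww (Kn n) (Mn n) (gn n) t)⁻¹ :=
    integral_nonneg (fun t => (inv_pos.mpr (hw.pos t)).le)
  rw [← Real.mul_rpow (by positivity) (by positivity), Real.sqrt_eq_rpow]
  apply Real.rpow_le_rpow (by positivity) _ (by norm_num)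
  set X := ∫ t in Set.Ico (c 0 - 4 * n) (c 0 - 4 * n + l), ww (Kn n) (Mn n) (gn n) t with hX
  set Y := ∫ t in Set.Ico (c 0 - 4 * n) (c 0 - 4 * n + l), (ww (Kn n) (Mn n) (gn n) t)⁻¹ with hY
  set E := ∫ t in Set.Ico (c 0 - 4 * n) (c 0 - 4 * n + l),
    Real.log (ww (Kn n) (Mn n) (gn n) t)⁻¹ with hE
  have e6 : l⁻¹ * X * (l⁻¹ * Y) * (l⁻¹ * X * Real.exp (l⁻¹ * E)) =
      X ^ 2 * Y * Real.exp (E / l) / l ^ 3 := by
    rw [show l⁻¹ * E = E / l by field_simp]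
    field_simp
  rw [e6, div_le_iff₀ (by positivity)]
  exact hP

/-- The test function. -/
noncomputable def fn (n : ℕ) (x : Fin 1 → ℝ) : ℝ := FF (Kn n) (Mn n) (gn n) (tau n x)

lemma fn_sq (n : ℕ) : ∫⁻ x, ‖fn n x‖ₑ ^ 2 ∂(wm (wn n)) =
    ENNReal.ofReal (ZZ (Kn n) (Mn n) (gn n)) := by
  have h := par_n n
  have hw := ww_WB h (gn n)
  have hF := FF_BM h (gn n)
  have hwm : Measurable (fun x => ENNReal.ofReal (wn n x)) :=
    (hw.m.comp (tau_mp n).measurable).ennreal_ofReal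
  have hfm : Measurable (fn n) := hF.m.comp (tau_mp n).measurable
  unfold wm
  rw [lintegral_withDensity_eq_lintegral_mul _ hwm (hfm.enorm.pow_const 2)]
  have e1 : Measurable (fun t : ℝ => ENNReal.ofReal (ww (Kn n) (Mn n) (gn n) t) *
      ENNReal.ofReal (FF (Kn n) (Mn n) (gn n) t) ^ 2) :=
    hw.m.ennreal_ofReal.mul (hF.m.ennreal_ofReal.pow_const 2)
  have e2 := (tau_mp n).lintegral_comp e1
  have e3 : ∫⁻ x, ((fun x => ENNReal.ofReal (wn n x)) * fun x => ‖fn n x‖ₑ ^ 2) x =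
      ∫⁻ x, ENNReal.ofReal (ww (Kn n) (Mn n) (gn n) (tau n x)) *
        ENNReal.ofReal (FF (Kn n) (Mn n) (gn n) (tau n x)) ^ 2 := by
    apply lintegral_congr
    intro x
    show ENNReal.ofReal (ww (Kn n) (Mn n) (gn n) (tau n x)) *
      ‖FF (Kn n) (Mn n) (gn n) (tau n x)‖ₑ ^ 2 = _
    rw [Real.enorm_of_nonneg (FF_nonneg h (gn n) _)]
  rw [e3, e2, ← FF_sq h (gn n), lint_mw h (gn n) (hF.m.ennreal_ofReal.pow_const 2),
    ← lintegral_indicator (B_meas 0)]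
  apply lintegral_congr
  intro t
  by_cases ht : t ∈ B 0
  · rw [Set.indicator_of_mem ht]
  · rw [Set.indicator_of_notMem ht]
    have : FF (Kn n) (Mn n) (gn n) t = 0 := by
      unfold FF; rw [Set.indicator_of_notMem ht]
    rw [this]
    simp

lemma fn_eLp (n : ℕ) : eLpNorm (fn n) (ENNReal.ofReal 2) (wm (wn n)) =
    ENNReal.ofReal (ZZ (Kn n) (Mn n) (gn n)) ^ (1 / 2 : ℝ) := by
  have : ENNReal.ofReal 2 = 2 := by norm_num
  rw [this, eLp2, fn_sq]

lemma fn_mem' (n : ℕ) : MemLp (fn n) (ENNReal.ofReal 2) (wm (wn n)) := by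
  refine ⟨((FF_BM (par_n n) (gn n)).m.comp (tau_mp n).measurable).aestronglyMeasurable, ?_⟩
  rw [fn_eLp]
  exact ENNReal.rpow_lt_top_of_nonneg (by norm_num) ENNReal.ofReal_ne_top

lemma fn_mem (n : ℕ) : MemLp (fn n) 2 volume := by
  have hF := FF_BM (par_n n) (gn n)
  obtain ⟨C, hC⟩ := hF.b
  have h1 : MemLp (FF (Kn n) (Mn n) (gn n)) 2 volume := by
    apply MemLp.mono' (memLp_indicator_const 2 (B_meas 0) C (Or.inr (B_fin 0)))
    · exact hF.m.aestronglyMeasurable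
    · refine ae_of_all _ (fun t => ?_)
      by_cases ht : t ∈ B 0
      · rw [Set.indicator_of_mem ht, Real.norm_eq_abs]; exact hC t
      · rw [Set.indicator_of_notMem ht]
        unfold FF
        rw [Set.indicator_of_notMem ht, norm_zero]
  exact h1.comp_measurePreserving (tau_mp n)

lemma TG_fn (n : ℕ) {x : Fin 1 → ℝ} (hx : tau n x ∈ B 0) :
    TG (fn n) x = TT (Kn n) (gn n) (FF (Kn n) (Mn n) (gn n)) (tau n x) := by
  have hx' : |x 0 - 4 * n| < 1 := by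
    have : |tau n x| < pw 0 := hx
    rwa [pw_zero] at this
  have hn := nn_eq hx'
  have e1 : ∀ y : Fin 1 → ℝ, KK x y * fn n y =
      (fun t => kk (Kn n) (gn n) (tau n x) t * FF (Kn n) (Mn n) (gn n) t) (tau n y) := by
    intro y
    unfold KK fn
    rw [kg_eq, hn]
    rfl
  unfold TG
  simp only [e1]
  rw [(tau_mp n).integral_comp (tau_emb n)
    (fun t => kk (Kn n) (gn n) (tau n x) t * FF (Kn n) (Mn n) (gn n) t)]
  unfold TT
  symm
  apply setIntegral_eq_integral_of_forall_compl_eq_zero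
  intro t ht
  unfold FF
  rw [Set.indicator_of_notMem ht, mul_zero]

lemma level (n : ℕ) {t : ℝ} (ht : 0 < t) :
    mw (Kn n) (Mn n) (gn n) {s | t < TT (Kn n) (gn n) (FF (Kn n) (Mn n) (gn n)) s} ≤
      wm (wn n) {x | ((t.toNNReal : ℝ≥0) : ℝ≥0∞) < ‖TG (fn n) x‖ₑ} := by
  have h := par_n n
  have hw := ww_WB h (gn n)
  set E : Set ℝ := {s | t < TT (Kn n) (gn n) (FF (Kn n) (Mn n) (gn n)) s} with hE
  have hEm : MeasurableSet E :=
    measurableSet_lt measurable_const (TT_meas (gn n) (FF_BM h (gn n)).m)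
  have hEB : E ⊆ B 0 := by
    intro s hs
    by_contra hcon
    have hs' : t < TT (Kn n) (gn n) (FF (Kn n) (Mn n) (gn n)) s := hs
    have : ¬ |s| < pw 0 := hcon
    rw [pw_zero] at this
    rw [TT_supp h.hK1 _ _ (not_lt.mp this)] at hs'
    linarith
  have h1 : tau n ⁻¹' E ⊆ {x | ((t.toNNReal : ℝ≥0) : ℝ≥0∞) < ‖TG (fn n) x‖ₑ} := by
    intro x hx
    have hx' : t < TT (Kn n) (gn n) (FF (Kn n) (Mn n) (gn n)) (tau n x) := hx
    show ((t.toNNReal : ℝ≥0) : ℝ≥0∞) < ‖TG (fn n) x‖ₑ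
    rw [TG_fn n (hEB hx), Real.enorm_of_nonneg (ht.le.trans hx'.le)]
    show ENNReal.ofReal t < _
    exact (ENNReal.ofReal_lt_ofReal_iff (ht.trans hx')).mpr hx'
  refine le_trans (le_of_eq ?_) (measure_mono h1)
  unfold wm mw
  rw [withDensity_apply _ hEm, withDensity_apply _ ((tau_mp n).measurable hEm)]
  have e2 := (tau_mp n).setLIntegral_comp_preimage hEm hw.m.ennreal_ofReal
  rw [Measure.restrict_restrict hEm, Set.inter_eq_left.mpr hEB]
  exact e2.symm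

/-- If the weak type bound holds with constant `C`, then `K` is bounded by `1 + K / log³`. -/
lemma key_ineq {C : ℝ≥0} (hC : ∀ w : (Fin 1 → ℝ) → ℝ, MemAp 2 w →
      ∀ f : (Fin 1 → ℝ) → ℝ, MemLp f 2 volume → MemLp f (ENNReal.ofReal 2) (wm w) →
        ∀ lam : ℝ≥0, (lam : ℝ≥0∞) * wm w {x | (lam : ℝ≥0∞) < ‖TG f x‖ₑ} ^ (1 / 2 : ℝ) ≤
          C * oneSup 2 (1 / 2) (1 / 2) w * eLpNorm f (ENNReal.ofReal 2) (wm w)) (n : ℕ) :
    (Kn n : ℝ) * Mn n / 1024 ≤ 20 * ((C:ℝ) ^ 2 * CA (Kn n) (Mn n)) := by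
  refine (Z_low_n n).trans ?_
  have h := par_n n
  have hell := ell_pos h
  have hCA : 0 ≤ CA (Kn n) (Mn n) := by
    unfold CA
    have := Real.exp_pos 64
    positivity
  apply weak_to_Z (good_n n) (by positivity)
  intro t ht
  have h1 := hC (wn n) (wn_Ap n) (fn n) (fn_mem n) (fn_mem' n) t.toNNReal
  rw [fn_eLp] at h1
  set m := wm (wn n) {x | ((t.toNNReal : ℝ≥0) : ℝ≥0∞) < ‖TG (fn n) x‖ₑ} with hm
  have h2 : (ENNReal.ofReal t) * m ^ (1 / 2 : ℝ) ≤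
      C * ENNReal.ofReal (Real.sqrt (CA (Kn n) (Mn n))) *
        ENNReal.ofReal (ZZ (Kn n) (Mn n) (gn n)) ^ (1 / 2 : ℝ) := by
    refine h1.trans ?_
    have := wn_sup n
    gcongr
  have h3 := pow_le_pow_left' h2 2
  have sq : ∀ a : ℝ≥0∞, (a ^ (1 / 2 : ℝ)) ^ 2 = a := by
    intro a
    rw [← ENNReal.rpow_two, ← ENNReal.rpow_mul]
    norm_num
  rw [mul_pow, mul_pow, mul_pow, sq, sq] at h3
  refine le_trans (mul_le_mul_right (level n ht) _) (h3.trans (le_of_eq ?_))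
  rw [← ENNReal.ofReal_pow (Real.sqrt_nonneg _), Real.sq_sqrt hCA]
  have e1 : ((C:ℝ≥0∞)) ^ 2 = ENNReal.ofReal ((C:ℝ) ^ 2) := by
    rw [ENNReal.ofReal_pow C.coe_nonneg, ENNReal.ofReal_coe_nnreal]
  rw [e1, ← ENNReal.ofReal_mul (by positivity), ← ENNReal.ofReal_mul (by positivity)]

/-- **The endpoint `α = 0` fails.** -/
theorem endpoint : ¬ ∃ C : ℝ≥0, ∀ w : (Fin 1 → ℝ) → ℝ, MemAp 2 w →
      ∀ f : (Fin 1 → ℝ) → ℝ, MemLp f 2 volume → MemLp f (ENNReal.ofReal 2) (wm w) →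
        ∀ lam : ℝ≥0, (lam : ℝ≥0∞) * wm w {x | (lam : ℝ≥0∞) < ‖TG f x‖ₑ} ^ (1 / 2 : ℝ) ≤
          C * oneSup 2 (1 / 2) (1 / 2) w * eLpNorm f (ENNReal.ofReal 2) (wm w) := by
  rintro ⟨C, hC⟩
  set A : ℝ := 20 * 1024 * 2000000 * Real.exp 64 * (C:ℝ) ^ 2 with hA
  have key : ∀ n : ℕ, 1 ≤ A * (1 / (Kn n : ℝ) + 1 / Real.log (8 * Kn n) ^ 3) := by
    intro n
    have h1 := key_ineq hC n
    have h := par_n n
    have hK2 := h.K2
    have hell := ell_pos h
    have hM : (0:ℝ) < Mn n := by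
      have h3 := h.hKM
      have h4 := h.hK
      exact_mod_cast (by omega : 0 < Mn n)
    unfold CA at h1
    have e1 : (Kn n : ℝ) * Mn n ≤
        (Kn n * Mn n) * (A * (1 / (Kn n : ℝ) + 1 / Real.log (8 * Kn n) ^ 3)) := by
      have e2 : (Kn n * Mn n) * (A * (1 / (Kn n : ℝ) + 1 / Real.log (8 * Kn n) ^ 3)) =
          1024 * (20 * ((C:ℝ) ^ 2 * (2000000 * Real.exp 64 *
            (Mn n * (1 + Kn n / Real.log (8 * Kn n) ^ 3))))) := by
        rw [hA]; field_simp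
      rw [e2]
      linarith
    have e3 : (0:ℝ) < Kn n * Mn n := by positivity
    by_contra hcon
    push Not at hcon
    nlinarith
  have t1 : Tendsto (fun n : ℕ => (Kn n : ℝ)) atTop atTop := by
    have : (fun n : ℕ => (Kn n : ℝ)) = fun n : ℕ => (n:ℝ) + 2 := by
      funext n; unfold Kn; push_cast; ring
    rw [this]
    exact tendsto_atTop_add_const_right _ _ tendsto_natCast_atTop_atTop
  have t2 : Tendsto (fun n : ℕ => 1 / (Kn n : ℝ)) atTop (𝓝 0) := by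
    simp only [one_div]
    exact t1.inv_tendsto_atTop
  have t3 : Tendsto (fun n : ℕ => Real.log (8 * (Kn n : ℝ)) ^ 3) atTop atTop :=
    (tendsto_pow_atTop (by norm_num)).comp
      (Real.tendsto_log_atTop.comp (t1.const_mul_atTop (by norm_num)))
  have t4 : Tendsto (fun n : ℕ => 1 / Real.log (8 * (Kn n : ℝ)) ^ 3) atTop (𝓝 0) := by
    simp only [one_div]
    exact t3.inv_tendsto_atTop
  have t5 : Tendsto (fun n : ℕ => A * (1 / (Kn n : ℝ) + 1 / Real.log (8 * Kn n) ^ 3)) atTop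
      (𝓝 (A * (0 + 0))) := (t2.add t4).const_mul A
  rw [add_zero, mul_zero] at t5
  have := ge_of_tendsto' t5 key
  linarith

end Pool.Agent.H433R3.Ce
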