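import Pool.Agent.H433R3.Ce1

/-!
# The endpoint `α = 0`: masses of the self-similar weight
-/

set_option autoImplicit false

namespace Pool.Agent.H433R3.Ce

open MeasureTheory

/-- Measurable functions bounded above and below by positive constants. -/
structure WB (w : ℝ → ℝ) : Prop where
  m : Measurable w
  lo : ∃ q, 0 < q ∧ ∀ x, q ≤ w x
  hi : ∃ Q, ∀ x, w x ≤ Q

lemma WB.pos {w : ℝ → ℝ} (h : WB w) (x : ℝ) : 0 < w x := by
  obtain ⟨q, hq, hx⟩ := h.lo
  exact lt_of_lt_of_le hq (hx x)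

lemma WB.bm {w : ℝ → ℝ} (h : WB w) : BM w := by
  obtain ⟨Q, hQ⟩ := h.hi
  exact ⟨h.m, Q, fun x => by rw [abs_of_pos (h.pos x)]; exact hQ x⟩

lemma WB.inv {w : ℝ → ℝ} (h : WB w) : BM (fun x => (w x)⁻¹) := by
  obtain ⟨q, hq, hx⟩ := h.lo
  refine ⟨h.m.inv, q⁻¹, fun x => ?_⟩
  rw [abs_of_pos (inv_pos.mpr (h.pos x))]
  exact inv_anti₀ hq (hx x)

lemma WB.log {w : ℝ → ℝ} (h : WB w) : BM (fun x => Real.log (w x)⁻¹) := by
  obtain ⟨q, hq, hx⟩ := h.lo
  obtain ⟨Q, hQ⟩ := h.hi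
  refine ⟨Real.measurable_log.comp h.m.inv, |Real.log q| + |Real.log Q|, fun x => ?_⟩
  rw [Real.log_inv, abs_neg]
  have h1 := Real.log_le_log hq (hx x)
  have h2 := Real.log_le_log (h.pos x) (hQ x)
  have h3 := neg_abs_le (Real.log q)
  have h4 := le_abs_self (Real.log Q)
  have h5 := abs_nonneg (Real.log q)
  have h6 := abs_nonneg (Real.log Q)
  rw [abs_le]
  constructor <;> linarith

lemma WB.exc {w : ℝ → ℝ} (h : WB w) (L : ℝ) : BM (fun x => max 0 (Real.log (w x)⁻¹ - L)) := by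
  obtain ⟨C, hC⟩ := h.log.b
  refine ⟨measurable_const.max (h.log.m.sub measurable_const), C + |L|, fun x => ?_⟩
  have h1 := abs_le.mp (hC x)
  have h2 := neg_abs_le L
  have h3 : 0 ≤ C := (abs_nonneg _).trans (hC x)
  rw [abs_of_nonneg (le_max_left _ _)]
  apply max_le
  · have := abs_nonneg L; linarith
  · linarith [h1.2]

lemma WB.smul {w : ℝ → ℝ} (h : WB w) {c : ℝ} (hc : 0 < c) : WB (fun x => c * w x) := by
  obtain ⟨q, hq, hx⟩ := h.lo
  obtain ⟨Q, hQ⟩ := h.hi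
  exact ⟨h.m.const_mul c, ⟨c * q, by positivity, fun x => by have := hx x; gcongr⟩,
    ⟨c * Q, fun x => by have := hQ x; gcongr⟩⟩

/-- Admissible parameters. -/
structure Par (K M : ℕ) : Prop where
  hK : 2 ≤ K
  hM : 1024 * K ^ 2 * 4 ^ K ≤ M

lemma log_pw (i : ℕ) : Real.log (pw i) = -(i * Real.log 2) := by
  unfold pw
  rw [Real.log_pow, one_div, Real.log_inv]
  ring

lemma log2_pos : 0 < Real.log 2 := Real.log_pos (by norm_num)

lemma log2_le : Real.log 2 ≤ 1 := by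
  have := Real.log_two_lt_d9
  linarith

section
variable {K M : ℕ}

lemma Par.hK1 (h : Par K M) : 1 ≤ K := by have := h.hK; omega

lemma Par.hM' (h : Par K M) : 1024 * (K:ℝ) ^ 2 ≤ M * pw K ^ 2 := by
  have h1 : (1024 * (K:ℝ) ^ 2 * 4 ^ K : ℝ) ≤ M := by exact_mod_cast h.hM
  have h2 : (4:ℝ) ^ K * pw K ^ 2 = 1 := by
    unfold pw
    rw [← pow_mul, mul_comm K 2, pow_mul, ← mul_pow]
    norm_num
  have h3 : 0 < pw K ^ 2 := by have := pw_pos K; positivity
  calc 1024 * (K:ℝ) ^ 2 = 1024 * (K:ℝ) ^ 2 * ((4:ℝ) ^ K * pw K ^ 2) := by rw [h2, mul_one]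
    _ = (1024 * (K:ℝ) ^ 2 * 4 ^ K) * pw K ^ 2 := by ring
    _ ≤ M * pw K ^ 2 := by gcongr

lemma Par.hKM (h : Par K M) : K ≤ M := by
  have h1 := h.hM
  have h2 : 1 ≤ 4 ^ K := Nat.one_le_pow _ _ (by norm_num)
  have h3 := h.hK1
  nlinarith [Nat.mul_le_mul h3 h3, Nat.mul_le_mul (le_refl (1024 * K ^ 2)) h2]

lemma Par.K2 (h : Par K M) : (2:ℝ) ≤ K := by exact_mod_cast h.hK

lemma Par.p4 (h : Par K M) : pw K ≤ 1 / 4 := by
  have := pw_anti h.hK
  have h2 : pw 2 = 1 / 4 := by unfold pw; norm_num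
  linarith

lemma ww_WB (h : Par K M) (g : ℕ) : WB (ww K M g) :=
  ⟨ww_meas g, ⟨pw M, pw_pos M, ww_ge h.hK1 h.hKM g⟩, ⟨(8 * K) ^ g, ww_le h.hK1 g⟩⟩

lemma bb_WB (h : Par K M) : WB (bb K M) :=
  ⟨bb_meas, ⟨pw M, pw_pos M, bb_ge h.hKM⟩, ⟨1, bb_le⟩⟩

lemma ww_WB' (h : Par K M) (g : ℕ) : WB (fun x => 8 * K * ww K M g x) :=
  (ww_WB h g).smul (by have := h.K2; positivity)

lemma ch_sub_Z (hK : 1 ≤ K) (i : ℕ) : ch K i ⊆ Z i := by
  intro x hx
  have h := ch_zone hK hx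
  have := pw_pos i
  have hx0 : 0 < x := by linarith [h.1]
  refine ⟨?_, ?_⟩
  · rw [abs_of_pos hx0, pw_succ]; linarith [h.1]
  · rw [abs_of_pos hx0]; linarith [h.2]

lemma Z_disj {i j : ℕ} {x : ℝ} (h1 : x ∈ Z i) (h2 : x ∈ Z j) : i = j := by
  rcases lt_trichotomy i j with h | h | h
  · have := pw_anti (Nat.succ_le_of_lt h)
    exact absurd h1.1 (not_le.mpr (lt_of_lt_of_le h2.2 this))
  · exact h
  · have := pw_anti (Nat.succ_le_of_lt h)
    exact absurd h2.1 (not_le.mpr (lt_of_lt_of_le h1.2 this))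

lemma ww_core (hK : 1 ≤ K) (g : ℕ) {x : ℝ} (hx : x ∈ B K) : ww K M (g + 1) x = bb K M x := by
  apply ww_out
  intro i hi hx'
  have h1 := (ch_sub_Z hK i hx').1
  have h2 := pw_anti (Nat.succ_le_of_lt hi)
  exact absurd (h2.trans h1) (not_le.mpr hx)

lemma B_mono {m n : ℕ} (h : m ≤ n) : B n ⊆ B m := fun _ hx => lt_of_lt_of_le hx (pw_anti h)

lemma ww_zone (hK : 1 ≤ K) (g : ℕ) {i : ℕ} {x : ℝ} (hx : x ∈ Z i) (hx' : x ∉ ch K i) :
    ww K M (g + 1) x = bb K M x := by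
  apply ww_out
  intro j _ hj
  have := Z_disj hx (ch_sub_Z hK j hj)
  rw [← this] at hj
  exact hx' hj

lemma zc_split (hK : 1 ≤ K) (i : ℕ) {f : ℝ → ℝ} (hf : BM f) :
    ∫ x in Z i, f x = (∫ x in Z i \ ch K i, f x) + ∫ x in ch K i, f x := by
  have h := si_union (s := Z i \ ch K i) (t := ch K i) hf Set.disjoint_sdiff_left (ch_meas i)
    (ne_top_of_le_ne_top (Z_fin i) (measure_mono Set.sdiff_subset))
    (ne_top_of_le_ne_top (Z_fin i) (measure_mono (ch_sub_Z hK i)))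
  rwa [Set.sdiff_union_of_subset (ch_sub_Z hK i)] at h

lemma ch_int (hK : 1 ≤ K) (g : ℕ) {i : ℕ} (hi : i < K) (F : ℝ → ℝ) :
    ∫ x in ch K i, F (ww K M (g + 1) x) = lm K i * ∫ y in B 0, F (8 * K * ww K M g y) := by
  have h := si_child (i := i) hK (fun x => F (ww K M (g + 1) x)) (fun y => F (8 * K * ww K M g y))
    Set.univ (fun x hx => by simp only [ww_ch hK g hi hx]) MeasurableSet.univ
  simpa using h

lemma zc_le (hK : 1 ≤ K) (g : ℕ) {i : ℕ} (hi : i < K) (F : ℝ → ℝ)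
    (hF : BM (fun x => F (ww K M (g + 1) x))) {q : ℝ}
    (hq0 : 0 ≤ q) (hq : ∀ x ∈ Z i, F (bb K M x) ≤ q) :
    ∫ x in Z i, F (ww K M (g + 1) x) ≤ q * pw i + lm K i * ∫ y in B 0, F (8 * K * ww K M g y) := by
  rw [zc_split hK i hF, ch_int hK g hi]
  have hs : volume (Z i \ ch K i) ≠ ⊤ :=
    ne_top_of_le_ne_top (Z_fin i) (measure_mono Set.sdiff_subset)
  have h1 := si_le hF ((Z_meas i).diff (ch_meas (K := K) i)) hs (q := q) (by
    intro x hx
    simp only [ww_zone hK g hx.1 hx.2]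
    exact hq x hx.1)
  have h2 : volume.real (Z i \ ch K i) ≤ pw i := by
    rw [← Z_real i]
    exact measureReal_mono Set.sdiff_subset (Z_fin i)
  have h3 := mul_le_mul_of_nonneg_left h2 hq0
  linarith

lemma zc_ge (hK : 1 ≤ K) (g : ℕ) {i : ℕ} (hi : i < K) (F : ℝ → ℝ)
    (hF : BM (fun x => F (ww K M (g + 1) x))) (h0 : ∀ x, 0 ≤ F (ww K M (g + 1) x)) :
    lm K i * ∫ y in B 0, F (8 * K * ww K M g y) ≤ ∫ x in Z i, F (ww K M (g + 1) x) := by
  rw [zc_split hK i hF, ch_int hK g hi]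
  have : 0 ≤ ∫ x in Z i \ ch K i, F (ww K M (g + 1) x) := integral_nonneg (fun x => h0 x)
  linarith

/-! ### The background near the centre -/

lemma bb_Z_le (h : Par K M) {i : ℕ} (hi : K ≤ i) (hi' : i < K + M) {x : ℝ} (hx : x ∈ Z i) :
    bb K M x ≤ pw i / pw K := by
  have hx2 := hx.2
  have h1 : |x| ≤ pw K := hx2.le.trans (pw_anti hi)
  rw [bb_near h.hKM h1]
  have hp := pw_pos K
  apply max_le
  · gcongr
  · rw [le_div_iff₀ hp, ← pw_add, add_comm]
    exact pw_anti hi'.le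

lemma bb_Z_ge (h : Par K M) {i : ℕ} (hi : K ≤ i) {x : ℝ} (hx : x ∈ Z i) :
    pw (i + 1) / pw K ≤ bb K M x := by
  have h1 : |x| ≤ pw K := hx.2.le.trans (pw_anti hi)
  rw [bb_near h.hKM h1]
  apply le_max_of_le_left
  have hp := pw_pos K
  have := hx.1
  gcongr

lemma bb_B (h : Par K M) {x : ℝ} (hx : x ∈ B (K + M)) : bb K M x = pw M := by
  have hx' : |x| < pw (K + M) := hx
  have h1 : |x| ≤ pw K := hx'.le.trans (pw_anti (Nat.le_add_right _ _))
  rw [bb_near h.hKM h1]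
  apply max_eq_right
  rw [div_le_iff₀ (pw_pos K), ← pw_add, add_comm]
  exact hx'.le

lemma coreX (h : Par K M) {m : ℕ} (hm : K ≤ m) (hm' : m ≤ K + M) :
    ∫ x in B m, bb K M x ≤ 2 / pw K * pw m ^ 2 := by
  have hp := pw_pos K
  apply zl_le (bb_WB h).bm (fun i => 2 / pw K * pw i ^ 2) hm'
  · intro i hi hi'
    have h1 := si_le (bb_WB h).bm (Z_meas i) (Z_fin i)
      (fun x hx => bb_Z_le h (hm.trans hi) hi' hx)
    rw [Z_real] at h1
    refine h1.trans ?_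
    rw [pw_succ]
    have : 0 ≤ pw i ^ 2 / pw K := by positivity
    calc pw i / pw K * pw i = pw i ^ 2 / pw K := by ring
      _ ≤ 3 / 2 * (pw i ^ 2 / pw K) := by linarith
      _ = 2 / pw K * pw i ^ 2 - 2 / pw K * (pw i / 2) ^ 2 := by ring
  · have h1 := si_le (bb_WB h).bm (B_meas (K + M)) (B_fin _) (fun x hx => (bb_B h hx).le)
    rw [B_real] at h1
    refine h1.trans (le_of_eq ?_)
    rw [pw_add]
    field_simp

lemma coreY (h : Par K M) {m : ℕ} (hm : K ≤ m) (hm' : m ≤ K + M) :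
    ∫ x in B m, (bb K M x)⁻¹ ≤ (2 * ((K + M : ℕ) - (m:ℝ)) + 2) * pw K := by
  have hp := pw_pos K
  apply zl_le (bb_WB h).inv (fun i => (2 * ((K + M : ℕ) - (i:ℝ)) + 2) * pw K) hm'
  · intro i hi hi'
    have hpi := pw_pos i
    have h1 := si_le (bb_WB h).inv (Z_meas i) (Z_fin i) (q := (pw (i + 1) / pw K)⁻¹)
      (fun x hx => inv_anti₀ (by have := pw_pos (i + 1); positivity)
        (bb_Z_ge h (hm.trans hi) hx))
    rw [Z_real] at h1
    refine h1.trans (le_of_eq ?_)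
    rw [pw_succ]
    push_cast
    field_simp
    ring
  · have h1 := si_le (bb_WB h).inv (B_meas (K + M)) (B_fin _) (q := (pw M)⁻¹)
      (fun x hx => by rw [bb_B h hx])
    rw [B_real] at h1
    refine h1.trans (le_of_eq ?_)
    have := pw_pos M
    rw [pw_add]
    field_simp
    ring

lemma coreY_ge (h : Par K M) : M * pw K ≤ ∫ x in B K, (bb K M x)⁻¹ := by
  have hp := pw_pos K
  have := zl_ge (bb_WB h).inv (fun i => ((K + M : ℕ) - (i:ℝ)) * pw K) (Nat.le_add_right K M) ?_ ?_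
  · simpa using this
  · intro i hi hi'
    have hpi := pw_pos i
    have h1 := si_ge (bb_WB h).inv (Z_meas i) (Z_fin i) (q := (pw i / pw K)⁻¹)
      (fun x hx => inv_anti₀ ((bb_WB h).pos x) (bb_Z_le h hi hi' hx))
    rw [Z_real] at h1
    refine le_trans (le_of_eq ?_) h1
    push_cast
    field_simp
    ring
  · simp only [sub_self, zero_mul]
    exact integral_nonneg (fun x => (inv_pos.mpr ((bb_WB h).pos x)).le)

lemma coreP (h : Par K M) {m : ℕ} (hm : K ≤ m) (hm' : m ≤ K + M) :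
    ∫ x in B m, max 0 (Real.log (bb K M x)⁻¹ - ((m:ℝ) - K) * Real.log 2) ≤ 6 * pw m := by
  have hp := pw_pos K
  have hl := log2_pos
  have hl1 := log2_le
  have key := zl_le ((bb_WB h).exc (((m:ℝ) - K) * Real.log 2))
    (fun i => 2 * ((i:ℝ) - m + 3) * pw i) hm' ?_ ?_
  · refine key.trans (le_of_eq ?_)
    ring
  · intro i hi hi'
    have hpi := pw_pos i
    have hi2 : (m:ℝ) ≤ i := by exact_mod_cast hi
    have h1 := si_le ((bb_WB h).exc (((m:ℝ) - K) * Real.log 2)) (Z_meas i) (Z_fin i)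
      (q := (i:ℝ) - m + 1) (by
        intro x hx
        apply max_le (by linarith)
        have e1 := Real.log_le_log (by have := pw_pos (i + 1); positivity)
          (bb_Z_ge h (hm.trans hi) hx)
        rw [Real.log_div (pw_pos _).ne' hp.ne', log_pw, log_pw] at e1
        rw [Real.log_inv]
        push_cast at e1
        nlinarith)
    rw [Z_real] at h1
    refine h1.trans ?_
    rw [pw_succ]
    push_cast
    nlinarith
  · have hmm : (m:ℝ) ≤ K + M := by exact_mod_cast hm'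
    have h1 := si_le ((bb_WB h).exc (((m:ℝ) - K) * Real.log 2)) (B_meas (K + M)) (B_fin _)
      (q := (K:ℝ) + M - m) (by
        intro x hx
        rw [bb_B h hx, Real.log_inv, log_pw]
        apply max_le (by linarith)
        nlinarith)
    rw [B_real] at h1
    refine h1.trans ?_
    have := pw_pos (K + M)
    push_cast
    nlinarith

end

end Pool.Agent.H433R3.Ce
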