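import Pool.Agent.H433R3.Ce2

/-!
# The endpoint `α = 0`: masses of the self-similar weight, recursion
-/

set_option autoImplicit false

namespace Pool.Agent.H433R3.Ce

open MeasureTheory

section
variable {K M : ℕ}

lemma Z_bb (_ : Par K M) {i : ℕ} (hi : i < K) {x : ℝ} (hx : x ∈ Z i) :
    bb K M x ≤ pw K / pw (i + 1) ∧ pw K / pw i ≤ bb K M x ∧ pw K ≤ bb K M x := by
  have hp := pw_pos K
  have h1 : pw (i + 1) ≤ |x| := hx.1
  have h2 : |x| < pw i := hx.2
  have h3 : pw K ≤ pw (i + 1) := pw_anti hi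
  have h0 := pw_pos (i + 1)
  have hx0 : 0 < |x| := lt_of_lt_of_le h0 h1
  rw [bb_far (h3.trans h1)]
  refine ⟨?_, ?_, le_max_right _ _⟩
  · apply max_le
    · gcongr
    · rw [le_div_iff₀ h0]
      have := pw_le_one (i + 1)
      nlinarith
  · apply le_max_of_le_left
    gcongr

lemma stepX (h : Par K M) (g : ℕ) {m : ℕ} (hm : m ≤ K) :
    ∫ x in B m, ww K M (g + 1) x ≤
      2 * ((K:ℝ) - m) * pw K + (pw m - pw K) * (∫ x in B 0, ww K M g x) + 2 * pw K := by
  have hp := pw_pos K
  set X := ∫ x in B 0, ww K M g x with hX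
  apply zl_le (ww_WB h (g + 1)).bm
    (fun i => 2 * ((K:ℝ) - i) * pw K + (pw i - pw K) * X + 2 * pw K) hm
  · intro i hi hi'
    have hpi := pw_pos i
    have h0 := pw_pos (i + 1)
    have h1 := zc_le (M := M) h.hK1 g hi' (fun t => t) (ww_WB h (g + 1)).bm
      (q := pw K / pw (i + 1)) (by positivity) (fun x hx => (Z_bb h hi' hx).1)
    rw [integral_const_mul, ← mul_assoc, lm_mul h.hK1] at h1
    refine h1.trans (le_of_eq ?_)
    rw [pw_succ]
    push_cast
    field_simp
    ring
  · have h1 : ∫ x in B K, ww K M (g + 1) x = ∫ x in B K, bb K M x :=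
      setIntegral_congr_fun (B_meas K) (fun x hx => ww_core h.hK1 g hx)
    rw [h1]
    have h2 := coreX h le_rfl (Nat.le_add_right K M)
    refine h2.trans (le_of_eq ?_)
    field_simp
    ring

lemma stepX_ge (h : Par K M) (g : ℕ) {m : ℕ} (hm : m ≤ K) :
    (pw m - pw K) * (∫ x in B 0, ww K M g x) ≤ ∫ x in B m, ww K M (g + 1) x := by
  set X := ∫ x in B 0, ww K M g x with hX
  apply zl_ge (ww_WB h (g + 1)).bm (fun i => (pw i - pw K) * X) hm
  · intro i hi hi'
    have h1 := zc_ge (M := M) h.hK1 g hi' (fun t => t) (ww_WB h (g + 1)).bm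
      (fun x => ((ww_WB h (g + 1)).pos x).le)
    rw [integral_const_mul, ← mul_assoc, lm_mul h.hK1] at h1
    refine le_trans (le_of_eq ?_) h1
    rw [pw_succ]
    ring
  · simp only [sub_self, zero_mul]
    exact integral_nonneg (fun x => ((ww_WB h (g + 1)).pos x).le)

lemma stepY (h : Par K M) (g : ℕ) {m : ℕ} (hm : m ≤ K) :
    ∫ x in B m, (ww K M (g + 1) x)⁻¹ ≤
      4 / 3 * pw m ^ 2 / pw K + 2 * pw m * (∫ x in B 0, (ww K M g x)⁻¹) / (128 * K ^ 2) +
        (2 * M + 2) * pw K := by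
  have hp := pw_pos K
  have hK2 := h.K2
  have hK0 : (0:ℝ) < K := by linarith
  set Y := ∫ x in B 0, (ww K M g x)⁻¹ with hY
  have hY0 : 0 ≤ Y := integral_nonneg (fun x => (inv_pos.mpr ((ww_WB h g).pos x)).le)
  apply zl_le (ww_WB h (g + 1)).inv
    (fun i => 4 / 3 * pw i ^ 2 / pw K + 2 * pw i * Y / (128 * K ^ 2) + (2 * M + 2) * pw K) hm
  · intro i hi hi'
    have hpi := pw_pos i
    have h1 := zc_le (M := M) h.hK1 g hi' (fun t => t⁻¹) (ww_WB h (g + 1)).inv
      (q := pw i / pw K) (by positivity) (fun x hx => by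
        have := inv_anti₀ (by positivity) (Z_bb h hi' hx).2.1
        rwa [inv_div] at this)
    simp only [mul_inv] at h1
    rw [integral_const_mul, ← hY] at h1
    refine h1.trans (le_of_eq ?_)
    rw [pw_succ]
    unfold lm
    field_simp
    ring
  · have h1 : ∫ x in B K, (ww K M (g + 1) x)⁻¹ = ∫ x in B K, (bb K M x)⁻¹ :=
      setIntegral_congr_fun (B_meas K) (fun x hx => by simp only [ww_core h.hK1 g hx])
    rw [h1]
    have h2 := coreY h le_rfl (Nat.le_add_right K M)
    refine h2.trans ?_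
    push_cast
    have e1 : 0 ≤ 4 / 3 * pw K ^ 2 / pw K := by positivity
    have e2 : 0 ≤ 2 * pw K * Y / (128 * K ^ 2) := by positivity
    nlinarith

lemma stepP (h : Par K M) (g : ℕ) {m : ℕ} (hm : m ≤ K)
    (hP : ∫ x in B 0, max 0 (Real.log (ww K M g x)⁻¹ - K * Real.log 2) ≤ 4) :
    ∫ x in B m, max 0 (Real.log (ww K M (g + 1) x)⁻¹ - ((K:ℝ) - m) * Real.log 2) ≤
      (1 / 4 + m / K) * pw m + 6 * pw K := by
  have hp := pw_pos K
  have hK2 := h.K2
  have hK0 : (0:ℝ) < K := by linarith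
  have hl := log2_pos
  have hl1 := log2_le
  have hmK : (m:ℝ) ≤ K := by exact_mod_cast hm
  have hm0 : (0:ℝ) ≤ m := Nat.cast_nonneg m
  apply zl_le ((ww_WB h (g + 1)).exc _) (fun i => (1 / 4 + m / K) * pw i + 6 * pw K) hm
  · intro i hi hi'
    have hpi := pw_pos i
    have hi2 : (m:ℝ) ≤ i := by exact_mod_cast hi
    have h1 := zc_le (M := M) h.hK1 g hi'
      (fun t => max 0 (Real.log t⁻¹ - ((K:ℝ) - m) * Real.log 2)) ((ww_WB h (g + 1)).exc _)
      (q := 0) le_rfl (fun x hx => by
        apply max_le le_rfl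
        have e1 := Real.log_le_log (by positivity) (Z_bb h hi' hx).2.1
        rw [Real.log_div hp.ne' hpi.ne', log_pw, log_pw] at e1
        rw [Real.log_inv]
        nlinarith)
    have h2 : ∫ y in B 0, max 0 (Real.log (8 * K * ww K M g y)⁻¹ - ((K:ℝ) - m) * Real.log 2) ≤
        ∫ y in B 0, (max 0 (Real.log (ww K M g y)⁻¹ - K * Real.log 2) + m * Real.log 2) := by
      apply setIntegral_mono_on (((ww_WB' h g).exc _).int (B_fin 0)) _ (B_meas 0)
      · intro y _
        have e0 : 0 ≤ (m:ℝ) * Real.log 2 := by positivity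
        have e1 := (ww_WB h g).pos y
        have e2 : Real.log (8 * K * ww K M g y)⁻¹ ≤ Real.log (ww K M g y)⁻¹ := by
          apply Real.log_le_log (by positivity)
          apply inv_anti₀ e1
          nlinarith
        have e3 := le_max_left (0:ℝ) (Real.log (ww K M g y)⁻¹ - K * Real.log 2)
        have e4 := le_max_right (0:ℝ) (Real.log (ww K M g y)⁻¹ - K * Real.log 2)
        apply max_le
        · linarith
        · linarith
      · exact (((ww_WB h g).exc _).int (B_fin 0)).add (integrableOn_const (B_fin 0))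
    rw [integral_add (((ww_WB h g).exc _).int (B_fin 0)) (integrableOn_const (B_fin 0)),
      setIntegral_const, B_real, pw_zero, smul_eq_mul] at h2
    have h3 : lm K i * (∫ y in B 0, max 0 (Real.log (8 * K * ww K M g y)⁻¹ -
        ((K:ℝ) - m) * Real.log 2)) ≤ lm K i * (4 + 2 * m) := by
      apply mul_le_mul_of_nonneg_left _ (lm_pos h.hK1 i).le
      nlinarith
    have h4 : lm K i * (4 + 2 * m) ≤ (1 / 4 + m / K) * pw i - (1 / 4 + m / K) * pw (i + 1) := by
      rw [pw_succ]
      unfold lm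
      have e1 : (1 / 4 + m / K) * pw i - (1 / 4 + m / K) * (pw i / 2) =
        pw i * ((K + 4 * m) / (8 * K)) := by field_simp; ring
      have e2 : pw i / (16 * K) * (4 + 2 * m) = pw i * ((4 + 2 * m) / (16 * K)) := by ring
      rw [e1, e2]
      apply mul_le_mul_of_nonneg_left _ hpi.le
      rw [div_le_div_iff₀ (by positivity) (by positivity)]
      nlinarith
    linarith
  · have h1 : ∫ x in B K, max 0 (Real.log (ww K M (g + 1) x)⁻¹ - ((K:ℝ) - m) * Real.log 2) ≤
        ∫ x in B K, max 0 (Real.log (bb K M x)⁻¹ - ((K:ℝ) - K) * Real.log 2) := by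
      apply setIntegral_mono_on (((ww_WB h (g + 1)).exc _).int (B_fin K))
        (((bb_WB h).exc _).int (B_fin K)) (B_meas K)
      intro x hx
      rw [ww_core h.hK1 g hx]
      apply max_le_max le_rfl
      nlinarith
    have h2 := coreP h le_rfl (Nat.le_add_right K M)
    have e0 : 0 ≤ (1 / 4 + (m:ℝ) / K) * pw K := by positivity
    linarith

lemma X_up (h : Par K M) (g : ℕ) :
    ∫ x in B 0, ww K M g x ≤ 2 + g * (2 * (K + 1) * pw K) := by
  have hp := pw_pos K
  induction g with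
  | zero =>
    have h1 := si_le (ww_WB h 0).bm (B_meas 0) (B_fin 0) (q := 1)
      (fun x _ => by simpa using ww_le (M := M) h.hK1 0 x)
    rw [B_real, pw_zero] at h1
    push_cast
    linarith
  | succ g ih =>
    have h1 := stepX h g (Nat.zero_le K)
    have hX : 0 ≤ ∫ x in B 0, ww K M g x := integral_nonneg (fun x => ((ww_WB h g).pos x).le)
    rw [pw_zero] at h1
    push_cast at h1 ⊢
    nlinarith

lemma X_lo (h : Par K M) {g : ℕ} (hg : (g:ℝ) * pw K ≤ 1) :
    2 * (1 - g * pw K) ≤ ∫ x in B 0, ww K M g x := by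
  have hp := pw_pos K
  induction g with
  | zero =>
    have h1 := si_ge (ww_WB h 0).bm (B_meas 0) (B_fin 0) (q := 1)
      (fun x hx => by
        rw [ww, if_pos]
        have : |x| < pw 0 := hx
        rwa [pw_zero] at this)
    rw [B_real, pw_zero] at h1
    push_cast
    linarith
  | succ g ih =>
    have h1 := stepX_ge h g (Nat.zero_le K)
    push_cast at hg
    have h2 := ih (by nlinarith)
    rw [pw_zero] at h1
    have h4 := h.p4
    have hg0 : (0:ℝ) ≤ g := Nat.cast_nonneg g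
    have h3 : (1 - pw K) * (2 * (1 - g * pw K)) ≤ (1 - pw K) * ∫ x in B 0, ww K M g x :=
      mul_le_mul_of_nonneg_left h2 (by linarith)
    push_cast
    nlinarith [mul_nonneg hg0 (sq_nonneg (pw K))]

lemma Y_up (h : Par K M) (g : ℕ) : ∫ x in B 0, (ww K M g x)⁻¹ ≤ 5 * (M * pw K) := by
  have hp := pw_pos K
  have hK2 := h.K2
  have hM := h.hM'
  have h4 := h.p4
  have hMp : 1 / pw K ≤ M * pw K := by
    rw [div_le_iff₀ hp]
    nlinarith
  have h4' : 4 ≤ 1 / pw K := by rw [le_div_iff₀ hp]; linarith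
  induction g with
  | zero =>
    have h1 := si_le (ww_WB h 0).inv (B_meas 0) (B_fin 0) (q := 1)
      (fun x hx => by
        rw [ww, if_pos, inv_one]
        have : |x| < pw 0 := hx
        rwa [pw_zero] at this)
    rw [B_real, pw_zero] at h1
    linarith
  | succ g ih =>
    have h1 := stepY h g (Nat.zero_le K)
    rw [pw_zero] at h1
    refine h1.trans ?_
    have hY0 : 0 ≤ ∫ x in B 0, (ww K M g x)⁻¹ :=
      integral_nonneg (fun x => (inv_pos.mpr ((ww_WB h g).pos x)).le)
    have e1 : 2 * 1 * (∫ x in B 0, (ww K M g x)⁻¹) / (128 * (K:ℝ) ^ 2) ≤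
        2 * 1 * (5 * (M * pw K)) / 128 := by
      apply div_le_div₀ (by linarith [mul_nonneg (Nat.cast_nonneg (α := ℝ) M) hp.le])
        (by linarith) (by norm_num)
      nlinarith
    have e2 : 4 / 3 * (1:ℝ) ^ 2 / pw K = 4 / 3 * (1 / pw K) := by ring
    rw [e2]
    nlinarith

lemma P_up (h : Par K M) (g : ℕ) :
    ∫ x in B 0, max 0 (Real.log (ww K M g x)⁻¹ - K * Real.log 2) ≤ 4 := by
  have hK2 := h.K2
  have hl := log2_pos
  induction g with
  | zero =>
    have h1 := si_le ((ww_WB h 0).exc (K * Real.log 2)) (B_meas 0) (B_fin 0) (q := 0)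
      (fun x hx => by
        have hx' : |x| < 1 := by
          have : |x| < pw 0 := hx
          rwa [pw_zero] at this
        rw [ww, if_pos hx', inv_one, Real.log_one]
        apply max_le le_rfl
        nlinarith)
    linarith
  | succ g ih =>
    have h1 := stepP h g (Nat.zero_le K) ih
    rw [pw_zero] at h1
    have h4 := h.p4
    simp only [Nat.cast_zero, sub_zero, zero_div, add_zero, mul_one] at h1
    linarith

/-- The bounds for `g` generations, all ready to use. -/
structure Good (K M g : ℕ) : Prop where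
  par : Par K M
  gK : (g:ℝ) * K * pw K ≤ 1

lemma Good.pred {g : ℕ} (h : Good K M (g + 1)) : Good K M g := by
  refine ⟨h.par, le_trans ?_ h.gK⟩
  have hp := pw_pos K
  push_cast
  have : (0:ℝ) ≤ K := Nat.cast_nonneg K
  nlinarith [mul_nonneg this hp.le]

lemma Good.X5 {g : ℕ} (h : Good K M g) : ∫ x in B 0, ww K M g x ≤ 5 := by
  have h1 := X_up h.par g
  have h2 := h.gK
  have hK2 := h.par.K2
  have hp := pw_pos K
  have hg0 : (0:ℝ) ≤ g := Nat.cast_nonneg g
  have h3 : (g:ℝ) * pw K * 1 ≤ g * pw K * (K / 2) :=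
    mul_le_mul_of_nonneg_left (by linarith) (by positivity)
  nlinarith

lemma Good.X1 {g : ℕ} (h : Good K M g) : 1 ≤ ∫ x in B 0, ww K M g x := by
  have h2 := h.gK
  have hK2 := h.par.K2
  have hp := pw_pos K
  have hg0 : (0:ℝ) ≤ g := Nat.cast_nonneg g
  have h3 : (g:ℝ) * pw K * 1 ≤ g * pw K * (K / 2) :=
    mul_le_mul_of_nonneg_left (by linarith) (by positivity)
  have h1 := X_lo h.par (g := g) (by nlinarith)
  nlinarith

lemma Good.Xm {g : ℕ} (h : Good K M (g + 1)) {m : ℕ} (hm : m ≤ K) :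
    ∫ x in B m, ww K M (g + 1) x ≤ 9 * pw m := by
  have h1 := stepX h.par g hm
  have h2 := h.pred.X5
  have h0 : 0 ≤ ∫ x in B 0, ww K M g x :=
    integral_nonneg (fun x => ((ww_WB h.par g).pos x).le)
  have hp := pw_pos K
  have hpm := pw_pos m
  have h3 := pw_anti hm
  have h4 : ((K:ℝ) - m) * pw K ≤ pw m := by
    obtain ⟨n, rfl⟩ := Nat.exists_eq_add_of_le hm
    rw [pw_add]
    push_cast
    have e1 : (n:ℝ) * pw n ≤ 1 := by
      unfold pw
      have : (n:ℝ) ≤ 2 ^ n := by exact_mod_cast Nat.lt_two_pow_self.le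
      rw [one_div, inv_pow, ← div_eq_mul_inv]
      exact div_le_one_of_le₀ this (by positivity)
    have e2 : (m + n - m : ℝ) * (pw m * pw n) = pw m * (n * pw n) := by ring
    rw [e2]
    nlinarith
  have h5 : (pw m - pw K) * (∫ x in B 0, ww K M g x) ≤ pw m * 5 :=
    mul_le_mul (by linarith) h2 h0 hpm.le
  nlinarith

lemma Good.Ym {g : ℕ} (h : Good K M g) (m : ℕ) :
    ∫ x in B m, (ww K M g x)⁻¹ ≤ 5 * (M * pw K) :=
  (si_mono (ww_WB h.par g).inv (fun x => (inv_pos.mpr ((ww_WB h.par g).pos x)).le)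
    (B_mono (Nat.zero_le m)) (B_fin 0)).trans (Y_up h.par g)

lemma Good.Pm {g : ℕ} (h : Good K M (g + 1)) {m : ℕ} (hm : m ≤ K) :
    ∫ x in B m, max 0 (Real.log (ww K M (g + 1) x)⁻¹ - ((K:ℝ) - m) * Real.log 2) ≤ 8 * pw m := by
  have h1 := stepP h.par g hm (P_up h.par g)
  have hp := pw_pos K
  have hpm := pw_pos m
  have h3 := pw_anti hm
  have hK2 := h.par.K2
  have h4 : (m:ℝ) / K ≤ 1 := div_le_one_of_le₀ (by exact_mod_cast hm) (by linarith)
  nlinarith

end

end Pool.Agent.H433R3.Ce
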