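import Pool.Agent.H433R3.Ce3

/-!
# The endpoint `α = 0`: the one-supremum constant of the self-similar weight
-/

set_option autoImplicit false

namespace Pool.Agent.H433R3.Ce

open MeasureTheory

/-- `X² Y e^{E/t}`. -/
noncomputable def Pr (w : ℝ → ℝ) (u v : ℝ) : ℝ :=
  (∫ x in Set.Ico u v, w x) ^ 2 * (∫ x in Set.Ico u v, (w x)⁻¹) *
    Real.exp ((∫ x in Set.Ico u v, Real.log (w x)⁻¹) / (v - u))

lemma I_fin (u v : ℝ) : volume (Set.Ico u v) ≠ ⊤ := by
  rw [Real.volume_Ico]; exact ENNReal.ofReal_ne_top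

lemma I_real {u v : ℝ} (h : u < v) : volume.real (Set.Ico u v) = v - u := by
  rw [measureReal_def, Real.volume_Ico, ENNReal.toReal_ofReal (by linarith)]

lemma Pr_up {w : ℝ → ℝ} (hw : WB w) {u v a b e : ℝ}
    (hX : ∫ x in Set.Ico u v, w x ≤ a) (hY : ∫ x in Set.Ico u v, (w x)⁻¹ ≤ b)
    (hE : (∫ x in Set.Ico u v, Real.log (w x)⁻¹) / (v - u) ≤ e) :
    Pr w u v ≤ a ^ 2 * b * Real.exp e := by
  unfold Pr
  have hX0 : 0 ≤ ∫ x in Set.Ico u v, w x := integral_nonneg (fun x => (hw.pos x).le)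
  have hY0 : 0 ≤ ∫ x in Set.Ico u v, (w x)⁻¹ :=
    integral_nonneg (fun x => (inv_pos.mpr (hw.pos x)).le)
  have hE' := Real.exp_le_exp.mpr hE
  have h0 := Real.exp_pos ((∫ x in Set.Ico u v, Real.log (w x)⁻¹) / (v - u))
  have h1 : (∫ x in Set.Ico u v, w x) ^ 2 ≤ a ^ 2 := pow_le_pow_left₀ hX0 hX 2
  apply mul_le_mul _ hE' h0.le (by have := hY0.trans hY; positivity)
  exact mul_le_mul h1 hY hY0 (by positivity)

/-- Bound for the logarithmic average. -/
lemma E_up {w : ℝ → ℝ} (hw : WB w) {u v L e : ℝ} (huv : u < v)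
    (h : ∫ x in Set.Ico u v, max 0 (Real.log (w x)⁻¹ - L) ≤ e * (v - u)) :
    (∫ x in Set.Ico u v, Real.log (w x)⁻¹) / (v - u) ≤ L + e := by
  have h1 : ∫ x in Set.Ico u v, Real.log (w x)⁻¹ ≤
      ∫ x in Set.Ico u v, (L + max 0 (Real.log (w x)⁻¹ - L)) := by
    apply setIntegral_mono_on (hw.log.int (I_fin u v)) _ measurableSet_Ico
    · intro x _
      have := le_max_right 0 (Real.log (w x)⁻¹ - L)
      linarith
    · exact (integrableOn_const (I_fin u v)).add ((hw.exc L).int (I_fin u v))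
  have h2 : IntegrableOn (fun _ : ℝ => L) (Set.Ico u v) volume := integrableOn_const (I_fin u v)
  have h3 : IntegrableOn (fun x => max 0 (Real.log (w x)⁻¹ - L)) (Set.Ico u v) volume :=
    (hw.exc L).int (I_fin u v)
  rw [integral_add h2 h3, setIntegral_const, I_real huv, smul_eq_mul] at h1
  rw [div_le_iff₀ (by linarith)]
  linarith

lemma Pr_cmp {w : ℝ → ℝ} (hw : WB w) {u v q Q : ℝ} (huv : u < v) (hq : 0 < q)
    (h : ∀ x ∈ Set.Ico u v, q ≤ w x ∧ w x ≤ Q) : Pr w u v ≤ (Q / q) ^ 2 * (v - u) ^ 3 := by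
  have h1 := si_le hw.bm measurableSet_Ico (I_fin u v) (fun x hx => (h x hx).2)
  have h2 := si_le hw.inv measurableSet_Ico (I_fin u v) (fun x hx => inv_anti₀ hq (h x hx).1)
  have h3 := E_up hw (L := Real.log q⁻¹) (e := 0) huv (by
    have := si_le (hw.exc (Real.log q⁻¹)) measurableSet_Ico (I_fin u v) (q := 0) (by
      intro x hx
      apply max_le le_rfl
      have := Real.log_le_log (inv_pos.mpr (hw.pos x)) (inv_anti₀ hq (h x hx).1)
      linarith)
    linarith)
  rw [I_real huv] at h1 h2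
  have := Pr_up hw h1 h2 h3
  refine this.trans (le_of_eq ?_)
  rw [add_zero, Real.exp_log (inv_pos.mpr hq)]
  field_simp

section
variable {K M : ℕ}

lemma exp_K : Real.exp (K * Real.log 2) = (pw K)⁻¹ := by
  have : (K * Real.log 2 : ℝ) = -Real.log (pw K) := by rw [log_pw]; ring
  rw [this, Real.exp_neg, Real.exp_log (pw_pos K)]

lemma exp_m (m : ℕ) : Real.exp (((K:ℝ) - m) * Real.log 2) = pw m / pw K := by
  have : (((K:ℝ) - m) * Real.log 2 : ℝ) = Real.log (pw m) - Real.log (pw K) := by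
    rw [log_pw, log_pw]; ring
  rw [this, Real.exp_sub, Real.exp_log (pw_pos _), Real.exp_log (pw_pos K)]

/-- Case A2. -/
lemma caseA2 {g : ℕ} (h : Good K M (g + 1)) {u v : ℝ} (huv : u < v) {m : ℕ} (hm : m ≤ K)
    (hI : Set.Ico u v ⊆ B m) (ht : pw m / 8 ≤ v - u) :
    Pr (ww K M (g + 1)) u v ≤ 207360 * Real.exp 64 * M * (v - u) ^ 3 := by
  have hp := pw_pos K
  have hpm := pw_pos m
  have hw := ww_WB h.par (g + 1)
  have hX := (si_mono hw.bm (fun x => (hw.pos x).le) hI (B_fin m)).trans (h.Xm hm)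
  have hY := (si_mono hw.inv (fun x => (inv_pos.mpr (hw.pos x)).le) hI (B_fin m)).trans (h.Ym m)
  have hE := E_up hw (L := ((K:ℝ) - m) * Real.log 2) (e := 64) huv
    (((si_mono (hw.exc _) (fun x => le_max_left _ _) hI (B_fin m)).trans (h.Pm hm)).trans
      (by linarith))
  refine (Pr_up hw hX hY hE).trans ?_
  rw [Real.exp_add, exp_m]
  have h1 : pw m ^ 3 ≤ (8 * (v - u)) ^ 3 := pow_le_pow_left₀ hpm.le (by linarith) 3
  have e0 : (0:ℝ) ≤ M := Nat.cast_nonneg M
  have e1 := Real.exp_pos 64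
  calc (9 * pw m) ^ 2 * (5 * (M * pw K)) * (pw m / pw K * Real.exp 64)
      = 405 * (M * Real.exp 64) * pw m ^ 3 := by field_simp; ring
    _ ≤ 405 * (M * Real.exp 64) * (8 * (v - u)) ^ 3 := by gcongr
    _ = 207360 * Real.exp 64 * M * (v - u) ^ 3 := by ring

/-- Case A3. -/
lemma caseA3 {g : ℕ} (h : Good K M (g + 1)) {u v : ℝ} (huv : u < v) {m : ℕ} (hm : K ≤ m)
    (hm' : m ≤ K + M) (hI : Set.Ico u v ⊆ B m) (ht : pw m / 8 ≤ v - u) :
    Pr (ww K M (g + 1)) u v ≤ 207360 * Real.exp 64 * M * (v - u) ^ 3 := by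
  have hp := pw_pos K
  have hpm := pw_pos m
  have hw := ww_WB h.par (g + 1)
  have hBK : B m ⊆ B K := B_mono hm
  have c1 : ∫ x in B m, ww K M (g + 1) x = ∫ x in B m, bb K M x :=
    setIntegral_congr_fun (B_meas m) (fun x hx => ww_core h.par.hK1 g (hBK hx))
  have c3 : ∫ x in B m, max 0 (Real.log (ww K M (g + 1) x)⁻¹ - ((m:ℝ) - K) * Real.log 2) =
      ∫ x in B m, max 0 (Real.log (bb K M x)⁻¹ - ((m:ℝ) - K) * Real.log 2) :=
    setIntegral_congr_fun (B_meas m) (fun x hx => by
      simp only [ww_core h.par.hK1 g (hBK hx)])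
  have hX := (si_mono hw.bm (fun x => (hw.pos x).le) hI (B_fin m)).trans
    (c1.le.trans (coreX h.par hm hm'))
  have hY := (si_mono hw.inv (fun x => (inv_pos.mpr (hw.pos x)).le) hI (B_fin m)).trans (h.Ym m)
  have hE := E_up hw (L := ((m:ℝ) - K) * Real.log 2) (e := 64) huv
    (((si_mono (hw.exc _) (fun x => le_max_left _ _) hI (B_fin m)).trans
      (c3.le.trans (coreP h.par hm hm'))).trans (by linarith))
  refine (Pr_up hw hX hY hE).trans ?_
  rw [Real.exp_add, exp_m]
  have h1 : pw m ^ 3 ≤ (8 * (v - u)) ^ 3 := pow_le_pow_left₀ hpm.le (by linarith) 3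
  have e0 : (0:ℝ) ≤ M := Nat.cast_nonneg M
  have e1 := Real.exp_pos 64
  have e2 : 0 ≤ (v - u) ^ 3 := by have : 0 < v - u := by linarith
                                  positivity
  calc (2 / pw K * pw m ^ 2) ^ 2 * (5 * (M * pw K)) * (pw K / pw m * Real.exp 64)
      = 20 * (M * Real.exp 64) * pw m ^ 3 := by field_simp; ring
    _ ≤ 20 * (M * Real.exp 64) * (8 * (v - u)) ^ 3 := by gcongr
    _ = 10240 * (M * Real.exp 64 * (v - u) ^ 3) := by ring
    _ ≤ 207360 * (M * Real.exp 64 * (v - u) ^ 3) := by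
        apply mul_le_mul_of_nonneg_right (by norm_num) (by positivity)
    _ = 207360 * Real.exp 64 * M * (v - u) ^ 3 := by ring

lemma bb_one {x : ℝ} (hx : 1 ≤ |x|) : bb K M x = pw K := by
  rw [bb_far ((pw_le_one K).trans hx)]
  apply max_eq_right
  rw [div_le_iff₀ (by linarith)]
  have := pw_pos K
  nlinarith

lemma ww_one (hK : 1 ≤ K) (g : ℕ) {x : ℝ} (hx : 1 ≤ |x|) : ww K M g x = pw K := by
  cases g with
  | zero => rw [ww, if_neg (not_lt.mpr hx)]
  | succ g =>
    rw [ww_out g, bb_one hx]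
    intro i _ hi
    have h1 := (ch_sub_Z hK i hi).2
    have h2 := pw_le_one i
    linarith

/-- Case A1. -/
lemma caseA1 {g : ℕ} (h : Good K M (g + 1)) {u v : ℝ} (ht : 1 / 4 ≤ v - u) :
    Pr (ww K M (g + 1)) u v ≤ 207360 * Real.exp 64 * M * (v - u) ^ 3 := by
  have huv : u < v := by linarith
  have hp := pw_pos K
  have hw := ww_WB h.par (g + 1)
  have hM := h.par.hM'
  have hK2 := h.par.K2
  have hMp : 1 / pw K ≤ M * pw K := by
    rw [div_le_iff₀ hp]
    nlinarith
  -- splitting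
  have split : ∀ {f : ℝ → ℝ}, BM f → (∀ x, 0 ≤ f x) → ∀ {q a : ℝ}, 0 ≤ q →
      (∀ x, 1 ≤ |x| → f x ≤ q) → ∫ x in B 0, f x ≤ a →
      ∫ x in Set.Ico u v, f x ≤ a + q * (v - u) := by
    intro f hf hf0 q a hq0 hq ha
    have e1 := setIntegral_mono_set (μ := volume) (s := Set.Ico u v)
      (t := B 0 ∪ (Set.Ico u v \ B 0)) (f := f)
      (((hf.int (B_fin 0)).union (hf.int (s := Set.Ico u v \ B 0)
        (ne_top_of_le_ne_top (I_fin u v) (measure_mono Set.sdiff_subset)))))
      (ae_of_all _ hf0) (ae_of_all _ (by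
        intro x hx
        by_cases hx0 : x ∈ B 0
        · exact Or.inl hx0
        · exact Or.inr ⟨hx, hx0⟩))
    rw [si_union hf Set.disjoint_sdiff_right (measurableSet_Ico.diff (B_meas 0)) (B_fin 0)
      (ne_top_of_le_ne_top (I_fin u v) (measure_mono Set.sdiff_subset))] at e1
    have e2 := si_le hf (measurableSet_Ico.diff (B_meas 0) (s₁ := Set.Ico u v))
      (ne_top_of_le_ne_top (I_fin u v) (measure_mono Set.sdiff_subset)) (q := q) (by
        intro x hx
        apply hq x
        have : ¬ |x| < pw 0 := hx.2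
        rw [pw_zero] at this
        exact not_lt.mp this)
    have e3 : volume.real (Set.Ico u v \ B 0) ≤ v - u := by
      rw [← I_real huv]
      exact measureReal_mono Set.sdiff_subset (I_fin u v)
    have e4 := mul_le_mul_of_nonneg_left e3 hq0
    linarith
  have hX := split hw.bm (fun x => (hw.pos x).le) (q := pw K) hp.le
    (fun x hx => (ww_one h.par.hK1 (g + 1) hx).le) h.X5
  have hY := split hw.inv (fun x => (inv_pos.mpr (hw.pos x)).le) (q := 1 / pw K) (by positivity)
    (fun x hx => by rw [ww_one h.par.hK1 (g + 1) hx, one_div]) (Y_up h.par (g + 1))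
  have hP := split (hw.exc (K * Real.log 2)) (fun x => le_max_left _ _) (q := 0) le_rfl
    (fun x hx => by
      rw [ww_one h.par.hK1 (g + 1) hx, Real.log_inv, log_pw]
      apply max_le le_rfl
      linarith) (P_up h.par (g + 1))
  have hE := E_up hw (L := K * Real.log 2) (e := 64) huv (hP.trans (by linarith))
  have hX' : ∫ x in Set.Ico u v, ww K M (g + 1) x ≤ 21 * (v - u) := by
    have := pw_le_one K
    nlinarith
  have e0 : (0:ℝ) ≤ M := Nat.cast_nonneg M
  have hY' : ∫ x in Set.Ico u v, (ww K M (g + 1) x)⁻¹ ≤ 21 * (M * pw K) * (v - u) := by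
    have e1 : 0 ≤ M * pw K := by positivity
    have e2 : 1 / pw K * (v - u) ≤ M * pw K * (v - u) :=
      mul_le_mul_of_nonneg_right hMp (by linarith)
    nlinarith
  refine (Pr_up hw hX' hY' hE).trans ?_
  rw [Real.exp_add, exp_K]
  have e1 := Real.exp_pos 64
  have e2 : 0 ≤ (v - u) ^ 3 := by have : 0 < v - u := by linarith
                                  positivity
  calc (21 * (v - u)) ^ 2 * (21 * (M * pw K) * (v - u)) * ((pw K)⁻¹ * Real.exp 64)
      = 9261 * (M * Real.exp 64 * (v - u) ^ 3) := by field_simp; ring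
    _ ≤ 207360 * (M * Real.exp 64 * (v - u) ^ 3) := by
        apply mul_le_mul_of_nonneg_right (by norm_num) (by positivity)
    _ = 207360 * Real.exp 64 * M * (v - u) ^ 3 := by ring

/-- Case B1: scale invariance. -/
lemma caseB1 (h : Par K M) (g : ℕ) {u v : ℝ} (huv : u < v) {i : ℕ} (hi : i < K)
    (hI : Set.Ico u v ⊆ ch K i) :
    Pr (ww K M (g + 1)) u v =
      lm K i ^ 3 * Pr (ww K M g) ((u - cc i) / lm K i) ((v - cc i) / lm K i) := by
  have hl := lm_pos h.hK1 i
  have hK2 := h.K2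
  have hK0 : (0:ℝ) < K := by linarith
  have hset : {y | cc i + lm K i * y ∈ Set.Ico u v} ∩ B 0 =
      Set.Ico ((u - cc i) / lm K i) ((v - cc i) / lm K i) := by
    ext y
    have e1 : cc i + lm K i * y ∈ Set.Ico u v ↔
        y ∈ Set.Ico ((u - cc i) / lm K i) ((v - cc i) / lm K i) := by
      rw [Set.mem_Ico, Set.mem_Ico, div_le_iff₀ hl, lt_div_iff₀ hl]
      constructor
      · rintro ⟨h1, h2⟩; constructor <;> linarith
      · rintro ⟨h1, h2⟩; constructor <;> linarith
    constructor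
    · rintro ⟨h1, _⟩
      exact e1.mp h1
    · intro h1
      have h2 := e1.mpr h1
      refine ⟨h2, ?_⟩
      have h3 : |cc i + lm K i * y - cc i| < lm K i := hI h2
      rw [add_sub_cancel_left, abs_mul, abs_of_pos hl] at h3
      show |y| < pw 0
      rw [pw_zero]
      by_contra h4
      push Not at h4
      nlinarith
  have key : ∀ F : ℝ → ℝ, ∫ x in Set.Ico u v, F (ww K M (g + 1) x) =
      lm K i * ∫ y in Set.Ico ((u - cc i) / lm K i) ((v - cc i) / lm K i),
        F (8 * K * ww K M g y) := by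
    intro F
    have := si_child (i := i) h.hK1 (fun x => F (ww K M (g + 1) x))
      (fun y => F (8 * K * ww K M g y)) (Set.Ico u v)
      (fun x hx => by simp only [ww_ch h.hK1 g hi hx]) measurableSet_Ico
    rw [Set.inter_eq_left.mpr hI, hset] at this
    exact this
  have kX := key (fun t => t)
  have kY := key (fun t => t⁻¹)
  have kE := key (fun t => Real.log t⁻¹)
  set u' := (u - cc i) / lm K i with hu'
  set v' := (v - cc i) / lm K i with hv'
  have huv' : u' < v' := by
    rw [hu', hv']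
    apply div_lt_div_of_pos_right _ hl
    linarith
  have hvu : v - u = lm K i * (v' - u') := by
    rw [hu', hv']; field_simp; ring
  have hw := ww_WB h g
  have e3 : ∫ y in Set.Ico u' v', Real.log (8 * K * ww K M g y)⁻¹ =
      (∫ y in Set.Ico u' v', Real.log (ww K M g y)⁻¹) - (v' - u') * Real.log (8 * K) := by
    have e4 : ∀ y, Real.log (8 * K * ww K M g y)⁻¹ =
        Real.log (ww K M g y)⁻¹ - Real.log (8 * K) := by
      intro y
      have := hw.pos y
      rw [mul_inv, Real.log_mul (by positivity) (by positivity), Real.log_inv]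
      ring
    simp only [e4]
    rw [integral_sub (hw.log.int (I_fin _ _)) (integrableOn_const (I_fin _ _)),
      setIntegral_const, I_real huv', smul_eq_mul]
  rw [integral_const_mul] at kX
  simp only [mul_inv] at kY
  rw [integral_const_mul] at kY
  rw [e3] at kE
  unfold Pr
  rw [kX, kY, kE, hvu]
  have e5 : lm K i * ((∫ y in Set.Ico u' v', Real.log (ww K M g y)⁻¹) -
      (v' - u') * Real.log (8 * K)) / (lm K i * (v' - u')) =
      (∫ y in Set.Ico u' v', Real.log (ww K M g y)⁻¹) / (v' - u') - Real.log (8 * K) := by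
    have : v' - u' ≠ 0 := by linarith
    field_simp
  rw [e5, Real.exp_sub, Real.exp_log (by positivity)]
  field_simp

end

end Pool.Agent.H433R3.Ce
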