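import Pool.Agent.H433R3.Ce4

/-!
# The endpoint `α = 0`: the one-supremum constant of the self-similar weight, all intervals
-/

set_option autoImplicit false

namespace Pool.Agent.H433R3.Ce

open MeasureTheory

section
variable {K M : ℕ}

/-- The constant. -/
noncomputable def CA (K M : ℕ) : ℝ :=
  2000000 * Real.exp 64 * (M * (1 + K / Real.log (8 * K) ^ 3))

lemma ell_pos (h : Par K M) : 0 < Real.log (8 * K) := by
  apply Real.log_pos
  have := h.K2
  linarith

lemma CA_ge (h : Par K M) {t : ℝ} (ht : 0 ≤ t) : 207360 * Real.exp 64 * M * t ≤ CA K M * t := by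
  apply mul_le_mul_of_nonneg_right _ ht
  unfold CA
  have e1 := Real.exp_pos 64
  have e2 := ell_pos h
  have e3 := h.K2
  have e4 : 0 ≤ K / Real.log (8 * K) ^ 3 := by positivity
  have e5 : (0:ℝ) ≤ M := Nat.cast_nonneg M
  have e6 : 0 ≤ Real.exp 64 * M := by positivity
  nlinarith [mul_nonneg e6 e4]

lemma CA_ge' (h : Par K M) {t : ℝ} (ht : 0 ≤ t) : M * t ≤ CA K M * t := by
  refine le_trans ?_ (CA_ge h ht)
  apply mul_le_mul_of_nonneg_right _ ht
  have e1 : 1 ≤ Real.exp 64 := Real.one_le_exp (by norm_num)
  have e5 : (0:ℝ) ≤ M := Nat.cast_nonneg M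
  nlinarith

/-- The weight near the edge of the unit interval. -/
lemma edge (h : Par K M) (g : ℕ) {y : ℝ} (h1 : 4 / 5 ≤ |y|) (h2 : |y| < 1) :
    pw K ≤ ww K M g y ∧ ww K M g y ≤ 1 := by
  cases g with
  | zero => rw [ww, if_pos h2]; exact ⟨pw_le_one K, le_rfl⟩
  | succ g =>
    have hp4 := h.p4
    rw [ww_out g]
    · exact ⟨bb_far_ge (by linarith), bb_le y⟩
    · intro i _ hi
      have hz := ch_zone h.hK1 hi
      have hy0 : 0 < y := by have := pw_pos i; linarith [hz.1]
      rw [abs_of_pos hy0] at h1 h2
      cases i with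
      | zero =>
        have h3 : |y - cc 0| < lm K 0 := hi
        have h4 := (abs_lt.mp h3).2
        unfold cc lm at h4
        rw [pw_zero] at h4
        have h5 : (1:ℝ) / (16 * K) ≤ 1 / 32 := by
          apply one_div_le_one_div_of_le (by norm_num)
          linarith [h.K2]
        linarith
      | succ i =>
        have := hz.2
        rw [pw_succ] at this
        have := pw_le_one i
        linarith

lemma cube_exp {θ l : ℝ} (hθ : 0 ≤ θ) (hl : 0 < l) :
    θ ^ 3 * Real.exp (-(θ / 5 * l)) ≤ 750 / l ^ 3 := by
  have h1 := Real.pow_div_factorial_le_exp (θ / 5 * l) (by positivity) 3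
  have h2 : (Nat.factorial 3 : ℝ) = 6 := by norm_num [Nat.factorial]
  rw [h2] at h1
  rw [Real.exp_neg, ← div_eq_mul_inv, div_le_div_iff₀ (Real.exp_pos _) (by positivity)]
  have h3 : (θ / 5 * l) ^ 3 = θ ^ 3 * l ^ 3 / 125 := by ring
  rw [h3] at h1
  linarith

/-- Case B3: the interval reaches into the core of a child. -/
lemma caseB3 {g : ℕ} (h : Good K M (g + 1)) {u v : ℝ} (huv : u < v) {i : ℕ} (hi : i < K)
    (hI : ∀ x ∈ Set.Ico u v, x ∉ ch K i →
      pw K ≤ ww K M (g + 1) x ∧ ww K M (g + 1) x ≤ 1)
    (ht : v - u ≤ pw i / 2) (hs : lm K i / 5 ≤ volume.real (Set.Ico u v ∩ ch K i)) :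
    Pr (ww K M (g + 1)) u v ≤ CA K M * (v - u) ^ 3 := by
  have hp := pw_pos K
  have hpi := pw_pos i
  have hw := ww_WB h.par (g + 1)
  have hM := h.par.hM'
  have hK2 := h.par.K2
  have hK0 : (0:ℝ) < K := by linarith
  have hl := lm_pos h.par.hK1 i
  have hell := ell_pos h.par
  have ht0 : 0 < v - u := by linarith
  set s := volume.real (Set.Ico u v ∩ ch K i) with hsd
  have hsI : volume (Set.Ico u v ∩ ch K i) ≠ ⊤ :=
    ne_top_of_le_ne_top (I_fin u v) (measure_mono Set.inter_subset_left)
  have hsD : volume (Set.Ico u v \ ch K i) ≠ ⊤ :=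
    ne_top_of_le_ne_top (I_fin u v) (measure_mono Set.sdiff_subset)
  have hchf : volume (ch K i) ≠ ⊤ :=
    ne_top_of_le_ne_top (Z_fin i) (measure_mono (ch_sub_Z h.par.hK1 i))
  have hvol : volume.real (Set.Ico u v \ ch K i) = (v - u) - s := by
    have := measureReal_inter_add_sdiff (μ := volume) (s := Set.Ico u v) (ch_meas (K := K) i)
      (I_fin u v)
    rw [I_real huv] at this
    linarith
  have hst : s ≤ v - u := by
    rw [← I_real huv]
    exact measureReal_mono Set.inter_subset_left (I_fin u v)
  have split : ∀ {f : ℝ → ℝ}, BM f → ∀ {q : ℝ},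
      (∀ x ∈ Set.Ico u v, x ∉ ch K i → f x ≤ q) →
      ∫ x in Set.Ico u v, f x ≤ q * ((v - u) - s) + ∫ x in Set.Ico u v ∩ ch K i, f x := by
    intro f hf q hq
    have e0 : Set.Ico u v = (Set.Ico u v \ ch K i) ∪ (Set.Ico u v ∩ ch K i) :=
      (Set.sdiff_union_inter _ _).symm
    have e1 : ∫ x in Set.Ico u v, f x =
        (∫ x in Set.Ico u v \ ch K i, f x) + ∫ x in Set.Ico u v ∩ ch K i, f x := by
      conv_lhs => rw [e0]
      exact si_union hf (Set.disjoint_sdiff_inter) (measurableSet_Ico.inter (ch_meas i)) hsD hsI
    have e2 := si_le hf (measurableSet_Ico.diff (ch_meas i) (s₁ := Set.Ico u v)) hsD (q := q)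
      (fun x hx => hq x hx.1 hx.2)
    rw [hvol] at e2
    linarith
  have mono : ∀ {f : ℝ → ℝ}, BM f → (∀ x, 0 ≤ f x) →
      ∫ x in Set.Ico u v ∩ ch K i, f x ≤ ∫ x in ch K i, f x := fun hf h0 =>
    si_mono hf h0 Set.inter_subset_right hchf
  -- the mass
  have hX : ∫ x in Set.Ico u v, ww K M (g + 1) x ≤ 3 * pw i := by
    have e1 := split hw.bm (q := 1) (fun x hx hx' => (hI x hx hx').2)
    have e2 := mono hw.bm (fun x => (hw.pos x).le)
    have e3 := ch_int (M := M) h.par.hK1 g hi (fun t => t)
    rw [integral_const_mul, ← mul_assoc, lm_mul h.par.hK1, pw_succ] at e3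
    have e4 := h.pred.X5
    have e5 : pw i / 2 * (∫ x in B 0, ww K M g x) ≤ pw i / 2 * 5 := by gcongr
    have e6 : 0 < s := by linarith
    linarith
  have hY : ∫ x in Set.Ico u v, (ww K M (g + 1) x)⁻¹ ≤ pw i * (M * pw K) / (16 * K ^ 2) := by
    have e1 := split hw.inv (q := 1 / pw K) (fun x hx hx' => by
      rw [one_div]; exact inv_anti₀ hp (hI x hx hx').1)
    have e2 := mono hw.inv (fun x => (inv_pos.mpr (hw.pos x)).le)
    have e3 := ch_int (M := M) h.par.hK1 g hi (fun t => t⁻¹)
    simp only [mul_inv] at e3
    rw [integral_const_mul] at e3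
    have e4 := Y_up h.par g
    have e5 : lm K i * (8⁻¹ * (K:ℝ)⁻¹ * ∫ y in B 0, (ww K M g y)⁻¹) ≤
        lm K i * (8⁻¹ * (K:ℝ)⁻¹ * (5 * (M * pw K))) := by gcongr
    have e6 : lm K i * (8⁻¹ * (K:ℝ)⁻¹ * (5 * (M * pw K))) =
        5 / 128 * (pw i * (M * pw K) / K ^ 2) := by
      unfold lm; field_simp; ring
    have e7 : 1 / pw K * ((v - u) - s) ≤ 1 / 1024 * (pw i * (M * pw K) / K ^ 2) := by
      have a1 : 1 / pw K * ((v - u) - s) ≤ 1 / pw K * pw i := by
        apply mul_le_mul_of_nonneg_left _ (by positivity)
        linarith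
      refine a1.trans ?_
      rw [div_mul_eq_mul_div, one_mul, div_le_iff₀ hp]
      have a2 : 1 / 1024 * (pw i * (M * pw K) / K ^ 2) * pw K =
        pw i * ((M * pw K ^ 2) / (1024 * K ^ 2)) := by field_simp
      rw [a2]
      have a3 : 1 ≤ (M * pw K ^ 2) / (1024 * K ^ 2) := by
        rw [le_div_iff₀ (by positivity)]; linarith
      nlinarith
    have e8 : pw i * (M * pw K) / (16 * K ^ 2) = 1 / 16 * (pw i * (M * pw K) / K ^ 2) := by ring
    have e9 : 0 ≤ pw i * (M * pw K) / K ^ 2 := by positivity
    rw [e8]
    linarith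
  -- the logarithm
  have hE : (∫ x in Set.Ico u v, Real.log (ww K M (g + 1) x)⁻¹) / (v - u) ≤
      K * Real.log 2 + (20 - lm K i / (v - u) / 5 * Real.log (8 * K)) := by
    have e1 := split hw.log (q := K * Real.log 2) (fun x hx hx' => by
      have := Real.log_le_log (inv_pos.mpr (hw.pos x)) (inv_anti₀ hp (hI x hx hx').1)
      rw [Real.log_inv (pw K), log_pw] at this
      linarith)
    set L : ℝ := K * Real.log 2 - Real.log (8 * K) with hL
    have i2 : IntegrableOn (fun _ : ℝ => L) (Set.Ico u v ∩ ch K i) volume :=
      integrableOn_const hsI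
    have i3 : IntegrableOn (fun x => max 0 (Real.log (ww K M (g + 1) x)⁻¹ - L))
      (Set.Ico u v ∩ ch K i) volume := (hw.exc L).int hsI
    have e2 : ∫ x in Set.Ico u v ∩ ch K i, Real.log (ww K M (g + 1) x)⁻¹ ≤
        ∫ x in Set.Ico u v ∩ ch K i, (L + max 0 (Real.log (ww K M (g + 1) x)⁻¹ - L)) := by
      apply setIntegral_mono_on (hw.log.int hsI) (i2.add i3) (measurableSet_Ico.inter (ch_meas i))
      intro x _
      have := le_max_right 0 (Real.log (ww K M (g + 1) x)⁻¹ - L)
      show Real.log (ww K M (g + 1) x)⁻¹ ≤ L + max 0 (Real.log (ww K M (g + 1) x)⁻¹ - L)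
      linarith
    rw [integral_add i2 i3, setIntegral_const, smul_eq_mul, ← hsd] at e2
    have e3 := mono (hw.exc L) (fun x => le_max_left _ _)
    have e4 := ch_int (M := M) h.par.hK1 g hi (fun t => max 0 (Real.log t⁻¹ - L))
    have e5 : ∫ y in B 0, max 0 (Real.log (8 * K * ww K M g y)⁻¹ - L) =
        ∫ y in B 0, max 0 (Real.log (ww K M g y)⁻¹ - K * Real.log 2) := by
      congr 1
      funext y
      have hy := (ww_WB h.par g).pos y
      rw [mul_inv, Real.log_mul (by positivity) (by positivity), Real.log_inv (8 * (K:ℝ)), hL]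
      congr 1
      ring
    rw [e5] at e4
    have e6 : lm K i * (∫ y in B 0, max 0 (Real.log (ww K M g y)⁻¹ - K * Real.log 2)) ≤
        lm K i * 4 := mul_le_mul_of_nonneg_left (P_up h.par g) hl.le
    have e7 : ∫ x in Set.Ico u v, Real.log (ww K M (g + 1) x)⁻¹ ≤
        K * Real.log 2 * (v - u) - s * Real.log (8 * K) + lm K i * 4 := by
      rw [hL] at *
      nlinarith
    rw [div_le_iff₀ ht0]
    have e8 : (K * Real.log 2 + (20 - lm K i / (v - u) / 5 * Real.log (8 * K))) * (v - u) =
        K * Real.log 2 * (v - u) + 20 * (v - u) - lm K i / 5 * Real.log (8 * K) := by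
      field_simp
      ring
    rw [e8]
    have e9 : lm K i / 5 * Real.log (8 * K) ≤ s * Real.log (8 * K) := by gcongr
    have e10 : lm K i * 4 ≤ 20 * (v - u) := by linarith
    linarith
  refine (Pr_up hw hX hY hE).trans ?_
  set θ := lm K i / (v - u) with hθ
  have hθ0 : 0 ≤ θ := by positivity
  rw [Real.exp_add, exp_K, sub_eq_add_neg, Real.exp_add]
  have c1 := cube_exp hθ0 hell
  have c2 : pw i = 16 * K * (θ * (v - u)) := by
    rw [hθ]; unfold lm; field_simp
  have c3 : (3 * pw i) ^ 2 * (pw i * (M * pw K) / (16 * K ^ 2)) *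
      ((pw K)⁻¹ * (Real.exp 20 * Real.exp (-(θ / 5 * Real.log (8 * K))))) =
      9 / 16 * (M * Real.exp 20 / K ^ 2) * pw i ^ 3 *
        Real.exp (-(θ / 5 * Real.log (8 * K))) := by
    field_simp
    ring
  have c4 : 9 / 16 * (M * Real.exp 20 / K ^ 2) * pw i ^ 3 *
        Real.exp (-(θ / 5 * Real.log (8 * K))) =
      2304 * (M * Real.exp 20 * K * (v - u) ^ 3) *
        (θ ^ 3 * Real.exp (-(θ / 5 * Real.log (8 * K)))) := by
    rw [c2]; field_simp; ring
  rw [c3, c4]
  have hM0 : (0:ℝ) ≤ M := Nat.cast_nonneg M
  have e20 : Real.exp 20 ≤ Real.exp 64 := Real.exp_le_exp.mpr (by norm_num)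
  have e200 := Real.exp_pos 20
  calc 2304 * (M * Real.exp 20 * K * (v - u) ^ 3) *
        (θ ^ 3 * Real.exp (-(θ / 5 * Real.log (8 * K))))
      ≤ 2304 * (M * Real.exp 64 * K * (v - u) ^ 3) * (750 / Real.log (8 * K) ^ 3) := by gcongr
    _ = 1728000 * Real.exp 64 * (M * (K / Real.log (8 * K) ^ 3)) * (v - u) ^ 3 := by ring
    _ ≤ CA K M * (v - u) ^ 3 := by
      unfold CA
      have f1 : 0 ≤ K / Real.log (8 * K) ^ 3 := by positivity
      have f2 : (M * (K / Real.log (8 * K) ^ 3) : ℝ) ≤ M * (1 + K / Real.log (8 * K) ^ 3) := by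
        nlinarith
      have f3 := Real.exp_pos 64
      apply mul_le_mul_of_nonneg_right _ (by positivity)
      apply mul_le_mul _ f2 (by positivity) (by positivity)
      nlinarith

/-- Case B2: ratio bound. -/
lemma caseB2 (h : Par K M) {w : ℝ → ℝ} (hw : WB w) {u v : ℝ} (huv : u < v)
    (hI : ∀ x ∈ Set.Ico u v, pw K ≤ w x ∧ w x ≤ 8 * K) :
    Pr w u v ≤ CA K M * (v - u) ^ 3 := by
  have hp := pw_pos K
  have h1 := Pr_cmp hw huv hp hI
  refine h1.trans ?_
  have ht : 0 ≤ (v - u) ^ 3 := by have : 0 < v - u := by linarith
                                  positivity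
  refine le_trans ?_ (CA_ge' h ht)
  apply mul_le_mul_of_nonneg_right _ ht
  rw [div_pow, div_le_iff₀ (by positivity)]
  have := h.hM'
  nlinarith [h.K2]

/-- The one-supremum bound for all intervals. -/
theorem main_Pr {g : ℕ} (h : Good K M g) {u v : ℝ} (huv : u < v) :
    Pr (ww K M g) u v ≤ CA K M * (v - u) ^ 3 := by
  induction g generalizing u v with
  | zero =>
    apply caseB2 h.par (ww_WB h.par 0) huv
    intro x _
    have hK2 := h.par.K2
    rw [ww]
    split_ifs
    · exact ⟨pw_le_one K, by linarith⟩
    · exact ⟨le_rfl, by have := pw_le_one K; linarith⟩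
  | succ g ih =>
    have hw := ww_WB h.par (g + 1)
    have hK2 := h.par.K2
    have ht0 : 0 < v - u := by linarith
    have ht3 : 0 ≤ (v - u) ^ 3 := by positivity
    have hu : u ∈ Set.Ico u v := ⟨le_rfl, huv⟩
    set r := max |u| |v| with hr
    have hr0 : 0 < r := by
      rw [hr]
      by_contra hcon
      push Not at hcon
      have h1 : |u| ≤ 0 := (le_max_left _ _).trans hcon
      have h2 : |v| ≤ 0 := (le_max_right _ _).trans hcon
      have h3 := abs_nonpos_iff.mp h1
      have h4 := abs_nonpos_iff.mp h2
      linarith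
    have hxr : ∀ x ∈ Set.Ico u v, |x| ≤ r := fun x hx => abs_le_max_abs_abs hx.1 hx.2.le
    by_cases hA : r / 4 ≤ v - u
    · -- Case A
      by_cases h1 : 1 ≤ r
      · exact (caseA1 h (by linarith)).trans (CA_ge h.par ht3)
      · push Not at h1
        have hex : ∃ m, pw m ≤ r := by
          obtain ⟨n, hn⟩ := exists_pow_lt_of_lt_one hr0 (by norm_num : (1/2:ℝ) < 1)
          exact ⟨n, hn.le⟩
        classical
        set m0 := Nat.find hex with hm0
        have hm0s : pw m0 ≤ r := Nat.find_spec hex
        have hm0p : m0 ≠ 0 := by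
          intro h0
          rw [h0, pw_zero] at hm0s
          linarith
        obtain ⟨m, hm⟩ := Nat.exists_eq_succ_of_ne_zero hm0p
        have hmr : r < pw m := by
          have := Nat.find_min hex (m := m) (by omega)
          exact not_le.mp this
        rw [hm, Nat.succ_eq_add_one, pw_succ] at hm0s
        have hI : Set.Ico u v ⊆ B m := fun x hx => lt_of_le_of_lt (hxr x hx) hmr
        rcases le_or_gt m K with hmK | hmK
        · exact (caseA2 h huv hmK hI (by linarith)).trans (CA_ge h.par ht3)
        · rcases le_or_gt m (K + M) with hmJ | hmJ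
          · exact (caseA3 h huv hmK.le hmJ hI (by linarith)).trans (CA_ge h.par ht3)
          · have hI' : Set.Ico u v ⊆ B (K + M) := hI.trans (B_mono hmJ.le)
            have hcst : ∀ x ∈ Set.Ico u v, ww K M (g + 1) x = pw M := by
              intro x hx
              rw [ww_core h.par.hK1 g (B_mono (Nat.le_add_right K M) (hI' hx))]
              exact bb_B h.par (hI' hx)
            have h2 := Pr_cmp hw huv (pw_pos M) (Q := pw M)
              (fun x hx => ⟨(hcst x hx).ge, (hcst x hx).le⟩)
            rw [div_self (pw_pos M).ne', one_pow, one_mul] at h2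
            refine h2.trans (le_trans ?_ (CA_ge' h.par ht3))
            have : (1:ℝ) ≤ M := by
              have := h.par.hKM
              have h3 := h.par.hK
              exact_mod_cast (by omega : 1 ≤ M)
            nlinarith
    · -- Case B
      push Not at hA
      have hlow : ∀ x ∈ Set.Ico u v, 3 / 4 * r < |x| := by
        intro x hx
        have a1 : |u| ≤ |x| + (v - u) := by
          have : u = x + (u - x) := by ring
          calc |u| = |x + (u - x)| := by rw [← this]
            _ ≤ |x| + |u - x| := abs_add_le _ _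
            _ ≤ |x| + (v - u) := by
              have : |u - x| ≤ v - u := by rw [abs_le]; constructor <;> linarith [hx.1, hx.2]
              linarith
        have a2 : |v| ≤ |x| + (v - u) := by
          have : v = x + (v - x) := by ring
          calc |v| = |x + (v - x)| := by rw [← this]
            _ ≤ |x| + |v - x| := abs_add_le _ _
            _ ≤ |x| + (v - u) := by
              have : |v - x| ≤ v - u := by rw [abs_le]; constructor <;> linarith [hx.1, hx.2]
              linarith
        have a3 : r ≤ |x| + (v - u) := max_le a1 a2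
        linarith
      by_cases hB : ∃ i < K, ∃ x ∈ Set.Ico u v, x ∈ ch K i
      · obtain ⟨i, hi, x0, hx0, hx0'⟩ := hB
        by_cases hsub : Set.Ico u v ⊆ ch K i
        · -- B1
          rw [caseB1 h.par g huv hi hsub]
          have hl := lm_pos h.par.hK1 i
          have huv' : (u - cc i) / lm K i < (v - cc i) / lm K i := by
            apply div_lt_div_of_pos_right _ hl
            linarith
          have h2 := ih h.pred huv'
          have h3 := mul_le_mul_of_nonneg_left h2 (by positivity : 0 ≤ lm K i ^ 3)
          refine h3.trans (le_of_eq ?_)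
          field_simp
          ring
        · have hz := ch_zone h.par.hK1 hx0'
          have hpi := pw_pos i
          have hx00 : 0 < x0 := by linarith [hz.1]
          have hx0r := hxr x0 hx0
          have hx0l := hlow x0 hx0
          rw [abs_of_pos hx00] at hx0r hx0l
          have hpos : ∀ x ∈ Set.Ico u v, 3 / 4 * r < x ∧ x ≤ r := by
            intro x hx
            have b1 : x0 - (v - u) < x := by linarith [hx.1, hx0.2]
            have b2 : 0 < x := by linarith
            have b3 := hxr x hx
            have b4 := hlow x hx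
            rw [abs_of_pos b2] at b3 b4
            exact ⟨b4, b3⟩
          have hr1 : r < 13 / 12 * pw i := by linarith [hz.2]
          have hr2 : 11 / 16 * pw i < r := by linarith [hz.1]
          -- outside the child
          have hout : ∀ x ∈ Set.Ico u v, x ∉ ch K i →
              pw K ≤ ww K M (g + 1) x ∧ ww K M (g + 1) x ≤ 1 := by
            intro x hx hx'
            have b := hpos x hx
            have b0 : 0 < x := by linarith
            rw [ww_out g]
            · refine ⟨bb_far_ge ?_, bb_le x⟩
              have b1 : pw K ≤ pw (i + 1) := pw_anti hi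
              rw [pw_succ] at b1
              rw [abs_of_pos b0]
              linarith [b.1]
            · intro j _ hj
              have hzj := ch_zone h.par.hK1 hj
              rcases lt_trichotomy i j with hij | hij | hij
              · have h3 := pw_anti (Nat.succ_le_of_lt hij)
                rw [Nat.succ_eq_add_one, pw_succ] at h3
                linarith [b.1, hzj.2]
              · rw [← hij] at hj; exact hx' hj
              · have h3 := pw_anti (Nat.succ_le_of_lt hij)
                rw [Nat.succ_eq_add_one, pw_succ] at h3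
                linarith [b.2, hzj.1]
          by_cases hcore : ∃ x ∈ Set.Ico u v, |x - cc i| < 4 / 5 * lm K i
          · -- B3
            obtain ⟨x1, hx1, hx1'⟩ := hcore
            obtain ⟨x2, hx2, hx2'⟩ := Set.not_subset.mp hsub
            have hx2'' : lm K i ≤ |x2 - cc i| := not_lt.mp hx2'
            have hl := lm_pos h.par.hK1 i
            apply caseB3 h huv hi hout (by linarith)
            have hfin : volume (Set.Ico u v ∩ ch K i) ≠ ⊤ :=
              ne_top_of_le_ne_top (I_fin u v) (measure_mono Set.inter_subset_left)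
            rw [abs_lt] at hx1'
            rcases le_abs.mp hx2'' with hh | hh
            · have hss : Set.Ico x1 (cc i + lm K i) ⊆ Set.Ico u v ∩ ch K i := by
                intro y hy
                refine ⟨⟨hx1.1.trans hy.1, ?_⟩, ?_⟩
                · linarith [hy.2, hx2.2]
                · show |y - cc i| < lm K i
                  rw [abs_lt]; constructor <;> linarith [hy.1, hy.2]
              have := measureReal_mono (μ := volume) hss hfin
              rw [I_real (by linarith)] at this
              linarith
            · have hss : Set.Ioc (cc i - lm K i) x1 ⊆ Set.Ico u v ∩ ch K i := by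
                intro y hy
                refine ⟨⟨?_, lt_of_le_of_lt hy.2 hx1.2⟩, ?_⟩
                · linarith [hy.1, hx2.1]
                · show |y - cc i| < lm K i
                  rw [abs_lt]; constructor <;> linarith [hy.1, hy.2]
              have := measureReal_mono (μ := volume) hss hfin
              rw [measureReal_def, Real.volume_Ioc, ENNReal.toReal_ofReal (by linarith)] at this
              linarith
          · -- B2
            push Not at hcore
            apply caseB2 h.par hw huv
            intro x hx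
            by_cases hx' : x ∈ ch K i
            · have hl := lm_pos h.par.hK1 i
              rw [ww_ch h.par.hK1 g hi hx']
              have hc := hcore x hx
              have hx'' : |x - cc i| < lm K i := hx'
              have e1 : |(x - cc i) / lm K i| = |x - cc i| / lm K i := by
                rw [abs_div, abs_of_pos hl]
              have e2 := edge h.par g (y := (x - cc i) / lm K i)
                (by rw [e1, le_div_iff₀ hl]; exact hc)
                (by rw [e1, div_lt_iff₀ hl, one_mul]; exact hx'')
              have hp := pw_pos K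
              constructor
              · nlinarith [e2.1]
              · nlinarith [e2.2]
            · have := hout x hx hx'
              exact ⟨this.1, by linarith [this.2]⟩
      · -- B0
        push Not at hB
        have hwb : ∀ x ∈ Set.Ico u v, ww K M (g + 1) x = bb K M x :=
          fun x hx => ww_out g (fun i hi hx' => hB i hi x hx hx')
        have hbu := (bb_WB h.par).pos u
        have hul := hlow u hu
        have hur := hxr u hu
        have h2 := Pr_cmp hw huv (q := 3 / 4 * bb K M u) (Q := 4 / 3 * bb K M u) (by positivity)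
          (fun x hx => by
            rw [hwb x hx]
            have b3 := hxr x hx
            have b4 := hlow x hx
            have c1 := bb_comp (K := K) (M := M) (c := 4 / 3) (x := u) (y := x) (by norm_num)
              (by linarith) (by linarith) (by linarith) (by linarith)
            have c2 := bb_comp (K := K) (M := M) (c := 4 / 3) (x := x) (y := u) (by norm_num)
              (by linarith) (by linarith) (by linarith) (by linarith)
            constructor
            · linarith
            · exact c2)
        have e1 : 4 / 3 * bb K M u / (3 / 4 * bb K M u) = 16 / 9 := by field_simp; norm_num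
        rw [e1] at h2
        refine h2.trans (le_trans ?_ (CA_ge' h.par ht3))
        apply mul_le_mul_of_nonneg_right _ ht3
        have hM := h.par.hM'
        have hp := pw_pos K
        have hp1 := pw_le_one K
        have hM0 : (0:ℝ) ≤ M := Nat.cast_nonneg M
        have : (4:ℝ) ≤ M := by nlinarith [mul_le_mul_of_nonneg_left (pow_le_one₀ hp.le hp1 (n := 2)) hM0]
        linarith

end

end Pool.Agent.H433R3.Ce
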