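import Pool.Agent.H433R3.Ce1

/-!
# The endpoint `α = 0`: the kernel
-/

set_option autoImplicit false

namespace Pool.Agent.H433R3.Ce

open MeasureTheory

/-- A bump function. -/
noncomputable def ph (t : ℝ) : ℝ := max 0 (min 1 (2 - 2 * |t|))

lemma ph_nonneg (t : ℝ) : 0 ≤ ph t := le_max_left _ _

lemma ph_le (t : ℝ) : ph t ≤ 1 := max_le zero_le_one (min_le_left _ _)

lemma ph_zero {t : ℝ} (h : 1 ≤ |t|) : ph t = 0 := by
  unfold ph
  apply max_eq_left
  apply (min_le_right _ _).trans
  linarith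

lemma ph_one {t : ℝ} (h : |t| ≤ 1 / 2) : ph t = 1 := by
  unfold ph
  rw [min_eq_left (by linarith)]
  exact max_eq_right zero_le_one

lemma ph_lip (s t : ℝ) : |ph s - ph t| ≤ 2 * |s - t| := by
  unfold ph
  have h1 := abs_max_sub_max_le_abs (min 1 (2 - 2 * |s|)) (min 1 (2 - 2 * |t|)) 0
  have h2 := abs_min_sub_min_le_max 1 (2 - 2 * |s|) 1 (2 - 2 * |t|)
  rw [max_comm 0, max_comm 0]
  refine h1.trans (h2.trans ?_)
  apply max_le
  · simp
  · have : (2 - 2 * |s|) - (2 - 2 * |t|) = 2 * (|t| - |s|) := by ring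
    rw [this, abs_mul, abs_of_pos (by norm_num : (0:ℝ) < 2), abs_sub_comm s t]
    have := abs_abs_sub_abs_le_abs_sub t s
    linarith

lemma ph_meas : Measurable ph := by unfold ph; fun_prop

/-- The top part of the kernel. -/
noncomputable def top (K : ℕ) (x y : ℝ) : ℝ :=
  ∑ j ∈ Finset.range K, (2 * pw j)⁻¹ * (ph (x / pw j) * ph (y / pw j))

/-- The kernel. -/
noncomputable def kk (K : ℕ) : ℕ → ℝ → ℝ → ℝ
  | 0, _, _ => 0
  | g + 1, x, y => top K x y + ∑ i ∈ Finset.range K,
      (lm K i)⁻¹ * kk K g ((x - cc i) / lm K i) ((y - cc i) / lm K i)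

lemma pw_inv (j : ℕ) : (pw j)⁻¹ = 2 ^ j := by
  unfold pw; rw [one_div, inv_pow, inv_inv]

section
variable {K : ℕ}

lemma top_nonneg (x y : ℝ) : 0 ≤ top K x y := by
  apply Finset.sum_nonneg
  intro j _
  have := pw_pos j
  have := ph_nonneg (x / pw j)
  have := ph_nonneg (y / pw j)
  positivity

lemma top_symm (x y : ℝ) : top K x y = top K y x := by
  unfold top
  apply Finset.sum_congr rfl
  intro j _
  ring

lemma kk_nonneg (hK : 1 ≤ K) (g : ℕ) (x y : ℝ) : 0 ≤ kk K g x y := by
  induction g generalizing x y with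
  | zero => rw [kk]
  | succ g ih =>
    rw [kk]
    apply add_nonneg (top_nonneg x y)
    apply Finset.sum_nonneg
    intro i _
    exact mul_nonneg (inv_pos.mpr (lm_pos hK i)).le (ih _ _)

lemma kk_symm (g : ℕ) (x y : ℝ) : kk K g x y = kk K g y x := by
  induction g generalizing x y with
  | zero => rw [kk, kk]
  | succ g ih =>
    rw [kk, kk, top_symm]
    congr 1
    apply Finset.sum_congr rfl
    intro i _
    rw [ih]

lemma ph_supp {x : ℝ} {j : ℕ} (h : ph (x / pw j) ≠ 0) : |x| < pw j := by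
  by_contra hcon
  push Not at hcon
  apply h
  apply ph_zero
  rw [abs_div, abs_of_pos (pw_pos j), le_div_iff₀ (pw_pos j)]
  linarith

lemma kk_supp (hK : 1 ≤ K) (g : ℕ) {x : ℝ} (hx : 1 ≤ |x|) (y : ℝ) : kk K g x y = 0 := by
  induction g generalizing x y with
  | zero => rw [kk]
  | succ g ih =>
    rw [kk]
    have h1 : top K x y = 0 := by
      apply Finset.sum_eq_zero
      intro j _
      have : ph (x / pw j) = 0 := by
        by_contra hcon
        have := ph_supp hcon
        have := pw_le_one j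
        linarith
      rw [this]; ring
    rw [h1, zero_add]
    apply Finset.sum_eq_zero
    intro i _
    rw [ih, mul_zero]
    have hl := lm_pos hK i
    by_contra hcon
    push Not at hcon
    rw [abs_div, abs_of_pos hl, div_lt_iff₀ hl, one_mul] at hcon
    have := ch_zone hK (show x ∈ ch K i from hcon)
    have h2 := pw_le_one i
    have h3 := pw_pos i
    rw [abs_of_pos (by linarith [this.1])] at hx
    linarith [this.2]

lemma kk_supp' (hK : 1 ≤ K) (g : ℕ) (x : ℝ) {y : ℝ} (hy : 1 ≤ |y|) : kk K g x y = 0 := by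
  rw [kk_symm]; exact kk_supp hK g hy x

lemma not_ch (hK : 1 ≤ K) {i : ℕ} {x : ℝ} (hx : x ∉ ch K i) : 1 ≤ |(x - cc i) / lm K i| := by
  have hl := lm_pos hK i
  rw [abs_div, abs_of_pos hl, le_div_iff₀ hl, one_mul]
  exact not_lt.mp hx

lemma in_ch (hK : 1 ≤ K) {i : ℕ} {x : ℝ} (hx : x ∈ ch K i) : |(x - cc i) / lm K i| < 1 := by
  have hl := lm_pos hK i
  rw [abs_div, abs_of_pos hl, div_lt_iff₀ hl, one_mul]
  exact hx

lemma kk_ch (hK : 1 ≤ K) (g : ℕ) {i : ℕ} (hi : i < K) (x : ℝ) {y : ℝ} (hy : y ∈ ch K i) :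
    kk K (g + 1) x y = top K x y +
      (lm K i)⁻¹ * kk K g ((x - cc i) / lm K i) ((y - cc i) / lm K i) := by
  rw [kk, Finset.sum_eq_single i]
  · intro j _ hj
    rw [kk_supp' hK, mul_zero]
    apply not_ch hK
    intro h
    exact hj (ch_disj hK h hy)
  · intro h
    exact absurd (Finset.mem_range.mpr hi) h

lemma kk_out (hK : 1 ≤ K) (g : ℕ) (x : ℝ) {y : ℝ} (hy : ∀ i < K, y ∉ ch K i) :
    kk K (g + 1) x y = top K x y := by
  rw [kk, Finset.sum_eq_zero, add_zero]
  intro i hi
  rw [kk_supp' hK _ _ (not_ch hK (hy i (Finset.mem_range.mp hi))), mul_zero]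

lemma sum1 (n : ℕ) {c : ℝ} (hc : 0 < c) :
    ∑ j ∈ Finset.range n, (if (2:ℝ) ^ j < c then (2:ℝ) ^ j else 0) ≤ 2 ^ n ∧
    ∑ j ∈ Finset.range n, (if (2:ℝ) ^ j < c then (2:ℝ) ^ j else 0) ≤ 2 * c := by
  induction n with
  | zero => simp; linarith
  | succ n ih =>
    rw [Finset.sum_range_succ]
    split_ifs with h
    · constructor
      · rw [pow_succ]; linarith [ih.1]
      · linarith [ih.1]
    · constructor
      · rw [pow_succ]
        have : (0:ℝ) < 2 ^ n := by positivity
        linarith [ih.1]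
      · linarith [ih.2]

lemma sum2 (n : ℕ) {c : ℝ} (hc : 0 < c) :
    ∑ j ∈ Finset.range n, (if (2:ℝ) ^ j < c then ((2:ℝ) ^ j) ^ 2 else 0) ≤ 1 / 3 * (2 ^ n) ^ 2 ∧
    ∑ j ∈ Finset.range n, (if (2:ℝ) ^ j < c then ((2:ℝ) ^ j) ^ 2 else 0) ≤ 4 / 3 * c ^ 2 := by
  induction n with
  | zero => simp; positivity
  | succ n ih =>
    rw [Finset.sum_range_succ]
    have h0 : (0:ℝ) < 2 ^ n := by positivity
    split_ifs with h
    · constructor
      · rw [pow_succ (2:ℝ) n]; nlinarith [ih.1]
      · nlinarith [ih.1]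
    · constructor
      · rw [pow_succ (2:ℝ) n]
        nlinarith [ih.1]
      · linarith [ih.2]

lemma top_le {x y c : ℝ} (hc : 0 < c)
    (h : ∀ j, |x| < pw j → |y| < pw j → (2:ℝ) ^ j < c) : top K x y ≤ c := by
  have h1 : top K x y ≤ ∑ j ∈ Finset.range K, 1 / 2 * (if (2:ℝ) ^ j < c then (2:ℝ) ^ j else 0) := by
    apply Finset.sum_le_sum
    intro j _
    rw [mul_inv, pw_inv]
    by_cases h0 : ph (x / pw j) * ph (y / pw j) = 0
    · rw [h0, mul_zero]
      split_ifs <;> positivity
    · rw [if_pos (h j (ph_supp (left_ne_zero_of_mul h0)) (ph_supp (right_ne_zero_of_mul h0)))]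
      have e1 : ph (x / pw j) * ph (y / pw j) ≤ 1 :=
        mul_le_one₀ (ph_le _) (ph_nonneg _) (ph_le _)
      have e2 : (0:ℝ) < 2 ^ j := by positivity
      nlinarith
  rw [← Finset.mul_sum] at h1
  have := (sum1 K hc).2
  linarith

lemma top_diff {x x' y c : ℝ} (hc : 0 < c)
    (h : ∀ j, (|x| < pw j ∨ |x'| < pw j) → |y| < pw j → (2:ℝ) ^ j < c) :
    |top K x y - top K x' y| ≤ 4 / 3 * c ^ 2 * |x - x'| := by
  have h1 : |top K x y - top K x' y| ≤
      ∑ j ∈ Finset.range K, (if (2:ℝ) ^ j < c then ((2:ℝ) ^ j) ^ 2 else 0) * |x - x'| := by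
    unfold top
    rw [← Finset.sum_sub_distrib]
    refine (Finset.abs_sum_le_sum_abs _ _).trans ?_
    apply Finset.sum_le_sum
    intro j _
    have e0 : (2 * pw j)⁻¹ * (ph (x / pw j) * ph (y / pw j)) -
        (2 * pw j)⁻¹ * (ph (x' / pw j) * ph (y / pw j)) =
        (2 * pw j)⁻¹ * ph (y / pw j) * (ph (x / pw j) - ph (x' / pw j)) := by ring
    rw [e0]
    by_cases h0 : ph (y / pw j) * (ph (x / pw j) - ph (x' / pw j)) = 0
    · have : (2 * pw j)⁻¹ * ph (y / pw j) * (ph (x / pw j) - ph (x' / pw j)) =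
        (2 * pw j)⁻¹ * (ph (y / pw j) * (ph (x / pw j) - ph (x' / pw j))) := by ring
      rw [this, h0, mul_zero, abs_zero]
      split_ifs <;> positivity
    · have hy := ph_supp (left_ne_zero_of_mul h0)
      have hx : |x| < pw j ∨ |x'| < pw j := by
        by_contra hcon
        push Not at hcon
        apply right_ne_zero_of_mul h0
        have a1 : ph (x / pw j) = 0 := by
          by_contra h2; exact absurd (ph_supp h2) (not_lt.mpr hcon.1)
        have a2 : ph (x' / pw j) = 0 := by
          by_contra h2; exact absurd (ph_supp h2) (not_lt.mpr hcon.2)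
        rw [a1, a2, sub_zero]
      rw [if_pos (h j hx hy)]
      have hp := pw_pos j
      rw [abs_mul, abs_mul, abs_of_nonneg (ph_nonneg (y / pw j)), abs_of_pos (by positivity)]
      have e1 := ph_lip (x / pw j) (x' / pw j)
      have e2 : x / pw j - x' / pw j = (x - x') / pw j := by ring
      rw [e2, abs_div, abs_of_pos hp] at e1
      have e3 := ph_le (y / pw j)
      have e4 := ph_nonneg (y / pw j)
      calc (2 * pw j)⁻¹ * ph (y / pw j) * |ph (x / pw j) - ph (x' / pw j)|
          ≤ (2 * pw j)⁻¹ * 1 * (2 * (|x - x'| / pw j)) := by gcongr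
        _ = ((pw j)⁻¹) ^ 2 * |x - x'| := by field_simp
        _ = (2 ^ j) ^ 2 * |x - x'| := by rw [pw_inv]
  rw [← Finset.sum_mul] at h1
  refine h1.trans ?_
  exact mul_le_mul_of_nonneg_right (sum2 K hc).2 (abs_nonneg _)

lemma two_pow_lt {j : ℕ} {c : ℝ} (hc : 0 < c) (h : 1 / c < pw j) : (2:ℝ) ^ j < c := by
  rw [← pw_inv]
  rw [one_div] at h
  exact inv_lt_of_inv_lt₀ hc h

lemma size0 (hK : 1 ≤ K) (g : ℕ) {x y : ℝ} (hx : |x| < 1) (hy : |y| < 1) (hxy : x ≠ y) :
    kk K g x y ≤ 4 / |x - y| - 1 := by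
  have h0 : ∀ {x y : ℝ}, |x| < 1 → |y| < 1 → x ≠ y → 1 ≤ 2 / |x - y| := by
    intro x y hx hy hxy
    have h1 : 0 < |x - y| := abs_pos.mpr (sub_ne_zero.mpr hxy)
    rw [le_div_iff₀ h1]
    have := abs_sub x y
    linarith [abs_sub_le x 0 y, abs_sub_comm (0:ℝ) y, sub_zero x, sub_zero y]
  have htop : ∀ {x y : ℝ}, x ≠ y → top K x y ≤ 2 / |x - y| := by
    intro x y hxy
    have h1 : 0 < |x - y| := abs_pos.mpr (sub_ne_zero.mpr hxy)
    apply top_le (by positivity)
    intro j hj1 hj2
    apply two_pow_lt (by positivity)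
    rw [one_div_div]
    have := abs_sub_le x 0 y
    rw [sub_zero, zero_sub, abs_neg] at this
    linarith
  induction g generalizing x y with
  | zero =>
    rw [kk]
    have := h0 hx hy hxy
    have e : 4 / |x - y| = 2 * (2 / |x - y|) := by ring
    rw [e]; linarith
  | succ g ih =>
    by_cases hc : ∃ i < K, y ∈ ch K i
    · obtain ⟨i, hi, hyi⟩ := hc
      rw [kk_ch hK g hi x hyi]
      by_cases hxi : x ∈ ch K i
      · have hl := lm_pos hK i
        have h1 := ih (in_ch hK hxi) (in_ch hK hyi) (by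
          intro h
          apply hxy
          field_simp at h
          linarith)
        have e1 : (x - cc i) / lm K i - (y - cc i) / lm K i = (x - y) / lm K i := by ring
        rw [e1, abs_div, abs_of_pos hl] at h1
        have h2 : top K x y ≤ 2 ^ (i + 1) := by
          have hz := ch_zone hK hyi
          have hpi := pw_pos i
          have hz' : |y| = y := abs_of_pos (by linarith [hz.1])
          have : ∀ j, |x| < pw j → |y| < pw j → (2:ℝ) ^ j < 2 ^ (i + 1) := by
            intro j _ hj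
            by_contra hcon
            push Not at hcon
            have h3 : i + 1 ≤ j := by
              by_contra h4
              push Not at h4
              exact absurd hcon (not_le.mpr (pow_lt_pow_right₀ (by norm_num) h4))
            have h5 := pw_anti h3
            rw [pw_succ] at h5
            rw [hz'] at hj
            linarith [hz.1]
          exact top_le (by positivity) this
        have h3 := mul_le_mul_of_nonneg_left h1 (inv_pos.mpr hl).le
        have e2 : (lm K i)⁻¹ * (4 / (|x - y| / lm K i) - 1) = 4 / |x - y| - (lm K i)⁻¹ := by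
          have : |x - y| ≠ 0 := (abs_pos.mpr (sub_ne_zero.mpr hxy)).ne'
          field_simp
        have e3 : (lm K i)⁻¹ = 16 * K * 2 ^ i := by
          unfold lm; rw [inv_div, ← pw_inv]; ring
        rw [e2, e3] at h3
        have e4 : (1:ℝ) ≤ K := by exact_mod_cast hK
        have e5 : (1:ℝ) ≤ 2 ^ i := one_le_pow₀ (by norm_num)
        rw [pow_succ] at h2
        rw [← e3] at h3
        nlinarith
      · rw [kk_supp hK g (not_ch hK hxi), mul_zero, add_zero]
        have h1 := htop hxy
        have h2 := h0 hx hy hxy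
        have e : 4 / |x - y| = 2 * (2 / |x - y|) := by ring
        rw [e]; linarith
    · push Not at hc
      rw [kk_out hK g x hc]
      have h1 := htop hxy
      have h2 := h0 hx hy hxy
      have e : 4 / |x - y| = 2 * (2 / |x - y|) := by ring
      rw [e]; linarith

lemma size (hK : 1 ≤ K) (g : ℕ) {x y : ℝ} (hxy : x ≠ y) : kk K g x y ≤ 4 / |x - y| := by
  have h1 : 0 < |x - y| := abs_pos.mpr (sub_ne_zero.mpr hxy)
  by_cases hx : |x| < 1
  · by_cases hy : |y| < 1
    · linarith [size0 hK g hx hy hxy]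
    · rw [kk_supp' hK g x (not_lt.mp hy)]; positivity
  · rw [kk_supp hK g (not_lt.mp hx)]; positivity

lemma reg0 (hK : 1 ≤ K) (g : ℕ) {x x' y : ℝ} (hy : |y| < 1) (hxy : x ≠ y)
    (hxx : |x - x'| ≤ |x - y| / 2) (hr : |x - y| < 4) :
    |kk K g x y - kk K g x' y| ≤ |x - x'| * (40 / |x - y| ^ 2 - 1) := by
  have htop : ∀ {x x' y : ℝ}, x ≠ y → |x - x'| ≤ |x - y| / 2 →
      |top K x y - top K x' y| ≤ |x - x'| * (64 / 3 / |x - y| ^ 2) := by
    intro x x' y hxy hxx
    have h1 : 0 < |x - y| := abs_pos.mpr (sub_ne_zero.mpr hxy)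
    have := top_diff (K := K) (x := x) (x' := x') (y := y) (c := 4 / |x - y|) (by positivity) (by
      intro j hj1 hj2
      apply two_pow_lt (by positivity)
      rw [one_div_div]
      rcases hj1 with hj1 | hj1
      · have := abs_sub_le x 0 y
        rw [sub_zero, zero_sub, abs_neg] at this
        linarith
      · have a1 := abs_sub_le x' 0 y
        rw [sub_zero, zero_sub, abs_neg] at a1
        have a2 := abs_sub_le x x' y
        linarith)
    refine this.trans (le_of_eq ?_)
    field_simp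
    ring
  have h0 : ∀ {ρ : ℝ}, 0 < ρ → ρ < 4 → 64 / 3 / ρ ^ 2 ≤ 40 / ρ ^ 2 - 1 := by
    intro ρ h1 h2
    rw [le_sub_iff_add_le, ← sub_nonneg]
    have : 40 / ρ ^ 2 - (64 / 3 / ρ ^ 2 + 1) = (56 / 3 - ρ ^ 2) / ρ ^ 2 := by
      field_simp; ring
    rw [this]
    apply div_nonneg _ (by positivity)
    nlinarith
  induction g generalizing x x' y with
  | zero =>
    rw [kk, kk, sub_zero, abs_zero]
    have h1 : 0 < |x - y| := abs_pos.mpr (sub_ne_zero.mpr hxy)
    have h2 := h0 h1 hr
    have h3 : 0 ≤ 64 / 3 / |x - y| ^ 2 := by positivity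
    exact mul_nonneg (abs_nonneg _) (h3.trans h2)
  | succ g ih =>
    have hρ : 0 < |x - y| := abs_pos.mpr (sub_ne_zero.mpr hxy)
    have hT := htop hxy hxx
    have hH := mul_le_mul_of_nonneg_left (h0 hρ hr) (abs_nonneg (x - x'))
    by_cases hc : ∃ i < K, y ∈ ch K i
    · obtain ⟨i, hi, hyi⟩ := hc
      have hl := lm_pos hK i
      have hη := in_ch hK hyi
      rw [kk_ch hK g hi x hyi, kk_ch hK g hi x' hyi]
      set ξ := (x - cc i) / lm K i with hξ
      set ξ' := (x' - cc i) / lm K i with hξ'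
      set η := (y - cc i) / lm K i with hηd
      have e1 : |ξ - η| = |x - y| / lm K i := by
        have : ξ - η = (x - y) / lm K i := by rw [hξ, hηd]; ring
        rw [this, abs_div, abs_of_pos hl]
      have e2 : |ξ - ξ'| = |x - x'| / lm K i := by
        have : ξ - ξ' = (x - x') / lm K i := by rw [hξ, hξ']; ring
        rw [this, abs_div, abs_of_pos hl]
      have hξη : ξ ≠ η := by
        intro h
        rw [h, sub_self, abs_zero] at e1
        have : 0 < |x - y| / lm K i := by positivity
        linarith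
      have hξξ : |ξ - ξ'| ≤ |ξ - η| / 2 := by
        rw [e1, e2, div_div, mul_comm, ← div_div]
        exact div_le_div_of_nonneg_right hxx hl.le
      by_cases h4 : |ξ - η| < 4
      · have h1 := ih hη hξη hξξ h4
        have h2 : |top K x y - top K x' y| ≤ 4 / 3 * (2 ^ (i + 1)) ^ 2 * |x - x'| := by
          apply top_diff (by positivity)
          intro j _ hj
          have hz := ch_zone hK hyi
          have hpi := pw_pos i
          have hz' : |y| = y := abs_of_pos (by linarith [hz.1])
          by_contra hcon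
          push Not at hcon
          have h3 : i + 1 ≤ j := by
            by_contra h4
            push Not at h4
            exact absurd hcon (not_le.mpr (pow_lt_pow_right₀ (by norm_num) h4))
          have h5 := pw_anti h3
          rw [pw_succ] at h5
          rw [hz'] at hj
          linarith [hz.1]
        have h3 := mul_le_mul_of_nonneg_left h1 (inv_pos.mpr hl).le
        rw [e1, e2] at h3
        have e3 : (lm K i)⁻¹ * (|x - x'| / lm K i * (40 / (|x - y| / lm K i) ^ 2 - 1)) =
            |x - x'| * (40 / |x - y| ^ 2 - ((lm K i)⁻¹) ^ 2) := by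
          field_simp
        have e4 : (lm K i)⁻¹ = 16 * K * 2 ^ i := by
          unfold lm; rw [inv_div, ← pw_inv]; ring
        rw [e3] at h3
        have e5 : (1:ℝ) ≤ K := by exact_mod_cast hK
        have e6 : (1:ℝ) ≤ 2 ^ i := one_le_pow₀ (by norm_num)
        have e7 : 4 / 3 * ((2:ℝ) ^ (i + 1)) ^ 2 + 1 ≤ ((lm K i)⁻¹) ^ 2 := by
          rw [e4, pow_succ (2:ℝ) i]
          have f1 : (1:ℝ) ≤ (2 ^ i) ^ 2 := one_le_pow₀ e6
          have f2 : (1:ℝ) ≤ K ^ 2 := one_le_pow₀ e5
          have f3 : (2 ^ i : ℝ) ^ 2 * 1 ≤ (2 ^ i) ^ 2 * K ^ 2 :=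
            mul_le_mul_of_nonneg_left f2 (by positivity)
          have f4 : (16 * (K:ℝ) * 2 ^ i) ^ 2 = 256 * ((2 ^ i) ^ 2 * K ^ 2) := by ring
          have f5 : ((2:ℝ) ^ i * 2) ^ 2 = 4 * (2 ^ i) ^ 2 := by ring
          rw [f4, f5]
          linarith
        have e8 := mul_le_mul_of_nonneg_left e7 (abs_nonneg (x - x'))
        have e9 : top K x y + (lm K i)⁻¹ * kk K g ξ η - (top K x' y + (lm K i)⁻¹ * kk K g ξ' η) =
          (top K x y - top K x' y) + (lm K i)⁻¹ * (kk K g ξ η - kk K g ξ' η) := by ring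
        rw [e9]
        have e10 := abs_add_le (top K x y - top K x' y)
          ((lm K i)⁻¹ * (kk K g ξ η - kk K g ξ' η))
        rw [abs_mul, abs_of_pos (inv_pos.mpr hl)] at e10
        nlinarith
      · push Not at h4
        have z1 : kk K g ξ η = 0 := by
          apply kk_supp hK
          have := abs_sub_le ξ 0 η
          rw [sub_zero, zero_sub, abs_neg] at this
          linarith
        have z2 : kk K g ξ' η = 0 := by
          apply kk_supp hK
          have a1 := abs_sub_le ξ' 0 η
          rw [sub_zero, zero_sub, abs_neg] at a1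
          have a2 := abs_sub_le ξ ξ' η
          linarith
        rw [z1, z2, mul_zero, add_zero, add_zero]
        exact hT.trans hH
    · push Not at hc
      rw [kk_out hK g x hc, kk_out hK g x' hc]
      exact hT.trans hH

lemma reg (hK : 1 ≤ K) (g : ℕ) {x x' y : ℝ} (hxy : x ≠ y) (hxx : |x - x'| ≤ |x - y| / 2) :
    |kk K g x y - kk K g x' y| ≤ 40 * |x - x'| / |x - y| ^ 2 := by
  have hρ : 0 < |x - y| := abs_pos.mpr (sub_ne_zero.mpr hxy)
  have h0 : 0 ≤ 40 * |x - x'| / |x - y| ^ 2 := by positivity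
  by_cases hy : |y| < 1
  · by_cases hr : |x - y| < 4
    · refine (reg0 hK g hy hxy hxx hr).trans ?_
      have : |x - x'| * (40 / |x - y| ^ 2 - 1) = 40 * |x - x'| / |x - y| ^ 2 - |x - x'| := by ring
      rw [this]
      linarith [abs_nonneg (x - x')]
    · push Not at hr
      rw [kk_supp hK g (x := x), kk_supp hK g (x := x'), sub_zero, abs_zero]
      · exact h0
      · have a1 := abs_sub_le x' 0 y
        rw [sub_zero, zero_sub, abs_neg] at a1
        have a2 := abs_sub_le x x' y
        linarith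
      · have := abs_sub_le x 0 y
        rw [sub_zero, zero_sub, abs_neg] at this
        linarith
  · rw [kk_supp' hK g x (not_lt.mp hy), kk_supp' hK g x' (not_lt.mp hy), sub_zero, abs_zero]
    exact h0

lemma kk_meas (g : ℕ) : Measurable (fun q : ℝ × ℝ => kk K g q.1 q.2) := by
  induction g with
  | zero =>
    have : (fun q : ℝ × ℝ => kk K 0 q.1 q.2) = fun _ => 0 := by funext q; rw [kk]
    rw [this]; exact measurable_const
  | succ g ih =>
    have : (fun q : ℝ × ℝ => kk K (g + 1) q.1 q.2) = fun q => top K q.1 q.2 +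
      ∑ i ∈ Finset.range K, (lm K i)⁻¹ * kk K g ((q.1 - cc i) / lm K i) ((q.2 - cc i) / lm K i) := by
      funext q; rw [kk]
    rw [this]
    apply Measurable.add
    · unfold top
      apply Finset.measurable_sum
      intro j _
      apply Measurable.const_mul
      exact (ph_meas.comp (by fun_prop)).mul (ph_meas.comp (by fun_prop))
    · apply Finset.measurable_sum
      intro i _
      apply Measurable.const_mul
      have h2 : Measurable (fun q : ℝ × ℝ => ((q.1 - cc i) / lm K i, (q.2 - cc i) / lm K i)) := by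
        fun_prop
      exact ih.comp h2

lemma kk_bdd (hK : 1 ≤ K) (g : ℕ) : ∃ C, 0 ≤ C ∧ ∀ x y, kk K g x y ≤ C := by
  induction g with
  | zero => exact ⟨0, le_rfl, fun x y => by rw [kk]⟩
  | succ g ih =>
    obtain ⟨C, hC0, hC⟩ := ih
    refine ⟨∑ j ∈ Finset.range K, (2 * pw j)⁻¹ + ∑ i ∈ Finset.range K, (lm K i)⁻¹ * C, ?_, ?_⟩
    · apply add_nonneg
      · exact Finset.sum_nonneg (fun j _ => by have := pw_pos j; positivity)
      · exact Finset.sum_nonneg (fun i _ => by have := lm_pos hK i; positivity)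
    · intro x y
      rw [kk]
      apply add_le_add
      · unfold top
        apply Finset.sum_le_sum
        intro j _
        have e1 : ph (x / pw j) * ph (y / pw j) ≤ 1 :=
          mul_le_one₀ (ph_le _) (ph_nonneg _) (ph_le _)
        have e2 : 0 < (2 * pw j)⁻¹ := by have := pw_pos j; positivity
        nlinarith
      · apply Finset.sum_le_sum
        intro i _
        exact mul_le_mul_of_nonneg_left (hC _ _) (inv_pos.mpr (lm_pos hK i)).le

end

end Pool.Agent.H433R3.Ce
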