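import Pool.Agent.H433R3.Ce3
import Pool.Agent.H433R3.Ce6

/-!
# The endpoint `α = 0`: the operator, recursion, and the two main estimates
-/

set_option autoImplicit false

namespace Pool.Agent.H433R3.Ce

open MeasureTheory

lemma BM.mul {f g : ℝ → ℝ} (hf : BM f) (hg : BM g) : BM (fun x => f x * g x) := by
  obtain ⟨C, hC⟩ := hf.b
  obtain ⟨D, hD⟩ := hg.b
  refine ⟨hf.m.mul hg.m, C * D, fun x => ?_⟩
  rw [abs_mul]
  exact mul_le_mul (hC x) (hD x) (abs_nonneg _) ((abs_nonneg _).trans (hC x))

lemma BM.const (c : ℝ) : BM (fun _ => c) := ⟨measurable_const, |c|, fun _ => le_rfl⟩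

lemma BM.add {f g : ℝ → ℝ} (hf : BM f) (hg : BM g) : BM (fun x => f x + g x) := by
  obtain ⟨C, hC⟩ := hf.b
  obtain ⟨D, hD⟩ := hg.b
  exact ⟨hf.m.add hg.m, C + D, fun x => (abs_add_le _ _).trans (add_le_add (hC x) (hD x))⟩

lemma BM.comp {f : ℝ → ℝ} (hf : BM f) {a : ℝ → ℝ} (ha : Measurable a) : BM (fun x => f (a x)) := by
  obtain ⟨C, hC⟩ := hf.b
  exact ⟨hf.m.comp ha, C, fun x => hC _⟩

lemma ph_BM : BM ph := ⟨ph_meas, 1, fun x => by rw [abs_of_nonneg (ph_nonneg x)]; exact ph_le x⟩

section
variable {K M : ℕ}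

lemma kk_BM (hK : 1 ≤ K) (g : ℕ) (x : ℝ) : BM (kk K g x) := by
  obtain ⟨C, _, hC⟩ := kk_bdd hK g
  refine ⟨?_, C, fun y => by rw [abs_of_nonneg (kk_nonneg hK g x y)]; exact hC x y⟩
  exact (kk_meas (K := K) g).comp (by fun_prop : Measurable (fun y : ℝ => (x, y)))

/-- The operator. -/
noncomputable def TT (K g : ℕ) (f : ℝ → ℝ) (x : ℝ) : ℝ := ∫ y in B 0, kk K g x y * f y

lemma TT_nonneg (hK : 1 ≤ K) (g : ℕ) {f : ℝ → ℝ} (hf : ∀ x, 0 ≤ f x) (x : ℝ) :
    0 ≤ TT K g f x := integral_nonneg (fun y => mul_nonneg (kk_nonneg hK g x y) (hf y))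

lemma TT_supp (hK : 1 ≤ K) (g : ℕ) (f : ℝ → ℝ) {x : ℝ} (hx : 1 ≤ |x|) : TT K g f x = 0 := by
  unfold TT
  have : ∀ y, kk K g x y * f y = 0 := fun y => by rw [kk_supp hK g hx, zero_mul]
  simp only [this, integral_zero]

lemma ch_sub_B0 (hK : 1 ≤ K) (i : ℕ) : ch K i ⊆ B 0 :=
  (ch_sub_Z hK i).trans ((Z_sub i).trans (B_mono (Nat.zero_le i)))

lemma TT_child (hK : 1 ≤ K) (g : ℕ) {f : ℝ → ℝ} (x : ℝ) (i : ℕ) :
    ∫ y in B 0, (lm K i)⁻¹ * kk K g ((x - cc i) / lm K i) ((y - cc i) / lm K i) * f y =
      TT K g (fun z => f (cc i + lm K i * z)) ((x - cc i) / lm K i) := by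
  have hl := lm_pos hK i
  have h1 : ∫ y in B 0, (lm K i)⁻¹ * kk K g ((x - cc i) / lm K i) ((y - cc i) / lm K i) * f y =
      ∫ y in ch K i,
        (lm K i)⁻¹ * kk K g ((x - cc i) / lm K i) ((y - cc i) / lm K i) * f y := by
    apply setIntegral_eq_of_subset_of_forall_sdiff_eq_zero (B_meas 0) (ch_sub_B0 hK i)
    intro y hy
    rw [kk_supp' hK g _ (not_ch hK hy.2)]
    ring
  rw [h1]
  have h2 := si_child (i := i) hK
    (fun y => (lm K i)⁻¹ * kk K g ((x - cc i) / lm K i) ((y - cc i) / lm K i) * f y)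
    (fun z => (lm K i)⁻¹ * kk K g ((x - cc i) / lm K i) z * f (cc i + lm K i * z)) Set.univ
    (fun y _ => by
      have : cc i + lm K i * ((y - cc i) / lm K i) = y := by field_simp; ring
      simp only [this]) MeasurableSet.univ
  simp only [Set.univ_inter, Set.mem_univ] at h2
  rw [h2]
  have h3 : {y : ℝ | True} ∩ B 0 = B 0 := by ext y; simp
  rw [h3]
  unfold TT
  have h4 : ∀ z, (lm K i)⁻¹ * kk K g ((x - cc i) / lm K i) z * f (cc i + lm K i * z) =
    (lm K i)⁻¹ * (kk K g ((x - cc i) / lm K i) z * f (cc i + lm K i * z)) := fun z => by ring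
  simp only [h4]
  rw [integral_const_mul, ← mul_assoc, mul_inv_cancel₀ hl.ne', one_mul]

lemma TT_step (hK : 1 ≤ K) (g : ℕ) {f : ℝ → ℝ} (hf : BM f) (x : ℝ) :
    TT K (g + 1) f x =
      (∑ j ∈ Finset.range K, (2 * pw j)⁻¹ * ph (x / pw j) * ∫ y in B 0, ph (y / pw j) * f y) +
      ∑ i ∈ Finset.range K, TT K g (fun z => f (cc i + lm K i * z)) ((x - cc i) / lm K i) := by
  have hph : ∀ j : ℕ, BM (fun y => ph (y / pw j) * f y) := fun j =>
    (ph_BM.comp (by fun_prop : Measurable (fun y : ℝ => y / pw j))).mul hf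
  have hkk : ∀ i : ℕ, BM (fun y =>
      (lm K i)⁻¹ * kk K g ((x - cc i) / lm K i) ((y - cc i) / lm K i) * f y) := fun i =>
    ((BM.const (lm K i)⁻¹).mul ((kk_BM hK g ((x - cc i) / lm K i)).comp
      (by fun_prop : Measurable (fun y : ℝ => (y - cc i) / lm K i)))).mul hf
  have h1 : TT K (g + 1) f x = ∫ y in B 0,
      ((∑ j ∈ Finset.range K, (2 * pw j)⁻¹ * ph (x / pw j) * (ph (y / pw j) * f y)) +
      ∑ i ∈ Finset.range K,
        (lm K i)⁻¹ * kk K g ((x - cc i) / lm K i) ((y - cc i) / lm K i) * f y) := by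
    unfold TT
    congr 1
    funext y
    rw [kk, add_mul, Finset.sum_mul]
    congr 1
    unfold top
    rw [Finset.sum_mul]
    apply Finset.sum_congr rfl
    intro j _
    ring
  rw [h1, integral_add, integral_finsetSum, integral_finsetSum]
  · congr 1
    · apply Finset.sum_congr rfl
      intro j _
      rw [integral_const_mul]
    · apply Finset.sum_congr rfl
      intro i _
      exact TT_child hK g x i
  · intro i _
    exact (hkk i).int (B_fin 0)
  · intro j _
    exact ((hph j).int (B_fin 0)).const_mul _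
  · apply integrable_finsetSum
    intro j _
    exact ((hph j).int (B_fin 0)).const_mul _
  · apply integrable_finsetSum
    intro i _
    exact (hkk i).int (B_fin 0)

/-! ### The Schur weight -/

/-- The top part of the Schur weight. -/
noncomputable def ss (K : ℕ) (x : ℝ) : ℝ :=
  1 + ∑ j ∈ Finset.range K, (if |x| < pw j then 1 / 2 * (3 / 2 : ℝ) ^ j else 0)

/-- The Schur weight. -/
noncomputable def hh (K : ℕ) : ℕ → ℝ → ℝ
  | 0, _ => 1
  | g + 1, x => ss K x + ∑ i ∈ Finset.range K, (ch K i).indicator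
      (fun x => ss K x * (hh K g ((x - cc i) / lm K i) - 1)) x

lemma ss_meas : Measurable (ss K) := by
  unfold ss
  apply measurable_const.add
  apply Finset.measurable_sum
  intro j _
  exact Measurable.ite (measurableSet_lt (by fun_prop) measurable_const) measurable_const
    measurable_const

lemma ss_ge (x : ℝ) : 1 ≤ ss K x := by
  unfold ss
  have : 0 ≤ ∑ j ∈ Finset.range K, (if |x| < pw j then 1 / 2 * (3 / 2 : ℝ) ^ j else 0) := by
    apply Finset.sum_nonneg
    intro j _
    split_ifs <;> positivity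
  linarith

lemma geo32 (n : ℕ) : 1 + ∑ j ∈ Finset.range n, 1 / 2 * (3 / 2 : ℝ) ^ j = (3 / 2) ^ n := by
  induction n with
  | zero => simp
  | succ n ih => rw [Finset.sum_range_succ, ← add_assoc, ih, pow_succ]; ring

lemma ss_le (x : ℝ) : ss K x ≤ (3 / 2) ^ K := by
  rw [← geo32]
  unfold ss
  apply add_le_add le_rfl
  apply Finset.sum_le_sum
  intro j _
  split_ifs
  · exact le_rfl
  · positivity

lemma ss_Z {i : ℕ} (hi : i < K) {x : ℝ} (hx : x ∈ Z i) : ss K x = (3 / 2) ^ (i + 1) := by
  rw [← geo32]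
  unfold ss
  congr 1
  have h1 : Finset.range (i + 1) ⊆ Finset.range K := Finset.range_mono hi
  rw [← Finset.sum_subset h1]
  · apply Finset.sum_congr rfl
    intro j hj
    rw [if_pos]
    exact lt_of_lt_of_le hx.2 (pw_anti (Nat.lt_succ_iff.mp (Finset.mem_range.mp hj)))
  · intro j _ hj
    rw [if_neg]
    have : i + 1 ≤ j := by
      by_contra h
      exact hj (Finset.mem_range.mpr (not_le.mp h))
    exact not_lt.mpr ((pw_anti this).trans hx.1)

lemma hh_ch (hK : 1 ≤ K) (g : ℕ) {i : ℕ} (hi : i < K) {x : ℝ} (hx : x ∈ ch K i) :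
    hh K (g + 1) x = (3 / 2) ^ (i + 1) * hh K g ((x - cc i) / lm K i) := by
  rw [hh, Finset.sum_eq_single i]
  · rw [Set.indicator_of_mem hx, ss_Z hi (ch_sub_Z hK i hx)]; ring
  · intro j _ hj
    apply Set.indicator_of_notMem
    intro h
    exact hj (ch_disj hK h hx)
  · intro h
    exact absurd (Finset.mem_range.mpr hi) h

lemma hh_out (g : ℕ) {x : ℝ} (hx : ∀ i < K, x ∉ ch K i) : hh K (g + 1) x = ss K x := by
  rw [hh, Finset.sum_eq_zero, add_zero]
  intro i hi
  exact Set.indicator_of_notMem (hx i (Finset.mem_range.mp hi)) _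

lemma hh_ge (hK : 1 ≤ K) (g : ℕ) (x : ℝ) : 1 ≤ hh K g x := by
  induction g generalizing x with
  | zero => rw [hh]
  | succ g ih =>
    by_cases h : ∃ i < K, x ∈ ch K i
    · obtain ⟨i, hi, hx⟩ := h
      rw [hh_ch hK g hi hx]
      exact one_le_mul_of_one_le_of_one_le (one_le_pow₀ (by norm_num)) (ih _)
    · push Not at h
      rw [hh_out g h]
      exact ss_ge x

lemma hh_le (hK : 1 ≤ K) (g : ℕ) (x : ℝ) : hh K g x ≤ ((3 / 2) ^ K) ^ g := by
  have h0 : (1:ℝ) ≤ (3 / 2) ^ K := one_le_pow₀ (by norm_num)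
  induction g generalizing x with
  | zero => rw [hh, pow_zero]
  | succ g ih =>
    by_cases h : ∃ i < K, x ∈ ch K i
    · obtain ⟨i, hi, hx⟩ := h
      rw [hh_ch hK g hi hx, pow_succ' ((3 / 2 : ℝ) ^ K) g]
      have h1 : (3 / 2 : ℝ) ^ (i + 1) ≤ (3 / 2) ^ K := pow_le_pow_right₀ (by norm_num) hi
      have h2 := hh_ge hK g ((x - cc i) / lm K i)
      exact mul_le_mul h1 (ih _) (by linarith) (by positivity)
    · push Not at h
      rw [hh_out g h, pow_succ' ((3 / 2 : ℝ) ^ K) g]
      refine (ss_le x).trans ?_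
      exact le_mul_of_one_le_right (by positivity) (one_le_pow₀ h0)

lemma hh_meas (g : ℕ) : Measurable (hh K g) := by
  induction g with
  | zero =>
    have : hh K 0 = fun _ => 1 := by funext x; rw [hh]
    rw [this]; exact measurable_const
  | succ g ih =>
    have : hh K (g + 1) = fun x => ss K x + ∑ i ∈ Finset.range K, (ch K i).indicator
      (fun x => ss K x * (hh K g ((x - cc i) / lm K i) - 1)) x := by funext x; rw [hh]
    rw [this]
    apply ss_meas.add
    apply Finset.measurable_sum
    intro i _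
    apply Measurable.indicator _ (ch_meas i)
    have h1 : Measurable (fun x : ℝ => hh K g ((x - cc i) / lm K i)) := ih.comp (by fun_prop)
    exact ss_meas.mul (h1.sub measurable_const)

lemma hh_BM (hK : 1 ≤ K) (g : ℕ) : BM (hh K g) :=
  ⟨hh_meas g, _, fun x => by
    rw [abs_of_nonneg (by linarith [hh_ge hK g x])]; exact hh_le hK g x⟩

lemma hh_int (hK : 1 ≤ K) (g : ℕ) : ∫ x in B 0, hh K g x ≤ 16 ∧
    ∀ m ≤ K, ∫ x in B m, hh K (g + 1) x ≤ 12 * (3 / 4) ^ m := by
  have step : ∀ g, ∫ x in B 0, hh K g x ≤ 16 →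
      ∀ m ≤ K, ∫ x in B m, hh K (g + 1) x ≤ 12 * (3 / 4) ^ m := by
    intro g hg m hm
    apply zl_le (hh_BM hK (g + 1)) (fun i => 12 * (3 / 4) ^ i) hm
    · intro i _ hi'
      have hpi := pw_pos i
      have hl := lm_pos hK i
      rw [zc_split hK i (hh_BM hK (g + 1))]
      have hs : volume (Z i \ ch K i) ≠ ⊤ :=
        ne_top_of_le_ne_top (Z_fin i) (measure_mono Set.sdiff_subset)
      have h1 := si_le (hh_BM hK (g + 1)) ((Z_meas i).diff (ch_meas (K := K) i)) hs
        (q := (3 / 2) ^ (i + 1)) (by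
          intro x hx
          rw [hh_out g, ss_Z hi' hx.1]
          intro j _ hj
          have := Z_disj hx.1 (ch_sub_Z hK j hj)
          rw [← this] at hj
          exact hx.2 hj)
      have h2 : volume.real (Z i \ ch K i) ≤ pw i := by
        rw [← Z_real i]
        exact measureReal_mono Set.sdiff_subset (Z_fin i)
      have h3 := si_child (i := i) hK (hh K (g + 1)) (fun y => (3 / 2) ^ (i + 1) * hh K g y)
        Set.univ (fun x hx => hh_ch hK g hi' hx) MeasurableSet.univ
      simp only [Set.univ_inter, Set.mem_univ] at h3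
      have h4 : {y : ℝ | True} ∩ B 0 = B 0 := by ext y; simp
      rw [h4, integral_const_mul] at h3
      rw [h3]
      have h5 : (0:ℝ) < (3 / 2) ^ (i + 1) := by positivity
      have h6 : lm K i * ((3 / 2) ^ (i + 1) * ∫ y in B 0, hh K g y) ≤
          pw i / 16 * ((3 / 2) ^ (i + 1) * 16) := by
        have := lm_le hK i
        have h0 : 0 ≤ ∫ y in B 0, hh K g y :=
          integral_nonneg (fun y => by
            have := hh_ge hK g y
            show (0:ℝ) ≤ hh K g y
            linarith)
        gcongr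
      have h7 : (3 / 2 : ℝ) ^ (i + 1) * volume.real (Z i \ ch K i) ≤ (3 / 2) ^ (i + 1) * pw i := by
        gcongr
      have h8 : (3 / 2 : ℝ) ^ (i + 1) * pw i = 3 / 2 * (3 / 4) ^ i := by
        unfold pw
        rw [pow_succ, show (3 / 4 : ℝ) = 3 / 2 * (1 / 2) by norm_num, mul_pow]
        ring
      rw [pow_succ (3 / 4 : ℝ) i]
      nlinarith
    · have h1 := si_le (hh_BM hK (g + 1)) (B_meas K) (B_fin K) (q := (3 / 2) ^ K) (by
        intro x hx
        rw [hh_out g]
        · exact ss_le x
        · intro i hi hx'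
          have h1 := (ch_sub_Z hK i hx').1
          have h2 := pw_anti (Nat.succ_le_of_lt hi)
          exact absurd (h2.trans h1) (not_le.mpr hx))
      rw [B_real] at h1
      refine h1.trans ?_
      have : (3 / 2 : ℝ) ^ K * (2 * pw K) = 2 * (3 / 4) ^ K := by
        unfold pw
        rw [show (3 / 4 : ℝ) = 3 / 2 * (1 / 2) by norm_num, mul_pow]
        ring
      rw [this]
      have : (0:ℝ) < (3 / 4) ^ K := by positivity
      linarith
  have h16 : ∫ x in B 0, hh K g x ≤ 16 := by
    induction g with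
    | zero =>
      have h1 := si_le (hh_BM hK 0) (B_meas 0) (B_fin 0) (q := 1) (fun x _ => by rw [hh])
      rw [B_real, pw_zero] at h1
      linarith
    | succ g ih =>
      have := step g ih 0 (Nat.zero_le K)
      linarith
  exact ⟨h16, step g h16⟩

/-- **Schur estimate.** -/
theorem schur (hK : 1 ≤ K) (g : ℕ) (x : ℝ) : TT K g (hh K g) x ≤ 12 * (hh K g x - 1) := by
  induction g generalizing x with
  | zero =>
    unfold TT
    have : ∀ y, kk K 0 x y * hh K 0 y = 0 := fun y => by rw [kk, zero_mul]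
    simp only [this, integral_zero]
    rw [hh]; norm_num
  | succ g ih =>
    rw [TT_step hK g (hh_BM hK (g + 1))]
    have h1 : (∑ j ∈ Finset.range K, (2 * pw j)⁻¹ * ph (x / pw j) *
        ∫ y in B 0, ph (y / pw j) * hh K (g + 1) y) ≤ 12 * (ss K x - 1) := by
      have e0 : 12 * (ss K x - 1) =
          ∑ j ∈ Finset.range K, (if |x| < pw j then 6 * (3 / 2 : ℝ) ^ j else 0) := by
        unfold ss
        rw [add_sub_cancel_left, Finset.mul_sum]
        apply Finset.sum_congr rfl
        intro j _
        split_ifs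
        · ring
        · ring
      rw [e0]
      apply Finset.sum_le_sum
      intro j hj
      have hjK : j < K := Finset.mem_range.mp hj
      have hpj := pw_pos j
      by_cases hx : |x| < pw j
      · rw [if_pos hx]
        have e1 : ∫ y in B 0, ph (y / pw j) * hh K (g + 1) y ≤ 12 * (3 / 4) ^ j := by
          have e2 : ∫ y in B 0, ph (y / pw j) * hh K (g + 1) y =
              ∫ y in B j, ph (y / pw j) * hh K (g + 1) y := by
            apply setIntegral_eq_of_subset_of_forall_sdiff_eq_zero (B_meas 0)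
              (B_mono (Nat.zero_le j))
            intro y hy
            have : ph (y / pw j) = 0 := by
              by_contra hcon
              exact hy.2 (ph_supp hcon)
            rw [this, zero_mul]
          rw [e2]
          refine le_trans ?_ ((hh_int hK g).2 j hjK.le)
          apply setIntegral_mono_on _ ((hh_BM hK (g + 1)).int (B_fin j)) (B_meas j)
          · intro y _
            have := hh_ge hK (g + 1) y
            have := ph_le (y / pw j)
            nlinarith
          · exact ((ph_BM.comp (by fun_prop : Measurable (fun y : ℝ => y / pw j))).mul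
              (hh_BM hK (g + 1))).int (B_fin j)
        have e3 : 0 ≤ ∫ y in B 0, ph (y / pw j) * hh K (g + 1) y :=
          integral_nonneg (fun y => mul_nonneg (ph_nonneg _) (by linarith [hh_ge hK (g + 1) y]))
        have e4 := ph_le (x / pw j)
        have e5 := ph_nonneg (x / pw j)
        calc (2 * pw j)⁻¹ * ph (x / pw j) * ∫ y in B 0, ph (y / pw j) * hh K (g + 1) y
            ≤ (2 * pw j)⁻¹ * 1 * (12 * (3 / 4) ^ j) := by gcongr
          _ = 6 * (3 / 2) ^ j := by
            have : (3 / 4 : ℝ) ^ j = (3 / 2) ^ j * pw j := by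
              unfold pw
              rw [show (3 / 4 : ℝ) = 3 / 2 * (1 / 2) by norm_num, mul_pow]
            rw [this]
            field_simp
            norm_num
      · rw [if_neg hx]
        have : ph (x / pw j) = 0 := by
          by_contra hcon
          exact hx (ph_supp hcon)
        rw [this, mul_zero, zero_mul]
    by_cases h : ∃ i < K, x ∈ ch K i
    · obtain ⟨i, hi, hx⟩ := h
      have h2 : (∑ j ∈ Finset.range K,
          TT K g (fun z => hh K (g + 1) (cc j + lm K j * z)) ((x - cc j) / lm K j)) =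
          TT K g (fun z => hh K (g + 1) (cc i + lm K i * z)) ((x - cc i) / lm K i) := by
        apply Finset.sum_eq_single i
        · intro j _ hj
          apply TT_supp hK
          apply not_ch hK
          intro h
          exact hj (ch_disj hK h hx)
        · intro h
          exact absurd (Finset.mem_range.mpr hi) h
      have h3 : TT K g (fun z => hh K (g + 1) (cc i + lm K i * z)) ((x - cc i) / lm K i) =
          (3 / 2) ^ (i + 1) * TT K g (hh K g) ((x - cc i) / lm K i) := by
        unfold TT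
        rw [← integral_const_mul]
        apply setIntegral_congr_fun (B_meas 0)
        intro z hz
        have hz' : cc i + lm K i * z ∈ ch K i := by
          show |cc i + lm K i * z - cc i| < lm K i
          have hl := lm_pos hK i
          rw [add_sub_cancel_left, abs_mul, abs_of_pos hl]
          have : |z| < pw 0 := hz
          rw [pw_zero] at this
          nlinarith
        have hl := lm_pos hK i
        have e1 : (cc i + lm K i * z - cc i) / lm K i = z := by field_simp; ring
        simp only [hh_ch hK g hi hz', e1]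
        ring
      rw [h2, h3, hh_ch hK g hi hx]
      have h4 := ih ((x - cc i) / lm K i)
      have h5 := ss_Z hi (ch_sub_Z hK i hx)
      rw [h5] at h1
      have h6 : (0:ℝ) < (3 / 2) ^ (i + 1) := by positivity
      nlinarith
    · push Not at h
      rw [hh_out g h]
      have h2 : (∑ j ∈ Finset.range K,
          TT K g (fun z => hh K (g + 1) (cc j + lm K j * z)) ((x - cc j) / lm K j)) = 0 := by
        apply Finset.sum_eq_zero
        intro j hj
        exact TT_supp hK g _ (not_ch hK (h j (Finset.mem_range.mp hj)))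
      rw [h2]
      linarith

end

end Pool.Agent.H433R3.Ce
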