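import Pool.Agent.H433R3.Ce7

/-!
# The endpoint `α = 0`: lower bound for the testing quantity
-/

set_option autoImplicit false

namespace Pool.Agent.H433R3.Ce

open MeasureTheory

section
variable {K M : ℕ}

lemma TT_meas (g : ℕ) {f : ℝ → ℝ} (hf : Measurable f) : Measurable (TT K g f) := by
  have h1 : Measurable (fun q : ℝ × ℝ => kk K g q.1 q.2 * f q.2) :=
    (kk_meas g).mul (hf.comp measurable_snd)
  exact (h1.stronglyMeasurable.integral_prod_right (ν := volume.restrict (B 0))).measurable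

lemma TT_BM (hK : 1 ≤ K) (g : ℕ) {f : ℝ → ℝ} (hf : BM f) : BM (TT K g f) := by
  obtain ⟨C, hC0, hC⟩ := kk_bdd hK g
  obtain ⟨D, hD⟩ := hf.b
  refine ⟨TT_meas g hf.m, C * D * volume.real (B 0), fun x => ?_⟩
  have := norm_setIntegral_le_of_norm_le_const (μ := volume) (s := B 0)
    (f := fun y => kk K g x y * f y) (C := C * D) (lt_top_iff_ne_top.mpr (B_fin 0)) (by
      intro y _
      rw [Real.norm_eq_abs, abs_mul, abs_of_nonneg (kk_nonneg hK g x y)]
      exact mul_le_mul (hC x y) (hD y) (abs_nonneg _) hC0)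
  rwa [Real.norm_eq_abs] at this

lemma affine_ch (hK : 1 ≤ K) {i : ℕ} {z : ℝ} (hz : z ∈ B 0) : cc i + lm K i * z ∈ ch K i ∧
    (cc i + lm K i * z - cc i) / lm K i = z := by
  have hl := lm_pos hK i
  constructor
  · show |cc i + lm K i * z - cc i| < lm K i
    rw [add_sub_cancel_left, abs_mul, abs_of_pos hl]
    have : |z| < pw 0 := hz
    rw [pw_zero] at this
    nlinarith
  · field_simp
    ring

lemma low_child (h : Par K M) (g : ℕ) {i : ℕ} (hi : i < K) (x : ℝ) :
    8 * K * TT K g (ww K M g) ((x - cc i) / lm K i) ≤ TT K (g + 1) (ww K M (g + 1)) x := by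
  have hw := ww_WB h (g + 1)
  rw [TT_step h.hK1 g hw.bm]
  have h1 : 0 ≤ ∑ j ∈ Finset.range K, (2 * pw j)⁻¹ * ph (x / pw j) *
      ∫ y in B 0, ph (y / pw j) * ww K M (g + 1) y := by
    apply Finset.sum_nonneg
    intro j _
    have e1 := pw_pos j
    have e2 := ph_nonneg (x / pw j)
    have e3 : 0 ≤ ∫ y in B 0, ph (y / pw j) * ww K M (g + 1) y :=
      integral_nonneg (fun y => mul_nonneg (ph_nonneg _) (hw.pos y).le)
    positivity
  have h2 := Finset.single_le_sum (s := Finset.range K)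
    (f := fun i => TT K g (fun z => ww K M (g + 1) (cc i + lm K i * z)) ((x - cc i) / lm K i))
    (fun j _ => TT_nonneg h.hK1 g (fun z => (hw.pos _).le) _) (Finset.mem_range.mpr hi)
  have h3 : TT K g (fun z => ww K M (g + 1) (cc i + lm K i * z)) ((x - cc i) / lm K i) =
      8 * K * TT K g (ww K M g) ((x - cc i) / lm K i) := by
    unfold TT
    rw [← integral_const_mul]
    apply setIntegral_congr_fun (B_meas 0)
    intro z hz
    have hz' := affine_ch (K := K) h.hK1 (i := i) hz
    simp only [ww_ch h.hK1 g hi hz'.1, hz'.2]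
    ring
  linarith

lemma low_core {g : ℕ} (h : Good K M (g + 1)) {x : ℝ} (hx : x ∈ B K) :
    K / 16 ≤ TT K (g + 1) (ww K M (g + 1)) x := by
  have hw := ww_WB h.par (g + 1)
  have hK2 := h.par.K2
  rw [TT_step h.par.hK1 g hw.bm]
  have h2 : 0 ≤ ∑ i ∈ Finset.range K,
      TT K g (fun z => ww K M (g + 1) (cc i + lm K i * z)) ((x - cc i) / lm K i) :=
    Finset.sum_nonneg (fun j _ => TT_nonneg h.par.hK1 g (fun z => (hw.pos _).le) _)
  have h0 : ∀ j, 0 ≤ (2 * pw j)⁻¹ * ph (x / pw j) *
      ∫ y in B 0, ph (y / pw j) * ww K M (g + 1) y := by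
    intro j
    have e1 := pw_pos j
    have e2 := ph_nonneg (x / pw j)
    have e3 : 0 ≤ ∫ y in B 0, ph (y / pw j) * ww K M (g + 1) y :=
      integral_nonneg (fun y => mul_nonneg (ph_nonneg _) (hw.pos y).le)
    positivity
  have h1 : ∑ j ∈ Finset.range (K - 1), (1 / 8 : ℝ) ≤
      ∑ j ∈ Finset.range K, (2 * pw j)⁻¹ * ph (x / pw j) *
        ∫ y in B 0, ph (y / pw j) * ww K M (g + 1) y := by
    refine le_trans ?_ (Finset.sum_le_sum_of_subset_of_nonneg
      (Finset.range_mono (Nat.sub_le K 1)) (fun j _ _ => h0 j))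
    apply Finset.sum_le_sum
    intro j hj
    have hj' : j + 2 ≤ K := by
      have := Finset.mem_range.mp hj
      omega
    have hpj := pw_pos j
    have hx' : |x| < pw K := hx
    have e1 : ph (x / pw j) = 1 := by
      apply ph_one
      rw [abs_div, abs_of_pos hpj, div_le_iff₀ hpj]
      have := pw_anti (show j + 1 ≤ K by omega)
      rw [pw_succ] at this
      linarith
    have e2 : pw j / 4 ≤ ∫ y in B 0, ph (y / pw j) * ww K M (g + 1) y := by
      have a1 : ∫ y in B (j + 1), ww K M (g + 1) y ≤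
          ∫ y in B (j + 1), ph (y / pw j) * ww K M (g + 1) y := by
        apply le_of_eq
        apply setIntegral_congr_fun (B_meas _)
        intro y hy
        have hy' : |y| < pw (j + 1) := hy
        rw [pw_succ] at hy'
        have : ph (y / pw j) = 1 := by
          apply ph_one
          rw [abs_div, abs_of_pos hpj, div_le_iff₀ hpj]
          linarith
        simp only [this, one_mul]
      have a2 : ∫ y in B (j + 1), ph (y / pw j) * ww K M (g + 1) y ≤
          ∫ y in B 0, ph (y / pw j) * ww K M (g + 1) y :=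
        si_mono ((ph_BM.comp (by fun_prop : Measurable (fun y : ℝ => y / pw j))).mul hw.bm)
          (fun y => mul_nonneg (ph_nonneg _) (hw.pos y).le) (B_mono (Nat.zero_le _)) (B_fin 0)
      have a3 := stepX_ge h.par g (m := j + 1) (by omega)
      have a4 := h.pred.X1
      have a5 := pw_anti hj'
      rw [show j + 2 = (j + 1) + 1 by ring, pw_succ (j + 1), pw_succ] at a5
      rw [pw_succ] at a3
      nlinarith
    rw [e1, mul_one]
    calc (1 / 8 : ℝ) = (2 * pw j)⁻¹ * (pw j / 4) := by field_simp; norm_num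
      _ ≤ _ := mul_le_mul_of_nonneg_left e2 (by positivity)
  rw [Finset.sum_const, Finset.card_range, nsmul_eq_mul] at h1
  have h3 : ((K - 1 : ℕ) : ℝ) = K - 1 := by
    rw [Nat.cast_sub h.par.hK1]; simp
  rw [h3] at h1
  linarith

/-- The testing quantity. -/
noncomputable def ZZ (K M g : ℕ) : ℝ :=
  ∫ x in B 0, TT K g (ww K M g) x ^ 2 * (ww K M g x)⁻¹

lemma ZZ_BM (h : Par K M) (g : ℕ) : BM (fun x => TT K g (ww K M g) x ^ 2 * (ww K M g x)⁻¹) := by
  have h1 := TT_BM h.hK1 g (ww_WB h g).bm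
  have h2 := (h1.mul h1).mul (ww_WB h g).inv
  simpa only [sq] using h2

lemma ZZ_nonneg (h : Par K M) (g : ℕ) : 0 ≤ ZZ K M g :=
  integral_nonneg (fun x => mul_nonneg (sq_nonneg _) (inv_pos.mpr ((ww_WB h g).pos x)).le)

lemma ZZ_step {g : ℕ} (h : Good K M (g + 1)) :
    (1 - pw K) * ZZ K M g + (K / 16) ^ 2 * (M * pw K) ≤ ZZ K M (g + 1) := by
  have hw := ww_WB h.par (g + 1)
  have hw' := ww_WB h.par g
  have hK1 := h.par.hK1
  have hK2 := h.par.K2
  have hp := pw_pos K
  have key := zl_ge (ZZ_BM h.par (g + 1))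
    (fun i => (pw i - pw K) * ZZ K M g + (K / 16) ^ 2 * (M * pw K)) (Nat.zero_le K) ?_ ?_
  · simp only [pw_zero] at key
    exact key
  · intro i _ hi
    have hl := lm_pos hK1 i
    have b1 : ∫ x in ch K i, TT K (g + 1) (ww K M (g + 1)) x ^ 2 * (ww K M (g + 1) x)⁻¹ ≤
        ∫ x in Z i, TT K (g + 1) (ww K M (g + 1)) x ^ 2 * (ww K M (g + 1) x)⁻¹ :=
      si_mono (ZZ_BM h.par (g + 1))
        (fun x => mul_nonneg (sq_nonneg _) (inv_pos.mpr (hw.pos x)).le) (ch_sub_Z hK1 i) (Z_fin i)
    have hchf : volume (ch K i) ≠ ⊤ :=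
      ne_top_of_le_ne_top (Z_fin i) (measure_mono (ch_sub_Z hK1 i))
    have b2 : ∫ x in ch K i, 8 * K * (TT K g (ww K M g) ((x - cc i) / lm K i) ^ 2 *
        (ww K M g ((x - cc i) / lm K i))⁻¹) ≤
        ∫ x in ch K i, TT K (g + 1) (ww K M (g + 1)) x ^ 2 * (ww K M (g + 1) x)⁻¹ := by
      apply setIntegral_mono_on _ ((ZZ_BM h.par (g + 1)).int hchf) (ch_meas i)
      · intro x hx
        have c1 := low_child h.par g hi x
        rw [ww_ch hK1 g hi hx]
        have c2 := TT_nonneg hK1 g (fun z => (hw'.pos z).le) ((x - cc i) / lm K i)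
        have c3 := hw'.pos ((x - cc i) / lm K i)
        have c4 : (8 * K * TT K g (ww K M g) ((x - cc i) / lm K i)) ^ 2 ≤
            TT K (g + 1) (ww K M (g + 1)) x ^ 2 := pow_le_pow_left₀ (by positivity) c1 2
        calc 8 * K * (TT K g (ww K M g) ((x - cc i) / lm K i) ^ 2 *
              (ww K M g ((x - cc i) / lm K i))⁻¹)
            = (8 * K * TT K g (ww K M g) ((x - cc i) / lm K i)) ^ 2 *
              (8 * K * ww K M g ((x - cc i) / lm K i))⁻¹ := by field_simp
          _ ≤ _ := mul_le_mul_of_nonneg_right c4 (by positivity)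
      · exact (((ZZ_BM h.par g).comp
          (by fun_prop : Measurable (fun x : ℝ => (x - cc i) / lm K i))).int hchf).const_mul _
    have b3 := si_child (i := i) hK1
      (fun x => 8 * K * (TT K g (ww K M g) ((x - cc i) / lm K i) ^ 2 *
        (ww K M g ((x - cc i) / lm K i))⁻¹))
      (fun y => 8 * K * (TT K g (ww K M g) y ^ 2 * (ww K M g y)⁻¹)) Set.univ
      (fun x _ => rfl) MeasurableSet.univ
    simp only [Set.univ_inter, Set.mem_univ] at b3
    have h4 : {y : ℝ | True} ∩ B 0 = B 0 := by ext y; simp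
    rw [h4, integral_const_mul, integral_const_mul] at b3
    have b4 : lm K i * (8 * K * ∫ y in B 0, TT K g (ww K M g) y ^ 2 * (ww K M g y)⁻¹) =
        pw (i + 1) * ZZ K M g := by
      rw [← mul_assoc, lm_mul hK1]; rfl
    rw [integral_const_mul, b3, b4] at b2
    refine le_trans (le_of_eq ?_) (b2.trans b1)
    rw [pw_succ]
    ring
  · simp only [sub_self, zero_mul, zero_add]
    have b1 : (K / 16 : ℝ) ^ 2 * (∫ x in B K, (bb K M x)⁻¹) ≤
        ∫ x in B K, TT K (g + 1) (ww K M (g + 1)) x ^ 2 * (ww K M (g + 1) x)⁻¹ := by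
      rw [← integral_const_mul]
      apply setIntegral_mono_on (((bb_WB h.par).inv.int (B_fin K)).const_mul _)
        ((ZZ_BM h.par (g + 1)).int (B_fin K)) (B_meas K)
      intro x hx
      rw [ww_core hK1 g hx]
      have c1 := low_core h hx
      have c2 := (bb_WB h.par).pos x
      have c3 : (K / 16 : ℝ) ^ 2 ≤ TT K (g + 1) (ww K M (g + 1)) x ^ 2 :=
        pow_le_pow_left₀ (by positivity) c1 2
      exact mul_le_mul_of_nonneg_right c3 (by positivity)
    refine le_trans ?_ b1
    exact mul_le_mul_of_nonneg_left (coreY_ge h.par) (by positivity)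

lemma ZZ_low {g : ℕ} (h : Good K M g) :
    (K / 16) ^ 2 * (M * pw K) * (g * (1 - g * pw K)) ≤ ZZ K M g := by
  induction g with
  | zero => simpa using ZZ_nonneg h.par 0
  | succ g ih =>
    have h1 := ih h.pred
    have h2 := ZZ_step h
    have hp := pw_pos K
    have h4 := h.par.p4
    set κ : ℝ := (K / 16) ^ 2 * (M * pw K) with hκ
    have hκ0 : 0 ≤ κ := by positivity
    have hg0 : (0:ℝ) ≤ g := Nat.cast_nonneg g
    have h3 : (1 - pw K) * (κ * (g * (1 - g * pw K))) ≤ (1 - pw K) * ZZ K M g :=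
      mul_le_mul_of_nonneg_left h1 (by linarith)
    refine le_trans ?_ h2
    refine le_trans ?_ (add_le_add h3 le_rfl)
    push_cast
    have e1 : (1 - pw K) * (κ * (g * (1 - g * pw K))) + κ -
      κ * ((g + 1) * (1 - (g + 1) * pw K)) = κ * (pw K * (g + 1) + g ^ 2 * pw K ^ 2) := by ring
    have e2 : 0 ≤ κ * (pw K * (g + 1) + g ^ 2 * pw K ^ 2) := by positivity
    linarith

end

end Pool.Agent.H433R3.Ce
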