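import Pool.Agent.H433R3.Ce5
import Pool.Agent.H433R3.Ce8

/-!
# The endpoint `α = 0`: Schur test, duality
-/

set_option autoImplicit false

namespace Pool.Agent.H433R3.Ce

open MeasureTheory
open scoped ENNReal NNReal

/-- Schur's test. -/
lemma schur_abs {α : Type*} [MeasurableSpace α] {μ : Measure α} [SFinite μ] (k : α → α → ℝ≥0∞)
    (hk : Measurable (fun q : α × α => k q.1 q.2)) (hs : ∀ x y, k x y = k y x) (h : α → ℝ≥0∞)
    (hm : Measurable h) (h0 : ∀ x, h x ≠ 0) (ht : ∀ x, h x ≠ ⊤) (A : ℝ≥0∞)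
    (hA : ∀ x, ∫⁻ y, k x y * h y ∂μ ≤ A * h x) (f : α → ℝ≥0∞) (hf : Measurable f) :
    ∫⁻ x, (∫⁻ y, k x y * f y ∂μ) ^ 2 ∂μ ≤ A ^ 2 * ∫⁻ x, f x ^ 2 ∂μ := by
  have hkx : ∀ x, Measurable (fun y => k x y) := fun x => hk.comp measurable_prodMk_left
  have hky : ∀ y, Measurable (fun x => k x y) := fun y => hk.comp measurable_prodMk_right
  set r : α → ℝ≥0∞ := fun y => f y / h y with hr
  have hrm : Measurable r := hf.div hm
  have hhr : ∀ y, h y * r y = f y := fun y => by
    rw [hr]; exact ENNReal.mul_div_cancel (h0 y) (ht y)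
  have cs : ∀ x, (∫⁻ y, k x y * f y ∂μ) ^ 2 ≤
      (A * h x) * ∫⁻ y, k x y * h y * r y ^ 2 ∂μ := by
    intro x
    have e1 : ∫⁻ y, k x y * f y ∂μ =
        ∫⁻ y, ((fun y => (k x y * h y) ^ (1 / 2 : ℝ)) *
          (fun y => (k x y * h y) ^ (1 / 2 : ℝ) * r y)) y ∂μ := by
      apply lintegral_congr
      intro y
      simp only [Pi.mul_apply]
      rw [← mul_assoc, ← ENNReal.rpow_add_of_nonneg _ _ (by norm_num) (by norm_num)]
      norm_num
      rw [mul_assoc, hhr]
    have h2 : Real.HolderConjugate 2 2 := Real.HolderConjugate.two_two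
    have e2 := ENNReal.lintegral_mul_le_Lp_mul_Lq μ h2
      (f := fun y => (k x y * h y) ^ (1 / 2 : ℝ))
      (g := fun y => (k x y * h y) ^ (1 / 2 : ℝ) * r y)
      (((hkx x).mul hm).pow_const _).aemeasurable
      ((((hkx x).mul hm).pow_const _).mul hrm).aemeasurable
    rw [← e1] at e2
    have e3 : ∀ y, ((k x y * h y) ^ (1 / 2 : ℝ)) ^ (2 : ℝ) = k x y * h y := by
      intro y
      rw [← ENNReal.rpow_mul]
      norm_num
    have e4 : ∀ y, ((k x y * h y) ^ (1 / 2 : ℝ) * r y) ^ (2 : ℝ) = k x y * h y * r y ^ 2 := by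
      intro y
      rw [ENNReal.mul_rpow_of_nonneg _ _ (by norm_num), e3, ENNReal.rpow_two]
    simp only [e3, e4] at e2
    have e5 := pow_le_pow_left' e2 2
    rw [mul_pow, ← ENNReal.rpow_two, ← ENNReal.rpow_two, ← ENNReal.rpow_two,
      ← ENNReal.rpow_mul, ← ENNReal.rpow_mul] at e5
    norm_num at e5
    refine le_trans (by exact_mod_cast e5) ?_
    exact mul_le_mul_left (hA x) _
  calc ∫⁻ x, (∫⁻ y, k x y * f y ∂μ) ^ 2 ∂μ
      ≤ ∫⁻ x, (A * h x) * ∫⁻ y, k x y * h y * r y ^ 2 ∂μ ∂μ := lintegral_mono cs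
    _ = ∫⁻ x, ∫⁻ y, (A * h x) * (k x y * h y * r y ^ 2) ∂μ ∂μ := by
        apply lintegral_congr
        intro x
        rw [lintegral_const_mul]
        exact ((hkx x).mul hm).mul (hrm.pow_const 2)
    _ = ∫⁻ y, ∫⁻ x, (A * h x) * (k x y * h y * r y ^ 2) ∂μ ∂μ := by
        apply lintegral_lintegral_swap
        apply Measurable.aemeasurable
        have g1 : Measurable (fun q : α × α => A * h q.1) :=
          (hm.comp measurable_fst).const_mul A
        have g2 : Measurable (fun q : α × α => k q.1 q.2 * h q.2 * r q.2 ^ 2) :=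
          (hk.mul (hm.comp measurable_snd)).mul ((hrm.comp measurable_snd).pow_const 2)
        exact g1.mul g2
    _ = ∫⁻ y, (A * (h y * r y ^ 2)) * ∫⁻ x, k y x * h x ∂μ ∂μ := by
        apply lintegral_congr
        intro y
        rw [← lintegral_const_mul]
        · apply lintegral_congr
          intro x
          rw [hs x y]
          ring
        · exact (hkx y).mul hm
    _ ≤ ∫⁻ y, (A * (h y * r y ^ 2)) * (A * h y) ∂μ := by
        apply lintegral_mono
        intro y
        exact mul_le_mul_right (hA y) _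
    _ = ∫⁻ y, A ^ 2 * f y ^ 2 ∂μ := by
        apply lintegral_congr
        intro y
        rw [← hhr y]
        ring
    _ = A ^ 2 * ∫⁻ x, f x ^ 2 ∂μ := by
        rw [lintegral_const_mul]
        exact hf.pow_const 2

section
variable {K M : ℕ}

/-- The dual test function. -/
noncomputable def FF (K M g : ℕ) (x : ℝ) : ℝ :=
  (B 0).indicator (fun x => TT K g (ww K M g) x * (ww K M g x)⁻¹) x

lemma FF_nonneg (h : Par K M) (g : ℕ) (x : ℝ) : 0 ≤ FF K M g x := by
  unfold FF
  apply Set.indicator_nonneg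
  intro x _
  exact mul_nonneg (TT_nonneg h.hK1 g (fun z => ((ww_WB h g).pos z).le) x)
    (inv_pos.mpr ((ww_WB h g).pos x)).le

lemma FF_BM (h : Par K M) (g : ℕ) : BM (FF K M g) := by
  have h1 := (TT_BM h.hK1 g (ww_WB h g).bm).mul (ww_WB h g).inv
  obtain ⟨C, hC⟩ := h1.b
  refine ⟨h1.m.indicator (B_meas 0), C, fun x => ?_⟩
  unfold FF
  by_cases hx : x ∈ B 0
  · rw [Set.indicator_of_mem hx]; exact hC x
  · rw [Set.indicator_of_notMem hx, abs_zero]; exact (abs_nonneg _).trans (hC x)

/-- The weighted measure on the unit interval. -/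
noncomputable def mw (K M g : ℕ) : Measure ℝ :=
  (volume.restrict (B 0)).withDensity (fun x => ENNReal.ofReal (ww K M g x))

lemma lint_mw (h : Par K M) (g : ℕ) {f : ℝ → ℝ≥0∞} (hf : Measurable f) :
    ∫⁻ x, f x ∂(mw K M g) = ∫⁻ x in B 0, ENNReal.ofReal (ww K M g x) * f x := by
  unfold mw
  rw [lintegral_withDensity_eq_lintegral_mul _ (ww_WB h g).m.ennreal_ofReal hf]
  rfl

lemma FF_sq (h : Par K M) (g : ℕ) :
    ∫⁻ x, ENNReal.ofReal (FF K M g x) ^ 2 ∂(mw K M g) = ENNReal.ofReal (ZZ K M g) := by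
  rw [lint_mw h g ((FF_BM h g).m.ennreal_ofReal.pow_const 2)]
  unfold ZZ
  rw [ofReal_integral_eq_lintegral_ofReal ((ZZ_BM h g).int (B_fin 0))
    (ae_of_all _ (fun x => mul_nonneg (sq_nonneg _) (inv_pos.mpr ((ww_WB h g).pos x)).le))]
  apply setLIntegral_congr_fun (B_meas 0)
  intro x hx
  have hw := (ww_WB h g).pos x
  have hT := TT_nonneg h.hK1 g (fun z => ((ww_WB h g).pos z).le) x
  unfold FF
  simp only [Set.indicator_of_mem hx]
  rw [← ENNReal.ofReal_pow (by positivity), ← ENNReal.ofReal_mul hw.le]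
  congr 1
  field_simp

lemma dual_id (h : Par K M) (g : ℕ) :
    ∫⁻ x, ENNReal.ofReal (TT K g (FF K M g) x) ∂(mw K M g) = ENNReal.ofReal (ZZ K M g) := by
  have hK1 := h.hK1
  have hF := FF_BM h g
  have hF0 := FF_nonneg h g
  have hw := ww_WB h g
  have e1 : ∀ {f : ℝ → ℝ}, BM f → (∀ x, 0 ≤ f x) → ∀ x, ENNReal.ofReal (TT K g f x) =
      ∫⁻ y in B 0, ENNReal.ofReal (kk K g x y) * ENNReal.ofReal (f y) := by
    intro f hf hf0 x
    unfold TT
    rw [ofReal_integral_eq_lintegral_ofReal (((kk_BM hK1 g x).mul hf).int (B_fin 0))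
      (ae_of_all _ (fun y => mul_nonneg (kk_nonneg hK1 g x y) (hf0 y)))]
    apply lintegral_congr
    intro y
    rw [ENNReal.ofReal_mul (kk_nonneg hK1 g x y)]
  rw [lint_mw h g (TT_meas g hF.m).ennreal_ofReal]
  have hkm : Measurable (fun q : ℝ × ℝ => ENNReal.ofReal (kk K g q.1 q.2)) :=
    (kk_meas g).ennreal_ofReal
  calc ∫⁻ x in B 0, ENNReal.ofReal (ww K M g x) * ENNReal.ofReal (TT K g (FF K M g) x)
      = ∫⁻ x in B 0, ∫⁻ y in B 0, ENNReal.ofReal (ww K M g x) *
          (ENNReal.ofReal (kk K g x y) * ENNReal.ofReal (FF K M g y)) := by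
        apply lintegral_congr
        intro x
        rw [e1 hF hF0, lintegral_const_mul]
        exact (kk_BM hK1 g x).m.ennreal_ofReal.mul hF.m.ennreal_ofReal
    _ = ∫⁻ y in B 0, ∫⁻ x in B 0, ENNReal.ofReal (ww K M g x) *
          (ENNReal.ofReal (kk K g x y) * ENNReal.ofReal (FF K M g y)) := by
        apply lintegral_lintegral_swap
        apply Measurable.aemeasurable
        exact (hw.m.ennreal_ofReal.comp measurable_fst).mul
          (hkm.mul (hF.m.ennreal_ofReal.comp measurable_snd))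
    _ = ∫⁻ y in B 0, ENNReal.ofReal (FF K M g y) *
          ENNReal.ofReal (TT K g (ww K M g) y) := by
        apply lintegral_congr
        intro y
        rw [e1 hw.bm (fun x => (hw.pos x).le), ← lintegral_const_mul]
        · apply lintegral_congr
          intro x
          rw [kk_symm g x y]
          ring
        · exact (kk_BM hK1 g y).m.ennreal_ofReal.mul hw.m.ennreal_ofReal
    _ = ENNReal.ofReal (ZZ K M g) := by
        unfold ZZ
        rw [ofReal_integral_eq_lintegral_ofReal ((ZZ_BM h g).int (B_fin 0))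
          (ae_of_all _ (fun x => mul_nonneg (sq_nonneg _) (inv_pos.mpr (hw.pos x)).le))]
        apply setLIntegral_congr_fun (B_meas 0)
        intro x hx
        have hwx := hw.pos x
        have hT := TT_nonneg h.hK1 g (fun z => (hw.pos z).le) x
        unfold FF
        simp only [Set.indicator_of_mem hx]
        rw [← ENNReal.ofReal_mul (by positivity)]
        congr 1
        field_simp

lemma mw_univ {g : ℕ} (h : Good K M g) : mw K M g Set.univ ≤ ENNReal.ofReal 5 := by
  have h1 := lint_mw h.par g (measurable_const (a := (1:ℝ≥0∞)))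
  rw [lintegral_one] at h1
  rw [h1]
  simp only [mul_one]
  rw [← ofReal_integral_eq_lintegral_ofReal ((ww_WB h.par g).bm.int (B_fin 0))
    (ae_of_all _ (fun x => ((ww_WB h.par g).pos x).le))]
  exact ENNReal.ofReal_le_ofReal h.X5

/-- From the weak type inequality for the dual test function to a bound for the testing
quantity. -/
lemma weak_to_Z {g : ℕ} (h : Good K M g) {a : ℝ} (ha : 0 ≤ a)
    (hweak : ∀ t : ℝ, 0 < t → ENNReal.ofReal t ^ 2 * mw K M g {x | t < TT K g (FF K M g) x} ≤
      ENNReal.ofReal (a * ZZ K M g)) : ZZ K M g ≤ 20 * a := by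
  have hZ0 := ZZ_nonneg h.par g
  rcases hZ0.eq_or_lt with hZ | hZ
  · rw [← hZ]; positivity
  set G := TT K g (FF K M g) with hG
  set Q := ZZ K M g with hQ
  have hG0 : ∀ x, 0 ≤ G x := TT_nonneg h.par.hK1 g (FF_nonneg h.par g)
  have h1 := dual_id h.par g
  rw [← hG, ← hQ, lintegral_eq_lintegral_meas_lt _ (ae_of_all _ hG0)
    (TT_meas g (FF_BM h.par g).m).aemeasurable] at h1
  set s : ℝ := Q / 10 with hs
  have hs0 : 0 < s := by positivity
  have h2 : ∫⁻ t in Set.Ioi (0:ℝ), mw K M g {x | t < G x} ≤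
      ENNReal.ofReal (5 * s) + ENNReal.ofReal (a * Q / s) := by
    rw [← Set.Ioc_union_Ioi_eq_Ioi hs0.le]
    refine (lintegral_union_le _ _ _).trans ?_
    apply add_le_add
    · calc ∫⁻ t in Set.Ioc 0 s, mw K M g {x | t < G x}
          ≤ ∫⁻ _ in Set.Ioc (0:ℝ) s, ENNReal.ofReal 5 := by
            apply lintegral_mono
            intro t
            exact (measure_mono (Set.subset_univ _)).trans (mw_univ h)
        _ = ENNReal.ofReal (5 * s) := by
            rw [setLIntegral_const, Real.volume_Ioc, sub_zero, ← ENNReal.ofReal_mul (by norm_num)]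
    · have e1 : ∀ t ∈ Set.Ioi s, mw K M g {x | t < G x} ≤ ENNReal.ofReal (a * Q * t ^ (-2:ℝ)) := by
        intro t ht
        have ht0 : 0 < t := lt_trans hs0 ht
        have := hweak t ht0
        have e2 : ENNReal.ofReal t ^ 2 ≠ 0 := by
          have := ENNReal.ofReal_pos.mpr ht0
          positivity
        have e3 : ENNReal.ofReal t ^ 2 ≠ ⊤ := ENNReal.pow_ne_top ENNReal.ofReal_ne_top
        have e4 : mw K M g {x | t < G x} ≤ ENNReal.ofReal (a * Q) / ENNReal.ofReal t ^ 2 := by
          rw [ENNReal.le_div_iff_mul_le (Or.inl e2) (Or.inl e3), mul_comm]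
          exact this
        refine e4.trans (le_of_eq ?_)
        rw [← ENNReal.ofReal_pow ht0.le, ← ENNReal.ofReal_div_of_pos (by positivity)]
        congr 1
        rw [Real.rpow_neg ht0.le, Real.rpow_two]
        rfl
      calc ∫⁻ t in Set.Ioi s, mw K M g {x | t < G x}
          ≤ ∫⁻ t in Set.Ioi s, ENNReal.ofReal (a * Q * t ^ (-2:ℝ)) :=
            setLIntegral_mono' measurableSet_Ioi e1
        _ = ENNReal.ofReal (∫ t in Set.Ioi s, a * Q * t ^ (-2:ℝ)) := by
            rw [ofReal_integral_eq_lintegral_ofReal]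
            · exact (integrableOn_Ioi_rpow_of_lt (by norm_num) hs0).const_mul _
            · refine (ae_restrict_iff' measurableSet_Ioi).mpr (ae_of_all _ (fun t ht => ?_))
              have ht0 : 0 < t := lt_trans hs0 ht
              show 0 ≤ a * Q * t ^ (-2:ℝ)
              positivity
        _ = ENNReal.ofReal (a * Q / s) := by
            rw [integral_const_mul, integral_Ioi_rpow_of_lt (by norm_num) hs0]
            congr 1
            have : (-2:ℝ) + 1 = -1 := by norm_num
            rw [this, Real.rpow_neg_one]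
            field_simp
  rw [h1, ← ENNReal.ofReal_add (by positivity) (by positivity)] at h2
  rw [ENNReal.ofReal_le_ofReal_iff (by positivity)] at h2
  have h3 : a * Q / s = 10 * a := by rw [hs]; field_simp
  rw [h3, hs] at h2
  linarith

end

end Pool.Agent.H433R3.Ce
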