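import Pool.Agent.H433R3.Ce11

/-!
# The one-supremum weak type bound fails at the endpoint `α = 0`

The definitions (`IsCZO`, `MemAp`, `oneSup`, `wm`, ...) are in `Pool.Agent.H433R3.Ml12`.
-/

set_option autoImplicit false

namespace Pool.Agent.H433R3.CeFinal

open MeasureTheory Pool.Agent.H433R3.MixedSup
open scoped ENNReal NNReal

/-- **The one-supremum weak type bound fails for `α = 0`, `p = 2`, `n = 1`.** There is a
Calderon-Zygmund operator `T` on `ℝ` for which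
`‖T‖_{L²(w) → L^{2,∞}(w)} ≤ C [w]_{(A_2)^{1/2} (A_∞^exp)^{1/2}}` fails for every constant `C`. -/
theorem result :
    ∃ (T : ((Fin 1 → ℝ) → ℝ) → ((Fin 1 → ℝ) → ℝ)) (K : (Fin 1 → ℝ) → (Fin 1 → ℝ) → ℝ),
      IsCZO T K ∧
      ¬ ∃ C : ℝ≥0, ∀ w : (Fin 1 → ℝ) → ℝ, MemAp 2 w →
        ∀ f : (Fin 1 → ℝ) → ℝ, MemLp f 2 volume → MemLp f (ENNReal.ofReal 2) (wm w) →
          ∀ lam : ℝ≥0, (lam : ℝ≥0∞) * wm w {x | (lam : ℝ≥0∞) < ‖T f x‖ₑ} ^ (1 / 2 : ℝ) ≤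
            C * oneSup 2 (1 / 2) (1 / 2) w * eLpNorm f (ENNReal.ofReal 2) (wm w) :=
  ⟨Pool.Agent.H433R3.Ce.TG, Pool.Agent.H433R3.Ce.KK, Pool.Agent.H433R3.Ce.TG_czo,
    Pool.Agent.H433R3.Ce.endpoint⟩

end Pool.Agent.H433R3.CeFinal
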