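import Mathlib

set_option autoImplicit false
open MeasureTheory

namespace Pool.Agent.H433R3.Haar

abbrev D := {p : ℕ × ℕ // p.2 < 2 ^ p.1}

theorem fract_integral : ∫ t in (0:ℝ)..1, Int.fract t = 1 / 2 := by
  have : ∫ t in (0:ℝ)..1, Int.fract t = ∫ t in (0:ℝ)..1, t := by
    apply intervalIntegral.integral_congr_ae
    have h1 : ∀ᵐ x : ℝ, x ≠ 1 := by
      rw [ae_iff]; simp
    filter_upwards [h1] with x hx hx2
    rw [Set.uIoc_of_le (by norm_num)] at hx2
    rw [Int.fract_eq_self]
    exact ⟨hx2.1.le, lt_of_le_of_ne hx2.2 hx⟩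
  rw [this, integral_id]; norm_num

theorem fract_int (a b : ℝ) : IntervalIntegrable (fun t : ℝ => Int.fract t) volume a b := by
  have h1 : IntervalIntegrable (fun t : ℝ => (⌊t⌋ : ℝ)) volume a b := by
    apply Monotone.intervalIntegrable
    intro x y hxy
    simp only [Int.cast_le]
    exact Int.floor_mono hxy
  have : (fun t : ℝ => Int.fract t) = fun t => t - (⌊t⌋ : ℝ) := by
    ext t; rfl
  rw [this]
  exact intervalIntegral.intervalIntegrable_id.sub h1

theorem floor_int (y a b : ℝ) : IntervalIntegrable (fun t : ℝ => (⌊y + t⌋ : ℝ)) volume a b := by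
  apply Monotone.intervalIntegrable
  intro x z hxz
  simp only [Int.cast_le]
  exact Int.floor_mono (by linarith)

theorem floor_integral (y : ℝ) : ∫ θ in (0:ℝ)..1, (⌊y + θ⌋ : ℝ) = y := by
  have h1 : ∀ θ : ℝ, (⌊y + θ⌋ : ℝ) = (y + θ) - Int.fract (y + θ) := fun θ => by
    rw [Int.fract]; ring
  simp_rw [h1]
  have hf : IntervalIntegrable (fun t : ℝ => Int.fract (y + t)) volume 0 1 := by
    have : (fun t : ℝ => Int.fract (y + t)) = fun t => (y + t) - (⌊y + t⌋ : ℝ) := by
      ext t; rfl
    rw [this]
    exact ((intervalIntegrable_const).add intervalIntegral.intervalIntegrable_id).sub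
      (floor_int y 0 1)
  rw [intervalIntegral.integral_sub
    ((intervalIntegrable_const).add intervalIntegral.intervalIntegrable_id) hf]
  have h2 : ∫ θ in (0:ℝ)..1, Int.fract (y + θ) = 1 / 2 := by
    rw [intervalIntegral.integral_comp_add_left (fun t => Int.fract t) y]
    have hp : Function.Periodic (fun t : ℝ => Int.fract t) 1 := fun t => Int.fract_add_one t
    have := hp.intervalIntegral_add_eq y 0
    rw [add_zero, this, zero_add, fract_integral]
  rw [h2, intervalIntegral.integral_add intervalIntegrable_const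
    intervalIntegral.intervalIntegrable_id]
  simp [integral_id]

end Pool.Agent.H433R3.Haar
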