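import Mathlib

set_option autoImplicit false

namespace Pool.Agent.H433R3.Haar

abbrev DD := {p : ℕ × ℕ // p.2 < 2 ^ p.1}

/-- `Sub I J`: the dyadic interval `J` is contained in `I`. -/
def Sub (I J : DD) : Prop := I.1.1 ≤ J.1.1 ∧ J.1.2 / 2 ^ (J.1.1 - I.1.1) = I.1.2

instance (I J : DD) : Decidable (Sub I J) := by unfold Sub; infer_instance

def left (I : DD) : DD := ⟨(I.1.1 + 1, 2 * I.1.2), by
  have := I.2; simp only [pow_succ] at *; omega⟩

def right (I : DD) : DD := ⟨(I.1.1 + 1, 2 * I.1.2 + 1), by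
  have := I.2; simp only [pow_succ] at *; omega⟩

theorem sub_iff (I J : DD) (h : J ≠ I) : Sub I J ↔ (Sub (left I) J ∨ Sub (right I) J) := by
  unfold Sub left right
  constructor
  · rintro ⟨h1, h2⟩
    have h3 : I.1.1 + 1 ≤ J.1.1 := by
      rcases Nat.lt_or_ge I.1.1 J.1.1 with h4 | h4
      · exact h4
      · exfalso
        have h5 : I.1.1 = J.1.1 := le_antisymm h1 h4
        apply h
        apply Subtype.ext
        apply Prod.ext h5.symm
        rw [h5] at h2
        simpa using h2
    have h6 : J.1.1 - I.1.1 = (J.1.1 - (I.1.1 + 1)) + 1 := by omega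
    rw [h6, pow_succ, ← Nat.div_div_eq_div_mul] at h2
    simp only [h3, true_and]
    omega
  · rintro (⟨h1, h2⟩ | ⟨h1, h2⟩)
    · simp only at h1 h2
      refine ⟨by omega, ?_⟩
      have h6 : J.1.1 - I.1.1 = (J.1.1 - (I.1.1 + 1)) + 1 := by omega
      rw [h6, pow_succ, ← Nat.div_div_eq_div_mul, h2]
      omega
    · simp only at h1 h2
      refine ⟨by omega, ?_⟩
      have h6 : J.1.1 - I.1.1 = (J.1.1 - (I.1.1 + 1)) + 1 := by omega
      rw [h6, pow_succ, ← Nat.div_div_eq_div_mul, h2]
      omega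

theorem not_both (I J : DD) : ¬ (Sub (left I) J ∧ Sub (right I) J) := by
  unfold Sub left right
  rintro ⟨⟨_, h1⟩, ⟨_, h2⟩⟩
  simp only at h1 h2
  omega

/-- sum over members of `F` inside `I` -/
noncomputable def W (F : Finset DD) (I : DD) : ℝ :=
  ∑ J ∈ F, if Sub I J then ((2:ℝ) ^ J.1.1)⁻¹ else 0

theorem W_split (F : Finset DD) (I : DD) (h : I ∉ F) : W F I = W F (left I) + W F (right I) := by
  unfold W
  rw [← Finset.sum_add_distrib]
  apply Finset.sum_congr rfl
  intro J hJ
  have hne : J ≠ I := fun e => h (e ▸ hJ)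
  have h1 := sub_iff I J hne
  have h2 := not_both I J
  by_cases ha : Sub (left I) J <;> by_cases hb : Sub (right I) J <;> simp_all

theorem W_nonneg (F : Finset DD) (I : DD) : 0 ≤ W F I := by
  unfold W
  apply Finset.sum_nonneg
  intro J _
  split_ifs <;> positivity

theorem W_le (F : Finset DD) (M : ℝ) (hM : 0 ≤ M) (h : ∀ I ∈ F, (2:ℝ) ^ I.1.1 * W F I ≤ M) (I : DD) :
    (2:ℝ) ^ I.1.1 * W F I ≤ M := by
  obtain ⟨N, hN⟩ : ∃ N : ℕ, ∀ J ∈ F, J.1.1 < N := by
    refine ⟨F.sup (fun J => J.1.1) + 1, fun J hJ => ?_⟩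
    exact Nat.lt_succ_of_le (Finset.le_sup (f := fun J : DD => J.1.1) hJ)
  have key : ∀ k : ℕ, ∀ I : DD, N ≤ I.1.1 + k → (2:ℝ) ^ I.1.1 * W F I ≤ M := by
    intro k
    induction k with
    | zero =>
      intro I hI
      have : W F I = 0 := by
        unfold W
        apply Finset.sum_eq_zero
        intro J hJ
        rw [if_neg]
        rintro ⟨h1, _⟩
        have := hN J hJ
        omega
      rw [this, mul_zero]; exact hM
    | succ k ih =>
      intro I hI
      by_cases hIF : I ∈ F
      · exact h I hIF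
      · rw [W_split F I hIF]
        have h1 := ih (left I) (by simp only [left]; omega)
        have h2 := ih (right I) (by simp only [right]; omega)
        simp only [left, right, pow_succ] at h1 h2
        simp only [left, right]
        nlinarith
  exact key N I (by omega)

end Pool.Agent.H433R3.Haar
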