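import Mathlib
import Pool.Agent.H433R3.Haar1
import Pool.Agent.H433R3.Haar2

set_option autoImplicit false
open MeasureTheory

namespace Pool.Agent.H433R3.Haar

noncomputable def yy (x : DD → ℝ) (n k : ℕ) : ℝ := if h : k < 2 ^ n then x ⟨(n, k), h⟩ else 0

noncomputable def SS (x : DD → ℝ) (n k : ℕ) : ℝ := ∑ j ∈ Finset.range k, yy x n j

noncomputable def hh (x : DD → ℝ) (θ : ℝ) (n k : ℕ) : ℤ := ⌊SS x n (k + 1) + θ⌋ - ⌊SS x n k + θ⌋

theorem SS_succ (x : DD → ℝ) (n k : ℕ) : SS x n (k + 1) = SS x n k + yy x n k := by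
  unfold SS; rw [Finset.sum_range_succ]

theorem yy_nonneg (x : DD → ℝ) (hx : ∀ J, 0 ≤ x J) (n k : ℕ) : 0 ≤ yy x n k := by
  unfold yy; split_ifs
  · exact hx _
  · exact le_rfl

theorem yy_le (x : DD → ℝ) (hx : ∀ J, x J ≤ 1) (n k : ℕ) : yy x n k ≤ 1 := by
  unfold yy; split_ifs
  · exact hx _
  · norm_num

theorem yy_self (x : DD → ℝ) (J : DD) : yy x J.1.1 J.1.2 = x J := by
  unfold yy; rw [dif_pos J.2]

theorem hh_nonneg (x : DD → ℝ) (hx : ∀ J, 0 ≤ x J) (θ : ℝ) (n k : ℕ) : 0 ≤ hh x θ n k := by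
  unfold hh
  rw [SS_succ]
  have := yy_nonneg x hx n k
  have h2 : ⌊SS x n k + θ⌋ ≤ ⌊SS x n k + yy x n k + θ⌋ := Int.floor_mono (by linarith)
  linarith

theorem hh_le (x : DD → ℝ) (hx : ∀ J, x J ≤ 1) (θ : ℝ) (n k : ℕ) : hh x θ n k ≤ 1 := by
  unfold hh
  rw [SS_succ]
  have := yy_le x hx n k
  have h2 : ⌊SS x n k + yy x n k + θ⌋ ≤ ⌊SS x n k + θ + 1⌋ := Int.floor_mono (by linarith)
  rw [Int.floor_add_one] at h2
  linarith

theorem hh_zero (x : DD → ℝ) (θ : ℝ) (n k : ℕ) (h : yy x n k = 0) : hh x θ n k = 0 := by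
  unfold hh
  rw [SS_succ, h, add_zero, sub_self]

theorem hh_sum (x : DD → ℝ) (θ : ℝ) (n a b : ℕ) (hab : a ≤ b) :
    ∑ k ∈ Finset.Ico a b, hh x θ n k = ⌊SS x n b + θ⌋ - ⌊SS x n a + θ⌋ := by
  unfold hh
  exact Finset.sum_Ico_sub (f := fun k => ⌊SS x n k + θ⌋) hab

theorem yy_sum (x : DD → ℝ) (n a b : ℕ) (hab : a ≤ b) :
    ∑ k ∈ Finset.Ico a b, yy x n k = SS x n b - SS x n a := by
  unfold SS
  rw [Finset.sum_Ico_eq_sub _ hab]

theorem hh_sum_le (x : DD → ℝ) (θ : ℝ) (n a b : ℕ) (hab : a ≤ b) :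
    (∑ k ∈ Finset.Ico a b, (hh x θ n k : ℝ)) ≤ ∑ k ∈ Finset.Ico a b, yy x n k + 1 := by
  have h1 := hh_sum x θ n a b hab
  have h2 := yy_sum x n a b hab
  rw [h2]
  have h3 : (∑ k ∈ Finset.Ico a b, (hh x θ n k : ℝ)) = ((⌊SS x n b + θ⌋ - ⌊SS x n a + θ⌋ : ℤ) : ℝ) := by
    rw [← h1]; push_cast; rfl
  rw [h3]
  push_cast
  have h4 := Int.floor_le (SS x n b + θ)
  have h5 := Int.lt_floor_add_one (SS x n a + θ)
  linarith

/-- the block of positions at level `n` inside `I` -/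
theorem mem_block (I : DD) (n k : ℕ) (hn : I.1.1 ≤ n) :
    k / 2 ^ (n - I.1.1) = I.1.2 ↔
      k ∈ Finset.Ico (I.1.2 * 2 ^ (n - I.1.1)) ((I.1.2 + 1) * 2 ^ (n - I.1.1)) := by
  rw [Finset.mem_Ico, Nat.div_eq_iff (by positivity)]
  have : 0 < 2 ^ (n - I.1.1) := by positivity
  constructor
  · rintro ⟨h1, h2⟩
    refine ⟨h1, ?_⟩
    rw [add_mul]; omega
  · rintro ⟨h1, h2⟩
    refine ⟨h1, ?_⟩
    rw [add_mul] at h2; omega

theorem level_le (s : Finset DD) (x : DD → ℝ) (hx0 : ∀ J, 0 ≤ x J) (hs : ∀ J, J ∉ s → x J = 0)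
    (θ : ℝ) (I : DD) (n : ℕ) (hn : I.1.1 ≤ n) :
    ∑ J ∈ s with (J.1.1 = n ∧ Sub I J), (hh x θ J.1.1 J.1.2 : ℝ) ≤
      (∑ J ∈ s with (J.1.1 = n ∧ Sub I J), x J) + 1 := by
  classical
  set A := Finset.filter (fun J : DD => J.1.1 = n ∧ Sub I J) s with hA
  set a := I.1.2 * 2 ^ (n - I.1.1)
  set b := (I.1.2 + 1) * 2 ^ (n - I.1.1)
  have hab : a ≤ b := Nat.mul_le_mul_right _ (by omega)
  have hinj : Set.InjOn (fun J : DD => J.1.2) (A : Set DD) := by
    intro J hJ J' hJ' he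
    simp only [hA, Finset.coe_filter, Set.mem_ofPred_eq] at hJ hJ'
    apply Subtype.ext
    exact Prod.ext (hJ.2.1.trans hJ'.2.1.symm) he
  have hsub : A.image (fun J : DD => J.1.2) ⊆ Finset.Ico a b := by
    intro k hk
    rw [Finset.mem_image] at hk
    obtain ⟨J, hJ, rfl⟩ := hk
    rw [hA, Finset.mem_filter] at hJ
    obtain ⟨_, h1, h2, h3⟩ := hJ
    rw [h1] at h3
    exact (mem_block I n _ hn).1 h3
  have e1 : ∑ J ∈ A, (hh x θ J.1.1 J.1.2 : ℝ) = ∑ k ∈ A.image (fun J : DD => J.1.2), (hh x θ n k : ℝ) := by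
    rw [Finset.sum_image hinj]
    apply Finset.sum_congr rfl
    intro J hJ
    rw [hA, Finset.mem_filter] at hJ
    rw [hJ.2.1]
  have e2 : ∑ J ∈ A, x J = ∑ k ∈ Finset.Ico a b, yy x n k := by
    rw [← Finset.sum_subset hsub, Finset.sum_image hinj]
    · apply Finset.sum_congr rfl
      intro J hJ
      rw [hA, Finset.mem_filter] at hJ
      rw [← hJ.2.1, yy_self]
    · intro k hk hk2
      unfold yy
      split_ifs with h
      · apply hs
        intro hmem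
        apply hk2
        rw [Finset.mem_image]
        refine ⟨⟨(n, k), h⟩, ?_, rfl⟩
        rw [hA, Finset.mem_filter]
        refine ⟨hmem, rfl, hn, ?_⟩
        exact (mem_block I n k hn).2 hk
      · rfl
  rw [e1, e2]
  calc ∑ k ∈ A.image (fun J : DD => J.1.2), (hh x θ n k : ℝ)
      ≤ ∑ k ∈ Finset.Ico a b, (hh x θ n k : ℝ) := by
        apply Finset.sum_le_sum_of_subset_of_nonneg hsub
        intro k _ _
        exact_mod_cast hh_nonneg x hx0 θ n k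
    _ ≤ _ := hh_sum_le x θ n a b hab

/-- the total sampled mass inside `I` -/
theorem mass_le (s : Finset DD) (x : DD → ℝ) (hx0 : ∀ J, 0 ≤ x J) (hs : ∀ J, J ∉ s → x J = 0)
    (hC : ∀ I : DD, (2:ℝ) ^ I.1.1 * ∑ J ∈ s, (if Sub I J then x J / (2:ℝ) ^ J.1.1 else 0) ≤ 1)
    (θ : ℝ) (I : DD) :
    (2:ℝ) ^ I.1.1 * ∑ J ∈ s, (if Sub I J then (hh x θ J.1.1 J.1.2 : ℝ) / (2:ℝ) ^ J.1.1 else 0) ≤ 3 := by
  classical
  obtain ⟨N, hN⟩ : ∃ N : ℕ, ∀ J ∈ s, J.1.1 < N := by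
    refine ⟨s.sup (fun J => J.1.1) + 1, fun J hJ => ?_⟩
    exact Nat.lt_succ_of_le (Finset.le_sup (f := fun J : DD => J.1.1) hJ)
  have hdec : ∀ g : DD → ℝ, ∑ J ∈ s, (if Sub I J then g J / (2:ℝ) ^ J.1.1 else 0) =
      ∑ n ∈ Finset.range N, (∑ J ∈ s with (J.1.1 = n ∧ Sub I J), g J) / (2:ℝ) ^ n := by
    intro g
    rw [← Finset.sum_fiberwise_of_maps_to (s := s) (t := Finset.range N) (g := fun J => J.1.1)
      (fun J hJ => Finset.mem_range.2 (hN J hJ))]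
    apply Finset.sum_congr rfl
    intro n _
    rw [Finset.sum_div, ← Finset.filter_filter, Finset.sum_filter (s := Finset.filter _ s)]
    apply Finset.sum_congr rfl
    intro J hJ
    rw [Finset.mem_filter] at hJ
    rw [hJ.2]
  rw [hdec]
  have h1 : ∀ n ∈ Finset.range N,
      (∑ J ∈ s with (J.1.1 = n ∧ Sub I J), (hh x θ J.1.1 J.1.2 : ℝ)) / (2:ℝ) ^ n ≤
      (∑ J ∈ s with (J.1.1 = n ∧ Sub I J), x J) / (2:ℝ) ^ n + (if I.1.1 ≤ n then ((1:ℝ)/2) ^ n else 0) := by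
    intro n _
    by_cases hn : I.1.1 ≤ n
    · rw [if_pos hn, one_div, inv_pow, ← one_div, ← add_div]
      exact div_le_div_of_nonneg_right (level_le s x hx0 hs θ I n hn) (by positivity)
    · rw [if_neg hn, add_zero]
      have : Finset.filter (fun J : DD => J.1.1 = n ∧ Sub I J) s = ∅ := by
        apply Finset.filter_false_of_mem
        rintro J _ ⟨h1, h2, _⟩
        omega
      rw [this]; simp
  have h2 := Finset.sum_le_sum h1
  rw [Finset.sum_add_distrib, ← hdec x] at h2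
  have h3 : ∑ n ∈ Finset.range N, (if I.1.1 ≤ n then ((1:ℝ)/2) ^ n else 0) ≤ 2 * ((1:ℝ)/2) ^ I.1.1 := by
    have hsum : Summable (fun n : ℕ => if I.1.1 ≤ n then ((1:ℝ)/2) ^ n else 0) := by
      apply Summable.of_nonneg_of_le _ _ summable_geometric_two
      · intro n; split_ifs <;> positivity
      · intro n; split_ifs
        · exact le_rfl
        · positivity
    refine (hsum.sum_le_tsum (Finset.range N) (fun n _ => by split_ifs <;> positivity)).trans ?_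
    rw [← hsum.sum_add_tsum_nat_add I.1.1]
    have h4 : ∑ i ∈ Finset.range I.1.1, (if I.1.1 ≤ i then ((1:ℝ)/2) ^ i else 0) = 0 := by
      apply Finset.sum_eq_zero
      intro i hi
      rw [Finset.mem_range] at hi
      rw [if_neg (by omega)]
    rw [h4, zero_add]
    have h5 : ∀ i : ℕ, (if I.1.1 ≤ i + I.1.1 then ((1:ℝ)/2) ^ (i + I.1.1) else 0) =
        ((1:ℝ)/2) ^ I.1.1 * ((1:ℝ)/2) ^ i := by
      intro i
      rw [if_pos (by omega), pow_add, mul_comm]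
    simp_rw [h5]
    rw [tsum_mul_left, tsum_geometric_two, mul_comm]
  calc (2:ℝ) ^ I.1.1 * ∑ n ∈ Finset.range N,
        (∑ J ∈ s with (J.1.1 = n ∧ Sub I J), (hh x θ J.1.1 J.1.2 : ℝ)) / (2:ℝ) ^ n
      ≤ (2:ℝ) ^ I.1.1 * (∑ J ∈ s, (if Sub I J then x J / (2:ℝ) ^ J.1.1 else 0) +
          2 * ((1:ℝ)/2) ^ I.1.1) := by
        apply mul_le_mul_of_nonneg_left _ (by positivity)
        linarith
    _ = (2:ℝ) ^ I.1.1 * ∑ J ∈ s, (if Sub I J then x J / (2:ℝ) ^ J.1.1 else 0) + 2 := by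
        rw [mul_add]
        have : (2:ℝ) ^ I.1.1 * (2 * ((1:ℝ)/2) ^ I.1.1) = 2 := by
          rw [one_div, inv_pow]; field_simp
        rw [this]
    _ ≤ 3 := by linarith [hC I]

theorem hh_integral (x : DD → ℝ) (J : DD) :
    ∫ θ in (0:ℝ)..1, (hh x θ J.1.1 J.1.2 : ℝ) = x J := by
  unfold hh
  push_cast
  rw [intervalIntegral.integral_sub (floor_int _ 0 1) (floor_int _ 0 1), floor_integral,
    floor_integral, SS_succ, yy_self]
  ring

theorem hh_intervalIntegrable (x : DD → ℝ) (J : DD) :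
    IntervalIntegrable (fun θ => (hh x θ J.1.1 J.1.2 : ℝ)) volume 0 1 := by
  unfold hh
  push_cast
  exact (floor_int _ 0 1).sub (floor_int _ 0 1)

/-- averaging -/
theorem average (s : Finset DD) (x : DD → ℝ) (w : DD → ℝ) (c : ℝ)
    (h : ∀ θ : ℝ, ∑ J ∈ s, w J * (hh x θ J.1.1 J.1.2 : ℝ) ≤ c) : ∑ J ∈ s, w J * x J ≤ c := by
  have h1 : ∫ θ in (0:ℝ)..1, ∑ J ∈ s, w J * (hh x θ J.1.1 J.1.2 : ℝ) = ∑ J ∈ s, w J * x J := by
    rw [intervalIntegral.integral_finsetSum]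
    · apply Finset.sum_congr rfl
      intro J _
      rw [intervalIntegral.integral_const_mul, hh_integral]
    · intro J _
      exact (hh_intervalIntegrable x J).const_mul _
  rw [← h1]
  have h2 : ∫ θ in (0:ℝ)..1, ∑ J ∈ s, w J * (hh x θ J.1.1 J.1.2 : ℝ) ≤ ∫ θ in (0:ℝ)..1, c := by
    apply intervalIntegral.integral_mono_on (by norm_num)
    · have := IntervalIntegrable.sum (μ := volume) (a := (0:ℝ)) (b := 1) s
        (f := fun J θ => w J * (hh x θ J.1.1 J.1.2 : ℝ))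
        (fun J _ => (hh_intervalIntegrable x J).const_mul _)
      have e : (fun θ : ℝ => ∑ J ∈ s, w J * (hh x θ J.1.1 J.1.2 : ℝ)) =
          ∑ J ∈ s, (fun θ : ℝ => w J * (hh x θ J.1.1 J.1.2 : ℝ)) := by
        ext θ; simp
      rw [e]
      exact this
    · exact intervalIntegrable_const
    · intro θ _
      exact h θ
  simpa using h2

end Pool.Agent.H433R3.Haar
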