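import Mathlib
import Pool.Agent.H433R3.Haar3

set_option autoImplicit false
open MeasureTheory
open scoped ENNReal NNReal

namespace Pool.Agent.H433R3.Haar

open Classical in
/-- Carleson constant of a collection of dyadic intervals. -/
noncomputable def CC (B : Set DD) : ℝ≥0∞ :=
  ⨆ I ∈ B, (2:ℝ≥0∞) ^ I.1.1 * ∑' J : DD, (if J ∈ B ∧ Sub I J then ((2:ℝ≥0∞) ^ J.1.1)⁻¹ else 0)

noncomputable def RR (e : DD ≃ DD) (a : DD →₀ ℝ) (I : DD) : ℝ :=
  (2:ℝ) ^ I.1.1 * ∑ J ∈ a.support, (if Sub I (e J) then a J ^ 2 / (2:ℝ) ^ (e J).1.1 else 0)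

theorem ofReal_W (F : Finset DD) (I : DD) :
    ENNReal.ofReal ((2:ℝ) ^ I.1.1 * W F I) =
      (2:ℝ≥0∞) ^ I.1.1 * ∑ J ∈ F, (if Sub I J then ((2:ℝ≥0∞) ^ J.1.1)⁻¹ else 0) := by
  unfold W
  rw [ENNReal.ofReal_mul (by positivity), ENNReal.ofReal_sum_of_nonneg]
  · congr 1
    · rw [ENNReal.ofReal_pow (by norm_num)]; norm_num
    · apply Finset.sum_congr rfl
      intro J _
      split_ifs
      · rw [ENNReal.ofReal_inv_of_pos (by positivity), ENNReal.ofReal_pow (by norm_num)]; norm_num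
      · simp
  · intro J _
    split_ifs <;> positivity

theorem W_le_CC (B : Set DD) (F : Finset DD) (hF : ∀ J ∈ F, J ∈ B) (I : DD) (hI : I ∈ B) :
    ENNReal.ofReal ((2:ℝ) ^ I.1.1 * W F I) ≤ CC B := by
  classical
  rw [ofReal_W]
  unfold CC
  refine le_trans ?_ (le_iSup₂ (f := fun (I : DD) (_ : I ∈ B) => (2:ℝ≥0∞) ^ I.1.1 *
    ∑' J : DD, (if J ∈ B ∧ Sub I J then ((2:ℝ≥0∞) ^ J.1.1)⁻¹ else 0)) I hI)
  gcongr
  refine le_trans ?_ (ENNReal.sum_le_tsum F)
  apply Finset.sum_le_sum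
  intro J hJ
  have := hF J hJ
  by_cases h : Sub I J <;> simp [h, this]

theorem fwd (e1 e2 : DD ≃ DD) (C : ℝ) (hC : 0 < C)
    (H : ∀ (a : DD →₀ ℝ) (M : ℝ), (∀ I, RR e1 a I ≤ M) → ∀ I, RR e2 a I ≤ C * M) (B : Set DD) :
    CC (e2 '' B) ≤ ENNReal.ofReal C * CC (e1 '' B) := by
  classical
  by_cases htop : CC (e1 '' B) = ⊤
  · rw [htop, ENNReal.mul_top]
    · exact le_top
    · simpa using hC
  set M := (CC (e1 '' B)).toReal with hM
  have hM0 : 0 ≤ M := ENNReal.toReal_nonneg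
  have hMe : CC (e1 '' B) = ENNReal.ofReal M := (ENNReal.ofReal_toReal htop).symm
  rw [hMe, ← ENNReal.ofReal_mul hC.le]
  conv_lhs => unfold CC
  refine iSup₂_le fun I hI => ?_
  rw [ENNReal.tsum_eq_iSup_sum, ENNReal.mul_iSup]
  refine iSup_le fun F => ?_
  set F' := F.filter (fun J => J ∈ e2 '' B) with hF'
  set G := F'.map e2.symm.toEmbedding with hG
  have hGB : ∀ J ∈ G, J ∈ B := by
    intro J hJ
    rw [hG, Finset.mem_map] at hJ
    obtain ⟨J', hJ', rfl⟩ := hJ
    rw [hF', Finset.mem_filter] at hJ'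
    obtain ⟨_, J'', hJ'', he⟩ := hJ'
    simpa [← he] using hJ''
  have hGF : G.map e2.toEmbedding = F' := by
    rw [hG, Finset.map_map]
    ext J
    simp
  set a : DD →₀ ℝ := Finsupp.indicator G (fun _ _ => (1:ℝ)) with ha
  have hsupp : a.support = G := by
    ext J
    rw [Finsupp.mem_support_iff, ha, Finsupp.indicator_apply]
    by_cases h : J ∈ G <;> simp [h]
  have hRR : ∀ (e : DD ≃ DD) (I : DD), RR e a I = (2:ℝ) ^ I.1.1 * W (G.map e.toEmbedding) I := by
    intro e I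
    unfold RR W
    rw [hsupp, Finset.sum_map G e.toEmbedding]
    congr 1
    apply Finset.sum_congr rfl
    intro J hJ
    have : a J = 1 := by rw [ha, Finsupp.indicator_apply, dif_pos hJ]
    rw [this]
    simp
  have h1 : ∀ I, RR e1 a I ≤ M := by
    intro I
    rw [hRR]
    apply W_le _ _ hM0
    intro I' hI'
    have h2 : ∀ J ∈ G.map e1.toEmbedding, J ∈ e1 '' B := by
      intro J hJ
      rw [Finset.mem_map] at hJ
      obtain ⟨J', hJ', rfl⟩ := hJ
      exact ⟨J', hGB J' hJ', rfl⟩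
    have h3 := W_le_CC (e1 '' B) (G.map e1.toEmbedding) h2 I' (h2 I' hI')
    rw [hMe] at h3
    exact (ENNReal.ofReal_le_ofReal_iff hM0).1 h3
  have h4 := H a M h1 I
  rw [hRR, hGF] at h4
  refine le_trans (le_of_eq ?_) (ENNReal.ofReal_le_ofReal h4)
  rw [ofReal_W, hF', Finset.sum_filter]
  congr 1
  apply Finset.sum_congr rfl
  intro J _
  by_cases hJ : J ∈ e2 '' B
  · rw [if_pos hJ]
    by_cases h : Sub I J
    · rw [if_pos ⟨hJ, h⟩, if_pos h]
    · rw [if_neg (fun h' => h h'.2), if_neg h]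
  · rw [if_neg hJ, if_neg (fun h => hJ h.1)]

theorem bwd (e1 e2 : DD ≃ DD) (K : ℝ) (hK : 0 < K)
    (H : ∀ B : Set DD, CC (e2 '' B) ≤ ENNReal.ofReal K * CC (e1 '' B))
    (a : DD →₀ ℝ) (M : ℝ) (hM : ∀ I, RR e1 a I ≤ M) (I : DD) : RR e2 a I ≤ (K * 3) * M := by
  classical
  by_cases hemp : a.support = ∅
  · have h0 : RR e2 a I = 0 := by unfold RR; rw [hemp]; simp
    have h1 := hM I
    have h2 : RR e1 a I = 0 := by unfold RR; rw [hemp]; simp
    rw [h2] at h1
    rw [h0]; positivity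
  have hterm : ∀ J ∈ a.support, a J ^ 2 ≤ M := by
    intro J hJ
    refine le_trans ?_ (hM (e1 J))
    unfold RR
    have : (if Sub (e1 J) (e1 J) then a J ^ 2 / (2:ℝ) ^ (e1 J).1.1 else 0) ≤
        ∑ J' ∈ a.support, (if Sub (e1 J) (e1 J') then a J' ^ 2 / (2:ℝ) ^ (e1 J').1.1 else 0) := by
      apply Finset.single_le_sum (f := fun J' => if Sub (e1 J) (e1 J') then
        a J' ^ 2 / (2:ℝ) ^ (e1 J').1.1 else 0) _ hJ
      intro J' _
      split_ifs <;> positivity
    rw [if_pos ⟨le_rfl, by simp⟩] at this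
    have h2 : (0:ℝ) < 2 ^ (e1 J).1.1 := by positivity
    calc a J ^ 2 = (2:ℝ) ^ (e1 J).1.1 * (a J ^ 2 / (2:ℝ) ^ (e1 J).1.1) := by field_simp
      _ ≤ _ := mul_le_mul_of_nonneg_left this h2.le
  have hMpos : 0 < M := by
    obtain ⟨J, hJ⟩ := Finset.nonempty_iff_ne_empty.2 hemp
    have h1 : a J ≠ 0 := Finsupp.mem_support_iff.1 hJ
    have h2 : 0 < a J ^ 2 := by positivity
    exact lt_of_lt_of_le h2 (hterm J hJ)
  -- sampling weights
  set x : DD → ℝ := fun J => a (e1.symm J) ^ 2 / M with hx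
  set s : Finset DD := a.support.map e1.toEmbedding with hs
  have hx0 : ∀ J, 0 ≤ x J := fun J => by simp only [hx]; positivity
  have hxs : ∀ J, J ∉ s → x J = 0 := by
    intro J hJ
    have : e1.symm J ∉ a.support := by
      intro h
      apply hJ
      rw [hs, Finset.mem_map]
      exact ⟨_, h, by simp⟩
    rw [Finsupp.notMem_support_iff] at this
    simp [hx, this]
  have hx1 : ∀ J, x J ≤ 1 := by
    intro J
    by_cases hJ : e1.symm J ∈ a.support
    · simp only [hx]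
      rw [div_le_one hMpos]
      exact hterm _ hJ
    · rw [Finsupp.notMem_support_iff] at hJ
      simp [hx, hJ]
  have hC : ∀ I : DD, (2:ℝ) ^ I.1.1 * ∑ J ∈ s, (if Sub I J then x J / (2:ℝ) ^ J.1.1 else 0) ≤ 1 := by
    intro I
    have h1 := hM I
    have h2 : (2:ℝ) ^ I.1.1 * ∑ J ∈ s, (if Sub I J then x J / (2:ℝ) ^ J.1.1 else 0) = RR e1 a I / M := by
      unfold RR
      rw [hs, Finset.sum_map, mul_div_assoc, Finset.sum_div]
      congr 1
      apply Finset.sum_congr rfl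
      intro J _
      simp only [hx, Equiv.coe_toEmbedding, Equiv.symm_apply_apply]
      split_ifs
      · ring
      · simp
    rw [h2, div_le_one hMpos]
    exact h1
  have hmass := mass_le s x hx0 hxs hC
  -- for every theta
  have hθ : ∀ θ : ℝ, ∑ J ∈ s, ((2:ℝ) ^ I.1.1 * (if Sub I (e2 (e1.symm J)) then
      ((2:ℝ) ^ (e2 (e1.symm J)).1.1)⁻¹ else 0)) * (hh x θ J.1.1 J.1.2 : ℝ) ≤ K * 3 := by
    intro θ
    set Bt : Finset DD := s.filter (fun J => hh x θ J.1.1 J.1.2 = 1) with hBt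
    have h01 : ∀ J : DD, hh x θ J.1.1 J.1.2 = 0 ∨ hh x θ J.1.1 J.1.2 = 1 := by
      intro J
      have h1 := hh_nonneg x hx0 θ J.1.1 J.1.2
      have h2 := hh_le x hx1 θ J.1.1 J.1.2
      omega
    have hW : ∀ I : DD, (2:ℝ) ^ I.1.1 * W Bt I ≤ 3 := by
      intro I
      refine le_trans (le_of_eq ?_) (hmass θ I)
      unfold W
      rw [hBt, Finset.sum_filter]
      congr 1
      apply Finset.sum_congr rfl
      intro J _
      rcases h01 J with h | h <;> simp [h]
    have hCC1 : CC (Bt : Set DD) ≤ ENNReal.ofReal 3 := by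
      unfold CC
      refine iSup₂_le fun I _ => ?_
      refine le_trans (le_of_eq ?_) (ENNReal.ofReal_le_ofReal (hW I))
      rw [ofReal_W, tsum_eq_sum (s := Bt)]
      · congr 1
        apply Finset.sum_congr rfl
        intro J hJ
        simp [hJ]
      · intro J hJ
        simp [hJ]
    set B : Set DD := e1.symm '' (Bt : Set DD) with hB
    have hB1 : e1 '' B = Bt := by
      rw [hB, Set.image_image]; simp
    have h5 := H B
    rw [hB1] at h5
    have h6 : CC (e2 '' B) ≤ ENNReal.ofReal (K * 3) := by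
      refine h5.trans ?_
      rw [ENNReal.ofReal_mul hK.le]
      gcongr
    set F2 : Finset DD := (Bt.map e1.symm.toEmbedding).map e2.toEmbedding with hF2
    have hF2B : ∀ J ∈ F2, J ∈ e2 '' B := by
      intro J hJ
      rw [hF2, Finset.mem_map] at hJ
      obtain ⟨J', hJ', rfl⟩ := hJ
      rw [Finset.mem_map] at hJ'
      obtain ⟨J'', hJ'', rfl⟩ := hJ'
      exact ⟨_, ⟨J'', hJ'', rfl⟩, rfl⟩
    have h7 : ∀ I ∈ F2, (2:ℝ) ^ I.1.1 * W F2 I ≤ K * 3 := by
      intro I hI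
      have := (W_le_CC (e2 '' B) F2 hF2B I (hF2B I hI)).trans h6
      exact (ENNReal.ofReal_le_ofReal_iff (by positivity)).1 this
    have h8 := W_le F2 (K * 3) (by positivity) h7 I
    refine le_trans (le_of_eq ?_) h8
    unfold W
    rw [hF2, Finset.sum_map (Bt.map e1.symm.toEmbedding) e2.toEmbedding,
      Finset.sum_map Bt e1.symm.toEmbedding, hBt, Finset.sum_filter, Finset.mul_sum]
    apply Finset.sum_congr rfl
    intro J _
    rcases h01 J with h | h <;> simp [h]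
  have h9 := average s x _ (K * 3) hθ
  have h10 : ∑ J ∈ s, ((2:ℝ) ^ I.1.1 * (if Sub I (e2 (e1.symm J)) then
      ((2:ℝ) ^ (e2 (e1.symm J)).1.1)⁻¹ else 0)) * x J = RR e2 a I / M := by
    unfold RR
    rw [hs, Finset.sum_map, mul_div_assoc, Finset.sum_div, Finset.mul_sum]
    apply Finset.sum_congr rfl
    intro J _
    simp only [hx, Equiv.coe_toEmbedding, Equiv.symm_apply_apply]
    split_ifs
    · ring
    · simp
  rw [h10, div_le_iff₀ hMpos] at h9
  exact h9

end Pool.Agent.H433R3.Haar
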