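import Pool.Agent.H433R3.Sep1

set_option autoImplicit false
set_option linter.unusedSectionVars false
set_option linter.unusedVariables false

namespace Pool.Agent.H433R3.Ml

open Finset Pool.Agent.H433R3.Sep

variable {X : Type*} [Fintype X] [DecidableEq X]

lemma geoB {b : ℝ} (hb : 1 < b) (J : Finset ℤ) : ∀ a : ℤ, (∀ j ∈ J, j < a) →
    ∑ j ∈ J, b ^ j ≤ b ^ a / (b - 1) := by
  classical
  have hb1 : 0 < b - 1 := by linarith
  have hb0 : 0 < b := by linarith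
  induction J using Finset.induction_on_max with
  | empty => intro a _; simp only [Finset.sum_empty]; positivity
  | insert m J' hm ih =>
    intro a ha
    have hbn : m ∉ J' := fun h => lt_irrefl _ (hm m h)
    rw [Finset.sum_insert hbn]
    have h1 := ih m hm
    have h2 : m + 1 ≤ a := ha m (Finset.mem_insert_self _ _)
    have h3 : b ^ (m + 1) ≤ b ^ a := zpow_le_zpow_right₀ hb.le h2
    have h4 : b ^ (m + 1) = b ^ m * b := zpow_add_one₀ hb0.ne' m
    rw [le_div_iff₀ hb1] at h1 ⊢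
    calc (b ^ m + ∑ j ∈ J', b ^ j) * (b - 1) = b ^ m * (b - 1) + (∑ j ∈ J', b ^ j) * (b - 1) := by
          ring
      _ ≤ b ^ m * (b - 1) + b ^ m := by linarith
      _ = b ^ (m + 1) := by rw [h4]; ring
      _ ≤ _ := h3

lemma zr (r : ℝ) (k : ℤ) : ((2:ℝ) ^ r) ^ k = ((2:ℝ) ^ k) ^ r := by
  rw [← Real.rpow_intCast, ← Real.rpow_intCast, ← Real.rpow_mul (by norm_num),
    ← Real.rpow_mul (by norm_num), mul_comm]

lemma log_lo {a : ℝ} (ha : 0 < a) : (2:ℝ) ^ (Int.log 2 a) ≤ a := by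
  have := Int.zpow_log_le_self (b := 2) (by norm_num) ha
  push_cast at this
  exact this

lemma log_hi {a : ℝ} (ha : 0 < a) : a ≤ (2:ℝ) ^ (Int.log 2 a + 1) := by
  have := (Int.lt_zpow_succ_log_self (b := 2) (by norm_num) a).le
  push_cast at this
  exact this

/-- constants of the geometric sums -/
noncomputable def G1 (r : ℝ) : ℝ := ((2:ℝ) ^ r) ^ 2 / ((2:ℝ) ^ r - 1)

lemma G1_pos {r : ℝ} (hr : 0 < r) : 0 < G1 r := by
  have hb : 1 < (2:ℝ) ^ r := Real.one_lt_rpow (by norm_num) hr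
  unfold G1
  have : 0 < (2:ℝ) ^ r - 1 := by linarith
  positivity

lemma chainPos {ι : Type*} (T : Finset ι) (a : ι → ℝ) (ha : ∀ i ∈ T, 0 < a i)
    (hinj : ∀ i ∈ T, ∀ j ∈ T, Int.log 2 (a i) = Int.log 2 (a j) → i = j) {r : ℝ} (hr : 0 < r)
    {M : ℝ} (hM0 : 0 < M) (hM : ∀ i ∈ T, a i ≤ M) :
    ∑ i ∈ T, a i ^ r ≤ G1 r * M ^ r := by
  classical
  unfold G1
  set b := (2:ℝ) ^ r with hbd
  have hb : 1 < b := Real.one_lt_rpow (by norm_num) hr
  have hb0 : 0 < b := by linarith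
  have hb1 : 0 < b - 1 := by linarith
  have h1 : ∀ i ∈ T, a i ^ r ≤ b * b ^ (Int.log 2 (a i)) := by
    intro i hi
    calc a i ^ r ≤ ((2:ℝ) ^ (Int.log 2 (a i) + 1)) ^ r :=
          Real.rpow_le_rpow (ha i hi).le (log_hi (ha i hi)) hr.le
      _ = b ^ (Int.log 2 (a i) + 1) := (zr r _).symm
      _ = _ := by rw [zpow_add_one₀ hb0.ne']; ring
  have h2 : ∑ i ∈ T, b ^ (Int.log 2 (a i)) ≤ b ^ (Int.log 2 M + 1) / (b - 1) := by
    rw [← Finset.sum_image (s := T) (g := fun i => Int.log 2 (a i)) (f := fun j : ℤ => b ^ j)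
      (fun i hi j hj h => hinj i hi j hj h)]
    apply geoB hb
    intro j hj
    obtain ⟨i, hi, rfl⟩ := Finset.mem_image.1 hj
    have := Int.log_mono_right (b := 2) (ha i hi) (hM i hi)
    omega
  have h3 : b ^ (Int.log 2 M) ≤ M ^ r := by
    rw [hbd, zr]
    exact Real.rpow_le_rpow (by positivity) (log_lo hM0) hr.le
  calc ∑ i ∈ T, a i ^ r ≤ ∑ i ∈ T, b * b ^ (Int.log 2 (a i)) := Finset.sum_le_sum h1
    _ = b * ∑ i ∈ T, b ^ (Int.log 2 (a i)) := by rw [Finset.mul_sum]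
    _ ≤ b * (b ^ (Int.log 2 M + 1) / (b - 1)) := by gcongr
    _ = b ^ 2 / (b - 1) * b ^ (Int.log 2 M) := by
        rw [zpow_add_one₀ hb0.ne']; ring
    _ ≤ _ := by gcongr

lemma chainNeg {ι : Type*} (T : Finset ι) (a : ι → ℝ) (ha : ∀ i ∈ T, 0 < a i)
    (hinj : ∀ i ∈ T, ∀ j ∈ T, Int.log 2 (a i) = Int.log 2 (a j) → i = j) {r : ℝ} (hr : 0 < r)
    {M : ℝ} (hM0 : 0 < M) (hM : ∀ i ∈ T, Int.log 2 M ≤ Int.log 2 (a i)) :
    ∑ i ∈ T, a i ^ (-r) ≤ G1 r * M ^ (-r) := by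
  classical
  unfold G1
  set b := (2:ℝ) ^ r with hbd
  have hb : 1 < b := Real.one_lt_rpow (by norm_num) hr
  have hb0 : 0 < b := by linarith
  have hb1 : 0 < b - 1 := by linarith
  have h1 : ∀ i ∈ T, a i ^ (-r) ≤ b ^ (-(Int.log 2 (a i))) := by
    intro i hi
    rw [zpow_neg, Real.rpow_neg (ha i hi).le, hbd, zr]
    gcongr
    exact log_lo (ha i hi)
  have h2 : ∑ i ∈ T, b ^ (-(Int.log 2 (a i))) ≤ b ^ (-(Int.log 2 M) + 1) / (b - 1) := by
    rw [← Finset.sum_image (s := T) (g := fun i => -Int.log 2 (a i)) (f := fun j : ℤ => b ^ j)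
      (fun i hi j hj h => hinj i hi j hj (by
        have h' : -Int.log 2 (a i) = -Int.log 2 (a j) := h
        omega))]
    apply geoB hb
    intro j hj
    obtain ⟨i, hi, rfl⟩ := Finset.mem_image.1 hj
    have := hM i hi
    omega
  have h3 : b ^ (-(Int.log 2 M)) ≤ b * M ^ (-r) := by
    rw [zpow_neg, hbd, zr, Real.rpow_neg hM0.le, ← hbd]
    rw [inv_le_comm₀ (by positivity) (by positivity), mul_inv, inv_inv]
    have h4 : M ^ r ≤ b * ((2:ℝ) ^ (Int.log 2 M)) ^ r := by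
      calc M ^ r ≤ ((2:ℝ) ^ (Int.log 2 M + 1)) ^ r :=
            Real.rpow_le_rpow hM0.le (log_hi hM0) hr.le
        _ = b ^ (Int.log 2 M + 1) := (zr r _).symm
        _ = b * b ^ (Int.log 2 M) := by rw [zpow_add_one₀ hb0.ne']; ring
        _ = _ := by rw [hbd, zr]
    rw [inv_mul_le_iff₀ hb0]
    exact h4
  calc ∑ i ∈ T, a i ^ (-r) ≤ ∑ i ∈ T, b ^ (-(Int.log 2 (a i))) := Finset.sum_le_sum h1
    _ ≤ b ^ (-(Int.log 2 M) + 1) / (b - 1) := h2
    _ = b / (b - 1) * b ^ (-(Int.log 2 M)) := by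
        rw [zpow_add_one₀ hb0.ne']; ring
    _ ≤ b / (b - 1) * (b * M ^ (-r)) := by gcongr
    _ = _ := by ring

lemma chainMax {ι : Type*} (T : Finset ι) (a : ι → ℝ) (ha : ∀ i ∈ T, 0 < a i)
    (hinj : ∀ i ∈ T, ∀ j ∈ T, Int.log 2 (a i) = Int.log 2 (a j) → i = j) {r p : ℝ} (hr : 0 < r)
    (hp : 0 < p) : ∑ i ∈ T, a i ^ r ≤ G1 r * (∑ i ∈ T, a i ^ p) ^ (r / p) := by
  classical
  have hG := G1_pos hr
  rcases T.eq_empty_or_nonempty with h | h
  · subst h
    simp only [Finset.sum_empty]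
    positivity
  · obtain ⟨i₀, hi₀, hmax⟩ := Finset.exists_max_image T a h
    refine (chainPos T a ha hinj hr (ha i₀ hi₀) hmax).trans ?_
    apply mul_le_mul_of_nonneg_left _ hG.le
    have h1 : a i₀ ^ p ≤ ∑ i ∈ T, a i ^ p :=
      Finset.single_le_sum (f := fun i => a i ^ p) (fun i hi => (Real.rpow_pos_of_pos (ha i hi) _).le) hi₀
    calc a i₀ ^ r = (a i₀ ^ p) ^ (r / p) := by
          rw [← Real.rpow_mul (ha i₀ hi₀).le]
          congr 1
          field_simp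
      _ ≤ _ := Real.rpow_le_rpow (Real.rpow_nonneg (ha i₀ hi₀).le _) h1 (by positivity)

lemma wHol {ι : Type*} (s : Finset ι) {p q : ℝ} (hpq : p.HolderConjugate q) (u v μ : ι → ℝ)
    (hu : ∀ i ∈ s, 0 ≤ u i) (hv : ∀ i ∈ s, 0 ≤ v i) (hμ : ∀ i ∈ s, 0 ≤ μ i) :
    ∑ i ∈ s, u i * v i * μ i ≤
      (∑ i ∈ s, u i ^ p * μ i) ^ (1 / p) * (∑ i ∈ s, v i ^ q * μ i) ^ (1 / q) := by
  have hp := hpq.pos
  have hq := hpq.symm.pos
  have h := Real.inner_le_Lp_mul_Lq_of_nonneg s hpq (f := fun i => u i * μ i ^ (1 / p))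
    (g := fun i => v i * μ i ^ (1 / q))
    (fun i hi => mul_nonneg (hu i hi) (Real.rpow_nonneg (hμ i hi) _))
    (fun i hi => mul_nonneg (hv i hi) (Real.rpow_nonneg (hμ i hi) _))
  have e1 : ∀ i ∈ s, u i * μ i ^ (1 / p) * (v i * μ i ^ (1 / q)) = u i * v i * μ i := by
    intro i hi
    have : μ i ^ (1 / p) * μ i ^ (1 / q) = μ i := by
      rw [← Real.rpow_add_of_nonneg (hμ i hi) (by positivity) (by positivity)]
      have : 1 / p + 1 / q = 1 := by
        have := hpq.inv_add_inv_eq_one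
        simpa [one_div] using this
      rw [this, Real.rpow_one]
    calc u i * μ i ^ (1 / p) * (v i * μ i ^ (1 / q)) = u i * v i * (μ i ^ (1 / p) * μ i ^ (1 / q)) := by
          ring
      _ = _ := by rw [this]
  have e2 : ∀ i ∈ s, (u i * μ i ^ (1 / p)) ^ p = u i ^ p * μ i := by
    intro i hi
    rw [Real.mul_rpow (hu i hi) (Real.rpow_nonneg (hμ i hi) _), ← Real.rpow_mul (hμ i hi),
      one_div_mul_cancel hp.ne', Real.rpow_one]
  have e3 : ∀ i ∈ s, (v i * μ i ^ (1 / q)) ^ q = v i ^ q * μ i := by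
    intro i hi
    rw [Real.mul_rpow (hv i hi) (Real.rpow_nonneg (hμ i hi) _), ← Real.rpow_mul (hμ i hi),
      one_div_mul_cancel hq.ne', Real.rpow_one]
  rw [Finset.sum_congr rfl e1, Finset.sum_congr rfl e2, Finset.sum_congr rfl e3] at h
  exact h

lemma selfimp {p q A B : ℝ} (hpq : p.HolderConjugate q) (hA : 0 ≤ A) (hB : 0 ≤ B)
    (h : A ≤ B * A ^ (1 / q)) : A ≤ B ^ p := by
  have hp := hpq.pos
  have hq := hpq.symm.pos
  rcases hA.eq_or_lt with h0 | h0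
  · rw [← h0]; exact Real.rpow_nonneg hB _
  · have h1 : A ^ (1 / p) * A ^ (1 / q) = A := by
      rw [← Real.rpow_add h0]
      have : 1 / p + 1 / q = 1 := by
        have := hpq.inv_add_inv_eq_one
        simpa [one_div] using this
      rw [this, Real.rpow_one]
    have h2 : A ^ (1 / p) ≤ B := by
      have h3 : A ^ (1 / p) * A ^ (1 / q) ≤ B * A ^ (1 / q) := by rw [h1]; exact h
      exact le_of_mul_le_mul_right h3 (Real.rpow_pos_of_pos h0 _)
    calc A = (A ^ (1 / p)) ^ p := by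
          rw [← Real.rpow_mul hA, one_div_mul_cancel hp.ne', Real.rpow_one]
      _ ≤ B ^ p := Real.rpow_le_rpow (Real.rpow_nonneg hA _) h2 hp.le

/-- records on a chain have different levels -/
lemma rec_inj {S : Finset (Finset X)} (hS : Lam S) {k : Finset X → ℤ} {F G : Finset X}
    (hF : IsRec S k F) (hG : IsRec S k G) {x : X} (hxF : x ∈ F) (hxG : x ∈ G) (h : k F = k G) :
    F = G := by
  rcases hS.comp hF.1 hG.1 hxF hxG with h1 | h1
  · rcases eq_or_ssubset_of_subset h1 with h2 | h2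
    · exact h2
    · have := hF.2 G hG.1 h2
      omega
  · have := hG.2 F hF.1 h1
    omega

/-- Carleson embedding along the records of the averages. -/
lemma carl_p (S : Finset (Finset X)) (hS : Lam S) (μ f : X → ℝ) (hμ : ∀ x, 0 ≤ μ x)
    (hf : ∀ x, 0 ≤ f x) (a : Finset X → ℝ) (ha : ∀ Q ∈ S, 0 < a Q)
    (haI : ∀ Q ∈ S, a Q * ∑ x ∈ Q, μ x = ∑ x ∈ Q, f x * μ x)
    {p q : ℝ} (hpq : p.HolderConjugate q)
    (R : Finset (Finset X)) (hR : ∀ F ∈ R, IsRec S (fun Q => Int.log 2 (a Q)) F) :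
    ∑ F ∈ R, a F ^ p * ∑ x ∈ F, μ x ≤ G1 (p - 1) ^ p * ∑ x, f x ^ p * μ x := by
  classical
  have hp := hpq.pos
  have hq := hpq.symm.pos
  have hp1 : 0 < p - 1 := hpq.sub_one_pos
  have hG := G1_pos hp1
  set A := ∑ F ∈ R, a F ^ p * ∑ x ∈ F, μ x with hA
  have haR : ∀ F ∈ R, 0 < a F := fun F hF => ha F (hR F hF).1
  have h1 : A = ∑ x, (∑ F ∈ R with x ∈ F, a F ^ (p - 1)) * (f x * μ x) := by
    rw [hA, ← sum_swap]
    apply Finset.sum_congr rfl
    intro F hF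
    rw [← haI F (hR F hF).1, ← mul_assoc]
    congr 1
    rw [← Real.rpow_add_one (haR F hF).ne']
    congr 1; ring
  have h2 : A = ∑ x, (∑ F ∈ R with x ∈ F, a F ^ p) * μ x := by
    rw [hA, ← sum_swap]
  have hpt : ∀ x, ∑ F ∈ R with x ∈ F, a F ^ (p - 1) ≤
      G1 (p - 1) * (∑ F ∈ R with x ∈ F, a F ^ p) ^ (1 / q) := by
    intro x
    have h3 := chainMax (R.filter (fun F => x ∈ F)) a
      (fun F hF => haR F (Finset.mem_filter.1 hF).1)
      (fun F hF G hG' h => rec_inj hS (hR F (Finset.mem_filter.1 hF).1)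
        (hR G (Finset.mem_filter.1 hG').1) (Finset.mem_filter.1 hF).2 (Finset.mem_filter.1 hG').2 h)
      hp1 hp
    have e : (p - 1) / p = 1 / q := by
      have := hpq.inv_add_inv_eq_one
      field_simp at this ⊢
      linarith
    rw [e] at h3
    exact h3
  have hP0 : ∀ x, 0 ≤ ∑ F ∈ R with x ∈ F, a F ^ p := fun x =>
    Finset.sum_nonneg (fun F hF => Real.rpow_nonneg (haR F (Finset.mem_filter.1 hF).1).le _)
  have hA0 : 0 ≤ A := by
    rw [h2]
    exact Finset.sum_nonneg (fun x _ => mul_nonneg (hP0 x) (hμ x))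
  have hf0 : 0 ≤ ∑ x, f x ^ p * μ x :=
    Finset.sum_nonneg (fun x _ => mul_nonneg (Real.rpow_nonneg (hf x) _) (hμ x))
  have h4 : A ≤ G1 (p - 1) * (∑ x, f x ^ p * μ x) ^ (1 / p) * A ^ (1 / q) := by
    calc A = ∑ x, (∑ F ∈ R with x ∈ F, a F ^ (p - 1)) * (f x * μ x) := h1
      _ ≤ ∑ x, (G1 (p - 1) * (∑ F ∈ R with x ∈ F, a F ^ p) ^ (1 / q)) * (f x * μ x) := by
          apply Finset.sum_le_sum
          intro x _
          exact mul_le_mul_of_nonneg_right (hpt x) (mul_nonneg (hf x) (hμ x))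
      _ = G1 (p - 1) * ∑ x, f x * (∑ F ∈ R with x ∈ F, a F ^ p) ^ (1 / q) * μ x := by
          rw [Finset.mul_sum]
          apply Finset.sum_congr rfl
          intro x _; ring
      _ ≤ G1 (p - 1) * ((∑ x, f x ^ p * μ x) ^ (1 / p) *
          (∑ x, ((∑ F ∈ R with x ∈ F, a F ^ p) ^ (1 / q)) ^ q * μ x) ^ (1 / q)) := by
          apply mul_le_mul_of_nonneg_left _ hG.le
          exact wHol Finset.univ hpq f (fun x => (∑ F ∈ R with x ∈ F, a F ^ p) ^ (1 / q)) μ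
            (fun x _ => hf x) (fun x _ => Real.rpow_nonneg (hP0 x) _) (fun x _ => hμ x)
      _ = G1 (p - 1) * (∑ x, f x ^ p * μ x) ^ (1 / p) * A ^ (1 / q) := by
          have e : ∀ x, ((∑ F ∈ R with x ∈ F, a F ^ p) ^ (1 / q)) ^ q =
              ∑ F ∈ R with x ∈ F, a F ^ p := by
            intro x
            rw [← Real.rpow_mul (hP0 x), one_div_mul_cancel hq.ne', Real.rpow_one]
          simp_rw [e]
          rw [← h2]; ring
  have h5 := selfimp hpq hA0 (by positivity) h4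
  refine h5.trans (le_of_eq ?_)
  rw [Real.mul_rpow hG.le (Real.rpow_nonneg hf0 _), ← Real.rpow_mul hf0, one_div_mul_cancel hp.ne',
    Real.rpow_one]

open Classical in
/-- the smallest record containing a member -/
noncomputable def par (S : Finset (Finset X)) (k : Finset X → ℤ) (Q : Finset X) : Finset X :=
  if h : Lam S ∧ Q ∈ S then (exists_rec h.1 k h.2).choose else Q

lemma par_spec {S : Finset (Finset X)} (hS : Lam S) (k : Finset X → ℤ) {Q : Finset X}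
    (hQ : Q ∈ S) : IsRec S k (par S k Q) ∧ Q ⊆ par S k Q ∧ k Q ≤ k (par S k Q) ∧
      ∀ F', IsRec S k F' → Q ⊆ F' → par S k Q ⊆ F' := by
  unfold par
  rw [dif_pos ⟨hS, hQ⟩]
  exact (exists_rec hS k hQ).choose_spec

/-- averages are controlled by the average over the record -/
lemma par_le {S : Finset (Finset X)} (hS : Lam S) (a : Finset X → ℝ) (ha : ∀ Q ∈ S, 0 < a Q)
    {Q : Finset X} (hQ : Q ∈ S) : a Q ≤ 2 * a (par S (fun Q => Int.log 2 (a Q)) Q) := by
  have h := par_spec hS (fun Q => Int.log 2 (a Q)) hQ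
  set F := par S (fun Q => Int.log 2 (a Q)) Q
  have hF := ha F h.1.1
  have h3 : Int.log 2 (a Q) ≤ Int.log 2 (a F) := h.2.2.1
  calc a Q ≤ (2:ℝ) ^ (Int.log 2 (a Q) + 1) := log_hi (ha Q hQ)
    _ ≤ (2:ℝ) ^ (Int.log 2 (a F) + 1) := zpow_le_zpow_right₀ (by norm_num) (by omega)
    _ = 2 * (2:ℝ) ^ (Int.log 2 (a F)) := by rw [zpow_add_one₀ (by norm_num)]; ring
    _ ≤ 2 * a F := by gcongr; exact log_lo hF

/-- sums over a family arranged by the records -/
lemma sum_par {S : Finset (Finset X)} (hS : Lam S) (k : Finset X → ℤ) (g : Finset X → ℝ)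
    {T : Finset (Finset X)} (hT : T ⊆ S) :
    ∑ Q ∈ T, g Q = ∑ F ∈ S.image (par S k), ∑ Q ∈ T with par S k Q = F, g Q := by
  classical
  rw [Finset.sum_fiberwise_of_maps_to]
  intro Q hQ
  exact Finset.mem_image_of_mem _ (hT hQ)

lemma mem_recs {S : Finset (Finset X)} (hS : Lam S) {k : Finset X → ℤ} {F : Finset X}
    (hF : F ∈ S.image (par S k)) : IsRec S k F := by
  obtain ⟨Q, hQ, rfl⟩ := Finset.mem_image.1 hF
  exact (par_spec hS k hQ).1

end Pool.Agent.H433R3.Ml
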