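import Pool.Agent.H433R3.Sep13
import Pool.Agent.H433R3.Sep20

set_option autoImplicit false
set_option linter.unusedSectionVars false
set_option linter.unusedVariables false

namespace Pool.Agent.H433R3.Sep

open MeasureTheory Metric Filter Topology
open scoped ENNReal NNReal

variable {d : ℕ} {𝕜 : Type*} [RCLike 𝕜]
variable {T : Lp 𝕜 2 (volume : Measure (Fin d → ℝ)) →L[𝕜] Lp 𝕜 2 (volume : Measure (Fin d → ℝ))}
variable {K : (Fin d → ℝ) → (Fin d → ℝ) → 𝕜}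

lemma zero_mem_grid (t : Fin d → Bool) : Monotone (fun j : ℕ => gq t (ix t (j:ℤ) 0)) := by
  apply monotone_nat_of_le_succ
  intro j x hx
  have h0 := mem_gq_ix t (j:ℤ) (0 : Fin d → ℝ)
  have h1 := mem_gq_ix t ((j + 1 : ℕ):ℤ) (0 : Fin d → ℝ)
  have h2 : gq t (ix t (j:ℤ) 0) ⊆ gq t (ix t ((j + 1 : ℕ):ℤ) 0) := by
    apply gq_nest t _ h0 h1
    show ((j:ℤ)) ≤ ((j + 1 : ℕ) : ℤ)
    push_cast; linarith
  exact h2 hx

lemma exists_ball (R : ℝ) (hR : 0 ≤ R) : ∃ N : ℕ, ∀ j : ℕ, N ≤ j →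
    closedBall (0 : Fin d → ℝ) R ⊆ gq (fun _ => true) (ix (fun _ => true) (j:ℤ) 0) := by
  obtain ⟨N, hN⟩ := pow_unbounded_of_one_lt (3 * R) (by norm_num : (1:ℝ) < 2)
  refine ⟨N, fun j hj => exhaust (j:ℤ) R hR ?_⟩
  rw [zpow_natCast]
  have : (2:ℝ) ^ N ≤ 2 ^ j := pow_le_pow_right₀ (by norm_num) hj
  linarith

lemma bddCase (hd : 0 < d) {Φ₁ Φ₂ : ℝ≥0 → ℝ≥0} (h₁ : IsYoung Φ₁) (h₂ : IsYoung Φ₂)
    (hint₁ : ∃ c : ℝ≥0, 0 < c ∧ ∫⁻ x in Set.Ioi (c:ℝ), ((Φ₁ x.toNNReal : ℝ≥0∞))⁻¹ ≠ ∞)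
    (hint₂ : ∃ c : ℝ≥0, 0 < c ∧ ∫⁻ x in Set.Ioi (c:ℝ), ((Φ₂ x.toNNReal : ℝ≥0∞))⁻¹ ≠ ∞)
    (M : ℝ≥0) (hT : IsCZO T K) :
    ∃ C : ℝ≥0, ∀ (w σ : (Fin d → ℝ) → ℝ≥0), Measurable w → Measurable σ →
      (∀ (c : Fin d → ℝ) (l : ℝ), 0 < l → wm volume w (cube c l) < ∞) →
      (∀ (c : Fin d → ℝ) (l : ℝ), 0 < l → wm volume σ (cube c l) < ∞) →
      (∀ (c : Fin d → ℝ) (l : ℝ), 0 < l → lux volume Φ₁ w (cube c l) *
        (wm volume σ (cube c l) / volume (cube c l)) ≤ M) →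
      (∀ (c : Fin d → ℝ) (l : ℝ), 0 < l → lux volume Φ₂ σ (cube c l) *
        (wm volume w (cube c l) / volume (cube c l)) ≤ M) →
      ∀ (g₀ f : (Fin d → ℝ) → 𝕜), Measurable g₀ → Measurable f →
      (∀ x, ‖f x‖ₑ = (w x : ℝ≥0∞) * ‖g₀ x‖ₑ) → ∀ B : ℝ≥0, (∀ x, ‖f x‖ ≤ B) → ∀ R : ℝ, 0 ≤ R →
      (∀ x, x ∉ closedBall 0 R → f x = 0) →
      ∫⁻ x, ‖TT T f x‖ₑ ^ 2 ∂(wm volume σ) ≤ C * ∫⁻ x, ‖g₀ x‖ₑ ^ 2 ∂(wm volume w) := by
  obtain ⟨a, A, ha, hdom⟩ := domin hd hT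
  obtain ⟨C, hC⟩ := sparseDil hd h₁ h₂ hint₁ hint₂ M a ha
  refine ⟨A ^ 2 * C, ?_⟩
  intro w σ hw hσ hwf hσf hb₁ hb₂ g₀ f hg₀ hf hfg B hB R hR h0
  set t : Fin d → Bool := fun _ => true with ht
  set G : ℕ → Set (Fin d → ℝ) := fun j => gq t (ix t (j:ℤ) 0) with hG
  have hGm : ∀ j, MeasurableSet (G j) := fun j => gq_meas _ _
  have hGmono : Monotone G := zero_mem_grid t
  have hGU : ⋃ j, G j = Set.univ := by
    apply Set.eq_univ_of_forall
    intro x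
    obtain ⟨N, hN⟩ := exists_ball (d := d) ‖x‖ (norm_nonneg x)
    have hx : x ∈ closedBall (0 : Fin d → ℝ) ‖x‖ := by
      rw [mem_closedBall, dist_zero_right]
    exact Set.mem_iUnion.2 ⟨N, hN N le_rfl hx⟩
  have havg : ∀ I, avg a t f I =
      (∫⁻ z in dil a t I, ‖g₀ z‖ₑ ∂(wm volume w)) / volume (dil a t I) := by
    intro I
    unfold avg wm
    rw [setLIntegral_withDensity_eq_setLIntegral_mul volume hw.coe_nnreal_ennreal hg₀.enorm
      (dil_meas a t I)]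
    congr 1
    apply lintegral_congr
    intro x
    rw [hfg x]
    rfl
  have key : ∀ j, closedBall 0 R ⊆ G j → ∫⁻ x in G j, ‖TT T f x‖ₑ ^ 2 ∂(wm volume σ) ≤
      (A ^ 2 * C : ℝ≥0) * ∫⁻ x, ‖g₀ x‖ₑ ^ 2 ∂(wm volume w) := by
    intro j hj
    obtain ⟨S, E, hE1, hE2, hE3, hE4, hE5⟩ := hdom f hf B hB 0 R h0 t _ hj
    have hac : wm volume σ ≪ volume := withDensity_absolutelyContinuous _ _
    have h1 : ∀ᵐ x ∂(wm volume σ).restrict (G j), ‖TT T f x‖ₑ ^ 2 ≤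
        (A * ∑' I : S, (gq t (I : Idx d)).indicator (fun _ => avg a t f I) x) ^ 2 := by
      rw [ae_restrict_iff' (hGm j)]
      filter_upwards [hac.ae_le hE5] with x hx hxG
      exact pow_le_pow_left₀ bot_le (hx hxG) 2
    have hmS : ∀ s : Finset S, Measurable (fun x => ∑ I ∈ s, (gq t (I : Idx d)).indicator
        (fun _ => avg a t f I) x) := by
      intro s
      apply Finset.measurable_fun_sum
      intro I _
      exact measurable_const.indicator (gq_meas _ _)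
    have hsup : ∀ x, (∑' I : S, (gq t (I : Idx d)).indicator (fun _ => avg a t f I) x) ^ 2 =
        ⨆ s : Finset S, (∑ I ∈ s, (gq t (I : Idx d)).indicator (fun _ => avg a t f I) x) ^ 2 := by
      intro x
      rw [ENNReal.tsum_eq_iSup_sum]
      exact (Monotone.map_iSup_of_continuousAt (f := fun y : ℝ≥0∞ => y ^ 2)
        (ENNReal.continuous_pow 2).continuousAt (fun a b hab => pow_le_pow_left₀ bot_le hab 2)
        (by simp))
    have hfin : ∀ s : Finset S, ∫⁻ x, (∑ I ∈ s, (gq t (I : Idx d)).indicator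
        (fun _ => avg a t f I) x) ^ 2 ∂(wm volume σ) ≤
        C * ∫⁻ x, ‖g₀ x‖ₑ ^ 2 ∂(wm volume w) := by
      intro s
      have h2 := hC w σ hw hσ hwf hσf hb₁ hb₂ t (s.map (Function.Embedding.subtype _)) E
        (by
          intro I hI
          obtain ⟨I', _, rfl⟩ := Finset.mem_map.1 hI
          exact hE1 _ I'.2)
        (by
          intro I hI
          obtain ⟨I', _, rfl⟩ := Finset.mem_map.1 hI
          exact hE2 _ I'.2)
        (by
          intro I hI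
          obtain ⟨I', _, rfl⟩ := Finset.mem_map.1 hI
          exact hE3 _ I'.2)
        (by
          intro I hI J hJ
          obtain ⟨I', _, rfl⟩ := Finset.mem_map.1 hI
          obtain ⟨J', _, rfl⟩ := Finset.mem_map.1 hJ
          exact hE4 _ I'.2 _ J'.2)
        (fun z => ‖g₀ z‖ₑ) hg₀.enorm
      refine le_trans (le_of_eq ?_) h2
      apply lintegral_congr
      intro x
      rw [Finset.sum_map]
      congr 1
      apply Finset.sum_congr rfl
      intro I _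
      rw [havg]
      rfl
    calc ∫⁻ x in G j, ‖TT T f x‖ₑ ^ 2 ∂(wm volume σ)
        ≤ ∫⁻ x in G j, (A * ∑' I : S, (gq t (I : Idx d)).indicator
            (fun _ => avg a t f I) x) ^ 2 ∂(wm volume σ) := lintegral_mono_ae h1
      _ ≤ ∫⁻ x, (A * ∑' I : S, (gq t (I : Idx d)).indicator
            (fun _ => avg a t f I) x) ^ 2 ∂(wm volume σ) := setLIntegral_le_lintegral _ _
      _ = A ^ 2 * ∫⁻ x, (∑' I : S, (gq t (I : Idx d)).indicator
            (fun _ => avg a t f I) x) ^ 2 ∂(wm volume σ) := by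
          simp_rw [mul_pow]
          rw [lintegral_const_mul' _ _ (by simp)]
      _ = A ^ 2 * ⨆ s : Finset S, ∫⁻ x, (∑ I ∈ s, (gq t (I : Idx d)).indicator
            (fun _ => avg a t f I) x) ^ 2 ∂(wm volume σ) := by
          simp_rw [hsup]
          rw [lintegral_iSup_directed (fun s => ((hmS s).pow_const 2).aemeasurable)]
          intro s s'
          classical
          refine ⟨s ∪ s', fun x => ?_, fun x => ?_⟩
          · exact pow_le_pow_left₀ bot_le (Finset.sum_le_sum_of_subset Finset.subset_union_left) 2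
          · exact pow_le_pow_left₀ bot_le (Finset.sum_le_sum_of_subset Finset.subset_union_right) 2
      _ ≤ A ^ 2 * (C * ∫⁻ x, ‖g₀ x‖ₑ ^ 2 ∂(wm volume w)) :=
          mul_le_mul' le_rfl (iSup_le hfin)
      _ = _ := by push_cast; ring
  have h3 : ∫⁻ x, ‖TT T f x‖ₑ ^ 2 ∂(wm volume σ) =
      ⨆ j, ∫⁻ x in G j, ‖TT T f x‖ₑ ^ 2 ∂(wm volume σ) := by
    rw [← setLIntegral_univ, ← hGU]
    exact setLIntegral_iUnion_of_directed _ hGmono.directed_le
  rw [h3]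
  apply iSup_le
  intro j
  obtain ⟨N, hN⟩ := exists_ball (d := d) R hR
  have h4 := key (max j N) (hN _ (le_max_right _ _))
  exact (lintegral_mono_set (hGmono (le_max_left j N))).trans h4

end Pool.Agent.H433R3.Sep
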