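import Pool.Agent.H433R3.Ml9
import Pool.Agent.H433R3.Sep21

set_option autoImplicit false
set_option linter.unusedSectionVars false
set_option linter.unusedVariables false

namespace Pool.Agent.H433R3.Ml

open MeasureTheory Pool.Agent.H433R3.Sep Metric Filter Topology
open scoped ENNReal NNReal

variable {d : ℕ} {𝕜 : Type*} [RCLike 𝕜]
variable {T : Lp 𝕜 2 (volume : Measure (Fin d → ℝ)) →L[𝕜] Lp 𝕜 2 (volume : Measure (Fin d → ℝ))}
variable {K : (Fin d → ℝ) → (Fin d → ℝ) → 𝕜}

lemma g0_pow {p q : ℝ} (hpq : p.HolderConjugate q) {w : (Fin d → ℝ) → ℝ} (hw : WData q w)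
    (F : (Fin d → ℝ) → ℝ≥0∞) (hF : Measurable F) :
    ∫⁻ x, (F x * (ENNReal.ofReal (sg q w x))⁻¹) ^ p ∂(WM (sg q w)) =
      ∫⁻ x, F x ^ p ∂(WM w) := by
  have hp := hpq.pos
  have hpp : (p - 1) * (q - 1) = 1 := by
    have := hpq.inv_add_inv_eq_one
    have hq := hpq.symm.pos
    field_simp at this
    nlinarith
  have hσm := sg_meas hw
  unfold WM
  have hmm : Measurable (fun x => (F x * (ENNReal.ofReal (sg q w x))⁻¹) ^ p) :=
    (hF.mul hσm.ennreal_ofReal.inv).pow_const p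
  rw [lintegral_withDensity_eq_lintegral_mul _ hσm.ennreal_ofReal hmm,
    lintegral_withDensity_eq_lintegral_mul _ hw.meas.ennreal_ofReal (hF.pow_const p)]
  apply lintegral_congr
  intro x
  simp only [Pi.mul_apply]
  have hs := sg_pos hw x
  rw [ENNReal.mul_rpow_of_nonneg _ _ hp.le, ← ENNReal.ofReal_inv_of_pos hs,
    ENNReal.ofReal_rpow_of_nonneg (by positivity) hp.le]
  have e1 : sg q w x * ((sg q w x)⁻¹) ^ p = w x := by
    rw [Real.inv_rpow hs.le, ← Real.rpow_neg hs.le]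
    calc sg q w x * sg q w x ^ (-p) = sg q w x ^ (1 + -p) := by
          rw [Real.rpow_add hs, Real.rpow_one]
      _ = w x := by
          unfold sg
          rw [← Real.rpow_mul (hw.pos x).le]
          have : (1 - q) * (1 + -p) = 1 := by linarith
          rw [this, Real.rpow_one]
  calc ENNReal.ofReal (sg q w x) * (F x ^ p * ENNReal.ofReal ((sg q w x)⁻¹ ^ p))
      = (ENNReal.ofReal (sg q w x) * ENNReal.ofReal ((sg q w x)⁻¹ ^ p)) * F x ^ p := by ring
    _ = ENNReal.ofReal (w x) * F x ^ p := by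
        rw [← ENNReal.ofReal_mul hs.le, e1]

lemma czoBdd (hd : 0 < d) (hT : IsCZO T K) {p q : ℝ} (hpq : p.HolderConjugate q) {θ η : ℝ}
    (hθ : 1 / p < θ) (hη : 1 / q < η) : ∃ C : ℝ≥0, ∀ w : (Fin d → ℝ) → ℝ, WData q w →
    ∀ N : ℝ, 0 ≤ N → OneSup p θ N w (sg q w) →
    ∀ f : (Fin d → ℝ) → 𝕜, Measurable f → ∀ B : ℝ≥0, (∀ x, ‖f x‖ ≤ B) → ∀ R : ℝ, 0 ≤ R →
      (∀ x, x ∉ closedBall 0 R → f x = 0) → ∫⁻ x, ‖f x‖ₑ ^ p ∂(WM w) ≠ ∞ →
      (∀ lam : ℝ, 0 < lam → ENNReal.ofReal (lam ^ p) *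
        WM w {y | ENNReal.ofReal lam < ‖TT T f y‖ₑ} ≤
        C * ENNReal.ofReal (N ^ p) * ∫⁻ x, ‖f x‖ₑ ^ p ∂(WM w)) ∧
      (∀ N' : ℝ, 0 ≤ N' → OneSup q η N' (sg q w) w →
        ∫⁻ y, ‖TT T f y‖ₑ ^ p ∂(WM w) ≤
        C * ENNReal.ofReal ((N + N') ^ p) * ∫⁻ x, ‖f x‖ₑ ^ p ∂(WM w)) := by
  obtain ⟨a, A, ha, hdom⟩ := domin hd hT
  obtain ⟨C₀, hC₀⟩ := famBound hd hpq hθ hη a ha
  have hp := hpq.pos
  set A' : ℝ := (A : ℝ) + 1 with hA'
  have hA'0 : 0 < A' := by positivity
  refine ⟨(A' ^ p).toNNReal * C₀, ?_⟩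
  have hA'p : ((((A' ^ p).toNNReal * C₀ : ℝ≥0)) : ℝ≥0∞) = ENNReal.ofReal (A' ^ p) * C₀ := by
    rw [ENNReal.coe_mul]; rfl
  rw [hA'p]
  intro w hw N hN hone f hf B hB R hR h0 hfin
  set t : Fin d → Bool := fun _ => true with ht
  set G : ℕ → Set (Fin d → ℝ) := fun j => gq t (ix t (j:ℤ) 0) with hG
  have hGm : ∀ j, MeasurableSet (G j) := fun j => gq_meas _ _
  have hGmono : Monotone G := zero_mem_grid t
  have hGU : ⋃ j, G j = Set.univ := by
    apply Set.eq_univ_of_forall
    intro x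
    obtain ⟨N, hN⟩ := exists_ball (d := d) ‖x‖ (norm_nonneg x)
    have hx : x ∈ closedBall (0 : Fin d → ℝ) ‖x‖ := by
      rw [mem_closedBall, dist_zero_right]
    exact Set.mem_iUnion.2 ⟨N, hN N le_rfl hx⟩
  have hσm := sg_meas hw
  set g₀ : (Fin d → ℝ) → ℝ≥0∞ := fun x => ‖f x‖ₑ * (ENNReal.ofReal (sg q w x))⁻¹ with hg₀
  have hg₀m : Measurable g₀ := hf.enorm.mul hσm.ennreal_ofReal.inv
  have hg₀p : ∫⁻ x, g₀ x ^ p ∂(WM (sg q w)) = ∫⁻ x, ‖f x‖ₑ ^ p ∂(WM w) :=
    g0_pow hpq hw (fun x => ‖f x‖ₑ) hf.enorm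
  have havg : ∀ I, avg a t f I =
      (∫⁻ z in dil a t I, g₀ z ∂(WM (sg q w))) / volume (dil a t I) := by
    intro I
    unfold avg WM
    rw [setLIntegral_withDensity_eq_setLIntegral_mul volume hσm.ennreal_ofReal hg₀m
      (dil_meas a t I)]
    congr 1
    apply lintegral_congr
    intro x
    simp only [Pi.mul_apply, hg₀]
    have hs := sg_pos hw x
    have h1 : ENNReal.ofReal (sg q w x) ≠ 0 := by simpa using hs
    calc ‖f x‖ₑ = (ENNReal.ofReal (sg q w x) * (ENNReal.ofReal (sg q w x))⁻¹) * ‖f x‖ₑ := by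
          rw [ENNReal.mul_inv_cancel h1 ENNReal.ofReal_ne_top, one_mul]
      _ = _ := by ring
  have hac : WM w ≪ volume := withDensity_absolutelyContinuous _ _
  have hdj : ∀ j, closedBall 0 R ⊆ G j → ∃ (S : Set (Idx d)),
      (∀ᵐ x, x ∈ G j → ‖TT T f x‖ₑ ≤ A * ∑' I : S, (gq t (I : Idx d)).indicator
        (fun _ => avg a t f I) x) ∧
      ∀ s : Finset S, (∀ lam : ℝ, 0 < lam → ENNReal.ofReal (lam ^ p) *
        WM w {y | ENNReal.ofReal lam < ∑ I ∈ s, (gq t (I : Idx d)).indicator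
          (fun _ => avg a t f I) y} ≤
        C₀ * ENNReal.ofReal (N ^ p) * ∫⁻ x, ‖f x‖ₑ ^ p ∂(WM w)) ∧
      (∀ N' : ℝ, 0 ≤ N' → OneSup q η N' (sg q w) w →
        ∫⁻ y, (∑ I ∈ s, (gq t (I : Idx d)).indicator (fun _ => avg a t f I) y) ^ p ∂(WM w) ≤
        C₀ * ENNReal.ofReal ((N + N') ^ p) * ∫⁻ x, ‖f x‖ₑ ^ p ∂(WM w)) := by
    intro j hj
    obtain ⟨S, E, hE1, hE2, hE3, hE4, hE5⟩ := hdom f hf B hB 0 R h0 t _ hj
    refine ⟨S, hE5, ?_⟩
    intro s
    have h2 := hC₀ w hw N hN hone t (s.map (Function.Embedding.subtype _)) E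
      (by
        intro I hI
        obtain ⟨I', _, rfl⟩ := Finset.mem_map.1 hI
        exact hE1 _ I'.2)
      (by
        intro I hI
        obtain ⟨I', _, rfl⟩ := Finset.mem_map.1 hI
        exact hE2 _ I'.2)
      (by
        intro I hI
        obtain ⟨I', _, rfl⟩ := Finset.mem_map.1 hI
        exact hE3 _ I'.2)
      (by
        intro I hI J hJ
        obtain ⟨I', _, rfl⟩ := Finset.mem_map.1 hI
        obtain ⟨J', _, rfl⟩ := Finset.mem_map.1 hJ
        exact hE4 _ I'.2 _ J'.2)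
      g₀ hg₀m (by rw [hg₀p]; exact hfin)
    have e : ∀ y, ∑ I ∈ s.map (Function.Embedding.subtype _), (gq t I).indicator
        (fun _ => (∫⁻ z in dil a t I, g₀ z ∂(WM (sg q w))) / volume (dil a t I)) y =
        ∑ I ∈ s, (gq t (I : Idx d)).indicator (fun _ => avg a t f I) y := by
      intro y
      rw [Finset.sum_map]
      apply Finset.sum_congr rfl
      intro I _
      rw [havg]
      rfl
    simp only [e] at h2
    rw [hg₀p] at h2
    exact h2
  constructor
  · -- weak type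
    intro lam hlam
    have key : ∀ j, closedBall 0 R ⊆ G j → ENNReal.ofReal (lam ^ p) *
        WM w ({y | ENNReal.ofReal lam < ‖TT T f y‖ₑ} ∩ G j) ≤
        ENNReal.ofReal (A' ^ p) * C₀ * ENNReal.ofReal (N ^ p) * ∫⁻ x, ‖f x‖ₑ ^ p ∂(WM w) := by
      intro j hj
      obtain ⟨S, hS1, hS2⟩ := hdj j hj
      set lam' : ℝ := lam / A' with hlam'
      have hlam'0 : 0 < lam' := by positivity
      set Ψ : Finset S → (Fin d → ℝ) → ℝ≥0∞ := fun s y => ∑ I ∈ s, (gq t (I : Idx d)).indicator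
          (fun _ => avg a t f I) y with hΨ
      have h1 : WM w ({y | ENNReal.ofReal lam < ‖TT T f y‖ₑ} ∩ G j) ≤
          WM w (⋃ s : Finset S, {y | ENNReal.ofReal lam' < Ψ s y}) := by
        apply measure_mono_ae
        filter_upwards [hac.ae_le hS1] with x hx
        intro hx'
        have hxa : ENNReal.ofReal lam < ‖TT T f x‖ₑ := hx'.1
        have hxb := hx hx'.2
        show x ∈ ⋃ s : Finset S, {y | ENNReal.ofReal lam' < Ψ s y}
        by_contra hcon
        simp only [Set.mem_iUnion, not_exists] at hcon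
        have h2 : ∑' I : S, (gq t (I : Idx d)).indicator (fun _ => avg a t f I) x ≤
            ENNReal.ofReal lam' := by
          rw [ENNReal.tsum_eq_iSup_sum]
          apply iSup_le
          intro s
          by_contra h3
          exact hcon s (not_le.1 h3)
        have h3 : ‖TT T f x‖ₑ ≤ ENNReal.ofReal lam := by
          calc ‖TT T f x‖ₑ ≤ A * ENNReal.ofReal lam' := hxb.trans (mul_le_mul' le_rfl h2)
            _ = ENNReal.ofReal ((A : ℝ) * lam') := by
                rw [ENNReal.ofReal_mul A.coe_nonneg, ENNReal.ofReal_coe_nnreal]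
            _ ≤ ENNReal.ofReal lam := by
                apply ENNReal.ofReal_le_ofReal
                have e : lam = A' * lam' := by rw [hlam']; field_simp
                rw [e]
                apply mul_le_mul_of_nonneg_right _ hlam'0.le
                rw [hA']; linarith
        exact absurd hxa (not_lt.2 h3)
      have hdir : Directed (· ⊆ ·) (fun s : Finset S => {y | ENNReal.ofReal lam' < Ψ s y}) := by
        classical
        intro s s'
        refine ⟨s ∪ s', ?_, ?_⟩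
        · intro y hy
          have hy' : ENNReal.ofReal lam' < Ψ s y := hy
          exact lt_of_lt_of_le hy' (Finset.sum_le_sum_of_subset Finset.subset_union_left)
        · intro y hy
          have hy' : ENNReal.ofReal lam' < Ψ s' y := hy
          exact lt_of_lt_of_le hy' (Finset.sum_le_sum_of_subset Finset.subset_union_right)
      have e1 : ENNReal.ofReal (lam ^ p) = ENNReal.ofReal (A' ^ p) * ENNReal.ofReal (lam' ^ p) := by
        rw [← ENNReal.ofReal_mul (by positivity), ← Real.mul_rpow hA'0.le hlam'0.le]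
        congr 2
        rw [hlam']; field_simp
      calc ENNReal.ofReal (lam ^ p) * WM w ({y | ENNReal.ofReal lam < ‖TT T f y‖ₑ} ∩ G j)
          ≤ ENNReal.ofReal (lam ^ p) * WM w (⋃ s : Finset S, {y | ENNReal.ofReal lam' < Ψ s y}) :=
            mul_le_mul' le_rfl h1
        _ = ENNReal.ofReal (A' ^ p) * ⨆ s : Finset S,
              ENNReal.ofReal (lam' ^ p) * WM w {y | ENNReal.ofReal lam' < Ψ s y} := by
            rw [hdir.measure_iUnion, e1, mul_assoc, ENNReal.mul_iSup]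
        _ ≤ ENNReal.ofReal (A' ^ p) *
              (C₀ * ENNReal.ofReal (N ^ p) * ∫⁻ x, ‖f x‖ₑ ^ p ∂(WM w)) := by
            apply mul_le_mul' le_rfl
            exact iSup_le (fun s => (hS2 s).1 lam' hlam'0)
        _ = _ := by ring
    have h3 : {y | ENNReal.ofReal lam < ‖TT T f y‖ₑ} =
        ⋃ j, ({y | ENNReal.ofReal lam < ‖TT T f y‖ₑ} ∩ G j) := by
      rw [← Set.inter_iUnion, hGU, Set.inter_univ]
    have hmono : Monotone (fun j => {y | ENNReal.ofReal lam < ‖TT T f y‖ₑ} ∩ G j) := by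
      intro i j hij
      exact Set.inter_subset_inter_right _ (hGmono hij)
    rw [h3, hmono.measure_iUnion, ENNReal.mul_iSup]
    apply iSup_le
    intro j
    obtain ⟨N₁, hN₁⟩ := exists_ball (d := d) R hR
    have h4 := key (max j N₁) (hN₁ _ (le_max_right _ _))
    exact (mul_le_mul' le_rfl (measure_mono (hmono (le_max_left j N₁)))).trans h4
  · -- strong type
    intro N' hN' hone'
    have key : ∀ j, closedBall 0 R ⊆ G j → ∫⁻ x in G j, ‖TT T f x‖ₑ ^ p ∂(WM w) ≤
        ENNReal.ofReal (A' ^ p) * C₀ * ENNReal.ofReal ((N + N') ^ p) *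
          ∫⁻ x, ‖f x‖ₑ ^ p ∂(WM w) := by
      intro j hj
      obtain ⟨S, hS1, hS2⟩ := hdj j hj
      have h1 : ∀ᵐ x ∂(WM w).restrict (G j), ‖TT T f x‖ₑ ^ p ≤
          (A * ∑' I : S, (gq t (I : Idx d)).indicator (fun _ => avg a t f I) x) ^ p := by
        rw [ae_restrict_iff' (hGm j)]
        filter_upwards [hac.ae_le hS1] with x hx hxG
        exact ENNReal.rpow_le_rpow (hx hxG) hp.le
      have hmS : ∀ s : Finset S, Measurable (fun x => ∑ I ∈ s, (gq t (I : Idx d)).indicator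
          (fun _ => avg a t f I) x) := by
        intro s
        apply Finset.measurable_fun_sum
        intro I _
        exact measurable_const.indicator (gq_meas _ _)
      have hsup : ∀ x, (∑' I : S, (gq t (I : Idx d)).indicator (fun _ => avg a t f I) x) ^ p =
          ⨆ s : Finset S, (∑ I ∈ s, (gq t (I : Idx d)).indicator (fun _ => avg a t f I) x) ^ p := by
        intro x
        rw [ENNReal.tsum_eq_iSup_sum]
        exact (Monotone.map_iSup_of_continuousAt (f := fun y : ℝ≥0∞ => y ^ p)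
          ENNReal.continuous_rpow_const.continuousAt
          (fun a b hab => ENNReal.rpow_le_rpow hab hp.le)
          (by simp [hp]))
      have e1 : (A : ℝ≥0∞) ^ p ≤ ENNReal.ofReal (A' ^ p) := by
        rw [← ENNReal.ofReal_coe_nnreal, ENNReal.ofReal_rpow_of_nonneg A.coe_nonneg hp.le]
        apply ENNReal.ofReal_le_ofReal
        apply Real.rpow_le_rpow A.coe_nonneg _ hp.le
        rw [hA']; linarith
      have hAp : (A : ℝ≥0∞) ^ p ≠ ∞ := ENNReal.rpow_ne_top_of_nonneg hp.le (by simp)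
      calc ∫⁻ x in G j, ‖TT T f x‖ₑ ^ p ∂(WM w)
          ≤ ∫⁻ x in G j, (A * ∑' I : S, (gq t (I : Idx d)).indicator
              (fun _ => avg a t f I) x) ^ p ∂(WM w) := lintegral_mono_ae h1
        _ ≤ ∫⁻ x, (A * ∑' I : S, (gq t (I : Idx d)).indicator
              (fun _ => avg a t f I) x) ^ p ∂(WM w) := setLIntegral_le_lintegral _ _
        _ = (A : ℝ≥0∞) ^ p * ∫⁻ x, (∑' I : S, (gq t (I : Idx d)).indicator
              (fun _ => avg a t f I) x) ^ p ∂(WM w) := by
            simp_rw [ENNReal.mul_rpow_of_nonneg _ _ hp.le]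
            rw [lintegral_const_mul' _ _ hAp]
        _ = (A : ℝ≥0∞) ^ p * ⨆ s : Finset S, ∫⁻ x, (∑ I ∈ s, (gq t (I : Idx d)).indicator
              (fun _ => avg a t f I) x) ^ p ∂(WM w) := by
            simp_rw [hsup]
            rw [lintegral_iSup_directed (fun s => ((hmS s).pow_const p).aemeasurable)]
            intro s s'
            classical
            refine ⟨s ∪ s', fun x => ?_, fun x => ?_⟩
            · exact ENNReal.rpow_le_rpow
                (Finset.sum_le_sum_of_subset Finset.subset_union_left) hp.le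
            · exact ENNReal.rpow_le_rpow
                (Finset.sum_le_sum_of_subset Finset.subset_union_right) hp.le
        _ ≤ ENNReal.ofReal (A' ^ p) * (C₀ * ENNReal.ofReal ((N + N') ^ p) *
              ∫⁻ x, ‖f x‖ₑ ^ p ∂(WM w)) :=
            mul_le_mul' e1 (iSup_le (fun s => (hS2 s).2 N' hN' hone'))
        _ = _ := by ring
    have h3 : ∫⁻ x, ‖TT T f x‖ₑ ^ p ∂(WM w) =
        ⨆ j, ∫⁻ x in G j, ‖TT T f x‖ₑ ^ p ∂(WM w) := by
      rw [← setLIntegral_univ, ← hGU]
      exact setLIntegral_iUnion_of_directed _ hGmono.directed_le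
    rw [h3]
    apply iSup_le
    intro j
    obtain ⟨N₁, hN₁⟩ := exists_ball (d := d) R hR
    have h4 := key (max j N₁) (hN₁ _ (le_max_right _ _))
    exact (lintegral_mono_set (hGmono (le_max_left j N₁))).trans h4

end Pool.Agent.H433R3.Ml
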