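import Pool.Agent.H433R3.Sep21

set_option autoImplicit false
set_option linter.unusedSectionVars false
set_option linter.unusedVariables false

namespace Pool.Agent.H433R3.Sep

open MeasureTheory Metric Filter Topology
open scoped ENNReal NNReal

variable {d : ℕ} {𝕜 : Type*} [RCLike 𝕜]
variable {T : Lp 𝕜 2 (volume : Measure (Fin d → ℝ)) →L[𝕜] Lp 𝕜 2 (volume : Measure (Fin d → ℝ))}
variable {K : (Fin d → ℝ) → (Fin d → ℝ) → 𝕜}

/-- Fatou for sets. -/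
lemma fatouSet {α : Type*} [MeasurableSpace α] {μ : Measure α} {v : ℕ → α → ℝ≥0∞} {u : α → ℝ≥0∞}
    (hv : ∀ n, AEMeasurable (v n) μ) (hlim : ∀ᵐ x ∂μ, Tendsto (fun n => v n x) atTop (𝓝 (u x)))
    (lam : ℝ≥0∞) (b : ℕ → ℝ≥0∞) (B : ℝ≥0∞) (hb : ∀ n, μ {x | lam < v n x} ≤ b n)
    (hB : Tendsto b atTop (𝓝 B)) : μ {x | lam < u x} ≤ B := by
  have hu : AEMeasurable u μ := aemeasurable_of_tendsto_metrizable_ae atTop hv hlim
  have hms : NullMeasurableSet {x | lam < u x} μ := nullMeasurableSet_lt aemeasurable_const hu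
  have hmn : ∀ n, NullMeasurableSet {x | lam < v n x} μ := fun n =>
    nullMeasurableSet_lt aemeasurable_const (hv n)
  have h1 : μ {x | lam < u x} = ∫⁻ x, {x | lam < u x}.indicator 1 x ∂μ :=
    (lintegral_indicator_one₀ hms).symm
  have h2 : ∀ᵐ x ∂μ, {x | lam < u x}.indicator (1 : α → ℝ≥0∞) x ≤
      liminf (fun n => {x | lam < v n x}.indicator (1 : α → ℝ≥0∞) x) atTop := by
    filter_upwards [hlim] with x hx
    by_cases h3 : lam < u x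
    · have h4 : ∀ᶠ n in atTop, lam < v n x := hx.eventually (lt_mem_nhds h3)
      have h5 : (fun n => {x | lam < v n x}.indicator (1 : α → ℝ≥0∞) x) =ᶠ[atTop] fun _ => 1 := by
        filter_upwards [h4] with n hn
        have hn' : x ∈ {x | lam < v n x} := hn
        rw [Set.indicator_of_mem hn']; rfl
      rw [liminf_congr h5]
      have h6 : x ∈ {x | lam < u x} := h3
      rw [Set.indicator_of_mem h6]
      simp
    · have h6 : x ∉ {x | lam < u x} := h3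
      rw [Set.indicator_of_notMem h6]
      exact bot_le
  rw [h1]
  calc ∫⁻ x, {x | lam < u x}.indicator 1 x ∂μ
      ≤ ∫⁻ x, liminf (fun n => {x | lam < v n x}.indicator (1 : α → ℝ≥0∞) x) atTop ∂μ :=
        lintegral_mono_ae h2
    _ ≤ liminf (fun n => ∫⁻ x, {x | lam < v n x}.indicator (1 : α → ℝ≥0∞) x ∂μ) atTop :=
        lintegral_liminf_le' (fun n => aemeasurable_const.indicator₀ (hmn n))
    _ ≤ liminf b atTop := by
        refine liminf_le_liminf (Eventually.of_forall fun n => ?_)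
        show ∫⁻ x, {x | lam < v n x}.indicator (1 : α → ℝ≥0∞) x ∂μ ≤ b n
        rw [lintegral_indicator_one₀ (hmn n)]
        exact hb n
    _ = B := hB.liminf_eq

lemma extVal (hd : 0 < d) (hT : IsCZO T K) (h : (Fin d → ℝ) → 𝕜)
    (hh : AEStronglyMeasurable h volume)
    (H : ℕ → (Fin d → ℝ) → 𝕜) (hH2 : ∀ n, MemLp (H n) 2 volume) (hH1 : ∀ n, MemLp (H n) 1 volume)
    (hlim : Tendsto (fun n => ∫⁻ x, ‖H n x - h x‖ₑ) atTop (𝓝 0)) :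
    ∃ g : (Fin d → ℝ) → 𝕜, StronglyMeasurable g ∧
      (∃ m : ℕ → ℕ, ∀ᵐ x, Tendsto (fun n => TT T (H (m n)) x) atTop (𝓝 (g x))) ∧
      ∀ F : ℕ → (Fin d → ℝ) → 𝕜, (∀ n, MemLp (F n) 2 volume) → (∀ n, MemLp (F n) 1 volume) →
        Tendsto (fun n => ∫⁻ x, ‖F n x - h x‖ₑ) atTop (𝓝 0) →
        TendstoInMeasure volume (fun n => TT T (F n)) atTop g := by
  obtain ⟨W, hW⟩ := weakGen hd hT
  have tri : ∀ F G : (Fin d → ℝ) → 𝕜, MemLp F 1 volume → MemLp G 1 volume →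
      ∫⁻ x, ‖F x - G x‖ₑ ≤ (∫⁻ x, ‖F x - h x‖ₑ) + ∫⁻ x, ‖G x - h x‖ₑ := by
    intro F G hF hG
    have hm0 : AEMeasurable (fun x => ‖F x - h x‖ₑ) volume := (hF.1.sub hh).enorm
    rw [← lintegral_add_left' hm0]
    apply lintegral_mono
    intro x
    show ‖F x - G x‖ₑ ≤ ‖F x - h x‖ₑ + ‖G x - h x‖ₑ
    have e : F x - G x = (F x - h x) - (G x - h x) := by ring
    rw [e]
    exact enorm_sub_le
  have weak : ∀ F G : (Fin d → ℝ) → 𝕜, MemLp F 2 volume → MemLp F 1 volume → MemLp G 2 volume →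
      MemLp G 1 volume → ∀ lam : ℝ≥0, 0 < lam →
      (lam : ℝ≥0∞) * volume {x | (lam : ℝ≥0∞) < ‖TT T F x - TT T G x‖ₑ} ≤
        W * ∫⁻ x, ‖F x - G x‖ₑ := by
    intro F G hF2 hF1 hG2 hG1 lam hlam
    have h1 := hW (fun x => F x - G x) (hF2.sub hG2) (hF1.sub hG1) lam hlam
    refine le_trans (le_of_eq ?_) h1
    congr 1
    apply measure_congr
    filter_upwards [TT_sub (T := T) hF2 hG2] with x hx
    show ((lam : ℝ≥0∞) < ‖TT T F x - TT T G x‖ₑ) = ((lam : ℝ≥0∞) < ‖TT T (fun x => F x - G x) x‖ₑ)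
    rw [hx]
  -- choice of a fast subsequence
  have hm : ∀ n : ℕ, ∃ k, ∫⁻ x, ‖H k x - h x‖ₑ ≤ (4⁻¹ : ℝ≥0∞) ^ n := by
    intro n
    have h1 : (0:ℝ≥0∞) < (4⁻¹ : ℝ≥0∞) ^ n := ENNReal.pow_pos (by simp) n
    exact (hlim.eventually (ge_mem_nhds h1)).exists
  choose m hm using hm
  set u : ℕ → (Fin d → ℝ) → 𝕜 := fun n => TT T (H (m n)) with hu
  have hstep : ∀ n : ℕ, volume {x | (((2⁻¹ : ℝ≥0) ^ n : ℝ≥0) : ℝ≥0∞) < ‖u (n + 1) x - u n x‖ₑ} ≤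
      (2 * W : ℝ≥0∞) * (2⁻¹ : ℝ≥0∞) ^ n := by
    intro n
    have h1 := weak (H (m (n + 1))) (H (m n)) (hH2 _) (hH1 _) (hH2 _) (hH1 _) ((2⁻¹ : ℝ≥0) ^ n)
      (by positivity)
    have h2 : ∫⁻ x, ‖H (m (n + 1)) x - H (m n) x‖ₑ ≤ 2 * (4⁻¹ : ℝ≥0∞) ^ n := by
      refine (tri _ _ (hH1 _) (hH1 _)).trans ?_
      rw [two_mul]
      apply add_le_add _ (hm n)
      refine (hm (n + 1)).trans ?_
      exact pow_le_pow_right_of_le_one' (by
        rw [ENNReal.inv_le_one]; norm_num) (Nat.le_succ n)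
    have h3 : (((2⁻¹ : ℝ≥0) ^ n : ℝ≥0) : ℝ≥0∞) = (2⁻¹ : ℝ≥0∞) ^ n := by
      push_cast
      rfl
    have h4 : (2⁻¹ : ℝ≥0∞) ^ n * volume {x | (((2⁻¹ : ℝ≥0) ^ n : ℝ≥0) : ℝ≥0∞) <
        ‖u (n + 1) x - u n x‖ₑ} ≤ W * (2 * (4⁻¹ : ℝ≥0∞) ^ n) := by
      rw [← h3]
      exact h1.trans (mul_le_mul' le_rfl h2)
    have h5 : (2:ℝ≥0∞) ^ n * (2⁻¹ : ℝ≥0∞) ^ n = 1 := by
      rw [← mul_pow, ENNReal.mul_inv_cancel (by norm_num) (by norm_num), one_pow]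
    have h6 : (2:ℝ≥0∞) ^ n * (4⁻¹ : ℝ≥0∞) ^ n = (2⁻¹ : ℝ≥0∞) ^ n := by
      have e4 : (4⁻¹ : ℝ≥0∞) = 2⁻¹ * 2⁻¹ := by
        rw [← ENNReal.mul_inv (by norm_num) (by norm_num)]; norm_num
      rw [e4, mul_pow, ← mul_assoc, h5, one_mul]
    calc volume {x | (((2⁻¹ : ℝ≥0) ^ n : ℝ≥0) : ℝ≥0∞) < ‖u (n + 1) x - u n x‖ₑ}
        = (2:ℝ≥0∞) ^ n * ((2⁻¹ : ℝ≥0∞) ^ n * volume {x | (((2⁻¹ : ℝ≥0) ^ n : ℝ≥0) : ℝ≥0∞) <
            ‖u (n + 1) x - u n x‖ₑ}) := by rw [← mul_assoc, h5, one_mul]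
      _ ≤ (2:ℝ≥0∞) ^ n * (W * (2 * (4⁻¹ : ℝ≥0∞) ^ n)) := mul_le_mul' le_rfl h4
      _ = 2 * W * ((2:ℝ≥0∞) ^ n * (4⁻¹ : ℝ≥0∞) ^ n) := by ring
      _ = _ := by rw [h6]
  have hsum : ∑' n, volume {x | (((2⁻¹ : ℝ≥0) ^ n : ℝ≥0) : ℝ≥0∞) < ‖u (n + 1) x - u n x‖ₑ} ≠ ∞ := by
    apply ne_of_lt
    refine lt_of_le_of_lt (ENNReal.tsum_le_tsum hstep) ?_
    rw [ENNReal.tsum_mul_left, ENNReal.tsum_geometric, ENNReal.one_sub_inv_two, inv_inv]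
    exact ENNReal.mul_lt_top (ENNReal.mul_lt_top (by simp) (by simp)) (by simp)
  have hBC := ae_eventually_notMem hsum
  have hcon : ∀ᵐ x, ∃ l, Tendsto (fun n => u n x) atTop (𝓝 l) := by
    filter_upwards [hBC] with x hx
    obtain ⟨N, hN⟩ := eventually_atTop.1 hx
    have h1 : CauchySeq (fun k => u (k + N) x) := by
      apply cauchySeq_of_edist_le_geometric_two 1 (by simp)
      intro k
      have h2 : ¬ ((((2⁻¹ : ℝ≥0) ^ (k + N) : ℝ≥0) : ℝ≥0∞) < ‖u (k + N + 1) x - u (k + N) x‖ₑ) :=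
        hN (k + N) (by omega)
      rw [not_lt] at h2
      rw [edist_comm, edist_eq_enorm_sub]
      have e1 : k + 1 + N = k + N + 1 := by ring
      rw [e1]
      refine h2.trans ?_
      push_cast
      rw [pow_add, one_div, ENNReal.inv_pow]
      have h3 : ((2 : ℝ≥0∞)⁻¹) ^ N ≤ 1 := pow_le_one₀ bot_le (by
        rw [ENNReal.inv_le_one]; norm_num)
      calc ((2 : ℝ≥0∞)⁻¹) ^ k * ((2 : ℝ≥0∞)⁻¹) ^ N
          ≤ ((2 : ℝ≥0∞)⁻¹) ^ k * 1 := mul_le_mul' le_rfl h3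
        _ = _ := by rw [mul_one]
    obtain ⟨l, hl⟩ := cauchySeq_tendsto_of_complete h1
    exact ⟨l, (tendsto_add_atTop_iff_nat (f := fun n => u n x) N).1 hl⟩
  obtain ⟨g, hg, hglim⟩ := exists_stronglyMeasurable_limit_of_tendsto_ae
    (fun n => TT_aesm (T := T) (H (m n))) hcon
  refine ⟨g, hg, ⟨m, hglim⟩, ?_⟩
  have hwk : ∀ F : (Fin d → ℝ) → 𝕜, MemLp F 2 volume → MemLp F 1 volume → ∀ lam : ℝ≥0, 0 < lam →
      volume {x | (lam : ℝ≥0∞) < ‖TT T F x - g x‖ₑ} ≤ W * (∫⁻ x, ‖F x - h x‖ₑ) / lam := by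
    intro F hF2 hF1 lam hlam
    have hl0 : (lam : ℝ≥0∞) ≠ 0 := by simpa using hlam.ne'
    apply fatouSet (v := fun n x => ‖TT T F x - u n x‖ₑ)
      (fun n => ((TT_aesm F).sub (TT_aesm _)).enorm) _ lam
      (fun n => W * ((∫⁻ x, ‖F x - h x‖ₑ) + (4⁻¹ : ℝ≥0∞) ^ n) / lam)
    · intro n
      rw [ENNReal.le_div_iff_mul_le (Or.inl hl0) (Or.inl ENNReal.coe_ne_top), mul_comm]
      refine (weak F (H (m n)) hF2 hF1 (hH2 _) (hH1 _) lam hlam).trans ?_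
      apply mul_le_mul' le_rfl
      exact (tri _ _ hF1 (hH1 _)).trans (add_le_add le_rfl (hm n))
    · apply ENNReal.Tendsto.div_const _ (Or.inr hl0)
      apply ENNReal.Tendsto.const_mul _ (Or.inr ENNReal.coe_ne_top)
      have h1 : Tendsto (fun n : ℕ => (4⁻¹ : ℝ≥0∞) ^ n) atTop (𝓝 0) :=
        ENNReal.tendsto_pow_atTop_nhds_zero_of_lt_one (by
          rw [ENNReal.inv_lt_one]; norm_num)
      have h2 := (tendsto_const_nhds (x := ∫⁻ x, ‖F x - h x‖ₑ) (f := atTop (α := ℕ))).add h1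
      rwa [add_zero] at h2
    · filter_upwards [hglim] with x hx
      exact (tendsto_const_nhds.sub hx).enorm
  intro F hF2 hF1 hF ε hε
  obtain ⟨lam, hl1, hl2⟩ := ENNReal.lt_iff_exists_nnreal_btwn.1 hε
  have hlam : 0 < lam := by simpa using hl1
  have hl0 : (lam : ℝ≥0∞) ≠ 0 := by simpa using hlam.ne'
  have h3 : Tendsto (fun n => W * (∫⁻ x, ‖F n x - h x‖ₑ) / (lam : ℝ≥0∞)) atTop (𝓝 (W * 0 / lam)) :=
    ENNReal.Tendsto.div_const (ENNReal.Tendsto.const_mul hF (Or.inr ENNReal.coe_ne_top))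
      (Or.inr hl0)
  rw [mul_zero, ENNReal.zero_div] at h3
  apply tendsto_of_tendsto_of_tendsto_of_le_of_le tendsto_const_nhds h3 (fun n => bot_le)
  intro n
  refine le_trans (measure_mono ?_) (hwk (F n) (hF2 n) (hF1 n) lam hlam)
  intro x hx
  have hx' : ε ≤ edist (TT T (F n) x) (g x) := hx
  show (lam : ℝ≥0∞) < ‖TT T (F n) x - g x‖ₑ
  rw [← edist_eq_enorm_sub]
  exact lt_of_lt_of_le hl2 hx'

end Pool.Agent.H433R3.Sep
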