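import Pool.Agent.H433R3.Ml10
import Pool.Agent.H433R3.Sep22

set_option autoImplicit false
set_option linter.unusedSectionVars false
set_option linter.unusedVariables false

namespace Pool.Agent.H433R3.Ml

open MeasureTheory Pool.Agent.H433R3.Sep Metric Filter Topology
open scoped ENNReal NNReal

variable {d : ℕ} {𝕜 : Type*} [RCLike 𝕜]
variable {T : Lp 𝕜 2 (volume : Measure (Fin d → ℝ)) →L[𝕜] Lp 𝕜 2 (volume : Measure (Fin d → ℝ))}
variable {K : (Fin d → ℝ) → (Fin d → ℝ) → 𝕜}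

/-- approximation in `L²` by bounded functions with bounded support, together with almost
everywhere convergence of the images along a subsequence -/
lemma approxL2 (f : (Fin d → ℝ) → 𝕜) (hf : Measurable f) (hf2 : MemLp f 2 volume) :
    ∃ (H : ℕ → (Fin d → ℝ) → 𝕜) (b : ℕ → ℝ≥0), (∀ n, Measurable (H n)) ∧
      (∀ n x, ‖H n x‖ ≤ b n) ∧ (∀ n, ∃ R : ℝ, 0 ≤ R ∧ ∀ x, x ∉ closedBall 0 R → H n x = 0) ∧
      (∀ n x, ‖H n x‖ₑ ≤ ‖f x‖ₑ) ∧
      ∀ᵐ x, Tendsto (fun n => TT T (H n) x) atTop (𝓝 (TT T f x)) := by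
  set A : ℕ → Set (Fin d → ℝ) := fun n => closedBall 0 n ∩ {x | ‖f x‖ ≤ n} with hA
  have hAm : ∀ n, MeasurableSet (A n) := fun n =>
    measurableSet_closedBall.inter (measurableSet_le hf.norm measurable_const)
  set H : ℕ → (Fin d → ℝ) → 𝕜 := fun n => (A n).indicator f with hH
  have hHm : ∀ n, Measurable (H n) := fun n => hf.indicator (hAm n)
  have hHb : ∀ n x, ‖H n x‖ ≤ ((n : ℝ≥0) : ℝ) := by
    intro n x
    by_cases hx : x ∈ A n
    · simp only [hH]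
      rw [Set.indicator_of_mem hx]
      have : ‖f x‖ ≤ n := hx.2
      simpa using this
    · simp only [hH]
      rw [Set.indicator_of_notMem hx, norm_zero]
      positivity
  have hH0 : ∀ (n : ℕ) (x : Fin d → ℝ), x ∉ closedBall (0 : Fin d → ℝ) n → H n x = 0 := by
    intro n x hx
    simp only [hH]
    rw [Set.indicator_of_notMem (fun h' => hx h'.1)]
  have hle : ∀ n x, ‖H n x‖ₑ ≤ ‖f x‖ₑ := by
    intro n x
    by_cases hx : x ∈ A n
    · simp only [hH]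
      rw [Set.indicator_of_mem hx]
    · simp only [hH]
      rw [Set.indicator_of_notMem hx, enorm_zero]; exact bot_le
  have hH2 : ∀ n, MemLp (H n) 2 volume := fun n => hf2.indicator (hAm n)
  have hev : ∀ x, ∀ᶠ n in atTop, x ∈ A n := by
    intro x
    obtain ⟨N, hN⟩ := exists_nat_ge (max ‖x‖ ‖f x‖)
    filter_upwards [eventually_ge_atTop N] with n hn
    have hn' : (N:ℝ) ≤ n := by exact_mod_cast hn
    refine ⟨?_, ?_⟩
    · rw [mem_closedBall, dist_zero_right]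
      exact ((le_max_left _ _).trans hN).trans hn'
    · exact ((le_max_right _ _).trans hN).trans hn'
  have hf2i : ∫⁻ x, ‖f x‖ₑ ^ 2 ≠ ∞ := by
    rw [← lint_sq]
    exact ENNReal.pow_ne_top hf2.2.ne
  have h1 := tendsto_lintegral_of_dominated_convergence' (μ := (volume : Measure (Fin d → ℝ)))
    (F := fun n x => ‖H n x - f x‖ₑ ^ 2) (f := fun _ => 0) (fun x => ‖f x‖ₑ ^ 2)
    (fun n => (((hHm n).sub hf).enorm.pow_const 2).aemeasurable)
    (fun n => Eventually.of_forall (fun x => by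
      show ‖H n x - f x‖ₑ ^ 2 ≤ ‖f x‖ₑ ^ 2
      apply pow_le_pow_left₀ bot_le
      by_cases hx : x ∈ A n
      · simp only [hH]
        rw [Set.indicator_of_mem hx, sub_self, enorm_zero]; exact bot_le
      · simp only [hH]
        rw [Set.indicator_of_notMem hx, zero_sub, enorm_neg])) hf2i
    (Eventually.of_forall (fun x => by
      apply tendsto_const_nhds.congr'
      filter_upwards [hev x] with n hx
      simp only [hH]
      rw [Set.indicator_of_mem hx, sub_self, enorm_zero]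
      simp))
  rw [lintegral_zero] at h1
  obtain ⟨CT, hCT⟩ := TT_L2 (T := T)
  have h2 : Tendsto (fun n => eLpNorm (fun x => TT T (H n) x - TT T f x) 2 volume) atTop (𝓝 0) := by
    have h3 : ∀ n, eLpNorm (fun x => TT T (H n) x - TT T f x) 2 volume ^ 2 ≤
        CT * ∫⁻ x, ‖H n x - f x‖ₑ ^ 2 := by
      intro n
      rw [lint_sq]
      refine le_trans (le_of_eq ?_) (hCT (fun x => H n x - f x) ((hH2 n).sub hf2))
      apply lintegral_congr_ae
      filter_upwards [TT_sub (T := T) (hH2 n) hf2] with x hx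
      rw [hx]
    have h4 : Tendsto (fun n => (CT : ℝ≥0∞) * ∫⁻ x, ‖H n x - f x‖ₑ ^ 2) atTop (𝓝 0) := by
      have := ENNReal.Tendsto.const_mul (a := (CT : ℝ≥0∞)) h1 (Or.inr ENNReal.coe_ne_top)
      rwa [mul_zero] at this
    have h5 : Tendsto (fun n => eLpNorm (fun x => TT T (H n) x - TT T f x) 2 volume ^ 2)
        atTop (𝓝 0) :=
      tendsto_of_tendsto_of_tendsto_of_le_of_le tendsto_const_nhds h4 (fun n => bot_le) h3
    have h6 : Tendsto (fun n => (eLpNorm (fun x => TT T (H n) x - TT T f x) 2 volume ^ 2) ^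
        (1 / (2:ℝ))) atTop (𝓝 (0 ^ (1 / (2:ℝ)))) :=
      (ENNReal.continuous_rpow_const.tendsto _).comp h5
    rw [ENNReal.zero_rpow_of_pos (by norm_num)] at h6
    refine h6.congr (fun n => ?_)
    rw [← ENNReal.rpow_natCast, ← ENNReal.rpow_mul]
    norm_num
  have h7 : TendstoInMeasure volume (fun n => TT T (H n)) atTop (TT T f) :=
    tendstoInMeasure_of_tendsto_eLpNorm (by norm_num) (fun n => TT_aesm (H n)) (TT_aesm f) h2
  obtain ⟨m, hm, hm'⟩ := h7.exists_seq_tendsto_ae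
  exact ⟨fun n => H (m n), fun n => (m n : ℝ≥0), fun n => hHm _, fun n => hHb _,
    fun n => ⟨m n, by positivity, hH0 _⟩, fun n => hle _, hm'⟩

lemma czoGen (hd : 0 < d) (hT : IsCZO T K) {p q : ℝ} (hpq : p.HolderConjugate q) {θ η : ℝ}
    (hθ : 1 / p < θ) (hη : 1 / q < η) : ∃ C : ℝ≥0, ∀ w : (Fin d → ℝ) → ℝ, WData q w →
    ∀ N : ℝ, 0 ≤ N → OneSup p θ N w (sg q w) →
    ∀ f : (Fin d → ℝ) → 𝕜, MemLp f 2 volume → ∫⁻ x, ‖f x‖ₑ ^ p ∂(WM w) ≠ ∞ →
      (∀ lam : ℝ, 0 < lam → ENNReal.ofReal (lam ^ p) *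
        WM w {y | ENNReal.ofReal lam < ‖TT T f y‖ₑ} ≤
        C * ENNReal.ofReal (N ^ p) * ∫⁻ x, ‖f x‖ₑ ^ p ∂(WM w)) ∧
      (∀ N' : ℝ, 0 ≤ N' → OneSup q η N' (sg q w) w →
        ∫⁻ y, ‖TT T f y‖ₑ ^ p ∂(WM w) ≤
        C * ENNReal.ofReal ((N + N') ^ p) * ∫⁻ x, ‖f x‖ₑ ^ p ∂(WM w)) := by
  obtain ⟨C, hC⟩ := czoBdd hd hT hpq hθ hη
  have hp := hpq.pos
  refine ⟨C, ?_⟩
  intro w hw N hN hone f₀ hf₀ hfin₀
  have hac : WM w ≪ volume := withDensity_absolutelyContinuous _ _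
  obtain ⟨f, hf, hff⟩ := hf₀.1.aemeasurable
  have hTf : TT T f₀ = TT T f := TT_congr hff
  have hint : ∫⁻ x, ‖f₀ x‖ₑ ^ p ∂(WM w) = ∫⁻ x, ‖f x‖ₑ ^ p ∂(WM w) := by
    apply lintegral_congr_ae
    filter_upwards [hac.ae_le hff] with x hx
    rw [hx]
  rw [hTf, hint]
  rw [hint] at hfin₀
  have hf2 : MemLp f 2 volume := hf₀.ae_eq hff
  obtain ⟨H, b, hH1, hH2, hH3, hH4, hH5⟩ := approxL2 (T := T) f hf hf2
  have hlew : ∀ n, ∫⁻ x, ‖H n x‖ₑ ^ p ∂(WM w) ≤ ∫⁻ x, ‖f x‖ₑ ^ p ∂(WM w) := by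
    intro n
    apply lintegral_mono
    intro x
    exact ENNReal.rpow_le_rpow (hH4 n x) hp.le
  have hfinH : ∀ n, ∫⁻ x, ‖H n x‖ₑ ^ p ∂(WM w) ≠ ∞ := fun n =>
    (lt_of_le_of_lt (hlew n) (lt_top_iff_ne_top.2 hfin₀)).ne
  have hlim : ∀ᵐ x ∂(WM w), Tendsto (fun n => ‖TT T (H n) x‖ₑ) atTop (𝓝 ‖TT T f x‖ₑ) := by
    filter_upwards [hac.ae_le hH5] with x hx
    exact hx.enorm
  have hmeas : ∀ n, AEMeasurable (fun x => ‖TT T (H n) x‖ₑ) (WM w) := fun n =>
    ((TT_aesm (H n)).mono_ac hac).enorm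
  constructor
  · intro lam hlam
    have hl0 : ENNReal.ofReal (lam ^ p) ≠ 0 := by
      have : 0 < lam ^ p := by positivity
      simpa using this
    set B := C * ENNReal.ofReal (N ^ p) * ∫⁻ x, ‖f x‖ₑ ^ p ∂(WM w) with hB
    have h1 : WM w {x | ENNReal.ofReal lam < ‖TT T f x‖ₑ} ≤ B / ENNReal.ofReal (lam ^ p) := by
      apply fatouSet (v := fun n x => ‖TT T (H n) x‖ₑ) hmeas hlim (ENNReal.ofReal lam)
        (fun _ => B / ENNReal.ofReal (lam ^ p)) _ _ tendsto_const_nhds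
      intro n
      rw [ENNReal.le_div_iff_mul_le (Or.inl hl0) (Or.inl ENNReal.ofReal_ne_top), mul_comm]
      obtain ⟨R, hR, hR0⟩ := hH3 n
      refine ((hC w hw N hN hone (H n) (hH1 n) (b n) (hH2 n) R hR hR0 (hfinH n)).1 lam hlam).trans ?_
      exact mul_le_mul' le_rfl (hlew n)
    rwa [ENNReal.le_div_iff_mul_le (Or.inl hl0) (Or.inl ENNReal.ofReal_ne_top), mul_comm] at h1
  · intro N' hN' hone'
    calc ∫⁻ y, ‖TT T f y‖ₑ ^ p ∂(WM w)
        = ∫⁻ y, liminf (fun n => ‖TT T (H n) y‖ₑ ^ p) atTop ∂(WM w) := by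
          apply lintegral_congr_ae
          filter_upwards [hlim] with x hx
          symm
          apply Tendsto.liminf_eq
          exact (ENNReal.continuous_rpow_const.tendsto _).comp hx
      _ ≤ liminf (fun n => ∫⁻ y, ‖TT T (H n) y‖ₑ ^ p ∂(WM w)) atTop :=
          lintegral_liminf_le' (fun n => (hmeas n).pow_const p)
      _ ≤ liminf (fun _ : ℕ => C * ENNReal.ofReal ((N + N') ^ p) *
            ∫⁻ x, ‖f x‖ₑ ^ p ∂(WM w)) atTop := by
          refine liminf_le_liminf (Eventually.of_forall fun n => ?_)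
          obtain ⟨R, hR, hR0⟩ := hH3 n
          refine ((hC w hw N hN hone (H n) (hH1 n) (b n) (hH2 n) R hR hR0
            (hfinH n)).2 N' hN' hone').trans ?_
          exact mul_le_mul' le_rfl (hlew n)
      _ = _ := liminf_const _

end Pool.Agent.H433R3.Ml
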