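import Pool.Agent.H433R3.Ml1

set_option autoImplicit false
set_option linter.unusedSectionVars false
set_option linter.unusedVariables false

namespace Pool.Agent.H433R3.Ml

open Finset Pool.Agent.H433R3.Sep

variable {X : Type*} [Fintype X] [DecidableEq X]

/-- mass of a set -/
def ms (μ : X → ℝ) (Q : Finset X) : ℝ := ∑ x ∈ Q, μ x

/-- average -/
noncomputable def av (μ h : X → ℝ) (Q : Finset X) : ℝ := (∑ x ∈ Q, h x * μ x) / ms μ Q

lemma Lam.filt {S : Finset (Finset X)} (hS : Lam S) (P : Finset X → Prop) [DecidablePred P] :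
    Lam (S.filter P) := hS.mono (Finset.filter_subset _ _)

lemma kolm {S : Finset (Finset X)} (hS : Lam S) (m μ : X → ℝ) (hμ : ∀ x, 0 ≤ μ x)
    (hmS : ∀ Q ∈ S, 0 < ms m Q) (hμS : ∀ Q ∈ S, 0 < ms μ Q) {Λ : ℝ} (hΛ : 0 ≤ Λ)
    (hC : ∀ R ∈ S, ∑ Q ∈ S with Q ⊆ R, ms m Q ≤ Λ * ms m R) {γ : ℝ} (h0 : 0 ≤ γ) (h1 : γ < 1) :
    ∀ G ∈ S, ∑ Q ∈ S with Q ⊆ G, ms m Q * (ms μ Q / ms m Q) ^ γ ≤
      2 * Λ * G1 (1 - γ) * (ms m G * (ms μ G / ms m G) ^ γ) := by
  classical
  intro G hG
  set b : Finset X → ℝ := fun Q => ms μ Q / ms m Q with hb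
  have hbpos : ∀ Q ∈ S, 0 < b Q := fun Q hQ => div_pos (hμS Q hQ) (hmS Q hQ)
  set S' := S.filter (fun Q => Q ⊆ G) with hS'
  have hSS : S' ⊆ S := Finset.filter_subset _ _
  have hL : Lam S' := hS.mono hSS
  have hGS' : G ∈ S' := Finset.mem_filter.2 ⟨hG, subset_rfl⟩
  set k : Finset X → ℤ := fun Q => Int.log 2 (b Q) with hk
  set RR := S'.image (par S' k) with hRR
  have hrec : ∀ F ∈ RR, IsRec S' k F := fun F hF => mem_recs hL hF
  have hGG : 0 < G1 (1 - γ) := G1_pos (by linarith)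
  have hlev : ∀ F ∈ RR, Int.log 2 (b G) ≤ Int.log 2 (b F) := by
    intro F hF
    have h2 := hrec F hF
    have h3 : F ⊆ G := (Finset.mem_filter.1 h2.1).2
    rcases eq_or_ssubset_of_subset h3 with h4 | h4
    · rw [h4]
    · exact (h2.2 G hGS' h4).le
  have hstep1 : ∑ Q ∈ S', ms m Q * b Q ^ γ ≤ ∑ F ∈ RR, 2 * Λ * (b F ^ (-(1 - γ)) * ms μ F) := by
    rw [sum_par hL k (fun Q => ms m Q * b Q ^ γ) (subset_refl S')]
    apply Finset.sum_le_sum
    intro F hF
    have hFS' := (hrec F hF).1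
    have hFS := hSS hFS'
    have hbF := hbpos F hFS
    calc ∑ Q ∈ S' with par S' k Q = F, ms m Q * b Q ^ γ
        ≤ ∑ Q ∈ S' with par S' k Q = F, ms m Q * (2 * b F ^ γ) := by
          apply Finset.sum_le_sum
          intro Q hQ
          obtain ⟨hQ1, hQ2⟩ := Finset.mem_filter.1 hQ
          have hQS := hSS hQ1
          apply mul_le_mul_of_nonneg_left _ (hmS Q hQS).le
          have h2 := par_le hL b (fun Q hQ => hbpos Q (hSS hQ)) hQ1
          have h3 : par S' (fun Q => Int.log 2 (b Q)) Q = F := hQ2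
          rw [h3] at h2
          calc b Q ^ γ ≤ (2 * b F) ^ γ := Real.rpow_le_rpow (hbpos Q hQS).le h2 h0
            _ = 2 ^ γ * b F ^ γ := Real.mul_rpow (by norm_num) hbF.le
            _ ≤ 2 * b F ^ γ := by
                apply mul_le_mul_of_nonneg_right _ (Real.rpow_nonneg hbF.le _)
                calc (2:ℝ) ^ γ ≤ 2 ^ (1:ℝ) :=
                      Real.rpow_le_rpow_of_exponent_le (by norm_num) h1.le
                  _ = 2 := Real.rpow_one _
      _ = (∑ Q ∈ S' with par S' k Q = F, ms m Q) * (2 * b F ^ γ) := by rw [Finset.sum_mul]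
      _ ≤ (Λ * ms m F) * (2 * b F ^ γ) := by
          apply mul_le_mul_of_nonneg_right _ (by positivity)
          refine le_trans ?_ (hC F hFS)
          apply Finset.sum_le_sum_of_subset_of_nonneg
          · intro Q hQ
            obtain ⟨hQ1, hQ2⟩ := Finset.mem_filter.1 hQ
            refine Finset.mem_filter.2 ⟨hSS hQ1, ?_⟩
            rw [← hQ2]
            exact (par_spec hL k hQ1).2.1
          · intro Q hQ _
            exact (hmS Q (Finset.mem_filter.1 hQ).1).le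
      _ = 2 * Λ * (b F ^ (-(1 - γ)) * ms μ F) := by
          have h2 : ms μ F = b F * ms m F := by
            simp only [hb]
            rw [div_mul_cancel₀ _ (hmS F hFS).ne']
          have h3 : b F ^ γ = b F ^ (-(1 - γ)) * b F := by
            rw [← Real.rpow_add_one hbF.ne']
            congr 1; ring
          rw [h3, h2]; ring
  have hstep2 : ∑ F ∈ RR, b F ^ (-(1 - γ)) * ms μ F ≤ G1 (1 - γ) * (ms m G * b G ^ γ) := by
    have hbG := hbpos G hG
    have h2 : ∑ F ∈ RR, b F ^ (-(1 - γ)) * ms μ F =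
        ∑ x, (∑ F ∈ RR with x ∈ F, b F ^ (-(1 - γ))) * μ x :=
      sum_swap RR (fun F => b F ^ (-(1 - γ))) μ
    rw [h2]
    have h3 : ∀ x, (∑ F ∈ RR with x ∈ F, b F ^ (-(1 - γ))) * μ x ≤
        if x ∈ G then G1 (1 - γ) * b G ^ (-(1 - γ)) * μ x else 0 := by
      intro x
      by_cases hx : x ∈ G
      · rw [if_pos hx]
        apply mul_le_mul_of_nonneg_right _ (hμ x)
        apply chainNeg (RR.filter (fun F => x ∈ F)) b
          (fun F hF => hbpos F (hSS (hrec F (Finset.mem_filter.1 hF).1).1))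
          (fun F hF G' hG' h => rec_inj hL (hrec F (Finset.mem_filter.1 hF).1)
            (hrec G' (Finset.mem_filter.1 hG').1) (Finset.mem_filter.1 hF).2
            (Finset.mem_filter.1 hG').2 h) (by linarith) hbG
        intro F hF
        exact hlev F (Finset.mem_filter.1 hF).1
      · rw [if_neg hx]
        have h4 : RR.filter (fun F => x ∈ F) = ∅ := by
          apply Finset.filter_eq_empty_iff.2
          intro F hF hxF
          exact hx ((Finset.mem_filter.1 (hrec F hF).1).2 hxF)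
        rw [h4, Finset.sum_empty, zero_mul]
    calc ∑ x, (∑ F ∈ RR with x ∈ F, b F ^ (-(1 - γ))) * μ x
        ≤ ∑ x, if x ∈ G then G1 (1 - γ) * b G ^ (-(1 - γ)) * μ x else 0 :=
          Finset.sum_le_sum (fun x _ => h3 x)
      _ = G1 (1 - γ) * b G ^ (-(1 - γ)) * ms μ G := by
          rw [Finset.sum_ite_mem, Finset.univ_inter, ← Finset.mul_sum]
          rfl
      _ = _ := by
          have h4 : ms μ G = b G * ms m G := by
            simp only [hb]
            rw [div_mul_cancel₀ _ (hmS G hG).ne']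
          have h5 : b G ^ γ = b G ^ (-(1 - γ)) * b G := by
            rw [← Real.rpow_add_one hbG.ne']
            congr 1; ring
          rw [h5, h4]; ring
  calc ∑ Q ∈ S', ms m Q * b Q ^ γ ≤ ∑ F ∈ RR, 2 * Λ * (b F ^ (-(1 - γ)) * ms μ F) := hstep1
    _ = 2 * Λ * ∑ F ∈ RR, b F ^ (-(1 - γ)) * ms μ F := by rw [Finset.mul_sum]
    _ ≤ 2 * Λ * (G1 (1 - γ) * (ms m G * b G ^ γ)) := by gcongr
    _ = _ := by ring

/-- the coefficients of the bilinear form -/
noncomputable def aa (m μ ν : X → ℝ) (Q : Finset X) : ℝ := ms μ Q * ms ν Q / ms m Q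

/-- the local `A_p` constant -/
noncomputable def AA (p : ℝ) (m μ ν : X → ℝ) (Q : Finset X) : ℝ :=
  ms ν Q / ms m Q * (ms μ Q / ms m Q) ^ (p - 1)

/-- constants for the layer sums -/
noncomputable def CK (p q : ℝ) : ℝ := if p ≤ 2 then 4 * G1 (p - 1) else 4 * G1 (q - 1)

lemma CK_pos {p q : ℝ} (hpq : p.HolderConjugate q) : 0 < CK p q := by
  unfold CK
  have h1 := G1_pos hpq.sub_one_pos
  have h2 := G1_pos hpq.symm.sub_one_pos
  split_ifs <;> positivity

lemma layerK {S : Finset (Finset X)} (hS : Lam S) (m μ ν : X → ℝ) (hμ : ∀ x, 0 ≤ μ x)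
    (hν : ∀ x, 0 ≤ ν x) (hmS : ∀ Q ∈ S, 0 < ms m Q) (hμS : ∀ Q ∈ S, 0 < ms μ Q)
    (hνS : ∀ Q ∈ S, 0 < ms ν Q) {Λ : ℝ} (hΛ : 0 ≤ Λ)
    (hC : ∀ R ∈ S, ∑ Q ∈ S with Q ⊆ R, ms m Q ≤ Λ * ms m R) {p q : ℝ}
    (hpq : p.HolderConjugate q) {L : ℝ} (hL : 0 < L)
    (hlay : ∀ Q ∈ S, L ≤ AA p m μ ν Q ∧ AA p m μ ν Q ≤ 2 * L) :
    ∀ G ∈ S, ∑ Q ∈ S with Q ⊆ G, aa m μ ν Q ≤ Λ * CK p q * aa m μ ν G := by
  classical
  intro G hG
  have hpp : (p - 1) * (q - 1) = 1 := by
    have := hpq.inv_add_inv_eq_one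
    have hp := hpq.pos
    have hq := hpq.symm.pos
    field_simp at this
    nlinarith
  have hp1 := hpq.sub_one_pos
  have hq1 := hpq.symm.sub_one_pos
  unfold CK
  by_cases hp2 : p ≤ 2
  · rw [if_pos hp2]
    have e : ∀ Q ∈ S, aa m μ ν Q = AA p m μ ν Q * (ms m Q * (ms μ Q / ms m Q) ^ (2 - p)) := by
      intro Q hQ
      have h1 := hmS Q hQ
      have h2 := hμS Q hQ
      unfold aa AA
      have h3 : (ms μ Q / ms m Q) ^ (p - 1) * (ms μ Q / ms m Q) ^ (2 - p) = ms μ Q / ms m Q := by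
        rw [← Real.rpow_add (by positivity)]
        have : p - 1 + (2 - p) = 1 := by ring
        rw [this, Real.rpow_one]
      calc ms μ Q * ms ν Q / ms m Q = ms ν Q / ms m Q * ms m Q * (ms μ Q / ms m Q) := by
            field_simp
        _ = ms ν Q / ms m Q * ms m Q * ((ms μ Q / ms m Q) ^ (p - 1) *
              (ms μ Q / ms m Q) ^ (2 - p)) := by rw [h3]
        _ = _ := by ring
    have hk := kolm hS m μ hμ hmS hμS hΛ hC (γ := 2 - p) (by linarith) (by linarith) G hG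
    have e2 : 1 - (2 - p) = p - 1 := by ring
    rw [e2] at hk
    have hG1 := G1_pos hp1
    have hpos : 0 ≤ ms m G * (ms μ G / ms m G) ^ (2 - p) :=
      mul_nonneg (hmS G hG).le (Real.rpow_nonneg (div_pos (hμS G hG) (hmS G hG)).le _)
    calc ∑ Q ∈ S with Q ⊆ G, aa m μ ν Q
        ≤ ∑ Q ∈ S with Q ⊆ G, 2 * L * (ms m Q * (ms μ Q / ms m Q) ^ (2 - p)) := by
          apply Finset.sum_le_sum
          intro Q hQ
          have hQS := (Finset.mem_filter.1 hQ).1
          rw [e Q hQS]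
          apply mul_le_mul_of_nonneg_right (hlay Q hQS).2
          exact mul_nonneg (hmS Q hQS).le (Real.rpow_nonneg (div_pos (hμS Q hQS) (hmS Q hQS)).le _)
      _ = 2 * L * ∑ Q ∈ S with Q ⊆ G, ms m Q * (ms μ Q / ms m Q) ^ (2 - p) := by
          rw [Finset.mul_sum]
      _ ≤ 2 * L * (2 * Λ * G1 (p - 1) * (ms m G * (ms μ G / ms m G) ^ (2 - p))) := by gcongr
      _ = Λ * (4 * G1 (p - 1)) * (L * (ms m G * (ms μ G / ms m G) ^ (2 - p))) := by ring
      _ ≤ Λ * (4 * G1 (p - 1)) * (AA p m μ ν G * (ms m G * (ms μ G / ms m G) ^ (2 - p))) := by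
          apply mul_le_mul_of_nonneg_left _ (by positivity)
          exact mul_le_mul_of_nonneg_right (hlay G hG).1 hpos
      _ = _ := by rw [e G hG]
  · rw [if_neg hp2]
    push Not at hp2
    have hq2 : q < 2 := by nlinarith
    have e : ∀ Q ∈ S, aa m μ ν Q = AA p m μ ν Q ^ (q - 1) *
        (ms m Q * (ms ν Q / ms m Q) ^ (2 - q)) := by
      intro Q hQ
      have h1 := hmS Q hQ
      have h2 := hμS Q hQ
      have h2' := hνS Q hQ
      unfold aa AA
      have h4 : 0 < ms μ Q / ms m Q := by positivity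
      have h5 : 0 < ms ν Q / ms m Q := by positivity
      have h3 : (ms ν Q / ms m Q) ^ (q - 1) * (ms ν Q / ms m Q) ^ (2 - q) = ms ν Q / ms m Q := by
        rw [← Real.rpow_add (by positivity)]
        have : q - 1 + (2 - q) = 1 := by ring
        rw [this, Real.rpow_one]
      rw [Real.mul_rpow h5.le (Real.rpow_nonneg h4.le _), ← Real.rpow_mul h4.le, hpp, Real.rpow_one]
      calc ms μ Q * ms ν Q / ms m Q = ms ν Q / ms m Q * ms m Q * (ms μ Q / ms m Q) := by
            field_simp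
        _ = ((ms ν Q / ms m Q) ^ (q - 1) * (ms ν Q / ms m Q) ^ (2 - q)) * ms m Q *
            (ms μ Q / ms m Q) := by rw [h3]
        _ = _ := by ring
    have hk := kolm hS m ν hν hmS hνS hΛ hC (γ := 2 - q) (by linarith) (by linarith) G hG
    have e2 : 1 - (2 - q) = q - 1 := by ring
    rw [e2] at hk
    have hG1 := G1_pos hq1
    have hpos : 0 ≤ ms m G * (ms ν G / ms m G) ^ (2 - q) :=
      mul_nonneg (hmS G hG).le (Real.rpow_nonneg (div_pos (hνS G hG) (hmS G hG)).le _)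
    have h2L : (2 * L) ^ (q - 1) ≤ 2 * L ^ (q - 1) := by
      rw [Real.mul_rpow (by norm_num) hL.le]
      apply mul_le_mul_of_nonneg_right _ (Real.rpow_nonneg hL.le _)
      calc (2:ℝ) ^ (q - 1) ≤ 2 ^ (1:ℝ) :=
            Real.rpow_le_rpow_of_exponent_le (by norm_num) (by linarith)
        _ = 2 := Real.rpow_one _
    calc ∑ Q ∈ S with Q ⊆ G, aa m μ ν Q
        ≤ ∑ Q ∈ S with Q ⊆ G, 2 * L ^ (q - 1) * (ms m Q * (ms ν Q / ms m Q) ^ (2 - q)) := by
          apply Finset.sum_le_sum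
          intro Q hQ
          have hQS := (Finset.mem_filter.1 hQ).1
          rw [e Q hQS]
          apply mul_le_mul_of_nonneg_right
          · refine le_trans (Real.rpow_le_rpow (hL.le.trans (hlay Q hQS).1) (hlay Q hQS).2
              (by linarith)) h2L
          · exact mul_nonneg (hmS Q hQS).le
              (Real.rpow_nonneg (div_pos (hνS Q hQS) (hmS Q hQS)).le _)
      _ = 2 * L ^ (q - 1) * ∑ Q ∈ S with Q ⊆ G, ms m Q * (ms ν Q / ms m Q) ^ (2 - q) := by
          rw [Finset.mul_sum]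
      _ ≤ 2 * L ^ (q - 1) * (2 * Λ * G1 (q - 1) * (ms m G * (ms ν G / ms m G) ^ (2 - q))) := by
          gcongr
      _ = Λ * (4 * G1 (q - 1)) * (L ^ (q - 1) * (ms m G * (ms ν G / ms m G) ^ (2 - q))) := by ring
      _ ≤ Λ * (4 * G1 (q - 1)) * (AA p m μ ν G ^ (q - 1) *
            (ms m G * (ms ν G / ms m G) ^ (2 - q))) := by
          apply mul_le_mul_of_nonneg_left _ (by positivity)
          apply mul_le_mul_of_nonneg_right _ hpos
          exact Real.rpow_le_rpow hL.le (hlay G hG).1 (by linarith)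
      _ = _ := by rw [e G hG]

/-- the bound for one layer -/
lemma layer {S : Finset (Finset X)} (hS : Lam S) (m μ ν h : X → ℝ) (hμ : ∀ x, 0 ≤ μ x)
    (hν : ∀ x, 0 ≤ ν x) (hh : ∀ x, 0 ≤ h x) (hmS : ∀ Q ∈ S, 0 < ms m Q)
    (hμS : ∀ Q ∈ S, 0 < ms μ Q)
    (hνS : ∀ Q ∈ S, 0 < ms ν Q) {Λ : ℝ} (hΛ : 0 ≤ Λ)
    (hC : ∀ R ∈ S, ∑ Q ∈ S with Q ⊆ R, ms m Q ≤ Λ * ms m R) {p q : ℝ}
    (hpq : p.HolderConjugate q) {L : ℝ} (hL : 0 < L)
    (hlay : ∀ Q ∈ S, L ≤ AA p m μ ν Q ∧ AA p m μ ν Q ≤ 2 * L)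
    (hav : ∀ Q ∈ S, 0 < av μ h Q) :
    ∑ Q ∈ S, aa m μ ν Q * av μ h Q ≤
      4 * Λ * CK p q * G1 (p - 1) * L ^ (1 / p) * (∑ x, h x ^ p * μ x) ^ (1 / p) *
        (∑ Q ∈ S, ms ν Q) ^ (1 / q) := by
  classical
  have hp := hpq.pos
  have hq := hpq.symm.pos
  have hCK := CK_pos hpq
  have hG := G1_pos hpq.sub_one_pos
  have haa : ∀ Q ∈ S, 0 ≤ aa m μ ν Q := fun Q hQ =>
    div_nonneg (mul_nonneg (hμS Q hQ).le (hνS Q hQ).le) (hmS Q hQ).le
  set k : Finset X → ℤ := fun Q => Int.log 2 (av μ h Q) with hk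
  set RR := S.image (par S k) with hRR
  have hrec : ∀ F ∈ RR, IsRec S k F := fun F hF => mem_recs hS hF
  have hI : ∀ Q ∈ S, av μ h Q * ∑ x ∈ Q, μ x = ∑ x ∈ Q, h x * μ x := by
    intro Q hQ
    unfold av
    have h1 := hμS Q hQ
    have h2 : ms μ Q = ∑ x ∈ Q, μ x := rfl
    rw [← h2, div_mul_cancel₀ _ h1.ne']
  have hcarl := carl_p S hS μ h hμ hh (av μ h) hav hI hpq RR hrec
  have hsum0 : 0 ≤ ∑ x, h x ^ p * μ x :=
    Finset.sum_nonneg (fun x _ => mul_nonneg (Real.rpow_nonneg (hh x) _) (hμ x))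
  have hstep1 : ∑ Q ∈ S, aa m μ ν Q * av μ h Q ≤
      ∑ F ∈ RR, 2 * (Λ * CK p q) * (aa m μ ν F * av μ h F) := by
    rw [sum_par hS k (fun Q => aa m μ ν Q * av μ h Q) (subset_refl S)]
    apply Finset.sum_le_sum
    intro F hF
    have hFS := (hrec F hF).1
    calc ∑ Q ∈ S with par S k Q = F, aa m μ ν Q * av μ h Q
        ≤ ∑ Q ∈ S with par S k Q = F, aa m μ ν Q * (2 * av μ h F) := by
          apply Finset.sum_le_sum
          intro Q hQ
          obtain ⟨hQ1, hQ2⟩ := Finset.mem_filter.1 hQ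
          apply mul_le_mul_of_nonneg_left _ (haa Q hQ1)
          have h2 := par_le hS (av μ h) hav hQ1
          have h3 : par S (fun Q => Int.log 2 (av μ h Q)) Q = F := hQ2
          rw [h3] at h2
          exact h2
      _ = (∑ Q ∈ S with par S k Q = F, aa m μ ν Q) * (2 * av μ h F) := by rw [Finset.sum_mul]
      _ ≤ (Λ * CK p q * aa m μ ν F) * (2 * av μ h F) := by
          apply mul_le_mul_of_nonneg_right _ (by have := hav F hFS; positivity)
          refine le_trans ?_ (layerK hS m μ ν hμ hν hmS hμS hνS hΛ hC hpq hL hlay F hFS)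
          apply Finset.sum_le_sum_of_subset_of_nonneg
          · intro Q hQ
            obtain ⟨hQ1, hQ2⟩ := Finset.mem_filter.1 hQ
            refine Finset.mem_filter.2 ⟨hQ1, ?_⟩
            rw [← hQ2]
            exact (par_spec hS k hQ1).2.1
          · intro Q hQ _
            exact haa Q (Finset.mem_filter.1 hQ).1
      _ = _ := by ring
  have hform : ∀ F ∈ S, aa m μ ν F ≤ (2 * L) ^ (1 / p) * (ms μ F ^ (1 / p) * ms ν F ^ (1 / q)) := by
    intro F hF
    have h1 := hmS F hF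
    have h2 := hμS F hF
    have h3 := hνS F hF
    have hs : 0 < ms μ F / ms m F := by positivity
    have hn : 0 < ms ν F / ms m F := by positivity
    have hpqs : 1 / p + 1 / q = 1 := by
      have := hpq.inv_add_inv_eq_one
      simpa [one_div] using this
    have e1 : aa m μ ν F = AA p m μ ν F ^ (1 / p) * (ms μ F ^ (1 / p) * ms ν F ^ (1 / q)) := by
      unfold aa AA
      have hmu : ms μ F = ms μ F / ms m F * ms m F := by field_simp
      have hnu : ms ν F = ms ν F / ms m F * ms m F := by field_simp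
      set s := ms μ F / ms m F with hsd
      set n := ms ν F / ms m F with hnd
      set M := ms m F with hM
      rw [hmu, hnu, Real.mul_rpow hn.le (Real.rpow_nonneg hs.le _), ← Real.rpow_mul hs.le,
        Real.mul_rpow hs.le h1.le, Real.mul_rpow hn.le h1.le]
      have e2 : (p - 1) * (1 / p) = 1 / q := by
        field_simp at hpqs ⊢
        linarith
      rw [e2]
      have e3 : s ^ (1 / q) * s ^ (1 / p) = s := by
        rw [← Real.rpow_add hs]
        rw [add_comm, hpqs, Real.rpow_one]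
      have e4 : n ^ (1 / p) * n ^ (1 / q) = n := by
        rw [← Real.rpow_add hn, hpqs, Real.rpow_one]
      have e5 : M ^ (1 / p) * M ^ (1 / q) = M := by
        rw [← Real.rpow_add h1, hpqs, Real.rpow_one]
      calc s * M * (n * M) / M = s * n * M := by field_simp
        _ = (s ^ (1 / q) * s ^ (1 / p)) * (n ^ (1 / p) * n ^ (1 / q)) *
            (M ^ (1 / p) * M ^ (1 / q)) := by rw [e3, e4, e5]
        _ = _ := by ring
    rw [e1]
    apply mul_le_mul_of_nonneg_right _ (by positivity)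
    exact Real.rpow_le_rpow (hL.le.trans (hlay F hF).1) (hlay F hF).2 (by positivity)
  have hstep2 : ∑ F ∈ RR, aa m μ ν F * av μ h F ≤
      (2 * L) ^ (1 / p) * ((∑ F ∈ RR, av μ h F ^ p * ms μ F) ^ (1 / p) *
        (∑ F ∈ RR, ms ν F) ^ (1 / q)) := by
    calc ∑ F ∈ RR, aa m μ ν F * av μ h F
        ≤ ∑ F ∈ RR, (2 * L) ^ (1 / p) * ((av μ h F * ms μ F ^ (1 / p)) * ms ν F ^ (1 / q)) := by
          apply Finset.sum_le_sum
          intro F hF
          have hFS := (hrec F hF).1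
          calc aa m μ ν F * av μ h F
              ≤ (2 * L) ^ (1 / p) * (ms μ F ^ (1 / p) * ms ν F ^ (1 / q)) * av μ h F :=
                mul_le_mul_of_nonneg_right (hform F hFS) (hav F hFS).le
            _ = _ := by ring
      _ = (2 * L) ^ (1 / p) * ∑ F ∈ RR, (av μ h F * ms μ F ^ (1 / p)) * ms ν F ^ (1 / q) := by
          rw [Finset.mul_sum]
      _ ≤ _ := by
          apply mul_le_mul_of_nonneg_left _ (by positivity)
          have h1 := Real.inner_le_Lp_mul_Lq_of_nonneg RR hpq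
            (f := fun F => av μ h F * ms μ F ^ (1 / p)) (g := fun F => ms ν F ^ (1 / q))
            (fun F hF => mul_nonneg (hav F (hrec F hF).1).le
              (Real.rpow_nonneg (hμS F (hrec F hF).1).le _))
            (fun F hF => Real.rpow_nonneg (hνS F (hrec F hF).1).le _)
          have e2 : ∀ F ∈ RR, (av μ h F * ms μ F ^ (1 / p)) ^ p = av μ h F ^ p * ms μ F := by
            intro F hF
            have h2 := (hμS F (hrec F hF).1).le
            rw [Real.mul_rpow (hav F (hrec F hF).1).le (Real.rpow_nonneg h2 _),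
              ← Real.rpow_mul h2, one_div_mul_cancel hp.ne', Real.rpow_one]
          have e3 : ∀ F ∈ RR, (ms ν F ^ (1 / q)) ^ q = ms ν F := by
            intro F hF
            have h2 := (hνS F (hrec F hF).1).le
            rw [← Real.rpow_mul h2, one_div_mul_cancel hq.ne', Real.rpow_one]
          rw [Finset.sum_congr rfl e2, Finset.sum_congr rfl e3] at h1
          exact h1
  have hRS : RR ⊆ S := fun F hF => (hrec F hF).1
  have hstep3 : (∑ F ∈ RR, av μ h F ^ p * ms μ F) ^ (1 / p) ≤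
      G1 (p - 1) * (∑ x, h x ^ p * μ x) ^ (1 / p) := by
    calc (∑ F ∈ RR, av μ h F ^ p * ms μ F) ^ (1 / p)
        ≤ (G1 (p - 1) ^ p * ∑ x, h x ^ p * μ x) ^ (1 / p) := by
          apply Real.rpow_le_rpow _ hcarl (by positivity)
          apply Finset.sum_nonneg
          intro F hF
          exact mul_nonneg (Real.rpow_nonneg (hav F (hRS hF)).le _) (hμS F (hRS hF)).le
      _ = _ := by
          rw [Real.mul_rpow (Real.rpow_nonneg hG.le _) hsum0, ← Real.rpow_mul hG.le,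
            mul_one_div_cancel hp.ne', Real.rpow_one]
  have hstep4 : (∑ F ∈ RR, ms ν F) ^ (1 / q) ≤ (∑ F ∈ S, ms ν F) ^ (1 / q) := by
    apply Real.rpow_le_rpow _ _ (by positivity)
    · exact Finset.sum_nonneg (fun F hF => (hνS F (hRS hF)).le)
    · exact Finset.sum_le_sum_of_subset_of_nonneg hRS (fun F hF _ => (hνS F hF).le)
  have h2L : (2 * L) ^ (1 / p) ≤ 2 * L ^ (1 / p) := by
    rw [Real.mul_rpow (by norm_num) hL.le]
    apply mul_le_mul_of_nonneg_right _ (Real.rpow_nonneg hL.le _)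
    calc (2:ℝ) ^ (1 / p) ≤ 2 ^ (1:ℝ) := by
          apply Real.rpow_le_rpow_of_exponent_le (by norm_num)
          rw [div_le_one hp]
          exact hpq.lt.le
      _ = 2 := Real.rpow_one _
  have hν0 : 0 ≤ (∑ F ∈ S, ms ν F) ^ (1 / q) :=
    Real.rpow_nonneg (Finset.sum_nonneg (fun F hF => (hνS F hF).le)) _
  have hν1 : 0 ≤ (∑ F ∈ RR, ms ν F) ^ (1 / q) :=
    Real.rpow_nonneg (Finset.sum_nonneg (fun F hF => (hνS F (hRS hF)).le)) _
  calc ∑ Q ∈ S, aa m μ ν Q * av μ h Q
      ≤ ∑ F ∈ RR, 2 * (Λ * CK p q) * (aa m μ ν F * av μ h F) := hstep1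
    _ = 2 * (Λ * CK p q) * ∑ F ∈ RR, aa m μ ν F * av μ h F := by rw [Finset.mul_sum]
    _ ≤ 2 * (Λ * CK p q) * ((2 * L) ^ (1 / p) * ((∑ F ∈ RR, av μ h F ^ p * ms μ F) ^ (1 / p) *
        (∑ F ∈ RR, ms ν F) ^ (1 / q))) := by gcongr
    _ ≤ 2 * (Λ * CK p q) * ((2 * L ^ (1 / p)) * ((G1 (p - 1) * (∑ x, h x ^ p * μ x) ^ (1 / p)) *
        (∑ F ∈ S, ms ν F) ^ (1 / q))) := by
        apply mul_le_mul_of_nonneg_left _ (by positivity)
        apply mul_le_mul h2L _ _ (by positivity)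
        · apply mul_le_mul hstep3 hstep4 hν1
          positivity
        · apply mul_nonneg _ hν1
          apply Real.rpow_nonneg
          apply Finset.sum_nonneg
          intro F hF
          exact mul_nonneg (Real.rpow_nonneg (hav F (hRS hF)).le _) (hμS F (hRS hF)).le
    _ = _ := by ring

end Pool.Agent.H433R3.Ml
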