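import Pool.Agent.H433R3.Ml2

set_option autoImplicit false
set_option linter.unusedSectionVars false
set_option linter.unusedVariables false

namespace Pool.Agent.H433R3.Ml

open Finset Pool.Agent.H433R3.Sep

variable {X : Type*} [Fintype X] [DecidableEq X]

/-- the constant of the sum over the layers -/
noncomputable def CN (c : ℝ) : ℝ := 4 + (2:ℝ) ^ c / ((2:ℝ) ^ c - 1)

lemma CN_pos {c : ℝ} (hc : 0 < c) : 0 < CN c := by
  have hb : 1 < (2:ℝ) ^ c := Real.one_lt_rpow (by norm_num) hc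
  unfold CN
  have : 0 < (2:ℝ) ^ c - 1 := by linarith
  positivity

lemma numeric (J : Finset ℤ) {N : ℝ} (hN : 0 < N) {c : ℝ} (hc : 0 < c) (t : ℤ → ℝ)
    (ht1 : ∀ κ ∈ J, κ ≤ Int.log 2 N → t κ ≤ 2 * (2:ℝ) ^ κ)
    (ht2 : ∀ κ ∈ J, Int.log 2 N < κ → t κ ≤ N ^ (1 + c) * ((2:ℝ) ^ κ) ^ (-c)) :
    ∑ κ ∈ J, t κ ≤ CN c * N := by
  classical
  set κ₀ := Int.log 2 N with hκ₀
  rw [← Finset.sum_filter_add_sum_filter_not J (fun κ => κ ≤ κ₀)]
  have hb : 1 < (2:ℝ) ^ c := Real.one_lt_rpow (by norm_num) hc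
  have hb0 : 0 < (2:ℝ) ^ c := by linarith
  have hb1 : 0 < (2:ℝ) ^ c - 1 := by linarith
  have h1 : ∑ κ ∈ J with κ ≤ κ₀, t κ ≤ 4 * N := by
    calc ∑ κ ∈ J with κ ≤ κ₀, t κ ≤ ∑ κ ∈ J with κ ≤ κ₀, 2 * (2:ℝ) ^ κ := by
          apply Finset.sum_le_sum
          intro κ hκ
          exact ht1 κ (Finset.mem_filter.1 hκ).1 (Finset.mem_filter.1 hκ).2
      _ = 2 * ∑ κ ∈ J with κ ≤ κ₀, (2:ℝ) ^ κ := by rw [Finset.mul_sum]
      _ ≤ 2 * ((2:ℝ) ^ (κ₀ + 1) / (2 - 1)) := by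
          apply mul_le_mul_of_nonneg_left _ (by norm_num)
          apply geoB (by norm_num)
          intro j hj
          have := (Finset.mem_filter.1 hj).2
          omega
      _ = 4 * (2:ℝ) ^ κ₀ := by rw [zpow_add_one₀ (by norm_num)]; ring
      _ ≤ 4 * N := by gcongr; exact log_lo hN
  have h2 : ∑ κ ∈ J with ¬ κ ≤ κ₀, t κ ≤ (2:ℝ) ^ c / ((2:ℝ) ^ c - 1) * N := by
    have h3 : ∀ κ : ℤ, ((2:ℝ) ^ κ) ^ (-c) = ((2:ℝ) ^ c) ^ (-κ) := by
      intro κ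
      rw [Real.rpow_neg (by positivity), ← zr, zpow_neg]
    calc ∑ κ ∈ J with ¬ κ ≤ κ₀, t κ
        ≤ ∑ κ ∈ J with ¬ κ ≤ κ₀, N ^ (1 + c) * ((2:ℝ) ^ c) ^ (-κ) := by
          apply Finset.sum_le_sum
          intro κ hκ
          rw [← h3]
          exact ht2 κ (Finset.mem_filter.1 hκ).1 (not_le.1 (Finset.mem_filter.1 hκ).2)
      _ = N ^ (1 + c) * ∑ κ ∈ J with ¬ κ ≤ κ₀, ((2:ℝ) ^ c) ^ (-κ) := by rw [Finset.mul_sum]
      _ ≤ N ^ (1 + c) * (((2:ℝ) ^ c) ^ (-κ₀) / ((2:ℝ) ^ c - 1)) := by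
          apply mul_le_mul_of_nonneg_left _ (Real.rpow_nonneg hN.le _)
          rw [← Finset.sum_image (s := J.filter (fun κ => ¬ κ ≤ κ₀)) (g := fun κ : ℤ => -κ)
            (f := fun j : ℤ => ((2:ℝ) ^ c) ^ j) (fun i hi j hj h => by
              have h' : -i = -j := h
              omega)]
          apply geoB hb
          intro j hj
          obtain ⟨i, hi, rfl⟩ := Finset.mem_image.1 hj
          have := (Finset.mem_filter.1 hi).2
          omega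
      _ ≤ N ^ (1 + c) * (((2:ℝ) ^ c * N ^ (-c)) / ((2:ℝ) ^ c - 1)) := by
          apply mul_le_mul_of_nonneg_left _ (Real.rpow_nonneg hN.le _)
          apply div_le_div_of_nonneg_right _ hb1.le
          rw [← h3]
          have h4 : N ≤ 2 * (2:ℝ) ^ κ₀ := by
            have := log_hi hN
            rw [zpow_add_one₀ (by norm_num)] at this
            linarith
          have h5 : N ^ c ≤ (2:ℝ) ^ c * ((2:ℝ) ^ κ₀) ^ c := by
            rw [← Real.mul_rpow (by norm_num) (by positivity)]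
            exact Real.rpow_le_rpow hN.le h4 hc.le
          rw [Real.rpow_neg (by positivity), Real.rpow_neg hN.le]
          rw [inv_le_comm₀ (by positivity) (by positivity), mul_inv, inv_inv,
            inv_mul_le_iff₀ hb0]
          exact h5
      _ = (2:ℝ) ^ c / ((2:ℝ) ^ c - 1) * (N ^ (1 + c) * N ^ (-c)) := by ring
      _ = _ := by
          rw [← Real.rpow_add hN]
          have : 1 + c + -c = 1 := by ring
          rw [this, Real.rpow_one]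
  unfold CN
  linarith

/-- the decay exponent -/
noncomputable def cc (p q θ : ℝ) : ℝ := 1 / ((1 - θ) * q) - 1

/-- the constant in the dual testing inequality -/
noncomputable def CD (p q θ Λ Λ' : ℝ) : ℝ :=
  4 * Λ * CK p q * G1 (p - 1) * Λ' ^ (1 / q) * CN (cc p q θ)

lemma dualTest₁ {S : Finset (Finset X)} (hS : Lam S) (m μ ν : X → ℝ) (hμ : ∀ x, 0 ≤ μ x)
    (hν : ∀ x, 0 ≤ ν x) (hmS : ∀ Q ∈ S, 0 < ms m Q) (hμS : ∀ Q ∈ S, 0 < ms μ Q)
    (hνS : ∀ Q ∈ S, 0 < ms ν Q) {Λ : ℝ} (hΛ : 0 ≤ Λ)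
    (hC : ∀ R ∈ S, ∑ Q ∈ S with Q ⊆ R, ms m Q ≤ Λ * ms m R) {p q : ℝ}
    (hpq : p.HolderConjugate q) {θ : ℝ} (hθ : 1 / p < θ) (hθ1 : θ < 1) {Λ' : ℝ} (hΛ' : 0 ≤ Λ')
    (e : Finset X → ℝ) (he : ∀ Q ∈ S, 0 < e Q)
    (hexp : ∀ R ∈ S, ∑ Q ∈ S with Q ⊆ R, ms m Q * e Q ≤ Λ' * ms ν R)
    (hW : ∀ Q ∈ S, ms ν Q / (ms m Q * e Q) ≤ AA p m μ ν Q) {N : ℝ}
    (hN : ∀ Q ∈ S, AA p m μ ν Q ^ θ * (ms ν Q / (ms m Q * e Q)) ^ (1 - θ) ≤ N)
    {R : Finset X} (hR : R ∈ S) (h : X → ℝ) (hh : ∀ x, 0 ≤ h x) :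
    ∑ Q ∈ S with Q ⊆ R, aa m μ ν Q * av μ h Q ≤
      CD p q θ Λ Λ' * N * (∑ x ∈ R, h x ^ p * μ x) ^ (1 / p) * ms ν R ^ (1 / q) := by
  classical
  have hp := hpq.pos
  have hq := hpq.symm.pos
  have hpqs : 1 / p + 1 / q = 1 := by
    have := hpq.inv_add_inv_eq_one
    simpa [one_div] using this
  have hCK := CK_pos hpq
  have hG := G1_pos hpq.sub_one_pos
  have hAA : ∀ Q ∈ S, 0 < AA p m μ ν Q := by
    intro Q hQ
    unfold AA
    have h1 := hmS Q hQ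
    have h2 := hμS Q hQ
    have h3 := hνS Q hQ
    positivity
  have hWpos : ∀ Q ∈ S, 0 < ms ν Q / (ms m Q * e Q) := by
    intro Q hQ
    have h1 := hmS Q hQ
    have h3 := hνS Q hQ
    have h4 := he Q hQ
    positivity
  have hNpos : 0 < N := by
    refine lt_of_lt_of_le ?_ (hN R hR)
    have := hAA R hR
    have := hWpos R hR
    positivity
  have hθ0 : 0 < θ := lt_trans (by positivity) hθ
  have h1θ : 0 < 1 - θ := by linarith
  set c := cc p q θ with hc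
  have hcpos : 0 < c := by
    rw [hc]
    unfold cc
    have h1 : (1 - θ) * q < 1 := by
      have h2 : 1 - θ < 1 / q := by linarith
      calc (1 - θ) * q < 1 / q * q := by gcongr
        _ = 1 := by rw [one_div_mul_cancel hq.ne']
    have h2 : 1 < 1 / ((1 - θ) * q) := by
      rw [lt_div_iff₀ (by positivity)]
      linarith
    linarith
  have hCN := CN_pos hcpos
  -- the relevant cubes
  set T := S.filter (fun Q => Q ⊆ R ∧ 0 < av μ h Q) with hT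
  have hTS : T ⊆ S := Finset.filter_subset _ _
  have hav0 : ∀ Q ∈ S, 0 ≤ av μ h Q := by
    intro Q hQ
    unfold av
    exact div_nonneg (Finset.sum_nonneg (fun x _ => mul_nonneg (hh x) (hμ x))) (hμS Q hQ).le
  have hred : ∑ Q ∈ S with Q ⊆ R, aa m μ ν Q * av μ h Q = ∑ Q ∈ T, aa m μ ν Q * av μ h Q := by
    symm
    apply Finset.sum_subset_zero_on_sdiff
    · intro Q hQ
      obtain ⟨h1, h2⟩ := Finset.mem_filter.1 hQ
      exact Finset.mem_filter.2 ⟨h1, h2.1⟩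
    · intro Q hQ
      obtain ⟨h1, h2⟩ := Finset.mem_sdiff.1 hQ
      obtain ⟨h3, h4⟩ := Finset.mem_filter.1 h1
      have h5 : ¬ 0 < av μ h Q := fun h6 => h2 (Finset.mem_filter.2 ⟨h3, h4, h6⟩)
      have h6 : av μ h Q = 0 := le_antisymm (not_lt.1 h5) (hav0 Q h3)
      rw [h6, mul_zero]
    · intro Q _; rfl
  rw [hred]
  set h' : X → ℝ := fun x => if x ∈ R then h x else 0 with hh'
  have hh'0 : ∀ x, 0 ≤ h' x := by
    intro x
    simp only [hh']
    split_ifs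
    · exact hh x
    · exact le_rfl
  have hav' : ∀ Q, Q ⊆ R → av μ h' Q = av μ h Q := by
    intro Q hQR
    unfold av
    congr 1
    apply Finset.sum_congr rfl
    intro x hx
    simp only [hh']
    rw [if_pos (hQR hx)]
  have hsum' : ∑ x, h' x ^ p * μ x = ∑ x ∈ R, h x ^ p * μ x := by
    symm
    rw [← Finset.univ_inter R, ← Finset.sum_ite_mem]
    apply Finset.sum_congr rfl
    intro x _
    simp only [hh']
    by_cases hx : x ∈ R
    · rw [if_pos hx, if_pos hx]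
    · rw [if_neg hx, if_neg hx, Real.zero_rpow hp.ne', zero_mul]
  set k : Finset X → ℤ := fun Q => Int.log 2 (AA p m μ ν Q) with hk
  set J := T.image k with hJ
  set κ₀ := Int.log 2 N with hκ₀
  set bb : ℤ → ℝ := fun κ => if κ ≤ κ₀ then 2 * (2:ℝ) ^ κ else
    (N * ((2:ℝ) ^ κ) ^ (-θ)) ^ (1 / (1 - θ)) with hbb
  have hbb0 : ∀ κ, 0 ≤ bb κ := by
    intro κ
    simp only [hbb]
    split_ifs
    · positivity
    · positivity
  have hWb : ∀ Q ∈ T, ms ν Q / (ms m Q * e Q) ≤ bb (k Q) := by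
    intro Q hQ
    have hQS := hTS hQ
    have hA := hAA Q hQS
    have hWq := hWpos Q hQS
    simp only [hbb]
    split_ifs with hκ
    · refine (hW Q hQS).trans ?_
      have := log_hi hA
      rw [zpow_add_one₀ (by norm_num)] at this
      linarith
    · have h1 := hN Q hQS
      have h2 : (ms ν Q / (ms m Q * e Q)) ^ (1 - θ) ≤ N * ((2:ℝ) ^ (k Q)) ^ (-θ) := by
        have h3 : ((2:ℝ) ^ (k Q)) ^ θ ≤ AA p m μ ν Q ^ θ :=
          Real.rpow_le_rpow (by positivity) (log_lo hA) hθ0.le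
        rw [Real.rpow_neg (by positivity), ← div_eq_mul_inv, le_div_iff₀ (by positivity)]
        calc (ms ν Q / (ms m Q * e Q)) ^ (1 - θ) * ((2:ℝ) ^ (k Q)) ^ θ
            ≤ (ms ν Q / (ms m Q * e Q)) ^ (1 - θ) * AA p m μ ν Q ^ θ := by gcongr
          _ ≤ N := by rw [mul_comm]; exact h1
      calc ms ν Q / (ms m Q * e Q) = ((ms ν Q / (ms m Q * e Q)) ^ (1 - θ)) ^ (1 / (1 - θ)) := by
            rw [← Real.rpow_mul hWq.le, mul_one_div_cancel h1θ.ne', Real.rpow_one]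
        _ ≤ _ := Real.rpow_le_rpow (Real.rpow_nonneg hWq.le _) h2 (by positivity)
  -- one layer
  set H := (∑ x ∈ R, h x ^ p * μ x) ^ (1 / p) with hH
  have hH0 : 0 ≤ H := Real.rpow_nonneg
    (Finset.sum_nonneg (fun x _ => mul_nonneg (Real.rpow_nonneg (hh x) _) (hμ x))) _
  have hVR := hνS R hR
  have hlayer : ∀ κ ∈ J, ∑ Q ∈ T with k Q = κ, aa m μ ν Q * av μ h Q ≤
      4 * Λ * CK p q * G1 (p - 1) * H * (Λ' ^ (1 / q) * ms ν R ^ (1 / q)) *
        (((2:ℝ) ^ κ) ^ (1 / p) * bb κ ^ (1 / q)) := by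
    intro κ hκ
    set Tκ := T.filter (fun Q => k Q = κ) with hTκ
    have hTκS : Tκ ⊆ S := (Finset.filter_subset _ _).trans hTS
    have hTκR : ∀ Q ∈ Tκ, Q ⊆ R ∧ 0 < av μ h Q := fun Q hQ =>
      (Finset.mem_filter.1 (Finset.mem_filter.1 hQ).1).2
    have h1 := layer (hS.mono hTκS) m μ ν h' hμ hν hh'0 (fun Q hQ => hmS Q (hTκS hQ))
      (fun Q hQ => hμS Q (hTκS hQ)) (fun Q hQ => hνS Q (hTκS hQ)) hΛ (by
        intro R' hR'
        refine le_trans ?_ (hC R' (hTκS hR'))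
        apply Finset.sum_le_sum_of_subset_of_nonneg
        · intro Q hQ
          obtain ⟨h2, h3⟩ := Finset.mem_filter.1 hQ
          exact Finset.mem_filter.2 ⟨hTκS h2, h3⟩
        · intro Q hQ _
          exact (hmS Q (Finset.mem_filter.1 hQ).1).le) hpq (L := (2:ℝ) ^ κ) (by positivity) (by
        intro Q hQ
        have hQκ : k Q = κ := (Finset.mem_filter.1 hQ).2
        have hA := hAA Q (hTκS hQ)
        have h2 := log_lo hA
        have h3 := log_hi hA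
        have hQκ' : Int.log 2 (AA p m μ ν Q) = κ := hQκ
        rw [hQκ'] at h2 h3
        rw [zpow_add_one₀ (by norm_num)] at h3
        exact ⟨h2, by linarith⟩) (by
        intro Q hQ
        rw [hav' Q (hTκR Q hQ).1]
        exact (hTκR Q hQ).2)
    have h2 : ∑ Q ∈ Tκ, aa m μ ν Q * av μ h' Q = ∑ Q ∈ Tκ, aa m μ ν Q * av μ h Q :=
      Finset.sum_congr rfl (fun Q hQ => by rw [hav' Q (hTκR Q hQ).1])
    rw [h2, hsum'] at h1
    have h3 : ∑ Q ∈ Tκ, ms ν Q ≤ bb κ * (Λ' * ms ν R) := by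
      calc ∑ Q ∈ Tκ, ms ν Q ≤ ∑ Q ∈ Tκ, bb κ * (ms m Q * e Q) := by
            apply Finset.sum_le_sum
            intro Q hQ
            have hQκ : k Q = κ := (Finset.mem_filter.1 hQ).2
            have h4 := hWb Q (Finset.mem_filter.1 hQ).1
            rw [hQκ] at h4
            have h5 := hmS Q (hTκS hQ)
            have h6 := he Q (hTκS hQ)
            rwa [div_le_iff₀ (by positivity)] at h4
        _ = bb κ * ∑ Q ∈ Tκ, ms m Q * e Q := by rw [Finset.mul_sum]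
        _ ≤ bb κ * (Λ' * ms ν R) := by
            apply mul_le_mul_of_nonneg_left _ (hbb0 κ)
            refine le_trans ?_ (hexp R hR)
            apply Finset.sum_le_sum_of_subset_of_nonneg
            · intro Q hQ
              exact Finset.mem_filter.2 ⟨hTκS hQ, (hTκR Q hQ).1⟩
            · intro Q hQ _
              have hQS := (Finset.mem_filter.1 hQ).1
              exact mul_nonneg (hmS Q hQS).le (he Q hQS).le
    have h4 : (∑ Q ∈ Tκ, ms ν Q) ^ (1 / q) ≤ bb κ ^ (1 / q) * (Λ' ^ (1 / q) * ms ν R ^ (1 / q)) := by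
      rw [← Real.mul_rpow hΛ' hVR.le, ← Real.mul_rpow (hbb0 κ) (mul_nonneg hΛ' hVR.le)]
      apply Real.rpow_le_rpow _ h3 (by positivity)
      exact Finset.sum_nonneg (fun Q hQ => (hνS Q (hTκS hQ)).le)
    calc ∑ Q ∈ Tκ, aa m μ ν Q * av μ h Q
        ≤ 4 * Λ * CK p q * G1 (p - 1) * ((2:ℝ) ^ κ) ^ (1 / p) * H * (∑ Q ∈ Tκ, ms ν Q) ^ (1 / q) := h1
      _ ≤ 4 * Λ * CK p q * G1 (p - 1) * ((2:ℝ) ^ κ) ^ (1 / p) * H *
          (bb κ ^ (1 / q) * (Λ' ^ (1 / q) * ms ν R ^ (1 / q))) := by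
          apply mul_le_mul_of_nonneg_left h4
          positivity
      _ = _ := by ring
  have hnum : ∑ κ ∈ J, ((2:ℝ) ^ κ) ^ (1 / p) * bb κ ^ (1 / q) ≤ CN c * N := by
    apply numeric J hNpos hcpos
    · intro κ _ hκ
      simp only [hbb]
      rw [if_pos hκ]
      have h2κ : (0:ℝ) < 2 ^ κ := by positivity
      rw [Real.mul_rpow (by norm_num) h2κ.le]
      have h3 : (2:ℝ) ^ (1 / q) ≤ 2 := by
        calc (2:ℝ) ^ (1 / q) ≤ 2 ^ (1:ℝ) := by
              apply Real.rpow_le_rpow_of_exponent_le (by norm_num)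
              rw [div_le_one hq]
              exact hpq.symm.lt.le
          _ = 2 := Real.rpow_one _
      have h4 : ((2:ℝ) ^ κ) ^ (1 / p) * ((2:ℝ) ^ κ) ^ (1 / q) = 2 ^ κ := by
        rw [← Real.rpow_add h2κ, hpqs, Real.rpow_one]
      calc ((2:ℝ) ^ κ) ^ (1 / p) * ((2:ℝ) ^ (1 / q) * ((2:ℝ) ^ κ) ^ (1 / q))
          = (2:ℝ) ^ (1 / q) * (((2:ℝ) ^ κ) ^ (1 / p) * ((2:ℝ) ^ κ) ^ (1 / q)) := by ring
        _ = (2:ℝ) ^ (1 / q) * 2 ^ κ := by rw [h4]
        _ ≤ 2 * 2 ^ κ := by gcongr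
    · intro κ _ hκ
      simp only [hbb]
      rw [if_neg (not_le.2 hκ)]
      have h2κ : (0:ℝ) < 2 ^ κ := by positivity
      rw [← Real.rpow_mul (by positivity), Real.mul_rpow hNpos.le (by positivity),
        ← Real.rpow_mul h2κ.le]
      have e1 : 1 / (1 - θ) * (1 / q) = 1 + c := by
        rw [hc]; unfold cc
        field_simp
        ring
      rw [e1]
      have e2 : 1 / p + -θ * (1 + c) = -c := by
        have h3 : (1 - θ) * (1 + c) = 1 / q := by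
          rw [← e1]; field_simp
        have h4 : 1 / p = 1 - 1 / q := by linarith
        rw [h4, ← h3]; ring
      calc ((2:ℝ) ^ κ) ^ (1 / p) * (N ^ (1 + c) * ((2:ℝ) ^ κ) ^ (-θ * (1 + c)))
          = N ^ (1 + c) * (((2:ℝ) ^ κ) ^ (1 / p) * ((2:ℝ) ^ κ) ^ (-θ * (1 + c))) := by ring
        _ = N ^ (1 + c) * ((2:ℝ) ^ κ) ^ (-c) := by rw [← Real.rpow_add h2κ, e2]
        _ ≤ _ := le_rfl
  calc ∑ Q ∈ T, aa m μ ν Q * av μ h Q
      = ∑ κ ∈ J, ∑ Q ∈ T with k Q = κ, aa m μ ν Q * av μ h Q := by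
        rw [Finset.sum_fiberwise_of_maps_to]
        intro Q hQ
        exact Finset.mem_image_of_mem _ hQ
    _ ≤ ∑ κ ∈ J, 4 * Λ * CK p q * G1 (p - 1) * H * (Λ' ^ (1 / q) * ms ν R ^ (1 / q)) *
        (((2:ℝ) ^ κ) ^ (1 / p) * bb κ ^ (1 / q)) := Finset.sum_le_sum hlayer
    _ = 4 * Λ * CK p q * G1 (p - 1) * H * (Λ' ^ (1 / q) * ms ν R ^ (1 / q)) *
        ∑ κ ∈ J, (((2:ℝ) ^ κ) ^ (1 / p) * bb κ ^ (1 / q)) := by rw [Finset.mul_sum]
    _ ≤ 4 * Λ * CK p q * G1 (p - 1) * H * (Λ' ^ (1 / q) * ms ν R ^ (1 / q)) * (CN c * N) := by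
        apply mul_le_mul_of_nonneg_left hnum
        positivity
    _ = _ := by
        unfold CD
        rw [← hc]
        ring

/-- reduction to `θ < 1` -/
noncomputable def th (p θ : ℝ) : ℝ := if θ < 1 then θ else (1 / p + 1) / 2

/-- **Dual testing.** -/
lemma dualTest {S : Finset (Finset X)} (hS : Lam S) (m μ ν : X → ℝ) (hμ : ∀ x, 0 ≤ μ x)
    (hν : ∀ x, 0 ≤ ν x) (hmS : ∀ Q ∈ S, 0 < ms m Q) (hμS : ∀ Q ∈ S, 0 < ms μ Q)
    (hνS : ∀ Q ∈ S, 0 < ms ν Q) {Λ : ℝ} (hΛ : 0 ≤ Λ)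
    (hC : ∀ R ∈ S, ∑ Q ∈ S with Q ⊆ R, ms m Q ≤ Λ * ms m R) {p q : ℝ}
    (hpq : p.HolderConjugate q) {θ : ℝ} (hθ : 1 / p < θ) {Λ' : ℝ} (hΛ' : 0 ≤ Λ')
    (e : Finset X → ℝ) (he : ∀ Q ∈ S, 0 < e Q)
    (hexp : ∀ R ∈ S, ∑ Q ∈ S with Q ⊆ R, ms m Q * e Q ≤ Λ' * ms ν R)
    (hW : ∀ Q ∈ S, ms ν Q / (ms m Q * e Q) ≤ AA p m μ ν Q) {N : ℝ}
    (hN : ∀ Q ∈ S, AA p m μ ν Q ^ θ * (ms ν Q / (ms m Q * e Q)) ^ (1 - θ) ≤ N)
    {R : Finset X} (hR : R ∈ S) (h : X → ℝ) (hh : ∀ x, 0 ≤ h x) :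
    ∑ Q ∈ S with Q ⊆ R, aa m μ ν Q * av μ h Q ≤
      CD p q (th p θ) Λ Λ' * N * (∑ x ∈ R, h x ^ p * μ x) ^ (1 / p) * ms ν R ^ (1 / q) := by
  have hp := hpq.pos
  have hp1 : 1 / p < 1 := by
    rw [div_lt_one hp]; exact hpq.lt
  unfold th
  split_ifs with h1
  · exact dualTest₁ hS m μ ν hμ hν hmS hμS hνS hΛ hC hpq hθ h1 hΛ' e he hexp hW hN hR h hh
  · push Not at h1
    apply dualTest₁ hS m μ ν hμ hν hmS hμS hνS hΛ hC hpq (by linarith) (by linarith) hΛ' e he hexp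
      hW _ hR h hh
    intro Q hQ
    have hm := hmS Q hQ
    have hA : 0 < AA p m μ ν Q := by
      unfold AA
      have h2 := hμS Q hQ
      have h3 := hνS Q hQ
      positivity
    have hWp : 0 < ms ν Q / (ms m Q * e Q) := by
      have h3 := hνS Q hQ
      have h4 := he Q hQ
      positivity
    refine le_trans ?_ (hN Q hQ)
    set A := AA p m μ ν Q
    set W := ms ν Q / (ms m Q * e Q)
    set θ' := (1 / p + 1) / 2
    have hθ'1 : 0 ≤ 1 - θ' := by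
      simp only [θ']; linarith
    calc A ^ θ' * W ^ (1 - θ') ≤ A ^ θ' * A ^ (1 - θ') := by
          gcongr
          exact hW Q hQ
      _ = A ^ θ * A ^ (1 - θ) := by
          rw [← Real.rpow_add hA, ← Real.rpow_add hA]
          congr 1; ring
      _ ≤ A ^ θ * W ^ (1 - θ) := by
          apply mul_le_mul_of_nonneg_left _ (Real.rpow_nonneg hA.le _)
          exact Real.rpow_le_rpow_of_nonpos hWp (hW Q hQ) (by linarith)

end Pool.Agent.H433R3.Ml
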