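import Pool.Agent.H433R3.Ml3

set_option autoImplicit false
set_option linter.unusedSectionVars false
set_option linter.unusedVariables false

namespace Pool.Agent.H433R3.Ml

open Finset Pool.Agent.H433R3.Sep

variable {X : Type*} [Fintype X] [DecidableEq X]

/-- the dual testing inequality with constant `D` -/
def Test (S : Finset (Finset X)) (m μ ν : X → ℝ) (p q D : ℝ) : Prop :=
  ∀ R ∈ S, ∀ h : X → ℝ, (∀ x, 0 ≤ h x) → ∑ Q ∈ S with Q ⊆ R, aa m μ ν Q * av μ h Q ≤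
    D * (∑ x ∈ R, h x ^ p * μ x) ^ (1 / p) * ms ν R ^ (1 / q)

/-- constant in the bilinear estimate -/
noncomputable def CS (p q : ℝ) : ℝ := 4 * G1 1 * G1 (p - 1) * G1 (q - 1)

lemma CS_pos {p q : ℝ} (hpq : p.HolderConjugate q) : 0 < CS p q := by
  unfold CS
  have h1 := G1_pos hpq.sub_one_pos
  have h2 := G1_pos hpq.symm.sub_one_pos
  have h3 := G1_pos (one_pos)
  positivity

lemma aa_nonneg {m μ ν : X → ℝ} {Q : Finset X} (h1 : 0 < ms m Q) (h2 : 0 < ms μ Q)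
    (h3 : 0 < ms ν Q) : 0 ≤ aa m μ ν Q := by
  unfold aa; positivity

lemma strongHalf {S : Finset (Finset X)} (hS : Lam S) (m μ ν f g : X → ℝ) (hμ : ∀ x, 0 ≤ μ x)
    (hν : ∀ x, 0 ≤ ν x) (hf : ∀ x, 0 ≤ f x) (hg : ∀ x, 0 ≤ g x)
    (hmS : ∀ Q ∈ S, 0 < ms m Q) (hμS : ∀ Q ∈ S, 0 < ms μ Q)
    (hνS : ∀ Q ∈ S, 0 < ms ν Q) {p q : ℝ} (hpq : p.HolderConjugate q)
    (haf : ∀ Q ∈ S, 0 < av μ f Q) (hag : ∀ Q ∈ S, 0 < av ν g Q) {D : ℝ} (hD : 0 ≤ D)
    (hT : Test S m μ ν p q D) :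
    ∑ Q ∈ S with par S (fun Q => Int.log 2 (av μ f Q)) Q ⊆ par S (fun Q => Int.log 2 (av ν g Q)) Q,
      aa m μ ν Q * av μ f Q * av ν g Q ≤
      CS p q * D * (∑ x, f x ^ p * μ x) ^ (1 / p) * (∑ x, g x ^ q * ν x) ^ (1 / q) := by
  classical
  have hp := hpq.pos
  have hq := hpq.symm.pos
  have hGp := G1_pos hpq.sub_one_pos
  have hGq := G1_pos hpq.symm.sub_one_pos
  have hG1 := G1_pos (r := 1) one_pos
  set kf : Finset X → ℤ := fun Q => Int.log 2 (av μ f Q) with hkf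
  set kg : Finset X → ℤ := fun Q => Int.log 2 (av ν g Q) with hkg
  set RF := S.image (par S kf) with hRF
  set RG := S.image (par S kg) with hRG
  have hrf : ∀ F ∈ RF, IsRec S kf F := fun F hF => mem_recs hS hF
  have hrg : ∀ G ∈ RG, IsRec S kg G := fun G hG => mem_recs hS hG
  have hIf : ∀ Q ∈ S, av μ f Q * ∑ x ∈ Q, μ x = ∑ x ∈ Q, f x * μ x := by
    intro Q hQ
    unfold av
    have h1 := hμS Q hQ
    have h2 : ms μ Q = ∑ x ∈ Q, μ x := rfl
    rw [← h2, div_mul_cancel₀ _ h1.ne']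
  have hIg : ∀ Q ∈ S, av ν g Q * ∑ x ∈ Q, ν x = ∑ x ∈ Q, g x * ν x := by
    intro Q hQ
    unfold av
    have h1 := hνS Q hQ
    have h2 : ms ν Q = ∑ x ∈ Q, ν x := rfl
    rw [← h2, div_mul_cancel₀ _ h1.ne']
  have hcf := carl_p S hS μ f hμ hf (av μ f) haf hIf hpq RF hrf
  have hcg := carl_p S hS ν g hν hg (av ν g) hag hIg hpq.symm RG hrg
  have haa : ∀ Q ∈ S, 0 ≤ aa m μ ν Q := fun Q hQ => aa_nonneg (hmS Q hQ) (hμS Q hQ) (hνS Q hQ)
  set Z : Finset X → ℝ := fun G => ∑ F ∈ RF with par S kg F = G, av μ f F ^ p * ms μ F with hZ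
  have hZ0 : ∀ G, 0 ≤ Z G := by
    intro G
    apply Finset.sum_nonneg
    intro F hF
    have hFS := (hrf F (Finset.mem_filter.1 hF).1).1
    exact mul_nonneg (Real.rpow_nonneg (haf F hFS).le _) (hμS F hFS).le
  have hstep : ∀ G ∈ RG, ∑ Q ∈ S with (par S kf Q ⊆ par S kg Q) ∧ par S kg Q = G,
      aa m μ ν Q * av μ f Q ≤ 2 * (D * (G1 1 * Z G ^ (1 / p)) * ms ν G ^ (1 / q)) := by
    intro G hG
    have hGS := (hrg G hG).1
    set RFG := RF.filter (fun F => par S kg F = G) with hRFG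
    set φ : X → ℝ := fun x => ∑ F ∈ RFG with x ∈ F, av μ f F with hφ
    have hφ0 : ∀ x, 0 ≤ φ x := by
      intro x
      apply Finset.sum_nonneg
      intro F hF
      exact (haf F (hrf F (Finset.mem_filter.1 (Finset.mem_filter.1 hF).1).1).1).le
    have h1 : ∀ Q ∈ S.filter (fun Q => (par S kf Q ⊆ par S kg Q) ∧ par S kg Q = G),
        aa m μ ν Q * av μ f Q ≤ 2 * (aa m μ ν Q * av μ φ Q) := by
      intro Q hQ
      obtain ⟨hQS, hQ1, hQ2⟩ := Finset.mem_filter.1 hQ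
      have hpf := par_spec hS kf hQS
      have hpg := par_spec hS kg hQS
      set F := par S kf Q with hF
      have hFS : F ∈ S := hpf.1.1
      have hFG : par S kg F = G := by
        have hpgF := par_spec hS kg hFS
        apply le_antisymm
        · rw [← hQ2]
          exact hpgF.2.2.2 _ hpg.1 hQ1
        · rw [← hQ2]
          exact hpg.2.2.2 _ hpgF.1 (hpf.2.1.trans hpgF.2.1)
      have hFR : F ∈ RFG := Finset.mem_filter.2 ⟨Finset.mem_image_of_mem _ hQS, hFG⟩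
      have h2 : av μ f Q ≤ 2 * av μ f F := par_le hS (av μ f) haf hQS
      have h3 : av μ f F ≤ av μ φ Q := by
        unfold av
        rw [le_div_iff₀ (hμS Q hQS)]
        show av μ f F * ms μ Q ≤ _
        unfold ms
        rw [Finset.mul_sum]
        apply Finset.sum_le_sum
        intro x hx
        apply mul_le_mul_of_nonneg_right _ (hμ x)
        exact Finset.single_le_sum (f := fun F => av μ f F) (fun F' hF' =>
          (haf F' (hrf F' (Finset.mem_filter.1 (Finset.mem_filter.1 hF').1).1).1).le)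
          (Finset.mem_filter.2 ⟨hFR, hpf.2.1 hx⟩)
      calc aa m μ ν Q * av μ f Q ≤ aa m μ ν Q * (2 * av μ φ Q) := by
            apply mul_le_mul_of_nonneg_left _ (haa Q hQS)
            linarith
        _ = _ := by ring
    have h2 : ∑ Q ∈ S with Q ⊆ G, aa m μ ν Q * av μ φ Q ≤
        D * (∑ x ∈ G, φ x ^ p * μ x) ^ (1 / p) * ms ν G ^ (1 / q) := hT G hGS φ hφ0
    have h3 : ∑ x ∈ G, φ x ^ p * μ x ≤ G1 1 ^ p * Z G := by
      have h4 : ∀ x, φ x ^ p ≤ G1 1 ^ p * ∑ F ∈ RFG with x ∈ F, av μ f F ^ p := by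
        intro x
        have h5 := chainMax (RFG.filter (fun F => x ∈ F)) (av μ f)
          (fun F hF => haf F (hrf F (Finset.mem_filter.1 (Finset.mem_filter.1 hF).1).1).1)
          (fun F hF G' hG' h => rec_inj hS
            (hrf F (Finset.mem_filter.1 (Finset.mem_filter.1 hF).1).1)
            (hrf G' (Finset.mem_filter.1 (Finset.mem_filter.1 hG').1).1)
            (Finset.mem_filter.1 hF).2 (Finset.mem_filter.1 hG').2 h) (r := 1) one_pos hp
        simp only [Real.rpow_one] at h5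
        have h6 : 0 ≤ ∑ F ∈ RFG with x ∈ F, av μ f F ^ p := by
          apply Finset.sum_nonneg
          intro F hF
          exact Real.rpow_nonneg
            (haf F (hrf F (Finset.mem_filter.1 (Finset.mem_filter.1 hF).1).1).1).le _
        calc φ x ^ p ≤ (G1 1 * (∑ F ∈ RFG with x ∈ F, av μ f F ^ p) ^ (1 / p)) ^ p :=
              Real.rpow_le_rpow (hφ0 x) h5 hp.le
          _ = _ := by
              rw [Real.mul_rpow hG1.le (Real.rpow_nonneg h6 _), ← Real.rpow_mul h6,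
                one_div_mul_cancel hp.ne', Real.rpow_one]
      calc ∑ x ∈ G, φ x ^ p * μ x ≤ ∑ x, φ x ^ p * μ x := by
            apply Finset.sum_le_sum_of_subset_of_nonneg (Finset.subset_univ _)
            intro x _ _
            exact mul_nonneg (Real.rpow_nonneg (hφ0 x) _) (hμ x)
        _ ≤ ∑ x, (G1 1 ^ p * ∑ F ∈ RFG with x ∈ F, av μ f F ^ p) * μ x := by
            apply Finset.sum_le_sum
            intro x _
            exact mul_le_mul_of_nonneg_right (h4 x) (hμ x)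
        _ = G1 1 ^ p * ∑ x, (∑ F ∈ RFG with x ∈ F, av μ f F ^ p) * μ x := by
            rw [Finset.mul_sum]
            apply Finset.sum_congr rfl
            intro x _; ring
        _ = _ := by
            rw [← sum_swap RFG (fun F => av μ f F ^ p) μ]
            rfl
    have h3' : (∑ x ∈ G, φ x ^ p * μ x) ^ (1 / p) ≤ G1 1 * Z G ^ (1 / p) := by
      calc (∑ x ∈ G, φ x ^ p * μ x) ^ (1 / p) ≤ (G1 1 ^ p * Z G) ^ (1 / p) := by
            apply Real.rpow_le_rpow _ h3 (by positivity)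
            exact Finset.sum_nonneg (fun x _ => mul_nonneg (Real.rpow_nonneg (hφ0 x) _) (hμ x))
        _ = _ := by
            rw [Real.mul_rpow (Real.rpow_nonneg hG1.le _) (hZ0 G), ← Real.rpow_mul hG1.le,
              mul_one_div_cancel hp.ne', Real.rpow_one]
    have hνG := (hνS G hGS).le
    calc ∑ Q ∈ S with (par S kf Q ⊆ par S kg Q) ∧ par S kg Q = G, aa m μ ν Q * av μ f Q
        ≤ ∑ Q ∈ S with (par S kf Q ⊆ par S kg Q) ∧ par S kg Q = G, 2 * (aa m μ ν Q * av μ φ Q) :=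
          Finset.sum_le_sum h1
      _ ≤ ∑ Q ∈ S with Q ⊆ G, 2 * (aa m μ ν Q * av μ φ Q) := by
          apply Finset.sum_le_sum_of_subset_of_nonneg
          · intro Q hQ
            obtain ⟨hQS, hQ1, hQ2⟩ := Finset.mem_filter.1 hQ
            refine Finset.mem_filter.2 ⟨hQS, ?_⟩
            rw [← hQ2]
            exact (par_spec hS kg hQS).2.1
          · intro Q hQ _
            have hQS := (Finset.mem_filter.1 hQ).1
            have h5 : 0 ≤ av μ φ Q := by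
              unfold av
              exact div_nonneg (Finset.sum_nonneg (fun x _ => mul_nonneg (hφ0 x) (hμ x)))
                (hμS Q hQS).le
            have := haa Q hQS
            positivity
      _ = 2 * ∑ Q ∈ S with Q ⊆ G, aa m μ ν Q * av μ φ Q := by rw [Finset.mul_sum]
      _ ≤ 2 * (D * (∑ x ∈ G, φ x ^ p * μ x) ^ (1 / p) * ms ν G ^ (1 / q)) := by gcongr
      _ ≤ _ := by gcongr
  have hsplit : ∑ Q ∈ S with par S kf Q ⊆ par S kg Q, aa m μ ν Q * av μ f Q * av ν g Q ≤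
      ∑ G ∈ RG, 2 * av ν g G * (2 * (D * (G1 1 * Z G ^ (1 / p)) * ms ν G ^ (1 / q))) := by
    rw [sum_par hS kg (fun Q => aa m μ ν Q * av μ f Q * av ν g Q)
      (T := S.filter (fun Q => par S kf Q ⊆ par S kg Q)) (Finset.filter_subset _ _)]
    apply Finset.sum_le_sum
    intro G hG
    have hGS := (hrg G hG).1
    have hgG := (hag G hGS).le
    rw [Finset.filter_filter]
    calc ∑ Q ∈ S with (par S kf Q ⊆ par S kg Q) ∧ par S kg Q = G,
          aa m μ ν Q * av μ f Q * av ν g Q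
        ≤ ∑ Q ∈ S with (par S kf Q ⊆ par S kg Q) ∧ par S kg Q = G,
          2 * av ν g G * (aa m μ ν Q * av μ f Q) := by
          apply Finset.sum_le_sum
          intro Q hQ
          obtain ⟨hQS, hQ1, hQ2⟩ := Finset.mem_filter.1 hQ
          have h2 : av ν g Q ≤ 2 * av ν g G := by
            have := par_le hS (av ν g) hag hQS
            rw [show par S (fun Q => Int.log 2 (av ν g Q)) Q = G from hQ2] at this
            exact this
          rw [mul_comm (2 * av ν g G)]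
          exact mul_le_mul_of_nonneg_left h2 (mul_nonneg (haa Q hQS) (haf Q hQS).le)
      _ = 2 * av ν g G * ∑ Q ∈ S with (par S kf Q ⊆ par S kg Q) ∧ par S kg Q = G,
          (aa m μ ν Q * av μ f Q) := by rw [Finset.mul_sum]
      _ ≤ _ := mul_le_mul_of_nonneg_left (hstep G hG) (by positivity)
  have hZsum : ∑ G ∈ RG, Z G ≤ G1 (p - 1) ^ p * ∑ x, f x ^ p * μ x := by
    refine le_trans (le_of_eq ?_) hcf
    simp only [hZ]
    rw [Finset.sum_fiberwise_of_maps_to]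
    · rfl
    · intro F hF
      exact Finset.mem_image_of_mem _ (hrf F hF).1
  have hf0 : 0 ≤ ∑ x, f x ^ p * μ x :=
    Finset.sum_nonneg (fun x _ => mul_nonneg (Real.rpow_nonneg (hf x) _) (hμ x))
  have hg0 : 0 ≤ ∑ x, g x ^ q * ν x :=
    Finset.sum_nonneg (fun x _ => mul_nonneg (Real.rpow_nonneg (hg x) _) (hν x))
  have hHol : ∑ G ∈ RG, Z G ^ (1 / p) * (av ν g G * ms ν G ^ (1 / q)) ≤
      (∑ G ∈ RG, Z G) ^ (1 / p) * (∑ G ∈ RG, av ν g G ^ q * ms ν G) ^ (1 / q) := by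
    have h1 := Real.inner_le_Lp_mul_Lq_of_nonneg RG hpq
      (f := fun G => Z G ^ (1 / p)) (g := fun G => av ν g G * ms ν G ^ (1 / q))
      (fun G hG => Real.rpow_nonneg (hZ0 G) _)
      (fun G hG => mul_nonneg (hag G (hrg G hG).1).le (Real.rpow_nonneg (hνS G (hrg G hG).1).le _))
    have e2 : ∀ G ∈ RG, (av ν g G * ms ν G ^ (1 / q)) ^ q = av ν g G ^ q * ms ν G := by
      intro G hG
      have h2 := (hνS G (hrg G hG).1).le
      rw [Real.mul_rpow (hag G (hrg G hG).1).le (Real.rpow_nonneg h2 _),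
        ← Real.rpow_mul h2, one_div_mul_cancel hq.ne', Real.rpow_one]
    have e3 : ∀ G ∈ RG, (Z G ^ (1 / p)) ^ p = Z G := by
      intro G hG
      rw [← Real.rpow_mul (hZ0 G), one_div_mul_cancel hp.ne', Real.rpow_one]
    rw [Finset.sum_congr rfl e2, Finset.sum_congr rfl e3] at h1
    exact h1
  have hA1 : (∑ G ∈ RG, Z G) ^ (1 / p) ≤ G1 (p - 1) * (∑ x, f x ^ p * μ x) ^ (1 / p) := by
    calc (∑ G ∈ RG, Z G) ^ (1 / p) ≤ (G1 (p - 1) ^ p * ∑ x, f x ^ p * μ x) ^ (1 / p) :=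
          Real.rpow_le_rpow (Finset.sum_nonneg (fun G _ => hZ0 G)) hZsum (by positivity)
      _ = _ := by
          rw [Real.mul_rpow (Real.rpow_nonneg hGp.le _) hf0, ← Real.rpow_mul hGp.le,
            mul_one_div_cancel hp.ne', Real.rpow_one]
  have hA2 : (∑ G ∈ RG, av ν g G ^ q * ms ν G) ^ (1 / q) ≤
      G1 (q - 1) * (∑ x, g x ^ q * ν x) ^ (1 / q) := by
    calc (∑ G ∈ RG, av ν g G ^ q * ms ν G) ^ (1 / q)
        ≤ (G1 (q - 1) ^ q * ∑ x, g x ^ q * ν x) ^ (1 / q) := by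
          apply Real.rpow_le_rpow _ hcg (by positivity)
          apply Finset.sum_nonneg
          intro G hG
          exact mul_nonneg (Real.rpow_nonneg (hag G (hrg G hG).1).le _) (hνS G (hrg G hG).1).le
      _ = _ := by
          rw [Real.mul_rpow (Real.rpow_nonneg hGq.le _) hg0, ← Real.rpow_mul hGq.le,
            mul_one_div_cancel hq.ne', Real.rpow_one]
  have hnn : 0 ≤ (∑ G ∈ RG, av ν g G ^ q * ms ν G) ^ (1 / q) := by
    apply Real.rpow_nonneg
    apply Finset.sum_nonneg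
    intro G hG
    exact mul_nonneg (Real.rpow_nonneg (hag G (hrg G hG).1).le _) (hνS G (hrg G hG).1).le
  calc ∑ Q ∈ S with par S kf Q ⊆ par S kg Q, aa m μ ν Q * av μ f Q * av ν g Q
      ≤ ∑ G ∈ RG, 2 * av ν g G * (2 * (D * (G1 1 * Z G ^ (1 / p)) * ms ν G ^ (1 / q))) := hsplit
    _ = 4 * D * G1 1 * ∑ G ∈ RG, Z G ^ (1 / p) * (av ν g G * ms ν G ^ (1 / q)) := by
        rw [Finset.mul_sum]
        apply Finset.sum_congr rfl
        intro G _; ring
    _ ≤ 4 * D * G1 1 * ((∑ G ∈ RG, Z G) ^ (1 / p) *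
          (∑ G ∈ RG, av ν g G ^ q * ms ν G) ^ (1 / q)) := by gcongr
    _ ≤ 4 * D * G1 1 * ((G1 (p - 1) * (∑ x, f x ^ p * μ x) ^ (1 / p)) *
          (G1 (q - 1) * (∑ x, g x ^ q * ν x) ^ (1 / q))) := by
        apply mul_le_mul_of_nonneg_left _ (by positivity)
        apply mul_le_mul hA1 hA2 hnn
        positivity
    _ = _ := by unfold CS; ring

lemma aa_comm (m μ ν : X → ℝ) (Q : Finset X) : aa m μ ν Q = aa m ν μ Q := by
  unfold aa; rw [mul_comm]

lemma Test.mono {S S' : Finset (Finset X)} {m μ ν : X → ℝ} {p q D : ℝ}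
    (hT : Test S m μ ν p q D) (h : S' ⊆ S) (hμ : ∀ x, 0 ≤ μ x)
    (hmS : ∀ Q ∈ S, 0 < ms m Q) (hμS : ∀ Q ∈ S, 0 < ms μ Q) (hνS : ∀ Q ∈ S, 0 < ms ν Q) :
    Test S' m μ ν p q D := by
  intro R hR φ hφ
  refine le_trans ?_ (hT R (h hR) φ hφ)
  apply Finset.sum_le_sum_of_subset_of_nonneg
  · exact Finset.filter_subset_filter _ h
  · intro Q hQ _
    have hQS := (Finset.mem_filter.1 hQ).1
    have h5 : 0 ≤ av μ φ Q := by
      unfold av
      exact div_nonneg (Finset.sum_nonneg (fun x _ => mul_nonneg (hφ x) (hμ x)))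
        (hμS Q hQS).le
    exact mul_nonneg (aa_nonneg (hmS Q hQS) (hμS Q hQS) (hνS Q hQS)) h5

lemma bilinear {S : Finset (Finset X)} (hS : Lam S) (m μ ν f g : X → ℝ) (hμ : ∀ x, 0 ≤ μ x)
    (hν : ∀ x, 0 ≤ ν x) (hf : ∀ x, 0 ≤ f x) (hg : ∀ x, 0 ≤ g x)
    (hmS : ∀ Q ∈ S, 0 < ms m Q) (hμS : ∀ Q ∈ S, 0 < ms μ Q)
    (hνS : ∀ Q ∈ S, 0 < ms ν Q) {p q : ℝ} (hpq : p.HolderConjugate q) {D₁ D₂ : ℝ}
    (hD₁ : 0 ≤ D₁) (hD₂ : 0 ≤ D₂) (hT₁ : Test S m μ ν p q D₁) (hT₂ : Test S m ν μ q p D₂) :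
    ∑ Q ∈ S, aa m μ ν Q * av μ f Q * av ν g Q ≤
      CS p q * (D₁ + D₂) * (∑ x, f x ^ p * μ x) ^ (1 / p) * (∑ x, g x ^ q * ν x) ^ (1 / q) := by
  classical
  have hav : ∀ {μ : X → ℝ} {f : X → ℝ} {Q : Finset X}, (∀ x, 0 ≤ μ x) → (∀ x, 0 ≤ f x) →
      0 < ms μ Q → 0 ≤ av μ f Q := by
    intro μ f Q h1 h2 h3
    unfold av
    exact div_nonneg (Finset.sum_nonneg (fun x _ => mul_nonneg (h2 x) (h1 x))) h3.le
  set S' := S.filter (fun Q => 0 < av μ f Q ∧ 0 < av ν g Q) with hS'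
  have hSS : S' ⊆ S := Finset.filter_subset _ _
  have hred : ∑ Q ∈ S, aa m μ ν Q * av μ f Q * av ν g Q =
      ∑ Q ∈ S', aa m μ ν Q * av μ f Q * av ν g Q := by
    symm
    apply Finset.sum_subset_zero_on_sdiff hSS
    · intro Q hQ
      obtain ⟨h1, h2⟩ := Finset.mem_sdiff.1 hQ
      have h3 := hav hμ hf (hμS Q h1)
      have h4 := hav hν hg (hνS Q h1)
      rcases h3.eq_or_lt with h5 | h5
      · rw [← h5]; ring
      · rcases h4.eq_or_lt with h6 | h6
        · rw [← h6]; ring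
        · exact absurd (Finset.mem_filter.2 ⟨h1, h5, h6⟩) h2
    · intro Q _; rfl
  have hL := hS.mono hSS
  have hf' : ∀ Q ∈ S', 0 < av μ f Q := fun Q hQ => (Finset.mem_filter.1 hQ).2.1
  have hg' : ∀ Q ∈ S', 0 < av ν g Q := fun Q hQ => (Finset.mem_filter.1 hQ).2.2
  have h1 := strongHalf hL m μ ν f g hμ hν hf hg (fun Q hQ => hmS Q (hSS hQ))
    (fun Q hQ => hμS Q (hSS hQ)) (fun Q hQ => hνS Q (hSS hQ)) hpq hf' hg' hD₁
    (hT₁.mono hSS hμ hmS hμS hνS)
  have h2 := strongHalf hL m ν μ g f hν hμ hg hf (fun Q hQ => hmS Q (hSS hQ))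
    (fun Q hQ => hνS Q (hSS hQ)) (fun Q hQ => hμS Q (hSS hQ)) hpq.symm hg' hf' hD₂
    (hT₂.mono hSS hν hmS hνS hμS)
  rw [hred]
  have hnn : ∀ Q ∈ S', 0 ≤ aa m μ ν Q * av μ f Q * av ν g Q := fun Q hQ =>
    mul_nonneg (mul_nonneg (aa_nonneg (hmS Q (hSS hQ)) (hμS Q (hSS hQ)) (hνS Q (hSS hQ)))
      (hf' Q hQ).le) (hg' Q hQ).le
  rw [← Finset.sum_filter_add_sum_filter_not S' (fun Q =>
    par S' (fun Q => Int.log 2 (av μ f Q)) Q ⊆ par S' (fun Q => Int.log 2 (av ν g Q)) Q)]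
  have h3 : ∑ Q ∈ S' with ¬ (par S' (fun Q => Int.log 2 (av μ f Q)) Q ⊆
      par S' (fun Q => Int.log 2 (av ν g Q)) Q), aa m μ ν Q * av μ f Q * av ν g Q ≤
      CS q p * D₂ * (∑ x, g x ^ q * ν x) ^ (1 / q) * (∑ x, f x ^ p * μ x) ^ (1 / p) := by
    refine le_trans ?_ h2
    have e : ∀ Q ∈ S'.filter (fun Q => par S' (fun Q => Int.log 2 (av ν g Q)) Q ⊆
        par S' (fun Q => Int.log 2 (av μ f Q)) Q), aa m ν μ Q * av ν g Q * av μ f Q =
        aa m μ ν Q * av μ f Q * av ν g Q := by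
      intro Q _
      rw [aa_comm]; ring
    rw [Finset.sum_congr rfl e]
    apply Finset.sum_le_sum_of_subset_of_nonneg
    · intro Q hQ
      obtain ⟨hQS, hQ1⟩ := Finset.mem_filter.1 hQ
      refine Finset.mem_filter.2 ⟨hQS, ?_⟩
      obtain ⟨x, hx⟩ := hL.1 Q hQS
      have hpf := par_spec hL (fun Q => Int.log 2 (av μ f Q)) hQS
      have hpg := par_spec hL (fun Q => Int.log 2 (av ν g Q)) hQS
      rcases hL.comp hpf.1.1 hpg.1.1 (hpf.2.1 hx) (hpg.2.1 hx) with h | h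
      · exact absurd h hQ1
      · exact h.1
    · intro Q hQ _
      exact hnn Q (Finset.mem_filter.1 hQ).1
  have e : CS q p = CS p q := by unfold CS; ring
  rw [e] at h3
  calc _ ≤ CS p q * D₁ * (∑ x, f x ^ p * μ x) ^ (1 / p) * (∑ x, g x ^ q * ν x) ^ (1 / q) +
        CS p q * D₂ * (∑ x, g x ^ q * ν x) ^ (1 / q) * (∑ x, f x ^ p * μ x) ^ (1 / p) :=
        add_le_add h1 h3
    _ = _ := by ring

/-- the positive operator -/
noncomputable def Op (S : Finset (Finset X)) (m μ f : X → ℝ) (x : X) : ℝ :=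
  ∑ Q ∈ S with x ∈ Q, (∑ y ∈ Q, f y * μ y) / ms m Q

lemma strongOp {S : Finset (Finset X)} (hS : Lam S) (m μ ν f : X → ℝ) (hμ : ∀ x, 0 ≤ μ x)
    (hν : ∀ x, 0 ≤ ν x) (hf : ∀ x, 0 ≤ f x)
    (hmS : ∀ Q ∈ S, 0 < ms m Q) (hμS : ∀ Q ∈ S, 0 < ms μ Q)
    (hνS : ∀ Q ∈ S, 0 < ms ν Q) {p q : ℝ} (hpq : p.HolderConjugate q) {D₁ D₂ : ℝ}
    (hD₁ : 0 ≤ D₁) (hD₂ : 0 ≤ D₂) (hT₁ : Test S m μ ν p q D₁) (hT₂ : Test S m ν μ q p D₂) :
    ∑ x, Op S m μ f x ^ p * ν x ≤ (CS p q * (D₁ + D₂)) ^ p * ∑ x, f x ^ p * μ x := by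
  classical
  have hp := hpq.pos
  have hq := hpq.symm.pos
  have hCS := CS_pos hpq
  set A := Op S m μ f with hA
  have hA0 : ∀ x, 0 ≤ A x := by
    intro x
    apply Finset.sum_nonneg
    intro Q hQ
    exact div_nonneg (Finset.sum_nonneg (fun y _ => mul_nonneg (hf y) (hμ y)))
      (hmS Q (Finset.mem_filter.1 hQ).1).le
  set g : X → ℝ := fun x => A x ^ (p - 1) with hg
  have hg0 : ∀ x, 0 ≤ g x := fun x => Real.rpow_nonneg (hA0 x) _
  have h1 := bilinear hS m μ ν f g hμ hν hf hg0 hmS hμS hνS hpq hD₁ hD₂ hT₁ hT₂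
  have h2 : ∑ Q ∈ S, aa m μ ν Q * av μ f Q * av ν g Q = ∑ x, A x ^ p * ν x := by
    have e1 : ∀ Q ∈ S, aa m μ ν Q * av μ f Q * av ν g Q =
        ((∑ y ∈ Q, f y * μ y) / ms m Q) * ∑ x ∈ Q, g x * ν x := by
      intro Q hQ
      unfold aa av
      have a1 := (hmS Q hQ).ne'
      have a2 := (hμS Q hQ).ne'
      have a3 := (hνS Q hQ).ne'
      field_simp
    rw [Finset.sum_congr rfl e1, sum_swap S (fun Q => (∑ y ∈ Q, f y * μ y) / ms m Q)
      (fun x => g x * ν x)]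
    apply Finset.sum_congr rfl
    intro x _
    show A x * (g x * ν x) = A x ^ p * ν x
    rw [← mul_assoc]
    congr 1
    simp only [hg]
    rcases (hA0 x).eq_or_lt with h | h
    · rw [← h, zero_mul, Real.zero_rpow hp.ne']
    · rw [mul_comm, ← Real.rpow_add_one h.ne']
      congr 1; ring
  have h3 : ∀ x, g x ^ q = A x ^ p := by
    intro x
    simp only [hg]
    rw [← Real.rpow_mul (hA0 x)]
    congr 1
    have := hpq.inv_add_inv_eq_one
    field_simp at this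
    linarith
  rw [h2] at h1
  simp_rw [h3] at h1
  have hf0 : 0 ≤ ∑ x, f x ^ p * μ x :=
    Finset.sum_nonneg (fun x _ => mul_nonneg (Real.rpow_nonneg (hf x) _) (hμ x))
  have hZ0 : 0 ≤ ∑ x, A x ^ p * ν x :=
    Finset.sum_nonneg (fun x _ => mul_nonneg (Real.rpow_nonneg (hA0 x) _) (hν x))
  have h4 := selfimp hpq hZ0 (by positivity) h1
  refine h4.trans (le_of_eq ?_)
  rw [Real.mul_rpow (by positivity) (Real.rpow_nonneg hf0 _), ← Real.rpow_mul hf0,
    one_div_mul_cancel hp.ne', Real.rpow_one]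

end Pool.Agent.H433R3.Ml
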