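import Pool.Agent.H433R3.Ml4

set_option autoImplicit false
set_option linter.unusedSectionVars false
set_option linter.unusedVariables false

namespace Pool.Agent.H433R3.Ml

open Finset Pool.Agent.H433R3.Sep

variable {X : Type*} [Fintype X] [DecidableEq X]

lemma weakStep {S : Finset (Finset X)} (hS : Lam S) (m μ ν f : X → ℝ) (hμ : ∀ x, 0 ≤ μ x)
    (hν : ∀ x, 0 ≤ ν x) (hf : ∀ x, 0 ≤ f x)
    (hmS : ∀ Q ∈ S, 0 < ms m Q) (hμS : ∀ Q ∈ S, 0 < ms μ Q)
    (hνS : ∀ Q ∈ S, 0 < ms ν Q) {p q : ℝ} (hpq : p.HolderConjugate q) {D : ℝ}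
    (hD : 0 ≤ D) (hT : Test S m μ ν p q D) {lam δ : ℝ} (hlam : 0 < lam) (hδ : 0 < δ) :
    ∑ x with 2 * lam < Op S m μ f x, ν x ≤ δ * ∑ x with lam < Op S m μ f x, ν x +
      (D / (lam * δ)) ^ p * ∑ x, f x ^ p * μ x := by
  classical
  have hp := hpq.pos
  have hq := hpq.symm.pos
  set c : Finset X → ℝ := fun Q => (∑ y ∈ Q, f y * μ y) / ms m Q with hc
  have hc0 : ∀ Q ∈ S, 0 ≤ c Q := fun Q hQ =>
    div_nonneg (Finset.sum_nonneg (fun y _ => mul_nonneg (hf y) (hμ y))) (hmS Q hQ).le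
  set A : X → ℝ := Op S m μ f with hA
  have hAx : ∀ x, A x = ∑ Q ∈ S with x ∈ Q, c Q := fun x => rfl
  set s : Finset X → ℝ := fun R => ∑ Q ∈ S with R ⊆ Q, c Q with hs
  set RR := S.filter (fun R => lam < s R ∧ ∀ Q ∈ S, R ⊂ Q → s Q ≤ lam) with hRR
  have hRS : ∀ R ∈ RR, R ∈ S := fun R hR => (Finset.mem_filter.1 hR).1
  have hdis : ∀ R ∈ RR, ∀ R' ∈ RR, R ≠ R' → Disjoint R R' := by
    intro R hR R' hR' hne
    have h1 := (Finset.mem_filter.1 hR).2
    have h2 := (Finset.mem_filter.1 hR').2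
    rcases hS.2 R (hRS R hR) R' (hRS R' hR') with h | h | h
    · have h3 : R ⊂ R' := Finset.ssubset_iff_subset_ne.2 ⟨h, hne⟩
      exact absurd h2.1 (not_lt.2 (h1.2 R' (hRS R' hR') h3))
    · have h3 : R' ⊂ R := Finset.ssubset_iff_subset_ne.2 ⟨h, hne.symm⟩
      exact absurd h1.1 (not_lt.2 (h2.2 R (hRS R hR) h3))
    · exact h
  have hsub : ∀ R ∈ RR, ∀ x ∈ R, lam < A x := by
    intro R hR x hx
    refine lt_of_lt_of_le (Finset.mem_filter.1 hR).2.1 ?_
    rw [hAx]
    apply Finset.sum_le_sum_of_subset_of_nonneg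
    · intro Q hQ
      obtain ⟨h1, h2⟩ := Finset.mem_filter.1 hQ
      exact Finset.mem_filter.2 ⟨h1, h2 hx⟩
    · intro Q hQ _
      exact hc0 Q (Finset.mem_filter.1 hQ).1
  have hcov : ∀ x, lam < A x → ∃ R ∈ RR, x ∈ R := by
    intro x hx
    have hne : (S.filter (fun Q => x ∈ Q)).Nonempty := by
      by_contra h
      rw [Finset.not_nonempty_iff_eq_empty] at h
      rw [hAx, h, Finset.sum_empty] at hx
      linarith
    obtain ⟨Q₀, hQ₀, hmin⟩ := Finset.exists_min_image _ Finset.card hne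
    obtain ⟨hQ₀S, hxQ₀⟩ := Finset.mem_filter.1 hQ₀
    have h1 : A x ≤ s Q₀ := by
      rw [hAx]
      apply Finset.sum_le_sum_of_subset_of_nonneg
      · intro Q hQ
        obtain ⟨hQS, hxQ⟩ := Finset.mem_filter.1 hQ
        refine Finset.mem_filter.2 ⟨hQS, ?_⟩
        rcases hS.comp hQ₀S hQS hxQ₀ hxQ with h | h
        · exact h
        · exact absurd (hmin Q hQ) (not_le.2 (Finset.card_lt_card h))
      · intro Q hQ _
        exact hc0 Q (Finset.mem_filter.1 hQ).1
    have hne2 : (S.filter (fun Q => Q₀ ⊆ Q ∧ lam < s Q)).Nonempty :=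
      ⟨Q₀, Finset.mem_filter.2 ⟨hQ₀S, subset_rfl, lt_of_lt_of_le hx h1⟩⟩
    obtain ⟨R, hR, hmax⟩ := Finset.exists_max_image _ Finset.card hne2
    obtain ⟨hRS', hR1, hR2⟩ := Finset.mem_filter.1 hR
    refine ⟨R, Finset.mem_filter.2 ⟨hRS', hR2, ?_⟩, hR1 hxQ₀⟩
    intro Q hQS hRQ
    by_contra hcon
    push Not at hcon
    have h2 := hmax Q (Finset.mem_filter.2 ⟨hQS, hR1.trans hRQ.1, hcon⟩)
    exact absurd h2 (not_le.2 (Finset.card_lt_card hRQ))
  set E : Finset X → Finset X := fun R => R.filter (fun x => 2 * lam < A x) with hE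
  have hone : ∀ R ∈ RR, ∑ x ∈ E R, ν x ≤ δ * ms ν R +
      (D / (lam * δ)) ^ p * ∑ x ∈ R, f x ^ p * μ x := by
    intro R hR
    have hRS' := hRS R hR
    have hνR := hνS R hRS'
    have hF0 : 0 ≤ ∑ x ∈ R, f x ^ p * μ x :=
      Finset.sum_nonneg (fun x _ => mul_nonneg (Real.rpow_nonneg (hf x) _) (hμ x))
    have hup : ∑ Q ∈ S with R ⊂ Q, c Q ≤ lam := by
      rcases (S.filter (fun Q => R ⊂ Q)).eq_empty_or_nonempty with h | h
      · rw [h, Finset.sum_empty]; exact hlam.le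
      · obtain ⟨P, hP, hmin⟩ := Finset.exists_min_image _ Finset.card h
        obtain ⟨hPS, hRP⟩ := Finset.mem_filter.1 hP
        refine le_trans ?_ ((Finset.mem_filter.1 hR).2.2 P hPS hRP)
        apply Finset.sum_le_sum_of_subset_of_nonneg
        · intro Q hQ
          obtain ⟨hQS, hRQ⟩ := Finset.mem_filter.1 hQ
          refine Finset.mem_filter.2 ⟨hQS, ?_⟩
          obtain ⟨x, hx⟩ := hS.1 R hRS'
          rcases hS.comp hPS hQS (hRP.1 hx) (hRQ.1 hx) with h' | h'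
          · exact h'
          · exact absurd (hmin Q hQ) (not_le.2 (Finset.card_lt_card h'))
        · intro Q hQ _
          exact hc0 Q (Finset.mem_filter.1 hQ).1
    have hlow : ∀ x ∈ E R, lam ≤ ∑ Q ∈ S with (Q ⊆ R ∧ x ∈ Q), c Q := by
      intro x hx
      obtain ⟨hxR, hx2⟩ := Finset.mem_filter.1 hx
      rw [hAx, ← Finset.sum_filter_add_sum_filter_not _ (fun Q => Q ⊆ R)] at hx2
      rw [Finset.filter_filter, Finset.filter_filter] at hx2
      have h1 : ∑ Q ∈ S with (x ∈ Q ∧ ¬ Q ⊆ R), c Q ≤ lam := by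
        refine le_trans ?_ hup
        apply Finset.sum_le_sum_of_subset_of_nonneg
        · intro Q hQ
          obtain ⟨hQS, hxQ, hQR⟩ := Finset.mem_filter.1 hQ
          refine Finset.mem_filter.2 ⟨hQS, ?_⟩
          rcases hS.comp hQS hRS' hxQ hxR with h' | h'
          · exact absurd h' hQR
          · exact h'
        · intro Q hQ _
          exact hc0 Q (Finset.mem_filter.1 hQ).1
      have e : S.filter (fun Q => Q ⊆ R ∧ x ∈ Q) = S.filter (fun Q => x ∈ Q ∧ Q ⊆ R) :=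
        Finset.filter_congr (fun Q _ => and_comm)
      rw [e]
      linarith
    have htest := hT R hRS' f hf
    have h1 : lam * ∑ x ∈ E R, ν x ≤ ∑ Q ∈ S with Q ⊆ R, aa m μ ν Q * av μ f Q := by
      calc lam * ∑ x ∈ E R, ν x = ∑ x ∈ E R, lam * ν x := by rw [Finset.mul_sum]
        _ ≤ ∑ x ∈ E R, (∑ Q ∈ S with (Q ⊆ R ∧ x ∈ Q), c Q) * ν x := by
            apply Finset.sum_le_sum
            intro x hx
            exact mul_le_mul_of_nonneg_right (hlow x hx) (hν x)
        _ ≤ ∑ x, (∑ Q ∈ S with (Q ⊆ R ∧ x ∈ Q), c Q) * ν x := by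
            apply Finset.sum_le_sum_of_subset_of_nonneg (Finset.subset_univ _)
            intro x _ _
            apply mul_nonneg _ (hν x)
            exact Finset.sum_nonneg (fun Q hQ => hc0 Q (Finset.mem_filter.1 hQ).1)
        _ = ∑ Q ∈ S with Q ⊆ R, c Q * ∑ x ∈ Q, ν x := by
            rw [sum_swap (S.filter (fun Q => Q ⊆ R)) c ν]
            apply Finset.sum_congr rfl
            intro x _
            rw [Finset.filter_filter]
        _ = _ := by
            apply Finset.sum_congr rfl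
            intro Q hQ
            have hQS := (Finset.mem_filter.1 hQ).1
            unfold aa av
            simp only [hc]
            have a1 := (hmS Q hQS).ne'
            have a2 := (hμS Q hQS).ne'
            have e : ∑ x ∈ Q, ν x = ms ν Q := rfl
            rw [e]
            field_simp
    by_cases hcase : ∑ x ∈ E R, ν x ≤ δ * ms ν R
    · have : 0 ≤ (D / (lam * δ)) ^ p * ∑ x ∈ R, f x ^ p * μ x := by positivity
      linarith
    · push Not at hcase
      have h2 : ms ν R ≤ D / (lam * δ) * (∑ x ∈ R, f x ^ p * μ x) ^ (1 / p) *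
          ms ν R ^ (1 / q) := by
        have h3 : lam * (δ * ms ν R) ≤
            D * (∑ x ∈ R, f x ^ p * μ x) ^ (1 / p) * ms ν R ^ (1 / q) := by
          calc lam * (δ * ms ν R) ≤ lam * ∑ x ∈ E R, ν x := by
                apply mul_le_mul_of_nonneg_left hcase.le hlam.le
            _ ≤ _ := h1.trans htest
        have h4 : D / (lam * δ) * (∑ x ∈ R, f x ^ p * μ x) ^ (1 / p) * ms ν R ^ (1 / q) =
            (D * (∑ x ∈ R, f x ^ p * μ x) ^ (1 / p) * ms ν R ^ (1 / q)) / (lam * δ) := by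
          ring
        rw [h4, le_div_iff₀ (by positivity)]
        linarith
      have h5 := selfimp hpq hνR.le (by positivity) h2
      rw [Real.mul_rpow (by positivity) (Real.rpow_nonneg hF0 _), ← Real.rpow_mul hF0,
        one_div_mul_cancel hp.ne', Real.rpow_one] at h5
      have h6 : ∑ x ∈ E R, ν x ≤ ms ν R :=
        Finset.sum_le_sum_of_subset_of_nonneg (Finset.filter_subset _ _) (fun x _ _ => hν x)
      have h7 : 0 ≤ δ * ms ν R := by positivity
      linarith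
  have hcover : ∑ x with 2 * lam < A x, ν x ≤ ∑ R ∈ RR, ∑ x ∈ E R, ν x := by
    rw [← Finset.sum_biUnion]
    · apply Finset.sum_le_sum_of_subset_of_nonneg
      · intro x hx
        have hx' := (Finset.mem_filter.1 hx).2
        obtain ⟨R, hR, hxR⟩ := hcov x (by linarith)
        exact Finset.mem_biUnion.2 ⟨R, hR, Finset.mem_filter.2 ⟨hxR, hx'⟩⟩
      · intro x _ _; exact hν x
    · intro R hR R' hR' hne
      exact (hdis R hR R' hR' hne).mono (Finset.filter_subset _ _) (Finset.filter_subset _ _)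
  have hsum1 : ∑ R ∈ RR, ms ν R ≤ ∑ x with lam < A x, ν x := by
    show ∑ R ∈ RR, ∑ x ∈ R, ν x ≤ _
    rw [← Finset.sum_biUnion (fun R hR R' hR' hne => hdis R hR R' hR' hne)]
    apply Finset.sum_le_sum_of_subset_of_nonneg
    · intro x hx
      obtain ⟨R, hR, hxR⟩ := Finset.mem_biUnion.1 hx
      exact Finset.mem_filter.2 ⟨Finset.mem_univ _, hsub R hR x hxR⟩
    · intro x _ _; exact hν x
  have hsum2 : ∑ R ∈ RR, ∑ x ∈ R, f x ^ p * μ x ≤ ∑ x, f x ^ p * μ x := by
    rw [← Finset.sum_biUnion (fun R hR R' hR' hne => hdis R hR R' hR' hne)]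
    apply Finset.sum_le_sum_of_subset_of_nonneg (Finset.subset_univ _)
    intro x _ _
    exact mul_nonneg (Real.rpow_nonneg (hf x) _) (hμ x)
  calc ∑ x with 2 * lam < A x, ν x ≤ ∑ R ∈ RR, ∑ x ∈ E R, ν x := hcover
    _ ≤ ∑ R ∈ RR, (δ * ms ν R + (D / (lam * δ)) ^ p * ∑ x ∈ R, f x ^ p * μ x) :=
        Finset.sum_le_sum hone
    _ = δ * ∑ R ∈ RR, ms ν R + (D / (lam * δ)) ^ p * ∑ R ∈ RR, ∑ x ∈ R, f x ^ p * μ x := by
        rw [Finset.sum_add_distrib, Finset.mul_sum, Finset.mul_sum]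
    _ ≤ _ := by gcongr

/-- constant in the weak type estimate -/
noncomputable def CW (p : ℝ) : ℝ := 2 * ((2:ℝ) ^ p * (2 * (2:ℝ) ^ p) ^ p)

lemma weakOp {S : Finset (Finset X)} (hS : Lam S) (m μ ν f : X → ℝ) (hμ : ∀ x, 0 ≤ μ x)
    (hν : ∀ x, 0 ≤ ν x) (hf : ∀ x, 0 ≤ f x)
    (hmS : ∀ Q ∈ S, 0 < ms m Q) (hμS : ∀ Q ∈ S, 0 < ms μ Q)
    (hνS : ∀ Q ∈ S, 0 < ms ν Q) {p q : ℝ} (hpq : p.HolderConjugate q) {D : ℝ}
    (hD : 0 ≤ D) (hT : Test S m μ ν p q D) {lam : ℝ} (hlam : 0 < lam) :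
    lam ^ p * ∑ x with lam < Op S m μ f x, ν x ≤ CW p * D ^ p * ∑ x, f x ^ p * μ x := by
  classical
  have hp := hpq.pos
  set A : X → ℝ := Op S m μ f with hA
  have hA0 : ∀ x, 0 ≤ A x := by
    intro x
    apply Finset.sum_nonneg
    intro Q hQ
    exact div_nonneg (Finset.sum_nonneg (fun y _ => mul_nonneg (hf y) (hμ y)))
      (hmS Q (Finset.mem_filter.1 hQ).1).le
  set F := ∑ x, f x ^ p * μ x with hF
  have hF0 : 0 ≤ F := Finset.sum_nonneg (fun x _ => mul_nonneg (Real.rpow_nonneg (hf x) _) (hμ x))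
  set Z : ℝ → ℝ := fun lam => lam ^ p * ∑ x with lam < A x, ν x with hZ
  set Z0 := ∑ x, A x ^ p * ν x with hZ0
  have hb : ∀ lam, 0 < lam → Z lam ≤ Z0 := by
    intro lam hlam
    simp only [hZ, hZ0]
    rw [Finset.mul_sum]
    calc ∑ x with lam < A x, lam ^ p * ν x ≤ ∑ x with lam < A x, A x ^ p * ν x := by
          apply Finset.sum_le_sum
          intro x hx
          apply mul_le_mul_of_nonneg_right _ (hν x)
          exact Real.rpow_le_rpow hlam.le (Finset.mem_filter.1 hx).2.le hp.le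
      _ ≤ _ := by
          apply Finset.sum_le_sum_of_subset_of_nonneg (Finset.subset_univ _)
          intro x _ _
          exact mul_nonneg (Real.rpow_nonneg (hA0 x) _) (hν x)
  set K := (2:ℝ) ^ p * (2 * (2:ℝ) ^ p) ^ p * D ^ p * F with hK
  have hK0 : 0 ≤ K := by positivity
  have hstep : ∀ lam, 0 < lam → Z (2 * lam) ≤ Z lam / 2 + K := by
    intro lam hlam
    have h2p : (0:ℝ) < 2 ^ p := by positivity
    set δ : ℝ := (2 * (2:ℝ) ^ p)⁻¹ with hδ
    have hδ0 : 0 < δ := by positivity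
    have h1 := weakStep hS m μ ν f hμ hν hf hmS hμS hνS hpq hD hT hlam hδ0
    have hl : 0 < lam ^ p := Real.rpow_pos_of_pos hlam _
    simp only [hZ]
    rw [Real.mul_rpow (by norm_num) hlam.le]
    calc (2:ℝ) ^ p * lam ^ p * ∑ x with 2 * lam < A x, ν x
        ≤ (2:ℝ) ^ p * lam ^ p * (δ * ∑ x with lam < A x, ν x + (D / (lam * δ)) ^ p * F) := by
          gcongr
      _ = ((2:ℝ) ^ p * δ) * (lam ^ p * ∑ x with lam < A x, ν x) +
          (2:ℝ) ^ p * (lam ^ p * (D / (lam * δ)) ^ p) * F := by ring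
      _ = lam ^ p * (∑ x with lam < A x, ν x) / 2 + K := by
          have e1 : (2:ℝ) ^ p * δ = 1 / 2 := by
            rw [hδ]; field_simp
          have e2 : lam ^ p * (D / (lam * δ)) ^ p = (2 * (2:ℝ) ^ p) ^ p * D ^ p := by
            rw [← Real.mul_rpow hlam.le (by positivity), ← Real.mul_rpow (by positivity) hD]
            congr 1
            rw [hδ]; field_simp
          rw [e1, e2]
          simp only [hK]
          ring
  have hiter : ∀ n : ℕ, ∀ lam, 0 < lam → Z lam ≤ Z0 / 2 ^ n + 2 * K := by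
    intro n
    induction n with
    | zero =>
      intro lam hlam
      have := hb lam hlam
      simp only [pow_zero, div_one]
      linarith
    | succ n ih =>
      intro lam hlam
      have h1 := hstep (lam / 2) (by positivity)
      have h2 := ih (lam / 2) (by positivity)
      have e : 2 * (lam / 2) = lam := by ring
      rw [e] at h1
      calc Z lam ≤ Z (lam / 2) / 2 + K := h1
        _ ≤ (Z0 / 2 ^ n + 2 * K) / 2 + K := by linarith
        _ = Z0 / 2 ^ (n + 1) + 2 * K := by rw [pow_succ]; field_simp; ring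
  have hZ00 : 0 ≤ Z0 := Finset.sum_nonneg (fun x _ => mul_nonneg (Real.rpow_nonneg (hA0 x) _) (hν x))
  have hfin : Z lam ≤ 2 * K := by
    apply le_of_forall_pos_le_add
    intro ε hε
    obtain ⟨n, hn⟩ := pow_unbounded_of_one_lt (Z0 / ε) (by norm_num : (1:ℝ) < 2)
    have h1 := hiter n lam hlam
    have h2 : Z0 / 2 ^ n ≤ ε := by
      rw [div_lt_iff₀ hε] at hn
      rw [div_le_iff₀ (by positivity)]
      linarith
    linarith
  refine hfin.trans (le_of_eq ?_)
  simp only [hK, CW]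
  ring

/-- packing of the exponential averages -/
lemma packing {S : Finset (Finset X)} (hS : Lam S) (m ν u : X → ℝ) (hm : ∀ x, 0 ≤ m x)
    (hν : ∀ x, 0 ≤ ν x) (hu : ∀ x, 0 ≤ u x) (huv : ∀ x, u x ^ 2 ≤ m x * ν x)
    (hmS : ∀ Q ∈ S, 0 < ms m Q) {Λ : ℝ} (hΛ : 0 ≤ Λ)
    (hC : ∀ R ∈ S, ∑ Q ∈ S with Q ⊆ R, ms m Q ≤ Λ * ms m R)
    (e : Finset X → ℝ) (he : ∀ Q ∈ S, e Q ≤ (ms u Q / ms m Q) ^ 2) :
    ∀ R ∈ S, ∑ Q ∈ S with Q ⊆ R, ms m Q * e Q ≤ 64 * Λ * ms ν R := by
  classical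
  intro R hR
  set φ : X → ℝ := fun x => if x ∈ R then u x / m x else 0 with hφ
  have hφ0 : ∀ x, 0 ≤ φ x := by
    intro x
    simp only [hφ]
    split_ifs
    · exact div_nonneg (hu x) (hm x)
    · exact le_rfl
  have hφm : ∀ x ∈ R, φ x * m x = u x := by
    intro x hx
    simp only [hφ]
    rw [if_pos hx]
    by_cases h0 : m x = 0
    · have h1 := huv x
      rw [h0, zero_mul] at h1
      have h2 : u x = 0 := by
        have := sq_nonneg (u x)
        exact pow_eq_zero_iff (two_ne_zero) |>.1 (le_antisymm h1 this)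
      rw [h0, h2]; simp
    · exact div_mul_cancel₀ _ h0
  have hφ2 : ∀ x ∈ R, φ x ^ 2 * m x ≤ ν x := by
    intro x hx
    by_cases h0 : m x = 0
    · rw [h0, mul_zero]; exact hν x
    · have h1 : 0 < m x := lt_of_le_of_ne (hm x) (Ne.symm h0)
      simp only [hφ]
      rw [if_pos hx, div_pow]
      have := huv x
      rw [div_mul_eq_mul_div, div_le_iff₀ (by positivity)]
      nlinarith
  set S' := S.filter (fun Q => Q ⊆ R ∧ 0 < ms u Q) with hS'
  have hSS : S' ⊆ S := Finset.filter_subset _ _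
  have hL := hS.mono hSS
  set b : Finset X → ℝ := fun Q => ms u Q / ms m Q with hb
  have hbpos : ∀ Q ∈ S', 0 < b Q := fun Q hQ =>
    div_pos (Finset.mem_filter.1 hQ).2.2 (hmS Q (hSS hQ))
  have hQR : ∀ Q ∈ S', Q ⊆ R := fun Q hQ => (Finset.mem_filter.1 hQ).2.1
  have hI : ∀ Q ∈ S', b Q * ∑ x ∈ Q, m x = ∑ x ∈ Q, φ x * m x := by
    intro Q hQ
    have h1 : ∑ x ∈ Q, φ x * m x = ms u Q :=
      Finset.sum_congr rfl (fun x hx => hφm x (hQR Q hQ hx))
    rw [h1]
    simp only [hb]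
    have h2 : ∑ x ∈ Q, m x = ms m Q := rfl
    rw [h2, div_mul_cancel₀ _ (hmS Q (hSS hQ)).ne']
  set k : Finset X → ℤ := fun Q => Int.log 2 (b Q) with hk
  set RR := S'.image (par S' k) with hRR
  have hrec : ∀ F ∈ RR, IsRec S' k F := fun F hF => mem_recs hL hF
  have hcarl := carleson_rec S' hL m φ hm hφ0 b hbpos hI RR hrec
  have hstep : ∑ Q ∈ S', ms m Q * b Q ^ 2 ≤ ∑ F ∈ RR, 4 * Λ * (b F ^ 2 * ms m F) := by
    rw [sum_par hL k (fun Q => ms m Q * b Q ^ 2) (subset_refl S')]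
    apply Finset.sum_le_sum
    intro F hF
    have hFS := (hrec F hF).1
    calc ∑ Q ∈ S' with par S' k Q = F, ms m Q * b Q ^ 2
        ≤ ∑ Q ∈ S' with par S' k Q = F, ms m Q * (4 * b F ^ 2) := by
          apply Finset.sum_le_sum
          intro Q hQ
          obtain ⟨hQ1, hQ2⟩ := Finset.mem_filter.1 hQ
          apply mul_le_mul_of_nonneg_left _ (hmS Q (hSS hQ1)).le
          have h2 := par_le hL b hbpos hQ1
          have h3 : par S' (fun Q => Int.log 2 (b Q)) Q = F := hQ2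
          rw [h3] at h2
          have h4 := hbpos Q hQ1
          calc b Q ^ 2 ≤ (2 * b F) ^ 2 := pow_le_pow_left₀ h4.le h2 2
            _ = 4 * b F ^ 2 := by ring
      _ = (∑ Q ∈ S' with par S' k Q = F, ms m Q) * (4 * b F ^ 2) := by rw [Finset.sum_mul]
      _ ≤ (Λ * ms m F) * (4 * b F ^ 2) := by
          apply mul_le_mul_of_nonneg_right _ (by positivity)
          refine le_trans ?_ (hC F (hSS hFS))
          apply Finset.sum_le_sum_of_subset_of_nonneg
          · intro Q hQ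
            obtain ⟨hQ1, hQ2⟩ := Finset.mem_filter.1 hQ
            refine Finset.mem_filter.2 ⟨hSS hQ1, ?_⟩
            rw [← hQ2]
            exact (par_spec hL k hQ1).2.1
          · intro Q hQ _
            exact (hmS Q (Finset.mem_filter.1 hQ).1).le
      _ = _ := by ring
  have hφsum : ∑ x, φ x ^ 2 * m x ≤ ms ν R := by
    have h1 : ∑ x, φ x ^ 2 * m x = ∑ x ∈ R, φ x ^ 2 * m x := by
      symm
      apply Finset.sum_subset (Finset.subset_univ _)
      intro x _ hx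
      simp only [hφ]
      rw [if_neg hx]; ring
    rw [h1]
    exact Finset.sum_le_sum hφ2
  have hred : ∑ Q ∈ S with Q ⊆ R, ms m Q * e Q ≤ ∑ Q ∈ S', ms m Q * b Q ^ 2 := by
    have h1 : S' = (S.filter (fun Q => Q ⊆ R)).filter (fun Q => 0 < ms u Q) := by
      rw [Finset.filter_filter]
    rw [h1, Finset.sum_filter (fun Q => 0 < ms u Q)]
    apply Finset.sum_le_sum
    intro Q hQ
    have hQS := (Finset.mem_filter.1 hQ).1
    split_ifs with h2
    · exact mul_le_mul_of_nonneg_left (he Q hQS) (hmS Q hQS).le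
    · have h3 : ms u Q = 0 :=
        le_antisymm (not_lt.1 h2) (Finset.sum_nonneg (fun x _ => hu x))
      have h4 := he Q hQS
      rw [h3, zero_div] at h4
      have h5 : e Q ≤ 0 := by simpa using h4
      exact mul_nonpos_of_nonneg_of_nonpos (hmS Q hQS).le h5
  calc ∑ Q ∈ S with Q ⊆ R, ms m Q * e Q ≤ ∑ Q ∈ S', ms m Q * b Q ^ 2 := hred
    _ ≤ ∑ F ∈ RR, 4 * Λ * (b F ^ 2 * ms m F) := hstep
    _ = 4 * Λ * ∑ F ∈ RR, b F ^ 2 * ms m F := by rw [Finset.mul_sum]
    _ ≤ 4 * Λ * (16 * ∑ x, φ x ^ 2 * m x) := by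
        apply mul_le_mul_of_nonneg_left hcarl (by positivity)
    _ ≤ 4 * Λ * (16 * ms ν R) := by gcongr
    _ = _ := by ring

end Pool.Agent.H433R3.Ml
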