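import Pool.Agent.H433R3.Sep6

set_option autoImplicit false
set_option linter.unusedSectionVars false
set_option linter.unusedVariables false

namespace Pool.Agent.H433R3.Sep

open Finset MeasureTheory
open scoped ENNReal

variable {α : Type*} [MeasurableSpace α]

/-- A laminar family of measurable nonempty sets. -/
def SLam (S : Finset (Set α)) : Prop :=
  (∀ A ∈ S, MeasurableSet A) ∧ (∀ A ∈ S, A.Nonempty) ∧
    ∀ A ∈ S, ∀ B ∈ S, A ⊆ B ∨ B ⊆ A ∨ Disjoint A B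

lemma SLam.mono {S S' : Finset (Set α)} (hS : SLam S) (h : S' ⊆ S) : SLam S' :=
  ⟨fun A hA => hS.1 A (h hA), fun A hA => hS.2.1 A (h hA),
    fun A hA B hB => hS.2.2 A (h hA) B (h hB)⟩

lemma SLam.comp {S : Finset (Set α)} (hS : SLam S) {A B : Set α} (hA : A ∈ S) (hB : B ∈ S)
    {x : α} (hxA : x ∈ A) (hxB : x ∈ B) : A ⊆ B ∨ B ⊂ A := by
  rcases hS.2.2 A hA B hB with h | h | h
  · exact Or.inl h
  · by_cases h' : A ⊆ B
    · exact Or.inl h'
    · exact Or.inr ⟨h, h'⟩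
  · exact absurd hxB (Set.disjoint_left.1 h hxA)

open Classical in
/-- atoms of a laminar family -/
noncomputable def atom (S : Finset (Set α)) (x : {Q // Q ∈ S}) : Set α :=
  (x : Set α) \ ⋃ A ∈ S.filter (fun A => A ⊂ (x : Set α)), A

open Classical in
/-- members of the family inside a set -/
noncomputable def DD (S : Finset (Set α)) (Q : Set α) : Finset {Q // Q ∈ S} :=
  Finset.univ.filter (fun x : {Q // Q ∈ S} => (x : Set α) ⊆ Q)

lemma mem_DD {S : Finset (Set α)} {Q : Set α} {x : {Q // Q ∈ S}} :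
    x ∈ DD S Q ↔ (x : Set α) ⊆ Q := by
  classical
  simp [DD]

lemma atom_meas {S : Finset (Set α)} (hS : SLam S) (x : {Q // Q ∈ S}) :
    MeasurableSet (atom S x) := by
  classical
  unfold atom
  apply (hS.1 x x.2).diff
  apply Finset.measurableSet_biUnion
  intro A hA
  exact hS.1 A (Finset.mem_filter.1 hA).1

lemma mem_atom {S : Finset (Set α)} {x : {Q // Q ∈ S}} {y : α} :
    y ∈ atom S x ↔ y ∈ (x : Set α) ∧ ∀ A ∈ S, A ⊂ (x : Set α) → y ∉ A := by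
  classical
  unfold atom
  simp only [Set.mem_sdiff, Set.mem_iUnion, Finset.mem_filter, not_exists]
  constructor
  · rintro ⟨h1, h2⟩
    exact ⟨h1, fun A hA hAx => h2 A ⟨hA, hAx⟩⟩
  · rintro ⟨h1, h2⟩
    exact ⟨h1, fun A hA => h2 A hA.1 hA.2⟩

lemma mem_iff_of_atom {S : Finset (Set α)} (hS : SLam S) {x : {Q // Q ∈ S}} {y : α}
    (hy : y ∈ atom S x) {Q : Set α} (hQ : Q ∈ S) : y ∈ Q ↔ (x : Set α) ⊆ Q := by
  have hy' := mem_atom.1 hy
  constructor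
  · intro h
    rcases hS.comp x.2 hQ hy'.1 h with h1 | h1
    · exact h1
    · exact absurd h (hy'.2 Q hQ h1)
  · intro h; exact h hy'.1

lemma atom_disj {S : Finset (Set α)} (hS : SLam S) {x y : {Q // Q ∈ S}} (hxy : x ≠ y) :
    Disjoint (atom S x) (atom S y) := by
  rw [Set.disjoint_left]
  intro z hzx hzy
  have h1 := (mem_iff_of_atom hS hzx y.2).1 (mem_atom.1 hzy).1
  have h2 := (mem_iff_of_atom hS hzy x.2).1 (mem_atom.1 hzx).1
  exact hxy (Subtype.ext (Set.Subset.antisymm h1 h2))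

lemma exists_atom {S : Finset (Set α)} (hS : SLam S) {Q : Set α} (hQ : Q ∈ S) {y : α}
    (hy : y ∈ Q) : ∃ x : {Q // Q ∈ S}, (x : Set α) ⊆ Q ∧ y ∈ atom S x := by
  classical
  obtain ⟨M, hMle, hM⟩ := Finset.exists_le_minimal (S.filter (fun A => y ∈ A)) (a := Q)
    (by simp only [Finset.mem_filter]; exact ⟨hQ, hy⟩)
  have hM1 := hM.prop
  simp only [Finset.mem_filter] at hM1
  refine ⟨⟨M, hM1.1⟩, hMle, mem_atom.2 ⟨hM1.2, ?_⟩⟩
  intro A hA hAM hyA
  have := hM.le_of_le (y := A) (by simp only [Finset.mem_filter]; exact ⟨hA, hyA⟩) hAM.1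
  exact hAM.2 this

lemma eq_biUnion_atom {S : Finset (Set α)} (hS : SLam S) {Q : Set α} (hQ : Q ∈ S) :
    Q = ⋃ x ∈ DD S Q, atom S x := by
  ext y
  simp only [Set.mem_iUnion]
  constructor
  · intro hy
    obtain ⟨x, hx, hyx⟩ := exists_atom hS hQ hy
    exact ⟨x, mem_DD.2 hx, hyx⟩
  · rintro ⟨x, hx, hyx⟩
    exact (mem_DD.1 hx) (mem_atom.1 hyx).1

lemma measure_eq_sum_atom {S : Finset (Set α)} (hS : SLam S) (lam : Measure α) {Q : Set α}
    (hQ : Q ∈ S) : lam Q = ∑ x ∈ DD S Q, lam (atom S x) := by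
  conv_lhs => rw [eq_biUnion_atom hS hQ]
  rw [measure_biUnion_finset]
  · intro x _ y _ hxy
    exact atom_disj hS hxy
  · intro x _
    exact atom_meas hS x

lemma toReal_eq_sum_atom {S : Finset (Set α)} (hS : SLam S) (lam : Measure α) {Q : Set α}
    (hQ : Q ∈ S) (hfin : lam Q < ∞) :
    ∑ x ∈ DD S Q, (lam (atom S x)).toReal = (lam Q).toReal := by
  rw [measure_eq_sum_atom hS lam hQ, ENNReal.toReal_sum]
  intro x hx
  have : lam (atom S x) ≤ lam Q := measure_mono (fun y hy => (mem_DD.1 hx) (mem_atom.1 hy).1)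
  exact (lt_of_le_of_lt this hfin).ne

lemma DD_inj {S : Finset (Set α)} {Q Q' : Set α} (hQ : Q ∈ S) (hQ' : Q' ∈ S) :
    DD S Q ⊆ DD S Q' ↔ Q ⊆ Q' := by
  constructor
  · intro h
    have : (⟨Q, hQ⟩ : {Q // Q ∈ S}) ∈ DD S Q := mem_DD.2 subset_rfl
    exact mem_DD.1 (h this)
  · intro h x hx
    exact mem_DD.2 ((mem_DD.1 hx).trans h)

lemma DD_inj' {S : Finset (Set α)} {Q Q' : Set α} (hQ : Q ∈ S) (hQ' : Q' ∈ S)
    (h : DD S Q = DD S Q') : Q = Q' :=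
  Set.Subset.antisymm ((DD_inj hQ hQ').1 h.le) ((DD_inj hQ' hQ).1 h.ge)

lemma DD_ssub {S : Finset (Set α)} {Q Q' : Set α} (hQ : Q ∈ S) (hQ' : Q' ∈ S) :
    DD S Q ⊂ DD S Q' ↔ Q ⊂ Q' := by
  constructor
  · intro h
    exact ⟨(DD_inj hQ hQ').1 h.1, fun h2 => h.2 ((DD_inj hQ' hQ).2 h2)⟩
  · intro h
    exact ⟨(DD_inj hQ hQ').2 h.1, fun h2 => h.2 ((DD_inj hQ' hQ).1 h2)⟩

lemma DD_disj {S : Finset (Set α)} (hS : SLam S) {Q Q' : Set α} (hQ : Q ∈ S) (hQ' : Q' ∈ S) :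
    Disjoint (DD S Q) (DD S Q') ↔ Disjoint Q Q' := by
  constructor
  · intro h
    rcases hS.2.2 Q hQ Q' hQ' with h1 | h1 | h1
    · exfalso
      exact Finset.disjoint_left.1 h (mem_DD.2 subset_rfl : (⟨Q, hQ⟩ : {Q // Q ∈ S}) ∈ DD S Q)
        (mem_DD.2 h1)
    · exfalso
      exact Finset.disjoint_left.1 h (mem_DD.2 h1 : (⟨Q', hQ'⟩ : {Q // Q ∈ S}) ∈ DD S Q)
        (mem_DD.2 subset_rfl)
    · exact h1
  · intro h
    rw [Finset.disjoint_left]
    intro x hx hx'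
    obtain ⟨y, hy⟩ := hS.2.1 x x.2
    exact Set.disjoint_left.1 h (mem_DD.1 hx hy) (mem_DD.1 hx' hy)

lemma DD_union {S : Finset (Set α)} {Q : Set α} (hQ : Q ∈ S) :
    (⋃ x ∈ DD S Q, (x : Set α)) = Q := by
  ext y
  simp only [Set.mem_iUnion]
  constructor
  · rintro ⟨x, hx, hy⟩
    exact mem_DD.1 hx hy
  · intro hy
    exact ⟨⟨Q, hQ⟩, mem_DD.2 subset_rfl, hy⟩

/-- The separated bump theorem for laminar families with strong halving, in operator form. -/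
theorem setOp (vol μ ν : Measure α) (S : Finset (Set α)) (hS : SLam S)
    (hv : ∀ Q ∈ S, 0 < vol Q ∧ vol Q < ∞) (hμ : ∀ Q ∈ S, 0 < μ Q ∧ μ Q < ∞)
    (hν : ∀ Q ∈ S, 0 < ν Q ∧ ν Q < ∞)
    (hH : ∀ Q ∈ S, 256 * vol (⋃ A ∈ {A ∈ (S : Set (Set α)) | A ⊂ Q}, A) ≤ vol Q)
    (ρ₁ ρ₂ : Set α → ℝ) (K : ℝ) (hK : 1 ≤ K)
    (hρ₁ : ∀ Q ∈ S, 1 ≤ ρ₁ Q) (hρ₂ : ∀ Q ∈ S, 1 ≤ ρ₂ Q)
    (hB1 : ∀ Q ∈ S, (μ Q).toReal * (ν Q).toReal * ρ₁ Q ≤ K * (vol Q).toReal ^ 2)
    (hB1' : ∀ Q ∈ S, (μ Q).toReal * (ν Q).toReal * ρ₂ Q ≤ K * (vol Q).toReal ^ 2)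
    (hB2 : ∀ H ∈ S, ∀ M ⊆ S, (∀ F ∈ M, F ⊆ H) → (∀ A ∈ M, ∀ B ∈ M, A ≠ B → Disjoint A B) →
      ∑ F ∈ M, (μ F).toReal * ρ₁ F ≤ (μ H).toReal * ρ₁ H)
    (hB2' : ∀ H ∈ S, ∀ M ⊆ S, (∀ F ∈ M, F ⊆ H) → (∀ A ∈ M, ∀ B ∈ M, A ≠ B → Disjoint A B) →
      ∑ F ∈ M, (ν F).toReal * ρ₂ F ≤ (ν H).toReal * ρ₂ H)
    (C0 : ℝ) (hC0 : 0 ≤ C0)
    (hB3 : ∀ R ∈ S, ∀ G ⊆ S, (∀ Q ∈ G, Q ⊆ R) → ∑ Q ∈ G, (μ Q).toReal / ρ₁ Q ≤ C0 * (μ R).toReal)
    (hB3' : ∀ R ∈ S, ∀ G ⊆ S, (∀ Q ∈ G, Q ⊆ R) → ∑ Q ∈ G, (ν Q).toReal / ρ₂ Q ≤ C0 * (ν R).toReal)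
    (f : α → ℝ≥0∞) (hf : Measurable f) :
    ∫⁻ y, (∑ Q ∈ S, Q.indicator (fun _ => (∫⁻ z in Q, f z ∂μ) / vol Q) y) ^ 2 ∂ν ≤
      ENNReal.ofReal (4 * K ^ 2 * (16 * (18432 * (3 * C0 + 8)) + 17) ^ 2) *
        ∫⁻ y, f y ^ 2 ∂μ := by
  classical
  set CC : ℝ := 4 * K ^ 2 * (16 * (18432 * (3 * C0 + 8)) + 17) ^ 2 with hCC
  have hCCpos : 0 < CC := by
    have : 0 < K := by linarith
    positivity
  by_cases htop : ∫⁻ y, f y ^ 2 ∂μ = ∞
  · rw [htop, ENNReal.mul_top (by simpa using hCCpos)]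
    exact le_top
  set X := {Q // Q ∈ S} with hX
  set E : X → Set α := atom S with hE
  have hEsub : ∀ x : X, E x ⊆ (x : Set α) := fun x y hy => (mem_atom.1 hy).1
  have hfE : ∀ x : X, ∫⁻ z in E x, f z ∂μ < ∞ := by
    intro x
    have h1 : ∀ z, f z ≤ 1 + f z ^ 2 := by
      intro z
      rcases le_total (f z) 1 with h | h
      · exact h.trans (by simp)
      · calc f z = f z * 1 := by rw [mul_one]
          _ ≤ f z * f z := by gcongr
          _ = f z ^ 2 := by ring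
          _ ≤ _ := by simp
    calc ∫⁻ z in E x, f z ∂μ ≤ ∫⁻ z in E x, (1 + f z ^ 2) ∂μ := lintegral_mono h1
      _ = μ (E x) + ∫⁻ z in E x, f z ^ 2 ∂μ := by
          rw [lintegral_add_left measurable_const]; simp
      _ ≤ μ x + ∫⁻ z, f z ^ 2 ∂μ :=
          add_le_add (measure_mono (hEsub x)) (setLIntegral_le_lintegral _ _)
      _ < ∞ := ENNReal.add_lt_top.2 ⟨(hμ x x.2).2, lt_top_iff_ne_top.2 htop⟩
  set m : X → ℝ := fun x => (vol (E x)).toReal with hm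
  set μ' : X → ℝ := fun x => (μ (E x)).toReal with hμ'
  set ν' : X → ℝ := fun x => (ν (E x)).toReal with hν'
  set f' : X → ℝ := fun x => (∫⁻ z in E x, f z ∂μ).toReal / (μ (E x)).toReal with hf'
  have hμfin : ∀ x : X, μ (E x) < ∞ := fun x => lt_of_le_of_lt (measure_mono (hEsub x)) (hμ x x.2).2
  have hνfin : ∀ x : X, ν (E x) < ∞ := fun x => lt_of_le_of_lt (measure_mono (hEsub x)) (hν x x.2).2
  have hvfin : ∀ x : X, vol (E x) < ∞ :=
    fun x => lt_of_le_of_lt (measure_mono (hEsub x)) (hv x x.2).2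
  have hIf : ∀ x, f' x * μ' x = (∫⁻ z in E x, f z ∂μ).toReal := by
    intro x
    simp only [hf', hμ']
    by_cases h0 : (μ (E x)).toReal = 0
    · have h1 : μ (E x) = 0 := by
        rcases (ENNReal.toReal_eq_zero_iff _).1 h0 with h | h
        · exact h
        · exact absurd h (hμfin x).ne
      rw [setLIntegral_measure_zero _ _ h1]; simp
    · exact div_mul_cancel₀ _ h0
  have hCS : ∀ x, f' x ^ 2 * μ' x ≤ (∫⁻ z in E x, f z ^ 2 ∂μ).toReal := by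
    intro x
    set a := f' x with ha
    have ha0 : 0 ≤ a := div_nonneg ENNReal.toReal_nonneg ENNReal.toReal_nonneg
    have h1 : ∫⁻ z in E x, ENNReal.ofReal (2 * a) * f z ∂μ ≤
        ∫⁻ z in E x, (ENNReal.ofReal (a ^ 2) + f z ^ 2) ∂μ := by
      apply lintegral_mono
      intro z
      show ENNReal.ofReal (2 * a) * f z ≤ ENNReal.ofReal (a ^ 2) + f z ^ 2
      by_cases hz : f z = ∞
      · rw [hz]; simp
      · lift f z to NNReal using hz with t
        rw [← ENNReal.ofReal_coe_nnreal, ← ENNReal.ofReal_mul (by positivity),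
          ← ENNReal.ofReal_pow (by positivity), ← ENNReal.ofReal_add (by positivity) (by positivity)]
        apply ENNReal.ofReal_le_ofReal
        nlinarith [sq_nonneg (a - t)]
    rw [lintegral_const_mul _ hf, lintegral_add_left measurable_const, lintegral_const,
      Measure.restrict_apply MeasurableSet.univ, Set.univ_inter] at h1
    have hfin2 : ∫⁻ z in E x, f z ^ 2 ∂μ < ∞ :=
      lt_of_le_of_lt (setLIntegral_le_lintegral _ _) (lt_top_iff_ne_top.2 htop)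
    have h2 := ENNReal.toReal_mono (ENNReal.add_lt_top.2
      ⟨ENNReal.mul_lt_top ENNReal.ofReal_lt_top (hμfin x), hfin2⟩).ne h1
    rw [ENNReal.toReal_mul, ENNReal.toReal_add
      (ENNReal.mul_lt_top ENNReal.ofReal_lt_top (hμfin x)).ne hfin2.ne, ENNReal.toReal_mul,
      ENNReal.toReal_ofReal (by positivity), ENNReal.toReal_ofReal (by positivity), ← hIf x] at h2
    have : (μ (E x)).toReal = μ' x := rfl
    rw [this] at h2
    nlinarith
  -- integral over members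
  have hIQ : ∀ Q ∈ S, ∑ x ∈ DD S Q, f' x * μ' x = (∫⁻ z in Q, f z ∂μ).toReal := by
    intro Q hQ
    have h1 : ∫⁻ z in Q, f z ∂μ = ∑ x ∈ DD S Q, ∫⁻ z in E x, f z ∂μ := by
      conv_lhs => rw [eq_biUnion_atom hS hQ]
      rw [lintegral_biUnion_finset (fun x _ y _ hxy => atom_disj hS hxy)
        (fun x _ => atom_meas hS x)]
    rw [h1, ENNReal.toReal_sum (fun x _ => (hfE x).ne)]
    exact Finset.sum_congr rfl (fun x _ => hIf x)
  have hmQ : ∀ Q ∈ S, ∑ x ∈ DD S Q, m x = (vol Q).toReal := fun Q hQ =>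
    toReal_eq_sum_atom hS vol hQ (hv Q hQ).2
  have hμQ : ∀ Q ∈ S, ∑ x ∈ DD S Q, μ' x = (μ Q).toReal := fun Q hQ =>
    toReal_eq_sum_atom hS μ hQ (hμ Q hQ).2
  have hνQ : ∀ Q ∈ S, ∑ x ∈ DD S Q, ν' x = (ν Q).toReal := fun Q hQ =>
    toReal_eq_sum_atom hS ν hQ (hν Q hQ).2
  set T : Finset (Finset X) := S.image (DD S) with hT
  set inv : Finset X → Set α := fun A => ⋃ x ∈ A, (x : Set α) with hinv
  have hinvD : ∀ Q ∈ S, inv (DD S Q) = Q := fun Q hQ => DD_union hQ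
  have hTS : ∀ A ∈ T, inv A ∈ S ∧ DD S (inv A) = A := by
    intro A hA
    obtain ⟨Q, hQ, rfl⟩ := Finset.mem_image.1 hA
    rw [hinvD Q hQ]
    exact ⟨hQ, rfl⟩
  have hLam : Lam T := by
    constructor
    · intro A hA
      obtain ⟨h1, h2⟩ := hTS A hA
      rw [← h2]
      exact ⟨⟨_, h1⟩, mem_DD.2 subset_rfl⟩
    · intro A hA B hB
      obtain ⟨h1, h2⟩ := hTS A hA
      obtain ⟨h3, h4⟩ := hTS B hB
      rw [← h2, ← h4, DD_inj h1 h3, DD_inj h3 h1, DD_disj hS h1 h3]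
      exact hS.2.2 _ h1 _ h3
  have hm0 : ∀ x, 0 ≤ m x := fun x => ENNReal.toReal_nonneg
  have hμ0 : ∀ x, 0 ≤ μ' x := fun x => ENNReal.toReal_nonneg
  have hν0 : ∀ x, 0 ≤ ν' x := fun x => ENNReal.toReal_nonneg
  have hf0 : ∀ x, 0 ≤ f' x := fun x => div_nonneg ENNReal.toReal_nonneg ENNReal.toReal_nonneg
  have hHd : ∀ A ∈ T, 256 * ∑ x ∈ (T.filter (fun B => B ⊂ A)).biUnion id, m x ≤ ∑ x ∈ A, m x := by
    intro A hA
    obtain ⟨h1, h2⟩ := hTS A hA
    rw [← h2, hmQ _ h1]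
    have h3 := hH _ h1
    have h4 : ∑ x ∈ (T.filter (fun B => B ⊂ DD S (inv A))).biUnion id, vol (E x) ≤
        vol (⋃ B ∈ {B ∈ (S : Set (Set α)) | B ⊂ inv A}, B) := by
      rw [← measure_biUnion_finset (fun x _ y _ hxy => atom_disj hS hxy)
        (fun x _ => atom_meas hS x)]
      apply measure_mono
      intro y hy
      simp only [Set.mem_iUnion] at hy
      obtain ⟨x, hx, hyx⟩ := hy
      obtain ⟨B, hB, hxB⟩ := Finset.mem_biUnion.1 hx
      simp only [Finset.mem_filter] at hB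
      obtain ⟨h5, h6⟩ := hTS B hB.1
      have h7 : B ⊂ DD S (inv A) := hB.2
      rw [← h6] at h7 hxB
      rw [DD_ssub h5 h1] at h7
      have hxB' : (x : Set α) ⊆ inv B := mem_DD.1 hxB
      simp only [Set.mem_iUnion]
      exact ⟨inv B, ⟨h5, h7⟩, hxB' (hEsub x hyx)⟩
    have h5 : ENNReal.ofReal (256 * ∑ x ∈ (T.filter (fun B => B ⊂ DD S (inv A))).biUnion id, m x)
        ≤ ENNReal.ofReal ((vol (inv A)).toReal) := by
      rw [ENNReal.ofReal_toReal (hv _ h1).2.ne, ENNReal.ofReal_mul (by norm_num),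
        ENNReal.ofReal_sum_of_nonneg (fun x _ => hm0 x)]
      refine le_trans ?_ h3
      refine le_trans (mul_le_mul' (le_of_eq (by norm_num)) ?_) (mul_le_mul' le_rfl h4)
      apply Finset.sum_le_sum
      intro x _
      simp only [hm]
      rw [ENNReal.ofReal_toReal (hvfin x).ne]
    exact (ENNReal.ofReal_le_ofReal_iff ENNReal.toReal_nonneg).1 h5
  have hB2d : ∀ (lam : Measure α) (lam' : X → ℝ) (ρ : Set α → ℝ),
      (∀ Q ∈ S, ∑ x ∈ DD S Q, lam' x = (lam Q).toReal) →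
      (∀ H ∈ S, ∀ M ⊆ S, (∀ F ∈ M, F ⊆ H) → (∀ A ∈ M, ∀ B ∈ M, A ≠ B → Disjoint A B) →
      ∑ F ∈ M, (lam F).toReal * ρ F ≤ (lam H).toReal * ρ H) →
      ∀ H ∈ T, ∀ M ⊆ T, (∀ F ∈ M, F ⊆ H) → (∀ A ∈ M, ∀ B ∈ M, A ≠ B → Disjoint A B) →
      ∑ F ∈ M, (∑ x ∈ F, lam' x) * ρ (inv F) ≤ (∑ x ∈ H, lam' x) * ρ (inv H) := by
    intro lam lam' ρ hl hb H hHT M hMT hMH hMd
    obtain ⟨h1, h2⟩ := hTS H hHT
    have h3 := hb (inv H) h1 (M.image inv) (by
      intro F hF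
      obtain ⟨A, hA, rfl⟩ := Finset.mem_image.1 hF
      exact (hTS A (hMT hA)).1) (by
      intro F hF
      obtain ⟨A, hA, rfl⟩ := Finset.mem_image.1 hF
      obtain ⟨h5, h6⟩ := hTS A (hMT hA)
      rw [← DD_inj h5 h1, h6, h2]
      exact hMH A hA) (by
      intro F hF G hG hFG
      obtain ⟨A, hA, rfl⟩ := Finset.mem_image.1 hF
      obtain ⟨B, hB, rfl⟩ := Finset.mem_image.1 hG
      obtain ⟨h5, h6⟩ := hTS A (hMT hA)
      obtain ⟨h7, h8⟩ := hTS B (hMT hB)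
      rw [← DD_disj hS h5 h7, h6, h8]
      exact hMd A hA B hB (fun h => hFG (by rw [h])))
    rw [Finset.sum_image (fun A hA B hB hAB => by
      rw [← (hTS A (hMT hA)).2, ← (hTS B (hMT hB)).2, hAB])] at h3
    have h4 : ∑ x ∈ H, lam' x = (lam (inv H)).toReal := by
      conv_lhs => rw [← h2]
      exact hl _ h1
    rw [h4]
    refine le_trans (le_of_eq ?_) h3
    apply Finset.sum_congr rfl
    intro F hF
    obtain ⟨h5, h6⟩ := hTS F (hMT hF)
    have h7 : ∑ x ∈ F, lam' x = (lam (inv F)).toReal := by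
      conv_lhs => rw [← h6]
      exact hl _ h5
    rw [h7]
  have hB3d : ∀ (lam : Measure α) (lam' : X → ℝ) (ρ : Set α → ℝ),
      (∀ Q ∈ S, ∑ x ∈ DD S Q, lam' x = (lam Q).toReal) →
      (∀ R ∈ S, ∀ G ⊆ S, (∀ Q ∈ G, Q ⊆ R) → ∑ Q ∈ G, (lam Q).toReal / ρ Q ≤ C0 * (lam R).toReal) →
      ∀ R ∈ T, ∑ Q ∈ T with Q ⊆ R, (∑ x ∈ Q, lam' x) / ρ (inv Q) ≤ C0 * ∑ x ∈ R, lam' x := by
    intro lam lam' ρ hl hb R hRT
    obtain ⟨h1, h2⟩ := hTS R hRT
    have h3 := hb (inv R) h1 ((T.filter (fun Q => Q ⊆ R)).image inv) (by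
      intro F hF
      obtain ⟨A, hA, rfl⟩ := Finset.mem_image.1 hF
      exact (hTS A (Finset.mem_filter.1 hA).1).1) (by
      intro F hF
      obtain ⟨A, hA, rfl⟩ := Finset.mem_image.1 hF
      obtain ⟨h5, h6⟩ := hTS A (Finset.mem_filter.1 hA).1
      rw [← DD_inj h5 h1, h6, h2]
      exact (Finset.mem_filter.1 hA).2)
    rw [Finset.sum_image (fun A hA B hB hAB => by
      rw [← (hTS A (Finset.mem_filter.1 hA).1).2, ← (hTS B (Finset.mem_filter.1 hB).1).2,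
        hAB])] at h3
    have h4 : ∑ x ∈ R, lam' x = (lam (inv R)).toReal := by
      conv_lhs => rw [← h2]
      exact hl _ h1
    rw [h4]
    refine le_trans (le_of_eq ?_) h3
    apply Finset.sum_congr rfl
    intro F hF
    obtain ⟨h5, h6⟩ := hTS F (Finset.mem_filter.1 hF).1
    have h7 : ∑ x ∈ F, lam' x = (lam (inv F)).toReal := by
      conv_lhs => rw [← h6]
      exact hl _ h5
    rw [h7]
  have hsumT : ∀ (lam : Measure α) (lam' : X → ℝ), 
      (∀ Q ∈ S, ∑ x ∈ DD S Q, lam' x = (lam Q).toReal) →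
      ∀ A ∈ T, ∑ x ∈ A, lam' x = (lam (inv A)).toReal := by
    intro lam lam' hl A hA
    obtain ⟨h1, h2⟩ := hTS A hA
    conv_lhs => rw [← h2]
    exact hl _ h1
  have main := discreteOp (S := T) (m := m) (μ := μ') (ν := ν') (ρ₁ := fun A => ρ₁ (inv A))
    (ρ₂ := fun A => ρ₂ (inv A)) hK hLam hm0 hμ0 hν0
    (fun A hA => by
      rw [hsumT vol m hmQ A hA]
      have := hv _ (hTS A hA).1
      exact ENNReal.toReal_pos this.1.ne' this.2.ne)
    (fun A hA => by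
      rw [hsumT μ μ' hμQ A hA]
      have := hμ _ (hTS A hA).1
      exact ENNReal.toReal_pos this.1.ne' this.2.ne)
    (fun A hA => by
      rw [hsumT ν ν' hνQ A hA]
      have := hν _ (hTS A hA).1
      exact ENNReal.toReal_pos this.1.ne' this.2.ne)
    hHd (fun A hA => hρ₁ _ (hTS A hA).1) (fun A hA => hρ₂ _ (hTS A hA).1)
    (fun A hA => by
      rw [hsumT μ μ' hμQ A hA, hsumT ν ν' hνQ A hA, hsumT vol m hmQ A hA]
      exact hB1 _ (hTS A hA).1)
    (fun A hA => by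
      rw [hsumT μ μ' hμQ A hA, hsumT ν ν' hνQ A hA, hsumT vol m hmQ A hA]
      exact hB1' _ (hTS A hA).1)
    (hB2d μ μ' ρ₁ hμQ hB2) (hB2d ν ν' ρ₂ hνQ hB2') C0 hC0
    (hB3d μ μ' ρ₁ hμQ hB3) (hB3d ν ν' ρ₂ hνQ hB3') f' hf0
  rw [← hCC] at main
  -- pointwise
  set A : X → ℝ := fun x => ∑ Q ∈ T with x ∈ Q, (1 / ∑ y ∈ Q, m y) * ∑ y ∈ Q, f' y * μ' y with hA
  have hA0 : ∀ x, 0 ≤ A x := by
    intro x
    apply Finset.sum_nonneg
    intro Q _
    have a1 : 0 ≤ ∑ y ∈ Q, m y := Finset.sum_nonneg (fun x _ => hm0 x)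
    have a2 : 0 ≤ ∑ y ∈ Q, f' y * μ' y :=
      Finset.sum_nonneg (fun x _ => mul_nonneg (hf0 x) (hμ0 x))
    positivity
  have hfQ : ∀ Q ∈ S, ∫⁻ z in Q, f z ∂μ < ∞ := by
    intro Q hQ
    conv_lhs => rw [eq_biUnion_atom hS hQ]
    rw [lintegral_biUnion_finset (fun x _ y _ hxy => atom_disj hS hxy)
        (fun x _ => atom_meas hS x)]
    exact ENNReal.sum_lt_top.2 (fun x _ => hfE x)
  have hAx : ∀ x : X, ∀ y ∈ E x, ∑ Q ∈ S, Q.indicator (fun _ => (∫⁻ z in Q, f z ∂μ) / vol Q) y =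
      ENNReal.ofReal (A x) := by
    intro x y hy
    have h1 : A x = ∑ Q ∈ S with (x : Set α) ⊆ Q, (∫⁻ z in Q, f z ∂μ).toReal / (vol Q).toReal := by
      simp only [hA, hT]
      rw [Finset.filter_image, Finset.sum_image (fun P hP Q hQ h => DD_inj'
        (Finset.mem_filter.1 hP).1 (Finset.mem_filter.1 hQ).1 h)]
      have : S.filter (fun Q => x ∈ DD S Q) = S.filter (fun Q => (x : Set α) ⊆ Q) :=
        Finset.filter_congr (fun Q _ => mem_DD)
      rw [this]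
      apply Finset.sum_congr rfl
      intro Q hQ
      have hQS := (Finset.mem_filter.1 hQ).1
      rw [hmQ Q hQS, hIQ Q hQS]
      ring
    rw [h1, ENNReal.ofReal_sum_of_nonneg (fun Q _ => div_nonneg ENNReal.toReal_nonneg
      ENNReal.toReal_nonneg), Finset.sum_filter]
    apply Finset.sum_congr rfl
    intro Q hQ
    by_cases hxQ : (x : Set α) ⊆ Q
    · have hyQ : y ∈ Q := (mem_iff_of_atom hS hy hQ).2 hxQ
      rw [if_pos hxQ, Set.indicator_of_mem hyQ, ENNReal.ofReal_div_of_pos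
        (ENNReal.toReal_pos (hv Q hQ).1.ne' (hv Q hQ).2.ne), ENNReal.ofReal_toReal (hfQ Q hQ).ne,
        ENNReal.ofReal_toReal (hv Q hQ).2.ne]
    · have hyQ : y ∉ Q := fun h => hxQ ((mem_iff_of_atom hS hy hQ).1 h)
      rw [if_neg hxQ, Set.indicator_of_notMem hyQ]
  have hpt : ∀ y, (∑ Q ∈ S, Q.indicator (fun _ => (∫⁻ z in Q, f z ∂μ) / vol Q) y) ^ 2 ≤
      ∑ x : X, (E x).indicator (fun _ => ENNReal.ofReal (A x ^ 2)) y := by
    intro y
    by_cases hy : ∃ Q ∈ S, y ∈ Q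
    · obtain ⟨Q, hQ, hyQ⟩ := hy
      obtain ⟨x, _, hx⟩ := exists_atom hS hQ hyQ
      rw [hAx x y hx, ← ENNReal.ofReal_pow (hA0 x)]
      have : ENNReal.ofReal (A x ^ 2) = (E x).indicator (fun _ => ENNReal.ofReal (A x ^ 2)) y := by
        rw [Set.indicator_of_mem hx]
      rw [this]
      exact Finset.single_le_sum (f := fun x => (E x).indicator
        (fun _ => ENNReal.ofReal (A x ^ 2)) y) (fun _ _ => bot_le) (Finset.mem_univ x)
    · have : ∑ Q ∈ S, Q.indicator (fun _ => (∫⁻ z in Q, f z ∂μ) / vol Q) y = 0 := by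
        apply Finset.sum_eq_zero
        intro Q hQ
        exact Set.indicator_of_notMem (fun h => hy ⟨Q, hQ, h⟩) _
      rw [this]; simp
  calc ∫⁻ y, (∑ Q ∈ S, Q.indicator (fun _ => (∫⁻ z in Q, f z ∂μ) / vol Q) y) ^ 2 ∂ν
      ≤ ∫⁻ y, ∑ x : X, (E x).indicator (fun _ => ENNReal.ofReal (A x ^ 2)) y ∂ν :=
        lintegral_mono hpt
    _ = ∑ x : X, ENNReal.ofReal (A x ^ 2) * ν (E x) := by
        rw [lintegral_finsetSum _ (fun x _ => (measurable_const.indicator (atom_meas hS x)))]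
        apply Finset.sum_congr rfl
        intro x _
        rw [lintegral_indicator (atom_meas hS x), lintegral_const,
          Measure.restrict_apply MeasurableSet.univ, Set.univ_inter]
    _ = ENNReal.ofReal (∑ x : X, A x ^ 2 * ν' x) := by
        rw [ENNReal.ofReal_sum_of_nonneg (fun x _ => mul_nonneg (sq_nonneg _) (hν0 x))]
        apply Finset.sum_congr rfl
        intro x _
        rw [ENNReal.ofReal_mul (sq_nonneg _)]
        simp only [hν']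
        rw [ENNReal.ofReal_toReal (hνfin x).ne]
    _ ≤ ENNReal.ofReal (CC * ∑ x, f' x ^ 2 * μ' x) := ENNReal.ofReal_le_ofReal main
    _ ≤ ENNReal.ofReal (CC * (∫⁻ y, f y ^ 2 ∂μ).toReal) := by
        apply ENNReal.ofReal_le_ofReal
        apply mul_le_mul_of_nonneg_left _ hCCpos.le
        calc ∑ x, f' x ^ 2 * μ' x ≤ ∑ x : X, (∫⁻ z in E x, f z ^ 2 ∂μ).toReal :=
              Finset.sum_le_sum (fun x _ => hCS x)
          _ = (∑ x : X, ∫⁻ z in E x, f z ^ 2 ∂μ).toReal := by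
              rw [ENNReal.toReal_sum]
              intro x _
              exact (lt_of_le_of_lt (setLIntegral_le_lintegral _ _)
                (lt_top_iff_ne_top.2 htop)).ne
          _ ≤ (∫⁻ y, f y ^ 2 ∂μ).toReal := by
              apply ENNReal.toReal_mono htop
              rw [← lintegral_biUnion_finset (fun x _ y _ hxy => atom_disj hS hxy)
                (fun x _ => atom_meas hS x)]
              exact setLIntegral_le_lintegral _ _
    _ = _ := by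
        rw [ENNReal.ofReal_mul hCCpos.le, ENNReal.ofReal_toReal htop]

end Pool.Agent.H433R3.Sep
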