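import Pool.Agent.H433R3.Ml5
import Pool.Agent.H433R3.Sep7

set_option autoImplicit false
set_option linter.unusedSectionVars false
set_option linter.unusedVariables false

namespace Pool.Agent.H433R3.Ml

open Finset MeasureTheory Pool.Agent.H433R3.Sep
open scoped ENNReal

universe u

variable {α : Type u} [MeasurableSpace α]

/-- the local `A_p` constant -/
noncomputable def SA (vol μ ν : Measure α) (p : ℝ) (Q : Set α) : ℝ :=
  (ν Q).toReal / (vol Q).toReal * ((μ Q).toReal / (vol Q).toReal) ^ (p - 1)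

/-- the data of one side of the testing problem -/
structure Side (vol μ ν : Measure α) (S : Finset (Set α)) (p θ N : ℝ) (u : α → ℝ≥0∞)
    (e : Set α → ℝ) : Prop where
  cs : ∀ E, MeasurableSet E → (∫⁻ x in E, u x ∂vol) ^ 2 ≤ vol E * ν E
  epos : ∀ Q ∈ S, 0 < e Q
  ele : ∀ Q ∈ S, e Q ≤ ((∫⁻ x in Q, u x ∂vol).toReal / (vol Q).toReal) ^ 2
  wle : ∀ Q ∈ S, (ν Q).toReal / ((vol Q).toReal * e Q) ≤ SA vol μ ν p Q
  nle : ∀ Q ∈ S, SA vol μ ν p Q ^ θ * ((ν Q).toReal / ((vol Q).toReal * e Q)) ^ (1 - θ) ≤ N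

/-- the operator -/
noncomputable def SO (S : Finset (Set α)) (vol μ : Measure α) (f : α → ℝ≥0∞) (y : α) : ℝ≥0∞ :=
  ∑ Q ∈ S, Q.indicator (fun _ => (∫⁻ z in Q, f z ∂μ) / vol Q) y

theorem disc (vol μ ν : Measure α) (S : Finset (Set α)) (hS : SLam S)
    (hv : ∀ Q ∈ S, 0 < vol Q ∧ vol Q < ∞) (hμ : ∀ Q ∈ S, 0 < μ Q ∧ μ Q < ∞)
    (hν : ∀ Q ∈ S, 0 < ν Q ∧ ν Q < ∞) {Λ : ℝ} (hΛ : 0 ≤ Λ)
    (hC : ∀ R ∈ S, ∀ G ⊆ S, (∀ Q ∈ G, Q ⊆ R) → ∑ Q ∈ G, (vol Q).toReal ≤ Λ * (vol R).toReal)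
    (f : α → ℝ≥0∞) (hf : Measurable f) {p q : ℝ} (hpq : p.HolderConjugate q)
    (hfin : ∫⁻ y, f y ^ p ∂μ ≠ ∞) :
    ∃ (X : Type u) (_ : Fintype X) (_ : DecidableEq X) (T : Finset (Finset X))
      (m μ' ν' f' : X → ℝ),
      Lam T ∧ (∀ x, 0 ≤ m x) ∧ (∀ x, 0 ≤ μ' x) ∧ (∀ x, 0 ≤ ν' x) ∧ (∀ x, 0 ≤ f' x) ∧
      (∀ Q ∈ T, 0 < ms m Q) ∧ (∀ Q ∈ T, 0 < ms μ' Q) ∧ (∀ Q ∈ T, 0 < ms ν' Q) ∧
      (∀ (θ N : ℝ) (u : α → ℝ≥0∞) (e : Set α → ℝ), 1 / p < θ → Side vol μ ν S p θ N u e →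
        Test T m μ' ν' p q (CD p q (th p θ) Λ (64 * Λ) * N)) ∧
      (∀ (θ N : ℝ) (u : α → ℝ≥0∞) (e : Set α → ℝ), 1 / q < θ → Side vol ν μ S q θ N u e →
        Test T m ν' μ' q p (CD q p (th q θ) Λ (64 * Λ) * N)) ∧
      ENNReal.ofReal (∑ x, f' x ^ p * μ' x) ≤ ∫⁻ y, f y ^ p ∂μ ∧
      ∫⁻ y, SO S vol μ f y ^ p ∂ν ≤ ENNReal.ofReal (∑ x, Op T m μ' f' x ^ p * ν' x) ∧
      (∀ lam : ℝ, 0 ≤ lam → ν {y | ENNReal.ofReal lam < SO S vol μ f y} ≤
        ENNReal.ofReal (∑ x with lam < Op T m μ' f' x, ν' x)) := by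
  classical
  have hp := hpq.pos
  have hq := hpq.symm.pos
  set X := {Q // Q ∈ S} with hX
  set E : X → Set α := atom S with hE
  have hEsub : ∀ x : X, E x ⊆ (x : Set α) := fun x y hy => (mem_atom.1 hy).1
  have hEm : ∀ x : X, MeasurableSet (E x) := fun x => atom_meas hS x
  have hμfin : ∀ x : X, μ (E x) < ∞ := fun x => lt_of_le_of_lt (measure_mono (hEsub x)) (hμ x x.2).2
  have hνfin : ∀ x : X, ν (E x) < ∞ := fun x => lt_of_le_of_lt (measure_mono (hEsub x)) (hν x x.2).2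
  have hvfin : ∀ x : X, vol (E x) < ∞ :=
    fun x => lt_of_le_of_lt (measure_mono (hEsub x)) (hv x x.2).2
  -- Hölder on the atoms
  have hHol : ∀ x : X, ∫⁻ z in E x, f z ∂μ ≤
      (∫⁻ z in E x, f z ^ p ∂μ) ^ (1 / p) * (μ (E x)) ^ (1 / q) := by
    intro x
    have h1 := ENNReal.lintegral_mul_le_Lp_mul_Lq (μ.restrict (E x)) hpq hf.aemeasurable
      (aemeasurable_const (b := (1:ℝ≥0∞)))
    simp only [Pi.mul_apply, mul_one, ENNReal.one_rpow, lintegral_const, one_mul,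
      Measure.restrict_apply MeasurableSet.univ, Set.univ_inter] at h1
    exact h1
  have hfpE : ∀ x : X, ∫⁻ z in E x, f z ^ p ∂μ < ∞ := fun x =>
    lt_of_le_of_lt (setLIntegral_le_lintegral _ _) (lt_top_iff_ne_top.2 hfin)
  have hfE : ∀ x : X, ∫⁻ z in E x, f z ∂μ < ∞ := by
    intro x
    refine lt_of_le_of_lt (hHol x) ?_
    apply ENNReal.mul_lt_top
    · exact ENNReal.rpow_lt_top_of_nonneg (by positivity) (hfpE x).ne
    · exact ENNReal.rpow_lt_top_of_nonneg (by positivity) (hμfin x).ne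
  set m : X → ℝ := fun x => (vol (E x)).toReal with hm
  set μ' : X → ℝ := fun x => (μ (E x)).toReal with hμ'
  set ν' : X → ℝ := fun x => (ν (E x)).toReal with hν'
  set f' : X → ℝ := fun x => (∫⁻ z in E x, f z ∂μ).toReal / (μ (E x)).toReal with hf'
  have hIf : ∀ x, f' x * μ' x = (∫⁻ z in E x, f z ∂μ).toReal := by
    intro x
    simp only [hf', hμ']
    by_cases h0 : (μ (E x)).toReal = 0
    · have h1 : μ (E x) = 0 := by
        rcases (ENNReal.toReal_eq_zero_iff _).1 h0 with h | h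
        · exact h
        · exact absurd h (hμfin x).ne
      rw [setLIntegral_measure_zero _ _ h1]; simp
    · exact div_mul_cancel₀ _ h0
  have hf0 : ∀ x, 0 ≤ f' x := fun x => div_nonneg ENNReal.toReal_nonneg ENNReal.toReal_nonneg
  have hJen : ∀ x, f' x ^ p * μ' x ≤ (∫⁻ z in E x, f z ^ p ∂μ).toReal := by
    intro x
    by_cases h0 : (μ (E x)).toReal = 0
    · have : μ' x = 0 := h0
      rw [this, mul_zero]; exact ENNReal.toReal_nonneg
    · have hpos : 0 < μ' x := lt_of_le_of_ne ENNReal.toReal_nonneg (Ne.symm h0)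
      have h1 := ENNReal.toReal_mono (ENNReal.mul_lt_top
        (ENNReal.rpow_lt_top_of_nonneg (by positivity) (hfpE x).ne)
        (ENNReal.rpow_lt_top_of_nonneg (by positivity) (hμfin x).ne)).ne (hHol x)
      rw [ENNReal.toReal_mul, ← ENNReal.toReal_rpow, ← ENNReal.toReal_rpow, ← hIf x] at h1
      have h2 : (μ (E x)).toReal = μ' x := rfl
      rw [h2] at h1
      set I := (∫⁻ z in E x, f z ^ p ∂μ).toReal with hI
      have hI0 : 0 ≤ I := ENNReal.toReal_nonneg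
      have h3 : (f' x * μ' x) ^ p ≤ (I ^ (1 / p) * μ' x ^ (1 / q)) ^ p :=
        Real.rpow_le_rpow (mul_nonneg (hf0 x) hpos.le) h1 hp.le
      rw [Real.mul_rpow (hf0 x) hpos.le, Real.mul_rpow (Real.rpow_nonneg hI0 _)
        (Real.rpow_nonneg hpos.le _), ← Real.rpow_mul hI0, one_div_mul_cancel hp.ne',
        Real.rpow_one, ← Real.rpow_mul hpos.le] at h3
      have e1 : 1 / q * p = p - 1 := by
        have := hpq.inv_add_inv_eq_one
        field_simp at this ⊢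
        linarith
      rw [e1] at h3
      have e2 : μ' x ^ p = μ' x ^ (p - 1) * μ' x := by
        rw [← Real.rpow_add_one hpos.ne']
        congr 1; ring
      rw [e2] at h3
      have h4 : 0 < μ' x ^ (p - 1) := Real.rpow_pos_of_pos hpos _
      have h5 : (f' x ^ p * μ' x) * μ' x ^ (p - 1) ≤ I * μ' x ^ (p - 1) := by
        calc (f' x ^ p * μ' x) * μ' x ^ (p - 1) = f' x ^ p * (μ' x ^ (p - 1) * μ' x) := by ring
          _ ≤ _ := h3
      exact le_of_mul_le_mul_right h5 h4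
  -- integral over members
  have hIQ : ∀ Q ∈ S, ∑ x ∈ DD S Q, f' x * μ' x = (∫⁻ z in Q, f z ∂μ).toReal := by
    intro Q hQ
    have h1 : ∫⁻ z in Q, f z ∂μ = ∑ x ∈ DD S Q, ∫⁻ z in E x, f z ∂μ := by
      conv_lhs => rw [eq_biUnion_atom hS hQ]
      rw [lintegral_biUnion_finset (fun x _ y _ hxy => atom_disj hS hxy)
        (fun x _ => atom_meas hS x)]
    rw [h1, ENNReal.toReal_sum (fun x _ => (hfE x).ne)]
    exact Finset.sum_congr rfl (fun x _ => hIf x)
  have hmQ : ∀ Q ∈ S, ∑ x ∈ DD S Q, m x = (vol Q).toReal := fun Q hQ =>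
    toReal_eq_sum_atom hS vol hQ (hv Q hQ).2
  have hμQ : ∀ Q ∈ S, ∑ x ∈ DD S Q, μ' x = (μ Q).toReal := fun Q hQ =>
    toReal_eq_sum_atom hS μ hQ (hμ Q hQ).2
  have hνQ : ∀ Q ∈ S, ∑ x ∈ DD S Q, ν' x = (ν Q).toReal := fun Q hQ =>
    toReal_eq_sum_atom hS ν hQ (hν Q hQ).2
  set T : Finset (Finset X) := S.image (DD S) with hT
  set inv : Finset X → Set α := fun A => ⋃ x ∈ A, (x : Set α) with hinv
  have hinvD : ∀ Q ∈ S, inv (DD S Q) = Q := fun Q hQ => DD_union hQ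
  have hTS : ∀ A ∈ T, inv A ∈ S ∧ DD S (inv A) = A := by
    intro A hA
    obtain ⟨Q, hQ, rfl⟩ := Finset.mem_image.1 hA
    rw [hinvD Q hQ]
    exact ⟨hQ, rfl⟩
  have hLam : Lam T := by
    constructor
    · intro A hA
      obtain ⟨h1, h2⟩ := hTS A hA
      rw [← h2]
      exact ⟨⟨_, h1⟩, mem_DD.2 subset_rfl⟩
    · intro A hA B hB
      obtain ⟨h1, h2⟩ := hTS A hA
      obtain ⟨h3, h4⟩ := hTS B hB
      rw [← h2, ← h4, DD_inj h1 h3, DD_inj h3 h1, DD_disj hS h1 h3]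
      exact hS.2.2 _ h1 _ h3
  have hm0 : ∀ x, 0 ≤ m x := fun x => ENNReal.toReal_nonneg
  have hμ0 : ∀ x, 0 ≤ μ' x := fun x => ENNReal.toReal_nonneg
  have hν0 : ∀ x, 0 ≤ ν' x := fun x => ENNReal.toReal_nonneg
  have hsumT : ∀ (lam : Set α → ℝ) (lam' : X → ℝ),
      (∀ Q ∈ S, ∑ x ∈ DD S Q, lam' x = lam Q) →
      ∀ A ∈ T, ms lam' A = lam (inv A) := by
    intro lam lam' hl A hA
    obtain ⟨h1, h2⟩ := hTS A hA
    unfold ms
    conv_lhs => rw [← h2]
    exact hl _ h1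
  have hmT := hsumT (fun Q => (vol Q).toReal) m hmQ
  have hμT := hsumT (fun Q => (μ Q).toReal) μ' hμQ
  have hνT := hsumT (fun Q => (ν Q).toReal) ν' hνQ
  have hmp : ∀ A ∈ T, 0 < ms m A := by
    intro A hA
    rw [hmT A hA]
    have := hv _ (hTS A hA).1
    exact ENNReal.toReal_pos this.1.ne' this.2.ne
  have hμp : ∀ A ∈ T, 0 < ms μ' A := by
    intro A hA
    rw [hμT A hA]
    have := hμ _ (hTS A hA).1
    exact ENNReal.toReal_pos this.1.ne' this.2.ne
  have hνp : ∀ A ∈ T, 0 < ms ν' A := by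
    intro A hA
    rw [hνT A hA]
    have := hν _ (hTS A hA).1
    exact ENNReal.toReal_pos this.1.ne' this.2.ne
  have hCd : ∀ R ∈ T, ∑ Q ∈ T with Q ⊆ R, ms m Q ≤ Λ * ms m R := by
    intro R hRT
    obtain ⟨h1, h2⟩ := hTS R hRT
    have h3 := hC (inv R) h1 ((T.filter (fun Q => Q ⊆ R)).image inv) (by
      intro F hF
      obtain ⟨A, hA, rfl⟩ := Finset.mem_image.1 hF
      exact (hTS A (Finset.mem_filter.1 hA).1).1) (by
      intro F hF
      obtain ⟨A, hA, rfl⟩ := Finset.mem_image.1 hF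
      obtain ⟨h5, h6⟩ := hTS A (Finset.mem_filter.1 hA).1
      rw [← DD_inj h5 h1, h6, h2]
      exact (Finset.mem_filter.1 hA).2)
    rw [Finset.sum_image (fun A hA B hB hAB => by
      rw [← (hTS A (Finset.mem_filter.1 hA).1).2, ← (hTS B (Finset.mem_filter.1 hB).1).2,
        hAB])] at h3
    rw [hmT R hRT]
    refine le_trans (le_of_eq ?_) h3
    apply Finset.sum_congr rfl
    intro F hF
    exact hmT F (Finset.mem_filter.1 hF).1
  -- testing from one side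
  have hTest : ∀ (lam₁ lam₂ : Measure α) (l₁ l₂ : X → ℝ) (p q : ℝ), p.HolderConjugate q →
      (∀ x, 0 ≤ l₁ x) → (∀ x, 0 ≤ l₂ x) → (∀ A ∈ T, 0 < ms l₁ A) → (∀ A ∈ T, 0 < ms l₂ A) →
      (∀ A ∈ T, ms l₁ A = (lam₁ (inv A)).toReal) → (∀ A ∈ T, ms l₂ A = (lam₂ (inv A)).toReal) →
      (∀ x, l₂ x = (lam₂ (E x)).toReal) → (∀ x, lam₂ (E x) < ∞) →
      ∀ (θ N : ℝ) (u : α → ℝ≥0∞) (e : Set α → ℝ), 1 / p < θ → Side vol lam₁ lam₂ S p θ N u e →
        Test T m l₁ l₂ p q (CD p q (th p θ) Λ (64 * Λ) * N) := by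
    intro lam₁ lam₂ l₁ l₂ p q hpq hl₁ hl₂ hp₁ hp₂ hT₁ hT₂ hl₂E hl₂f θ N u e hθ hside
    have hAAeq : ∀ A ∈ T, AA p m l₁ l₂ A = SA vol lam₁ lam₂ p (inv A) := by
      intro A hA
      unfold AA SA
      rw [hmT A hA, hT₁ A hA, hT₂ A hA]
    have hufin : ∀ x : X, ∫⁻ z in E x, u z ∂vol < ∞ := by
      intro x
      by_contra h
      rw [not_lt, top_le_iff] at h
      have h1 := hside.cs (E x) (hEm x)
      rw [h] at h1
      have h2 : (∞ : ℝ≥0∞) ^ 2 = ∞ := by simp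
      rw [h2, top_le_iff] at h1
      exact absurd h1 (ENNReal.mul_lt_top (hvfin x) (hl₂f x)).ne
    set ud : X → ℝ := fun x => (∫⁻ z in E x, u z ∂vol).toReal with hud
    have hud0 : ∀ x, 0 ≤ ud x := fun x => ENNReal.toReal_nonneg
    have hudQ : ∀ Q ∈ S, ∑ x ∈ DD S Q, ud x = (∫⁻ z in Q, u z ∂vol).toReal := by
      intro Q hQ
      have h1 : ∫⁻ z in Q, u z ∂vol = ∑ x ∈ DD S Q, ∫⁻ z in E x, u z ∂vol := by
        conv_lhs => rw [eq_biUnion_atom hS hQ]
        rw [lintegral_biUnion_finset (fun x _ y _ hxy => atom_disj hS hxy)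
          (fun x _ => atom_meas hS x)]
      rw [h1, ENNReal.toReal_sum (fun x _ => (hufin x).ne)]
    have hudT := hsumT (fun Q => (∫⁻ z in Q, u z ∂vol).toReal) ud hudQ
    have hcs : ∀ x, ud x ^ 2 ≤ m x * l₂ x := by
      intro x
      have h1 := ENNReal.toReal_mono (ENNReal.mul_lt_top (hvfin x) (hl₂f x)).ne
        (hside.cs (E x) (hEm x))
      rw [ENNReal.toReal_pow, ENNReal.toReal_mul, ← hl₂E x] at h1
      exact h1
    have hpack := packing hLam m l₂ ud hm0 hl₂ hud0 hcs hmp hΛ hCd (fun A => e (inv A)) (by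
      intro A hA
      rw [hudT A hA, hmT A hA]
      exact hside.ele _ (hTS A hA).1)
    intro R hR h hh
    apply dualTest hLam m l₁ l₂ hl₁ hl₂ hmp hp₁ hp₂ hΛ hCd hpq hθ (by positivity)
      (fun A => e (inv A)) (fun A hA => hside.epos _ (hTS A hA).1) hpack _ _ hR h hh
    · intro A hA
      rw [hAAeq A hA, hmT A hA, hT₂ A hA]
      exact hside.wle _ (hTS A hA).1
    · intro A hA
      rw [hAAeq A hA, hmT A hA, hT₂ A hA]
      exact hside.nle _ (hTS A hA).1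
  -- pointwise identification of the operator
  have hfQ : ∀ Q ∈ S, ∫⁻ z in Q, f z ∂μ < ∞ := by
    intro Q hQ
    conv_lhs => rw [eq_biUnion_atom hS hQ]
    rw [lintegral_biUnion_finset (fun x _ y _ hxy => atom_disj hS hxy)
        (fun x _ => atom_meas hS x)]
    exact ENNReal.sum_lt_top.2 (fun x _ => hfE x)
  have hA0 : ∀ x, 0 ≤ Op T m μ' f' x := by
    intro x
    apply Finset.sum_nonneg
    intro Q hQ
    exact div_nonneg (Finset.sum_nonneg (fun y _ => mul_nonneg (hf0 y) (hμ0 y)))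
      (hmp Q (Finset.mem_filter.1 hQ).1).le
  have hAx : ∀ x : X, ∀ y ∈ E x, SO S vol μ f y = ENNReal.ofReal (Op T m μ' f' x) := by
    intro x y hy
    have h1 : Op T m μ' f' x = ∑ Q ∈ S with (x : Set α) ⊆ Q,
        (∫⁻ z in Q, f z ∂μ).toReal / (vol Q).toReal := by
      unfold Op
      simp only [hT]
      rw [Finset.filter_image, Finset.sum_image (fun P hP Q hQ h => DD_inj'
        (Finset.mem_filter.1 hP).1 (Finset.mem_filter.1 hQ).1 h)]
      have : S.filter (fun Q => x ∈ DD S Q) = S.filter (fun Q => (x : Set α) ⊆ Q) :=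
        Finset.filter_congr (fun Q _ => mem_DD)
      rw [this]
      apply Finset.sum_congr rfl
      intro Q hQ
      have hQS := (Finset.mem_filter.1 hQ).1
      unfold ms
      rw [hmQ Q hQS, hIQ Q hQS]
    unfold SO
    rw [h1, ENNReal.ofReal_sum_of_nonneg (fun Q _ => div_nonneg ENNReal.toReal_nonneg
      ENNReal.toReal_nonneg), Finset.sum_filter]
    apply Finset.sum_congr rfl
    intro Q hQ
    by_cases hxQ : (x : Set α) ⊆ Q
    · have hyQ : y ∈ Q := (mem_iff_of_atom hS hy hQ).2 hxQ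
      rw [if_pos hxQ, Set.indicator_of_mem hyQ, ENNReal.ofReal_div_of_pos
        (ENNReal.toReal_pos (hv Q hQ).1.ne' (hv Q hQ).2.ne), ENNReal.ofReal_toReal (hfQ Q hQ).ne,
        ENNReal.ofReal_toReal (hv Q hQ).2.ne]
    · have hyQ : y ∉ Q := fun h => hxQ ((mem_iff_of_atom hS hy hQ).1 h)
      rw [if_neg hxQ, Set.indicator_of_notMem hyQ]
  have hout : ∀ y, (∀ Q ∈ S, y ∉ Q) → SO S vol μ f y = 0 := by
    intro y hy
    unfold SO
    apply Finset.sum_eq_zero
    intro Q hQ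
    exact Set.indicator_of_notMem (hy Q hQ) _
  refine ⟨X, inferInstance, inferInstance, T, m, μ', ν', f', hLam, hm0, hμ0, hν0, hf0, hmp, hμp,
    hνp, ?_, ?_, ?_, ?_, ?_⟩
  · exact hTest μ ν μ' ν' p q hpq hμ0 hν0 hμp hνp hμT hνT (fun x => rfl) hνfin
  · exact hTest ν μ ν' μ' q p hpq.symm hν0 hμ0 hνp hμp hνT hμT (fun x => rfl) hμfin
  · calc ENNReal.ofReal (∑ x, f' x ^ p * μ' x)
        ≤ ENNReal.ofReal (∑ x : X, (∫⁻ z in E x, f z ^ p ∂μ).toReal) :=
          ENNReal.ofReal_le_ofReal (Finset.sum_le_sum (fun x _ => hJen x))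
      _ = ∑ x : X, ∫⁻ z in E x, f z ^ p ∂μ := by
          rw [ENNReal.ofReal_sum_of_nonneg (fun x _ => ENNReal.toReal_nonneg)]
          apply Finset.sum_congr rfl
          intro x _
          exact ENNReal.ofReal_toReal (hfpE x).ne
      _ ≤ ∫⁻ y, f y ^ p ∂μ := by
          rw [← lintegral_biUnion_finset (fun x _ y _ hxy => atom_disj hS hxy)
            (fun x _ => atom_meas hS x)]
          exact setLIntegral_le_lintegral _ _
  · have hpt : ∀ y, SO S vol μ f y ^ p ≤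
        ∑ x : X, (E x).indicator (fun _ => ENNReal.ofReal (Op T m μ' f' x ^ p)) y := by
      intro y
      by_cases hy : ∃ Q ∈ S, y ∈ Q
      · obtain ⟨Q, hQ, hyQ⟩ := hy
        obtain ⟨x, _, hx⟩ := exists_atom hS hQ hyQ
        rw [hAx x y hx, ENNReal.ofReal_rpow_of_nonneg (hA0 x) hp.le]
        have : ENNReal.ofReal (Op T m μ' f' x ^ p) =
            (E x).indicator (fun _ => ENNReal.ofReal (Op T m μ' f' x ^ p)) y := by
          rw [Set.indicator_of_mem hx]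
        rw [this]
        exact Finset.single_le_sum (f := fun x => (E x).indicator
          (fun _ => ENNReal.ofReal (Op T m μ' f' x ^ p)) y) (fun _ _ => bot_le) (Finset.mem_univ x)
      · push Not at hy
        rw [hout y hy, ENNReal.zero_rpow_of_pos hp]
        exact bot_le
    calc ∫⁻ y, SO S vol μ f y ^ p ∂ν
        ≤ ∫⁻ y, ∑ x : X, (E x).indicator (fun _ => ENNReal.ofReal (Op T m μ' f' x ^ p)) y ∂ν :=
          lintegral_mono hpt
      _ = ∑ x : X, ENNReal.ofReal (Op T m μ' f' x ^ p) * ν (E x) := by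
          rw [lintegral_finsetSum _ (fun x _ => (measurable_const.indicator (atom_meas hS x)))]
          apply Finset.sum_congr rfl
          intro x _
          rw [lintegral_indicator (atom_meas hS x), lintegral_const,
            Measure.restrict_apply MeasurableSet.univ, Set.univ_inter]
      _ = ENNReal.ofReal (∑ x : X, Op T m μ' f' x ^ p * ν' x) := by
          rw [ENNReal.ofReal_sum_of_nonneg (fun x _ => mul_nonneg
            (Real.rpow_nonneg (hA0 x) _) (hν0 x))]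
          apply Finset.sum_congr rfl
          intro x _
          rw [ENNReal.ofReal_mul (Real.rpow_nonneg (hA0 x) _)]
          simp only [hν']
          rw [ENNReal.ofReal_toReal (hνfin x).ne]
      _ ≤ _ := le_rfl
  · intro lam hlam
    have hsub : {y | ENNReal.ofReal lam < SO S vol μ f y} ⊆
        ⋃ x ∈ (Finset.univ.filter (fun x : X => lam < Op T m μ' f' x)), E x := by
      intro y hy
      have hy' : ENNReal.ofReal lam < SO S vol μ f y := hy
      by_cases hyS : ∃ Q ∈ S, y ∈ Q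
      · obtain ⟨Q, hQ, hyQ⟩ := hyS
        obtain ⟨x, _, hx⟩ := exists_atom hS hQ hyQ
        rw [hAx x y hx] at hy'
        have h1 : lam < Op T m μ' f' x := by
          by_contra hcon
          push Not at hcon
          exact absurd hy' (not_lt.2 (ENNReal.ofReal_le_ofReal hcon))
        exact Set.mem_iUnion₂.2 ⟨x, Finset.mem_filter.2 ⟨Finset.mem_univ _, h1⟩, hx⟩
      · push Not at hyS
        rw [hout y hyS] at hy'
        exact absurd hy' (not_lt.2 bot_le)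
    refine (measure_mono hsub).trans ((measure_biUnion_finset_le _ _).trans ?_)
    rw [ENNReal.ofReal_sum_of_nonneg (fun x _ => hν0 x)]
    apply le_of_eq
    apply Finset.sum_congr
    · ext x; simp
    · intro x _
      simp only [hν']
      rw [ENNReal.ofReal_toReal (hνfin x).ne]

end Pool.Agent.H433R3.Ml
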