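import Mathlib

set_option autoImplicit false
set_option linter.unusedSectionVars false
set_option linter.unusedVariables false

namespace Pool.Agent.H433R3.Sep

open MeasureTheory Metric
open scoped ENNReal NNReal

/-- shift of the grid at level `j` -/
noncomputable def sh (b : Bool) (j : ℤ) : ℝ := if b then (-1:ℝ) ^ j / 3 else 0

/-- integer position of `x` in the (shifted) dyadic grid at scale `2^j` -/
noncomputable def fl (b : Bool) (j : ℤ) (x : ℝ) : ℤ := ⌊x / 2 ^ j - sh b j⌋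

/-- integer sign -/
def eps (b : Bool) (j : ℤ) : ℤ := if b then (if Even j then 1 else -1) else 0

lemma eps_cast (b : Bool) (j : ℤ) : (eps b j : ℝ) = if b then (-1:ℝ) ^ j else 0 := by
  unfold eps
  cases b
  · simp
  · simp only [if_true]
    by_cases h : Even j
    · rw [if_pos h, h.neg_one_zpow]; simp
    · rw [if_neg h, (Int.not_even_iff_odd.1 h).neg_one_zpow]; simp

lemma fl_succ (b : Bool) (j : ℤ) (x : ℝ) : fl b (j + 1) x = (fl b j x + eps b j) / 2 := by
  unfold fl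
  have h1 : x / 2 ^ (j + 1) - sh b (j + 1) = ((x / 2 ^ j - sh b j) + (eps b j : ℝ)) / (2 : ℕ) := by
    rw [eps_cast]
    unfold sh
    cases b
    · simp only [Bool.false_eq_true, if_false]
      rw [zpow_add₀ (by norm_num), zpow_one]
      push_cast
      field_simp
      ring
    · simp only [if_true]
      rw [zpow_add₀ (by norm_num), zpow_one, zpow_add₀ (by norm_num : (-1:ℝ) ≠ 0), zpow_one]
      push_cast
      field_simp
      ring
  rw [h1, Int.floor_div_natCast, Int.floor_add_intCast]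
  norm_num

lemma fl_mono (b : Bool) (j : ℤ) (x y : ℝ) (h : fl b j x = fl b j y) :
    ∀ j', j ≤ j' → fl b j' x = fl b j' y := by
  intro j' hj
  induction j', hj using Int.leInduction with
  | base => exact h
  | succ n hn ih => rw [fl_succ, fl_succ, ih]

lemma fl_eq_iff (b : Bool) (j : ℤ) (x : ℝ) (n : ℤ) :
    fl b j x = n ↔ x ∈ Set.Ico (2 ^ j * (n + sh b j)) (2 ^ j * (n + sh b j) + 2 ^ j) := by
  unfold fl
  have h2 : (0:ℝ) < 2 ^ j := by positivity
  rw [Int.floor_eq_iff, Set.mem_Ico]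
  constructor
  · rintro ⟨h3, h4⟩
    have h5 : (n:ℝ) + sh b j ≤ x / 2 ^ j := by linarith
    have h6 : x / 2 ^ j < (n:ℝ) + sh b j + 1 := by linarith
    rw [le_div_iff₀ h2] at h5
    rw [div_lt_iff₀ h2] at h6
    constructor <;> nlinarith
  · rintro ⟨h3, h4⟩
    have h5 : (n:ℝ) + sh b j ≤ x / 2 ^ j := by rw [le_div_iff₀ h2]; linarith
    have h6 : x / 2 ^ j < (n:ℝ) + sh b j + 1 := by rw [div_lt_iff₀ h2]; linarith
    constructor <;> linarith

/-- the one-third trick in dimension one -/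
lemma third (j : ℤ) (a b : ℝ) (hab : a ≤ b) (h : b - a < 2 ^ j / 3) :
    ∃ t : Bool, ∀ x ∈ Set.Icc a b, fl t j x = fl t j a := by
  have h2 : (0:ℝ) < 2 ^ j := by positivity
  by_contra hcon
  push Not at hcon
  obtain ⟨x, hx, hx2⟩ := hcon false
  obtain ⟨y, hy, hy2⟩ := hcon true
  unfold fl at hx2 hy2
  have mono : ∀ u v c : ℝ, u ≤ v → ⌊u / 2 ^ j - c⌋ ≤ ⌊v / 2 ^ j - c⌋ := by
    intro u v c huv
    apply Int.floor_le_floor
    have := div_le_div_of_nonneg_right huv h2.le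
    linarith
  have h3 : ⌊a / 2 ^ j - sh false j⌋ < ⌊x / 2 ^ j - sh false j⌋ :=
    lt_of_le_of_ne (mono a x _ hx.1) (Ne.symm hx2)
  have h4 : ⌊a / 2 ^ j - sh true j⌋ < ⌊y / 2 ^ j - sh true j⌋ :=
    lt_of_le_of_ne (mono a y _ hy.1) (Ne.symm hy2)
  set m := ⌊x / 2 ^ j - sh false j⌋ with hm
  set m' := ⌊y / 2 ^ j - sh true j⌋ with hm'
  have e1 : a / 2 ^ j - sh false j < m := Int.floor_lt.1 h3
  have e2 : (m:ℝ) ≤ x / 2 ^ j - sh false j := Int.floor_le _
  have e3 : a / 2 ^ j - sh true j < m' := Int.floor_lt.1 h4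
  have e4 : (m':ℝ) ≤ y / 2 ^ j - sh true j := Int.floor_le _
  have e5 : x / 2 ^ j ≤ b / 2 ^ j := div_le_div_of_nonneg_right hx.2 h2.le
  have e6 : y / 2 ^ j ≤ b / 2 ^ j := div_le_div_of_nonneg_right hy.2 h2.le
  have e7 : b / 2 ^ j - a / 2 ^ j < 1 / 3 := by
    rw [← sub_div, div_lt_iff₀ h2]; linarith
  have s0 : sh false j = 0 := by simp [sh]
  rw [s0] at e1 e2
  have s1 : sh true j = 1/3 ∨ sh true j = -(1/3) := by
    unfold sh
    simp only [if_true]
    by_cases h : Even j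
    · left; rw [h.neg_one_zpow]
    · right; rw [(Int.not_even_iff_odd.1 h).neg_one_zpow]; ring
  rcases s1 with s1 | s1
  · rw [s1] at e3 e4
    have f1 : ((m - m' : ℤ) : ℝ) < 1 := by push_cast; linarith
    have f2 : (0:ℝ) < ((m - m' : ℤ) : ℝ) := by push_cast; linarith
    have f3 : m - m' < 1 := by exact_mod_cast f1
    have f4 : 0 < m - m' := by exact_mod_cast f2
    omega
  · rw [s1] at e3 e4
    have f1 : ((m' - m : ℤ) : ℝ) < 1 := by push_cast; linarith
    have f2 : (0:ℝ) < ((m' - m : ℤ) : ℝ) := by push_cast; linarith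
    have f3 : m' - m < 1 := by exact_mod_cast f1
    have f4 : 0 < m' - m := by exact_mod_cast f2
    omega

variable {d : ℕ}

/-- index of a grid cube: scale and position -/
abbrev Idx (d : ℕ) := ℤ × (Fin d → ℤ)

/-- index of the cube of the grid `t` of scale `j` containing `x` -/
noncomputable def ix (t : Fin d → Bool) (j : ℤ) (x : Fin d → ℝ) : Idx d :=
  (j, fun i => fl (t i) j (x i))

/-- grid cube -/
def gq (t : Fin d → Bool) (I : Idx d) : Set (Fin d → ℝ) := {x | ∀ i, fl (t i) I.1 (x i) = I.2 i}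

lemma mem_gq {t : Fin d → Bool} {I : Idx d} {x : Fin d → ℝ} : x ∈ gq t I ↔ ix t I.1 x = I := by
  unfold gq ix
  rw [Set.mem_ofPred_eq, Prod.ext_iff]
  simp only [true_and, funext_iff]

lemma mem_gq_ix (t : Fin d → Bool) (j : ℤ) (x : Fin d → ℝ) : x ∈ gq t (ix t j x) := by
  rw [mem_gq]; rfl

/-- corner -/
noncomputable def cor (t : Fin d → Bool) (I : Idx d) : Fin d → ℝ :=
  fun i => 2 ^ I.1 * (I.2 i + sh (t i) I.1)

lemma gq_eq_pi (t : Fin d → Bool) (I : Idx d) :
    gq t I = Set.univ.pi (fun i => Set.Ico (cor t I i) (cor t I i + 2 ^ I.1)) := by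
  ext x
  unfold gq cor
  rw [Set.mem_ofPred_eq, Set.mem_univ_pi]
  exact forall_congr' (fun i => fl_eq_iff (t i) I.1 (x i) (I.2 i))

lemma gq_meas (t : Fin d → Bool) (I : Idx d) : MeasurableSet (gq t I) := by
  rw [gq_eq_pi]
  exact MeasurableSet.univ_pi (fun i => measurableSet_Ico)

lemma gq_vol (t : Fin d → Bool) (I : Idx d) :
    volume (gq t I) = ENNReal.ofReal (2 ^ I.1) ^ d := by
  rw [gq_eq_pi, Real.volume_pi_Ico]
  simp

lemma gq_vol_pos (t : Fin d → Bool) (I : Idx d) : 0 < volume (gq t I) ∧ volume (gq t I) < ∞ := by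
  rw [gq_vol]
  constructor
  · apply pos_iff_ne_zero.2
    apply pow_ne_zero
    simp only [ne_eq, ENNReal.ofReal_eq_zero, not_le]; positivity
  · exact ENNReal.pow_lt_top ENNReal.ofReal_lt_top

lemma gq_nonempty (t : Fin d → Bool) (I : Idx d) : (gq t I).Nonempty := by
  refine ⟨cor t I, ?_⟩
  rw [gq_eq_pi, Set.mem_univ_pi]
  intro i
  constructor
  · exact le_rfl
  · have : (0:ℝ) < 2 ^ I.1 := by positivity
    linarith

lemma gq_nest (t : Fin d → Bool) {I J : Idx d} (hIJ : I.1 ≤ J.1) {x : Fin d → ℝ}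
    (hx : x ∈ gq t I) (hx' : x ∈ gq t J) : gq t I ⊆ gq t J := by
  intro y hy i
  rw [← hx' i]
  apply fl_mono (t i) I.1 _ _ _ _ hIJ
  rw [hy i, hx i]

lemma gq_lam (t : Fin d → Bool) (I J : Idx d) :
    gq t I ⊆ gq t J ∨ gq t J ⊆ gq t I ∨ Disjoint (gq t I) (gq t J) := by
  by_cases h : Disjoint (gq t I) (gq t J)
  · exact Or.inr (Or.inr h)
  · rw [Set.not_disjoint_iff] at h
    obtain ⟨x, hx, hx'⟩ := h
    rcases le_total I.1 J.1 with h1 | h1
    · exact Or.inl (gq_nest t h1 hx hx')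
    · exact Or.inr (Or.inl (gq_nest t h1 hx' hx))

lemma gq_sub_ball (t : Fin d → Bool) (I : Idx d) {x : Fin d → ℝ} (hx : x ∈ gq t I) :
    gq t I ⊆ closedBall x (2 ^ I.1) := by
  intro y hy
  rw [mem_closedBall, dist_pi_le_iff (by positivity)]
  intro i
  rw [gq_eq_pi, Set.mem_univ_pi] at hx hy
  have h1 := hx i
  have h2 := hy i
  rw [Real.dist_eq, abs_le]
  constructor <;> linarith [h1.1, h1.2, h2.1, h2.2]

/-- center of a grid cube -/
noncomputable def ctr (t : Fin d → Bool) (I : Idx d) : Fin d → ℝ := fun i => cor t I i + 2 ^ I.1 / 2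

/-- concentric dilate of a grid cube -/
noncomputable def dil (a : ℝ) (t : Fin d → Bool) (I : Idx d) : Set (Fin d → ℝ) :=
  closedBall (ctr t I) (a * 2 ^ I.1 / 2)

lemma gq_sub_dil {a : ℝ} (ha : 1 ≤ a) (t : Fin d → Bool) (I : Idx d) : gq t I ⊆ dil a t I := by
  intro y hy
  have h2 : (0:ℝ) < 2 ^ I.1 := by positivity
  unfold dil
  rw [mem_closedBall, dist_pi_le_iff (by positivity)]
  intro i
  rw [gq_eq_pi, Set.mem_univ_pi] at hy
  have h1 := hy i
  unfold ctr
  rw [Real.dist_eq, abs_le]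
  constructor <;> nlinarith [h1.1, h1.2]

lemma ctr_mem (t : Fin d → Bool) (I : Idx d) : ctr t I ∈ gq t I := by
  rw [gq_eq_pi, Set.mem_univ_pi]
  intro i
  have h2 : (0:ℝ) < 2 ^ I.1 := by positivity
  unfold ctr
  constructor <;> linarith

lemma dil_vol {a : ℝ} (ha : 0 ≤ a) (t : Fin d → Bool) (I : Idx d) :
    volume (dil a t I) = ENNReal.ofReal a ^ d * volume (gq t I) := by
  unfold dil
  rw [Real.volume_pi_closedBall _ (by positivity), gq_vol, ← mul_pow, ← ENNReal.ofReal_mul ha,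
    ← ENNReal.ofReal_pow (by positivity), Fintype.card_fin]
  congr 2
  ring

/-- the one-third trick: every ball is inside a comparable grid cube of one of the grids -/
lemma third_pi (j : ℤ) (c : Fin d → ℝ) (ρ : ℝ) (hρ : 0 ≤ ρ) (h : 2 * ρ < 2 ^ j / 3) :
    ∃ (t : Fin d → Bool) (n : Fin d → ℤ), closedBall c ρ ⊆ gq t (j, n) := by
  have h1 : ∀ i, ∃ t : Bool, ∀ x ∈ Set.Icc (c i - ρ) (c i + ρ), fl t j x = fl t j (c i - ρ) :=
    fun i => third j (c i - ρ) (c i + ρ) (by linarith) (by linarith)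
  choose t ht using h1
  refine ⟨t, fun i => fl (t i) j (c i - ρ), ?_⟩
  intro x hx i
  apply ht i
  rw [mem_closedBall, dist_pi_le_iff hρ] at hx
  have := hx i
  rw [Real.dist_eq, abs_le] at this
  constructor <;> linarith [this.1, this.2]

/-- exhaustion by the shifted grid -/
lemma exhaust (j : ℤ) (R : ℝ) (hR : 0 ≤ R) (h : R < 2 ^ j / 3) :
    closedBall (0 : Fin d → ℝ) R ⊆ gq (fun _ => true) (ix (fun _ => true) j 0) := by
  intro x hx i
  rw [mem_closedBall, dist_pi_le_iff hR] at hx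
  have hxi := hx i
  rw [Real.dist_eq, Pi.zero_apply, sub_zero, abs_le] at hxi
  unfold ix fl
  simp only [Pi.zero_apply, zero_div, zero_sub]
  have h2 : (0:ℝ) < 2 ^ j := by positivity
  have b1 : x i / 2 ^ j < 1 / 3 := by rw [div_lt_iff₀ h2]; linarith
  have b2 : -(1/3) < x i / 2 ^ j := by rw [lt_div_iff₀ h2]; linarith
  unfold sh
  simp only [if_true]
  by_cases h : Even j
  · rw [h.neg_one_zpow]
    have e1 : ⌊-((1:ℝ)/3)⌋ = -1 := by rw [Int.floor_eq_iff]; norm_num
    have e2 : ⌊x i / 2 ^ j - 1/3⌋ = -1 := by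
      rw [Int.floor_eq_iff]; push_cast; constructor <;> linarith
    rw [e1, e2]
  · rw [(Int.not_even_iff_odd.1 h).neg_one_zpow]
    have e1 : ⌊-((-1:ℝ)/3)⌋ = 0 := by rw [Int.floor_eq_iff]; norm_num
    have e2 : ⌊x i / 2 ^ j - (-1)/3⌋ = 0 := by
      rw [Int.floor_eq_iff]; push_cast; constructor <;> linarith
    rw [e1, e2]

end Pool.Agent.H433R3.Sep
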