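import Pool.Agent.H433R3.Ml6
import Pool.Agent.H433R3.Sep13

set_option autoImplicit false
set_option linter.unusedSectionVars false
set_option linter.unusedVariables false

namespace Pool.Agent.H433R3.Ml

open MeasureTheory Pool.Agent.H433R3.Sep Metric
open scoped ENNReal NNReal

universe u

section setlevel

variable {α : Type u} [MeasurableSpace α]

lemma CD_nonneg {p q θ Λ Λ' : ℝ} (hpq : p.HolderConjugate q) (hΛ : 0 ≤ Λ) (hΛ' : 0 ≤ Λ')
    (hθ : 1 / p < θ) (hθ1 : θ < 1) : 0 ≤ CD p q θ Λ Λ' := by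
  unfold CD
  have h1 := CK_pos hpq
  have h2 := G1_pos hpq.sub_one_pos
  have hq := hpq.symm.pos
  have hpqs : 1 / p + 1 / q = 1 := by
    have := hpq.inv_add_inv_eq_one
    simpa [one_div] using this
  have h1θ : 0 < 1 - θ := by linarith
  have hcpos : 0 < cc p q θ := by
    unfold cc
    have h1 : (1 - θ) * q < 1 := by
      have h2 : 1 - θ < 1 / q := by linarith
      calc (1 - θ) * q < 1 / q * q := by gcongr
        _ = 1 := by rw [one_div_mul_cancel hq.ne']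
    have h2 : 1 < 1 / ((1 - θ) * q) := by
      rw [lt_div_iff₀ (by positivity)]
      linarith
    linarith
  have h3 := CN_pos hcpos
  positivity

lemma th_spec {p q θ : ℝ} (hpq : p.HolderConjugate q) (hθ : 1 / p < θ) :
    1 / p < th p θ ∧ th p θ < 1 := by
  have hp := hpq.pos
  have hp1 : 1 / p < 1 := by
    rw [div_lt_one hp]; exact hpq.lt
  unfold th
  split_ifs with h
  · exact ⟨hθ, h⟩
  · constructor <;> linarith

theorem setWeak (vol μ ν : Measure α) (S : Finset (Set α)) (hS : SLam S)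
    (hv : ∀ Q ∈ S, 0 < vol Q ∧ vol Q < ∞) (hμ : ∀ Q ∈ S, 0 < μ Q ∧ μ Q < ∞)
    (hν : ∀ Q ∈ S, 0 < ν Q ∧ ν Q < ∞) {Λ : ℝ} (hΛ : 0 ≤ Λ)
    (hC : ∀ R ∈ S, ∀ G ⊆ S, (∀ Q ∈ G, Q ⊆ R) → ∑ Q ∈ G, (vol Q).toReal ≤ Λ * (vol R).toReal)
    (f : α → ℝ≥0∞) (hf : Measurable f) {p q : ℝ} (hpq : p.HolderConjugate q)
    (hfin : ∫⁻ y, f y ^ p ∂μ ≠ ∞) {θ N : ℝ} {u : α → ℝ≥0∞} {e : Set α → ℝ} (hθ : 1 / p < θ)
    (hN : 0 ≤ N) (hside : Side vol μ ν S p θ N u e) {lam : ℝ} (hlam : 0 < lam) :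
    ENNReal.ofReal (lam ^ p) * ν {y | ENNReal.ofReal lam < SO S vol μ f y} ≤
      ENNReal.ofReal (CW p * (CD p q (th p θ) Λ (64 * Λ) * N) ^ p) * ∫⁻ y, f y ^ p ∂μ := by
  obtain ⟨X, _, _, T, m, μ', ν', f', h1, h2, h3, h4, h5, h6, h7, h8, h9, h10, h11, h12, h13⟩ :=
    disc vol μ ν S hS hv hμ hν hΛ hC f hf hpq hfin
  have hths := th_spec hpq hθ
  have hCD := CD_nonneg (Λ := Λ) (Λ' := 64 * Λ) hpq hΛ (by positivity) hths.1 hths.2
  have hw := weakOp h1 m μ' ν' f' h3 h4 h5 h6 h7 h8 hpq (D := CD p q (th p θ) Λ (64 * Λ) * N)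
    (by positivity) (h9 θ N u e hθ hside) hlam
  have hCW : 0 ≤ CW p := by unfold CW; positivity
  calc ENNReal.ofReal (lam ^ p) * ν {y | ENNReal.ofReal lam < SO S vol μ f y}
      ≤ ENNReal.ofReal (lam ^ p) * ENNReal.ofReal (∑ x with lam < Op T m μ' f' x, ν' x) :=
        mul_le_mul' le_rfl (h13 lam hlam.le)
    _ = ENNReal.ofReal (lam ^ p * ∑ x with lam < Op T m μ' f' x, ν' x) := by
        rw [ENNReal.ofReal_mul (Real.rpow_nonneg hlam.le _)]
    _ ≤ ENNReal.ofReal (CW p * (CD p q (th p θ) Λ (64 * Λ) * N) ^ p * ∑ x, f' x ^ p * μ' x) :=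
        ENNReal.ofReal_le_ofReal hw
    _ = ENNReal.ofReal (CW p * (CD p q (th p θ) Λ (64 * Λ) * N) ^ p) *
          ENNReal.ofReal (∑ x, f' x ^ p * μ' x) := by
        rw [ENNReal.ofReal_mul (by positivity)]
    _ ≤ _ := mul_le_mul' le_rfl h11

theorem setStrong (vol μ ν : Measure α) (S : Finset (Set α)) (hS : SLam S)
    (hv : ∀ Q ∈ S, 0 < vol Q ∧ vol Q < ∞) (hμ : ∀ Q ∈ S, 0 < μ Q ∧ μ Q < ∞)
    (hν : ∀ Q ∈ S, 0 < ν Q ∧ ν Q < ∞) {Λ : ℝ} (hΛ : 0 ≤ Λ)
    (hC : ∀ R ∈ S, ∀ G ⊆ S, (∀ Q ∈ G, Q ⊆ R) → ∑ Q ∈ G, (vol Q).toReal ≤ Λ * (vol R).toReal)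
    (f : α → ℝ≥0∞) (hf : Measurable f) {p q : ℝ} (hpq : p.HolderConjugate q)
    (hfin : ∫⁻ y, f y ^ p ∂μ ≠ ∞) {θ N : ℝ} {u : α → ℝ≥0∞} {e : Set α → ℝ} (hθ : 1 / p < θ)
    (hN : 0 ≤ N) (hside : Side vol μ ν S p θ N u e)
    {θ' N' : ℝ} {u' : α → ℝ≥0∞} {e' : Set α → ℝ} (hθ' : 1 / q < θ')
    (hN' : 0 ≤ N') (hside' : Side vol ν μ S q θ' N' u' e') :
    ∫⁻ y, SO S vol μ f y ^ p ∂ν ≤
      ENNReal.ofReal ((CS p q * (CD p q (th p θ) Λ (64 * Λ) * N +
        CD q p (th q θ') Λ (64 * Λ) * N')) ^ p) * ∫⁻ y, f y ^ p ∂μ := by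
  obtain ⟨X, _, _, T, m, μ', ν', f', h1, h2, h3, h4, h5, h6, h7, h8, h9, h10, h11, h12, h13⟩ :=
    disc vol μ ν S hS hv hμ hν hΛ hC f hf hpq hfin
  have hths := th_spec hpq hθ
  have hths' := th_spec hpq.symm hθ'
  have hCD := CD_nonneg (Λ := Λ) (Λ' := 64 * Λ) hpq hΛ (by positivity) hths.1 hths.2
  have hCD' := CD_nonneg (Λ := Λ) (Λ' := 64 * Λ) hpq.symm hΛ (by positivity) hths'.1 hths'.2
  have hCS := CS_pos hpq
  have hw := strongOp h1 m μ' ν' f' h3 h4 h5 h6 h7 h8 hpq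
    (D₁ := CD p q (th p θ) Λ (64 * Λ) * N) (D₂ := CD q p (th q θ') Λ (64 * Λ) * N')
    (by positivity) (by positivity) (h9 θ N u e hθ hside) (h10 θ' N' u' e' hθ' hside')
  calc ∫⁻ y, SO S vol μ f y ^ p ∂ν ≤ ENNReal.ofReal (∑ x, Op T m μ' f' x ^ p * ν' x) := h12
    _ ≤ ENNReal.ofReal ((CS p q * (CD p q (th p θ) Λ (64 * Λ) * N +
        CD q p (th q θ') Λ (64 * Λ) * N')) ^ p * ∑ x, f' x ^ p * μ' x) :=
        ENNReal.ofReal_le_ofReal hw
    _ = ENNReal.ofReal ((CS p q * (CD p q (th p θ) Λ (64 * Λ) * N +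
        CD q p (th q θ') Λ (64 * Λ) * N')) ^ p) * ENNReal.ofReal (∑ x, f' x ^ p * μ' x) := by
        rw [ENNReal.ofReal_mul (by positivity)]
    _ ≤ _ := mul_le_mul' le_rfl h11

end setlevel

variable {d : ℕ}

theorem reduct (hd : 0 < d) (a : ℝ) (ha : 1 ≤ a) : ∃ M₁ M₀ : ℕ,
    ∀ (t₀ : Fin d → Bool) (F : Finset (Idx d)) (E : Idx d → Set (Fin d → ℝ)),
      (∀ I ∈ F, MeasurableSet (E I)) → (∀ I ∈ F, E I ⊆ gq t₀ I) →
      (∀ I ∈ F, volume (gq t₀ I) ≤ 2 * volume (E I)) →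
      (∀ I ∈ F, ∀ J ∈ F, I ≠ J → Disjoint (E I) (E J)) →
      ∃ St : (Fin d → Bool) → Finset (Set (Fin d → ℝ)), (∀ t, SLam (St t)) ∧
        (∀ t, ∀ A ∈ St t, ∃ (c : Fin d → ℝ) (l : ℝ), 0 < l ∧ A = cube c l) ∧
        (∀ t, ∀ A ∈ St t, 0 < volume A ∧ volume A < ∞) ∧
        (∀ t, ∀ R ∈ St t, ∀ G ⊆ St t, (∀ A ∈ G, A ⊆ R) →
          ∑ A ∈ G, (volume A).toReal ≤ (M₀ : ℝ) * (volume R).toReal) ∧
        ∀ (μ : Measure (Fin d → ℝ)) (f : (Fin d → ℝ) → ℝ≥0∞) (y : Fin d → ℝ),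
          ∑ I ∈ F, (gq t₀ I).indicator (fun _ => (∫⁻ z in dil a t₀ I, f z ∂μ) /
            volume (dil a t₀ I)) y ≤ M₁ * ∑ t : Fin d → Bool, SO (St t) volume μ f y := by
  classical
  obtain ⟨s, hs⟩ := pow_unbounded_of_one_lt (3 * a) (by norm_num : (1:ℝ) < 2)
  set M₀ : ℕ := 2 ^ (s * d + 1) with hM₀
  have hM₀pos : 0 < M₀ := by positivity
  set q : ℕ := 2 ^ (s * d) with hq
  refine ⟨q * M₀, M₀, ?_⟩
  intro t₀ F E hEm hEsub hEv hEdis
  -- parents
  have hpar : ∀ I : Idx d, ∃ (t : Fin d → Bool) (n : Fin d → ℤ),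
      dil a t₀ I ⊆ gq t (I.1 + s, n) := by
    intro I
    have h2 : (0:ℝ) < 2 ^ I.1 := by positivity
    apply third_pi _ _ _ (by positivity)
    rw [zpow_add₀ (by norm_num), zpow_natCast]
    nlinarith
  choose tt nn hpar using hpar
  set J : Idx d → Idx d := fun I => (I.1 + s, nn I) with hJ
  have hJvol : ∀ I, volume (gq (tt I) (J I)) = q * volume (gq t₀ I) := by
    intro I
    rw [gq_vol, gq_vol]
    simp only [hJ]
    rw [zpow_add₀ (by norm_num), ENNReal.ofReal_mul (by positivity), mul_pow, mul_comm]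
    congr 1
    rw [zpow_natCast, ENNReal.ofReal_pow (by norm_num), hq, ← pow_mul]
    push_cast
    norm_num
  have hsub : ∀ I, gq t₀ I ⊆ gq (tt I) (J I) := fun I => (gq_sub_dil ha t₀ I).trans (hpar I)
  set Ft : (Fin d → Bool) → Finset (Idx d) := fun t => F.filter (fun I => tt I = t) with hFt
  have hFtF : ∀ t, Ft t ⊆ F := fun t => Finset.filter_subset _ _
  set St : (Fin d → Bool) → Finset (Set (Fin d → ℝ)) :=
    fun t => (Ft t).image (fun I => gq t (J I)) with hSt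
  -- cardinality of fibers
  have hcard : ∀ t, ∀ A ∈ St t, ((Ft t).filter (fun I => gq t (J I) = A)).card ≤ M₀ := by
    intro t A hA
    obtain ⟨I₀, hI₀, hA₀⟩ := Finset.mem_image.1 hA
    set G := (Ft t).filter (fun I => gq t (J I) = A) with hG
    have hGF : ∀ I ∈ G, I ∈ F ∧ tt I = t ∧ gq t (J I) = A := by
      intro I hI
      have h3 := Finset.mem_filter.1 hI
      have h4 := Finset.mem_filter.1 h3.1
      exact ⟨h4.1, h4.2, h3.2⟩
    have h1 : ∑ I ∈ G, volume (E I) ≤ volume A := by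
      rw [← measure_biUnion_finset (fun I hI J hJ hIJ => hEdis I (hGF I hI).1 J (hGF J hJ).1 hIJ)
        (fun I hI => hEm I (hGF I hI).1)]
      apply measure_mono
      apply Set.iUnion₂_subset
      intro I hI
      obtain ⟨h3, h4, h5⟩ := hGF I hI
      rw [← h5, ← h4]
      exact (hEsub I h3).trans (hsub I)
    have h2 : ∀ I ∈ G, volume A ≤ M₀ * volume (E I) := by
      intro I hI
      obtain ⟨h3, h4, h5⟩ := hGF I hI
      rw [← h5, ← h4, hJvol]
      calc (q : ℝ≥0∞) * volume (gq t₀ I) ≤ q * (2 * volume (E I)) := mul_le_mul' le_rfl (hEv I h3)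
        _ = M₀ * volume (E I) := by
            rw [hM₀, hq]; push_cast; ring
    have h3 : (G.card : ℝ≥0∞) * volume A ≤ M₀ * volume A := by
      calc (G.card : ℝ≥0∞) * volume A = ∑ I ∈ G, volume A := by
            rw [Finset.sum_const, nsmul_eq_mul]
        _ ≤ ∑ I ∈ G, M₀ * volume (E I) := Finset.sum_le_sum h2
        _ = M₀ * ∑ I ∈ G, volume (E I) := by rw [Finset.mul_sum]
        _ ≤ _ := mul_le_mul' le_rfl h1
    have hAv : 0 < volume A ∧ volume A < ∞ := by rw [← hA₀]; exact gq_vol_pos _ _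
    have h4 := (ENNReal.mul_le_mul_iff_left hAv.1.ne' hAv.2.ne).1 h3
    exact_mod_cast h4
  have hSgq : ∀ t, ∀ A ∈ St t, ∃ I ∈ Ft t, gq t (J I) = A := fun t A hA => Finset.mem_image.1 hA
  refine ⟨St, ?_, ?_, ?_, ?_, ?_⟩
  · intro t
    refine ⟨?_, ?_, ?_⟩
    · intro A hA
      obtain ⟨I, _, rfl⟩ := hSgq t A hA
      exact gq_meas _ _
    · intro A hA
      obtain ⟨I, _, rfl⟩ := hSgq t A hA
      exact gq_nonempty _ _
    · intro A hA B hB
      obtain ⟨I, _, rfl⟩ := hSgq t A hA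
      obtain ⟨I', _, rfl⟩ := hSgq t B hB
      exact gq_lam _ _ _
  · intro t A hA
    obtain ⟨I, _, rfl⟩ := hSgq t A hA
    exact ⟨_, _, by positivity, gq_eq_cube t _⟩
  · intro t A hA
    obtain ⟨I, _, rfl⟩ := hSgq t A hA
    exact gq_vol_pos _ _
  · intro t Q hQ G hG hGQ
    set G' := (Ft t).filter (fun I => gq t (J I) ∈ G) with hG'
    have h1 : G = G'.image (fun I => gq t (J I)) := by
      ext A
      rw [Finset.mem_image]
      constructor
      · intro hA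
        obtain ⟨I, hI, hIA⟩ := hSgq t A (hG hA)
        exact ⟨I, Finset.mem_filter.2 ⟨hI, by rw [hIA]; exact hA⟩, hIA⟩
      · rintro ⟨I, hI, rfl⟩
        exact (Finset.mem_filter.1 hI).2
    have h2 : ∑ A ∈ G, volume A ≤ ∑ I ∈ G', volume (gq t (J I)) := by
      rw [Finset.sum_comp (fun A => volume A) (fun I => gq t (J I)), ← h1]
      apply Finset.sum_le_sum
      intro A hA
      rw [nsmul_eq_mul]
      have h3 : 1 ≤ (G'.filter (fun I => gq t (J I) = A)).card := by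
        rw [h1] at hA
        obtain ⟨I, hI, hIA⟩ := Finset.mem_image.1 hA
        exact Finset.card_pos.2 ⟨I, Finset.mem_filter.2 ⟨hI, hIA⟩⟩
      calc volume A = 1 * volume A := by rw [one_mul]
        _ ≤ _ := mul_le_mul' (by exact_mod_cast h3) le_rfl
    have hG'F : ∀ I ∈ G', I ∈ F ∧ tt I = t ∧ gq t (J I) ∈ G := by
      intro I hI
      have h3 := Finset.mem_filter.1 hI
      have h4 := Finset.mem_filter.1 h3.1
      exact ⟨h4.1, h4.2, h3.2⟩
    have hQf : volume Q < ∞ := by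
      obtain ⟨I, _, rfl⟩ := hSgq t Q hQ
      exact (gq_vol_pos _ _).2
    have hAf : ∀ A ∈ G, volume A ≠ ∞ := by
      intro A hA
      obtain ⟨I, _, rfl⟩ := hSgq t A (hG hA)
      exact (gq_vol_pos _ _).2.ne
    have h3 : ∑ A ∈ G, volume A ≤ M₀ * volume Q := by
      calc ∑ A ∈ G, volume A ≤ ∑ I ∈ G', volume (gq t (J I)) := h2
        _ ≤ ∑ I ∈ G', M₀ * volume (E I) := by
            apply Finset.sum_le_sum
            intro I hI
            obtain ⟨h3, h4, h5⟩ := hG'F I hI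
            rw [← h4, hJvol]
            calc (q : ℝ≥0∞) * volume (gq t₀ I) ≤ q * (2 * volume (E I)) :=
                  mul_le_mul' le_rfl (hEv I h3)
              _ = M₀ * volume (E I) := by
                  rw [hM₀, hq]; push_cast; ring
        _ = M₀ * ∑ I ∈ G', volume (E I) := by rw [Finset.mul_sum]
        _ ≤ M₀ * volume Q := by
            apply mul_le_mul' le_rfl
            rw [← measure_biUnion_finset (fun I hI J hJ hIJ =>
              hEdis I (hG'F I hI).1 J (hG'F J hJ).1 hIJ) (fun I hI => hEm I (hG'F I hI).1)]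
            apply measure_mono
            apply Set.iUnion₂_subset
            intro I hI
            obtain ⟨h3, h4, h5⟩ := hG'F I hI
            refine ((hEsub I h3).trans (hsub I)).trans ?_
            rw [h4]
            exact hGQ _ h5
    have h4 := ENNReal.toReal_mono (ENNReal.mul_lt_top (by simp) hQf).ne h3
    rw [ENNReal.toReal_sum hAf, ENNReal.toReal_mul, ENNReal.toReal_natCast] at h4
    exact h4
  · intro μ f y
    -- pointwise bound of a single term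
    have hterm : ∀ I y, (gq t₀ I).indicator (fun _ => (∫⁻ z in dil a t₀ I, f z ∂μ) /
          volume (dil a t₀ I)) y ≤ q * ai f μ (gq (tt I) (J I)) y := by
      intro I y
      by_cases hy : y ∈ gq t₀ I
      · rw [Set.indicator_of_mem hy]
        unfold ai
        rw [Set.indicator_of_mem (hsub I hy)]
        have e1 : volume (gq t₀ I) ≤ volume (dil a t₀ I) := measure_mono (gq_sub_dil ha t₀ I)
        have hqpos : (q : ℝ≥0∞) ≠ 0 := by
          have : q ≠ 0 := by positivity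
          exact_mod_cast this
        calc (∫⁻ z in dil a t₀ I, f z ∂μ) / volume (dil a t₀ I)
            ≤ (∫⁻ z in gq (tt I) (J I), f z ∂μ) / volume (gq t₀ I) :=
              ENNReal.div_le_div (lintegral_mono_set (hpar I)) e1
          _ = q * ((∫⁻ z in gq (tt I) (J I), f z ∂μ) / volume (gq (tt I) (J I))) := by
              rw [hJvol, ← mul_div_assoc, ENNReal.mul_div_mul_left _ _ hqpos (by simp)]
      · rw [Set.indicator_of_notMem hy]; exact bot_le
    calc ∑ I ∈ F, (gq t₀ I).indicator (fun _ => (∫⁻ z in dil a t₀ I, f z ∂μ) /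
        volume (dil a t₀ I)) y ≤ ∑ I ∈ F, q * ai f μ (gq (tt I) (J I)) y :=
          Finset.sum_le_sum (fun I _ => hterm I y)
      _ = q * ∑ t : Fin d → Bool, ∑ I ∈ Ft t, ai f μ (gq t (J I)) y := by
          rw [← Finset.mul_sum]
          congr 1
          rw [← Finset.sum_fiberwise_of_maps_to (s := F) (t := Finset.univ) (g := tt)
            (fun _ _ => Finset.mem_univ _)]
          apply Finset.sum_congr rfl
          intro t _
          apply Finset.sum_congr rfl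
          intro I hI
          rw [(Finset.mem_filter.1 hI).2]
      _ ≤ q * ∑ t : Fin d → Bool, M₀ * ∑ A ∈ St t, ai f μ A y := by
          apply mul_le_mul' le_rfl
          apply Finset.sum_le_sum
          intro t _
          rw [Finset.sum_comp (fun A => ai f μ A y) (fun I => gq t (J I)), Finset.mul_sum]
          apply Finset.sum_le_sum
          intro A hA
          rw [nsmul_eq_mul]
          apply mul_le_mul' _ le_rfl
          exact_mod_cast hcard t A hA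
      _ = (q * M₀ : ℕ) * ∑ t : Fin d → Bool, SO (St t) volume μ f y := by
          rw [← Finset.mul_sum]
          push_cast
          rw [mul_assoc]
          rfl

end Pool.Agent.H433R3.Ml
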