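import Pool.Agent.H433R3.Ml7

set_option autoImplicit false
set_option linter.unusedSectionVars false
set_option linter.unusedVariables false

namespace Pool.Agent.H433R3.Ml

open MeasureTheory Pool.Agent.H433R3.Sep Metric
open scoped ENNReal NNReal

variable {d : ℕ}

/-- measure with a density -/
noncomputable def WM (v : (Fin d → ℝ) → ℝ) : Measure (Fin d → ℝ) :=
  volume.withDensity (fun x => ENNReal.ofReal (v x))

/-- averages -/
noncomputable def AV (v : (Fin d → ℝ) → ℝ) (Q : Set (Fin d → ℝ)) : ℝ :=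
  (volume Q).toReal⁻¹ * ∫ x in Q, v x

lemma WM_apply {v : (Fin d → ℝ) → ℝ} (hv0 : ∀ x, 0 < v x) {Q : Set (Fin d → ℝ)}
    (hQ : MeasurableSet Q) (hi : IntegrableOn v Q) :
    WM v Q = ENNReal.ofReal (∫ x in Q, v x) := by
  unfold WM
  rw [withDensity_apply _ hQ, ofReal_integral_eq_lintegral_ofReal hi
    (Filter.Eventually.of_forall fun x => (hv0 x).le)]

lemma int_pos {v : (Fin d → ℝ) → ℝ} (hv0 : ∀ x, 0 < v x) {Q : Set (Fin d → ℝ)}
    (hi : IntegrableOn v Q) (hQ0 : 0 < volume Q) : 0 < ∫ x in Q, v x := by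
  rw [setIntegral_pos_iff_support_of_nonneg_ae (Filter.Eventually.of_forall fun x => (hv0 x).le) hi]
  have : Function.support v = Set.univ := by
    ext x; simp [(hv0 x).ne']
  rw [this, Set.univ_inter]
  exact hQ0

lemma jensen {v : (Fin d → ℝ) → ℝ} (hv0 : ∀ x, 0 < v x) {Q : Set (Fin d → ℝ)}
    (hQ0 : 0 < volume Q) (hQ1 : volume Q < ∞) (hi : IntegrableOn v Q)
    (hl : IntegrableOn (fun x => Real.log (v x)) Q) :
    Real.exp (AV (fun x => Real.log (v x)) Q) ≤ AV v Q := by
  have : IsFiniteMeasure (volume.restrict Q) := ⟨by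
    rw [Measure.restrict_apply MeasurableSet.univ, Set.univ_inter]; exact hQ1⟩
  have : NeZero (volume.restrict Q) := ⟨by
    intro h
    have h1 : (volume.restrict Q) Set.univ = 0 := by rw [h]; rfl
    rw [Measure.restrict_apply MeasurableSet.univ, Set.univ_inter] at h1
    exact hQ0.ne' h1⟩
  have hg : Integrable (Real.exp ∘ fun x => Real.log (v x)) (volume.restrict Q) := by
    have e : (Real.exp ∘ fun x => Real.log (v x)) = v := by
      funext x
      exact Real.exp_log (hv0 x)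
    rw [e]; exact hi
  have h := ConvexOn.map_average_le (μ := volume.restrict Q) convexOn_exp
    Real.continuous_exp.continuousOn isClosed_univ (Filter.Eventually.of_forall fun x => trivial)
    hl hg
  rw [setAverage_eq, setAverage_eq] at h
  simp only [smul_eq_mul, Real.exp_log (hv0 _)] at h
  exact h

lemma logint {v τ : (Fin d → ℝ) → ℝ} (hv : Measurable v) (hv0 : ∀ x, 0 < v x)
    (hτ0 : ∀ x, 0 < τ x) {p : ℝ} (hp : 1 < p)
    (hvτ : ∀ x, Real.log (v x) = -(p - 1) * Real.log (τ x)) {Q : Set (Fin d → ℝ)}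
    (hiv : IntegrableOn v Q) (hiτ : IntegrableOn τ Q) :
    IntegrableOn (fun x => Real.log (v x)) Q := by
  have h1 : IntegrableOn (fun x => v x + (p - 1) * τ x) Q := hiv.add (hiτ.const_mul (p - 1))
  refine Integrable.mono' h1 (Real.measurable_log.comp hv).aestronglyMeasurable
    (Filter.Eventually.of_forall fun x => ?_)
  have a1 := Real.log_le_sub_one_of_pos (hv0 x)
  have a2 := Real.log_le_sub_one_of_pos (hτ0 x)
  have a3 := hv0 x
  have a4 := hτ0 x
  have a5 : 0 < p - 1 := by linarith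
  rw [Real.norm_eq_abs, abs_le]
  constructor
  · rw [hvτ x]
    have : (p - 1) * Real.log (τ x) ≤ (p - 1) * τ x := by
      apply mul_le_mul_of_nonneg_left _ a5.le
      linarith
    nlinarith
  · have : 0 < (p - 1) * τ x := by positivity
    linarith

lemma AV_toReal {v : (Fin d → ℝ) → ℝ} (hv : Measurable v) (hv0 : ∀ x, 0 < v x)
    {Q : Set (Fin d → ℝ)} :
    (∫⁻ x in Q, ENNReal.ofReal (v x)).toReal / (volume Q).toReal = AV v Q := by
  unfold AV
  rw [integral_eq_lintegral_of_nonneg_ae (Filter.Eventually.of_forall fun x => (hv0 x).le)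
    hv.aestronglyMeasurable, div_eq_inv_mul]

lemma csq {v : (Fin d → ℝ) → ℝ} (hv : Measurable v) (hv0 : ∀ x, 0 < v x)
    (E : Set (Fin d → ℝ)) (hE : MeasurableSet E) :
    (∫⁻ x in E, ENNReal.ofReal (Real.sqrt (v x))) ^ 2 ≤ volume E * WM v E := by
  have h22 : (2:ℝ).HolderConjugate 2 := Real.holderConjugate_iff.2 ⟨by norm_num, by norm_num⟩
  have h1 := ENNReal.lintegral_mul_le_Lp_mul_Lq (volume.restrict E) h22
    (f := fun x => ENNReal.ofReal (Real.sqrt (v x))) (g := fun _ => 1)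
    (hv.sqrt.ennreal_ofReal.aemeasurable) aemeasurable_const
  simp only [Pi.mul_apply, mul_one, ENNReal.one_rpow, lintegral_const, one_mul,
      Measure.restrict_apply MeasurableSet.univ, Set.univ_inter] at h1
  have e : ∀ x, ENNReal.ofReal (Real.sqrt (v x)) ^ (2:ℝ) = ENNReal.ofReal (v x) := by
    intro x
    rw [ENNReal.rpow_two, ← ENNReal.ofReal_pow (Real.sqrt_nonneg _), Real.sq_sqrt (hv0 x).le]
  simp_rw [e] at h1
  calc (∫⁻ x in E, ENNReal.ofReal (Real.sqrt (v x))) ^ 2
      ≤ ((∫⁻ x in E, ENNReal.ofReal (v x)) ^ (1 / (2:ℝ)) * volume E ^ (1 / (2:ℝ))) ^ 2 :=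
        pow_le_pow_left₀ bot_le h1 2
    _ = volume E * WM v E := by
        rw [mul_pow, ← ENNReal.rpow_natCast, ← ENNReal.rpow_mul, ← ENNReal.rpow_natCast,
          ← ENNReal.rpow_mul]
        unfold WM
        rw [withDensity_apply _ hE]
        norm_num
        rw [mul_comm]

lemma mkSide {p θ N : ℝ} (hp : 1 < p) {v τ : (Fin d → ℝ) → ℝ} (hv : Measurable v)
    (hτ : Measurable τ) (hv0 : ∀ x, 0 < v x) (hτ0 : ∀ x, 0 < τ x)
    (hvτ : ∀ x, Real.log (v x) = -(p - 1) * Real.log (τ x)) (S : Finset (Set (Fin d → ℝ)))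
    (hS : ∀ Q ∈ S, MeasurableSet Q ∧ 0 < volume Q ∧ volume Q < ∞ ∧ IntegrableOn v Q ∧
      IntegrableOn τ Q)
    (hN : ∀ Q ∈ S, (AV v Q * AV τ Q ^ (p - 1)) ^ θ *
      (AV v Q * Real.exp (AV (fun x => Real.log (v x)⁻¹) Q)) ^ (1 - θ) ≤ N) :
    Side volume (WM τ) (WM v) S p θ N (fun x => ENNReal.ofReal (Real.sqrt (v x)))
      (fun Q => Real.exp (AV (fun x => Real.log (v x)) Q)) := by
  have hkey : ∀ {f : (Fin d → ℝ) → ℝ}, (∀ x, 0 < f x) → ∀ Q ∈ S, IntegrableOn f Q →
      (WM f Q).toReal / (volume Q).toReal = AV f Q := by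
    intro f hf0 Q hQ hi
    rw [WM_apply hf0 (hS Q hQ).1 hi, ENNReal.toReal_ofReal
      (int_pos hf0 hi (hS Q hQ).2.1).le]
    unfold AV
    rw [div_eq_inv_mul]
  have hSA : ∀ Q ∈ S, SA volume (WM τ) (WM v) p Q = AV v Q * AV τ Q ^ (p - 1) := by
    intro Q hQ
    unfold SA
    rw [hkey hv0 Q hQ (hS Q hQ).2.2.2.1, hkey hτ0 Q hQ (hS Q hQ).2.2.2.2]
  have hWeq : ∀ Q ∈ S, (WM v Q).toReal / ((volume Q).toReal *
      Real.exp (AV (fun x => Real.log (v x)) Q)) =
      AV v Q * Real.exp (AV (fun x => Real.log (v x)⁻¹) Q) := by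
    intro Q hQ
    have e1 : AV (fun x => Real.log (v x)⁻¹) Q = -AV (fun x => Real.log (v x)) Q := by
      unfold AV
      simp_rw [Real.log_inv]
      rw [integral_neg]; ring
    rw [e1, Real.exp_neg, ← hkey hv0 Q hQ (hS Q hQ).2.2.2.1, ← div_div, div_eq_mul_inv]
  refine ⟨fun E hE => csq hv hv0 E hE, fun Q _ => Real.exp_pos _, ?_, ?_, ?_⟩
  · intro Q hQ
    obtain ⟨hm, hQ0, hQ1, hiv, hiτ⟩ := hS Q hQ
    have hl := logint hv hv0 hτ0 hp hvτ hiv hiτ
    have hs0 : ∀ x, 0 < Real.sqrt (v x) := fun x => Real.sqrt_pos.2 (hv0 x)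
    have his : IntegrableOn (fun x => Real.sqrt (v x)) Q := by
      have h1 : IntegrableOn (fun x => 1 + v x) Q :=
        (integrableOn_const (hQ1.ne)).add hiv
      refine Integrable.mono' h1 hv.sqrt.aestronglyMeasurable
        (Filter.Eventually.of_forall fun x => ?_)
      rw [Real.norm_of_nonneg (Real.sqrt_nonneg _), Real.sqrt_le_left (by have := hv0 x; linarith)]
      have := hv0 x
      nlinarith
    have hls : IntegrableOn (fun x => Real.log (Real.sqrt (v x))) Q := by
      have e : (fun x => Real.log (Real.sqrt (v x))) = fun x => Real.log (v x) / 2 := by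
        funext x
        exact Real.log_sqrt (hv0 x).le
      rw [e]
      exact hl.div_const 2
    have h1 := jensen hs0 hQ0 hQ1 his hls
    have e2 : AV (fun x => Real.log (v x)) Q = 2 * AV (fun x => Real.log (Real.sqrt (v x))) Q := by
      unfold AV
      have e : (fun x => Real.log (Real.sqrt (v x))) = fun x => Real.log (v x) / 2 := by
        funext x
        exact Real.log_sqrt (hv0 x).le
      rw [e, integral_div]; ring
    show Real.exp (AV (fun x => Real.log (v x)) Q) ≤ _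
    rw [AV_toReal hv.sqrt hs0, e2, two_mul, Real.exp_add, ← sq]
    exact pow_le_pow_left₀ (Real.exp_pos _).le h1 2
  · intro Q hQ
    obtain ⟨hm, hQ0, hQ1, hiv, hiτ⟩ := hS Q hQ
    have hl := logint hv hv0 hτ0 hp hvτ hiv hiτ
    have hp1 : p - 1 ≠ 0 := by
      have : 0 < p - 1 := by linarith
      exact this.ne'
    have hlτ : IntegrableOn (fun x => Real.log (τ x)) Q := by
      have e : (fun x => Real.log (τ x)) = fun x => -(1 / (p - 1)) * Real.log (v x) := by
        funext x
        rw [hvτ x]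
        field_simp
      rw [e]
      exact hl.const_mul _
    have h1 := jensen hτ0 hQ0 hQ1 hiτ hlτ
    have hAv : 0 ≤ AV v Q := by
      unfold AV
      have := int_pos hv0 hiv hQ0
      positivity
    show (WM v Q).toReal / ((volume Q).toReal * Real.exp (AV (fun x => Real.log (v x)) Q)) ≤ _
    rw [hWeq Q hQ, hSA Q hQ]
    apply mul_le_mul_of_nonneg_left _ hAv
    have e1 : AV (fun x => Real.log (v x)⁻¹) Q = (p - 1) * AV (fun x => Real.log (τ x)) Q := by
      unfold AV
      have e : (fun x => Real.log (v x)⁻¹) = fun x => (p - 1) * Real.log (τ x) := by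
        funext x
        rw [Real.log_inv, hvτ x]; ring
      rw [e, integral_const_mul]; ring
    rw [e1, mul_comm, Real.exp_mul]
    exact Real.rpow_le_rpow (Real.exp_pos _).le h1 (by linarith)
  · intro Q hQ
    show SA volume (WM τ) (WM v) p Q ^ θ * ((WM v Q).toReal / ((volume Q).toReal *
      Real.exp (AV (fun x => Real.log (v x)) Q))) ^ (1 - θ) ≤ N
    rw [hSA Q hQ, hWeq Q hQ]
    exact hN Q hQ

end Pool.Agent.H433R3.Ml
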