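import Pool.Agent.H433R3.Ml8

set_option autoImplicit false
set_option linter.unusedSectionVars false
set_option linter.unusedVariables false

namespace Pool.Agent.H433R3.Ml

open MeasureTheory Pool.Agent.H433R3.Sep Metric
open scoped ENNReal NNReal

variable {d : ℕ}

/-- the dual weight -/
noncomputable def sg (q : ℝ) (w : (Fin d → ℝ) → ℝ) (x : Fin d → ℝ) : ℝ := w x ^ (1 - q)

/-- measurable positive weights, locally integrable together with the dual weight -/
structure WData (q : ℝ) (w : (Fin d → ℝ) → ℝ) : Prop where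
  meas : Measurable w
  pos : ∀ x, 0 < w x
  intw : ∀ (c : Fin d → ℝ) (l : ℝ), 0 < l → IntegrableOn w (cube c l)
  ints : ∀ (c : Fin d → ℝ) (l : ℝ), 0 < l → IntegrableOn (sg q w) (cube c l)

/-- the one-supremum hypothesis -/
def OneSup (p θ N : ℝ) (v τ : (Fin d → ℝ) → ℝ) : Prop :=
  ∀ (c : Fin d → ℝ) (l : ℝ), 0 < l → (AV v (cube c l) * AV τ (cube c l) ^ (p - 1)) ^ θ *
    (AV v (cube c l) * Real.exp (AV (fun x => Real.log (v x)⁻¹) (cube c l))) ^ (1 - θ) ≤ N

lemma sg_pos {q : ℝ} {w : (Fin d → ℝ) → ℝ} (h : WData q w) (x : Fin d → ℝ) : 0 < sg q w x :=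
  Real.rpow_pos_of_pos (h.pos x) _

lemma sg_meas {q : ℝ} {w : (Fin d → ℝ) → ℝ} (h : WData q w) : Measurable (sg q w) := by
  unfold sg
  exact h.meas.pow_const _

lemma famBound (hd : 0 < d) {p q : ℝ} (hpq : p.HolderConjugate q) {θ η : ℝ} (hθ : 1 / p < θ)
    (hη : 1 / q < η) (a : ℝ) (ha : 1 ≤ a) : ∃ C : ℝ≥0, ∀ w : (Fin d → ℝ) → ℝ, WData q w →
    ∀ N : ℝ, 0 ≤ N → OneSup p θ N w (sg q w) →
    ∀ (t₀ : Fin d → Bool) (F : Finset (Idx d)) (E : Idx d → Set (Fin d → ℝ)),
      (∀ I ∈ F, MeasurableSet (E I)) → (∀ I ∈ F, E I ⊆ gq t₀ I) →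
      (∀ I ∈ F, volume (gq t₀ I) ≤ 2 * volume (E I)) →
      (∀ I ∈ F, ∀ J ∈ F, I ≠ J → Disjoint (E I) (E J)) →
    ∀ g : (Fin d → ℝ) → ℝ≥0∞, Measurable g → ∫⁻ x, g x ^ p ∂(WM (sg q w)) ≠ ∞ →
      (∀ lam : ℝ, 0 < lam → ENNReal.ofReal (lam ^ p) * WM w {y | ENNReal.ofReal lam <
        ∑ I ∈ F, (gq t₀ I).indicator (fun _ => (∫⁻ z in dil a t₀ I, g z ∂(WM (sg q w))) /
            volume (dil a t₀ I)) y} ≤
        C * ENNReal.ofReal (N ^ p) * ∫⁻ x, g x ^ p ∂(WM (sg q w))) ∧
      (∀ N' : ℝ, 0 ≤ N' → OneSup q η N' (sg q w) w →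
        ∫⁻ y, (∑ I ∈ F, (gq t₀ I).indicator (fun _ => (∫⁻ z in dil a t₀ I, g z ∂(WM (sg q w))) /
            volume (dil a t₀ I)) y) ^ p ∂(WM w) ≤
        C * ENNReal.ofReal ((N + N') ^ p) * ∫⁻ x, g x ^ p ∂(WM (sg q w))) := by
  classical
  obtain ⟨M₁, M₀, hred⟩ := reduct hd a ha
  have hp := hpq.pos
  have hq := hpq.symm.pos
  have hp1 := hpq.sub_one_pos
  have hq1 := hpq.symm.sub_one_pos
  have hpp : (p - 1) * (q - 1) = 1 := by
    have := hpq.inv_add_inv_eq_one
    field_simp at this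
    nlinarith
  set n : ℕ := Fintype.card (Fin d → Bool) with hn
  have hn1 : 1 ≤ n := Fintype.card_pos
  have hn0 : (0:ℝ) < n := by exact_mod_cast hn1
  have hths := th_spec hpq hθ
  have hths' := th_spec hpq.symm hη
  have hM0 : (0:ℝ) ≤ (M₀ : ℝ) := by positivity
  set c₁ := CD p q (th p θ) M₀ (64 * M₀) with hc₁
  set c₂ := CD q p (th q η) M₀ (64 * M₀) with hc₂
  have hc₁0 : 0 ≤ c₁ := CD_nonneg hpq hM0 (by positivity) hths.1 hths.2
  have hc₂0 : 0 ≤ c₂ := CD_nonneg hpq.symm hM0 (by positivity) hths'.1 hths'.2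
  have hCS := CS_pos hpq
  have hCW : 0 ≤ CW p := by unfold CW; positivity
  set C₁ : ℝ := (((M₁ : ℝ) + 1) * n) ^ p * (n * (CW p * c₁ ^ p)) with hC₁
  set C₂ : ℝ := ((M₁ : ℝ) * n) ^ p * (CS p q * (c₁ + c₂)) ^ p with hC₂
  have hC₁0 : 0 ≤ C₁ := by positivity
  have hC₂0 : 0 ≤ C₂ := by positivity
  refine ⟨(C₁ + C₂).toNNReal, ?_⟩
  intro w hw N hN hone t₀ F E hE1 hE2 hE3 hE4 g hg hfin
  obtain ⟨St, hSt1, hSt2, hSt3, hSt4, hSt5⟩ := hred t₀ F E hE1 hE2 hE3 hE4
  have hσ0 := sg_pos hw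
  have hσm := sg_meas hw
  have hdat : ∀ t, ∀ Q ∈ St t, MeasurableSet Q ∧ 0 < volume Q ∧ volume Q < ∞ ∧
      IntegrableOn w Q ∧ IntegrableOn (sg q w) Q := by
    intro t Q hQ
    obtain ⟨c, l, hl, rfl⟩ := hSt2 t Q hQ
    exact ⟨(hSt1 t).1 _ hQ, (hSt3 t _ hQ).1, (hSt3 t _ hQ).2, hw.intw c l hl, hw.ints c l hl⟩
  have hposfin : ∀ {v : (Fin d → ℝ) → ℝ}, (∀ x, 0 < v x) → ∀ t, ∀ Q ∈ St t, IntegrableOn v Q →
      0 < WM v Q ∧ WM v Q < ∞ := by
    intro v hv t Q hQ hi
    obtain ⟨h1, h2, h3, _, _⟩ := hdat t Q hQ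
    rw [WM_apply hv h1 hi]
    exact ⟨ENNReal.ofReal_pos.2 (int_pos hv hi h2), ENNReal.ofReal_lt_top⟩
  have hlog1 : ∀ x, Real.log (w x) = -(p - 1) * Real.log (sg q w x) := by
    intro x
    unfold sg
    rw [Real.log_rpow (hw.pos x)]
    have : -(p - 1) * ((1 - q) * Real.log (w x)) = ((p - 1) * (q - 1)) * Real.log (w x) := by ring
    rw [this, hpp, one_mul]
  have hlog2 : ∀ x, Real.log (sg q w x) = -(q - 1) * Real.log (w x) := by
    intro x
    unfold sg
    rw [Real.log_rpow (hw.pos x)]; ring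
  have hside1 : ∀ t, Side volume (WM (sg q w)) (WM w) (St t) p θ N
      (fun x => ENNReal.ofReal (Real.sqrt (w x)))
      (fun Q => Real.exp (AV (fun x => Real.log (w x)) Q)) := by
    intro t
    apply mkSide hpq.lt hw.meas hσm hw.pos hσ0 hlog1 (St t) (hdat t)
    intro Q hQ
    obtain ⟨c, l, hl, rfl⟩ := hSt2 t Q hQ
    exact hone c l hl
  set I₀ := ∫⁻ x, g x ^ p ∂(WM (sg q w)) with hI₀
  set Φ : (Fin d → ℝ) → ℝ≥0∞ := fun y => ∑ I ∈ F, (gq t₀ I).indicator
    (fun _ => (∫⁻ z in dil a t₀ I, g z ∂(WM (sg q w))) / volume (dil a t₀ I)) y with hΦ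
  have hΦle : ∀ y, Φ y ≤ M₁ * ∑ t : Fin d → Bool, SO (St t) volume (WM (sg q w)) g y :=
    fun y => hSt5 (WM (sg q w)) g y
  constructor
  · intro lam hlam
    set lam' : ℝ := lam / (((M₁ : ℝ) + 1) * n) with hlam'
    have hlam'0 : 0 < lam' := by positivity
    have hwk : ∀ t, ENNReal.ofReal (lam' ^ p) *
        WM w {y | ENNReal.ofReal lam' < SO (St t) volume (WM (sg q w)) g y} ≤
        ENNReal.ofReal (CW p * (c₁ * N) ^ p) * I₀ := by
      intro t
      exact setWeak volume (WM (sg q w)) (WM w) (St t) (hSt1 t) (hSt3 t)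
        (fun Q hQ => hposfin hσ0 t Q hQ (hdat t Q hQ).2.2.2.2)
        (fun Q hQ => hposfin hw.pos t Q hQ (hdat t Q hQ).2.2.2.1) hM0 (hSt4 t) g hg hpq hfin hθ hN
        (hside1 t) hlam'0
    have hsub : {y | ENNReal.ofReal lam < Φ y} ⊆
        ⋃ t : Fin d → Bool, {y | ENNReal.ofReal lam' < SO (St t) volume (WM (sg q w)) g y} := by
      intro y hy
      have hy' : ENNReal.ofReal lam < Φ y := hy
      by_contra hcon
      simp only [Set.mem_iUnion, not_exists] at hcon
      have h1 : ∀ t : Fin d → Bool, SO (St t) volume (WM (sg q w)) g y ≤ ENNReal.ofReal lam' := by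
        intro t
        by_contra h2
        exact hcon t (not_le.1 h2)
      have h2 : Φ y ≤ ENNReal.ofReal lam := by
        calc Φ y ≤ M₁ * ∑ t : Fin d → Bool, SO (St t) volume (WM (sg q w)) g y := hΦle y
          _ ≤ M₁ * ∑ t : Fin d → Bool, ENNReal.ofReal lam' := by
              apply mul_le_mul' le_rfl
              exact Finset.sum_le_sum (fun t _ => h1 t)
          _ = ENNReal.ofReal ((M₁ : ℝ) * (n * lam')) := by
              rw [Finset.sum_const, nsmul_eq_mul, Finset.card_univ, ← hn,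
                ENNReal.ofReal_mul (by positivity), ENNReal.ofReal_mul (by positivity),
                ENNReal.ofReal_natCast, ENNReal.ofReal_natCast]
          _ ≤ ENNReal.ofReal lam := by
              apply ENNReal.ofReal_le_ofReal
              have e : lam = ((M₁ : ℝ) + 1) * (n * lam') := by
                rw [hlam']; field_simp
              rw [e]
              apply mul_le_mul_of_nonneg_right _ (by positivity)
              linarith
      exact absurd hy' (not_lt.2 h2)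
    have e1 : ENNReal.ofReal (lam ^ p) = ENNReal.ofReal ((((M₁ : ℝ) + 1) * n) ^ p) *
        ENNReal.ofReal (lam' ^ p) := by
      rw [← ENNReal.ofReal_mul (by positivity), ← Real.mul_rpow (by positivity) hlam'0.le]
      congr 2
      rw [hlam']; field_simp
    calc ENNReal.ofReal (lam ^ p) * WM w {y | ENNReal.ofReal lam < Φ y}
        ≤ ENNReal.ofReal (lam ^ p) * ∑ t : Fin d → Bool,
            WM w {y | ENNReal.ofReal lam' < SO (St t) volume (WM (sg q w)) g y} := by
          apply mul_le_mul' le_rfl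
          exact (measure_mono hsub).trans (measure_iUnion_fintype_le _ _)
      _ = ENNReal.ofReal ((((M₁ : ℝ) + 1) * n) ^ p) * ∑ t : Fin d → Bool,
            ENNReal.ofReal (lam' ^ p) *
            WM w {y | ENNReal.ofReal lam' < SO (St t) volume (WM (sg q w)) g y} := by
          rw [e1, mul_assoc, Finset.mul_sum]
      _ ≤ ENNReal.ofReal ((((M₁ : ℝ) + 1) * n) ^ p) * ∑ t : Fin d → Bool,
            ENNReal.ofReal (CW p * (c₁ * N) ^ p) * I₀ := by
          apply mul_le_mul' le_rfl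
          exact Finset.sum_le_sum (fun t _ => hwk t)
      _ = ENNReal.ofReal C₁ * ENNReal.ofReal (N ^ p) * I₀ := by
          rw [Finset.sum_const, nsmul_eq_mul, Finset.card_univ, ← hn, Real.mul_rpow hc₁0 hN,
            ← ENNReal.ofReal_natCast, ← mul_assoc, ← mul_assoc, ← ENNReal.ofReal_mul (by positivity),
            ← ENNReal.ofReal_mul (by positivity), ← ENNReal.ofReal_mul (by positivity)]
          congr 2
          rw [hC₁]; ring
      _ ≤ _ := by
          apply mul_le_mul' _ le_rfl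
          apply mul_le_mul' _ le_rfl
          show ENNReal.ofReal C₁ ≤ ENNReal.ofReal (C₁ + C₂)
          exact ENNReal.ofReal_le_ofReal (by linarith)
  · intro N' hN' hone'
    have hside2 : ∀ t, Side volume (WM w) (WM (sg q w)) (St t) q η N'
        (fun x => ENNReal.ofReal (Real.sqrt (sg q w x)))
        (fun Q => Real.exp (AV (fun x => Real.log (sg q w x)) Q)) := by
      intro t
      apply mkSide hpq.symm.lt hσm hw.meas hσ0 hw.pos hlog2 (St t)
      · intro Q hQ
        obtain ⟨h1, h2, h3, h4, h5⟩ := hdat t Q hQ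
        exact ⟨h1, h2, h3, h5, h4⟩
      · intro Q hQ
        obtain ⟨c, l, hl, rfl⟩ := hSt2 t Q hQ
        exact hone' c l hl
    have hst : ∀ t, ∫⁻ y, SO (St t) volume (WM (sg q w)) g y ^ p ∂(WM w) ≤
        ENNReal.ofReal ((CS p q * (c₁ * N + c₂ * N')) ^ p) * I₀ := by
      intro t
      exact setStrong volume (WM (sg q w)) (WM w) (St t) (hSt1 t) (hSt3 t)
        (fun Q hQ => hposfin hσ0 t Q hQ (hdat t Q hQ).2.2.2.2)
        (fun Q hQ => hposfin hw.pos t Q hQ (hdat t Q hQ).2.2.2.1) hM0 (hSt4 t) g hg hpq hfin hθ hN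
        (hside1 t) hη hN' (hside2 t)
    have hSOm : ∀ t, Measurable (SO (St t) volume (WM (sg q w)) g) := by
      intro t
      apply Finset.measurable_fun_sum
      intro Q hQ
      exact measurable_const.indicator ((hSt1 t).1 Q hQ)
    have hpw : ∀ y, Φ y ^ p ≤ ENNReal.ofReal ((M₁ : ℝ) ^ p) * (ENNReal.ofReal ((n : ℝ) ^ (p - 1)) *
        ∑ t : Fin d → Bool, SO (St t) volume (WM (sg q w)) g y ^ p) := by
      intro y
      have h1 := ENNReal.rpow_sum_le_const_mul_sum_rpow Finset.univ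
        (fun t : Fin d → Bool => SO (St t) volume (WM (sg q w)) g y) hpq.lt.le
      have e1 : (M₁ : ℝ≥0∞) ^ p = ENNReal.ofReal ((M₁ : ℝ) ^ p) := by
        rw [← ENNReal.ofReal_natCast, ENNReal.ofReal_rpow_of_nonneg (by positivity) hp.le]
      have e2 : ((Finset.univ : Finset (Fin d → Bool)).card : ℝ≥0∞) ^ (p - 1) =
          ENNReal.ofReal ((n : ℝ) ^ (p - 1)) := by
        rw [Finset.card_univ, ← hn, ← ENNReal.ofReal_natCast,
          ENNReal.ofReal_rpow_of_nonneg (by positivity) hp1.le]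
      rw [e2] at h1
      calc Φ y ^ p ≤ (M₁ * ∑ t : Fin d → Bool, SO (St t) volume (WM (sg q w)) g y) ^ p :=
            ENNReal.rpow_le_rpow (hΦle y) hp.le
        _ = ENNReal.ofReal ((M₁ : ℝ) ^ p) *
            (∑ t : Fin d → Bool, SO (St t) volume (WM (sg q w)) g y) ^ p := by
            rw [ENNReal.mul_rpow_of_nonneg _ _ hp.le, e1]
        _ ≤ _ := mul_le_mul' le_rfl h1
    have hm1 : Measurable (fun y => ∑ t : Fin d → Bool,
        SO (St t) volume (WM (sg q w)) g y ^ p) :=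
      Finset.measurable_fun_sum _ (fun t _ => (hSOm t).pow_const p)
    calc ∫⁻ y, Φ y ^ p ∂(WM w)
        ≤ ∫⁻ y, ENNReal.ofReal ((M₁ : ℝ) ^ p) * (ENNReal.ofReal ((n : ℝ) ^ (p - 1)) *
          ∑ t : Fin d → Bool, SO (St t) volume (WM (sg q w)) g y ^ p) ∂(WM w) :=
          lintegral_mono hpw
      _ = ENNReal.ofReal ((M₁ : ℝ) ^ p) * (ENNReal.ofReal ((n : ℝ) ^ (p - 1)) *
          ∑ t : Fin d → Bool, ∫⁻ y, SO (St t) volume (WM (sg q w)) g y ^ p ∂(WM w)) := by
          rw [lintegral_const_mul _ (hm1.const_mul _), lintegral_const_mul _ hm1,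
            lintegral_finsetSum _ (fun t _ => (hSOm t).pow_const p)]
      _ ≤ ENNReal.ofReal ((M₁ : ℝ) ^ p) * (ENNReal.ofReal ((n : ℝ) ^ (p - 1)) *
          ∑ t : Fin d → Bool, ENNReal.ofReal ((CS p q * (c₁ * N + c₂ * N')) ^ p) * I₀) := by
          apply mul_le_mul' le_rfl
          apply mul_le_mul' le_rfl
          exact Finset.sum_le_sum (fun t _ => hst t)
      _ = ENNReal.ofReal (((M₁ : ℝ) * n) ^ p * (CS p q * (c₁ * N + c₂ * N')) ^ p) * I₀ := by
          rw [Finset.sum_const, nsmul_eq_mul, Finset.card_univ, ← hn,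
            ← ENNReal.ofReal_natCast, ← mul_assoc, ← mul_assoc, ← mul_assoc,
            ← ENNReal.ofReal_mul (by positivity),
            ← ENNReal.ofReal_mul (by positivity), ← ENNReal.ofReal_mul (by positivity)]
          congr 2
          have e3 : (n : ℝ) ^ p = (n : ℝ) ^ (p - 1) * n := by
            rw [← Real.rpow_add_one hn0.ne']
            congr 1; ring
          have e4 : ((M₁ : ℝ) * n) ^ p = (M₁ : ℝ) ^ p * ((n : ℝ) ^ (p - 1) * n) := by
            rw [Real.mul_rpow (by positivity) (by positivity), e3]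
          rw [e4]; ring
      _ ≤ ENNReal.ofReal (C₂ * (N + N') ^ p) * I₀ := by
          apply mul_le_mul' _ le_rfl
          apply ENNReal.ofReal_le_ofReal
          rw [hC₂, mul_assoc]
          apply mul_le_mul_of_nonneg_left _ (by positivity)
          rw [← Real.mul_rpow (by positivity) (by positivity)]
          apply Real.rpow_le_rpow (by positivity) _ hp.le
          rw [mul_assoc]
          apply mul_le_mul_of_nonneg_left _ hCS.le
          nlinarith [mul_nonneg hc₁0 hN', mul_nonneg hc₂0 hN]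
      _ = ENNReal.ofReal C₂ * ENNReal.ofReal ((N + N') ^ p) * I₀ := by
          rw [ENNReal.ofReal_mul hC₂0]
      _ ≤ _ := by
          apply mul_le_mul' _ le_rfl
          apply mul_le_mul' _ le_rfl
          show ENNReal.ofReal C₂ ≤ ENNReal.ofReal (C₁ + C₂)
          exact ENNReal.ofReal_le_ofReal (by linarith)

end Pool.Agent.H433R3.Ml
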