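import Mathlib

set_option autoImplicit false
set_option linter.unusedSectionVars false
set_option linter.unusedVariables false

namespace Pool.Agent.H433R3.Mx

open MeasureTheory
open scoped ENNReal NNReal

/-- The approximations of the Cantor measure. -/
noncomputable def sg : ℕ → ℝ → ℝ≥0∞
  | 0 => (Set.Icc (0:ℝ) 1).indicator (fun _ => 1)
  | n + 1 => fun x => (3/2) * (sg n (3 * x) + sg n (3 * x - 2))

/-- The weights living in the gaps. -/
noncomputable def ug : ℕ → ℝ → ℝ≥0∞
  | 0 => fun _ => 0
  | n + 1 => fun x => (Set.Icc (4/9:ℝ) (5/9)).indicator (fun _ => 1) x +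
      (2/3) * (ug n (3 * x) + ug n (3 * x - 2))

lemma sg_meas : ∀ n, Measurable (sg n)
  | 0 => measurable_const.indicator measurableSet_Icc
  | n + 1 => by
      have h := sg_meas n
      exact ((h.comp (measurable_const.mul measurable_id)).add
        (h.comp ((measurable_const.mul measurable_id).sub_const 2))).const_mul _

lemma ug_meas : ∀ n, Measurable (ug n)
  | 0 => measurable_const
  | n + 1 => by
      have h := ug_meas n
      exact (measurable_const.indicator measurableSet_Icc).add
        (((h.comp (measurable_const.mul measurable_id)).add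
        (h.comp ((measurable_const.mul measurable_id).sub_const 2))).const_mul _)

lemma sg_zero : ∀ n (x : ℝ), (x < 0 ∨ 1 < x) → sg n x = 0
  | 0, x, h => by
      unfold sg
      rw [Set.indicator_of_notMem]
      rintro ⟨h1, h2⟩
      rcases h with h | h <;> linarith
  | n + 1, x, h => by
      unfold sg
      show (3/2) * (sg n (3 * x) + sg n (3 * x - 2)) = 0
      rcases h with h | h
      · rw [sg_zero n _ (Or.inl (by linarith)), sg_zero n _ (Or.inl (by linarith)), add_zero,
          mul_zero]
      · rw [sg_zero n _ (Or.inr (by linarith)), sg_zero n _ (Or.inr (by linarith)), add_zero,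
          mul_zero]

lemma ug_zero : ∀ n (x : ℝ), (x < 0 ∨ 1 < x) → ug n x = 0
  | 0, x, h => rfl
  | n + 1, x, h => by
      unfold ug
      show (Set.Icc (4/9:ℝ) (5/9)).indicator (fun _ => 1) x +
        (2/3) * (ug n (3 * x) + ug n (3 * x - 2)) = 0
      have h0 : (Set.Icc (4/9:ℝ) (5/9)).indicator (fun _ => (1:ℝ≥0∞)) x = 0 := by
        rw [Set.indicator_of_notMem]
        rintro ⟨h1, h2⟩
        rcases h with h | h <;> linarith
      rw [h0]
      rcases h with h | h
      · rw [ug_zero n _ (Or.inl (by linarith)), ug_zero n _ (Or.inl (by linarith)), add_zero,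
          mul_zero, add_zero]
      · rw [ug_zero n _ (Or.inr (by linarith)), ug_zero n _ (Or.inr (by linarith)), add_zero,
          mul_zero, add_zero]

lemma sg_fin : ∀ n (x : ℝ), sg n x ≠ ∞
  | 0, x => by
      unfold sg
      by_cases h : x ∈ Set.Icc (0:ℝ) 1
      · rw [Set.indicator_of_mem h]; simp
      · rw [Set.indicator_of_notMem h]; simp
  | n + 1, x => by
      unfold sg
      show (3/2) * (sg n (3 * x) + sg n (3 * x - 2)) ≠ ∞
      exact ENNReal.mul_ne_top (ENNReal.div_ne_top (by simp) (by simp))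
        (ENNReal.add_ne_top.2 ⟨sg_fin n _, sg_fin n _⟩)

lemma scal (g : ℝ → ℝ≥0∞) : ∫⁻ x, g (3 * x) = (1/3) * ∫⁻ x, g x := by
  have h3 : (3:ℝ) ≠ 0 := by norm_num
  have h1 := lintegral_map_equiv (μ := (volume : Measure ℝ)) g
    (Homeomorph.mulLeft₀ (3:ℝ) h3).toMeasurableEquiv
  have h2 : Measure.map ((Homeomorph.mulLeft₀ (3:ℝ) h3).toMeasurableEquiv) (volume : Measure ℝ) =
      ENNReal.ofReal |(3:ℝ)⁻¹| • volume := Real.map_volume_mul_left h3
  rw [h2, lintegral_smul_measure] at h1
  have h4 : ∫⁻ x, g (3 * x) = ∫⁻ a, g ((Homeomorph.mulLeft₀ (3:ℝ) h3).toMeasurableEquiv a) := rfl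
  rw [h4, ← h1]
  have h5 : ENNReal.ofReal |(3:ℝ)⁻¹| = 1/3 := by
    rw [abs_of_pos (by norm_num), ENNReal.ofReal_inv_of_pos (by norm_num)]
    norm_num
  rw [h5]
  rfl

lemma scal2 (g : ℝ → ℝ≥0∞) : ∫⁻ x, g (3 * x - 2) = (1/3) * ∫⁻ x, g x := by
  rw [scal (fun y => g (y - 2)), lintegral_sub_right_eq_self]

lemma c1 : (3/2 : ℝ≥0∞) * (1/3 + 1/3) = 1 := by
  rw [← ENNReal.toReal_eq_toReal_iff' (ENNReal.mul_ne_top (ENNReal.div_ne_top (by simp) (by simp))
    (ENNReal.add_ne_top.2 ⟨ENNReal.div_ne_top (by simp) (by simp),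
      ENNReal.div_ne_top (by simp) (by simp)⟩)) (by simp)]
  rw [ENNReal.toReal_mul, ENNReal.toReal_add (ENNReal.div_ne_top (by simp) (by simp))
    (ENNReal.div_ne_top (by simp) (by simp))]
  simp only [ENNReal.toReal_div, ENNReal.toReal_ofNat, ENNReal.toReal_one]
  norm_num

lemma sg_int : ∀ n, ∫⁻ x, sg n x = 1
  | 0 => by
      unfold sg
      rw [lintegral_indicator measurableSet_Icc]
      simp
  | n + 1 => by
      have h := sg_int n
      have hm := sg_meas n
      have h1 : ∫⁻ x, sg (n + 1) x = ∫⁻ x, (3/2) * (sg n (3 * x) + sg n (3 * x - 2)) := rfl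
      rw [h1, lintegral_const_mul, lintegral_add_left, scal, scal2, h, mul_one, c1]
      · exact hm.comp (measurable_const.mul measurable_id)
      · exact (hm.comp (measurable_const.mul measurable_id)).add
          (hm.comp ((measurable_const.mul measurable_id).sub_const 2))

lemma ug_split (n : ℕ) (g : ℝ → ℝ≥0∞) (hg : Measurable g) : ∫⁻ x, ug (n + 1) x * g x =
    (∫⁻ x in Set.Icc (4/9:ℝ) (5/9), g x) + (2/3) * ((∫⁻ x, ug n (3 * x) * g x) +
      ∫⁻ x, ug n (3 * x - 2) * g x) := by
  have hm := ug_meas n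
  have hm1 : Measurable (fun x => ug n (3 * x)) := hm.comp (measurable_const.mul measurable_id)
  have hm2 : Measurable (fun x => ug n (3 * x - 2)) :=
    hm.comp ((measurable_const.mul measurable_id).sub_const 2)
  have h1 : ∀ x, ug (n + 1) x * g x = (Set.Icc (4/9:ℝ) (5/9)).indicator g x +
      (2/3) * (ug n (3 * x) * g x + ug n (3 * x - 2) * g x) := by
    intro x
    have e : ug (n + 1) x = (Set.Icc (4/9:ℝ) (5/9)).indicator (fun _ => 1) x +
      (2/3) * (ug n (3 * x) + ug n (3 * x - 2)) := rfl
    rw [e, add_mul, mul_assoc, add_mul]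
    congr 1
    by_cases h : x ∈ Set.Icc (4/9:ℝ) (5/9)
    · rw [Set.indicator_of_mem h, Set.indicator_of_mem h, one_mul]
    · rw [Set.indicator_of_notMem h, Set.indicator_of_notMem h, zero_mul]
  simp_rw [h1]
  have hm3 : Measurable (fun x => ug n (3 * x) * g x) := hm1.mul hg
  have hm4 : Measurable (fun x => ug n (3 * x - 2) * g x) := hm2.mul hg
  have hm5 : Measurable (fun x => ug n (3 * x) * g x + ug n (3 * x - 2) * g x) := hm3.add hm4
  rw [lintegral_add_left (hg.indicator measurableSet_Icc), lintegral_indicator measurableSet_Icc,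
    lintegral_const_mul _ hm5, lintegral_add_left hm3]

lemma ug_int_le : ∀ n, ∫⁻ x, ug n x ≤ 1
  | 0 => by
      have : ∫⁻ x, ug 0 x = ∫⁻ x : ℝ, (0:ℝ≥0∞) := rfl
      rw [this, lintegral_zero]; exact bot_le
  | n + 1 => by
      have h := ug_int_le n
      have h1 := ug_split n (fun _ => 1) measurable_const
      simp only [mul_one] at h1
      rw [h1, scal, scal2, lintegral_const, Measure.restrict_apply MeasurableSet.univ,
        Set.univ_inter, Real.volume_Icc, one_mul]
      calc ENNReal.ofReal (5/9 - 4/9) + (2/3) * ((1/3) * (∫⁻ x, ug n x) + (1/3) * ∫⁻ x, ug n x)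
          ≤ ENNReal.ofReal (5/9 - 4/9) + (2/3) * ((1/3) * 1 + (1/3) * 1) := by gcongr
        _ ≤ 1 := by
          rw [mul_one]
          have e1 : (2/3 : ℝ≥0∞) * (1/3 + 1/3) = ENNReal.ofReal (4/9) := by
            rw [← ENNReal.toReal_eq_toReal_iff' (ENNReal.mul_ne_top
              (ENNReal.div_ne_top (by simp) (by simp))
              (ENNReal.add_ne_top.2 ⟨ENNReal.div_ne_top (by simp) (by simp),
                ENNReal.div_ne_top (by simp) (by simp)⟩)) (by simp)]
            rw [ENNReal.toReal_mul, ENNReal.toReal_add (ENNReal.div_ne_top (by simp) (by simp))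
              (ENNReal.div_ne_top (by simp) (by simp)), ENNReal.toReal_ofReal (by norm_num)]
            simp only [ENNReal.toReal_div, ENNReal.toReal_ofNat, ENNReal.toReal_one]
            norm_num
          rw [e1, ← ENNReal.ofReal_add (by norm_num) (by norm_num)]
          rw [← ENNReal.ofReal_one]
          exact ENNReal.ofReal_le_ofReal (by norm_num)

end Pool.Agent.H433R3.Mx
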