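import Pool.Agent.H433R3.Mx1

set_option autoImplicit false
set_option linter.unusedSectionVars false
set_option linter.unusedVariables false

namespace Pool.Agent.H433R3.Mx

open MeasureTheory
open scoped ENNReal NNReal

/-- the denominators -/
noncomputable def D (a b x : ℝ) : ℝ := (b - a) ^ 2 + (x - (a + b) / 2) ^ 2

/-- the kernel -/
noncomputable def Kx (a b x : ℝ) : ℝ≥0∞ := (ENNReal.ofReal (D a b x))⁻¹

noncomputable def S (n : ℕ) (a b : ℝ) : ℝ≥0∞ := ∫⁻ x in Set.Icc a b, sg n x

noncomputable def Tn (n : ℕ) (a b : ℝ) : ℝ≥0∞ := ∫⁻ x, ug n x * Kx a b x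

lemma D_pos {a b : ℝ} (h : a < b) (x : ℝ) : 0 < D a b x := by
  unfold D
  have : 0 < (b - a) ^ 2 := by
    have : 0 < b - a := by linarith
    positivity
  positivity

lemma D_meas (a b : ℝ) : Measurable (D a b) := by
  unfold D
  fun_prop

lemma Kx_meas (a b : ℝ) : Measurable (Kx a b) := by
  unfold Kx
  exact (ENNReal.measurable_ofReal.comp (D_meas a b)).inv

lemma Kx_scale {a b x a' b' x' : ℝ} (h : a < b) (hD : D a' b' x' = 9 * D a b x) :
    Kx a b x = 9 * Kx a' b' x' := by
  unfold Kx
  have h1 := D_pos h x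
  rw [hD, ENNReal.ofReal_mul (by norm_num), ENNReal.mul_inv (Or.inr ENNReal.ofReal_ne_top)
    (Or.inr (by simpa using h1))]
  rw [← mul_assoc]
  have : (9:ℝ≥0∞) * (ENNReal.ofReal 9)⁻¹ = 1 := by
    have e : ENNReal.ofReal 9 = 9 := by
      rw [show (9:ℝ) = ((9:ℕ):ℝ) by norm_num, ENNReal.ofReal_natCast]; norm_num
    rw [e, ENNReal.mul_inv_cancel (by norm_num) (by norm_num)]
  rw [this, one_mul]

lemma num1 (s : ℝ≥0∞) : (9:ℝ≥0∞) * ((1/3) * s) = 3 * s := by
  rw [← mul_assoc]
  congr 1
  rw [show (9:ℝ≥0∞) = 3 * 3 by norm_num, mul_assoc, one_div,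
    ENNReal.mul_inv_cancel (by norm_num) (by norm_num), mul_one]

lemma T_scale (n : ℕ) {a b : ℝ} (h : a < b) :
    ∫⁻ x, ug n (3 * x) * Kx a b x = 3 * Tn n (3 * a) (3 * b) := by
  have h1 : ∀ x, ug n (3 * x) * Kx a b x =
      9 * (fun y => ug n y * Kx (3 * a) (3 * b) y) (3 * x) := by
    intro x
    show ug n (3 * x) * Kx a b x = 9 * (ug n (3 * x) * Kx (3 * a) (3 * b) (3 * x))
    rw [Kx_scale (a' := 3 * a) (b' := 3 * b) (x' := 3 * x) h (by unfold D; ring)]
    ring
  rw [lintegral_congr h1, lintegral_const_mul' _ _ (by norm_num),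
    scal (fun y => ug n y * Kx (3 * a) (3 * b) y), num1]
  rfl

lemma T_scale2 (n : ℕ) {a b : ℝ} (h : a < b) :
    ∫⁻ x, ug n (3 * x - 2) * Kx a b x = 3 * Tn n (3 * a - 2) (3 * b - 2) := by
  have h1 : ∀ x, ug n (3 * x - 2) * Kx a b x =
      9 * (fun y => ug n y * Kx (3 * a - 2) (3 * b - 2) y) (3 * x - 2) := by
    intro x
    show ug n (3 * x - 2) * Kx a b x =
      9 * (ug n (3 * x - 2) * Kx (3 * a - 2) (3 * b - 2) (3 * x - 2))
    rw [Kx_scale (a' := 3 * a - 2) (b' := 3 * b - 2) (x' := 3 * x - 2) h (by unfold D; ring)]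
    ring
  rw [lintegral_congr h1, lintegral_const_mul' _ _ (by norm_num),
    scal2 (fun y => ug n y * Kx (3 * a - 2) (3 * b - 2) y), num1]
  rfl

lemma S_scale (n : ℕ) (a b : ℝ) : ∫⁻ x in Set.Icc a b, sg n (3 * x) =
    (1/3) * S n (3 * a) (3 * b) := by
  unfold S
  rw [← lintegral_indicator measurableSet_Icc, ← lintegral_indicator measurableSet_Icc, ← scal]
  apply lintegral_congr
  intro x
  by_cases h : x ∈ Set.Icc a b
  · have h' : 3 * x ∈ Set.Icc (3 * a) (3 * b) := ⟨by linarith [h.1], by linarith [h.2]⟩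
    rw [Set.indicator_of_mem h, Set.indicator_of_mem h']
  · have h' : 3 * x ∉ Set.Icc (3 * a) (3 * b) := by
      rintro ⟨h1, h2⟩
      exact h ⟨by linarith, by linarith⟩
    rw [Set.indicator_of_notMem h, Set.indicator_of_notMem h']

lemma S_scale2 (n : ℕ) (a b : ℝ) : ∫⁻ x in Set.Icc a b, sg n (3 * x - 2) =
    (1/3) * S n (3 * a - 2) (3 * b - 2) := by
  unfold S
  rw [← lintegral_indicator measurableSet_Icc, ← lintegral_indicator measurableSet_Icc, ← scal2]
  apply lintegral_congr
  intro x
  by_cases h : x ∈ Set.Icc a b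
  · have h' : 3 * x - 2 ∈ Set.Icc (3 * a - 2) (3 * b - 2) := ⟨by linarith [h.1], by linarith [h.2]⟩
    rw [Set.indicator_of_mem h, Set.indicator_of_mem h']
  · have h' : 3 * x - 2 ∉ Set.Icc (3 * a - 2) (3 * b - 2) := by
      rintro ⟨h1, h2⟩
      exact h ⟨by linarith, by linarith⟩
    rw [Set.indicator_of_notMem h, Set.indicator_of_notMem h']

lemma num2 (s : ℝ≥0∞) : (2:ℝ≥0∞) * ((3/2) * ((1/3) * s)) = s := by
  rw [← mul_assoc, ← mul_assoc]
  have : (2:ℝ≥0∞) * (3/2) * (1/3) = 1 := by
    rw [ENNReal.mul_div_cancel (by norm_num) (by norm_num), one_div,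
      ENNReal.mul_inv_cancel (by norm_num) (by norm_num)]
  rw [this, one_mul]

lemma S_succ (n : ℕ) (a b : ℝ) : S (n + 1) a b =
    (3/2) * ((1/3) * S n (3 * a) (3 * b) + (1/3) * S n (3 * a - 2) (3 * b - 2)) := by
  have hm := sg_meas n
  have hm1 : Measurable (fun x => sg n (3 * x)) := hm.comp (measurable_const.mul measurable_id)
  have hm2 : Measurable (fun x => sg n (3 * x - 2)) :=
    hm.comp ((measurable_const.mul measurable_id).sub_const 2)
  have h1 : S (n + 1) a b = ∫⁻ x in Set.Icc a b, (3/2) * (sg n (3 * x) + sg n (3 * x - 2)) := rfl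
  have hm3 : Measurable (fun x => sg n (3 * x) + sg n (3 * x - 2)) := hm1.add hm2
  rw [h1, lintegral_const_mul _ hm3, lintegral_add_left hm1, S_scale, S_scale2]

lemma S_zero {n : ℕ} {a b : ℝ} (h : b < 0 ∨ 1 < a) : S n a b = 0 := by
  unfold S
  rw [setLIntegral_congr_fun (g := fun _ => 0) measurableSet_Icc]
  · simp
  · intro x hx
    rcases h with h | h
    · exact sg_zero n x (Or.inl (lt_of_le_of_lt hx.2 h))
    · exact sg_zero n x (Or.inr (lt_of_lt_of_le h hx.1))

lemma S_le_one (n : ℕ) (a b : ℝ) : S n a b ≤ 1 := by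
  unfold S
  rw [← sg_int n]
  exact setLIntegral_le_lintegral _ _

lemma Kx_le {a b x c : ℝ} (hc : 0 < c) (h : c ≤ D a b x) : Kx a b x ≤ ENNReal.ofReal (1 / c) := by
  unfold Kx
  rw [one_div, ENNReal.ofReal_inv_of_pos hc]
  exact ENNReal.inv_le_inv.2 (ENNReal.ofReal_le_ofReal h)

lemma D_far {a b x y r : ℝ} (hr : 0 ≤ r) (hab : a < b) (hy : a ≤ y ∧ y ≤ b) (h : r ≤ |x - y|) :
    4 / 9 * r ^ 2 ≤ D a b x := by
  unfold D
  have h1 : |y - (a + b) / 2| ≤ (b - a) / 2 := by
    rw [abs_le]; constructor <;> linarith [hy.1, hy.2]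
  have h2 : |x - y| ≤ |x - (a + b) / 2| + |y - (a + b) / 2| := by
    have := abs_sub_le x ((a + b) / 2) y
    rw [abs_sub_comm ((a + b) / 2) y] at this
    exact this
  have h3 : r ≤ |x - (a + b) / 2| + (b - a) / 2 := by linarith
  have h4 : (x - (a + b) / 2) ^ 2 = |x - (a + b) / 2| ^ 2 := (sq_abs _).symm
  rw [h4]
  set p := |x - (a + b) / 2| with hp
  have hp0 : 0 ≤ p := abs_nonneg _
  set l := b - a with hl
  have hl0 : 0 < l := by rw [hl]; linarith
  by_cases h5 : 2 / 3 * r ≤ l
  · nlinarith [sq_nonneg p, mul_nonneg hr hr]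
  · push Not at h5
    have h6 : 2 / 3 * r ≤ p := by linarith
    nlinarith [sq_nonneg l, mul_nonneg hr hr]

/-- far part of the integral -/
lemma far_le {g : ℝ → ℝ≥0∞} {a b c : ℝ} (hc : 0 < c) (hg : ∫⁻ x, g x ≤ 1)
    (h : ∀ x, g x ≠ 0 → c ≤ D a b x) : ∫⁻ x, g x * Kx a b x ≤ ENNReal.ofReal (1 / c) := by
  calc ∫⁻ x, g x * Kx a b x ≤ ∫⁻ x, g x * ENNReal.ofReal (1 / c) := by
        apply lintegral_mono
        intro x
        show g x * Kx a b x ≤ g x * ENNReal.ofReal (1 / c)
        by_cases h1 : g x = 0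
        · rw [h1, zero_mul, zero_mul]
        · exact mul_le_mul' le_rfl (Kx_le hc (h x h1))
    _ = (∫⁻ x, g x) * ENNReal.ofReal (1 / c) := by
        rw [lintegral_mul_const' _ _ ENNReal.ofReal_ne_top]
    _ ≤ 1 * ENNReal.ofReal (1 / c) := mul_le_mul' hg le_rfl
    _ = _ := one_mul _

lemma gap_le {a b : ℝ} (h : ∀ x ∈ Set.Icc (4/9:ℝ) (5/9), 4 / 729 ≤ D a b x) :
    ∫⁻ x in Set.Icc (4/9:ℝ) (5/9), Kx a b x ≤ 21 := by
  calc ∫⁻ x in Set.Icc (4/9:ℝ) (5/9), Kx a b x
      ≤ ∫⁻ x in Set.Icc (4/9:ℝ) (5/9), ENNReal.ofReal (1 / (4/729)) := by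
        apply setLIntegral_mono' measurableSet_Icc
        intro x hx
        exact Kx_le (by norm_num) (h x hx)
    _ = ENNReal.ofReal (1 / (4/729)) * ENNReal.ofReal (5/9 - 4/9) := by
        rw [lintegral_const, Measure.restrict_apply MeasurableSet.univ, Set.univ_inter,
          Real.volume_Icc]
    _ ≤ 21 := by
        rw [← ENNReal.ofReal_mul (by norm_num)]
        rw [show (21:ℝ≥0∞) = ENNReal.ofReal 21 by
          rw [show (21:ℝ) = ((21:ℕ):ℝ) by norm_num, ENNReal.ofReal_natCast]; norm_num]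
        exact ENNReal.ofReal_le_ofReal (by norm_num)

lemma num3 {t u v : ℝ≥0∞} (hu : u ≤ 21) (hv : v ≤ ENNReal.ofReal (1 / (4/9 * (1/9)^2))) :
    u + (2/3) * (3 * t + (1/3) * v) ≤ 2 * t + 100 := by
  have h1 : (2/3 : ℝ≥0∞) * (3 * t + (1/3) * v) = 2 * t + (2/3) * ((1/3) * v) := by
    rw [mul_add, ← mul_assoc]
    congr 2
    exact ENNReal.div_mul_cancel (by norm_num) (by norm_num)
  have h2 : (2/3 : ℝ≥0∞) * ((1/3) * v) ≤ 79 := by
    calc (2/3 : ℝ≥0∞) * ((1/3) * v) ≤ (2/3 : ℝ≥0∞) * ((1/3) *
          ENNReal.ofReal (1 / (4/9 * (1/9)^2))) := by gcongr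
      _ ≤ 79 := by
        have e1 : (2/3 : ℝ≥0∞) = ENNReal.ofReal (2/3) := by
          rw [ENNReal.ofReal_div_of_pos (by norm_num)]
          norm_num
        have e2 : (1/3 : ℝ≥0∞) = ENNReal.ofReal (1/3) := by
          rw [ENNReal.ofReal_div_of_pos (by norm_num)]
          norm_num
        rw [e1, e2, ← ENNReal.ofReal_mul (by norm_num), ← ENNReal.ofReal_mul (by norm_num)]
        rw [show (79:ℝ≥0∞) = ENNReal.ofReal 79 by
          rw [show (79:ℝ) = ((79:ℕ):ℝ) by norm_num, ENNReal.ofReal_natCast]; norm_num]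
        exact ENNReal.ofReal_le_ofReal (by norm_num)
  rw [h1]
  calc u + (2 * t + (2/3) * ((1/3) * v)) ≤ 21 + (2 * t + 79) := by gcongr
    _ = 2 * t + (21 + 79) := by ring
    _ = _ := by norm_num

lemma comb {s' t' s t : ℝ≥0∞} (hs : 2 * s' ≤ s) (ht : t' ≤ 2 * t + 100)
    (h : s * t + 100 * s ≤ 200) : s' * t' + 100 * s' ≤ 200 := by
  calc s' * t' + 100 * s' ≤ s' * (2 * t + 100) + 100 * s' := by gcongr
    _ = (2 * s') * t + 100 * (2 * s') := by ring
    _ ≤ s * t + 100 * s := by gcongr
    _ ≤ 200 := h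

lemma psi : ∀ (n : ℕ) (a b : ℝ), a < b → S n a b * Tn n a b + 100 * S n a b ≤ 200
  | 0, a, b, hab => by
      have h1 : Tn 0 a b = 0 := by
        unfold Tn ug
        simp
      rw [h1, mul_zero, zero_add]
      calc 100 * S 0 a b ≤ 100 * 1 := mul_le_mul' le_rfl (S_le_one _ _ _)
        _ ≤ 200 := by norm_num
  | n + 1, a, b, hab => by
      have ih := psi n
      have hT : Tn (n + 1) a b = (∫⁻ x in Set.Icc (4/9:ℝ) (5/9), Kx a b x) +
          (2/3) * ((∫⁻ x, ug n (3 * x) * Kx a b x) + ∫⁻ x, ug n (3 * x - 2) * Kx a b x) :=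
        ug_split n (Kx a b) (Kx_meas a b)
      by_cases ha : a ≤ 1/3
      · by_cases hb : b < 2/3
        · -- left third
          have hS : 2 * S (n + 1) a b ≤ S n (3 * a) (3 * b) := by
            rw [S_succ, S_zero (a := 3 * a - 2) (b := 3 * b - 2) (Or.inl (by linarith)), mul_zero,
              add_zero, num2]
          by_cases hb0 : b < 0
          · rw [S_zero (Or.inl hb0)]; simp
          · push Not at hb0
            refine comb hS ?_ (ih (3 * a) (3 * b) (by linarith))
            have hy : a ≤ min b (1/3) ∧ min b (1/3) ≤ b := ⟨le_min hab.le ha, min_le_left _ _⟩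
            have hD : ∀ x : ℝ, 4/9 ≤ x → 4/9 * (1/9)^2 ≤ D a b x := by
              intro x hx
              apply D_far (by norm_num) hab hy
              have : min b (1/3) ≤ 1/3 := min_le_right _ _
              rw [abs_of_nonneg (by linarith)]
              linarith
            rw [hT, T_scale n hab]
            have hv : ∫⁻ x, ug n (3 * x - 2) * Kx a b x ≤ (1/3) *
                ENNReal.ofReal (1 / (4/9 * (1/9)^2)) := by
              calc ∫⁻ x, ug n (3 * x - 2) * Kx a b x
                  ≤ ∫⁻ x, ug n (3 * x - 2) * ENNReal.ofReal (1 / (4/9 * (1/9)^2)) := by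
                    apply lintegral_mono
                    intro x
                    show ug n (3 * x - 2) * Kx a b x ≤ ug n (3 * x - 2) * _
                    by_cases h1 : 3 * x - 2 < 0
                    · rw [ug_zero n _ (Or.inl h1), zero_mul, zero_mul]
                    · push Not at h1
                      exact mul_le_mul' le_rfl (Kx_le (by norm_num) (hD x (by linarith)))
                _ = (∫⁻ x, ug n (3 * x - 2)) * ENNReal.ofReal (1 / (4/9 * (1/9)^2)) := by
                    rw [lintegral_mul_const' _ _ ENNReal.ofReal_ne_top]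
                _ ≤ ((1/3) * 1) * ENNReal.ofReal (1 / (4/9 * (1/9)^2)) := by
                    rw [scal2]
                    gcongr
                    exact ug_int_le n
                _ = _ := by rw [mul_one]
            have hgap : ∫⁻ x in Set.Icc (4/9:ℝ) (5/9), Kx a b x ≤ 21 := gap_le (fun x hx => by
              have := hD x hx.1
              norm_num at this ⊢
              exact this)
            exact le_trans (by gcongr) (num3 (t := Tn n (3 * a) (3 * b)) hgap le_rfl)
        · -- both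
          push Not at hb
          have hD : ∀ x, 1/9 ≤ D a b x := by
            intro x
            unfold D
            have : 1/3 ≤ b - a := by linarith
            nlinarith [sq_nonneg (x - (a + b) / 2)]
          have hTn : Tn (n + 1) a b ≤ 9 := by
            refine (far_le (c := 1/9) (by norm_num) (ug_int_le (n + 1)) (fun x _ => hD x)).trans ?_
            rw [show (9:ℝ≥0∞) = ENNReal.ofReal 9 by
              rw [show (9:ℝ) = ((9:ℕ):ℝ) by norm_num, ENNReal.ofReal_natCast]; norm_num]
            exact ENNReal.ofReal_le_ofReal (by norm_num)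
          calc S (n + 1) a b * Tn (n + 1) a b + 100 * S (n + 1) a b ≤ 1 * 9 + 100 * 1 := by
                gcongr
                · exact S_le_one _ _ _
                · exact S_le_one _ _ _
            _ ≤ 200 := by norm_num
      · push Not at ha
        by_cases hb : b < 2/3
        · have hS : S (n + 1) a b = 0 := by
            rw [S_succ, S_zero (a := 3 * a) (b := 3 * b) (Or.inr (by linarith)),
              S_zero (a := 3 * a - 2) (b := 3 * b - 2) (Or.inl (by linarith))]
            simp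
          rw [hS]; simp
        · push Not at hb
          have hS : 2 * S (n + 1) a b ≤ S n (3 * a - 2) (3 * b - 2) := by
            rw [S_succ, S_zero (a := 3 * a) (b := 3 * b) (Or.inr (by linarith)), mul_zero,
              zero_add, num2]
          by_cases ha1 : 1 < a
          · rw [S_zero (Or.inr ha1)]; simp
          · push Not at ha1
            refine comb hS ?_ (ih (3 * a - 2) (3 * b - 2) (by linarith))
            have hy : a ≤ max a (2/3) ∧ max a (2/3) ≤ b := ⟨le_max_left _ _, max_le hab.le hb⟩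
            have hD : ∀ x : ℝ, x ≤ 5/9 → 4/9 * (1/9)^2 ≤ D a b x := by
              intro x hx
              apply D_far (by norm_num) hab hy
              have : 2/3 ≤ max a (2/3) := le_max_right _ _
              rw [abs_of_nonpos (by linarith)]
              linarith
            rw [hT, T_scale2 n hab, add_comm (∫⁻ x, ug n (3 * x) * Kx a b x)]
            have hv : ∫⁻ x, ug n (3 * x) * Kx a b x ≤ (1/3) *
                ENNReal.ofReal (1 / (4/9 * (1/9)^2)) := by
              calc ∫⁻ x, ug n (3 * x) * Kx a b x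
                  ≤ ∫⁻ x, ug n (3 * x) * ENNReal.ofReal (1 / (4/9 * (1/9)^2)) := by
                    apply lintegral_mono
                    intro x
                    show ug n (3 * x) * Kx a b x ≤ ug n (3 * x) * _
                    by_cases h1 : 1 < 3 * x
                    · rw [ug_zero n _ (Or.inr h1), zero_mul, zero_mul]
                    · push Not at h1
                      exact mul_le_mul' le_rfl (Kx_le (by norm_num) (hD x (by linarith)))
                _ = (∫⁻ x, ug n (3 * x)) * ENNReal.ofReal (1 / (4/9 * (1/9)^2)) := by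
                    rw [lintegral_mul_const' _ _ ENNReal.ofReal_ne_top]
                _ ≤ ((1/3) * 1) * ENNReal.ofReal (1 / (4/9 * (1/9)^2)) := by
                    rw [scal]
                    gcongr
                    exact ug_int_le n
                _ = _ := by rw [mul_one]
            have hgap : ∫⁻ x in Set.Icc (4/9:ℝ) (5/9), Kx a b x ≤ 21 := gap_le (fun x hx => by
              have := hD x hx.2
              norm_num at this ⊢
              exact this)
            exact le_trans (by gcongr) (num3 (t := Tn n (3 * a - 2) (3 * b - 2)) hgap le_rfl)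

end Pool.Agent.H433R3.Mx
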