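import Pool.Agent.H433R3.Mx2

set_option autoImplicit false
set_option linter.unusedSectionVars false
set_option linter.unusedVariables false

namespace Pool.Agent.H433R3.Mx

open MeasureTheory
open scoped ENNReal NNReal

/-- the maximal function -/
noncomputable def Mf (g : ℝ → ℝ≥0∞) (x : ℝ) : ℝ≥0∞ :=
  ⨆ a : ℝ, ⨆ b : ℝ, ⨆ (_ : a < x ∧ x < b), ENNReal.ofReal (b - a)⁻¹ * ∫⁻ t in Set.Ioo a b, g t

lemma le_Mf (g : ℝ → ℝ≥0∞) {a b x : ℝ} (h : a < x ∧ x < b) :
    ENNReal.ofReal (b - a)⁻¹ * ∫⁻ t in Set.Ioo a b, g t ≤ Mf g x :=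
  le_iSup_of_le a (le_iSup_of_le b (le_iSup_of_le h le_rfl))

lemma Mf_lower (n : ℕ) {x : ℝ} (h : -1 < x ∧ x < 2) : 1/3 ≤ Mf (sg n) x := by
  refine le_trans ?_ (le_Mf (sg n) h)
  have h1 : ∫⁻ t in Set.Ioo (-1:ℝ) 2, sg n t = 1 := by
    rw [← sg_int n]
    rw [← lintegral_indicator measurableSet_Ioo]
    apply lintegral_congr
    intro t
    by_cases ht : t ∈ Set.Ioo (-1:ℝ) 2
    · rw [Set.indicator_of_mem ht]
    · rw [Set.indicator_of_notMem ht, sg_zero]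
      by_contra hcon
      push Not at hcon
      exact ht ⟨by linarith [hcon.1], by linarith [hcon.2]⟩
  rw [h1, mul_one]
  have e1 : (1/3 : ℝ≥0∞) = ENNReal.ofReal (1/3) := by
    rw [ENNReal.ofReal_div_of_pos (by norm_num)]
    norm_num
  rw [e1]
  exact ENNReal.ofReal_le_ofReal (by norm_num)

/-- scaling of averages, general form -/
lemma Mf_aff (g h : ℝ → ℝ≥0∞) (x c : ℝ) (hgh : ∀ t, (3/2) * g (3 * t - c) ≤ h t) :
    (3/2) * Mf g (3 * x - c) ≤ Mf h x := by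
  unfold Mf
  simp only [ENNReal.mul_iSup]
  refine iSup_le fun a => iSup_le fun b => iSup_le fun hab => ?_
  have hab' : (a + c) / 3 < x ∧ x < (b + c) / 3 := ⟨by linarith [hab.1], by linarith [hab.2]⟩
  refine le_trans ?_ (le_Mf h hab')
  have hlt : 0 < b - a := by linarith [hab.1, hab.2]
  have h1 : ∫⁻ t in Set.Ioo ((a + c) / 3) ((b + c) / 3), (3/2) * g (3 * t - c) =
      (3/2) * ((1/3) * ∫⁻ t in Set.Ioo a b, g t) := by
    rw [lintegral_const_mul' _ _ (ENNReal.div_ne_top (by simp) (by simp))]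
    congr 1
    rw [← lintegral_indicator measurableSet_Ioo, ← lintegral_indicator measurableSet_Ioo]
    have h2 : ∫⁻ t, (Set.Ioo a b).indicator g t = ∫⁻ t, (Set.Ioo a b).indicator g (t - c) := by
      rw [lintegral_sub_right_eq_self]
    rw [h2, ← scal]
    apply lintegral_congr
    intro t
    by_cases ht : t ∈ Set.Ioo ((a + c) / 3) ((b + c) / 3)
    · have ht' : 3 * t - c ∈ Set.Ioo a b := ⟨by linarith [ht.1], by linarith [ht.2]⟩
      rw [Set.indicator_of_mem ht, Set.indicator_of_mem ht']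
    · have ht' : 3 * t - c ∉ Set.Ioo a b := by
        rintro ⟨h3, h4⟩
        exact ht ⟨by linarith, by linarith⟩
      rw [Set.indicator_of_notMem ht, Set.indicator_of_notMem ht']
  have h3 : ENNReal.ofReal ((b + c) / 3 - (a + c) / 3)⁻¹ = 3 * ENNReal.ofReal (b - a)⁻¹ := by
    have e : ((b + c) / 3 - (a + c) / 3)⁻¹ = 3 * (b - a)⁻¹ := by
      have e0 : (b + c) / 3 - (a + c) / 3 = (b - a) / 3 := by ring
      rw [e0, inv_div, div_eq_mul_inv]
    rw [e, ENNReal.ofReal_mul (by norm_num)]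
    congr 1
    rw [show (3:ℝ) = ((3:ℕ):ℝ) by norm_num, ENNReal.ofReal_natCast]; norm_num
  rw [h3]
  calc (3/2) * (ENNReal.ofReal (b - a)⁻¹ * ∫⁻ t in Set.Ioo a b, g t)
      = 3 * ENNReal.ofReal (b - a)⁻¹ * ((3/2) * ((1/3) * ∫⁻ t in Set.Ioo a b, g t)) := by
        have e : (3:ℝ≥0∞) * (1/3) = 1 := by
          rw [one_div, ENNReal.mul_inv_cancel (by norm_num) (by norm_num)]
        calc (3/2) * (ENNReal.ofReal (b - a)⁻¹ * ∫⁻ t in Set.Ioo a b, g t)
            = (3 * (1/3)) * ((3/2) * (ENNReal.ofReal (b - a)⁻¹ * ∫⁻ t in Set.Ioo a b, g t)) := by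
              rw [e, one_mul]
          _ = _ := by ring
    _ = 3 * ENNReal.ofReal (b - a)⁻¹ *
        ∫⁻ t in Set.Ioo ((a + c) / 3) ((b + c) / 3), (3/2) * g (3 * t - c) := by rw [h1]
    _ ≤ _ := by
        apply mul_le_mul' le_rfl
        exact lintegral_mono (fun t => hgh t)

/-- the energy -/
noncomputable def W (n : ℕ) : ℝ≥0∞ := ∫⁻ x, Mf (sg n) x ^ 2 * ug n x

lemma num4 (w : ℝ≥0∞) : (2/3 : ℝ≥0∞) * ((3/2)^2 * ((1/3) * w) + (3/2)^2 * ((1/3) * w)) = w := by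
  have h1 : (2/3 : ℝ≥0∞) * ((3/2)^2 * ((1/3) * w) + (3/2)^2 * ((1/3) * w)) =
      (((2/3) * (3/2)) * ((3/2) * (1/3 + 1/3))) * w := by ring
  have h2 : (2/3 : ℝ≥0∞) * (3/2) = 1 := by
    rw [← ENNReal.inv_div (by simp) (by simp)]
    exact ENNReal.inv_mul_cancel (by simp) (ENNReal.div_ne_top (by simp) (by simp))
  rw [h1, h2, c1, one_mul, one_mul]

lemma W_succ (n : ℕ) : ENNReal.ofReal (1/81) + W n ≤ W (n + 1) := by
  set M := Mf (sg (n + 1)) with hM
  have hsucc : ∀ x, ug (n + 1) x = (Set.Icc (4/9:ℝ) (5/9)).indicator (fun _ => 1) x +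
      (2/3) * (ug n (3 * x) + ug n (3 * x - 2)) := fun x => rfl
  have h1 : ∀ x, M x ^ 2 * ug (n + 1) x =
      (Set.Icc (4/9:ℝ) (5/9)).indicator (fun x => M x ^ 2) x +
        (2/3) * (M x ^ 2 * ug n (3 * x) + M x ^ 2 * ug n (3 * x - 2)) := by
    intro x
    rw [hsucc, mul_add]
    congr 1
    · by_cases h : x ∈ Set.Icc (4/9:ℝ) (5/9)
      · rw [Set.indicator_of_mem h, Set.indicator_of_mem h, mul_one]
      · rw [Set.indicator_of_notMem h, Set.indicator_of_notMem h, mul_zero]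
    · ring
  have hA : ENNReal.ofReal (1/81) ≤
      ∫⁻ x, (Set.Icc (4/9:ℝ) (5/9)).indicator (fun x => M x ^ 2) x := by
    rw [lintegral_indicator measurableSet_Icc]
    calc ENNReal.ofReal (1/81) = ∫⁻ x in Set.Icc (4/9:ℝ) (5/9), (1/3 : ℝ≥0∞) ^ 2 := by
          rw [lintegral_const, Measure.restrict_apply MeasurableSet.univ, Set.univ_inter,
            Real.volume_Icc]
          have e1 : (1/3 : ℝ≥0∞) = ENNReal.ofReal (1/3) := by
            rw [ENNReal.ofReal_div_of_pos (by norm_num)]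
            norm_num
          rw [e1, ← ENNReal.ofReal_pow (by norm_num), ← ENNReal.ofReal_mul (by norm_num)]
          norm_num
      _ ≤ _ := by
          apply setLIntegral_mono' measurableSet_Icc
          intro x hx
          exact pow_le_pow_left₀ bot_le (Mf_lower (n + 1) ⟨by linarith [hx.1], by linarith [hx.2]⟩) 2
  have hB : (3/2 : ℝ≥0∞) ^ 2 * ((1/3) * W n) ≤ ∫⁻ x, M x ^ 2 * ug n (3 * x) := by
    have h2 : (1/3) * W n = ∫⁻ x, (fun y => Mf (sg n) y ^ 2 * ug n y) (3 * x) := by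
      rw [scal (fun y => Mf (sg n) y ^ 2 * ug n y)]; rfl
    rw [h2, ← lintegral_const_mul' _ _ (by
      exact ENNReal.pow_ne_top (ENNReal.div_ne_top (by simp) (by simp)))]
    apply lintegral_mono
    intro x
    show (3/2 : ℝ≥0∞) ^ 2 * (Mf (sg n) (3 * x) ^ 2 * ug n (3 * x)) ≤ M x ^ 2 * ug n (3 * x)
    rw [← mul_assoc, ← mul_pow]
    apply mul_le_mul' _ le_rfl
    apply pow_le_pow_left₀ bot_le
    have := Mf_aff (sg n) (sg (n + 1)) x 0 (by
      intro t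
      rw [sub_zero]
      show _ ≤ (3/2) * (sg n (3 * t) + sg n (3 * t - 2))
      exact mul_le_mul' le_rfl le_self_add)
    rwa [sub_zero] at this
  have hC : (3/2 : ℝ≥0∞) ^ 2 * ((1/3) * W n) ≤ ∫⁻ x, M x ^ 2 * ug n (3 * x - 2) := by
    have h2 : (1/3) * W n = ∫⁻ x, (fun y => Mf (sg n) y ^ 2 * ug n y) (3 * x - 2) := by
      rw [scal2 (fun y => Mf (sg n) y ^ 2 * ug n y)]; rfl
    rw [h2, ← lintegral_const_mul' _ _ (by
      exact ENNReal.pow_ne_top (ENNReal.div_ne_top (by simp) (by simp)))]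
    apply lintegral_mono
    intro x
    show (3/2 : ℝ≥0∞) ^ 2 * (Mf (sg n) (3 * x - 2) ^ 2 * ug n (3 * x - 2)) ≤
      M x ^ 2 * ug n (3 * x - 2)
    rw [← mul_assoc, ← mul_pow]
    apply mul_le_mul' _ le_rfl
    apply pow_le_pow_left₀ bot_le
    exact Mf_aff (sg n) (sg (n + 1)) x 2 (by
      intro t
      show _ ≤ (3/2) * (sg n (3 * t) + sg n (3 * t - 2))
      exact mul_le_mul' le_rfl le_add_self)
  calc ENNReal.ofReal (1/81) + W n
      = ENNReal.ofReal (1/81) + (2/3) * ((3/2)^2 * ((1/3) * W n) + (3/2)^2 * ((1/3) * W n)) := by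
        rw [num4]
    _ ≤ (∫⁻ x, (Set.Icc (4/9:ℝ) (5/9)).indicator (fun x => M x ^ 2) x) +
        (2/3) * ((∫⁻ x, M x ^ 2 * ug n (3 * x)) + ∫⁻ x, M x ^ 2 * ug n (3 * x - 2)) := by
        gcongr
    _ ≤ (∫⁻ x, (Set.Icc (4/9:ℝ) (5/9)).indicator (fun x => M x ^ 2) x) +
        (2/3) * ∫⁻ x, (M x ^ 2 * ug n (3 * x) + M x ^ 2 * ug n (3 * x - 2)) := by
        gcongr
        exact le_lintegral_add _ _
    _ = (∫⁻ x, (Set.Icc (4/9:ℝ) (5/9)).indicator (fun x => M x ^ 2) x) +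
        ∫⁻ x, (2/3) * (M x ^ 2 * ug n (3 * x) + M x ^ 2 * ug n (3 * x - 2)) := by
        rw [lintegral_const_mul' _ _ (ENNReal.div_ne_top (by simp) (by simp))]
    _ ≤ ∫⁻ x, ((Set.Icc (4/9:ℝ) (5/9)).indicator (fun x => M x ^ 2) x +
        (2/3) * (M x ^ 2 * ug n (3 * x) + M x ^ 2 * ug n (3 * x - 2))) := le_lintegral_add _ _
    _ = W (n + 1) := by
        unfold W
        apply lintegral_congr
        intro x
        rw [← hM, h1]

lemma W_lower : ∀ n : ℕ, (n : ℝ≥0∞) * ENNReal.ofReal (1/81) ≤ W n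
  | 0 => by simp
  | n + 1 => by
      refine le_trans ?_ (W_succ n)
      have := W_lower n
      calc ((n + 1 : ℕ) : ℝ≥0∞) * ENNReal.ofReal (1/81)
          = ENNReal.ofReal (1/81) + n * ENNReal.ofReal (1/81) := by push_cast; ring
        _ ≤ _ := by gcongr

end Pool.Agent.H433R3.Mx
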