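import Pool.Agent.H433R3.Mx3

set_option autoImplicit false
set_option linter.unusedSectionVars false
set_option linter.unusedVariables false

namespace Pool.Agent.H433R3.Mx

open MeasureTheory
open scoped ENNReal NNReal

/-- the depth of the `n`-th copy -/
def N (n : ℕ) : ℕ := 16 ^ n

noncomputable def sig (x : ℝ) : ℝ≥0∞ := ∑' n : ℕ, (2⁻¹ : ℝ≥0∞) ^ n * sg (N n) (x - 3 * n)

noncomputable def U (x : ℝ) : ℝ≥0∞ := ∑' n : ℕ, (2⁻¹ : ℝ≥0∞) ^ n * ug (N n) (x - 3 * n)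

lemma sig_meas : Measurable sig := by
  apply Measurable.tsum
  intro n
  exact ((sg_meas _).comp (measurable_id.sub_const _)).const_mul _

lemma U_meas : Measurable U := by
  apply Measurable.tsum
  intro n
  exact ((ug_meas _).comp (measurable_id.sub_const _)).const_mul _

lemma S_shift (n : ℕ) (a b c : ℝ) : ∫⁻ x in Set.Icc a b, sg n (x - c) = S n (a - c) (b - c) := by
  unfold S
  rw [← lintegral_indicator measurableSet_Icc, ← lintegral_indicator measurableSet_Icc]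
  rw [← lintegral_sub_right_eq_self (fun x => (Set.Icc (a - c) (b - c)).indicator (sg n) x) c]
  apply lintegral_congr
  intro x
  by_cases h : x ∈ Set.Icc a b
  · have h' : x - c ∈ Set.Icc (a - c) (b - c) := ⟨by linarith [h.1], by linarith [h.2]⟩
    rw [Set.indicator_of_mem h, Set.indicator_of_mem h']
  · have h' : x - c ∉ Set.Icc (a - c) (b - c) := by
      rintro ⟨h1, h2⟩
      exact h ⟨by linarith, by linarith⟩
    rw [Set.indicator_of_notMem h, Set.indicator_of_notMem h']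

lemma T_shift (n : ℕ) (a b c : ℝ) : ∫⁻ x, ug n (x - c) * Kx a b x = Tn n (a - c) (b - c) := by
  unfold Tn
  rw [← lintegral_sub_right_eq_self (fun x => ug n x * Kx (a - c) (b - c) x) c]
  apply lintegral_congr
  intro x
  congr 1
  unfold Kx D
  congr 3 <;> ring

lemma sig_int (a b : ℝ) : ∫⁻ x in Set.Icc a b, sig x =
    ∑' n : ℕ, (2⁻¹ : ℝ≥0∞) ^ n * S (N n) (a - 3 * n) (b - 3 * n) := by
  unfold sig
  rw [lintegral_tsum]
  · apply tsum_congr
    intro n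
    rw [lintegral_const_mul' _ _ (ENNReal.pow_ne_top (by simp)), S_shift]
  · intro n
    exact (((sg_meas _).comp (measurable_id.sub_const _)).const_mul _).aemeasurable

lemma U_int (a b : ℝ) : ∫⁻ x, U x * Kx a b x =
    ∑' n : ℕ, (2⁻¹ : ℝ≥0∞) ^ n * Tn (N n) (a - 3 * n) (b - 3 * n) := by
  have h1 : ∀ x, U x * Kx a b x =
      ∑' n : ℕ, (2⁻¹ : ℝ≥0∞) ^ n * (ug (N n) (x - 3 * n) * Kx a b x) := by
    intro x
    unfold U
    rw [← ENNReal.tsum_mul_right]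
    apply tsum_congr
    intro n
    rw [mul_assoc]
  rw [lintegral_congr h1, lintegral_tsum]
  · apply tsum_congr
    intro n
    rw [lintegral_const_mul' _ _ (ENNReal.pow_ne_top (by simp)), T_shift]
  · intro n
    exact ((((ug_meas _).comp (measurable_id.sub_const _)).mul (Kx_meas a b)).const_mul _).aemeasurable

lemma cross (m n : ℕ) {a b : ℝ} (hab : a < b) :
    Tn (N m) (a - 3 * m) (b - 3 * m) * S (N n) (a - 3 * n) (b - 3 * n) ≤ 200 := by
  by_cases hmn : m = n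
  · subst hmn
    have := psi (N m) (a - 3 * m) (b - 3 * m) (by linarith)
    rw [mul_comm]
    exact le_self_add.trans this
  · by_cases h : b - 3 * n < 0 ∨ 1 < a - 3 * n
    · rw [S_zero h, mul_zero]; exact bot_le
    · push Not at h
      have hy : a - 3 * m ≤ max a (3 * n) - 3 * m ∧ max a (3 * n) - 3 * m ≤ b - 3 * m := by
        constructor
        · linarith [le_max_left a (3 * n : ℝ)]
        · have : max a (3 * n : ℝ) ≤ b := max_le hab.le (by linarith [h.1])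
          linarith
      have hy1 : (3 * n : ℝ) ≤ max a (3 * n) := le_max_right _ _
      have hy2 : max a (3 * n : ℝ) ≤ 3 * n + 1 := max_le (by linarith [h.2]) (by linarith)
      have hT : Tn (N m) (a - 3 * m) (b - 3 * m) ≤ ENNReal.ofReal (1 / (4/9 * 2^2)) := by
        apply far_le (by norm_num) (ug_int_le _)
        intro x hx
        apply D_far (by norm_num) (by linarith) hy
        have hx01 : 0 ≤ x ∧ x ≤ 1 := by
          by_contra hcon
          apply hx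
          apply ug_zero
          by_cases h0 : x < 0
          · exact Or.inl h0
          · right
            push Not at h0
            by_contra h1
            push Not at h1
            exact hcon ⟨h0, h1⟩
        rcases lt_or_gt_of_ne hmn with h3 | h3
        · have h4 : (m : ℝ) + 1 ≤ n := by exact_mod_cast h3
          rw [abs_of_nonpos (by linarith)]
          linarith
        · have h4 : (n : ℝ) + 1 ≤ m := by exact_mod_cast h3
          rw [abs_of_nonneg (by linarith)]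
          linarith
      calc Tn (N m) (a - 3 * m) (b - 3 * m) * S (N n) (a - 3 * n) (b - 3 * n)
          ≤ ENNReal.ofReal (1 / (4/9 * 2^2)) * 1 := mul_le_mul' hT (S_le_one _ _ _)
        _ ≤ 200 := by
          rw [mul_one]
          rw [show (200:ℝ≥0∞) = ENNReal.ofReal 200 by
            rw [show (200:ℝ) = ((200:ℕ):ℝ) by norm_num, ENNReal.ofReal_natCast]; norm_num]
          exact ENNReal.ofReal_le_ofReal (by norm_num)

lemma geom : ∑' n : ℕ, (2⁻¹ : ℝ≥0∞) ^ n = 2 := by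
  rw [ENNReal.tsum_geometric, ENNReal.one_sub_inv_two, inv_inv]

lemma condP {a b : ℝ} (hab : a < b) :
    (∫⁻ x, U x * Kx a b x) * ∫⁻ x in Set.Icc a b, sig x ≤ 800 := by
  rw [U_int, sig_int, ← ENNReal.tsum_mul_right]
  calc ∑' m : ℕ, (2⁻¹ : ℝ≥0∞) ^ m * Tn (N m) (a - 3 * m) (b - 3 * m) *
        ∑' n : ℕ, (2⁻¹ : ℝ≥0∞) ^ n * S (N n) (a - 3 * n) (b - 3 * n)
      = ∑' m : ℕ, ∑' n : ℕ, (2⁻¹ : ℝ≥0∞) ^ m * (2⁻¹ : ℝ≥0∞) ^ n *
          (Tn (N m) (a - 3 * m) (b - 3 * m) * S (N n) (a - 3 * n) (b - 3 * n)) := by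
        apply tsum_congr
        intro m
        rw [← ENNReal.tsum_mul_left]
        apply tsum_congr
        intro n
        ring
    _ ≤ ∑' m : ℕ, ∑' n : ℕ, (2⁻¹ : ℝ≥0∞) ^ m * (2⁻¹ : ℝ≥0∞) ^ n * 200 := by
        apply ENNReal.tsum_le_tsum
        intro m
        apply ENNReal.tsum_le_tsum
        intro n
        exact mul_le_mul' le_rfl (cross m n hab)
    _ = 800 := by
        simp_rw [ENNReal.tsum_mul_right, ENNReal.tsum_mul_left, geom]
        rw [ENNReal.tsum_mul_right, geom]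
        norm_num

/-- the test functions -/
noncomputable def tf (n : ℕ) (x : ℝ) : ℝ := ((2⁻¹ : ℝ≥0∞) ^ n * sg (N n) (x - 3 * n)).toReal

lemma tf_meas (n : ℕ) : Measurable (tf n) :=
  (((sg_meas _).comp (measurable_id.sub_const _)).const_mul _).ennreal_toReal

lemma tf_enorm (n : ℕ) (x : ℝ) : ‖tf n x‖ₑ = (2⁻¹ : ℝ≥0∞) ^ n * sg (N n) (x - 3 * n) := by
  unfold tf
  rw [← ofReal_norm, Real.norm_of_nonneg ENNReal.toReal_nonneg, ENNReal.ofReal_toReal]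
  exact ENNReal.mul_ne_top (ENNReal.pow_ne_top (by simp)) (sg_fin _ _)

lemma tf_le (n : ℕ) (x : ℝ) : ‖tf n x‖ₑ ≤ sig x := by
  rw [tf_enorm]
  exact ENNReal.le_tsum (f := fun n : ℕ => (2⁻¹ : ℝ≥0∞) ^ n * sg (N n) (x - 3 * n)) n

lemma rhs_le (n : ℕ) : ∫⁻ x, ‖tf n x‖ₑ ^ 2 * (sig x)⁻¹ ≤ (2⁻¹ : ℝ≥0∞) ^ n := by
  calc ∫⁻ x, ‖tf n x‖ₑ ^ 2 * (sig x)⁻¹ ≤ ∫⁻ x, ‖tf n x‖ₑ := by
        apply lintegral_mono
        intro x
        show ‖tf n x‖ₑ ^ 2 * (sig x)⁻¹ ≤ ‖tf n x‖ₑ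
        calc ‖tf n x‖ₑ ^ 2 * (sig x)⁻¹ = ‖tf n x‖ₑ * (‖tf n x‖ₑ * (sig x)⁻¹) := by ring
          _ ≤ ‖tf n x‖ₑ * (sig x * (sig x)⁻¹) := by gcongr; exact tf_le n x
          _ ≤ ‖tf n x‖ₑ * 1 := by gcongr; exact ENNReal.mul_inv_le_one _
          _ = _ := mul_one _
    _ = (2⁻¹ : ℝ≥0∞) ^ n := by
        simp_rw [tf_enorm]
        rw [lintegral_const_mul' _ _ (ENNReal.pow_ne_top (by simp)),
          lintegral_sub_right_eq_self (fun x => sg (N n) x), sg_int, mul_one]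

lemma Mf_shift (g : ℝ → ℝ≥0∞) (k c : ℝ) (r : ℝ≥0∞) (hr : r ≠ ∞) (x : ℝ) :
    r * Mf g (x - c) ≤ Mf (fun t => r * g (t - c)) x := by
  unfold Mf
  simp only [ENNReal.mul_iSup]
  refine iSup_le fun a => iSup_le fun b => iSup_le fun hab => ?_
  have hab' : a + c < x ∧ x < b + c := ⟨by linarith [hab.1], by linarith [hab.2]⟩
  refine le_trans (le_of_eq ?_) (le_Mf (fun t => r * g (t - c)) hab')
  have h1 : ∫⁻ t in Set.Ioo (a + c) (b + c), r * g (t - c) = r * ∫⁻ t in Set.Ioo a b, g t := by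
    rw [lintegral_const_mul' _ _ hr]
    congr 1
    rw [← lintegral_indicator measurableSet_Ioo, ← lintegral_indicator measurableSet_Ioo]
    rw [← lintegral_sub_right_eq_self (fun t => (Set.Ioo a b).indicator g t) c]
    apply lintegral_congr
    intro t
    by_cases ht : t ∈ Set.Ioo (a + c) (b + c)
    · have ht' : t - c ∈ Set.Ioo a b := ⟨by linarith [ht.1], by linarith [ht.2]⟩
      rw [Set.indicator_of_mem ht, Set.indicator_of_mem ht']
    · have ht' : t - c ∉ Set.Ioo a b := by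
        rintro ⟨h3, h4⟩
        exact ht ⟨by linarith, by linarith⟩
      rw [Set.indicator_of_notMem ht, Set.indicator_of_notMem ht']
  rw [h1, show b + c - (a + c) = b - a by ring]
  ring

lemma lhs_ge (n : ℕ) : (2⁻¹ : ℝ≥0∞) ^ n * ((2⁻¹ : ℝ≥0∞) ^ n) ^ 2 * W (N n) ≤
    ∫⁻ x, Mf (fun t => ‖tf n t‖ₑ) x ^ 2 * U x := by
  have h0 : (2⁻¹ : ℝ≥0∞) ^ n ≠ ∞ := ENNReal.pow_ne_top (by simp)
  have h1 : W (N n) = ∫⁻ x, (fun y => Mf (sg (N n)) y ^ 2 * ug (N n) y) (x - 3 * n) := by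
    rw [lintegral_sub_right_eq_self (fun y => Mf (sg (N n)) y ^ 2 * ug (N n) y)]; rfl
  rw [h1, ← lintegral_const_mul' _ _ (ENNReal.mul_ne_top h0 (ENNReal.pow_ne_top h0))]
  apply lintegral_mono
  intro x
  show (2⁻¹ : ℝ≥0∞) ^ n * ((2⁻¹ : ℝ≥0∞) ^ n) ^ 2 *
    (Mf (sg (N n)) (x - 3 * n) ^ 2 * ug (N n) (x - 3 * n)) ≤ Mf (fun t => ‖tf n t‖ₑ) x ^ 2 * U x
  have h2 : (2⁻¹ : ℝ≥0∞) ^ n * Mf (sg (N n)) (x - 3 * n) ≤ Mf (fun t => ‖tf n t‖ₑ) x := by
    have := Mf_shift (sg (N n)) 0 (3 * n) ((2⁻¹ : ℝ≥0∞) ^ n) h0 x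
    have e : (fun t => ‖tf n t‖ₑ) = fun t => (2⁻¹ : ℝ≥0∞) ^ n * sg (N n) (t - 3 * n) := by
      funext t
      exact tf_enorm n t
    rw [e]
    exact this
  have h3 : (2⁻¹ : ℝ≥0∞) ^ n * ug (N n) (x - 3 * n) ≤ U x :=
    ENNReal.le_tsum (f := fun n : ℕ => (2⁻¹ : ℝ≥0∞) ^ n * ug (N n) (x - 3 * n)) n
  calc (2⁻¹ : ℝ≥0∞) ^ n * ((2⁻¹ : ℝ≥0∞) ^ n) ^ 2 *
        (Mf (sg (N n)) (x - 3 * n) ^ 2 * ug (N n) (x - 3 * n))
      = ((2⁻¹ : ℝ≥0∞) ^ n * Mf (sg (N n)) (x - 3 * n)) ^ 2 *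
        ((2⁻¹ : ℝ≥0∞) ^ n * ug (N n) (x - 3 * n)) := by ring
    _ ≤ _ := mul_le_mul' (pow_le_pow_left₀ bot_le h2 2) h3

lemma final (C : ℝ≥0) (h : ∀ n : ℕ, ∫⁻ x, Mf (fun t => ‖tf n t‖ₑ) x ^ 2 * U x ≤
    C * ∫⁻ x, ‖tf n x‖ₑ ^ 2 * (sig x)⁻¹) : False := by
  have h1 : ∀ n : ℕ, (2:ℝ≥0∞) ^ n * ENNReal.ofReal (1/81) ≤ C * (2⁻¹ : ℝ≥0∞) ^ n := by
    intro n
    refine le_trans ?_ ((lhs_ge n).trans ((h n).trans (mul_le_mul' le_rfl (rhs_le n))))
    have h2 := W_lower (N n)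
    refine le_trans (le_of_eq ?_) (mul_le_mul' le_rfl h2)
    unfold N
    push_cast
    have e : ((16:ℝ≥0∞)) ^ n = (2^n) * (2^n * (2^n * 2^n)) := by
      rw [← mul_pow, ← mul_pow, ← mul_pow]; norm_num
    have e2 : (2⁻¹ : ℝ≥0∞) ^ n * 2 ^ n = 1 := by
      rw [← mul_pow, ENNReal.inv_mul_cancel (by norm_num) (by norm_num), one_pow]
    rw [e]
    calc (2:ℝ≥0∞) ^ n * ENNReal.ofReal (1/81)
        = (1 * (1 * 1)) * ((2:ℝ≥0∞) ^ n * ENNReal.ofReal (1/81)) := by ring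
      _ = (((2⁻¹ : ℝ≥0∞) ^ n * 2 ^ n) * (((2⁻¹ : ℝ≥0∞) ^ n * 2 ^ n) *
          ((2⁻¹ : ℝ≥0∞) ^ n * 2 ^ n))) * ((2:ℝ≥0∞) ^ n * ENNReal.ofReal (1/81)) := by rw [e2]
      _ = _ := by ring
  have h2 : ∀ n : ℕ, (2:ℝ≥0∞) ^ n * ENNReal.ofReal (1/81) ≤ C := by
    intro n
    refine (h1 n).trans ?_
    calc (C:ℝ≥0∞) * (2⁻¹ : ℝ≥0∞) ^ n ≤ C * 1 := by
          gcongr
          exact pow_le_one₀ bot_le (by rw [ENNReal.inv_le_one]; norm_num)
      _ = C := mul_one _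
  have h3 : ∀ n : ℕ, (n : ℝ≥0∞) ≤ C * 81 := by
    intro n
    have h4 : (n : ℝ≥0∞) ≤ 2 ^ n := by exact_mod_cast (Nat.lt_two_pow_self (n := n)).le
    have h5 : ENNReal.ofReal (1/81) * 81 = 1 := by
      rw [show (81:ℝ≥0∞) = ENNReal.ofReal 81 by
        rw [show (81:ℝ) = ((81:ℕ):ℝ) by norm_num, ENNReal.ofReal_natCast]; norm_num,
        ← ENNReal.ofReal_mul (by norm_num)]
      norm_num
    calc (n : ℝ≥0∞) ≤ 2 ^ n := h4
      _ = (2:ℝ≥0∞) ^ n * ENNReal.ofReal (1/81) * 81 := by rw [mul_assoc, h5, mul_one]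
      _ ≤ C * 81 := by gcongr; exact h2 n
  obtain ⟨n, hn⟩ := exists_nat_gt (C * 81)
  have h4 := h3 n
  have h5 : ((C * 81 : ℝ≥0) : ℝ≥0∞) < n := by exact_mod_cast hn
  push_cast at h5
  exact absurd h4 (not_le.2 h5)

end Pool.Agent.H433R3.Mx
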