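import Pool.Agent.H433R3.Mx4

set_option autoImplicit false
set_option linter.unusedSectionVars false
set_option linter.unusedVariables false

namespace Pool.Agent.H433R3.Mx

open MeasureTheory
open scoped ENNReal NNReal

lemma ug_le_one : ∀ n (x : ℝ), ug n x ≤ 1
  | 0, x => bot_le
  | n + 1, x => by
      unfold ug
      show (Set.Icc (4/9:ℝ) (5/9)).indicator (fun _ => 1) x +
        (2/3) * (ug n (3 * x) + ug n (3 * x - 2)) ≤ 1
      by_cases h : x ∈ Set.Icc (4/9:ℝ) (5/9)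
      · rw [Set.indicator_of_mem h, ug_zero n _ (Or.inr (by linarith [h.1])),
          ug_zero n (3 * x - 2) (Or.inl (by linarith [h.2]))]
        simp
      · rw [Set.indicator_of_notMem h, zero_add]
        have h23 : (2/3 : ℝ≥0∞) ≤ 1 := by
          apply ENNReal.div_le_of_le_mul
          norm_num
        by_cases h1 : x ≤ 1/2
        · rw [ug_zero n (3 * x - 2) (Or.inl (by linarith)), add_zero]
          calc (2/3 : ℝ≥0∞) * ug n (3 * x) ≤ 1 * 1 := mul_le_mul' h23 (ug_le_one n _)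
            _ = 1 := one_mul _
        · push Not at h1
          rw [ug_zero n (3 * x) (Or.inr (by linarith)), zero_add]
          calc (2/3 : ℝ≥0∞) * ug n (3 * x - 2) ≤ 1 * 1 := mul_le_mul' h23 (ug_le_one n _)
            _ = 1 := one_mul _

lemma U_le (x : ℝ) : U x ≤ 2 := by
  unfold U
  refine le_trans ?_ (le_of_eq geom)
  apply ENNReal.tsum_le_tsum
  intro n
  calc (2⁻¹ : ℝ≥0∞) ^ n * ug (N n) (x - 3 * n) ≤ (2⁻¹ : ℝ≥0∞) ^ n * 1 :=
        mul_le_mul' le_rfl (ug_le_one _ _)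
    _ = _ := mul_one _

lemma cauchy : ∫⁻ x : ℝ, ENNReal.ofReal ((1 + x ^ 2)⁻¹) ≤ 4 := by
  rw [← ofReal_integral_eq_lintegral_ofReal integrable_inv_one_add_sq
    (Filter.Eventually.of_forall fun x => by positivity), integral_univ_inv_one_add_sq]
  rw [show (4:ℝ≥0∞) = ENNReal.ofReal 4 by
    rw [show (4:ℝ) = ((4:ℕ):ℝ) by norm_num, ENNReal.ofReal_natCast]; norm_num]
  exact ENNReal.ofReal_le_ofReal Real.pi_le_four

lemma Kx_int {a b : ℝ} (h : a < b) : ∫⁻ x, Kx a b x ≤ 4 * ENNReal.ofReal (1 / (b - a)) := by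
  have hL : 0 < b - a := by linarith
  set L := b - a with hLd
  have hLi : L⁻¹ ≠ 0 := by positivity
  have h1 : ∀ x, Kx a b x = ENNReal.ofReal (1 / L ^ 2) *
      (fun y => ENNReal.ofReal ((1 + (L⁻¹ * y) ^ 2)⁻¹)) (x - (a + b) / 2) := by
    intro x
    show (ENNReal.ofReal (D a b x))⁻¹ = ENNReal.ofReal (1 / L ^ 2) *
      ENNReal.ofReal ((1 + (L⁻¹ * (x - (a + b) / 2)) ^ 2)⁻¹)
    rw [← ENNReal.ofReal_inv_of_pos (D_pos h x), ← ENNReal.ofReal_mul (by positivity)]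
    congr 1
    unfold D
    rw [← hLd, one_div, ← mul_inv]
    congr 1
    field_simp
  have h2 := lintegral_map_equiv (μ := (volume : Measure ℝ))
    (fun y => ENNReal.ofReal ((1 + y ^ 2)⁻¹))
    (Homeomorph.mulLeft₀ (L⁻¹) hLi).toMeasurableEquiv
  have h3 : Measure.map ((Homeomorph.mulLeft₀ (L⁻¹) hLi).toMeasurableEquiv)
      (volume : Measure ℝ) = ENNReal.ofReal |(L⁻¹)⁻¹| • volume := Real.map_volume_mul_left hLi
  rw [h3, lintegral_smul_measure] at h2
  have h4 : ∫⁻ y, ENNReal.ofReal ((1 + (L⁻¹ * y) ^ 2)⁻¹) =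
      ENNReal.ofReal L * ∫⁻ y : ℝ, ENNReal.ofReal ((1 + y ^ 2)⁻¹) := by
    have h5 : ∫⁻ y, ENNReal.ofReal ((1 + (L⁻¹ * y) ^ 2)⁻¹) =
      ∫⁻ a, ENNReal.ofReal ((1 + ((Homeomorph.mulLeft₀ (L⁻¹) hLi).toMeasurableEquiv a) ^ 2)⁻¹) :=
      rfl
    rw [h5, ← h2, inv_inv, abs_of_pos hL]
    rfl
  rw [lintegral_congr h1, lintegral_const_mul' _ _ ENNReal.ofReal_ne_top,
    lintegral_sub_right_eq_self (fun y => ENNReal.ofReal ((1 + (L⁻¹ * y) ^ 2)⁻¹)), h4, ← mul_assoc,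
    ← ENNReal.ofReal_mul (by positivity)]
  have e : 1 / L ^ 2 * L = 1 / L := by field_simp
  rw [e, mul_comm]
  exact mul_le_mul' cauchy le_rfl

/-- the finite valued weight -/
noncomputable def V (x : ℝ) : ℝ≥0∞ := (sig x + 1)⁻¹

lemma V_meas : Measurable V := (sig_meas.add_const 1).inv

/-- `V` is finite (it is at most `1`). -/
lemma V_le (x : ℝ) : V x ≤ 1 := by
  unfold V
  rw [ENNReal.inv_le_one]
  exact le_add_self

lemma condP' {a b : ℝ} (hab : a < b) :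
    (∫⁻ x, U x * Kx a b x) * ∫⁻ x in Set.Icc a b, (sig x + 1) ≤ 1000 := by
  have hL : 0 < b - a := by linarith
  rw [lintegral_add_right _ measurable_const, mul_add]
  have h1 : ∫⁻ x in Set.Icc a b, (1:ℝ≥0∞) = ENNReal.ofReal (b - a) := by
    rw [lintegral_const, Measure.restrict_apply MeasurableSet.univ, Set.univ_inter,
      Real.volume_Icc, one_mul]
  have h2 : ∫⁻ x, U x * Kx a b x ≤ 2 * (4 * ENNReal.ofReal (1 / (b - a))) := by
    calc ∫⁻ x, U x * Kx a b x ≤ ∫⁻ x, 2 * Kx a b x := by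
          apply lintegral_mono
          intro x
          exact mul_le_mul' (U_le x) le_rfl
      _ = 2 * ∫⁻ x, Kx a b x := lintegral_const_mul' _ _ (by simp)
      _ ≤ _ := mul_le_mul' le_rfl (Kx_int hab)
  calc (∫⁻ x, U x * Kx a b x) * (∫⁻ x in Set.Icc a b, sig x) +
        (∫⁻ x, U x * Kx a b x) * ∫⁻ x in Set.Icc a b, (1:ℝ≥0∞)
      ≤ 800 + 2 * (4 * ENNReal.ofReal (1 / (b - a))) * ENNReal.ofReal (b - a) := by
        rw [h1]
        exact add_le_add (condP hab) (mul_le_mul' h2 le_rfl)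
    _ = 808 := by
        rw [mul_assoc, mul_assoc, ← ENNReal.ofReal_mul (by positivity),
          one_div_mul_cancel hL.ne', ENNReal.ofReal_one]
        norm_num
    _ ≤ 1000 := by norm_num

lemma final' (C : ℝ≥0) (h : ∀ n : ℕ, ∫⁻ x, Mf (fun t => ‖tf n t‖ₑ) x ^ 2 * U x ≤
    C * ∫⁻ x, ‖tf n x‖ₑ ^ 2 * V x) : False := by
  apply final C
  intro n
  refine (h n).trans ?_
  apply mul_le_mul' le_rfl
  apply lintegral_mono
  intro x
  apply mul_le_mul' le_rfl
  unfold V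
  exact ENNReal.inv_le_inv.2 le_self_add

end Pool.Agent.H433R3.Mx
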