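import Mathlib

set_option autoImplicit false
open MeasureTheory

namespace Pool.Agent.H433R3.Rioul

noncomputable def om : ℂ := Complex.exp (2 * Real.pi * Complex.I / 3)

theorem om_prim : IsPrimitiveRoot om 3 := by
  have := Complex.isPrimitiveRoot_exp 3 (by norm_num)
  unfold om
  simpa using this

theorem om_ne : om ≠ 0 := Complex.exp_ne_zero _

theorem om_cube : om ^ 3 = 1 := om_prim.pow_eq_one

theorem om_sum : 1 + om + om ^ 2 = 0 := by
  have h := om_prim.geom_sum_eq_zero (by norm_num)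
  simpa [Finset.sum_range_succ] using h

/-- the stretched hat function -/
noncomputable def hat (t : ℝ) : ℝ := max (1 - |t|) 0

theorem hat_a {t : ℝ} (h0 : 0 ≤ t) (h1 : t ≤ 1) : hat t = 1 - t := by
  unfold hat; rw [abs_of_nonneg h0, max_eq_left (by linarith)]

theorem hat_b {t : ℝ} (h0 : t ≤ 0) (h1 : -1 ≤ t) : hat t = 1 + t := by
  unfold hat; rw [abs_of_nonpos h0, max_eq_left (by linarith)]; ring

theorem hat_c {t : ℝ} (h0 : 1 ≤ t) : hat t = 0 := by
  unfold hat; rw [abs_of_nonneg (by linarith), max_eq_right (by linarith)]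

theorem hat_d {t : ℝ} (h0 : t ≤ -1) : hat t = 0 := by
  unfold hat; rw [abs_of_nonpos (by linarith), max_eq_right (by linarith)]

theorem hat_refine (s : ℝ) : hat (s / 2) = 1/2 * hat (s - 1) + hat s + 1/2 * hat (s + 1) := by
  rcases le_total s (-2) with h | h
  · rw [hat_d (by linarith : s / 2 ≤ -1), hat_d (by linarith : s - 1 ≤ -1),
      hat_d (by linarith : s ≤ -1), hat_d (by linarith : s + 1 ≤ -1)]; ring
  rcases le_total s (-1) with h2 | h2
  · rw [hat_b (by linarith : s / 2 ≤ 0) (by linarith), hat_d (by linarith : s - 1 ≤ -1),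
      hat_d (by linarith : s ≤ -1), hat_b (by linarith : s + 1 ≤ 0) (by linarith)]; ring
  rcases le_total s 0 with h3 | h3
  · rw [hat_b (by linarith : s / 2 ≤ 0) (by linarith), hat_d (by linarith : s - 1 ≤ -1),
      hat_b (by linarith : s ≤ 0) (by linarith), hat_a (by linarith : 0 ≤ s + 1) (by linarith)]; ring
  rcases le_total s 1 with h4 | h4
  · rw [hat_a (by linarith : 0 ≤ s / 2) (by linarith), hat_b (by linarith : s - 1 ≤ 0) (by linarith),
      hat_a (by linarith : 0 ≤ s) (by linarith), hat_c (by linarith : 1 ≤ s + 1)]; ring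
  rcases le_total s 2 with h5 | h5
  · rw [hat_a (by linarith : 0 ≤ s / 2) (by linarith), hat_a (by linarith : 0 ≤ s - 1) (by linarith),
      hat_c (by linarith : 1 ≤ s), hat_c (by linarith : 1 ≤ s + 1)]; ring
  · rw [hat_c (by linarith : 1 ≤ s / 2), hat_c (by linarith : 1 ≤ s - 1),
      hat_c (by linarith : 1 ≤ s), hat_c (by linarith : 1 ≤ s + 1)]; ring

noncomputable def phi0 (t : ℝ) : ℝ := hat (t / 3)

noncomputable def d0 : ℤ →₀ ℝ :=
  Finsupp.single 3 (1/2) + Finsupp.single 0 1 + Finsupp.single (-3) (1/2)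

theorem d0_sum {M : Type*} [AddCommMonoid M] (g : ℤ → ℝ → M) (h0 : ∀ k, g k 0 = 0)
    (ha : ∀ k a b, g k (a + b) = g k a + g k b) :
    d0.sum g = g 3 (1/2) + g 0 1 + g (-3) (1/2) := by
  unfold d0
  rw [Finsupp.sum_add_index' h0 ha, Finsupp.sum_add_index' h0 ha,
    Finsupp.sum_single_index (h0 _), Finsupp.sum_single_index (h0 _),
    Finsupp.sum_single_index (h0 _)]

structure Good (N : ℕ) (φ : ℝ → ℝ) (d : ℤ →₀ ℝ) (R : ℕ) : Prop where
  smooth : ContDiff ℝ N φ
  supp : ∀ t, (R : ℝ) < |t| → φ t = 0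
  nonneg : ∀ t, 0 ≤ φ t
  pos : ∃ t, 0 < φ t
  refine' : ∀ t, φ (t / 2) = d.sum fun k c => c * φ (t - k)
  sym : ∀ z : ℂ, z ≠ 0 → (d.sum fun k c => (c : ℂ) * z ^ k) = 0 → z ^ 3 = -1
  zak : ∀ t, ∑' k : ℤ, (φ (t + k) : ℂ) * om ^ k = 0

theorem phi0_val (r : ℝ) (j : ℤ) (h0 : 0 ≤ r + j) (h1 : r + j ≤ 3) : phi0 (r + j) = 1 - (r + j) / 3 := by
  unfold phi0 hat
  rw [abs_of_nonneg (by linarith), max_eq_left (by linarith)]

theorem phi0_val' (r : ℝ) (j : ℤ) (h0 : r + j ≤ 0) (h1 : -3 ≤ r + j) : phi0 (r + j) = 1 + (r + j) / 3 := by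
  unfold phi0 hat
  rw [abs_of_nonpos (by linarith), max_eq_left (by linarith)]
  ring

theorem phi0_supp (t : ℝ) (h : 3 ≤ |t|) : phi0 t = 0 := by
  unfold phi0 hat
  rw [abs_div, abs_of_pos (show (0:ℝ) < 3 by norm_num), max_eq_right]
  have : 1 ≤ |t| / 3 := by rw [le_div_iff₀ (by norm_num)]; linarith
  linarith

theorem zak0 (t : ℝ) : ∑' k : ℤ, (phi0 (t + k) : ℂ) * om ^ k = 0 := by
  set m := ⌊t⌋ with hm
  set r := t - m with hr
  have hr0 : 0 ≤ r := by have := Int.floor_le t; rw [hr]; linarith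
  have hr1 : r < 1 := by have := Int.lt_floor_add_one t; rw [hr]; linarith
  have e1 : ∑' k : ℤ, (phi0 (t + k) : ℂ) * om ^ k = ∑' j : ℤ, (phi0 (r + j) : ℂ) * om ^ (j - m) := by
    rw [← (Equiv.subRight m).tsum_eq (fun k : ℤ => (phi0 (t + k) : ℂ) * om ^ k)]
    apply tsum_congr
    intro j
    simp only [Equiv.subRight_apply]
    congr 3
    push_cast
    rw [hr]; ring
  rw [e1]
  have e2 : ∀ j : ℤ, (phi0 (r + j) : ℂ) * om ^ (j - m) = ((phi0 (r + j) : ℂ) * om ^ j) * om ^ (-m) := by
    intro j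
    rw [sub_eq_add_neg, zpow_add₀ om_ne]; ring
  simp_rw [e2]
  rw [tsum_mul_right, tsum_eq_sum (s := ({-3, -2, -1, 0, 1, 2} : Finset ℤ))]
  · rw [Finset.sum_insert (by decide), Finset.sum_insert (by decide), Finset.sum_insert (by decide),
      Finset.sum_insert (by decide), Finset.sum_insert (by decide), Finset.sum_singleton]
    rw [phi0_val' r (-3) (by push_cast; linarith) (by push_cast; linarith),
      phi0_val' r (-2) (by push_cast; linarith) (by push_cast; linarith),
      phi0_val' r (-1) (by push_cast; linarith) (by push_cast; linarith),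
      phi0_val r 0 (by push_cast; linarith) (by push_cast; linarith),
      phi0_val r 1 (by push_cast; linarith) (by push_cast; linarith),
      phi0_val r 2 (by push_cast; linarith) (by push_cast; linarith)]
    have z3 : om ^ (-3 : ℤ) = 1 := by
      rw [zpow_neg]; rw [show (3:ℤ) = ((3:ℕ):ℤ) by rfl, zpow_natCast, om_cube, inv_one]
    have z2 : om ^ (-2 : ℤ) = om := by
      rw [show (-2:ℤ) = -3 + 1 by norm_num, zpow_add₀ om_ne, z3, zpow_one, one_mul]
    have z1 : om ^ (-1 : ℤ) = om ^ 2 := by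
      rw [show (-1:ℤ) = -3 + 2 by norm_num, zpow_add₀ om_ne, z3, one_mul]; norm_cast
    have z2' : om ^ (2 : ℤ) = om ^ 2 := by norm_cast
    rw [z3, z2, z1, zpow_zero, zpow_one, z2']
    have h := om_sum
    push_cast
    linear_combination (om ^ (-m)) * h
  · intro j hj
    simp only [Finset.mem_insert, Finset.mem_singleton, not_or] at hj
    rw [phi0_supp]
    · simp
    · rcases le_or_gt j (-4) with h | h
      · have : (j:ℝ) ≤ -4 := by exact_mod_cast h
        rw [abs_of_neg (by linarith)]; linarith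
      · have : 3 ≤ j := by omega
        have : (3:ℝ) ≤ j := by exact_mod_cast this
        rw [abs_of_nonneg (by linarith)]; linarith

theorem good0 : Good 0 phi0 d0 3 where
  smooth := by
    rw [Nat.cast_zero, contDiff_zero]
    unfold phi0 hat
    fun_prop
  supp := fun t h => phi0_supp t (by push_cast at h; exact h.le)
  nonneg := fun t => le_max_right _ _
  pos := ⟨0, by unfold phi0 hat; simp⟩
  refine' := by
    intro t
    rw [d0_sum _ (fun k => by simp) (fun k a b => by ring)]
    unfold phi0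
    have := hat_refine (t / 3)
    rw [show t / 2 / 3 = t / 3 / 2 by ring, this]
    push_cast
    rw [show (t - 3) / 3 = t / 3 - 1 by ring, show (t - -3) / 3 = t / 3 + 1 by ring,
      show (t - 0) / 3 = t / 3 by ring]
    ring
  sym := by
    intro z hz h
    rw [d0_sum _ (fun k => by simp) (fun k a b => by push_cast; ring)] at h
    push_cast at h
    rw [zpow_zero, zpow_neg] at h
    have h3 : z ^ (3:ℤ) = z ^ 3 := by norm_cast
    rw [h3] at h
    have hz3 : z ^ 3 ≠ 0 := pow_ne_zero _ hz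
    field_simp at h
    have h4 : (z ^ 3 + 1) ^ 2 = 0 := by linear_combination h
    have h5 : z ^ 3 + 1 = 0 := by simpa using h4
    linear_combination h5
  zak := zak0

end Pool.Agent.H433R3.Rioul
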