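import Mathlib
import Pool.Agent.H433R3.Rioul1

set_option autoImplicit false
open MeasureTheory

namespace Pool.Agent.H433R3.Rioul

noncomputable def bx (φ : ℝ → ℝ) (t : ℝ) : ℝ := ∫ s in (t - 1)..t, φ s

noncomputable def dd (d : ℤ →₀ ℝ) : ℤ →₀ ℝ :=
  (d + d.mapDomain (fun k => k + 1)).mapRange (fun c => (1/2) * c) (by simp)

theorem dd_sum {M : Type*} [AddCommMonoid M] (d : ℤ →₀ ℝ) (g : ℤ → ℝ → M) (h0 : ∀ k, g k 0 = 0)
    (ha : ∀ k a b, g k (a + b) = g k a + g k b) :
    (dd d).sum g = d.sum (fun k c => g k (1/2 * c)) + d.sum (fun k c => g (k + 1) (1/2 * c)) := by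
  unfold dd
  rw [Finsupp.sum_mapRange_index h0, Finsupp.sum_add_index' (by simpa using h0)
    (by intro k a b; rw [mul_add, ha]), Finsupp.sum_mapDomain_index (by simpa using h0)
    (by intro k a b; rw [mul_add, ha])]

theorem bx_hasDeriv (φ : ℝ → ℝ) (hφ : Continuous φ) (t : ℝ) :
    HasDerivAt (bx φ) (φ t - φ (t - 1)) t := by
  have e : bx φ = fun t => (∫ s in (0:ℝ)..t, φ s) - ∫ s in (0:ℝ)..(t - 1), φ s := by
    ext t
    unfold bx
    rw [intervalIntegral.integral_interval_sub_left (hφ.intervalIntegrable _ _)
      (hφ.intervalIntegrable _ _)]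
  rw [e]
  have h1 := hφ.integral_hasStrictDerivAt 0 t
  have h2 := (hφ.integral_hasStrictDerivAt 0 (t - 1)).hasDerivAt
  have h3 : HasDerivAt (fun t : ℝ => t - 1) 1 t := (hasDerivAt_id t).sub_const 1
  have h4 := HasDerivAt.comp t h2 h3
  have h5 := h1.hasDerivAt.sub h4
  rw [mul_one] at h5
  exact h5

theorem step {N : ℕ} {φ : ℝ → ℝ} {d : ℤ →₀ ℝ} {R : ℕ} (h : Good N φ d R) :
    Good (N + 1) (bx φ) (dd d) (R + 1) where
  smooth := by
    have hc : Continuous φ := h.smooth.continuous
    have hd : deriv (bx φ) = fun t => φ t - φ (t - 1) := by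
      ext t; exact (bx_hasDeriv φ hc t).deriv
    push_cast
    rw [contDiff_succ_iff_deriv]
    refine ⟨fun t => (bx_hasDeriv φ hc t).differentiableAt, by simp, ?_⟩
    rw [hd]
    exact h.smooth.sub (h.smooth.comp (contDiff_id.sub contDiff_const))
  supp := by
    intro t ht
    push_cast at ht
    unfold bx
    rw [intervalIntegral.integral_congr (g := fun _ => (0:ℝ))]
    · simp
    · intro s hs
      rw [Set.uIcc_of_le (by linarith)] at hs
      simp only
      apply h.supp
      rcases abs_cases t with h1 | h1 <;> rcases abs_cases s with h2 | h2 <;>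
        linarith [hs.1, hs.2]
  nonneg := by
    intro t
    unfold bx
    apply intervalIntegral.integral_nonneg (by linarith)
    intro s _
    exact h.nonneg s
  pos := by
    obtain ⟨t, ht⟩ := h.pos
    refine ⟨t + 1/2, ?_⟩
    unfold bx
    apply intervalIntegral.integral_pos (by linarith) h.smooth.continuous.continuousOn
      (fun s _ => h.nonneg s)
    exact ⟨t, ⟨by linarith, by linarith⟩, ht⟩
  refine' := by
    intro t
    have hc : Continuous φ := h.smooth.continuous
    rw [dd_sum d _ (fun k => by simp) (fun k a b => by ring)]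
    unfold bx
    have e1 : ∫ s in (t / 2 - 1)..(t / 2), φ s = (1/2) * ∫ s in (t - 2)..t, φ (s / 2) := by
      rw [intervalIntegral.integral_comp_div φ (by norm_num : (2:ℝ) ≠ 0)]
      rw [show (t - 2) / 2 = t / 2 - 1 by ring, smul_eq_mul]; ring
    have e2 : ∫ s in (t - 2)..t, φ (s / 2) = d.sum fun k c => c * ∫ s in (t - 2)..t, φ (s - k) := by
      simp_rw [h.refine']
      unfold Finsupp.sum
      rw [intervalIntegral.integral_finsetSum]
      · apply Finset.sum_congr rfl
        intro k _
        rw [intervalIntegral.integral_const_mul]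
      · intro k _
        exact ((hc.comp (continuous_id.sub continuous_const)).const_mul _).intervalIntegrable _ _
    have e3 : ∀ k : ℤ, ∫ s in (t - 2)..t, φ (s - k) =
        (∫ s in (t - k - 1)..(t - k), φ s) + ∫ s in (t - (k + 1 : ℤ) - 1)..(t - (k + 1 : ℤ)), φ s := by
      intro k
      rw [intervalIntegral.integral_comp_sub_right φ (k:ℝ)]
      have := intervalIntegral.integral_add_adjacent_intervals
        (hc.intervalIntegrable (μ := volume) (t - 2 - k) (t - 1 - k))
        (hc.intervalIntegrable (μ := volume) (t - 1 - k) (t - k))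
      rw [← this, add_comm]
      push_cast
      congr 2 <;> ring
    rw [e1, e2]
    simp_rw [e3]
    unfold Finsupp.sum
    rw [Finset.mul_sum, ← Finset.sum_add_distrib]
    apply Finset.sum_congr rfl
    intro k _
    ring
  sym := by
    intro z hz hs
    rw [dd_sum d _ (fun k => by simp) (fun k a b => by push_cast; ring)] at hs
    have e : (d.sum fun k c => ((1 / 2 * c : ℝ) : ℂ) * z ^ k) +
        (d.sum fun k c => ((1 / 2 * c : ℝ) : ℂ) * z ^ (k + 1)) =
        (1 / 2) * (1 + z) * d.sum fun k c => (c : ℂ) * z ^ k := by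
      unfold Finsupp.sum
      rw [Finset.mul_sum, ← Finset.sum_add_distrib]
      apply Finset.sum_congr rfl
      intro k _
      simp only
      rw [zpow_add₀ hz, zpow_one]
      push_cast
      ring
    rw [e] at hs
    rcases mul_eq_zero.1 hs with h1 | h1
    · have h2 : z = -1 := by
        have h3 : (1 + z) = 0 := by
          rcases mul_eq_zero.1 h1 with h4 | h4
          · norm_num at h4
          · exact h4
        linear_combination h3
      rw [h2]; norm_num
    · exact h.sym z hz h1
  zak := by
    intro t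
    have hc : Continuous φ := h.smooth.continuous
    -- finite window
    obtain ⟨M, hM⟩ := exists_nat_gt (|t| + R + 1)
    set S : Finset ℤ := Finset.Icc (-(M:ℤ)) M with hS
    have hout : ∀ k : ℤ, k ∉ S → ∀ s ∈ Set.Icc (t - 1) t, φ (s + k) = 0 := by
      intro k hk s hs
      apply h.supp
      rw [hS, Finset.mem_Icc, not_and_or, not_le, not_le] at hk
      have ht := abs_le.1 (le_refl |t|)
      have hR : (0:ℝ) ≤ R := Nat.cast_nonneg _
      rcases hk with hk | hk
      · have hk' : (k:ℝ) < -(M:ℝ) := by exact_mod_cast hk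
        rw [abs_of_neg (by linarith [hs.2, ht.2])]
        linarith [hs.2, ht.2]
      · have hk' : (M:ℝ) < (k:ℝ) := by exact_mod_cast hk
        rw [abs_of_pos (by linarith [hs.1, ht.1])]
        linarith [hs.1, ht.1]
    have hshift : ∀ k : ℤ, bx φ (t + k) = ∫ s in (t - 1)..t, φ (s + k) := by
      intro k
      unfold bx
      rw [intervalIntegral.integral_comp_add_right φ (k:ℝ)]
      congr 1; ring
    rw [tsum_eq_sum (s := S)]
    · have e1 : ∀ k : ℤ, (bx φ (t + k) : ℂ) * om ^ k = ∫ s in (t - 1)..t, (φ (s + k) : ℂ) * om ^ k := by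
        intro k
        rw [hshift, intervalIntegral.integral_mul_const, intervalIntegral.integral_ofReal]
      simp_rw [e1]
      rw [← intervalIntegral.integral_finsetSum]
      · rw [intervalIntegral.integral_congr (g := fun _ => (0:ℂ))]
        · simp
        · intro s hs
          rw [Set.uIcc_of_le (by linarith)] at hs
          simp only
          rw [← h.zak s, tsum_eq_sum (s := S)]
          intro k hk
          rw [hout k hk s hs]; simp
      · intro k _
        apply Continuous.intervalIntegrable
        have : Continuous fun s : ℝ => φ (s + k) := hc.comp (continuous_id.add continuous_const)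
        fun_prop
    · intro k hk
      rw [hshift, intervalIntegral.integral_congr (g := fun _ => (0:ℝ))]
      · simp
      · intro s hs
        rw [Set.uIcc_of_le (by linarith)] at hs
        exact hout k hk s hs

theorem all_good (N : ℕ) : ∃ (φ : ℝ → ℝ) (d : ℤ →₀ ℝ) (R : ℕ), Good N φ d R := by
  induction N with
  | zero => exact ⟨phi0, d0, 3, good0⟩
  | succ N ih =>
    obtain ⟨φ, d, R, h⟩ := ih
    exact ⟨_, _, _, step h⟩

end Pool.Agent.H433R3.Rioul
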