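import Mathlib

set_option autoImplicit false
set_option linter.unusedSectionVars false
set_option linter.unusedVariables false

namespace Pool.Agent.H433R3.Sep

open Finset

variable {X : Type*} [Fintype X] [DecidableEq X]

/-- A laminar family of nonempty finite sets. -/
def Lam (S : Finset (Finset X)) : Prop :=
  (∀ A ∈ S, A.Nonempty) ∧ ∀ A ∈ S, ∀ B ∈ S, A ⊆ B ∨ B ⊆ A ∨ Disjoint A B

lemma Lam.mono {S S' : Finset (Finset X)} (hS : Lam S) (h : S' ⊆ S) : Lam S' :=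
  ⟨fun A hA => hS.1 A (h hA), fun A hA B hB => hS.2 A (h hA) B (h hB)⟩

/-- Two members of a laminar family sharing a point are comparable. -/
lemma Lam.comp {S : Finset (Finset X)} (hS : Lam S) {A B : Finset X} (hA : A ∈ S) (hB : B ∈ S)
    {x : X} (hxA : x ∈ A) (hxB : x ∈ B) : A ⊆ B ∨ B ⊂ A := by
  rcases hS.2 A hA B hB with h | h | h
  · exact Or.inl h
  · by_cases h' : A ⊆ B
    · exact Or.inl h'
    · exact Or.inr ⟨h, h'⟩
  · exact absurd hxB (Finset.disjoint_left.1 h hxA)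

/-- Records of a function on a laminar family. -/
def IsRec (S : Finset (Finset X)) (k : Finset X → ℤ) (F : Finset X) : Prop :=
  F ∈ S ∧ ∀ Q ∈ S, F ⊂ Q → k Q < k F

lemma exists_rec {S : Finset (Finset X)} (hS : Lam S) (k : Finset X → ℤ) {Q : Finset X}
    (hQ : Q ∈ S) : ∃ F, IsRec S k F ∧ Q ⊆ F ∧ k Q ≤ k F ∧
      ∀ F', IsRec S k F' → Q ⊆ F' → F ⊆ F' := by
  classical
  set T := S.filter (fun A => Q ⊆ A) with hT
  have hTne : T.Nonempty := ⟨Q, by simp [hT, hQ]⟩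
  obtain ⟨M, hM, hMmax⟩ := Finset.exists_max_image T k hTne
  set T' := T.filter (fun A => k A = k M) with hT'
  have hT'ne : T'.Nonempty := ⟨M, by simp [hT', hM]⟩
  obtain ⟨F, hF, hFmax⟩ := Finset.exists_max_image T' Finset.card hT'ne
  have hF1 : F ∈ T := (Finset.mem_filter.1 hF).1
  have hFk : k F = k M := (Finset.mem_filter.1 hF).2
  have hFS : F ∈ S := (Finset.mem_filter.1 hF1).1
  have hQF : Q ⊆ F := (Finset.mem_filter.1 hF1).2
  refine ⟨F, ⟨hFS, ?_⟩, hQF, ?_, ?_⟩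
  · intro A hA hFA
    have hAT : A ∈ T := by
      simp only [hT, Finset.mem_filter]
      exact ⟨hA, hQF.trans hFA.1⟩
    have h1 : k A ≤ k M := hMmax A hAT
    rcases lt_or_eq_of_le h1 with h2 | h2
    · rw [hFk]; exact h2
    · have hAT' : A ∈ T' := by
        simp only [hT', Finset.mem_filter]
        exact ⟨hAT, h2⟩
      have := hFmax A hAT'
      have h3 := Finset.card_lt_card hFA
      omega
  · rw [hFk]
    exact hMmax Q (by simp [hT, hQ])
  · intro F' hF' hQF'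
    obtain ⟨x, hx⟩ := hS.1 Q hQ
    rcases hS.comp hFS hF'.1 (hQF hx) (hQF' hx) with h | h
    · exact h
    · exfalso
      have h1 := hF'.2 F hFS h
      have h2 : k F' ≤ k M := hMmax F' (by
        simp only [hT, Finset.mem_filter]
        exact ⟨hF'.1, hQF'⟩)
      omega

lemma geo1 (J : Finset ℤ) : ∀ a : ℤ, (∀ j ∈ J, j < a) → ∑ j ∈ J, (2:ℝ) ^ j ≤ 2 ^ a := by
  classical
  induction J using Finset.induction_on_max with
  | empty => intro a _; simp; positivity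
  | insert b J' hb ih =>
    intro a ha
    have hbn : b ∉ J' := fun h => lt_irrefl _ (hb b h)
    rw [Finset.sum_insert hbn]
    have h1 := ih b hb
    have h2 : b + 1 ≤ a := ha b (Finset.mem_insert_self _ _)
    have h3 : (2:ℝ) ^ (b + 1) ≤ 2 ^ a := zpow_le_zpow_right₀ (by norm_num) h2
    have h4 : (2:ℝ) ^ (b + 1) = 2 ^ b + 2 ^ b := by
      rw [zpow_add₀ (by norm_num)]; ring
    linarith

lemma geo2 (J : Finset ℤ) : (∑ j ∈ J, (2:ℝ) ^ j) ^ 2 ≤ 4 * ∑ j ∈ J, ((2:ℝ) ^ j) ^ 2 := by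
  classical
  rcases J.eq_empty_or_nonempty with h | h
  · simp [h]
  · obtain ⟨M, hM, hMmax⟩ := Finset.exists_max_image J id h
    have h1 : ∑ j ∈ J, (2:ℝ) ^ j ≤ 2 ^ (M + 1) := geo1 J (M + 1) (fun j hj => by
      have := hMmax j hj
      simp only [id] at this
      omega)
    have h2 : (2:ℝ) ^ (M + 1) = 2 * 2 ^ M := by
      rw [zpow_add₀ (by norm_num)]; ring
    have h3 : ((2:ℝ) ^ M) ^ 2 ≤ ∑ j ∈ J, ((2:ℝ) ^ j) ^ 2 :=
      Finset.single_le_sum (f := fun j => ((2:ℝ) ^ j) ^ 2) (fun j _ => by positivity) hM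
    have h0 : 0 ≤ ∑ j ∈ J, (2:ℝ) ^ j := Finset.sum_nonneg (fun j _ => by positivity)
    calc (∑ j ∈ J, (2:ℝ) ^ j) ^ 2 ≤ (2 * 2 ^ M) ^ 2 := by
          rw [← h2]; exact pow_le_pow_left₀ h0 h1 2
      _ = 4 * (2 ^ M) ^ 2 := by ring
      _ ≤ _ := by linarith

/-- geometric sums along an injective family of exponents -/
lemma geo3 {ι : Type*} (T : Finset ι) (k : ι → ℤ)
    (hinj : ∀ a ∈ T, ∀ b ∈ T, k a = k b → a = b) :
    (∑ a ∈ T, (2:ℝ) ^ k a) ^ 2 ≤ 4 * ∑ a ∈ T, ((2:ℝ) ^ k a) ^ 2 := by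
  classical
  have h1 : ∑ j ∈ T.image k, (2:ℝ) ^ j = ∑ a ∈ T, (2:ℝ) ^ k a :=
    Finset.sum_image (fun a ha b hb h => hinj a ha b hb h)
  have h2 : ∑ j ∈ T.image k, ((2:ℝ) ^ j) ^ 2 = ∑ a ∈ T, ((2:ℝ) ^ k a) ^ 2 :=
    Finset.sum_image (fun a ha b hb h => hinj a ha b hb h)
  rw [← h1, ← h2]
  exact geo2 _

lemma sum_sum_le {α β : Type*} [DecidableEq β] (A : Finset α) (B : Finset β) (c : α → Finset β)
    (hc : ∀ a ∈ A, c a ⊆ B)
    (hdis : ∀ a ∈ A, ∀ a' ∈ A, a ≠ a' → Disjoint (c a) (c a')) (v : β → ℝ)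
    (hv : ∀ b ∈ B, 0 ≤ v b) : ∑ a ∈ A, ∑ b ∈ c a, v b ≤ ∑ b ∈ B, v b := by
  classical
  rw [← Finset.sum_biUnion (fun a ha b hb hab => hdis a ha b hb hab)]
  apply Finset.sum_le_sum_of_subset_of_nonneg
  · intro x hx
    obtain ⟨a, ha, hxa⟩ := Finset.mem_biUnion.1 hx
    exact hc a ha hxa
  · intro b hb _; exact hv b hb

lemma amgm {t I J n : ℝ} (ht : 0 ≤ t) (hI : 0 ≤ I) (hJ : 0 ≤ J) (hn : 0 ≤ n)
    (h : I ^ 2 ≤ J * n) : 2 * (t * I) ≤ t ^ 2 * n + J := by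
  by_contra hcon
  push Not at hcon
  have h0 : 0 ≤ t ^ 2 * n + J := by positivity
  have h1 : (t ^ 2 * n + J) ^ 2 < (2 * (t * I)) ^ 2 := pow_lt_pow_left₀ hcon h0 (by norm_num)
  have h2 : (2 * (t * I)) ^ 2 ≤ 4 * t ^ 2 * (J * n) := by
    have : (2 * (t * I)) ^ 2 = 4 * t ^ 2 * I ^ 2 := by ring
    rw [this]
    exact mul_le_mul_of_nonneg_left h (by positivity)
  nlinarith [sq_nonneg (t ^ 2 * n - J)]

/-- swap: sum over a family of the sums over the points -/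
lemma sum_swap (S : Finset (Finset X)) (c : Finset X → ℝ) (v : X → ℝ) :
    ∑ Q ∈ S, c Q * ∑ x ∈ Q, v x = ∑ x, (∑ Q ∈ S with x ∈ Q, c Q) * v x := by
  classical
  have h1 : ∀ Q ∈ S, c Q * ∑ x ∈ Q, v x = ∑ x, if x ∈ Q then c Q * v x else 0 := by
    intro Q _
    rw [Finset.mul_sum, Finset.sum_ite_mem, Finset.univ_inter]
  rw [Finset.sum_congr rfl h1, Finset.sum_comm]
  apply Finset.sum_congr rfl
  intro x _
  rw [Finset.sum_mul, Finset.sum_filter]

/-- Carleson embedding along the records of the averages. -/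
lemma carleson_rec (S : Finset (Finset X)) (hS : Lam S) (μ f : X → ℝ) (hμ : ∀ x, 0 ≤ μ x)
    (hf : ∀ x, 0 ≤ f x) (a : Finset X → ℝ) (ha : ∀ Q ∈ S, 0 < a Q)
    (haI : ∀ Q ∈ S, a Q * ∑ x ∈ Q, μ x = ∑ x ∈ Q, f x * μ x)
    (R : Finset (Finset X)) (hR : ∀ F ∈ R, IsRec S (fun Q => Int.log 2 (a Q)) F) :
    ∑ F ∈ R, a F ^ 2 * ∑ x ∈ F, μ x ≤ 16 * ∑ x, f x ^ 2 * μ x := by
  classical
  set A := ∑ F ∈ R, a F ^ 2 * ∑ x ∈ F, μ x with hA
  have h1 : A = ∑ x, (∑ F ∈ R with x ∈ F, a F) * (f x * μ x) := by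
    rw [hA, ← sum_swap]
    apply Finset.sum_congr rfl
    intro F hF
    rw [← haI F (hR F hF).1]; ring
  have h2 : A = ∑ x, (∑ F ∈ R with x ∈ F, a F ^ 2) * μ x := by
    rw [hA, ← sum_swap]
  have hpt : ∀ x, (∑ F ∈ R with x ∈ F, a F) ^ 2 ≤ 16 * ∑ F ∈ R with x ∈ F, a F ^ 2 := by
    intro x
    have hinj : ∀ F ∈ R.filter (fun F => x ∈ F), ∀ G ∈ R.filter (fun F => x ∈ F),
        Int.log 2 (a F) = Int.log 2 (a G) → F = G := by
      intro F hF G hG hFG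
      simp only [Finset.mem_filter] at hF hG
      have hF' := hR F hF.1
      have hG' := hR G hG.1
      rcases hS.comp hF'.1 hG'.1 hF.2 hG.2 with h | h
      · rcases eq_or_ssubset_of_subset h with h | h
        · exact h
        · have := hF'.2 G hG'.1 h
          simp only at this
          omega
      · have := hG'.2 F hF'.1 h
        simp only at this
        omega
    have g3 := geo3 (R.filter (fun F => x ∈ F)) (fun F => Int.log 2 (a F)) hinj
    have h3 : ∑ F ∈ R with x ∈ F, a F ≤ 2 * ∑ F ∈ R with x ∈ F, (2:ℝ) ^ Int.log 2 (a F) := by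
      rw [Finset.mul_sum]
      apply Finset.sum_le_sum
      intro F _
      have := (Int.lt_zpow_succ_log_self (b := 2) (by norm_num) (a F)).le
      rw [zpow_add₀ (by norm_num)] at this
      push_cast at this
      linarith
    have h4 : ∑ F ∈ R with x ∈ F, ((2:ℝ) ^ Int.log 2 (a F)) ^ 2 ≤ ∑ F ∈ R with x ∈ F, a F ^ 2 := by
      apply Finset.sum_le_sum
      intro F hF
      simp only [Finset.mem_filter] at hF
      have := Int.zpow_log_le_self (b := 2) (by norm_num) (ha F (hR F hF.1).1)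
      push_cast at this
      exact pow_le_pow_left₀ (by positivity) this 2
    have h0 : 0 ≤ ∑ F ∈ R with x ∈ F, a F := Finset.sum_nonneg (fun F hF => by
      simp only [Finset.mem_filter] at hF
      exact (ha F (hR F hF.1).1).le)
    calc (∑ F ∈ R with x ∈ F, a F) ^ 2
        ≤ (2 * ∑ F ∈ R with x ∈ F, (2:ℝ) ^ Int.log 2 (a F)) ^ 2 := pow_le_pow_left₀ h0 h3 2
      _ = 4 * (∑ F ∈ R with x ∈ F, (2:ℝ) ^ Int.log 2 (a F)) ^ 2 := by ring
      _ ≤ 16 * ∑ F ∈ R with x ∈ F, a F ^ 2 := by linarith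
  have h5 : A ≤ ∑ x, (8 * f x ^ 2 + (1/2) * ∑ F ∈ R with x ∈ F, a F ^ 2) * μ x := by
    rw [h1]
    apply Finset.sum_le_sum
    intro x _
    have := hpt x
    rw [← mul_assoc]
    apply mul_le_mul_of_nonneg_right _ (hμ x)
    nlinarith [sq_nonneg (16 * f x - ∑ F ∈ R with x ∈ F, a F)]
  have h6 : ∑ x, (8 * f x ^ 2 + (1/2) * ∑ F ∈ R with x ∈ F, a F ^ 2) * μ x
      = 8 * ∑ x, f x ^ 2 * μ x + (1/2) * A := by
    rw [h2, Finset.mul_sum, Finset.mul_sum, ← Finset.sum_add_distrib]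
    apply Finset.sum_congr rfl
    intro x _; ring
  rw [h6] at h5
  linarith

end Pool.Agent.H433R3.Sep
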