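import Pool.Agent.H433R3.Sep9

set_option autoImplicit false
set_option linter.unusedSectionVars false
set_option linter.unusedVariables false

namespace Pool.Agent.H433R3.Sep

open Finset MeasureTheory
open scoped ENNReal NNReal

/-- A Young function: a continuous, convex, nondecreasing `Φ : [0,∞) → [0,∞)` with `Φ(0) = 0`
and `Φ(t)/t → ∞`. -/
structure IsYoung (Φ : ℝ≥0 → ℝ≥0) : Prop where
  cont : Continuous Φ
  conv : ConvexOn ℝ≥0 Set.univ Φ
  mono : Monotone Φ
  zero : Φ 0 = 0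
  superlin : Filter.Tendsto (fun t : ℝ≥0 => Φ t / t) Filter.atTop Filter.atTop

/-- the real version -/
noncomputable def rl (Φ : ℝ≥0 → ℝ≥0) (t : ℝ) : ℝ := (Φ t.toNNReal : ℝ)

lemma IsYoung.ydata {Φ : ℝ≥0 → ℝ≥0} (h : IsYoung Φ) : ∃ t₀ : ℝ, YData (rl Φ) t₀ := by
  have h1 := h.superlin.eventually_ge_atTop 1
  obtain ⟨T, hT⟩ := Filter.eventually_atTop.1 h1
  refine ⟨max 1 (T : ℝ), ?_, ?_, ?_, le_max_left _ _, ?_⟩
  · exact (NNReal.continuous_coe.comp (h.cont.comp continuous_real_toNNReal)).measurable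
  · intro t; exact NNReal.coe_nonneg _
  · intro s t hs hst
    have ht : 0 < t := lt_of_lt_of_le hs hst
    unfold rl
    set s' := s.toNNReal with hs'
    set t' := t.toNNReal with ht'
    have es : (s' : ℝ) = s := Real.coe_toNNReal s hs.le
    have et : (t' : ℝ) = t := Real.coe_toNNReal t ht.le
    have ht'0 : 0 < t' := by
      rw [← NNReal.coe_pos, et]; exact ht
    have hst' : s' ≤ t' := Real.toNNReal_le_toNNReal hst
    have hle1 : s' / t' ≤ 1 := div_le_one_of_le₀ hst' (zero_le)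
    have q1 : (0:ℝ≥0) ≤ s' / t' := zero_le
    have q2 : (0:ℝ≥0) ≤ 1 - s' / t' := zero_le
    have h2 := h.conv.2 (Set.mem_univ t') (Set.mem_univ (0:ℝ≥0)) q1 q2
      (add_tsub_cancel_of_le hle1)
    rw [smul_zero, add_zero, h.zero, smul_zero, add_zero, smul_eq_mul, smul_eq_mul,
      div_mul_cancel₀ _ ht'0.ne'] at h2
    have h3 : (Φ s' : ℝ) ≤ (s' / t' : ℝ) * Φ t' := by
      have := NNReal.coe_le_coe.2 h2
      push_cast at this
      exact this
    rw [es, et] at h3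
    rw [div_le_div_iff₀ hs ht]
    calc (Φ s' : ℝ) * t ≤ (s / t * Φ t') * t := mul_le_mul_of_nonneg_right h3 ht.le
      _ = (Φ t' : ℝ) * s := by field_simp
  · intro t ht
    have ht1 : 1 ≤ t := le_trans (le_max_left _ _) ht
    have htT : (T:ℝ) ≤ t := le_trans (le_max_right _ _) ht
    have ht0 : 0 < t := by linarith
    unfold rl
    have h2 := hT t.toNNReal (by
      rw [← NNReal.coe_le_coe, Real.coe_toNNReal t ht0.le]; exact htT)
    have h3 := NNReal.coe_le_coe.2 h2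
    push_cast at h3
    rw [Real.coe_toNNReal t ht0.le, le_div_iff₀ ht0] at h3
    linarith

/-- the integrability condition gives the dyadic summation constant -/
lemma exists_Ck {Φ : ℝ≥0 → ℝ≥0} (h : IsYoung Φ) {t₀ : ℝ} (ht : 1 ≤ t₀)
    (hint : ∃ c : ℝ≥0, 0 < c ∧ ∫⁻ x in Set.Ioi (c:ℝ), ((Φ x.toNNReal : ℝ≥0∞))⁻¹ ≠ ∞) :
    ∃ θ : ℝ, 0 < θ ∧ θ ≤ (1 / t₀) / 16 ∧ ∃ Ck : ℝ, 0 ≤ Ck ∧ ∀ J : Finset ℕ,
      ∑ j ∈ J, kap (rl Φ) (1 / t₀) (θ * 16 ^ j / 16) ≤ Ck := by
  classical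
  obtain ⟨c, hc, hI⟩ := hint
  have ht0 : 0 < t₀ := by linarith
  set c₀ := 1 / t₀ with hc₀
  have hc₀pos : 0 < c₀ := by positivity
  have hc₀le : c₀ ≤ 1 := by rw [hc₀, div_le_one ht0]; exact ht
  set τ := c₀ / 16 with hτ
  have hτ0 : 0 < τ := by positivity
  have hτ1 : τ ≤ 1 := by rw [hτ]; linarith
  refine ⟨τ ^ 4, by positivity, ?_, ?_⟩
  · calc τ ^ 4 ≤ τ ^ 1 := pow_le_pow_of_le_one hτ0.le hτ1 (by norm_num)
      _ = c₀ / 16 := by rw [pow_one]
  set I := ∫⁻ x in Set.Ioi (c:ℝ), ((Φ x.toNNReal : ℝ≥0∞))⁻¹ with hIdef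
  set xs : ℕ → ℝ := fun j => τ ^ 2 * 4 ^ j / 8 with hxs
  have hxs0 : ∀ j, 0 < xs j := fun j => by simp only [hxs]; positivity
  have hxsm : Monotone xs := by
    intro i j hij
    simp only [hxs]
    have : (4:ℝ) ^ i ≤ 4 ^ j := pow_le_pow_right₀ (by norm_num) hij
    have h2 : τ ^ 2 * 4 ^ i ≤ τ ^ 2 * 4 ^ j := mul_le_mul_of_nonneg_left this (by positivity)
    linarith
  have hxss : ∀ j, xs (j + 1) = 4 * xs j := fun j => by simp only [hxs]; ring
  have hsq : ∀ j : ℕ, √(τ ^ 4 * 16 ^ j / 16) = τ ^ 2 * 4 ^ j / 4 := by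
    intro j
    rw [Real.sqrt_eq_iff_mul_self_eq (by positivity) (by positivity)]
    have : (16:ℝ) ^ j = 4 ^ j * 4 ^ j := by rw [← mul_pow]; norm_num
    rw [this]; ring
  have hsq2 : ∀ j : ℕ, √(τ ^ 2 * 4 ^ j / 4) = τ * 2 ^ j / 2 := by
    intro j
    rw [Real.sqrt_eq_iff_mul_self_eq (by positivity) (by positivity)]
    have : (4:ℝ) ^ j = 2 ^ j * 2 ^ j := by rw [← mul_pow]; norm_num
    rw [this]; ring
  -- choose j₀
  obtain ⟨j₀, hj₀⟩ : ∃ j₀ : ℕ, (c:ℝ) ≤ xs j₀ := by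
    obtain ⟨n, hn⟩ := pow_unbounded_of_one_lt ((c:ℝ) * 8 / τ ^ 2) (by norm_num : (1:ℝ) < 4)
    refine ⟨n, ?_⟩
    simp only [hxs]
    rw [div_lt_iff₀ (by positivity)] at hn
    rw [le_div_iff₀ (by norm_num)]
    linarith
  -- second sum in ENNReal
  have hone : ∀ j, j₀ < j → ENNReal.ofReal (1 / max c₀ (rl Φ (xs j) / xs j)) ≤
      ENNReal.ofReal (4/3) * ∫⁻ x in Set.Ioc (xs (j-1)) (xs j), ((Φ x.toNNReal : ℝ≥0∞))⁻¹ := by
    intro j hj
    obtain ⟨i, rfl⟩ : ∃ i, j = i + 1 := ⟨j - 1, by omega⟩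
    have hi : i + 1 - 1 = i := by omega
    rw [hi]
    set p : ℝ≥0 := Φ (xs (i+1)).toNNReal with hp
    have h1 : ENNReal.ofReal (1 / max c₀ (rl Φ (xs (i+1)) / xs (i+1))) ≤
        (p : ℝ≥0∞)⁻¹ * ENNReal.ofReal (xs (i+1)) := by
      by_cases hp0 : p = 0
      · rw [hp0]
        simp only [ENNReal.coe_zero, ENNReal.inv_zero]
        rw [ENNReal.top_mul (by simpa using hxs0 (i+1))]
        exact le_top
      · have hp1 : (0:ℝ) < p := NNReal.coe_pos.2 (pos_iff_ne_zero.2 hp0)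
        have h2 : 1 / max c₀ (rl Φ (xs (i+1)) / xs (i+1)) ≤ xs (i+1) / p := by
          have h3 : rl Φ (xs (i+1)) = (p:ℝ) := rfl
          rw [h3]
          have h4 : 1 / max c₀ ((p:ℝ) / xs (i+1)) ≤ 1 / ((p:ℝ) / xs (i+1)) :=
            one_div_le_one_div_of_le (div_pos hp1 (hxs0 _)) (le_max_right _ _)
          rw [one_div_div] at h4
          exact h4
        calc ENNReal.ofReal (1 / max c₀ (rl Φ (xs (i+1)) / xs (i+1)))
            ≤ ENNReal.ofReal (xs (i+1) / p) := ENNReal.ofReal_le_ofReal h2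
          _ = ENNReal.ofReal (xs (i+1)) / ENNReal.ofReal p := ENNReal.ofReal_div_of_pos hp1
          _ = _ := by
              rw [ENNReal.ofReal_coe_nnreal, ENNReal.div_eq_inv_mul]
    refine h1.trans ?_
    have h2 : (p : ℝ≥0∞)⁻¹ * ENNReal.ofReal (xs (i+1) - xs i) ≤
        ∫⁻ x in Set.Ioc (xs i) (xs (i+1)), ((Φ x.toNNReal : ℝ≥0∞))⁻¹ := by
      calc (p : ℝ≥0∞)⁻¹ * ENNReal.ofReal (xs (i+1) - xs i)
          = ∫⁻ x in Set.Ioc (xs i) (xs (i+1)), (p : ℝ≥0∞)⁻¹ := by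
            rw [lintegral_const, Measure.restrict_apply MeasurableSet.univ, Set.univ_inter,
              Real.volume_Ioc]
        _ ≤ _ := by
            apply setLIntegral_mono' measurableSet_Ioc
            intro x hx
            rw [ENNReal.inv_le_inv]
            exact ENNReal.coe_le_coe.2 (h.mono (Real.toNNReal_le_toNNReal hx.2))
    have h3 : ENNReal.ofReal (xs (i+1)) = ENNReal.ofReal (4/3) *
        ENNReal.ofReal (xs (i+1) - xs i) := by
      rw [← ENNReal.ofReal_mul (by norm_num)]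
      congr 1
      rw [hxss]; ring
    calc (p : ℝ≥0∞)⁻¹ * ENNReal.ofReal (xs (i+1))
        = ENNReal.ofReal (4/3) * ((p : ℝ≥0∞)⁻¹ * ENNReal.ofReal (xs (i+1) - xs i)) := by
          rw [h3]; ring
      _ ≤ _ := mul_le_mul' le_rfl h2
  have hsecond : ∀ J : Finset ℕ, ∑ j ∈ J, ENNReal.ofReal (1 / max c₀ (rl Φ (xs j) / xs j)) ≤
      ENNReal.ofReal ((j₀ + 1) / c₀) + ENNReal.ofReal (4/3) * I := by
    intro J
    rw [← Finset.sum_filter_add_sum_filter_not J (fun j => j ≤ j₀)]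
    apply add_le_add
    · have h1 : ∀ j ∈ J.filter (fun j => j ≤ j₀),
          ENNReal.ofReal (1 / max c₀ (rl Φ (xs j) / xs j)) ≤ ENNReal.ofReal (1 / c₀) := by
        intro j _
        apply ENNReal.ofReal_le_ofReal
        exact one_div_le_one_div_of_le hc₀pos (le_max_left _ _)
      refine (Finset.sum_le_sum h1).trans ?_
      rw [Finset.sum_const, nsmul_eq_mul]
      have h2 : (J.filter (fun j => j ≤ j₀)).card ≤ j₀ + 1 := by
        calc _ ≤ (Finset.range (j₀ + 1)).card := Finset.card_le_card (by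
              intro j hj
              simp only [Finset.mem_filter] at hj
              simp only [Finset.mem_range]; omega)
          _ = _ := Finset.card_range _
      calc ((J.filter (fun j => j ≤ j₀)).card : ℝ≥0∞) * ENNReal.ofReal (1 / c₀)
          ≤ ((j₀ + 1 : ℕ) : ℝ≥0∞) * ENNReal.ofReal (1 / c₀) := by
            apply mul_le_mul' _ le_rfl
            exact_mod_cast h2
        _ = ENNReal.ofReal ((j₀ + 1 : ℕ) : ℝ) * ENNReal.ofReal (1 / c₀) := by
            rw [ENNReal.ofReal_natCast]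
        _ = _ := by
            rw [← ENNReal.ofReal_mul (by positivity)]
            congr 1
            push_cast; ring
    · have h1 : ∀ j ∈ J.filter (fun j => ¬ j ≤ j₀),
          ENNReal.ofReal (1 / max c₀ (rl Φ (xs j) / xs j)) ≤
          ENNReal.ofReal (4/3) * ∫⁻ x in Set.Ioc (xs (j-1)) (xs j), ((Φ x.toNNReal : ℝ≥0∞))⁻¹ := by
        intro j hj
        apply hone
        have := (Finset.mem_filter.1 hj).2
        omega
      refine (Finset.sum_le_sum h1).trans ?_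
      rw [← Finset.mul_sum]
      apply mul_le_mul' le_rfl
      rw [← lintegral_biUnion_finset]
      · rw [hIdef]
        apply lintegral_mono_set
        apply Set.iUnion₂_subset
        intro j hj x hx
        have hj2 := (Finset.mem_filter.1 hj).2
        have : xs j₀ ≤ xs (j-1) := hxsm (by omega)
        exact lt_of_le_of_lt (hj₀.trans this) hx.1
      · intro i hi j hj hij
        have hi2 := (Finset.mem_filter.1 hi).2
        have hj2 := (Finset.mem_filter.1 hj).2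
        show Disjoint (Set.Ioc (xs (i-1)) (xs i)) (Set.Ioc (xs (j-1)) (xs j))
        rw [Set.disjoint_left]
        intro x hx hx'
        rcases lt_or_gt_of_ne hij with h1 | h1
        · have : xs i ≤ xs (j-1) := hxsm (by omega)
          exact absurd (lt_of_le_of_lt this hx'.1) (not_lt.2 hx.2)
        · have : xs j ≤ xs (i-1) := hxsm (by omega)
          exact absurd (lt_of_le_of_lt this hx.1) (not_lt.2 hx'.2)
      · intro j _; exact measurableSet_Ioc
  have hfin : ENNReal.ofReal ((j₀ + 1) / c₀) + ENNReal.ofReal (4/3) * I ≠ ∞ := by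
    apply ENNReal.add_ne_top.2
    exact ⟨ENNReal.ofReal_ne_top, ENNReal.mul_ne_top ENNReal.ofReal_ne_top hI⟩
  set B := (ENNReal.ofReal ((j₀ + 1) / c₀) + ENNReal.ofReal (4/3) * I).toReal with hB
  have hsecondR : ∀ J : Finset ℕ, ∑ j ∈ J, (1 / max c₀ (rl Φ (xs j) / xs j)) ≤ B := by
    intro J
    have h1 := hsecond J
    have hn : ∀ j ∈ J, 0 ≤ 1 / max c₀ (rl Φ (xs j) / xs j) := by
      intro j _
      have : 0 < max c₀ (rl Φ (xs j) / xs j) := lt_of_lt_of_le hc₀pos (le_max_left _ _)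
      positivity
    rw [← ENNReal.ofReal_sum_of_nonneg hn, ← ENNReal.ofReal_toReal hfin] at h1
    exact (ENNReal.ofReal_le_ofReal_iff ENNReal.toReal_nonneg).1 h1
  refine ⟨4 / τ + B, by positivity, ?_⟩
  intro J
  have h1 : ∀ j ∈ J, kap (rl Φ) c₀ (τ ^ 4 * 16 ^ j / 16) ≤
      (2 / τ) * (1/2) ^ j + 1 / max c₀ (rl Φ (xs j) / xs j) := by
    intro j _
    unfold kap
    rw [hsq, hsq2]
    have e1 : τ ^ 2 * 4 ^ j / 4 / 2 = xs j := by simp only [hxs]; ring
    rw [e1]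
    apply add_le_add _ le_rfl
    have e2 : 1 / max c₀ (τ * 2 ^ j / 2) ≤ 1 / (τ * 2 ^ j / 2) :=
      one_div_le_one_div_of_le (by positivity) (le_max_right _ _)
    refine e2.trans (le_of_eq ?_)
    rw [one_div_pow]; field_simp
  refine (Finset.sum_le_sum h1).trans ?_
  rw [Finset.sum_add_distrib]
  apply add_le_add _ (hsecondR J)
  rw [← Finset.mul_sum]
  have h2 : ∑ j ∈ J, (1/2:ℝ) ^ j ≤ 2 := by
    have := Summable.sum_le_tsum J (fun j _ => by positivity) (summable_geometric_two)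
    rw [tsum_geometric_two] at this
    exact this
  calc 2 / τ * ∑ j ∈ J, (1/2:ℝ) ^ j ≤ 2 / τ * 2 := mul_le_mul_of_nonneg_left h2 (by positivity)
    _ = 4 / τ := by ring

end Pool.Agent.H433R3.Sep
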