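import Pool.Agent.H433R3.Sep10

set_option autoImplicit false
set_option linter.unusedSectionVars false
set_option linter.unusedVariables false

namespace Pool.Agent.H433R3.Sep

open Finset MeasureTheory
open scoped ENNReal NNReal

variable {α : Type*} [MeasurableSpace α]

/-- Normalised Luxemburg norm of a nonnegative function on a set. -/
noncomputable def lux (vol : Measure α) (Φ : ℝ≥0 → ℝ≥0) (w : α → ℝ≥0) (Q : Set α) : ℝ≥0∞ :=
  ⨅ (l : ℝ≥0) (_ : 0 < l ∧ (vol Q)⁻¹ * ∫⁻ x in Q, (Φ (w x / l) : ℝ≥0∞) ∂vol ≤ 1), (l : ℝ≥0∞)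

lemma NN_le_lux (vol : Measure α) (Φ : ℝ≥0 → ℝ≥0) (w : α → ℝ≥0) (Q : Set α)
    (hv : 0 < vol Q ∧ vol Q < ∞) :
    NN vol (rl Φ) (fun x => (w x : ℝ)) Q ≤ 2 * vol Q * lux vol Φ w Q := by
  unfold lux
  have h2v : 2 * vol Q ≠ 0 := by
    simp [hv.1.ne']
  have h2v' : 2 * vol Q ≠ ∞ := ENNReal.mul_ne_top (by simp) hv.2.ne
  rw [ENNReal.mul_iInf_of_ne h2v h2v']
  refine le_iInf fun l => ?_
  by_cases hl : 0 < l ∧ (vol Q)⁻¹ * ∫⁻ x in Q, (Φ (w x / l) : ℝ≥0∞) ∂vol ≤ 1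
  · rw [iInf_pos hl]
    have h1 : ∫⁻ x in Q, (Φ (w x / l) : ℝ≥0∞) ∂vol ≤ vol Q := by
      have h3 := mul_le_mul' (le_refl (vol Q)) hl.2
      rw [← mul_assoc, ENNReal.mul_inv_cancel hv.1.ne' hv.2.ne, one_mul, mul_one] at h3
      exact h3
    have h2 : ∀ x, ENNReal.ofReal (rl Φ ((w x : ℝ) / l)) = (Φ (w x / l) : ℝ≥0∞) := by
      intro x
      unfold rl
      rw [ENNReal.ofReal_coe_nnreal]
      congr 2
      rw [← NNReal.coe_div, Real.toNNReal_coe]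
    have h3 : NN vol (rl Φ) (fun x => (w x : ℝ)) Q ≤ ENNReal.ofReal l * (vol Q +
        ∫⁻ x in Q, ENNReal.ofReal (rl Φ ((w x : ℝ) / l)) ∂vol) :=
      iInf₂_le (l:ℝ) (by exact_mod_cast hl.1)
    refine h3.trans ?_
    simp only [h2]
    rw [ENNReal.ofReal_coe_nnreal]
    calc (l:ℝ≥0∞) * (vol Q + ∫⁻ x in Q, (Φ (w x / l) : ℝ≥0∞) ∂vol)
        ≤ (l:ℝ≥0∞) * (vol Q + vol Q) := mul_le_mul' le_rfl (add_le_add le_rfl h1)
      _ = _ := by ring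
  · rw [iInf_neg hl, ENNReal.mul_top h2v]
    exact le_top

/-- weight measure -/
noncomputable def wm (vol : Measure α) (w : α → ℝ≥0) : Measure α :=
  vol.withDensity (fun x => (w x : ℝ≥0∞))

lemma wm_apply (vol : Measure α) (w : α → ℝ≥0) {Q : Set α} (hQ : MeasurableSet Q) :
    wm vol w Q = ∫⁻ x in Q, ENNReal.ofReal (w x : ℝ) ∂vol := by
  unfold wm
  rw [withDensity_apply _ hQ]
  simp only [ENNReal.ofReal_coe_nnreal]

/-- Facts on the one-sided bump used in `setOp`. -/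
lemma bumpSide (vol : Measure α) {Φ : ℝ≥0 → ℝ≥0} {t₀ : ℝ} (hΦ : YData (rl Φ) t₀)
    {θ : ℝ} (hθ0 : 0 < θ) (hθ : θ ≤ (1 / t₀) / 16)
    {Ck : ℝ} (hCk0 : 0 ≤ Ck)
    (hCk : ∀ J : Finset ℕ, ∑ j ∈ J, kap (rl Φ) (1 / t₀) (θ * 16 ^ j / 16) ≤ Ck)
    (w σ : α → ℝ≥0) (hw : Measurable w) (K : ℝ≥0)
    (S : Finset (Set α)) (hS : SLam S)
    (hv : ∀ Q ∈ S, 0 < vol Q ∧ vol Q < ∞) (hμ : ∀ Q ∈ S, 0 < wm vol w Q ∧ wm vol w Q < ∞)
    (hν : ∀ Q ∈ S, 0 < wm vol σ Q ∧ wm vol σ Q < ∞)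
    (hH : ∀ Q ∈ S, 256 * vol (⋃ A ∈ {A ∈ (S : Set (Set α)) | A ⊂ Q}, A) ≤ vol Q)
    (hK : ∀ Q ∈ S, lux vol Φ w Q * (wm vol σ Q / vol Q) ≤ K) :
    ∃ ρ : Set α → ℝ, (∀ Q ∈ S, 1 ≤ ρ Q) ∧
      (∀ Q ∈ S, (wm vol w Q).toReal * (wm vol σ Q).toReal * ρ Q ≤
        (2 * t₀ * K) * (vol Q).toReal ^ 2) ∧
      (∀ H ∈ S, ∀ M ⊆ S, (∀ F ∈ M, F ⊆ H) → (∀ A ∈ M, ∀ B ∈ M, A ≠ B → Disjoint A B) →
        ∑ F ∈ M, (wm vol w F).toReal * ρ F ≤ (wm vol w H).toReal * ρ H) ∧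
      (∀ R ∈ S, ∀ G ⊆ S, (∀ Q ∈ G, Q ⊆ R) →
        ∑ Q ∈ G, (wm vol w Q).toReal / ρ Q ≤ (256 * Ck) * (wm vol w R).toReal) := by
  classical
  have ht : (0:ℝ) < t₀ := lt_of_lt_of_le one_pos hΦ.one
  set b : Set α → ℝ := fun Q => (NN vol (rl Φ) (fun x => (w x : ℝ)) Q).toReal with hb
  have hwr : Measurable (fun x => (w x : ℝ)) := by fun_prop
  have hw0 : ∀ x, (0:ℝ) ≤ w x := fun x => NNReal.coe_nonneg _
  have hNfin : ∀ Q ∈ S, NN vol (rl Φ) (fun x => (w x : ℝ)) Q < ∞ := by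
    intro Q hQ
    have h1 : lux vol Φ w Q ≠ ∞ := by
      intro h
      have h2 := hK Q hQ
      rw [h, ENNReal.top_mul (ENNReal.div_pos (hν Q hQ).1.ne' (hv Q hQ).2.ne).ne'] at h2
      exact absurd h2 (by simp)
    refine lt_of_le_of_lt (NN_le_lux vol Φ w Q (hv Q hQ)) ?_
    exact ENNReal.mul_lt_top (ENNReal.mul_lt_top (by simp) (hv Q hQ).2) (lt_top_iff_ne_top.2 h1)
  have hμ' : ∀ Q ∈ S, 0 < ∫⁻ x in Q, ENNReal.ofReal (w x : ℝ) ∂vol ∧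
      ∫⁻ x in Q, ENNReal.ofReal (w x : ℝ) ∂vol < ∞ := by
    intro Q hQ
    have := hμ Q hQ
    rw [wm_apply vol w (hS.1 Q hQ)] at this
    exact this
  have hab : ∀ Q ∈ S, (wm vol w Q).toReal ≤ t₀ * b Q := by
    intro Q hQ
    have h1 := le_NN vol hΦ hwr hw0 Q
    rw [← wm_apply vol w (hS.1 Q hQ)] at h1
    have h2 := ENNReal.toReal_mono (ENNReal.mul_lt_top ENNReal.ofReal_lt_top (hNfin Q hQ)).ne h1
    rw [ENNReal.toReal_mul, ENNReal.toReal_ofReal ht.le] at h2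
    exact h2
  have ha0 : ∀ Q ∈ S, 0 < (wm vol w Q).toReal := fun Q hQ =>
    ENNReal.toReal_pos (hμ Q hQ).1.ne' (hμ Q hQ).2.ne
  have hb0 : ∀ Q ∈ S, 0 < b Q := by
    intro Q hQ
    by_contra hcon
    push Not at hcon
    have := hab Q hQ
    have := ha0 Q hQ
    nlinarith
  set ρ : Set α → ℝ := fun Q => t₀ * b Q / (wm vol w Q).toReal with hρ
  have hρa : ∀ Q ∈ S, (wm vol w Q).toReal * ρ Q = t₀ * b Q := by
    intro Q hQ
    have := ha0 Q hQ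
    simp only [hρ]; field_simp
  refine ⟨ρ, ?_, ?_, ?_, ?_⟩
  · intro Q hQ
    simp only [hρ]
    rw [le_div_iff₀ (ha0 Q hQ)]
    have := hab Q hQ
    linarith
  · intro Q hQ
    have e1 : (wm vol w Q).toReal * (wm vol σ Q).toReal * ρ Q = t₀ * (b Q * (wm vol σ Q).toReal) := by
      rw [mul_right_comm, hρa Q hQ]; ring
    rw [e1]
    have h1 : NN vol (rl Φ) (fun x => (w x : ℝ)) Q * wm vol σ Q ≤ 2 * (vol Q) ^ 2 * K := by
      calc NN vol (rl Φ) (fun x => (w x : ℝ)) Q * wm vol σ Q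
          ≤ (2 * vol Q * lux vol Φ w Q) * wm vol σ Q :=
            mul_le_mul' (NN_le_lux vol Φ w Q (hv Q hQ)) le_rfl
        _ = (2 * vol Q * lux vol Φ w Q) * (wm vol σ Q / vol Q * vol Q) := by
            rw [ENNReal.div_mul_cancel (hv Q hQ).1.ne' (hv Q hQ).2.ne]
        _ = 2 * (vol Q) ^ 2 * (lux vol Φ w Q * (wm vol σ Q / vol Q)) := by ring
        _ ≤ 2 * (vol Q) ^ 2 * K := mul_le_mul' le_rfl (hK Q hQ)
    have hfin : 2 * (vol Q) ^ 2 * (K : ℝ≥0∞) ≠ ∞ :=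
      ENNReal.mul_ne_top (ENNReal.mul_ne_top (by simp) (ENNReal.pow_ne_top (hv Q hQ).2.ne))
        ENNReal.coe_ne_top
    have h2 := ENNReal.toReal_mono hfin h1
    rw [ENNReal.toReal_mul, ENNReal.toReal_mul, ENNReal.toReal_mul, ENNReal.toReal_pow] at h2
    simp only [ENNReal.toReal_ofNat, ENNReal.coe_toReal] at h2
    have h3 : b Q * (wm vol σ Q).toReal ≤ 2 * (vol Q).toReal ^ 2 * K := h2
    nlinarith
  · intro H hH' M hM hMH hMd
    rw [hρa H hH', Finset.sum_congr rfl (fun F hF => hρa F (hM hF)), ← Finset.mul_sum]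
    apply mul_le_mul_of_nonneg_left _ ht.le
    have h1 := NN_super vol (rl Φ) (fun x => (w x : ℝ)) M H (fun F hF => hS.1 F (hM hF)) hMH hMd
    have h2 := ENNReal.toReal_mono (hNfin H hH').ne h1
    rw [ENNReal.toReal_sum (fun F hF => (hNfin F (hM hF)).ne)] at h2
    exact h2
  · intro R hR G hG hGR
    have h1 := embed vol hΦ hwr hw0 hθ0 hθ hCk G (hS.mono hG) (fun Q hQ => hv Q (hG hQ))
      (fun Q hQ => hμ' Q (hG hQ)) (fun Q hQ => hNfin Q (hG hQ)) (by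
        intro Q hQ
        refine le_trans ?_ (hH Q (hG hQ))
        refine mul_le_mul' (by norm_num) (measure_mono ?_)
        intro x hx
        obtain ⟨A, hA, hxA⟩ := Set.mem_iUnion₂.1 hx
        exact Set.mem_iUnion₂.2 ⟨A, ⟨hG hA.1, hA.2⟩, hxA⟩) R hGR
    rw [← wm_apply vol w (hS.1 R hR)] at h1
    have e1 : ∀ Q ∈ G, (wm vol w Q).toReal / ρ Q ≤ (∫⁻ x in Q, ENNReal.ofReal ((w x : ℝ)) ∂vol).toReal ^ 2 /
        (NN vol (rl Φ) (fun x => (w x : ℝ)) Q).toReal := by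
      intro Q hQ
      have hQS := hG hQ
      rw [← wm_apply vol w (hS.1 Q hQS)]
      have q1 := ha0 Q hQS
      have q2 := hb0 Q hQS
      have q3 : (wm vol w Q).toReal / ρ Q = (1 / t₀) * ((wm vol w Q).toReal ^ 2 / b Q) := by
        simp only [hρ]; field_simp
      rw [q3]
      have q4 : 1 / t₀ ≤ 1 := by rw [div_le_one ht]; exact hΦ.one
      have q5 : 0 ≤ (wm vol w Q).toReal ^ 2 / b Q := by positivity
      exact mul_le_of_le_one_left q5 q4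
    refine (Finset.sum_le_sum e1).trans ?_
    have hfin : 256 * (ENNReal.ofReal Ck * wm vol w R) ≠ ∞ :=
      ENNReal.mul_ne_top (by simp) (ENNReal.mul_ne_top ENNReal.ofReal_ne_top (hμ R hR).2.ne)
    have h2 := ENNReal.toReal_mono hfin h1
    rw [ENNReal.toReal_sum (fun _ _ => ENNReal.ofReal_ne_top), ENNReal.toReal_mul,
      ENNReal.toReal_mul, ENNReal.toReal_ofReal hCk0] at h2
    simp only [ENNReal.toReal_ofNat] at h2
    refine le_trans (le_of_eq ?_) (h2.trans (le_of_eq (by ring)))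
    apply Finset.sum_congr rfl
    intro Q _
    rw [ENNReal.toReal_ofReal]
    positivity

/-- bound for a halving family -/
theorem halvOp {Φ₁ Φ₂ : ℝ≥0 → ℝ≥0} (h₁ : IsYoung Φ₁) (h₂ : IsYoung Φ₂)
    (hint₁ : ∃ c : ℝ≥0, 0 < c ∧ ∫⁻ x in Set.Ioi (c:ℝ), ((Φ₁ x.toNNReal : ℝ≥0∞))⁻¹ ≠ ∞)
    (hint₂ : ∃ c : ℝ≥0, 0 < c ∧ ∫⁻ x in Set.Ioi (c:ℝ), ((Φ₂ x.toNNReal : ℝ≥0∞))⁻¹ ≠ ∞)
    (K : ℝ≥0) : ∃ C : ℝ≥0, ∀ (vol : Measure α) (w σ : α → ℝ≥0), Measurable w → Measurable σ →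
      ∀ S : Finset (Set α), SLam S →
      (∀ Q ∈ S, 0 < vol Q ∧ vol Q < ∞) → (∀ Q ∈ S, wm vol w Q < ∞) →
      (∀ Q ∈ S, wm vol σ Q < ∞) →
      (∀ Q ∈ S, 256 * vol (⋃ A ∈ {A ∈ (S : Set (Set α)) | A ⊂ Q}, A) ≤ vol Q) →
      (∀ Q ∈ S, lux vol Φ₁ w Q * (wm vol σ Q / vol Q) ≤ K) →
      (∀ Q ∈ S, lux vol Φ₂ σ Q * (wm vol w Q / vol Q) ≤ K) →
      ∀ f : α → ℝ≥0∞, Measurable f →
      ∫⁻ y, (∑ Q ∈ S, Q.indicator (fun _ => (∫⁻ z in Q, f z ∂(wm vol w)) / vol Q) y) ^ 2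
        ∂(wm vol σ) ≤ C * ∫⁻ y, f y ^ 2 ∂(wm vol w) := by
  classical
  obtain ⟨t₁, hY₁⟩ := h₁.ydata
  obtain ⟨t₂, hY₂⟩ := h₂.ydata
  obtain ⟨θ₁, hθ₁, hθ₁', Ck₁, hCk₁0, hCk₁⟩ := exists_Ck h₁ hY₁.one hint₁
  obtain ⟨θ₂, hθ₂, hθ₂', Ck₂, hCk₂0, hCk₂⟩ := exists_Ck h₂ hY₂.one hint₂
  have ht₁ : (0:ℝ) < t₁ := lt_of_lt_of_le one_pos hY₁.one
  have ht₂ : (0:ℝ) < t₂ := lt_of_lt_of_le one_pos hY₂.one
  set K' : ℝ := max 1 (max (2 * t₁ * K) (2 * t₂ * K)) with hK'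
  set C0 : ℝ := 256 * max Ck₁ Ck₂ with hC0
  have hC00 : 0 ≤ C0 := by
    have : 0 ≤ max Ck₁ Ck₂ := le_max_of_le_left hCk₁0
    positivity
  set CC : ℝ := 4 * K' ^ 2 * (16 * (18432 * (3 * C0 + 8)) + 17) ^ 2 with hCC
  refine ⟨CC.toNNReal, ?_⟩
  intro vol w σ hw hσ S hS hv hμ hν hH hK₁ hK₂ f hf
  set S₀ := S.filter (fun Q => 0 < wm vol w Q ∧ 0 < wm vol σ Q) with hS₀
  have hsub : S₀ ⊆ S := Finset.filter_subset _ _
  have hH₀ : ∀ Q ∈ S₀, 256 * vol (⋃ A ∈ {A ∈ (S₀ : Set (Set α)) | A ⊂ Q}, A) ≤ vol Q := by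
    intro Q hQ
    refine le_trans ?_ (hH Q (hsub hQ))
    refine mul_le_mul' le_rfl (measure_mono ?_)
    intro x hx
    obtain ⟨A, hA, hxA⟩ := Set.mem_iUnion₂.1 hx
    exact Set.mem_iUnion₂.2 ⟨A, ⟨hsub hA.1, hA.2⟩, hxA⟩
  have hμ₀ : ∀ Q ∈ S₀, 0 < wm vol w Q ∧ wm vol w Q < ∞ := fun Q hQ =>
    ⟨(Finset.mem_filter.1 hQ).2.1, hμ Q (hsub hQ)⟩
  have hν₀ : ∀ Q ∈ S₀, 0 < wm vol σ Q ∧ wm vol σ Q < ∞ := fun Q hQ =>
    ⟨(Finset.mem_filter.1 hQ).2.2, hν Q (hsub hQ)⟩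
  obtain ⟨ρ₁, a1, a2, a3, a4⟩ := bumpSide vol hY₁ hθ₁ hθ₁' hCk₁0 hCk₁ w σ hw K S₀ (hS.mono hsub)
    (fun Q hQ => hv Q (hsub hQ)) hμ₀ hν₀ hH₀ (fun Q hQ => hK₁ Q (hsub hQ))
  obtain ⟨ρ₂, b1, b2, b3, b4⟩ := bumpSide vol hY₂ hθ₂ hθ₂' hCk₂0 hCk₂ σ w hσ K S₀ (hS.mono hsub)
    (fun Q hQ => hv Q (hsub hQ)) hν₀ hμ₀ hH₀ (fun Q hQ => hK₂ Q (hsub hQ))
  have main := setOp vol (wm vol w) (wm vol σ) S₀ (hS.mono hsub) (fun Q hQ => hv Q (hsub hQ))
    hμ₀ hν₀ hH₀ ρ₁ ρ₂ K' (le_max_left _ _) a1 b1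
    (fun Q hQ => (a2 Q hQ).trans (mul_le_mul_of_nonneg_right
      ((le_max_left _ _).trans (le_max_right _ _)) (by positivity)))
    (fun Q hQ => by
      have := (b2 Q hQ).trans (mul_le_mul_of_nonneg_right
        ((le_max_right (2 * t₁ * K) (2 * t₂ * (K:ℝ))).trans (le_max_right 1 _)) (by positivity))
      calc _ = (wm vol σ Q).toReal * (wm vol w Q).toReal * ρ₂ Q := by ring
        _ ≤ _ := this) a3 b3 C0 hC00
    (fun R hR G hG hGR => (a4 R hR G hG hGR).trans (mul_le_mul_of_nonneg_right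
      (by rw [hC0]; exact mul_le_mul_of_nonneg_left (le_max_left _ _) (by norm_num))
      ENNReal.toReal_nonneg))
    (fun R hR G hG hGR => (b4 R hR G hG hGR).trans (mul_le_mul_of_nonneg_right
      (by rw [hC0]; exact mul_le_mul_of_nonneg_left (le_max_right _ _) (by norm_num))
      ENNReal.toReal_nonneg)) f hf
  rw [← hCC] at main
  have e0 : ((CC.toNNReal : ℝ≥0) : ℝ≥0∞) = ENNReal.ofReal CC := rfl
  rw [e0]
  refine le_trans (le_of_eq ?_) main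
  apply lintegral_congr_ae
  have h0 : ∀ᵐ y ∂(wm vol σ), ∀ Q ∈ S, wm vol σ Q = 0 → y ∉ Q := by
    rw [Filter.eventually_all_finset]
    intro Q hQ
    by_cases h : wm vol σ Q = 0
    · have : ∀ᵐ y ∂(wm vol σ), y ∉ Q := measure_eq_zero_iff_ae_notMem.1 h
      filter_upwards [this] with y hy _
      exact hy
    · filter_upwards with y hy
      exact absurd hy h
  filter_upwards [h0] with y hy
  congr 1
  symm
  apply Finset.sum_subset hsub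
  intro Q hQ hQ0
  have : wm vol w Q = 0 ∨ wm vol σ Q = 0 := by
    by_contra hcon
    push Not at hcon
    exact hQ0 (Finset.mem_filter.2 ⟨hQ, pos_iff_ne_zero.2 hcon.1, pos_iff_ne_zero.2 hcon.2⟩)
  rcases this with h | h
  · rw [setLIntegral_measure_zero _ _ h]; simp
  · exact Set.indicator_of_notMem (hy Q hQ h) _

lemma sq_sum_le {ι : Type*} (s : Finset ι) (a : ι → ℝ≥0∞) :
    (∑ i ∈ s, a i) ^ 2 ≤ (s.card : ℝ≥0∞) ^ 2 * ∑ i ∈ s, a i ^ 2 := by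
  rcases s.eq_empty_or_nonempty with h | h
  · simp [h]
  · obtain ⟨i, hi, hmax⟩ := Finset.exists_max_image s a h
    have h1 : ∑ j ∈ s, a j ≤ s.card * a i := by
      have := Finset.sum_le_card_nsmul s a (a i) hmax
      rwa [nsmul_eq_mul] at this
    calc (∑ i ∈ s, a i) ^ 2 ≤ (s.card * a i) ^ 2 := pow_le_pow_left₀ bot_le h1 2
      _ = (s.card : ℝ≥0∞) ^ 2 * a i ^ 2 := by ring
      _ ≤ _ := mul_le_mul' le_rfl (Finset.single_le_sum (f := fun j => a j ^ 2)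
        (fun _ _ => bot_le) hi)

/-- bound for a Carleson family -/
theorem carlOp {Φ₁ Φ₂ : ℝ≥0 → ℝ≥0} (h₁ : IsYoung Φ₁) (h₂ : IsYoung Φ₂)
    (hint₁ : ∃ c : ℝ≥0, 0 < c ∧ ∫⁻ x in Set.Ioi (c:ℝ), ((Φ₁ x.toNNReal : ℝ≥0∞))⁻¹ ≠ ∞)
    (hint₂ : ∃ c : ℝ≥0, 0 < c ∧ ∫⁻ x in Set.Ioi (c:ℝ), ((Φ₂ x.toNNReal : ℝ≥0∞))⁻¹ ≠ ∞)
    (K : ℝ≥0) (Λ : ℕ) (hΛ : 0 < Λ) :
    ∃ C : ℝ≥0, ∀ (vol : Measure α) (w σ : α → ℝ≥0), Measurable w → Measurable σ →
      ∀ S : Finset (Set α), SLam S →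
      (∀ Q ∈ S, 0 < vol Q ∧ vol Q < ∞) → (∀ Q ∈ S, wm vol w Q < ∞) →
      (∀ Q ∈ S, wm vol σ Q < ∞) →
      (∀ Q ∈ S, ∀ G ⊆ S, (∀ A ∈ G, A ⊆ Q) → ∑ A ∈ G, vol A ≤ Λ * vol Q) →
      (∀ Q ∈ S, lux vol Φ₁ w Q * (wm vol σ Q / vol Q) ≤ K) →
      (∀ Q ∈ S, lux vol Φ₂ σ Q * (wm vol w Q / vol Q) ≤ K) →
      ∀ f : α → ℝ≥0∞, Measurable f →
      ∫⁻ y, (∑ Q ∈ S, Q.indicator (fun _ => (∫⁻ z in Q, f z ∂(wm vol w)) / vol Q) y) ^ 2
        ∂(wm vol σ) ≤ C * ∫⁻ y, f y ^ 2 ∂(wm vol w) := by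
  classical
  obtain ⟨C, hC⟩ := halvOp (α := α) h₁ h₂ hint₁ hint₂ K
  set N := 256 * Λ with hN
  have hN0 : 0 < N := by omega
  refine ⟨(N : ℝ≥0) ^ 2 * (N * C), ?_⟩
  intro vol w σ hw hσ S hS hv hμ hν hcarl hK₁ hK₂ f hf
  set gen : Set α → ℕ := fun Q => (S.filter (fun A => Q ⊂ A)).card with hgen
  set Sr : ℕ → Finset (Set α) := fun r => S.filter (fun Q => gen Q % N = r) with hSr
  have hSrS : ∀ r, Sr r ⊆ S := fun r => Finset.filter_subset _ _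
  have hhalf : ∀ r, ∀ Q ∈ Sr r, 256 * vol (⋃ A ∈ {A ∈ (Sr r : Set (Set α)) | A ⊂ Q}, A) ≤ vol Q := by
    intro r Q hQ
    have hQS := hSrS r hQ
    have hQr : gen Q % N = r := (Finset.mem_filter.1 hQ).2
    set U := ⋃ A ∈ {A ∈ (Sr r : Set (Set α)) | A ⊂ Q}, A with hU
    have hUm : MeasurableSet U := by
      apply Set.Finite.measurableSet_biUnion
      · exact (Sr r).finite_toSet.subset (fun A hA => hA.1)
      · intro A hA
        exact hS.1 A (hSrS r hA.1)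
    have hcount : ∀ y ∈ U, (N : ℝ≥0∞) ≤ ∑ B ∈ S with B ⊆ Q, B.indicator (fun _ => (1:ℝ≥0∞)) y := by
      intro y hy
      obtain ⟨A, hA, hyA⟩ := Set.mem_iUnion₂.1 hy
      have hAS := hSrS r hA.1
      have hAr : gen A % N = r := (Finset.mem_filter.1 hA.1).2
      have hAQ : A ⊂ Q := hA.2
      have h1 : gen Q < gen A := by
        apply Finset.card_lt_card
        rw [Finset.ssubset_iff_of_subset]
        · exact ⟨Q, Finset.mem_filter.2 ⟨hQS, hAQ⟩, fun hc => (Finset.mem_filter.1 hc).2.2 subset_rfl⟩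
        · intro B hB
          have hB' := Finset.mem_filter.1 hB
          exact Finset.mem_filter.2 ⟨hB'.1, hAQ.trans hB'.2⟩
      have h2 : gen Q + N ≤ gen A := by
        have e1 := Nat.div_add_mod (gen Q) N
        have e2 := Nat.div_add_mod (gen A) N
        rw [hQr] at e1
        rw [hAr] at e2
        have e3 : gen Q / N < gen A / N := by
          by_contra hcon
          push Not at hcon
          have := Nat.mul_le_mul_left N hcon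
          omega
        have := Nat.mul_le_mul_left N (Nat.succ_le_of_lt e3)
        rw [Nat.mul_succ] at this
        omega
      have h3 : N ≤ (S.filter (fun B => A ⊂ B ∧ B ⊆ Q)).card := by
        have h4 : S.filter (fun B => A ⊂ B) ⊆ (S.filter (fun B => A ⊂ B ∧ B ⊆ Q)) ∪
            (S.filter (fun B => Q ⊂ B)) := by
          intro B hB
          have hB' := Finset.mem_filter.1 hB
          rw [Finset.mem_union, Finset.mem_filter, Finset.mem_filter]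
          rcases hS.comp hB'.1 hQS (hB'.2.1 hyA) (hAQ.1 hyA) with h | h
          · exact Or.inl ⟨hB'.1, hB'.2, h⟩
          · exact Or.inr ⟨hB'.1, h⟩
        have h5 := Finset.card_le_card h4
        have h6 := Finset.card_union_le (S.filter (fun B => A ⊂ B ∧ B ⊆ Q))
          (S.filter (fun B => Q ⊂ B))
        simp only [hgen] at h2
        omega
      have h5 : (((S.filter (fun B => A ⊂ B ∧ B ⊆ Q)).card : ℕ) : ℝ≥0∞) ≤
          ∑ B ∈ S with B ⊆ Q, B.indicator (fun _ => (1:ℝ≥0∞)) y := by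
        have h6 : (((S.filter (fun B => A ⊂ B ∧ B ⊆ Q)).card : ℕ) : ℝ≥0∞) =
            ∑ B ∈ S with A ⊂ B ∧ B ⊆ Q, B.indicator (fun _ => (1:ℝ≥0∞)) y := by
          rw [Finset.card_eq_sum_ones]
          push_cast
          apply Finset.sum_congr rfl
          intro B hB
          have hB' := Finset.mem_filter.1 hB
          rw [Set.indicator_of_mem (hB'.2.1.1 hyA)]
        rw [h6]
        apply Finset.sum_le_sum_of_subset_of_nonneg
        · intro B hB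
          have hB' := Finset.mem_filter.1 hB
          exact Finset.mem_filter.2 ⟨hB'.1, hB'.2.2⟩
        · intro _ _ _; exact bot_le
      refine le_trans ?_ h5
      exact_mod_cast h3
    have h1 : (N : ℝ≥0∞) * vol U ≤ Λ * vol Q := by
      calc (N : ℝ≥0∞) * vol U = ∫⁻ y in U, (N : ℝ≥0∞) ∂vol := by
            rw [lintegral_const, Measure.restrict_apply MeasurableSet.univ, Set.univ_inter]
        _ ≤ ∫⁻ y in U, ∑ B ∈ S with B ⊆ Q, B.indicator (fun _ => (1:ℝ≥0∞)) y ∂vol :=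
            setLIntegral_mono' hUm hcount
        _ ≤ ∫⁻ y, ∑ B ∈ S with B ⊆ Q, B.indicator (fun _ => (1:ℝ≥0∞)) y ∂vol :=
            setLIntegral_le_lintegral _ _
        _ = ∑ B ∈ S with B ⊆ Q, vol B := by
            rw [lintegral_finsetSum]
            · apply Finset.sum_congr rfl
              intro B hB
              rw [lintegral_indicator (hS.1 B (Finset.mem_filter.1 hB).1), lintegral_const,
                Measure.restrict_apply MeasurableSet.univ, Set.univ_inter, one_mul]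
            · intro B hB
              exact measurable_const.indicator (hS.1 B (Finset.mem_filter.1 hB).1)
        _ ≤ Λ * vol Q := hcarl Q hQS _ (Finset.filter_subset _ _)
            (fun A hA => (Finset.mem_filter.1 hA).2)
    have h2 : (Λ : ℝ≥0∞) * (256 * vol U) ≤ Λ * vol Q := by
      refine le_trans (le_of_eq ?_) h1
      rw [hN]; push_cast; ring
    exact (ENNReal.mul_le_mul_iff_right (by exact_mod_cast hΛ.ne') (by simp)).1 h2
  have hdec : ∀ y, ∑ Q ∈ S, Q.indicator (fun _ => (∫⁻ z in Q, f z ∂(wm vol w)) / vol Q) y =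
      ∑ r ∈ Finset.range N, ∑ Q ∈ Sr r,
        Q.indicator (fun _ => (∫⁻ z in Q, f z ∂(wm vol w)) / vol Q) y := by
    intro y
    rw [← Finset.sum_fiberwise_of_maps_to (s := S) (t := Finset.range N) (g := fun Q => gen Q % N)
      (fun Q _ => Finset.mem_range.2 (Nat.mod_lt _ hN0))]
  have hmeas : ∀ r, Measurable (fun y => ∑ Q ∈ Sr r,
        Q.indicator (fun _ => (∫⁻ z in Q, f z ∂(wm vol w)) / vol Q) y) := by
    intro r
    apply Finset.measurable_fun_sum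
    intro Q hQ
    exact measurable_const.indicator (hS.1 Q (hSrS r hQ))
  calc ∫⁻ y, (∑ Q ∈ S, Q.indicator (fun _ => (∫⁻ z in Q, f z ∂(wm vol w)) / vol Q) y) ^ 2
        ∂(wm vol σ)
      ≤ ∫⁻ y, (N : ℝ≥0∞) ^ 2 * ∑ r ∈ Finset.range N, (∑ Q ∈ Sr r,
        Q.indicator (fun _ => (∫⁻ z in Q, f z ∂(wm vol w)) / vol Q) y) ^ 2 ∂(wm vol σ) := by
        apply lintegral_mono
        intro y
        show (∑ Q ∈ S, Q.indicator (fun _ => (∫⁻ z in Q, f z ∂(wm vol w)) / vol Q) y) ^ 2 ≤ _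
        rw [hdec]
        have := sq_sum_le (Finset.range N) (fun r => ∑ Q ∈ Sr r,
          Q.indicator (fun _ => (∫⁻ z in Q, f z ∂(wm vol w)) / vol Q) y)
        rw [Finset.card_range] at this
        exact this
    _ = (N : ℝ≥0∞) ^ 2 * ∑ r ∈ Finset.range N, ∫⁻ y, (∑ Q ∈ Sr r,
        Q.indicator (fun _ => (∫⁻ z in Q, f z ∂(wm vol w)) / vol Q) y) ^ 2 ∂(wm vol σ) := by
        rw [lintegral_const_mul _ (Finset.measurable_fun_sum _ (fun r _ => (hmeas r).pow_const 2)),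
          lintegral_finsetSum _ (fun r _ => (hmeas r).pow_const 2)]
    _ ≤ (N : ℝ≥0∞) ^ 2 * ∑ r ∈ Finset.range N, (C * ∫⁻ y, f y ^ 2 ∂(wm vol w)) := by
        apply mul_le_mul' le_rfl
        apply Finset.sum_le_sum
        intro r _
        exact hC vol w σ hw hσ (Sr r) (hS.mono (hSrS r)) (fun Q hQ => hv Q (hSrS r hQ))
          (fun Q hQ => hμ Q (hSrS r hQ)) (fun Q hQ => hν Q (hSrS r hQ)) (hhalf r)
          (fun Q hQ => hK₁ Q (hSrS r hQ)) (fun Q hQ => hK₂ Q (hSrS r hQ)) f hf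
    _ = _ := by
        rw [Finset.sum_const, Finset.card_range, nsmul_eq_mul]
        push_cast; ring

end Pool.Agent.H433R3.Sep
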