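import Pool.Agent.H433R3.Sep12

set_option autoImplicit false
set_option linter.unusedSectionVars false
set_option linter.unusedVariables false

namespace Pool.Agent.H433R3.Sep

open MeasureTheory Metric Filter Topology
open scoped ENNReal NNReal

variable {d : ℕ}

lemma ix_of_mem {t : Fin d → Bool} {I : Idx d} {x : Fin d → ℝ} (hx : x ∈ gq t I) :
    ix t I.1 x = I := mem_gq.1 hx

lemma ix_congr {t : Fin d → Bool} {I : Idx d} {x y : Fin d → ℝ} (hx : x ∈ gq t I)
    (hy : y ∈ gq t I) {j : ℤ} (hj : I.1 ≤ j) : ix t j x = ix t j y := by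
  have h1 : y ∈ gq t (ix t j x) := gq_nest t (I := I) (J := ix t j x) hj hx (mem_gq_ix t j x) hy
  have h2 := mem_gq.1 h1
  exact h2.symm

/-- Stopping lemma in a grid. -/
lemma stop (t : Fin d → Bool) (p : Idx d → Prop)
    (hb : ∀ x, ∃ j₀ : ℤ, ∀ j, p (ix t j x) → j ≤ j₀) :
    ∃ M : Set (Idx d), (∀ I ∈ M, p I) ∧
      (∀ I ∈ M, ∀ x ∈ gq t I, ∀ j, I.1 < j → ¬ p (ix t j x)) ∧
      (∀ I ∈ M, ∀ J ∈ M, I ≠ J → Disjoint (gq t I) (gq t J)) ∧
      (∀ I, p I → gq t I ⊆ ⋃ J ∈ M, gq t J) := by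
  classical
  refine ⟨{I | p I ∧ ∀ x ∈ gq t I, ∀ j, I.1 < j → ¬ p (ix t j x)}, fun I hI => hI.1,
    fun I hI => hI.2, ?_, ?_⟩
  · intro I hI J hJ hIJ
    rw [Set.disjoint_left]
    intro x hx hx'
    apply hIJ
    have e1 := ix_of_mem hx
    have e2 := ix_of_mem hx'
    rcases lt_trichotomy I.1 J.1 with h | h | h
    · exact absurd hJ.1 (by have := hI.2 x hx J.1 h; rwa [e2] at this)
    · rw [← e1, ← e2, h]
    · exact absurd hI.1 (by have := hJ.2 x hx' I.1 h; rwa [e1] at this)
  · intro I hpI x hx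
    obtain ⟨j₀, hj₀⟩ := hb x
    obtain ⟨m, hm, hmax⟩ := Int.exists_greatest_of_bdd (P := fun j => p (ix t j x))
      ⟨j₀, fun j hj => hj₀ j hj⟩ ⟨I.1, by rw [ix_of_mem hx]; exact hpI⟩
    refine Set.mem_iUnion₂.2 ⟨ix t m x, ⟨hm, ?_⟩, mem_gq_ix t m x⟩
    intro y hy j hj hpj
    have h1 : ix t j x = ix t j y := ix_congr (mem_gq_ix t m x) hy (le_of_lt hj)
    rw [← h1] at hpj
    have := hmax j hpj
    have h2 : (ix t m x).1 = m := rfl
    rw [h2] at hj
    omega

lemma vol_cb (x : Fin d → ℝ) {r : ℝ} (hr : 0 ≤ r) :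
    volume (closedBall x r) = ENNReal.ofReal (2 * r) ^ d := by
  rw [Real.volume_pi_closedBall _ hr, Fintype.card_fin, ENNReal.ofReal_pow (by positivity)]

lemma vol_cb_pos (x : Fin d → ℝ) {r : ℝ} (hr : 0 < r) : 0 < volume (closedBall x r) := by
  rw [vol_cb x hr.le]
  apply pos_iff_ne_zero.2
  apply pow_ne_zero
  simp only [ne_eq, ENNReal.ofReal_eq_zero, not_le]; positivity

lemma vol_cb_fin (x : Fin d → ℝ) (r : ℝ) : volume (closedBall x r) < ∞ :=
  (isCompact_closedBall x r).measure_lt_top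

lemma vol_cb_mul (x : Fin d → ℝ) {c r : ℝ} (hc : 0 ≤ c) (hr : 0 ≤ r) :
    volume (closedBall x (c * r)) = ENNReal.ofReal c ^ d * volume (closedBall x r) := by
  rw [vol_cb x (by positivity), vol_cb x hr, ← mul_pow, ← ENNReal.ofReal_mul hc]
  congr 2; ring

/-- weak type bound for the centred maximal function over sup-norm balls -/
lemma maxWeak (hd : 0 < d) (f : (Fin d → ℝ) → ℝ≥0∞) (hfin : ∫⁻ x, f x < ∞)
    (lam : ℝ≥0∞) (hl0 : lam ≠ 0) (hl : lam ≠ ∞) :
    lam * volume {x | ∃ r : ℝ, 0 < r ∧ lam * volume (closedBall x r) < ∫⁻ y in closedBall x r, f y}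
      ≤ 4 ^ d * ∫⁻ x, f x := by
  classical
  set A := {x | ∃ r : ℝ, 0 < r ∧ lam * volume (closedBall x r) < ∫⁻ y in closedBall x r, f y}
    with hA
  have hex : ∀ x : Fin d → ℝ, ∃ r : ℝ, x ∈ A → 0 < r ∧
      lam * volume (closedBall x r) < ∫⁻ y in closedBall x r, f y := by
    intro x
    by_cases h : x ∈ A
    · obtain ⟨r, hr⟩ := h
      exact ⟨r, fun _ => hr⟩
    · exact ⟨0, fun h' => absurd h' h⟩
  choose r hr using hex
  -- bounded radii
  have hbd : ∃ R : ℝ, ∀ x ∈ A, r x ≤ R := by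
    set B := (∫⁻ x, f x) / lam with hB
    have hBfin : B ≠ ∞ := (ENNReal.div_lt_top hfin.ne hl0).ne
    refine ⟨max 1 B.toReal, fun x hx => ?_⟩
    obtain ⟨h1, h2⟩ := hr x hx
    have h3 : volume (closedBall x (r x)) ≤ B := by
      rw [hB, ENNReal.le_div_iff_mul_le (Or.inl hl0) (Or.inl hl), mul_comm]
      exact h2.le.trans (setLIntegral_le_lintegral _ _)
    rw [vol_cb x h1.le] at h3
    by_contra hcon
    push Not at hcon
    have h4 : 1 < r x := lt_of_le_of_lt (le_max_left _ _) hcon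
    have h5 : B.toReal < r x := lt_of_le_of_lt (le_max_right _ _) hcon
    have h6 : ENNReal.ofReal (2 * r x) ≤ ENNReal.ofReal (2 * r x) ^ d := by
      have h7 : 1 ≤ ENNReal.ofReal (2 * r x) := by
        rw [← ENNReal.ofReal_one]; exact ENNReal.ofReal_le_ofReal (by linarith)
      calc ENNReal.ofReal (2 * r x) = ENNReal.ofReal (2 * r x) ^ 1 := by rw [pow_one]
        _ ≤ _ := pow_le_pow_right₀ h7 hd
    have h8 := h6.trans h3
    rw [← ENNReal.ofReal_toReal hBfin] at h8
    have h9 := (ENNReal.ofReal_le_ofReal_iff ENNReal.toReal_nonneg).1 h8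
    linarith
  obtain ⟨R, hR⟩ := hbd
  obtain ⟨u, huA, hudis, hucov⟩ := Vitali.exists_disjoint_subfamily_covering_enlargement_closedBall
    A (fun x => x) r R hR 4 (by norm_num)
  have hucount : u.Countable := hudis.countable_of_nonempty_interior (fun x hx => by
    refine ⟨x, ?_⟩
    apply ball_subset_interior_closedBall
    exact mem_ball_self (hr x (huA hx)).1)
  have h1 : volume A ≤ ∑' x : u, volume (closedBall (x : Fin d → ℝ) (4 * r x)) := by
    calc volume A ≤ volume (⋃ x ∈ u, closedBall x (4 * r x)) := by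
          apply measure_mono
          intro x hx
          obtain ⟨b, hb, hsub⟩ := hucov x hx
          exact Set.mem_iUnion₂.2 ⟨b, hb, hsub (mem_closedBall_self (hr x hx).1.le)⟩
      _ ≤ _ := measure_biUnion_le volume hucount _
  calc lam * volume A ≤ lam * ∑' x : u, volume (closedBall (x : Fin d → ℝ) (4 * r x)) :=
        mul_le_mul' le_rfl h1
    _ = ∑' x : u, lam * volume (closedBall (x : Fin d → ℝ) (4 * r x)) := by
        rw [ENNReal.tsum_mul_left]
    _ ≤ ∑' x : u, 4 ^ d * ∫⁻ y in closedBall (x : Fin d → ℝ) (r x), f y := by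
        apply ENNReal.tsum_le_tsum
        intro x
        obtain ⟨h2, h3⟩ := hr x (huA x.2)
        rw [vol_cb_mul _ (by norm_num) h2.le]
        have e : ENNReal.ofReal 4 = 4 := by norm_num
        rw [e]
        calc lam * (4 ^ d * volume (closedBall (x : Fin d → ℝ) (r x)))
            = 4 ^ d * (lam * volume (closedBall (x : Fin d → ℝ) (r x))) := by ring
          _ ≤ _ := mul_le_mul' le_rfl h3.le
    _ = 4 ^ d * ∑' x : u, ∫⁻ y in closedBall (x : Fin d → ℝ) (r x), f y := by
        rw [ENNReal.tsum_mul_left]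
    _ ≤ 4 ^ d * ∫⁻ x, f x := by
        apply mul_le_mul' le_rfl
        have : Countable u := hucount.to_subtype
        rw [← lintegral_iUnion (fun x : u => (isClosed_closedBall).measurableSet)
          (fun x y hxy => hudis x.2 y.2 (fun h => hxy (Subtype.ext h)))]
        exact setLIntegral_le_lintegral _ _

/-- Tail estimate. -/
lemma tail (d : ℕ) (al : ℝ) (hal : 0 < al) : ∃ Ct : ℝ≥0, ∀ (f : (Fin d → ℝ) → ℝ≥0∞)
    (x₀ : Fin d → ℝ) (r : ℝ) (lam : ℝ≥0∞), Measurable f → 0 < r →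
    (∀ ρ, r ≤ ρ → ∫⁻ y in closedBall x₀ ρ, f y ≤ lam * volume (closedBall x₀ ρ)) →
    ∫⁻ y in {y | r ≤ ‖y - x₀‖}, f y * ENNReal.ofReal (r ^ al / (‖y - x₀‖ ^ al * ‖y - x₀‖ ^ d)) ≤
      Ct * lam := by
  set q : ℝ≥0∞ := ENNReal.ofReal ((2:ℝ) ^ (-al)) with hq
  have hq1 : q < 1 := by
    rw [hq, ← ENNReal.ofReal_one, ENNReal.ofReal_lt_ofReal_iff (by norm_num)]
    exact Real.rpow_lt_one_of_one_lt_of_neg (by norm_num) (by linarith)
  have hCfin : (4:ℝ≥0∞) ^ d * (1 - q)⁻¹ ≠ ∞ := by
    apply ENNReal.mul_ne_top (ENNReal.pow_ne_top (by simp))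
    rw [ENNReal.inv_ne_top]
    exact (tsub_pos_iff_lt.2 hq1).ne'
  refine ⟨((4:ℝ≥0∞) ^ d * (1 - q)⁻¹).toNNReal, ?_⟩
  intro f x₀ r lam hf hr hM
  rw [ENNReal.coe_toNNReal hCfin]
  set rk : ℕ → ℝ := fun k => 2 ^ k * r with hrk
  have hrk0 : ∀ k, 0 < rk k := fun k => by simp only [hrk]; positivity
  have hpt : ∀ y ∈ {y | r ≤ ‖y - x₀‖},
      f y * ENNReal.ofReal (r ^ al / (‖y - x₀‖ ^ al * ‖y - x₀‖ ^ d)) ≤
      ∑' k : ℕ, ENNReal.ofReal (r ^ al / (rk k ^ al * rk k ^ d)) *
        (closedBall x₀ (rk (k+1))).indicator f y := by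
    intro y hy
    have hy' : r ≤ ‖y - x₀‖ := hy
    have hs : 1 ≤ ‖y - x₀‖ / r := by rw [le_div_iff₀ hr]; linarith
    obtain ⟨k, hk1, hk2⟩ := exists_nat_pow_near hs (by norm_num : (1:ℝ) < 2)
    have hk1' : rk k ≤ ‖y - x₀‖ := by
      rw [le_div_iff₀ hr] at hk1; exact hk1
    have hk2' : ‖y - x₀‖ < rk (k+1) := by
      rw [div_lt_iff₀ hr] at hk2; exact hk2
    have hymem : y ∈ closedBall x₀ (rk (k+1)) := by
      rw [mem_closedBall, dist_eq_norm]; exact hk2'.le
    refine le_trans ?_ (ENNReal.le_tsum k)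
    rw [Set.indicator_of_mem hymem, mul_comm]
    apply mul_le_mul' _ le_rfl
    apply ENNReal.ofReal_le_ofReal
    apply div_le_div_of_nonneg_left (Real.rpow_nonneg hr.le _)
    · have := hrk0 k
      positivity
    · apply mul_le_mul (Real.rpow_le_rpow (hrk0 k).le hk1' hal.le)
        (pow_le_pow_left₀ (hrk0 k).le hk1' d) (by have := hrk0 k; positivity)
      exact Real.rpow_nonneg (by positivity) _
  have hmS : MeasurableSet {y : Fin d → ℝ | r ≤ ‖y - x₀‖} := by
    apply measurableSet_le measurable_const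
    fun_prop
  calc ∫⁻ y in {y | r ≤ ‖y - x₀‖}, f y * ENNReal.ofReal (r ^ al / (‖y - x₀‖ ^ al * ‖y - x₀‖ ^ d))
      ≤ ∫⁻ y in {y | r ≤ ‖y - x₀‖}, ∑' k : ℕ, ENNReal.ofReal (r ^ al / (rk k ^ al * rk k ^ d)) *
        (closedBall x₀ (rk (k+1))).indicator f y := setLIntegral_mono' hmS hpt
    _ ≤ ∫⁻ y, ∑' k : ℕ, ENNReal.ofReal (r ^ al / (rk k ^ al * rk k ^ d)) *
        (closedBall x₀ (rk (k+1))).indicator f y := setLIntegral_le_lintegral _ _
    _ = ∑' k : ℕ, ENNReal.ofReal (r ^ al / (rk k ^ al * rk k ^ d)) *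
        ∫⁻ y in closedBall x₀ (rk (k+1)), f y := by
        rw [lintegral_tsum]
        · apply tsum_congr
          intro k
          rw [lintegral_const_mul _ (hf.indicator isClosed_closedBall.measurableSet),
            lintegral_indicator isClosed_closedBall.measurableSet]
        · intro k
          exact (measurable_const.mul (hf.indicator isClosed_closedBall.measurableSet)).aemeasurable
    _ ≤ ∑' k : ℕ, (4 ^ d * lam) * q ^ k := by
        apply ENNReal.tsum_le_tsum
        intro k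
        have h1 := hM (rk (k+1)) (by
          simp only [hrk]
          have : (1:ℝ) ≤ 2 ^ (k+1) := one_le_pow₀ (by norm_num)
          nlinarith)
        have h2 := hrk0 k
        calc ENNReal.ofReal (r ^ al / (rk k ^ al * rk k ^ d)) * ∫⁻ y in closedBall x₀ (rk (k+1)), f y
            ≤ ENNReal.ofReal (r ^ al / (rk k ^ al * rk k ^ d)) *
              (lam * volume (closedBall x₀ (rk (k+1)))) := mul_le_mul' le_rfl h1
          _ = lam * (ENNReal.ofReal (r ^ al / (rk k ^ al * rk k ^ d)) *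
              ENNReal.ofReal ((2 * rk (k+1)) ^ d)) := by
              rw [vol_cb x₀ (hrk0 _).le, ENNReal.ofReal_pow (by have := hrk0 (k+1); positivity)]
              ring
          _ = lam * (ENNReal.ofReal (4 ^ d * ((2:ℝ) ^ (-al)) ^ k)) := by
              rw [← ENNReal.ofReal_mul (by positivity)]
              congr 2
              have e1 : rk (k+1) = 2 * rk k := by simp only [hrk]; ring
              have e2 : rk k ^ al = (2 ^ k) ^ al * r ^ al := by
                simp only [hrk]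
                rw [Real.mul_rpow (by positivity) hr.le]
              have e3 : ((2:ℝ) ^ k) ^ al = ((2:ℝ) ^ al) ^ k := by
                rw [← Real.rpow_natCast, ← Real.rpow_natCast, ← Real.rpow_mul (by norm_num),
                  ← Real.rpow_mul (by norm_num), mul_comm]
              have e4 : ((2:ℝ) ^ (-al)) ^ k = 1 / ((2:ℝ) ^ al) ^ k := by
                rw [Real.rpow_neg (by norm_num), inv_pow, one_div]
              have hr' : 0 < r ^ al := Real.rpow_pos_of_pos hr _
              have h2' : 0 < (2:ℝ) ^ al := Real.rpow_pos_of_pos (by norm_num) _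
              rw [e4, e2, e3, e1]
              have e5 : (2 * (2 * rk k)) ^ d = 4 ^ d * rk k ^ d := by
                rw [← mul_pow]; ring_nf
              rw [e5]
              field_simp
          _ = (4 ^ d * lam) * q ^ k := by
              rw [ENNReal.ofReal_mul (by positivity), ENNReal.ofReal_pow (by norm_num),
                ENNReal.ofReal_pow (Real.rpow_nonneg (by norm_num) _), hq]
              have e : ENNReal.ofReal 4 = 4 := by norm_num
              rw [e]; ring
    _ = 4 ^ d * (1 - q)⁻¹ * lam := by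
        rw [ENNReal.tsum_mul_left, ENNReal.tsum_geometric]; ring

lemma gq_ae_cb (t : Fin d → Bool) (I : Idx d) :
    gq t I =ᵐ[volume] closedBall (ctr t I) (2 ^ I.1 / 2) := by
  have h1 : gq t I ⊆ closedBall (ctr t I) (2 ^ I.1 / 2) := by
    have := gq_sub_dil (le_refl (1:ℝ)) t I
    unfold dil at this
    rwa [one_mul] at this
  apply ae_eq_of_subset_of_measure_ge h1
  · rw [gq_vol, vol_cb _ (by positivity)]
    apply le_of_eq
    congr 2; ring
  · exact (gq_meas t I).nullMeasurableSet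
  · exact (vol_cb_fin _ _).ne

/-- differentiation along a grid -/
lemma grid_diff (t : Fin d → Bool) (f : (Fin d → ℝ) → ℝ) (hf : LocallyIntegrable f volume) :
    ∀ᵐ x, Tendsto (fun n : ℕ => ⨍ y in gq t (ix t (-(n:ℤ)) x), f y) atTop (𝓝 (f x)) := by
  have h := IsUnifLocDoublingMeasure.ae_tendsto_average (μ := (volume : Measure (Fin d → ℝ))) hf 1
  filter_upwards [h] with x hx
  have h1 := hx (l := atTop) (fun n : ℕ => ctr t (ix t (-(n:ℤ)) x))
    (fun n : ℕ => (2:ℝ) ^ (-(n:ℤ)) / 2) (by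
      rw [tendsto_nhdsWithin_iff]
      constructor
      · have h2 : Tendsto (fun n : ℕ => ((1/2:ℝ)) ^ n) atTop (𝓝 0) :=
          tendsto_pow_atTop_nhds_zero_of_lt_one (by norm_num) (by norm_num)
        have h3 : (fun n : ℕ => (2:ℝ) ^ (-(n:ℤ)) / 2) = fun n : ℕ => ((1/2:ℝ)) ^ n / 2 := by
          funext n
          rw [zpow_neg, zpow_natCast, one_div, inv_pow]
        rw [h3]
        have := h2.div_const 2
        rwa [zero_div] at this
      · filter_upwards with n
        rw [Set.mem_Ioi]; positivity) (by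
      filter_upwards with n
      have := gq_sub_dil (le_refl (1:ℝ)) t (ix t (-(n:ℤ)) x) (mem_gq_ix t _ x)
      unfold dil at this
      rw [one_mul] at this ⊢
      exact this)
  refine h1.congr (fun n => ?_)
  exact (setAverage_congr (gq_ae_cb t (ix t (-(n:ℤ)) x))).symm

end Pool.Agent.H433R3.Sep
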