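import Pool.Agent.H433R3.Sep14

set_option autoImplicit false
set_option linter.unusedSectionVars false
set_option linter.unusedVariables false

namespace Pool.Agent.H433R3.Sep

open MeasureTheory Metric Filter Topology
open scoped ENNReal NNReal

/-- Euclidean length of a vector of `ℝ^d`. -/
noncomputable def el {d : ℕ} (x : Fin d → ℝ) : ℝ := Real.sqrt (∑ i, x i ^ 2)

/-- `T` is a Calderon–Zygmund operator with kernel `K`. -/
structure IsCZO {𝕜 : Type*} [RCLike 𝕜] {d : ℕ}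
    (T : Lp 𝕜 2 (volume : Measure (Fin d → ℝ)) →L[𝕜] Lp 𝕜 2 (volume : Measure (Fin d → ℝ)))
    (K : (Fin d → ℝ) → (Fin d → ℝ) → 𝕜) : Prop where
  rep : ∀ (f : (Fin d → ℝ) → 𝕜) (hf : MemLp f 2 volume), (∃ B : ℝ, ∀ x, ‖f x‖ ≤ B) →
    HasCompactSupport f → ∀ᵐ x, x ∉ tsupport f → T (hf.toLp f) x = ∫ y, K x y * f y
  size : ∃ C : ℝ, ∀ x y, x ≠ y → ‖K x y‖ ≤ C / el (x - y) ^ d
  reg : ∃ C α : ℝ, 0 < α ∧ α ≤ 1 ∧ ∀ x x' y, x ≠ y → el (x - x') ≤ el (x - y) / 2 →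
    ‖K x y - K x' y‖ + ‖K y x - K y x'‖ ≤ C * el (x - x') ^ α / el (x - y) ^ ((d : ℝ) + α)

section basics

variable {d : ℕ}

lemma norm_le_el (x : Fin d → ℝ) : ‖x‖ ≤ el x := by
  unfold el
  rw [pi_norm_le_iff_of_nonneg (Real.sqrt_nonneg _)]
  intro i
  rw [Real.norm_eq_abs]
  apply Real.abs_le_sqrt
  exact Finset.single_le_sum (f := fun i => x i ^ 2) (fun _ _ => sq_nonneg _) (Finset.mem_univ i)

lemma el_le (x : Fin d → ℝ) : el x ≤ √d * ‖x‖ := by
  unfold el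
  rw [← Real.sqrt_sq (norm_nonneg x), ← Real.sqrt_mul (by positivity)]
  apply Real.sqrt_le_sqrt
  calc ∑ i, x i ^ 2 ≤ ∑ _i : Fin d, ‖x‖ ^ 2 := by
        apply Finset.sum_le_sum
        intro i _
        have := norm_le_pi_norm x i
        rw [Real.norm_eq_abs] at this
        calc x i ^ 2 = |x i| ^ 2 := (sq_abs _).symm
          _ ≤ ‖x‖ ^ 2 := pow_le_pow_left₀ (abs_nonneg _) this 2
    _ = d * ‖x‖ ^ 2 := by simp

lemma el_nonneg (x : Fin d → ℝ) : 0 ≤ el x := Real.sqrt_nonneg _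

lemma el_sub_comm (x y : Fin d → ℝ) : el (x - y) = el (y - x) := by
  unfold el
  congr 1
  apply Finset.sum_congr rfl
  intro i _
  simp only [Pi.sub_apply]; ring

variable {𝕜 : Type*} [RCLike 𝕜]
variable {T : Lp 𝕜 2 (volume : Measure (Fin d → ℝ)) →L[𝕜] Lp 𝕜 2 (volume : Measure (Fin d → ℝ))}
variable {K : (Fin d → ℝ) → (Fin d → ℝ) → 𝕜}

/-- Kernel regularity in the sup norm. -/
lemma IsCZO.kerdiff (hd : 0 < d) (hT : IsCZO T K) :
    ∃ (D al : ℝ) (Ck : ℝ≥0), 1 ≤ D ∧ 0 < al ∧ ∀ (l : ℝ), 0 < l → ∀ x x' y, ‖x - x'‖ ≤ l →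
      2 * D * l ≤ ‖x - y‖ →
      ‖K x y - K x' y‖ ≤ Ck * ((2 * D * l) ^ al / (‖x - y‖ ^ al * ‖x - y‖ ^ d)) ∧
      ‖K y x - K y x'‖ ≤ Ck * ((2 * D * l) ^ al / (‖x - y‖ ^ al * ‖x - y‖ ^ d)) := by
  obtain ⟨C, al, hal0, hal1, hreg⟩ := hT.reg
  have hD1 : (1:ℝ) ≤ √d := by
    rw [Real.one_le_sqrt]; exact_mod_cast hd
  refine ⟨√d, al, C.toNNReal, hD1, hal0, ?_⟩
  intro l hl x x' y hxx' hxy
  have hxy0 : 0 < ‖x - y‖ := lt_of_lt_of_le (by positivity) hxy
  have hne : x ≠ y := by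
    intro h; rw [h, sub_self, norm_zero] at hxy0; exact lt_irrefl _ hxy0
  have h1 : el (x - x') ≤ √d * l := (el_le _).trans (mul_le_mul_of_nonneg_left hxx' (by positivity))
  have h2 : ‖x - y‖ ≤ el (x - y) := norm_le_el _
  have h3 := hreg x x' y hne (by linarith)
  have h4 : el (x - x') ^ al ≤ (2 * √d * l) ^ al :=
    Real.rpow_le_rpow (el_nonneg _) (by nlinarith) hal0.le
  have h5 : ‖x - y‖ ^ al * ‖x - y‖ ^ d ≤ el (x - y) ^ ((d:ℝ) + al) := by
    rw [Real.rpow_add (lt_of_lt_of_le hxy0 h2), Real.rpow_natCast, mul_comm]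
    apply mul_le_mul (pow_le_pow_left₀ hxy0.le h2 d) (Real.rpow_le_rpow hxy0.le h2 hal0.le)
      (Real.rpow_nonneg hxy0.le _)
    have := el_nonneg (x - y); positivity
  have hC : C ≤ (C.toNNReal : ℝ) := Real.le_coe_toNNReal C
  have h6 : C * el (x - x') ^ al / el (x - y) ^ ((d : ℝ) + al) ≤
      (C.toNNReal : ℝ) * ((2 * √d * l) ^ al / (‖x - y‖ ^ al * ‖x - y‖ ^ d)) := by
    have e0 : 0 ≤ el (x - x') ^ al := Real.rpow_nonneg (el_nonneg _) _
    have e1 : 0 < ‖x - y‖ ^ al * ‖x - y‖ ^ d := by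
      have := Real.rpow_pos_of_pos hxy0 al; positivity
    calc C * el (x - x') ^ al / el (x - y) ^ ((d : ℝ) + al)
        ≤ (C.toNNReal : ℝ) * el (x - x') ^ al / el (x - y) ^ ((d : ℝ) + al) := by
          apply div_le_div_of_nonneg_right (mul_le_mul_of_nonneg_right hC e0)
          exact Real.rpow_nonneg (el_nonneg _) _
      _ ≤ (C.toNNReal : ℝ) * el (x - x') ^ al / (‖x - y‖ ^ al * ‖x - y‖ ^ d) :=
          div_le_div_of_nonneg_left (mul_nonneg (NNReal.coe_nonneg _) e0) e1 h5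
      _ ≤ (C.toNNReal : ℝ) * (2 * √d * l) ^ al / (‖x - y‖ ^ al * ‖x - y‖ ^ d) := by
          apply div_le_div_of_nonneg_right _ e1.le
          exact mul_le_mul_of_nonneg_left h4 (NNReal.coe_nonneg _)
      _ = _ := by rw [mul_div_assoc]
  constructor
  · have := norm_nonneg (K y x - K y x'); linarith
  · have := norm_nonneg (K x y - K x' y); linarith

/-- measurability of the kernel in the second variable -/
lemma IsCZO.ker_meas (hd : 0 < d) (hT : IsCZO T K) (x : Fin d → ℝ) :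
    AEStronglyMeasurable (fun y => K x y) (volume : Measure (Fin d → ℝ)) := by
  obtain ⟨D, al, Ck, hD, hal, hker⟩ := hT.kerdiff hd
  have hcont : ContinuousOn (fun y => K x y) {x}ᶜ := by
    intro y₀ hy₀
    have hne : y₀ ≠ x := hy₀
    have hpos : 0 < ‖y₀ - x‖ := norm_pos_iff.2 (sub_ne_zero.2 hne)
    apply ContinuousAt.continuousWithinAt
    rw [Metric.continuousAt_iff']
    intro ε hε
    -- bound: for l = ‖y₀ - y‖ + small
    set G : ℝ → ℝ := fun l => Ck * ((2 * D * l) ^ al / (‖y₀ - x‖ ^ al * ‖y₀ - x‖ ^ d)) with hG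
    have hGc : ContinuousAt G 0 := by
      simp only [hG]
      apply ContinuousAt.mul continuousAt_const
      apply ContinuousAt.div_const
      apply ContinuousAt.rpow_const
      · fun_prop
      · right; exact hal.le
    have hG0 : G 0 = 0 := by
      simp only [hG]
      rw [mul_zero, Real.zero_rpow hal.ne', zero_div, mul_zero]
    have hGlim : ∀ᶠ l in 𝓝 (0:ℝ), G l < ε := by
      have := hGc.tendsto
      rw [hG0] at this
      exact this.eventually (gt_mem_nhds hε)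
    obtain ⟨δ, hδ, hδG⟩ := Metric.eventually_nhds_iff.1 hGlim
    set l := min (δ / 2) (‖y₀ - x‖ / (2 * D)) with hl
    have hl0 : 0 < l := by
      apply lt_min (by linarith)
      positivity
    filter_upwards [Metric.ball_mem_nhds y₀ hl0] with y hy
    rw [mem_ball, dist_eq_norm] at hy
    have h1 := (hker l hl0 y₀ y x (by rw [norm_sub_rev]; exact hy.le) (by
      have : l ≤ ‖y₀ - x‖ / (2 * D) := min_le_right _ _
      rw [le_div_iff₀ (by positivity)] at this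
      linarith)).2
    rw [dist_comm, dist_eq_norm]
    refine lt_of_le_of_lt h1 ?_
    apply hδG
    rw [Real.dist_eq, sub_zero, abs_of_pos hl0]
    have : l ≤ δ / 2 := min_le_left _ _
    linarith
  have h1 := hcont.aestronglyMeasurable (μ := (volume : Measure (Fin d → ℝ)))
    (measurableSet_singleton x).compl
  have : Nonempty (Fin d) := ⟨⟨0, hd⟩⟩
  have h2 : (volume : Measure (Fin d → ℝ)).restrict {x}ᶜ = volume := by
    apply Measure.restrict_eq_self_of_ae_mem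
    exact compl_mem_ae_iff.2 (measure_singleton x)
  rwa [h2] at h1

/-- The operator on functions. -/
noncomputable def TT (T : Lp 𝕜 2 (volume : Measure (Fin d → ℝ)) →L[𝕜]
    Lp 𝕜 2 (volume : Measure (Fin d → ℝ))) (f : (Fin d → ℝ) → 𝕜) : (Fin d → ℝ) → 𝕜 := by
  classical
  exact if h : MemLp f 2 volume then (T (h.toLp f) : (Fin d → ℝ) → 𝕜) else 0

lemma TT_eq {f : (Fin d → ℝ) → 𝕜} (h : MemLp f 2 volume) : TT T f = T (h.toLp f) := by
  unfold TT; rw [dif_pos h]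

lemma TT_congr {f g : (Fin d → ℝ) → 𝕜} (hfg : f =ᵐ[volume] g) : TT T f = TT T g := by
  by_cases h : MemLp f 2 volume
  · have h' : MemLp g 2 volume := h.ae_eq hfg
    rw [TT_eq h, TT_eq h', MemLp.toLp_congr h h' hfg]
  · have h' : ¬ MemLp g 2 volume := fun hg => h (hg.ae_eq hfg.symm)
    unfold TT; rw [dif_neg h, dif_neg h']

lemma TT_add {f g : (Fin d → ℝ) → 𝕜} (hf : MemLp f 2 volume) (hg : MemLp g 2 volume) :
    TT T (fun x => f x + g x) =ᵐ[volume] fun x => TT T f x + TT T g x := by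
  have h1 : TT T (fun x => f x + g x) = T ((hf.add hg).toLp (f + g)) := TT_eq (hf.add hg)
  rw [h1, MemLp.toLp_add hf hg, map_add, TT_eq hf, TT_eq hg]
  exact Lp.coeFn_add _ _

lemma TT_sub {f g : (Fin d → ℝ) → 𝕜} (hf : MemLp f 2 volume) (hg : MemLp g 2 volume) :
    TT T (fun x => f x - g x) =ᵐ[volume] fun x => TT T f x - TT T g x := by
  have h1 : TT T (fun x => f x - g x) = T ((hf.sub hg).toLp (f - g)) := TT_eq (hf.sub hg)
  rw [h1, MemLp.toLp_sub hf hg, map_sub, TT_eq hf, TT_eq hg]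
  exact Lp.coeFn_sub _ _

lemma TT_zero : TT T (fun _ => (0:𝕜)) =ᵐ[volume] fun _ => 0 := by
  have h0 : MemLp (fun _ : Fin d → ℝ => (0:𝕜)) 2 volume := MemLp.zero'
  rw [TT_eq h0]
  have : h0.toLp (fun _ : Fin d → ℝ => (0:𝕜)) = 0 := MemLp.toLp_zero h0
  rw [this, map_zero]
  exact Lp.coeFn_zero _ _ _

lemma TT_sum {ι : Type*} (s : Finset ι) (f : ι → (Fin d → ℝ) → 𝕜)
    (hf : ∀ i ∈ s, MemLp (f i) 2 volume) :
    TT T (fun x => ∑ i ∈ s, f i x) =ᵐ[volume] fun x => ∑ i ∈ s, TT T (f i) x := by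
  classical
  induction s using Finset.induction_on with
  | empty => simpa using TT_zero (T := T)
  | insert a s ha ih =>
    have h1 : MemLp (fun x => ∑ i ∈ s, f i x) 2 volume :=
      memLp_finsetSum s (fun i hi => hf i (Finset.mem_insert_of_mem hi))
    have h2 := TT_add (T := T) (hf a (Finset.mem_insert_self _ _)) h1
    have h3 := ih (fun i hi => hf i (Finset.mem_insert_of_mem hi))
    simp only [Finset.sum_insert ha]
    filter_upwards [h2, h3] with x hx hx'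
    rw [hx, hx']

lemma lint_sq (f : (Fin d → ℝ) → 𝕜) : eLpNorm f 2 volume ^ 2 = ∫⁻ x, ‖f x‖ₑ ^ 2 := by
  have := eLpNorm_nnreal_pow_eq_lintegral (f := f) (μ := (volume : Measure (Fin d → ℝ)))
    (p := 2) (by norm_num)
  have e : ((2:ℝ≥0):ℝ≥0∞) = 2 := by norm_num
  rw [e] at this
  have e2 : (((2:ℝ≥0):ℝ)) = ((2:ℕ):ℝ) := by norm_num
  rw [e2] at this
  simp only [ENNReal.rpow_natCast] at this
  exact this

lemma TT_L2 : ∃ CT : ℝ≥0, ∀ f : (Fin d → ℝ) → 𝕜, MemLp f 2 volume →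
    ∫⁻ x, ‖TT T f x‖ₑ ^ 2 ≤ CT * ∫⁻ x, ‖f x‖ₑ ^ 2 := by
  refine ⟨‖T‖₊ ^ 2, fun f hf => ?_⟩
  rw [← lint_sq, ← lint_sq, TT_eq hf]
  have h1 : eLpNorm (T (hf.toLp f)) 2 volume ≤ ‖T‖₊ * eLpNorm f 2 volume := by
    have h2 : ‖T (hf.toLp f)‖ₑ ≤ ‖T‖ₑ * ‖hf.toLp f‖ₑ := T.le_opENorm _
    rw [Lp.enorm_def, Lp.enorm_toLp] at h2
    exact h2
  calc eLpNorm (T (hf.toLp f)) 2 volume ^ 2 ≤ (‖T‖₊ * eLpNorm f 2 volume) ^ 2 :=
        pow_le_pow_left₀ bot_le h1 2
    _ = _ := by rw [mul_pow]; push_cast; rfl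

lemma TT_aesm (f : (Fin d → ℝ) → 𝕜) : AEStronglyMeasurable (TT T f) volume := by
  by_cases h : MemLp f 2 volume
  · rw [TT_eq h]; exact Lp.aestronglyMeasurable _
  · unfold TT; rw [dif_neg h]; exact aestronglyMeasurable_zero

lemma cheb {g : (Fin d → ℝ) → 𝕜} (hg : AEStronglyMeasurable g volume) (lam : ℝ≥0∞) :
    lam ^ 2 * volume {x | lam < ‖g x‖ₑ} ≤ ∫⁻ x, ‖g x‖ₑ ^ 2 := by
  refine le_trans ?_ (mul_meas_ge_le_lintegral₀ (μ := volume) (hg.enorm.pow_const 2) (lam ^ 2))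
  apply mul_le_mul' le_rfl
  apply measure_mono
  intro x hx
  have hx' : lam < ‖g x‖ₑ := hx
  exact pow_le_pow_left₀ bot_le hx'.le 2

end basics

end Pool.Agent.H433R3.Sep
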