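import Pool.Agent.H433R3.Sep15

set_option autoImplicit false
set_option linter.unusedSectionVars false
set_option linter.unusedVariables false

namespace Pool.Agent.H433R3.Sep

open MeasureTheory Metric Filter Topology
open scoped ENNReal NNReal

variable {d : ℕ} {𝕜 : Type*} [RCLike 𝕜]
variable {T : Lp 𝕜 2 (volume : Measure (Fin d → ℝ)) →L[𝕜] Lp 𝕜 2 (volume : Measure (Fin d → ℝ))}
variable {K : (Fin d → ℝ) → (Fin d → ℝ) → 𝕜}

lemma bddMem {f : (Fin d → ℝ) → 𝕜} (hf : AEStronglyMeasurable f volume) {B : ℝ}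
    (hB : ∀ x, ‖f x‖ ≤ B) {A : Set (Fin d → ℝ)} (hA : MeasurableSet A) (hAv : volume A < ∞)
    (h0 : ∀ x, x ∉ A → f x = 0) (p : ℝ≥0∞) : MemLp f p volume := by
  have h1 : f = A.indicator f := by
    ext x
    by_cases hx : x ∈ A
    · rw [Set.indicator_of_mem hx]
    · rw [Set.indicator_of_notMem hx, h0 x hx]
  rw [h1, memLp_indicator_iff_restrict hA]
  have : IsFiniteMeasure (volume.restrict A) := ⟨by
    rw [Measure.restrict_apply MeasurableSet.univ, Set.univ_inter]; exact hAv⟩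
  exact MemLp.of_bound hf.restrict B (Eventually.of_forall hB)

lemma rep_pt (hT : IsCZO T K) {f : (Fin d → ℝ) → 𝕜} (hf : AEStronglyMeasurable f volume) {B : ℝ}
    (hB : ∀ x, ‖f x‖ ≤ B) {c : Fin d → ℝ} {R : ℝ} (h0 : ∀ x, x ∉ closedBall c R → f x = 0)
    {F : Set (Fin d → ℝ)} (hF : IsClosed F) (hfF : ∀ x, x ∉ F → f x = 0) :
    ∀ᵐ x, x ∉ F → TT T f x = ∫ y, K x y * f y := by
  have hm : MemLp f 2 volume := bddMem hf hB isClosed_closedBall.measurableSet (vol_cb_fin c R) h0 2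
  have hcs : HasCompactSupport f := by
    apply HasCompactSupport.of_support_subset_isCompact (isCompact_closedBall c R)
    intro x hx
    by_contra hc
    exact hx (h0 x hc)
  have hts : tsupport f ⊆ F := by
    apply closure_minimal _ hF
    intro x hx
    by_contra hc
    exact hx (hfF x hc)
  filter_upwards [hT.rep f hm ⟨B, hB⟩ hcs] with x hx hxF
  rw [TT_eq hm]
  exact hx (fun h => hxF (hts h))

/-- bad pieces -/
lemma badPiece (hd : 0 < d) (hT : IsCZO T K) : ∃ (D : ℝ) (Cb : ℝ≥0), 1 ≤ D ∧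
    ∀ (t : Fin d → Bool) (I : Idx d) (β : (Fin d → ℝ) → 𝕜), AEStronglyMeasurable β volume →
    (∃ B : ℝ, ∀ x, ‖β x‖ ≤ B) → (∀ x, x ∉ gq t I → β x = 0) → ∫ x, β x = 0 →
    ∫⁻ x in {x | 2 * D * 2 ^ I.1 ≤ ‖x - ctr t I‖}, ‖TT T β x‖ₑ ≤ Cb * ∫⁻ x, ‖β x‖ₑ := by
  obtain ⟨D, al, Ck, hD, hal, hker⟩ := hT.kerdiff hd
  obtain ⟨Ct, hCt⟩ := tail d al hal
  refine ⟨D, Ck * Ct, hD, ?_⟩
  intro t I β hβm hβB hβ0 hβi
  obtain ⟨B, hB⟩ := hβB
  set l : ℝ := 2 ^ I.1 with hl
  have hl0 : 0 < l := by rw [hl]; positivity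
  set c := ctr t I with hc
  have hsub : gq t I ⊆ closedBall c (l / 2) := by
    have := gq_sub_dil (le_refl (1:ℝ)) t I
    unfold dil at this
    rwa [one_mul] at this
  have hβ0' : ∀ x, x ∉ closedBall c (l/2) → β x = 0 := fun x hx => hβ0 x (fun h => hx (hsub h))
  have hint : Integrable β volume := by
    rw [← memLp_one_iff_integrable]
    exact bddMem hβm hB (gq_meas t I) (gq_vol_pos t I).2 hβ0 1
  have hrep := rep_pt hT hβm hB hβ0' isClosed_closedBall hβ0'
  have hpt : ∀ᵐ x, x ∈ {x : Fin d → ℝ | 2 * D * l ≤ ‖x - c‖} → ‖TT T β x‖ₑ ≤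
      (Ck * ∫⁻ y, ‖β y‖ₑ) * (1 * ENNReal.ofReal ((2 * D * l) ^ al / (‖x - c‖ ^ al * ‖x - c‖ ^ d))) := by
    filter_upwards [hrep] with x hx hxS
    have hxS' : 2 * D * l ≤ ‖x - c‖ := hxS
    set G : ℝ := (2 * D * l) ^ al / (‖x - c‖ ^ al * ‖x - c‖ ^ d) with hG
    have hG0 : 0 ≤ G := by
      have : 0 ≤ (2 * D * l) ^ al := Real.rpow_nonneg (by positivity) _
      have : 0 ≤ ‖x - c‖ ^ al := Real.rpow_nonneg (norm_nonneg _) _
      positivity
    have hxF : x ∉ closedBall c (l/2) := by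
      rw [mem_closedBall, dist_eq_norm]
      have : l ≤ D * l := le_mul_of_one_le_left hl0.le hD
      push Not
      linarith
    rw [hx hxF]
    by_cases hi : Integrable (fun y => K x y * β y) volume
    · have hi2 : Integrable (fun y => K x c * β y) volume := hint.const_mul _
      have e1 : ∫ y, K x y * β y = ∫ y, (K x y * β y - K x c * β y) := by
        rw [integral_sub hi hi2, integral_const_mul, hβi]; simp
      rw [e1]
      refine (enorm_integral_le_lintegral_enorm _).trans ?_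
      rw [one_mul, mul_right_comm, ← lintegral_const_mul' _ _ (by
        exact ENNReal.mul_ne_top ENNReal.coe_ne_top ENNReal.ofReal_ne_top)]
      apply lintegral_mono
      intro y
      show ‖K x y * β y - K x c * β y‖ₑ ≤ (Ck * ENNReal.ofReal G) * ‖β y‖ₑ
      rw [← sub_mul, enorm_mul]
      by_cases hy : y ∈ gq t I
      · apply mul_le_mul' _ le_rfl
        have hyc : ‖c - y‖ ≤ l := by
          have := hsub hy
          rw [mem_closedBall, dist_eq_norm] at this
          rw [norm_sub_rev]; linarith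
        have h1 := (hker l hl0 c y x hyc (by rw [norm_sub_rev]; exact hxS')).2
        rw [norm_sub_rev c x] at h1
        rw [← ofReal_norm, ← ENNReal.ofReal_coe_nnreal, ← ENNReal.ofReal_mul
          (NNReal.coe_nonneg _)]
        apply ENNReal.ofReal_le_ofReal
        rw [norm_sub_rev]
        exact h1
      · rw [hβ0 y hy]; simp
    · rw [integral_undef hi]; simp
  have hmS : MeasurableSet {x : Fin d → ℝ | 2 * D * l ≤ ‖x - c‖} := by
    apply measurableSet_le measurable_const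
    fun_prop
  have ht := hCt (fun _ => 1) c (2 * D * l) 1 measurable_const (by positivity) (by
    intro ρ _
    simp)
  calc ∫⁻ x in {x | 2 * D * l ≤ ‖x - c‖}, ‖TT T β x‖ₑ
      ≤ ∫⁻ x in {x | 2 * D * l ≤ ‖x - c‖}, (Ck * ∫⁻ y, ‖β y‖ₑ) *
        (1 * ENNReal.ofReal ((2 * D * l) ^ al / (‖x - c‖ ^ al * ‖x - c‖ ^ d))) :=
        setLIntegral_mono_ae' hmS hpt
    _ = (Ck * ∫⁻ y, ‖β y‖ₑ) * ∫⁻ x in {x | 2 * D * l ≤ ‖x - c‖},
        (1 * ENNReal.ofReal ((2 * D * l) ^ al / (‖x - c‖ ^ al * ‖x - c‖ ^ d))) := by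
        rw [lintegral_const_mul']
        exact ENNReal.mul_ne_top ENNReal.coe_ne_top (by
          have := hint.2
          exact this.ne)
    _ ≤ (Ck * ∫⁻ y, ‖β y‖ₑ) * (Ct * 1) := mul_le_mul' le_rfl ht
    _ = _ := by push_cast; ring

end Pool.Agent.H433R3.Sep
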