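import Pool.Agent.H433R3.Sep17

set_option autoImplicit false
set_option linter.unusedSectionVars false
set_option linter.unusedVariables false

namespace Pool.Agent.H433R3.Sep

open MeasureTheory Metric Filter Topology
open scoped ENNReal NNReal

variable {d : ℕ} {𝕜 : Type*} [RCLike 𝕜]
variable {T : Lp 𝕜 2 (volume : Measure (Fin d → ℝ)) →L[𝕜] Lp 𝕜 2 (volume : Measure (Fin d → ℝ))}
variable {K : (Fin d → ℝ) → (Fin d → ℝ) → 𝕜}

lemma VN_meas (t : Fin d → Bool) (f : (Fin d → ℝ) → ℝ≥0∞) (lam : ℝ≥0∞) (N : ℕ) :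
    MeasurableSet (VN t f lam N) :=
  MeasurableSet.biUnion (Set.to_countable _) (fun I _ => gq_meas t I)

lemma VN_mono (t : Fin d → Bool) (f : (Fin d → ℝ) → ℝ≥0∞) (lam : ℝ≥0∞) {N N' : ℕ} (h : N ≤ N') :
    VN t f lam N ⊆ VN t f lam N' := by
  apply Set.iUnion₂_subset
  intro I hI x hx
  refine Set.mem_iUnion₂.2 ⟨I, ⟨?_, hI.2⟩, hx⟩
  have := hI.1
  omega

/-- weak type (1,1) for bounded functions with bounded support -/
lemma weakBdd (hd : 0 < d) (hT : IsCZO T K) : ∃ W : ℝ≥0, ∀ (f : (Fin d → ℝ) → 𝕜),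
    Measurable f → ∀ B : ℝ≥0, (∀ x, ‖f x‖ ≤ B) → ∀ (c : Fin d → ℝ) (R : ℝ),
    (∀ x, x ∉ closedBall c R → f x = 0) → ∀ lam : ℝ≥0, 0 < lam →
    (lam : ℝ≥0∞) * volume {x | (lam : ℝ≥0∞) < ‖TT T f x‖ₑ} ≤ W * (∫⁻ x, ‖f x‖ₑ) := by
  obtain ⟨W, C₂, hW⟩ := weakStep hd hT
  refine ⟨W, ?_⟩
  intro f hf B hB c R h0 lam hlam
  set t : Fin d → Bool := fun _ => false with ht
  have hfL : ∀ p : ℝ≥0∞, MemLp f p volume := fun p =>
    bddMem hf.aestronglyMeasurable hB isClosed_closedBall.measurableSet (vol_cb_fin c R) h0 p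
  have hfint : Integrable f volume := memLp_one_iff_integrable.1 (hfL 1)
  have hL1fin : ∫⁻ x, ‖f x‖ₑ < ∞ := hfint.2
  have hfe : Measurable (fun x => ‖f x‖ₑ) := hf.enorm
  have hlne : (lam : ℝ≥0∞) ≠ 0 := by exact_mod_cast hlam.ne'
  set G : ℕ → Set (Fin d → ℝ) := fun N => {x | (lam : ℝ≥0∞) < ‖f x‖ₑ} \
        VN t (fun x => ‖f x‖ₑ) lam N with hG
  have hGm : ∀ N, MeasurableSet (G N) := fun N =>
    (measurableSet_lt measurable_const hfe).diff (VN_meas _ _ _ _)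
  have hGanti : Antitone G := by
    intro N N' h
    exact Set.sdiff_subset_sdiff_right (VN_mono _ _ _ h)
  have hGfin : volume (G 0) ≠ ∞ := by
    have h1 : (lam : ℝ≥0∞) * volume (G 0) ≤ ∫⁻ x, ‖f x‖ₑ := by
      refine le_trans (mul_le_mul' le_rfl (measure_mono ?_))
        (mul_meas_ge_le_lintegral₀ hfe.aemeasurable (lam : ℝ≥0∞))
      intro x hx
      have hx1 : (lam : ℝ≥0∞) < ‖f x‖ₑ := hx.1
      exact hx1.le
    intro h
    rw [h, ENNReal.mul_top hlne] at h1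
    exact absurd (lt_of_le_of_lt h1 hL1fin) (by simp)
  have hlim := tendsto_measure_iInter_atTop (μ := (volume : Measure (Fin d → ℝ)))
    (fun N => (hGm N).nullMeasurableSet) hGanti ⟨0, hGfin⟩
  have hnull : volume (⋂ n, G n) = 0 := by
    have hdiff := grid_diff t (fun x => ‖f x‖) hfint.norm.locallyIntegrable
    rw [← compl_mem_ae_iff]
    filter_upwards [hdiff] with x hx hxG
    have hx0 : (lam : ℝ≥0∞) < ‖f x‖ₑ := (Set.mem_iInter.1 hxG 0).1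
    have hx1 : (lam : ℝ) < ‖f x‖ := by
      rw [← ofReal_norm, ← ENNReal.ofReal_coe_nnreal] at hx0
      exact (ENNReal.ofReal_lt_ofReal_iff_of_nonneg (NNReal.coe_nonneg _)).1 hx0
    have h2 : ∀ᶠ n : ℕ in atTop, (lam : ℝ) < ⨍ y in gq t (ix t (-(n:ℤ)) x), ‖f y‖ :=
      hx.eventually (lt_mem_nhds hx1)
    obtain ⟨n, hn⟩ := h2.exists
    apply (Set.mem_iInter.1 hxG n).2
    refine Set.mem_iUnion₂.2 ⟨ix t (-(n:ℤ)) x, ⟨le_rfl, ?_⟩, mem_gq_ix t _ x⟩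
    set A := gq t (ix t (-(n:ℤ)) x) with hA
    have hv := gq_vol_pos t (ix t (-(n:ℤ)) x)
    rw [← hA] at hv
    rw [setAverage_eq, smul_eq_mul] at hn
    have hvp : 0 < volume.real A := ENNReal.toReal_pos hv.1.ne' hv.2.ne
    have h3 : (lam : ℝ) * volume.real A < ∫ y in A, ‖f y‖ := by
      rw [inv_mul_eq_div, lt_div_iff₀ hvp] at hn; exact hn
    have h4 : ∫ y in A, ‖f y‖ = (∫⁻ y in A, ‖f y‖ₑ).toReal :=
      integral_norm_eq_lintegral_enorm hf.aestronglyMeasurable.restrict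
    rw [h4] at h3
    have h5 : ∫⁻ y in A, ‖f y‖ₑ ≠ ∞ := (lt_of_le_of_lt (setLIntegral_le_lintegral _ _) hL1fin).ne
    show (lam : ℝ≥0∞) * volume A < ∫⁻ y in A, ‖f y‖ₑ
    rw [← ENNReal.toReal_lt_toReal (ENNReal.mul_ne_top ENNReal.coe_ne_top hv.2.ne) h5,
      ENNReal.toReal_mul]
    exact h3
  rw [hnull] at hlim
  have h1 : ∀ N, (lam : ℝ≥0∞) * volume {x | (lam : ℝ≥0∞) < ‖TT T f x‖ₑ} ≤
      W * (∫⁻ x, ‖f x‖ₑ) + (C₂ * B ^ 2 / lam) * volume (G N) := fun N =>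
    hW f hf B hB c R h0 lam hlam N
  have hcfin : (C₂ * B ^ 2 / lam : ℝ≥0∞) ≠ ∞ := by
    apply (ENNReal.div_lt_top _ hlne).ne
    exact ENNReal.mul_ne_top ENNReal.coe_ne_top (ENNReal.pow_ne_top ENNReal.coe_ne_top)
  have h2 : Tendsto (fun N => W * (∫⁻ x, ‖f x‖ₑ) + (C₂ * B ^ 2 / lam) * volume (G N)) atTop
      (𝓝 (W * (∫⁻ x, ‖f x‖ₑ) + (C₂ * B ^ 2 / lam) * 0)) := by
    apply Tendsto.const_add
    exact ENNReal.Tendsto.const_mul hlim (Or.inr hcfin)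
  rw [mul_zero, add_zero] at h2
  exact ge_of_tendsto' h2 h1

/-- weak type (1,1) on `L¹ ∩ L²` -/
lemma weakGen (hd : 0 < d) (hT : IsCZO T K) : ∃ W : ℝ≥0, ∀ (f : (Fin d → ℝ) → 𝕜),
    MemLp f 2 volume → MemLp f 1 volume → ∀ lam : ℝ≥0, 0 < lam →
    (lam : ℝ≥0∞) * volume {x | (lam : ℝ≥0∞) < ‖TT T f x‖ₑ} ≤ W * (∫⁻ x, ‖f x‖ₑ) := by
  obtain ⟨W, hW⟩ := weakBdd hd hT
  obtain ⟨CT, hCT⟩ := TT_L2 (T := T)
  refine ⟨2 * W, ?_⟩
  intro f₀ hf₀2 hf₀1 lam hlam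
  -- measurable representative
  set f := hf₀2.1.mk f₀ with hfdef
  have hfs : StronglyMeasurable f := hf₀2.1.stronglyMeasurable_mk
  have hff : f₀ =ᵐ[volume] f := hf₀2.1.ae_eq_mk
  have hf : Measurable f := hfs.measurable
  have hf2 : MemLp f 2 volume := hf₀2.ae_eq hff
  have hf1 : MemLp f 1 volume := hf₀1.ae_eq hff
  rw [TT_congr (T := T) hff]
  have e0 : ∫⁻ x, ‖f₀ x‖ₑ = ∫⁻ x, ‖f x‖ₑ := by
    apply lintegral_congr_ae
    filter_upwards [hff] with x hx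
    rw [hx]
  rw [e0]
  set A : ℕ → Set (Fin d → ℝ) := fun n => closedBall 0 n ∩ {x | ‖f x‖ ≤ n} with hA
  have hAm : ∀ n, MeasurableSet (A n) := fun n =>
    isClosed_closedBall.measurableSet.inter (measurableSet_le hf.norm measurable_const)
  set fn : ℕ → (Fin d → ℝ) → 𝕜 := fun n => (A n).indicator f with hfn
  have hfnm : ∀ n, Measurable (fn n) := fun n => hf.indicator (hAm n)
  have hfnB : ∀ n x, ‖fn n x‖ ≤ ((n : ℝ≥0) : ℝ) := by
    intro n x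
    by_cases hx : x ∈ A n
    · simp only [hfn]; rw [Set.indicator_of_mem hx]
      have : ‖f x‖ ≤ n := hx.2
      simpa using this
    · simp only [hfn]; rw [Set.indicator_of_notMem hx, norm_zero]; positivity
  have hfn0 : ∀ (n : ℕ) x, x ∉ closedBall (0 : Fin d → ℝ) n → fn n x = 0 := by
    intro n x hx
    simp only [hfn]
    exact Set.indicator_of_notMem (fun hc : x ∈ A n => hx hc.1) _
  have hfnL : ∀ n, MemLp (fn n) 2 volume := fun n => hf2.indicator (hAm n)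
  have hle : ∀ n x, ‖f x - fn n x‖ₑ ≤ ‖f x‖ₑ := by
    intro n x
    by_cases hx : x ∈ A n
    · simp only [hfn]; rw [Set.indicator_of_mem hx, sub_self, enorm_zero]; exact bot_le
    · simp only [hfn]; rw [Set.indicator_of_notMem hx, sub_zero]
  have hle' : ∀ n x, ‖fn n x‖ₑ ≤ ‖f x‖ₑ := by
    intro n x
    by_cases hx : x ∈ A n
    · simp only [hfn]; rw [Set.indicator_of_mem hx]
    · simp only [hfn]; rw [Set.indicator_of_notMem hx, enorm_zero]; exact bot_le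
  have hpt : ∀ x, ∀ᶠ n in atTop, fn n x = f x := by
    intro x
    obtain ⟨n₀, hn₀⟩ := exists_nat_ge (max ‖x‖ ‖f x‖)
    filter_upwards [eventually_ge_atTop n₀] with n hn
    have h1 : max ‖x‖ ‖f x‖ ≤ n := hn₀.trans (by exact_mod_cast hn)
    simp only [hfn]
    apply Set.indicator_of_mem
    refine ⟨?_, (le_max_right _ _).trans h1⟩
    rw [mem_closedBall, dist_zero_right]
    exact (le_max_left _ _).trans h1
  have hlim : Tendsto (fun n => ∫⁻ x, ‖f x - fn n x‖ₑ ^ 2) atTop (𝓝 0) := by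
    have h0 : ∫⁻ x : Fin d → ℝ, (0:ℝ≥0∞) = 0 := lintegral_zero
    rw [← h0]
    apply tendsto_lintegral_of_dominated_convergence (fun x => ‖f x‖ₑ ^ 2)
    · intro n
      exact ((hf.sub (hfnm n)).enorm).pow_const 2
    · intro n
      exact Eventually.of_forall (fun x => pow_le_pow_left₀ bot_le (hle n x) 2)
    · rw [← lint_sq]
      exact ENNReal.pow_ne_top hf2.2.ne
    · refine Eventually.of_forall (fun x => ?_)
      apply tendsto_const_nhds.congr'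
      filter_upwards [hpt x] with n hn
      rw [hn, sub_self, enorm_zero]; simp
  set lh : ℝ≥0 := lam / 2 with hlh
  have hlh0 : 0 < lh := by rw [hlh]; positivity
  have hlhne : (lh : ℝ≥0∞) ≠ 0 := by exact_mod_cast hlh0.ne'
  have hlam2 : (lam : ℝ≥0∞) = 2 * (lh : ℝ≥0∞) := by
    have : lam = 2 * (lam / 2) := by field_simp
    rw [hlh]
    conv_lhs => rw [this]
    push_cast; rfl
  have hstep : ∀ n, (lam : ℝ≥0∞) * volume {x | (lam : ℝ≥0∞) < ‖TT T f x‖ₑ} ≤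
      2 * W * (∫⁻ x, ‖f x‖ₑ) + (2 * CT / lh) * ∫⁻ x, ‖f x - fn n x‖ₑ ^ 2 := by
    intro n
    have hsub := TT_sub (T := T) hf2 (hfnL n)
    have hcov : {x | (lam : ℝ≥0∞) < ‖TT T f x‖ₑ} ≤ᵐ[volume]
        ({x | (lh : ℝ≥0∞) < ‖TT T (fn n) x‖ₑ} ∪
          {x | (lh : ℝ≥0∞) < ‖TT T (fun x => f x - fn n x) x‖ₑ} : Set (Fin d → ℝ)) := by
      filter_upwards [hsub] with x hx hxS
      have hxS' : (lam : ℝ≥0∞) < ‖TT T f x‖ₑ := hxS
      by_contra hcon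
      have n1 : ‖TT T (fn n) x‖ₑ ≤ lh := not_lt.1 (fun hc => hcon (Or.inl hc))
      have n2 : ‖TT T (fun x => f x - fn n x) x‖ₑ ≤ lh := not_lt.1 (fun hc => hcon (Or.inr hc))
      rw [hx] at n2
      have h3 : TT T f x = TT T (fn n) x + (TT T f x - TT T (fn n) x) := by ring
      rw [h3, hlam2] at hxS'
      have := (enorm_add_le (TT T (fn n) x) (TT T f x - TT T (fn n) x)).trans (add_le_add n1 n2)
      rw [← two_mul] at this
      exact absurd (lt_of_lt_of_le hxS' this) (lt_irrefl _)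
    have a1 : (lh : ℝ≥0∞) * volume {x | (lh : ℝ≥0∞) < ‖TT T (fn n) x‖ₑ} ≤ W * (∫⁻ x, ‖f x‖ₑ) :=
      (hW (fn n) (hfnm n) n (hfnB n) 0 n (hfn0 n) lh hlh0).trans
        (mul_le_mul' le_rfl (lintegral_mono (hle' n)))
    have a2 : (lh : ℝ≥0∞) * volume {x | (lh : ℝ≥0∞) < ‖TT T (fun x => f x - fn n x) x‖ₑ} ≤
        (CT / lh) * ∫⁻ x, ‖f x - fn n x‖ₑ ^ 2 := by
      have b1 := cheb (TT_aesm (T := T) (fun x => f x - fn n x)) (lh : ℝ≥0∞)
      have b2 := hCT (fun x => f x - fn n x) (hf2.sub (hfnL n))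
      have b3 := b1.trans b2
      have b4 : (lh : ℝ≥0∞) * ((lh : ℝ≥0∞) *
          volume {x | (lh : ℝ≥0∞) < ‖TT T (fun x => f x - fn n x) x‖ₑ}) ≤
          lh * ((CT / lh) * ∫⁻ x, ‖f x - fn n x‖ₑ ^ 2) := by
        calc _ = (lh : ℝ≥0∞) ^ 2 *
              volume {x | (lh : ℝ≥0∞) < ‖TT T (fun x => f x - fn n x) x‖ₑ} := by ring
          _ ≤ _ := b3
          _ = (CT / lh * lh) * ∫⁻ x, ‖f x - fn n x‖ₑ ^ 2 := by
              rw [ENNReal.div_mul_cancel hlhne ENNReal.coe_ne_top]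
          _ = _ := by ring
      exact (ENNReal.mul_le_mul_iff_right hlhne ENNReal.coe_ne_top).1 b4
    calc (lam : ℝ≥0∞) * volume {x | (lam : ℝ≥0∞) < ‖TT T f x‖ₑ}
        ≤ lam * (volume {x | (lh : ℝ≥0∞) < ‖TT T (fn n) x‖ₑ} +
            volume {x | (lh : ℝ≥0∞) < ‖TT T (fun x => f x - fn n x) x‖ₑ}) :=
          mul_le_mul' le_rfl ((measure_mono_ae hcov).trans (measure_union_le _ _))
      _ = 2 * (lh * volume {x | (lh : ℝ≥0∞) < ‖TT T (fn n) x‖ₑ} +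
            lh * volume {x | (lh : ℝ≥0∞) < ‖TT T (fun x => f x - fn n x) x‖ₑ}) := by
          rw [hlam2]; ring
      _ ≤ 2 * (W * (∫⁻ x, ‖f x‖ₑ) + (CT / lh) * ∫⁻ x, ‖f x - fn n x‖ₑ ^ 2) :=
          mul_le_mul' le_rfl (add_le_add a1 a2)
      _ = _ := by rw [div_eq_mul_inv, div_eq_mul_inv]; ring
  have hcfin : (2 * CT / lh : ℝ≥0∞) ≠ ∞ :=
    (ENNReal.div_lt_top (ENNReal.mul_ne_top (by simp) ENNReal.coe_ne_top) hlhne).ne
  have h2 : Tendsto (fun n => 2 * W * (∫⁻ x, ‖f x‖ₑ) + (2 * CT / lh) *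
      ∫⁻ x, ‖f x - fn n x‖ₑ ^ 2) atTop (𝓝 (2 * W * (∫⁻ x, ‖f x‖ₑ) + (2 * CT / lh) * 0)) := by
    apply Tendsto.const_add
    exact ENNReal.Tendsto.const_mul hlim (Or.inr hcfin)
  rw [mul_zero, add_zero] at h2
  have := ge_of_tendsto' h2 hstep
  push_cast
  exact this

end Pool.Agent.H433R3.Sep
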