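import Pool.Agent.H433R3.Sep22

set_option autoImplicit false
set_option linter.unusedSectionVars false
set_option linter.unusedVariables false

namespace Pool.Agent.H433R3.Sep

open MeasureTheory Metric Filter Topology
open scoped ENNReal NNReal

variable {d : ℕ} {𝕜 : Type*} [RCLike 𝕜]
variable {T : Lp 𝕜 2 (volume : Measure (Fin d → ℝ)) →L[𝕜] Lp 𝕜 2 (volume : Measure (Fin d → ℝ))}
variable {K : (Fin d → ℝ) → (Fin d → ℝ) → 𝕜}

lemma mainMeas (hd : 0 < d) {Φ₁ Φ₂ : ℝ≥0 → ℝ≥0} (h₁ : IsYoung Φ₁) (h₂ : IsYoung Φ₂)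
    (hint₁ : ∃ c : ℝ≥0, 0 < c ∧ ∫⁻ x in Set.Ioi (c:ℝ), ((Φ₁ x.toNNReal : ℝ≥0∞))⁻¹ ≠ ∞)
    (hint₂ : ∃ c : ℝ≥0, 0 < c ∧ ∫⁻ x in Set.Ioi (c:ℝ), ((Φ₂ x.toNNReal : ℝ≥0∞))⁻¹ ≠ ∞)
    (M : ℝ≥0) (hT : IsCZO T K) :
    ∃ C : ℝ≥0, ∀ (w σ : (Fin d → ℝ) → ℝ≥0), Measurable w → Measurable σ →
      (∀ (c : Fin d → ℝ) (l : ℝ), 0 < l → wm volume w (cube c l) < ∞) →
      (∀ (c : Fin d → ℝ) (l : ℝ), 0 < l → wm volume σ (cube c l) < ∞) →
      (∀ (c : Fin d → ℝ) (l : ℝ), 0 < l → lux volume Φ₁ w (cube c l) *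
        (wm volume σ (cube c l) / volume (cube c l)) ≤ M) →
      (∀ (c : Fin d → ℝ) (l : ℝ), 0 < l → lux volume Φ₂ σ (cube c l) *
        (wm volume w (cube c l) / volume (cube c l)) ≤ M) →
      ∀ (f h : (Fin d → ℝ) → 𝕜), Measurable f → Measurable h →
      (∀ x, h x = ((w x : ℝ) : 𝕜) * f x) → ∫⁻ x, ‖h x‖ₑ ≠ ∞ →
      ∃ g : (Fin d → ℝ) → 𝕜, StronglyMeasurable g ∧
      (∀ F : ℕ → (Fin d → ℝ) → 𝕜, (∀ n, MemLp (F n) 2 volume) → (∀ n, MemLp (F n) 1 volume) →
        Tendsto (fun n => ∫⁻ x, ‖F n x - h x‖ₑ) atTop (𝓝 0) →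
        TendstoInMeasure volume (fun n => TT T (F n)) atTop g) ∧
      ∫⁻ x, ‖g x‖ₑ ^ 2 ∂(wm volume σ) ≤ C * ∫⁻ x, ‖f x‖ₑ ^ 2 ∂(wm volume w) := by
  obtain ⟨C, hC⟩ := bddCase hd h₁ h₂ hint₁ hint₂ M hT
  refine ⟨C, ?_⟩
  intro w σ hw hσ hwf hσf hb₁ hb₂ f h hf hh hhf hfin
  set A : ℕ → Set (Fin d → ℝ) := fun n => closedBall 0 n ∩ {x | ‖h x‖ ≤ n} with hA
  have hAm : ∀ n, MeasurableSet (A n) := fun n =>
    measurableSet_closedBall.inter (measurableSet_le hh.norm measurable_const)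
  set H : ℕ → (Fin d → ℝ) → 𝕜 := fun n => (A n).indicator h with hH
  have hHm : ∀ n, Measurable (H n) := fun n => hh.indicator (hAm n)
  have hHb : ∀ n x, ‖H n x‖ ≤ ((n : ℝ≥0) : ℝ) := by
    intro n x
    by_cases hx : x ∈ A n
    · simp only [hH]
      rw [Set.indicator_of_mem hx]
      have : ‖h x‖ ≤ n := hx.2
      simpa using this
    · simp only [hH]
      rw [Set.indicator_of_notMem hx, norm_zero]
      positivity
  have hH0 : ∀ (n : ℕ) (x : Fin d → ℝ), x ∉ closedBall (0 : Fin d → ℝ) n → H n x = 0 := by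
    intro n x hx
    simp only [hH]
    rw [Set.indicator_of_notMem (fun h' => hx h'.1)]
  have hHLp : ∀ n (p : ℝ≥0∞), MemLp (H n) p volume := fun n p =>
    bddMem (hHm n).aestronglyMeasurable (hHb n) measurableSet_closedBall (vol_cb_fin _ _)
      (hH0 n) p
  have hev : ∀ x, ∀ᶠ n in atTop, x ∈ A n := by
    intro x
    obtain ⟨N, hN⟩ := exists_nat_ge (max ‖x‖ ‖h x‖)
    filter_upwards [eventually_ge_atTop N] with n hn
    have hn' : (N:ℝ) ≤ n := by exact_mod_cast hn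
    refine ⟨?_, ?_⟩
    · rw [mem_closedBall, dist_zero_right]
      exact ((le_max_left _ _).trans hN).trans hn'
    · exact ((le_max_right _ _).trans hN).trans hn'
  have hlim : Tendsto (fun n => ∫⁻ x, ‖H n x - h x‖ₑ) atTop (𝓝 0) := by
    have h1 := tendsto_lintegral_of_dominated_convergence' (μ := (volume : Measure (Fin d → ℝ)))
      (F := fun n x => ‖H n x - h x‖ₑ) (f := fun _ => 0) (fun x => ‖h x‖ₑ)
      (fun n => ((hHm n).sub hh).enorm.aemeasurable) (fun n => Eventually.of_forall (fun x => by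
        show ‖H n x - h x‖ₑ ≤ ‖h x‖ₑ
        by_cases hx : x ∈ A n
        · simp only [hH]
          rw [Set.indicator_of_mem hx, sub_self, enorm_zero]; exact bot_le
        · simp only [hH]
          rw [Set.indicator_of_notMem hx, zero_sub, enorm_neg])) hfin
      (Eventually.of_forall (fun x => by
        apply tendsto_const_nhds.congr'
        filter_upwards [hev x] with n hx
        simp only [hH]
        rw [Set.indicator_of_mem hx, sub_self, enorm_zero]))
    rwa [lintegral_zero] at h1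
  obtain ⟨g, hg, ⟨m, hm⟩, hF⟩ := extVal hd hT h hh.aestronglyMeasurable H (fun n => hHLp n 2)
    (fun n => hHLp n 1) hlim
  refine ⟨g, hg, hF, ?_⟩
  have hac : wm volume σ ≪ volume := withDensity_absolutelyContinuous _ _
  have hm' : ∀ᵐ x ∂(wm volume σ), Tendsto (fun n => TT T (H (m n)) x) atTop (𝓝 (g x)) :=
    hac.ae_le hm
  have hbd : ∀ n, ∫⁻ x, ‖TT T (H n) x‖ₑ ^ 2 ∂(wm volume σ) ≤
      C * ∫⁻ x, ‖f x‖ₑ ^ 2 ∂(wm volume w) := by
    intro n
    have h1 := hC w σ hw hσ hwf hσf hb₁ hb₂ ((A n).indicator f) (H n) (hf.indicator (hAm n))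
      (hHm n) (by
        intro x
        by_cases hx : x ∈ A n
        · simp only [hH]
          rw [Set.indicator_of_mem hx, Set.indicator_of_mem hx, hhf x, enorm_mul]
          congr 1
          rw [← ofReal_norm, RCLike.norm_ofReal, abs_of_nonneg (w x).coe_nonneg,
            ENNReal.ofReal_coe_nnreal]
        · simp only [hH]
          rw [Set.indicator_of_notMem hx, Set.indicator_of_notMem hx, enorm_zero, mul_zero])
      (n : ℝ≥0) (hHb n) n (by positivity) (hH0 n)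
    refine h1.trans (mul_le_mul' le_rfl (lintegral_mono (fun x => ?_)))
    apply pow_le_pow_left₀ bot_le
    by_cases hx : x ∈ A n
    · rw [Set.indicator_of_mem hx]
    · rw [Set.indicator_of_notMem hx, enorm_zero]; exact bot_le
  calc ∫⁻ x, ‖g x‖ₑ ^ 2 ∂(wm volume σ)
      = ∫⁻ x, liminf (fun n => ‖TT T (H (m n)) x‖ₑ ^ 2) atTop ∂(wm volume σ) := by
        apply lintegral_congr_ae
        filter_upwards [hm'] with x hx
        symm
        apply Tendsto.liminf_eq
        exact ((ENNReal.continuous_pow 2).tendsto _).comp hx.enorm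
    _ ≤ liminf (fun n => ∫⁻ x, ‖TT T (H (m n)) x‖ₑ ^ 2 ∂(wm volume σ)) atTop :=
        lintegral_liminf_le' (fun n => ((TT_aesm (H (m n))).mono_ac hac).enorm.pow_const 2)
    _ ≤ liminf (fun _ : ℕ => C * ∫⁻ x, ‖f x‖ₑ ^ 2 ∂(wm volume w)) atTop :=
        liminf_le_liminf (Eventually.of_forall fun n => hbd (m n))
    _ = _ := liminf_const _

/-- Integrable functions are limits in `L¹` of functions in `L¹ ∩ L²`. -/
lemma exists_approx (h : (Fin d → ℝ) → 𝕜) (hh : Measurable h) (hfin : ∫⁻ x, ‖h x‖ₑ ≠ ∞) :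
    ∃ H : ℕ → (Fin d → ℝ) → 𝕜, (∀ n, MemLp (H n) 2 volume) ∧ (∀ n, MemLp (H n) 1 volume) ∧
      Tendsto (fun n => ∫⁻ x, ‖H n x - h x‖ₑ) atTop (𝓝 0) := by
  set A : ℕ → Set (Fin d → ℝ) := fun n => closedBall 0 n ∩ {x | ‖h x‖ ≤ n} with hA
  have hAm : ∀ n, MeasurableSet (A n) := fun n =>
    measurableSet_closedBall.inter (measurableSet_le hh.norm measurable_const)
  set H : ℕ → (Fin d → ℝ) → 𝕜 := fun n => (A n).indicator h with hH
  have hHm : ∀ n, Measurable (H n) := fun n => hh.indicator (hAm n)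
  have hHb : ∀ n x, ‖H n x‖ ≤ ((n : ℝ≥0) : ℝ) := by
    intro n x
    by_cases hx : x ∈ A n
    · simp only [hH]
      rw [Set.indicator_of_mem hx]
      have : ‖h x‖ ≤ n := hx.2
      simpa using this
    · simp only [hH]
      rw [Set.indicator_of_notMem hx, norm_zero]
      positivity
  have hH0 : ∀ (n : ℕ) (x : Fin d → ℝ), x ∉ closedBall (0 : Fin d → ℝ) n → H n x = 0 := by
    intro n x hx
    simp only [hH]
    rw [Set.indicator_of_notMem (fun h' => hx h'.1)]
  have hHLp : ∀ n (p : ℝ≥0∞), MemLp (H n) p volume := fun n p =>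
    bddMem (hHm n).aestronglyMeasurable (hHb n) measurableSet_closedBall (vol_cb_fin _ _)
      (hH0 n) p
  have hev : ∀ x, ∀ᶠ n in atTop, x ∈ A n := by
    intro x
    obtain ⟨N, hN⟩ := exists_nat_ge (max ‖x‖ ‖h x‖)
    filter_upwards [eventually_ge_atTop N] with n hn
    have hn' : (N:ℝ) ≤ n := by exact_mod_cast hn
    refine ⟨?_, ?_⟩
    · rw [mem_closedBall, dist_zero_right]
      exact ((le_max_left _ _).trans hN).trans hn'
    · exact ((le_max_right _ _).trans hN).trans hn'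
  refine ⟨H, fun n => hHLp n 2, fun n => hHLp n 1, ?_⟩
  have h1 := tendsto_lintegral_of_dominated_convergence' (μ := (volume : Measure (Fin d → ℝ)))
    (F := fun n x => ‖H n x - h x‖ₑ) (f := fun _ => 0) (fun x => ‖h x‖ₑ)
    (fun n => ((hHm n).sub hh).enorm.aemeasurable) (fun n => Eventually.of_forall (fun x => by
      show ‖H n x - h x‖ₑ ≤ ‖h x‖ₑ
      by_cases hx : x ∈ A n
      · simp only [hH]
        rw [Set.indicator_of_mem hx, sub_self, enorm_zero]; exact bot_le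
      · simp only [hH]
        rw [Set.indicator_of_notMem hx, zero_sub, enorm_neg])) hfin
    (Eventually.of_forall (fun x => by
      apply tendsto_const_nhds.congr'
      filter_upwards [hev x] with n hx
      simp only [hH]
      rw [Set.indicator_of_mem hx, sub_self, enorm_zero]))
  rwa [lintegral_zero] at h1

end Pool.Agent.H433R3.Sep
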