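import Pool.Agent.H433R3.Sep1

set_option autoImplicit false
set_option linter.unusedSectionVars false
set_option linter.unusedVariables false

namespace Pool.Agent.H433R3.Sep

open Finset

variable {X : Type*} [Fintype X] [DecidableEq X]

/-- Maximal elements of a laminar family. -/
lemma maxels (G : Finset (Finset X)) (hG : Lam G) :
    ∃ M ⊆ G, (∀ A ∈ M, ∀ B ∈ M, A ≠ B → Disjoint A B) ∧ ∀ A ∈ G, ∃ B ∈ M, A ⊆ B := by
  classical
  refine ⟨G.filter (fun A => ∀ B ∈ G, A ⊆ B → A = B), Finset.filter_subset _ _, ?_, ?_⟩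
  · intro A hA B hB hAB
    simp only [Finset.mem_filter] at hA hB
    rcases hG.2 A hA.1 B hB.1 with h | h | h
    · exact absurd (hA.2 B hB.1 h) hAB
    · exact absurd (hB.2 A hA.1 h).symm hAB
    · exact h
  · intro A hA
    obtain ⟨M, hM, hMmax⟩ := Finset.exists_max_image (G.filter (fun B => A ⊆ B)) Finset.card
      ⟨A, by simp [hA]⟩
    simp only [Finset.mem_filter] at hM
    refine ⟨M, ?_, hM.2⟩
    simp only [Finset.mem_filter]
    refine ⟨hM.1, fun B hB hMB => ?_⟩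
    have := hMmax B (by simp only [Finset.mem_filter]; exact ⟨hB, hM.2.trans hMB⟩)
    exact Finset.eq_of_subset_of_card_le hMB this

/-- Exponential decay of the nesting function. -/
lemma decay (S : Finset (Finset X)) (hS : Lam S) (m : X → ℝ) (hm : ∀ x, 0 ≤ m x)
    (hH : ∀ Q ∈ S, 256 * ∑ x ∈ (S.filter (fun A => A ⊂ Q)).biUnion id, m x ≤ ∑ x ∈ Q, m x) :
    ∀ n : ℕ, ∀ H ∈ S, 256 ^ n * ∑ x ∈ H with n ≤ (S.filter (fun Q => x ∈ Q ∧ Q ⊂ H)).card, m x ≤
      ∑ x ∈ H, m x := by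
  classical
  intro n
  induction n with
  | zero =>
    intro H hH'
    simp
  | succ n ih =>
    intro H hHS
    obtain ⟨M, hMG, hMdis, hMcov⟩ := maxels (S.filter (fun A => A ⊂ H))
      (hS.mono (Finset.filter_subset _ _))
    have hMS : ∀ A ∈ M, A ∈ S := fun A hA => (Finset.mem_filter.1 (hMG hA)).1
    have hMH : ∀ A ∈ M, A ⊂ H := fun A hA => (Finset.mem_filter.1 (hMG hA)).2
    -- inclusion of the level set
    have hincl : (H.filter (fun x => n + 1 ≤ (S.filter (fun Q => x ∈ Q ∧ Q ⊂ H)).card)) ⊆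
        M.biUnion (fun A => A.filter (fun x => n ≤ (S.filter (fun Q => x ∈ Q ∧ Q ⊂ A)).card)) := by
      intro x hx
      simp only [Finset.mem_filter] at hx
      have hpos : 0 < (S.filter (fun Q => x ∈ Q ∧ Q ⊂ H)).card := by omega
      obtain ⟨Q, hQ⟩ := Finset.card_pos.1 hpos
      simp only [Finset.mem_filter] at hQ
      obtain ⟨A, hA, hQA⟩ := hMcov Q (by simp only [Finset.mem_filter]; exact ⟨hQ.1, hQ.2.2⟩)
      have hxA : x ∈ A := hQA hQ.2.1
      refine Finset.mem_biUnion.2 ⟨A, hA, ?_⟩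
      simp only [Finset.mem_filter]
      refine ⟨hxA, ?_⟩
      have hsub : S.filter (fun Q => x ∈ Q ∧ Q ⊂ H) ⊆
          insert A (S.filter (fun Q => x ∈ Q ∧ Q ⊂ A)) := by
        intro B hB
        simp only [Finset.mem_filter] at hB
        simp only [Finset.mem_insert, Finset.mem_filter]
        rcases hS.comp hB.1 (hMS A hA) hB.2.1 hxA with h | h
        · rcases eq_or_ssubset_of_subset h with h | h
          · exact Or.inl h
          · exact Or.inr ⟨hB.1, hB.2.1, h⟩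
        · exfalso
          obtain ⟨A', hA', hBA'⟩ := hMcov B (by
            simp only [Finset.mem_filter]; exact ⟨hB.1, hB.2.2⟩)
          have hAA' : A ⊂ A' := lt_of_lt_of_le h hBA'
          have hne : A ≠ A' := (Finset.ssubset_iff_subset_ne.1 hAA').2
          exact Finset.disjoint_left.1 (hMdis A hA A' hA' hne) hxA (hAA'.1 hxA)
      have h1 := Finset.card_le_card hsub
      have h2 := Finset.card_insert_le A (S.filter (fun Q => x ∈ Q ∧ Q ⊂ A))
      omega
    have h1 : ∑ x ∈ H with n + 1 ≤ (S.filter (fun Q => x ∈ Q ∧ Q ⊂ H)).card, m x ≤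
        ∑ A ∈ M, ∑ x ∈ A with n ≤ (S.filter (fun Q => x ∈ Q ∧ Q ⊂ A)).card, m x := by
      rw [← Finset.sum_biUnion (fun A hA B hB hAB => Finset.disjoint_of_subset_left
        (Finset.filter_subset _ _) (Finset.disjoint_of_subset_right (Finset.filter_subset _ _)
          (hMdis A hA B hB hAB)))]
      exact Finset.sum_le_sum_of_subset_of_nonneg hincl (fun x _ _ => hm x)
    have h2 : ∑ A ∈ M, ∑ x ∈ A, m x ≤ ∑ x ∈ (S.filter (fun A => A ⊂ H)).biUnion id, m x := by
      apply sum_sum_le M _ (fun A => A) _ hMdis m (fun x _ => hm x)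
      intro A hA x hx
      exact Finset.mem_biUnion.2 ⟨A, hMG hA, hx⟩
    have h3 := hH H hHS
    calc 256 ^ (n + 1) * ∑ x ∈ H with n + 1 ≤ (S.filter (fun Q => x ∈ Q ∧ Q ⊂ H)).card, m x
        ≤ 256 ^ (n + 1) * ∑ A ∈ M, ∑ x ∈ A with n ≤ (S.filter (fun Q => x ∈ Q ∧ Q ⊂ A)).card, m x :=
          mul_le_mul_of_nonneg_left h1 (by positivity)
      _ = 256 * ∑ A ∈ M, 256 ^ n *
            ∑ x ∈ A with n ≤ (S.filter (fun Q => x ∈ Q ∧ Q ⊂ A)).card, m x := by
          rw [← Finset.mul_sum]; ring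
      _ ≤ 256 * ∑ A ∈ M, ∑ x ∈ A, m x := by
          apply mul_le_mul_of_nonneg_left _ (by norm_num)
          exact Finset.sum_le_sum (fun A hA => ih A (hMS A hA))
      _ ≤ ∑ x ∈ H, m x := by linarith

/-- Packing lemma. -/
lemma packing (G : Finset (Finset X)) (hG : Lam G) (μ : X → ℝ) (hμ : ∀ x, 0 ≤ μ x)
    (R : Finset X) (hR : ∀ Q ∈ G, Q ⊆ R)
    (h : ∀ H ∈ G, 2 * ∑ x ∈ (G.filter (fun A => A ⊂ H)).biUnion id, μ x ≤ ∑ x ∈ H, μ x) :
    ∑ H ∈ G, ∑ x ∈ H, μ x ≤ 2 * ∑ x ∈ R, μ x := by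
  classical
  have h1 : ∀ H ∈ G, ∑ x ∈ H, μ x ≤
      2 * ∑ x ∈ H \ (G.filter (fun A => A ⊂ H)).biUnion id, μ x := by
    intro H hHG
    have hsub : (G.filter (fun A => A ⊂ H)).biUnion id ⊆ H := by
      intro x hx
      obtain ⟨A, hA, hxA⟩ := Finset.mem_biUnion.1 hx
      exact (Finset.mem_filter.1 hA).2.1 hxA
    have := Finset.sum_sdiff (f := μ) hsub
    have := h H hHG
    linarith
  have h2 : ∑ H ∈ G, ∑ x ∈ H \ (G.filter (fun A => A ⊂ H)).biUnion id, μ x ≤ ∑ x ∈ R, μ x := by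
    apply sum_sum_le G R (fun H => H \ (G.filter (fun A => A ⊂ H)).biUnion id)
      (fun H hH => Finset.sdiff_subset.trans (hR H hH)) _ μ (fun x _ => hμ x)
    intro A hA B hB hAB
    rw [Finset.disjoint_left]
    intro x hx hx'
    simp only [Finset.mem_sdiff] at hx hx'
    rcases hG.comp hA hB hx.1 hx'.1 with h | h
    · rcases eq_or_ssubset_of_subset h with h | h
      · exact hAB h
      · exact hx'.2 (Finset.mem_biUnion.2 ⟨A, by simp [hA, h], hx.1⟩)
    · exact hx.2 (Finset.mem_biUnion.2 ⟨B, by simp [hB, h], hx'.1⟩)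
  calc ∑ H ∈ G, ∑ x ∈ H, μ x
      ≤ ∑ H ∈ G, 2 * ∑ x ∈ H \ (G.filter (fun A => A ⊂ H)).biUnion id, μ x :=
        Finset.sum_le_sum h1
    _ ≤ 2 * ∑ x ∈ R, μ x := by rw [← Finset.mul_sum]; linarith

/-- Class ancestors. -/
def anc (S : Finset (Finset X)) (π : Finset X → Finset X) (k : Finset X → ℤ) (P : Finset X) :
    Finset (Finset X) :=
  S.filter (fun Q => P ⊂ Q ∧ π Q = π P ∧ k Q = k P)

lemma mem_anc {S : Finset (Finset X)} {π : Finset X → Finset X} {k : Finset X → ℤ}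
    {P Q : Finset X} : Q ∈ anc S π k P ↔ Q ∈ S ∧ P ⊂ Q ∧ π Q = π P ∧ k Q = k P := by
  simp [anc]

lemma exists_anc (S : Finset (Finset X)) (hS : Lam S) (π : Finset X → Finset X)
    (k : Finset X → ℤ) : ∀ n : ℕ, ∀ P ∈ S, (anc S π k P).card = n → ∀ h ≤ n,
      ∃ H ∈ S, P ⊆ H ∧ π H = π P ∧ k H = k P ∧ (anc S π k H).card = h := by
  classical
  intro n
  induction n with
  | zero =>
    intro P hP hn h hh
    exact ⟨P, hP, subset_rfl, rfl, rfl, by omega⟩
  | succ n ih =>
    intro P hP hn h hh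
    rcases Nat.lt_or_ge n h with hh' | hh'
    · exact ⟨P, hP, subset_rfl, rfl, rfl, by omega⟩
    · have hne : (anc S π k P).Nonempty := by
        rw [← Finset.card_pos]; omega
      obtain ⟨Q, hQ, hQmin⟩ := Finset.exists_min_image (anc S π k P) Finset.card hne
      have hQ' := mem_anc.1 hQ
      have hins : anc S π k P = insert Q (anc S π k Q) := by
        ext A
        rw [Finset.mem_insert, mem_anc, mem_anc]
        constructor
        · rintro ⟨hA, hPA, hπ, hk⟩
          obtain ⟨x, hx⟩ := hS.1 P hP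
          rcases hS.comp hA hQ'.1 (hPA.1 hx) (hQ'.2.1.1 hx) with h1 | h1
          · left
            exact Finset.eq_of_subset_of_card_le h1 (hQmin A (mem_anc.2 ⟨hA, hPA, hπ, hk⟩))
          · right
            exact ⟨hA, h1, hπ.trans hQ'.2.2.1.symm, hk.trans hQ'.2.2.2.symm⟩
        · rintro (rfl | ⟨hA, hQA, hπ, hk⟩)
          · exact hQ'
          · exact ⟨hA, hQ'.2.1.trans hQA, hπ.trans hQ'.2.2.1, hk.trans hQ'.2.2.2⟩
      have hnot : Q ∉ anc S π k Q := fun hc => (mem_anc.1 hc).2.1.2 subset_rfl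
      have hcard : (anc S π k Q).card = n := by
        have := Finset.card_insert_of_notMem hnot
        rw [← hins] at this
        omega
      obtain ⟨H, hH, hQH, hπH, hkH, hgH⟩ := ih Q hQ'.1 hcard h hh'
      exact ⟨H, hH, hQ'.2.1.1.trans hQH, hπH.trans hQ'.2.2.1, hkH.trans hQ'.2.2.2, hgH⟩

/-- Members of the same class and generation are disjoint. -/
lemma class_disj (S : Finset (Finset X)) (hS : Lam S) (π : Finset X → Finset X)
    (k : Finset X → ℤ) {P Q : Finset X} (hP : P ∈ S) (hQ : Q ∈ S) (hπ : π P = π Q)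
    (hk : k P = k Q) (hg : (anc S π k P).card = (anc S π k Q).card) {x : X} (hxP : x ∈ P)
    (hxQ : x ∈ Q) : P = Q := by
  classical
  have key : ∀ P Q : Finset X, P ∈ S → Q ∈ S → π P = π Q → k P = k Q → P ⊂ Q →
      (anc S π k Q).card < (anc S π k P).card := by
    intro P Q hP hQ hπ hk hPQ
    apply Finset.card_lt_card
    rw [Finset.ssubset_iff_of_subset]
    · exact ⟨Q, mem_anc.2 ⟨hQ, hPQ, hπ.symm, hk.symm⟩,
        fun hc => (mem_anc.1 hc).2.1.2 subset_rfl⟩
    · intro A hA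
      have hA' := mem_anc.1 hA
      exact mem_anc.2 ⟨hA'.1, hPQ.trans hA'.2.1, hA'.2.2.1.trans hπ.symm, hA'.2.2.2.trans hk.symm⟩
  rcases hS.comp hP hQ hxP hxQ with h | h
  · rcases eq_or_ssubset_of_subset h with h | h
    · exact h
    · have := key P Q hP hQ hπ hk h; omega
  · have := key Q P hQ hP hπ.symm hk.symm h; omega

end Pool.Agent.H433R3.Sep
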