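import Pool.Agent.H433R3.Sep3

set_option autoImplicit false
set_option linter.unusedSectionVars false
set_option linter.unusedVariables false

namespace Pool.Agent.H433R3.Sep

open Finset

variable {X : Type*} [Fintype X] [DecidableEq X]

/-- Data of the testing theorem. -/
structure Bump (S : Finset (Finset X)) (m μ ν : X → ℝ) (ρ : Finset X → ℝ) : Prop where
  lam : Lam S
  hm : ∀ x, 0 ≤ m x
  hμ : ∀ x, 0 ≤ μ x
  hν : ∀ x, 0 ≤ ν x
  mpos : ∀ Q ∈ S, 0 < ∑ x ∈ Q, m x
  μpos : ∀ Q ∈ S, 0 < ∑ x ∈ Q, μ x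
  hH : ∀ Q ∈ S, 256 * ∑ x ∈ (S.filter (fun A => A ⊂ Q)).biUnion id, m x ≤ ∑ x ∈ Q, m x
  hρ : ∀ Q ∈ S, 1 ≤ ρ Q
  hB1 : ∀ Q ∈ S, (∑ x ∈ Q, μ x) * (∑ x ∈ Q, ν x) * ρ Q ≤ (∑ x ∈ Q, m x) ^ 2
  hB2 : ∀ H ∈ S, ∀ M ⊆ S, (∀ F ∈ M, F ⊆ H) → (∀ A ∈ M, ∀ B ∈ M, A ≠ B → Disjoint A B) →
    ∑ F ∈ M, (∑ x ∈ F, μ x) * ρ F ≤ (∑ x ∈ H, μ x) * ρ H

lemma Bump.mono {S S' : Finset (Finset X)} {m μ ν : X → ℝ} {ρ : Finset X → ℝ}
    (h : Bump S m μ ν ρ) (hS : S' ⊆ S) : Bump S' m μ ν ρ where
  lam := h.lam.mono hS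
  hm := h.hm
  hμ := h.hμ
  hν := h.hν
  mpos := fun Q hQ => h.mpos Q (hS hQ)
  μpos := fun Q hQ => h.μpos Q (hS hQ)
  hH := fun Q hQ => by
    refine le_trans (mul_le_mul_of_nonneg_left ?_ (by norm_num)) (h.hH Q (hS hQ))
    apply Finset.sum_le_sum_of_subset_of_nonneg
    · exact Finset.biUnion_subset_biUnion_of_subset_left _ (Finset.filter_subset_filter _ hS)
    · intro x _ _; exact h.hm x
  hρ := fun Q hQ => h.hρ Q (hS hQ)
  hB1 := fun Q hQ => h.hB1 Q (hS hQ)
  hB2 := fun H hH M hM => h.hB2 H (hS hH) M (hM.trans hS)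

section

variable {S : Finset (Finset X)} {m μ ν : X → ℝ} {ρ : Finset X → ℝ}

/-- averages -/
noncomputable def av (m μ : X → ℝ) (Q : Finset X) : ℝ := (∑ x ∈ Q, μ x) / ∑ x ∈ Q, m x

/-- dyadic size of the averages -/
noncomputable def kk (m μ : X → ℝ) (Q : Finset X) : ℤ := Int.log 2 (av m μ Q)

/-- product of averages -/
noncomputable def AA (m μ ν : X → ℝ) (Q : Finset X) : ℝ :=
  (∑ x ∈ Q, μ x) * (∑ x ∈ Q, ν x) / (∑ x ∈ Q, m x) ^ 2

lemma Bump.av_pos (h : Bump S m μ ν ρ) {Q : Finset X} (hQ : Q ∈ S) : 0 < av m μ Q :=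
  div_pos (h.μpos Q hQ) (h.mpos Q hQ)

lemma Bump.kk_le (h : Bump S m μ ν ρ) {Q : Finset X} (hQ : Q ∈ S) :
    (2:ℝ) ^ kk m μ Q ≤ av m μ Q := by
  have := Int.zpow_log_le_self (b := 2) (by norm_num) (h.av_pos hQ)
  push_cast at this
  exact this

lemma le_kk (m μ : X → ℝ) (Q : Finset X) : av m μ Q ≤ 2 * (2:ℝ) ^ kk m μ Q := by
  have := (Int.lt_zpow_succ_log_self (b := 2) (by norm_num) (av m μ Q)).le
  rw [zpow_add₀ (by norm_num)] at this
  push_cast at this
  simp only [kk]
  linarith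

lemma Bump.AA_nonneg (h : Bump S m μ ν ρ) (Q : Finset X) : 0 ≤ AA m μ ν Q := by
  unfold AA
  have h1 : 0 ≤ ∑ x ∈ Q, μ x := Finset.sum_nonneg (fun x _ => h.hμ x)
  have h2 : 0 ≤ ∑ x ∈ Q, ν x := Finset.sum_nonneg (fun x _ => h.hν x)
  positivity

lemma Bump.AA_le (h : Bump S m μ ν ρ) {Q : Finset X} (hQ : Q ∈ S) : AA m μ ν Q ≤ 1 / ρ Q := by
  unfold AA
  have h1 := h.mpos Q hQ
  have h2 : 0 < ρ Q := lt_of_lt_of_le one_pos (h.hρ Q hQ)
  rw [div_le_div_iff₀ (by positivity) h2]
  have := h.hB1 Q hQ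
  linarith

/-- `4^k ν(Q) ≤ μ(Q) A_Q` -/
lemma Bump.e_le (h : Bump S m μ ν ρ) {Q : Finset X} (hQ : Q ∈ S) :
    ((2:ℝ) ^ kk m μ Q) ^ 2 * ∑ x ∈ Q, ν x ≤ (∑ x ∈ Q, μ x) * AA m μ ν Q := by
  have h1 := h.kk_le hQ
  have h2 := h.mpos Q hQ
  have h0 : (0:ℝ) ≤ (2:ℝ) ^ kk m μ Q := by positivity
  have h3 : ((2:ℝ) ^ kk m μ Q) ^ 2 ≤ (av m μ Q) ^ 2 := pow_le_pow_left₀ h0 h1 2
  have h4 : 0 ≤ ∑ x ∈ Q, ν x := Finset.sum_nonneg (fun x _ => h.hν x)
  calc ((2:ℝ) ^ kk m μ Q) ^ 2 * ∑ x ∈ Q, ν x ≤ (av m μ Q) ^ 2 * ∑ x ∈ Q, ν x :=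
        mul_le_mul_of_nonneg_right h3 h4
    _ = (∑ x ∈ Q, μ x) * AA m μ ν Q := by
        unfold av AA; field_simp

lemma min_lemma {z a b w : ℝ} (hw : 0 ≤ w) (ha : 0 ≤ a) (hb : 0 ≤ b) (h1 : z ≤ w * a ^ 2)
    (h2 : z ≤ w * (2 * b ^ 2)) : z ≤ w * (2 * (a * b)) := by
  rcases le_total a b with h | h
  · refine h1.trans (mul_le_mul_of_nonneg_left ?_ hw)
    nlinarith [mul_nonneg ha hb]
  · refine h2.trans (mul_le_mul_of_nonneg_left ?_ hw)
    nlinarith [mul_nonneg ha hb]

/-- The class family. -/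
noncomputable def cls (S : Finset (Finset X)) (π : Finset X → Finset X) (k : Finset X → ℤ)
    (i g : ℕ) : Finset (Finset X) :=
  S.filter (fun P => (k (π P) - k P).toNat = i ∧ (anc S π k P).card = g)

lemma mem_cls {π : Finset X → Finset X} {k : Finset X → ℤ} {i g : ℕ} {P : Finset X} :
    P ∈ cls S π k i g ↔ P ∈ S ∧ (k (π P) - k P).toNat = i ∧ (anc S π k P).card = g := by
  simp [cls]

/-- The main energy estimate. -/
lemma Bump.energy (h : Bump S m μ ν ρ) (R : Finset X) (hR : ∀ Q ∈ S, Q ⊆ R) (C0 : ℝ)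
    (hC0 : 0 ≤ C0)
    (hB3 : ∑ Q ∈ S, (∑ x ∈ Q, μ x) / ρ Q ≤ C0 * ∑ x ∈ R, μ x)
    (π : Finset X → Finset X)
    (hπ : ∀ Q ∈ S, IsRec S (kk m μ) (π Q) ∧ Q ⊆ π Q ∧ kk m μ Q ≤ kk m μ (π Q) ∧
      ∀ F', IsRec S (kk m μ) F' → Q ⊆ F' → π Q ⊆ F') (i g : ℕ) :
    4 ^ i * (∑ P ∈ cls S π (kk m μ) i g, ((2:ℝ) ^ kk m μ P) ^ 2 * ∑ x ∈ P, ν x) ≤
        C0 * ∑ x ∈ R, μ x ∧
    4 ^ (g / 2) * (∑ P ∈ cls S π (kk m μ) i g, ((2:ℝ) ^ kk m μ P) ^ 2 * ∑ x ∈ P, ν x) ≤
        (3 * C0 + 8) * ∑ x ∈ R, μ x := by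
  classical
  set k : Finset X → ℤ := kk m μ with hk
  have hS := h.lam
  have hμ0 : ∀ Q : Finset X, 0 ≤ ∑ y ∈ Q, μ y := fun Q => Finset.sum_nonneg (fun y _ => h.hμ y)
  have hν0 : ∀ Q : Finset X, 0 ≤ ∑ y ∈ Q, ν y := fun Q => Finset.sum_nonneg (fun y _ => h.hν y)
  have hm0 : ∀ Q : Finset X, 0 ≤ ∑ y ∈ Q, m y := fun Q => Finset.sum_nonneg (fun y _ => h.hm y)
  have hπS : ∀ Q ∈ S, π Q ∈ S := fun Q hQ => (hπ Q hQ).1.1
  have hkP : ∀ P ∈ cls S π k i g, k P = k (π P) - i := by
    intro P hP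
    have hP' := mem_cls.1 hP
    have := (hπ P hP'.1).2.2.1
    have h2 := hP'.2.1
    omega
  -- disjointness inside one record
  have hdis : ∀ g' : ℕ, ∀ P ∈ cls S π k i g', ∀ Q ∈ cls S π k i g', π P = π Q → P ≠ Q →
      Disjoint P Q := by
    intro g' P hP Q hQ hPQ hne
    rw [Finset.disjoint_left]
    intro x hx hx'
    apply hne
    have hP' := mem_cls.1 hP
    have hQ' := mem_cls.1 hQ
    apply class_disj S hS π k hP'.1 hQ'.1 hPQ _ (hP'.2.2.trans hQ'.2.2.symm) hx hx'
    have h1 := (hπ P hP'.1).2.2.1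
    have h2 := (hπ Q hQ'.1).2.2.1
    have h3 := hP'.2.1
    have h4 := hQ'.2.1
    rw [hPQ] at h1 h3
    omega
  set R' : Finset (Finset X) := S.image π with hR'
  have hR'S : ∀ F ∈ R', F ∈ S := by
    intro F hF
    obtain ⟨Q, hQ, rfl⟩ := Finset.mem_image.1 hF
    exact hπS Q hQ
  -- energy inside one record, for a subfamily
  have hrec : ∀ g' : ℕ, ∀ G ⊆ cls S π k i g', ∀ F, ∑ P ∈ G with π P = F, ∑ x ∈ P, ν x ≤
      ∑ x ∈ F, ν x := by
    intro g' G hG F
    apply sum_sum_le (G.filter (fun P => π P = F)) F (fun P => P) _ _ ν (fun x _ => h.hν x)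
    · intro P hP
      simp only [Finset.mem_filter] at hP
      rw [← hP.2]
      exact (hπ P (mem_cls.1 (hG hP.1)).1).2.1
    · intro P hP Q hQ hne
      simp only [Finset.mem_filter] at hP hQ
      exact hdis g' P (hG hP.1) Q (hG hQ.1) (hP.2.trans hQ.2.symm) hne
  have hesum : ∀ G ⊆ S, ∑ F ∈ G, (∑ x ∈ F, μ x) * AA m μ ν F ≤ C0 * ∑ x ∈ R, μ x := by
    intro G hG
    calc ∑ F ∈ G, (∑ x ∈ F, μ x) * AA m μ ν F ≤ ∑ F ∈ G, (∑ x ∈ F, μ x) / ρ F := by
          apply Finset.sum_le_sum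
          intro F hF
          have := mul_le_mul_of_nonneg_left (h.AA_le (hG hF)) (hμ0 F)
          rw [mul_one_div] at this
          exact this
      _ ≤ ∑ F ∈ S, (∑ x ∈ F, μ x) / ρ F :=
          Finset.sum_le_sum_of_subset_of_nonneg hG (fun F hF _ =>
            div_nonneg (hμ0 F) (le_trans zero_le_one (h.hρ F hF)))
      _ ≤ _ := hB3
  constructor
  · -- bound 1
    rw [Finset.mul_sum]
    rw [← Finset.sum_fiberwise_of_maps_to (s := cls S π k i g) (t := R') (g := π)
      (fun Q hQ => Finset.mem_image_of_mem π (mem_cls.1 hQ).1)]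
    refine le_trans (Finset.sum_le_sum (g := fun F => (∑ x ∈ F, μ x) * AA m μ ν F) ?_)
      (hesum R' (fun F hF => hR'S F hF))
    intro F hF
    have h1 : ∑ P ∈ cls S π k i g with π P = F, 4 ^ i * (((2:ℝ) ^ k P) ^ 2 * ∑ x ∈ P, ν x) =
        ((2:ℝ) ^ k F) ^ 2 * ∑ P ∈ cls S π k i g with π P = F, ∑ x ∈ P, ν x := by
      rw [Finset.mul_sum]
      apply Finset.sum_congr rfl
      intro P hP
      simp only [Finset.mem_filter] at hP
      rw [hkP P hP.1, hP.2, zpow_sub₀ (by norm_num), zpow_natCast, div_pow, ← pow_mul,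
        mul_comm i 2, pow_mul]
      norm_num
      field_simp
    rw [h1]
    refine le_trans (mul_le_mul_of_nonneg_left (hrec g _ subset_rfl F) (by positivity)) ?_
    exact h.e_le (hR'S F hF)
  · -- bound 2
    set n : ℕ := g / 2 with hn
    rcases Nat.eq_zero_or_pos n with hn0 | hn0
    · -- n = 0, use bound 1 type estimate
      rw [hn0, pow_zero, one_mul]
      have hb : ∑ P ∈ cls S π k i g, ((2:ℝ) ^ k P) ^ 2 * ∑ x ∈ P, ν x ≤ C0 * ∑ x ∈ R, μ x := by
        refine le_trans (Finset.sum_le_sum (fun P hP => h.e_le (mem_cls.1 hP).1)) ?_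
        exact hesum _ (Finset.filter_subset _ _)
      nlinarith [hμ0 R, mul_nonneg hC0 (hμ0 R)]
    have hex : ∀ P ∈ cls S π k i g, ∃ H ∈ S, P ⊆ H ∧ π H = π P ∧ k H = k P ∧
        (anc S π k H).card = n := by
      intro P hP
      have hP' := mem_cls.1 hP
      exact exists_anc S hS π k g P hP'.1 hP'.2.2 n (by omega)
    choose! Hf hHf using hex
    have hHcls : ∀ P ∈ cls S π k i g, Hf P ∈ cls S π k i n := by
      intro P hP
      obtain ⟨h1, h2, h3, h4, h5⟩ := hHf P hP
      have hP' := mem_cls.1 hP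
      exact mem_cls.2 ⟨h1, by rw [h3, h4]; exact hP'.2.1, h5⟩
    set M := ∑ x ∈ R, μ x with hM
    have hM0 : 0 ≤ M := hμ0 R
    -- for fixed H, the P's below H
    have hPH : ∀ G ⊆ cls S π k i g, ∀ H, ∀ w : X → ℝ, (∀ x, 0 ≤ w x) →
        ∑ P ∈ G with Hf P = H, ∑ x ∈ P, w x ≤ ∑ x ∈ H, w x := by
      intro G hG H w hw
      apply sum_sum_le (G.filter (fun P => Hf P = H)) H (fun P => P) _ _ w (fun x _ => hw x)
      · intro P hP
        simp only [Finset.mem_filter] at hP
        rw [← hP.2]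
        exact (hHf P (hG hP.1)).2.1
      · intro P hP Q hQ hne
        simp only [Finset.mem_filter] at hP hQ
        refine hdis g P (hG hP.1) Q (hG hQ.1) ?_ hne
        rw [← (hHf P (hG hP.1)).2.2.1, ← (hHf Q (hG hQ.1)).2.2.1, hP.2, hQ.2]
    -- ν-energy below H
    have hνH : ∀ G ⊆ cls S π k i g, ∀ H ∈ S, ∑ P ∈ G with Hf P = H,
        ((2:ℝ) ^ k P) ^ 2 * ∑ x ∈ P, ν x ≤ (∑ x ∈ H, μ x) * AA m μ ν H := by
      intro G hG H hHS
      have h1 : ∑ P ∈ G with Hf P = H, ((2:ℝ) ^ k P) ^ 2 * ∑ x ∈ P, ν x =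
          ((2:ℝ) ^ k H) ^ 2 * ∑ P ∈ G with Hf P = H, ∑ x ∈ P, ν x := by
        rw [Finset.mul_sum]
        apply Finset.sum_congr rfl
        intro P hP
        simp only [Finset.mem_filter] at hP
        have := (hHf P (hG hP.1)).2.2.2.1
        rw [hP.2] at this
        rw [this]
      rw [h1]
      refine le_trans (mul_le_mul_of_nonneg_left (hPH G hG H ν h.hν) (by positivity)) ?_
      exact h.e_le hHS
    -- decay from F to H
    have hdecF : ∀ F ∈ S, ∑ H ∈ cls S π k i n with π H = F, ∑ x ∈ H, μ x ≤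
        2 * (1 / 256) ^ n * ∑ x ∈ F, μ x := by
      intro F hF
      have h1 : ∑ H ∈ cls S π k i n with π H = F, ∑ x ∈ H, m x ≤
          ∑ x ∈ F with n ≤ (S.filter (fun Q => x ∈ Q ∧ Q ⊂ F)).card, m x := by
        apply sum_sum_le _ _ (fun P => P) _ _ m (fun x _ => h.hm x)
        · intro H hH x hx
          simp only [Finset.mem_filter] at hH
          have hH' := mem_cls.1 hH.1
          have hHF : H ⊆ F := hH.2 ▸ (hπ H hH'.1).2.1
          simp only [Finset.mem_filter]
          refine ⟨hHF hx, ?_⟩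
          have hsub : (insert H (anc S π k H)).erase F ⊆
              S.filter (fun Q => x ∈ Q ∧ Q ⊂ F) := by
            intro Q hQ
            rw [Finset.mem_erase, Finset.mem_insert] at hQ
            simp only [Finset.mem_filter]
            rcases hQ.2 with rfl | hQ2
            · exact ⟨hH'.1, hx, lt_of_le_of_ne hHF hQ.1⟩
            · have hQ3 := mem_anc.1 hQ2
              refine ⟨hQ3.1, hQ3.2.1.1 hx, lt_of_le_of_ne ?_ hQ.1⟩
              have := (hπ Q hQ3.1).2.1
              rw [hQ3.2.2.1, hH.2] at this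
              exact this
          have hnot : H ∉ anc S π k H := fun hc => (mem_anc.1 hc).2.1.2 subset_rfl
          have e1 := Finset.card_insert_of_notMem hnot
          have e2 := Finset.pred_card_le_card_erase (s := insert H (anc S π k H)) (a := F)
          have e3 := Finset.card_le_card hsub
          have e4 := hH'.2.2
          omega
        · intro P hP Q hQ hne
          simp only [Finset.mem_filter] at hP hQ
          exact hdis n P hP.1 Q hQ.1 (hP.2.trans hQ.2.symm) hne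
      have h2 := decay S hS m h.hm h.hH n F hF
      have h3 : ∀ H ∈ (cls S π k i n).filter (fun H => π H = F), ∑ x ∈ H, μ x ≤
          2 * (2:ℝ) ^ k F * ∑ x ∈ H, m x := by
        intro H hH
        simp only [Finset.mem_filter] at hH
        have hH' := mem_cls.1 hH.1
        have e1 := le_kk m μ H
        have e2 := h.mpos H hH'.1
        have e3 : (2:ℝ) ^ k H ≤ 2 ^ k F := by
          apply zpow_le_zpow_right₀ (by norm_num)
          rw [← hH.2]
          exact (hπ H hH'.1).2.2.1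
        have e4 : ∑ x ∈ H, μ x = av m μ H * ∑ x ∈ H, m x := by
          unfold av; rw [div_mul_cancel₀ _ e2.ne']
        rw [e4]
        apply mul_le_mul_of_nonneg_right _ e2.le
        linarith
      have h4 := Finset.sum_le_sum h3
      rw [← Finset.mul_sum] at h4
      have e5 : (2:ℝ) ^ k F * ∑ x ∈ F, m x ≤ ∑ x ∈ F, μ x := by
        have := h.kk_le hF
        have e2 := h.mpos F hF
        have e4 : ∑ x ∈ F, μ x = av m μ F * ∑ x ∈ F, m x := by
          unfold av; rw [div_mul_cancel₀ _ e2.ne']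
        rw [e4]
        exact mul_le_mul_of_nonneg_right this e2.le
      have e6 : ∑ H ∈ cls S π k i n with π H = F, ∑ x ∈ H, m x ≤ (1/256) ^ n * ∑ x ∈ F, m x := by
        rw [one_div, inv_pow]
        rw [inv_mul_eq_div, le_div_iff₀ (by positivity)]
        calc _ = 256 ^ n * ∑ H ∈ cls S π k i n with π H = F, ∑ x ∈ H, m x := by ring
          _ ≤ 256 ^ n * _ := mul_le_mul_of_nonneg_left h1 (by positivity)
          _ ≤ _ := h2
      calc _ ≤ _ := h4
        _ ≤ 2 * (2:ℝ) ^ k F * ((1/256) ^ n * ∑ x ∈ F, m x) :=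
            mul_le_mul_of_nonneg_left e6 (by positivity)
        _ = 2 * (1/256) ^ n * ((2:ℝ) ^ k F * ∑ x ∈ F, m x) := by ring
        _ ≤ _ := mul_le_mul_of_nonneg_left e5 (by positivity)
    -- decay from H to P
    have hdecH : ∀ G ⊆ cls S π k i g, ∀ H ∈ S, (anc S π k H).card = n →
        ∑ P ∈ G with Hf P = H, ((2:ℝ) ^ k P) ^ 2 * ∑ x ∈ P, ν x ≤
        2 * (1 / 256) ^ n * ∑ x ∈ H, μ x := by
      intro G hG H hHS hHn
      have h1 : ∑ P ∈ G with Hf P = H, ∑ x ∈ P, m x ≤
          ∑ x ∈ H with n ≤ (S.filter (fun Q => x ∈ Q ∧ Q ⊂ H)).card, m x := by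
        apply sum_sum_le _ _ (fun P => P) _ _ m (fun x _ => h.hm x)
        · intro P hP x hx
          simp only [Finset.mem_filter] at hP
          have hP' := mem_cls.1 (hG hP.1)
          have hPf := hHf P (hG hP.1)
          rw [hP.2] at hPf
          simp only [Finset.mem_filter]
          refine ⟨hPf.2.1 hx, ?_⟩
          have hsub : insert P (anc S π k P) \ insert H (anc S π k H) ⊆
              S.filter (fun Q => x ∈ Q ∧ Q ⊂ H) := by
            intro Q hQ
            rw [Finset.mem_sdiff, Finset.mem_insert, Finset.mem_insert] at hQ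
            simp only [Finset.mem_filter]
            push Not at hQ
            have hQQ : Q ∈ S ∧ P ⊆ Q ∧ π Q = π P ∧ k Q = k P := by
              rcases hQ.1 with rfl | hQ2
              · exact ⟨hP'.1, subset_rfl, rfl, rfl⟩
              · have hQ3 := mem_anc.1 hQ2
                exact ⟨hQ3.1, hQ3.2.1.1, hQ3.2.2.1, hQ3.2.2.2⟩
            refine ⟨hQQ.1, hQQ.2.1 hx, ?_⟩
            rcases hS.comp hQQ.1 hHS (hQQ.2.1 hx) (hPf.2.1 hx) with h1 | h1
            · exact lt_of_le_of_ne h1 hQ.2.1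
            · exfalso
              apply hQ.2.2
              exact mem_anc.2 ⟨hQQ.1, h1, hQQ.2.2.1.trans hPf.2.2.1.symm,
                hQQ.2.2.2.trans hPf.2.2.2.1.symm⟩
          have hnotP : P ∉ anc S π k P := fun hc => (mem_anc.1 hc).2.1.2 subset_rfl
          have hnotH : H ∉ anc S π k H := fun hc => (mem_anc.1 hc).2.1.2 subset_rfl
          have e1 := Finset.card_insert_of_notMem hnotP
          have e1' := Finset.card_insert_of_notMem hnotH
          have e2 := Finset.le_card_sdiff (insert H (anc S π k H)) (insert P (anc S π k P))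
          have e3 := Finset.card_le_card hsub
          have e4 := hP'.2.2
          omega
        · intro P hP Q hQ hne
          simp only [Finset.mem_filter] at hP hQ
          refine hdis g P (hG hP.1) Q (hG hQ.1) ?_ hne
          rw [← (hHf P (hG hP.1)).2.2.1, ← (hHf Q (hG hQ.1)).2.2.1, hP.2, hQ.2]
      have h2 := decay S hS m h.hm h.hH n H hHS
      have h3 : ∀ P ∈ G.filter (fun P => Hf P = H), ((2:ℝ) ^ k P) ^ 2 * ∑ x ∈ P, ν x ≤
          2 * (2:ℝ) ^ k H * ∑ x ∈ P, m x := by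
        intro P hP
        simp only [Finset.mem_filter] at hP
        have hP' := mem_cls.1 (hG hP.1)
        have e0 := h.e_le hP'.1
        have e00 : AA m μ ν P ≤ 1 := le_trans (h.AA_le hP'.1) (by
          rw [div_le_one (lt_of_lt_of_le one_pos (h.hρ P hP'.1))]
          exact h.hρ P hP'.1)
        have e1 := le_kk m μ P
        have e2 := h.mpos P hP'.1
        have e3 : k H = k P := by
          have := (hHf P (hG hP.1)).2.2.2.1
          rwa [hP.2] at this
        have e4 : ∑ x ∈ P, μ x = av m μ P * ∑ x ∈ P, m x := by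
          unfold av; rw [div_mul_cancel₀ _ e2.ne']
        rw [e3]
        calc _ ≤ (∑ x ∈ P, μ x) * AA m μ ν P := e0
          _ ≤ (∑ x ∈ P, μ x) * 1 := mul_le_mul_of_nonneg_left e00 (hμ0 P)
          _ = av m μ P * ∑ x ∈ P, m x := by rw [mul_one, e4]
          _ ≤ _ := mul_le_mul_of_nonneg_right e1 e2.le
      have h4 := Finset.sum_le_sum h3
      rw [← Finset.mul_sum] at h4
      have e5 : (2:ℝ) ^ k H * ∑ x ∈ H, m x ≤ ∑ x ∈ H, μ x := by
        have := h.kk_le hHS
        have e2 := h.mpos H hHS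
        have e4 : ∑ x ∈ H, μ x = av m μ H * ∑ x ∈ H, m x := by
          unfold av; rw [div_mul_cancel₀ _ e2.ne']
        rw [e4]
        exact mul_le_mul_of_nonneg_right this e2.le
      have e6 : ∑ P ∈ G with Hf P = H, ∑ x ∈ P, m x ≤ (1/256) ^ n * ∑ x ∈ H, m x := by
        rw [one_div, inv_pow]
        rw [inv_mul_eq_div, le_div_iff₀ (by positivity)]
        calc _ = 256 ^ n * ∑ P ∈ G with Hf P = H, ∑ x ∈ P, m x := by ring
          _ ≤ 256 ^ n * _ := mul_le_mul_of_nonneg_left h1 (by positivity)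
          _ ≤ _ := h2
      calc _ ≤ _ := h4
        _ ≤ 2 * (2:ℝ) ^ k H * ((1/256) ^ n * ∑ x ∈ H, m x) :=
            mul_le_mul_of_nonneg_left e6 (by positivity)
        _ = 2 * (1/256) ^ n * ((2:ℝ) ^ k H * ∑ x ∈ H, m x) := by ring
        _ ≤ _ := mul_le_mul_of_nonneg_left e5 (by positivity)
    -- the three parts
    set e : Finset X → ℝ := fun P => ((2:ℝ) ^ k P) ^ 2 * ∑ x ∈ P, ν x with he
    have he0 : ∀ P, 0 ≤ e P := fun P => mul_nonneg (by positivity) (hν0 P)
    set C := cls S π k i g with hC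
    set pa : Finset X → Prop := fun P => AA m μ ν (π P) * 8 ^ n * ρ (π P) ≤ 1 with hpa
    set pb : Finset X → Prop := fun P => AA m μ ν (Hf P) ≤ 64 ^ n * AA m μ ν (π P) with hpb
    have hρ0 : ∀ Q ∈ S, 0 < ρ Q := fun Q hQ => lt_of_lt_of_le one_pos (h.hρ Q hQ)
    have hsplit : ∑ P ∈ C, e P = ∑ P ∈ C with pa P, e P +
        (∑ P ∈ C.filter (fun P => ¬ pa P) with pb P, e P +
          ∑ P ∈ C.filter (fun P => ¬ pa P) with ¬ pb P, e P) := by
      rw [Finset.sum_filter_add_sum_filter_not, Finset.sum_filter_add_sum_filter_not]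
    -- part (a)
    have hA : ∑ P ∈ C with pa P, e P ≤ (1/8) ^ n * (C0 * M) := by
      rw [← Finset.sum_fiberwise_of_maps_to (s := C.filter pa) (t := R') (g := π)
        (fun Q hQ => Finset.mem_image_of_mem π (mem_cls.1 (Finset.filter_subset _ _ hQ)).1)]
      have h1 : ∀ F ∈ R', ∑ P ∈ C.filter pa with π P = F, e P ≤
          (1/8) ^ n * ((∑ x ∈ F, μ x) / ρ F) := by
        intro F hF
        rcases ((C.filter pa).filter (fun P => π P = F)).eq_empty_or_nonempty with h0 | ⟨P0, hP0⟩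
        · rw [h0, Finset.sum_empty]
          exact mul_nonneg (by positivity) (div_nonneg (hμ0 F) (hρ0 F (hR'S F hF)).le)
        · simp only [Finset.mem_filter, hpa] at hP0
          have hcond := hP0.1.2
          rw [hP0.2] at hcond
          have h2 : ∑ P ∈ C.filter pa with π P = F, e P ≤
              ((2:ℝ) ^ k F) ^ 2 * ∑ P ∈ C.filter pa with π P = F, ∑ x ∈ P, ν x := by
            rw [Finset.mul_sum]
            apply Finset.sum_le_sum
            intro P hP
            simp only [Finset.mem_filter] at hP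
            apply mul_le_mul_of_nonneg_right _ (hν0 P)
            apply pow_le_pow_left₀ (by positivity)
            apply zpow_le_zpow_right₀ (by norm_num)
            rw [← hP.2]
            exact (hπ P (mem_cls.1 hP.1.1).1).2.2.1
          refine h2.trans ?_
          refine le_trans (mul_le_mul_of_nonneg_left (hrec g _ (Finset.filter_subset _ _) F)
            (by positivity)) ?_
          refine le_trans (h.e_le (hR'S F hF)) ?_
          have h3 : AA m μ ν F ≤ (1/8) ^ n * (1 / ρ F) := by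
            rw [one_div, inv_pow, ← one_div, div_mul_div_comm, one_mul,
              le_div_iff₀ (mul_pos (by positivity) (hρ0 F (hR'S F hF)))]
            linarith
          calc (∑ x ∈ F, μ x) * AA m μ ν F ≤ (∑ x ∈ F, μ x) * ((1/8) ^ n * (1 / ρ F)) :=
                mul_le_mul_of_nonneg_left h3 (hμ0 F)
            _ = _ := by ring
      refine (Finset.sum_le_sum h1).trans ?_
      rw [← Finset.mul_sum]
      apply mul_le_mul_of_nonneg_left _ (by positivity)
      refine le_trans (Finset.sum_le_sum_of_subset_of_nonneg (fun F hF => hR'S F hF)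
        (fun F hF _ => div_nonneg (hμ0 F) (hρ0 F hF).le)) hB3
    -- part (b)
    have hBp : ∑ P ∈ C.filter (fun P => ¬ pa P) with pb P, e P ≤ 2 * (1/4) ^ n * (C0 * M) := by
      set G := (C.filter (fun P => ¬ pa P)).filter pb with hG
      have hGC : G ⊆ C := (Finset.filter_subset _ _).trans (Finset.filter_subset _ _)
      rw [← Finset.sum_fiberwise_of_maps_to (s := G) (t := cls S π k i n) (g := Hf)
        (fun Q hQ => hHcls Q (hGC hQ))]
      have h1 : ∀ H ∈ cls S π k i n, ∑ P ∈ G with Hf P = H, e P ≤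
          64 ^ n * AA m μ ν (π H) * ∑ x ∈ H, μ x := by
        intro H hHc
        rcases (G.filter (fun P => Hf P = H)).eq_empty_or_nonempty with h0 | ⟨P0, hP0⟩
        · rw [h0, Finset.sum_empty]
          exact mul_nonneg (mul_nonneg (by positivity) (h.AA_nonneg _)) (hμ0 H)
        · simp only [Finset.mem_filter, hG, hpb] at hP0
          have hcond := hP0.1.2
          rw [← (hHf P0 hP0.1.1.1).2.2.1, hP0.2] at hcond
          refine (hνH G hGC H (mem_cls.1 hHc).1).trans ?_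
          rw [mul_comm]
          exact mul_le_mul_of_nonneg_right hcond (hμ0 H)
      refine (Finset.sum_le_sum h1).trans ?_
      rw [← Finset.sum_fiberwise_of_maps_to (s := cls S π k i n) (t := R') (g := π)
        (fun Q hQ => Finset.mem_image_of_mem π (mem_cls.1 hQ).1)]
      have h2 : ∀ F ∈ R', ∑ H ∈ cls S π k i n with π H = F,
          64 ^ n * AA m μ ν (π H) * ∑ x ∈ H, μ x ≤
          2 * (1/4) ^ n * ((∑ x ∈ F, μ x) * AA m μ ν F) := by
        intro F hF
        have e1 : ∑ H ∈ cls S π k i n with π H = F, 64 ^ n * AA m μ ν (π H) * ∑ x ∈ H, μ x =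
            64 ^ n * AA m μ ν F * ∑ H ∈ cls S π k i n with π H = F, ∑ x ∈ H, μ x := by
          rw [Finset.mul_sum]
          apply Finset.sum_congr rfl
          intro H hH
          simp only [Finset.mem_filter] at hH
          rw [hH.2]
        rw [e1]
        refine (mul_le_mul_of_nonneg_left (hdecF F (hR'S F hF)) (mul_nonneg (by positivity)
          (h.AA_nonneg _))).trans (le_of_eq ?_)
        have : ((64:ℝ) ^ n) * (1/256) ^ n = (1/4) ^ n := by
          rw [← mul_pow]; norm_num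
        rw [← this]; ring
      refine (Finset.sum_le_sum h2).trans ?_
      rw [← Finset.mul_sum]
      exact mul_le_mul_of_nonneg_left (hesum R' (fun F hF => hR'S F hF)) (by positivity)
    -- part (c)
    have hCp : ∑ P ∈ C.filter (fun P => ¬ pa P) with ¬ pb P, e P ≤ 8 * (1/16) ^ n * M := by
      set G := (C.filter (fun P => ¬ pa P)).filter (fun P => ¬ pb P) with hG
      have hGC : G ⊆ C := (Finset.filter_subset _ _).trans (Finset.filter_subset _ _)
      set HH := G.image Hf with hHH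
      have hHHS : ∀ H ∈ HH, H ∈ cls S π k i n := by
        intro H hH
        obtain ⟨P, hP, rfl⟩ := Finset.mem_image.1 hH
        exact hHcls P (hGC hP)
      have hHHρ : ∀ H ∈ HH, 8 ^ n * ρ H < ρ (π H) := by
        intro H hH
        obtain ⟨P, hP, rfl⟩ := Finset.mem_image.1 hH
        simp only [Finset.mem_filter, hG, hpa, hpb, not_le] at hP
        have hPS := (mem_cls.1 hP.1.1).1
        have hHS := (hHf P hP.1.1).1
        rw [(hHf P hP.1.1).2.2.1]
        have h1 := hP.1.2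
        have h2 := hP.2
        have h3 := h.AA_le hHS
        have h4 := hρ0 _ hHS
        have h5 := hρ0 _ (hπS P hPS)
        rw [le_div_iff₀ h4] at h3
        have h6 : (64:ℝ) ^ n = 8 ^ n * 8 ^ n := by rw [← mul_pow]; norm_num
        rw [h6] at h2
        have h7 : (8:ℝ) ^ n * 8 ^ n * AA m μ ν (π P) * ρ (Hf P) < 1 := by
          refine lt_of_lt_of_le (mul_lt_mul_of_pos_right h2 h4) h3
        -- multiply
        have h8 : 0 < (8:ℝ) ^ n := by positivity
        by_contra hcon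
        push Not at hcon
        have h9 : AA m μ ν (π P) * 8 ^ n * ρ (π P) ≤
            (8:ℝ) ^ n * 8 ^ n * AA m μ ν (π P) * ρ (Hf P) := by
          have := mul_le_mul_of_nonneg_left hcon (mul_nonneg (h.AA_nonneg (π P)) h8.le)
          linarith
        linarith
      have hlev : ∀ H ∈ S, ∃ l : ℕ, (4:ℝ) ^ l ≤ ρ H ∧ ρ H < 4 ^ (l + 1) := fun H hH =>
        exists_nat_pow_near (h.hρ H hH) (by norm_num)
      choose! l hl using hlev
      -- each H
      have h1 : ∀ H ∈ HH, ∑ P ∈ G with Hf P = H, e P ≤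
          (∑ x ∈ H, μ x) * (2 * ((1/2) ^ l H * (1/16) ^ n)) := by
        intro H hH
        have hHc := hHHS H hH
        have hHS := (mem_cls.1 hHc).1
        apply min_lemma (hμ0 H) (by positivity) (by positivity)
        · refine (hνH G hGC H hHS).trans ?_
          apply mul_le_mul_of_nonneg_left _ (hμ0 H)
          refine (h.AA_le hHS).trans ?_
          have := (hl H hHS).1
          have e1 : ((1/2:ℝ) ^ l H) ^ 2 = 1 / 4 ^ l H := by
            rw [← pow_mul, mul_comm, pow_mul, show ((1/2:ℝ)) ^ 2 = 1/4 by norm_num, one_div_pow]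
          rw [e1]
          exact one_div_le_one_div_of_le (by positivity) this
        · refine (hdecH G hGC H hHS (mem_cls.1 hHc).2.2).trans (le_of_eq ?_)
          have e1 : ((1/16:ℝ) ^ n) ^ 2 = (1/256) ^ n := by
            rw [← pow_mul, mul_comm, pow_mul]; norm_num
          rw [e1]; ring
      -- each level
      have h2 : ∀ j : ℕ, ∑ H ∈ HH with l H = j, ∑ x ∈ H, μ x ≤ 2 * M := by
        intro j
        have hsubS : HH.filter (fun H => l H = j) ⊆ S := fun H hH =>
          (mem_cls.1 (hHHS H (Finset.filter_subset _ _ hH))).1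
        apply packing _ (hS.mono hsubS) μ h.hμ R (fun Q hQ => hR Q (hsubS hQ))
        intro H₁ hH₁
        have hH₁S := hsubS hH₁
        have hH₁' : H₁ ∈ HH ∧ l H₁ = j := by simpa using hH₁
        set V := (HH.filter (fun H => l H = j)).filter (fun A => A ⊂ H₁) with hV
        have hVS : ∀ A ∈ V, A ∈ S := fun A hA => hsubS (Finset.filter_subset _ _ hA)
        have hVπ : ∀ A ∈ V, π A ⊂ H₁ := by
          intro A hA
          have hA' : (A ∈ HH ∧ l A = j) ∧ A ⊂ H₁ := by simpa [hV] using hA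
          obtain ⟨x, hx⟩ := hS.1 A (hVS A hA)
          have hAπ := (hπ A (hVS A hA)).2.1
          rcases hS.comp hH₁S (hπS A (hVS A hA)) (hA'.2.1 hx) (hAπ hx) with h1 | h1
          · exfalso
            -- then π A = π H₁
            have h2 := (hπ H₁ hH₁S).2.2.2 (π A) (hπ A (hVS A hA)).1 h1
            have h3 := (hπ A (hVS A hA)).2.2.2 (π H₁) (hπ H₁ hH₁S).1
              (hA'.2.1.trans (hπ H₁ hH₁S).2.1)
            have h4 : π A = π H₁ := Finset.Subset.antisymm h3 h2
            have hne : A ≠ H₁ := (Finset.ssubset_iff_subset_ne.1 hA'.2).2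
            have := hdis n A (hHHS A hA'.1.1) H₁ (hHHS H₁ hH₁'.1) h4 hne
            exact Finset.disjoint_left.1 this hx (hA'.2.1 hx)
          · exact h1
        obtain ⟨Mx, hMx, hMxdis, hMxcov⟩ := maxels (V.image π) (hS.mono (by
          intro F hF
          obtain ⟨A, hA, rfl⟩ := Finset.mem_image.1 hF
          exact hπS A (hVS A hA)))
        have hMxS : Mx ⊆ S := by
          intro F hF
          obtain ⟨A, hA, rfl⟩ := Finset.mem_image.1 (hMx hF)
          exact hπS A (hVS A hA)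
        have hMxH : ∀ F ∈ Mx, F ⊆ H₁ := by
          intro F hF
          obtain ⟨A, hA, rfl⟩ := Finset.mem_image.1 (hMx hF)
          exact (hVπ A hA).1
        have hMxρ : ∀ F ∈ Mx, 2 * ρ H₁ ≤ ρ F := by
          intro F hF
          obtain ⟨A, hA, rfl⟩ := Finset.mem_image.1 (hMx hF)
          have hA' : (A ∈ HH ∧ l A = j) ∧ A ⊂ H₁ := by simpa [hV] using hA
          have q1 := hHHρ A hA'.1.1
          have q2 := (hl A (hVS A hA)).1
          have q3 := (hl H₁ hH₁S).2
          rw [hA'.1.2] at q2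
          rw [hH₁'.2, pow_succ] at q3
          have q4 : (8:ℝ) ≤ 8 ^ n := by
            calc (8:ℝ) = 8 ^ 1 := by norm_num
              _ ≤ 8 ^ n := pow_le_pow_right₀ (by norm_num) hn0
          have q5 : (0:ℝ) < 4 ^ j := by positivity
          nlinarith
        have hb2 := h.hB2 H₁ hH₁S Mx hMxS hMxH hMxdis
        have q1 : ∑ F ∈ Mx, (∑ x ∈ F, μ x) * (2 * ρ H₁) ≤ ∑ F ∈ Mx, (∑ x ∈ F, μ x) * ρ F :=
          Finset.sum_le_sum (fun F hF => mul_le_mul_of_nonneg_left (hMxρ F hF) (hμ0 F))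
        rw [← Finset.sum_mul] at q1
        have q2 : ∑ x ∈ V.biUnion id, μ x ≤ ∑ F ∈ Mx, ∑ x ∈ F, μ x := by
          rw [← Finset.sum_biUnion (t := fun F => F) (fun A hA B hB hAB => hMxdis A hA B hB hAB)]
          apply Finset.sum_le_sum_of_subset_of_nonneg _ (fun x _ _ => h.hμ x)
          intro x hx
          obtain ⟨A, hA, hxA⟩ := Finset.mem_biUnion.1 hx
          obtain ⟨F, hF, hAF⟩ := hMxcov (π A) (Finset.mem_image_of_mem π hA)
          exact Finset.mem_biUnion.2 ⟨F, hF, hAF ((hπ A (hVS A hA)).2.1 hxA)⟩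
        have q3 := hρ0 H₁ hH₁S
        have q4 : (2 * ∑ F ∈ Mx, ∑ x ∈ F, μ x) * ρ H₁ ≤ (∑ x ∈ H₁, μ x) * ρ H₁ := by linarith
        have q5 := le_of_mul_le_mul_right q4 q3
        linarith
      -- sum over levels
      have h3 : ∑ H ∈ HH, (∑ x ∈ H, μ x) * (1/2) ^ l H ≤ 4 * M := by
        rw [← Finset.sum_fiberwise_of_maps_to (s := HH) (t := HH.image l) (g := l)
          (fun Q hQ => Finset.mem_image_of_mem l hQ)]
        have q1 : ∀ j ∈ HH.image l, ∑ H ∈ HH with l H = j, (∑ x ∈ H, μ x) * (1/2) ^ l H ≤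
            (1/2) ^ j * (2 * M) := by
          intro j _
          have q2 : ∑ H ∈ HH with l H = j, (∑ x ∈ H, μ x) * (1/2:ℝ) ^ l H =
              (1/2) ^ j * ∑ H ∈ HH with l H = j, ∑ x ∈ H, μ x := by
            rw [Finset.mul_sum]
            apply Finset.sum_congr rfl
            intro H hH
            simp only [Finset.mem_filter] at hH
            rw [hH.2]; ring
          rw [q2]
          exact mul_le_mul_of_nonneg_left (h2 j) (by positivity)
        refine (Finset.sum_le_sum q1).trans ?_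
        rw [← Finset.sum_mul]
        have q3 : ∑ j ∈ HH.image l, (1/2:ℝ) ^ j ≤ 2 := by
          have := Summable.sum_le_tsum (HH.image l) (fun j _ => by positivity)
            (summable_geometric_two)
          rw [tsum_geometric_two] at this
          exact this
        nlinarith
      rw [← Finset.sum_fiberwise_of_maps_to (s := G) (t := HH) (g := Hf)
        (fun Q hQ => Finset.mem_image_of_mem Hf hQ)]
      refine (Finset.sum_le_sum h1).trans ?_
      have q1 : ∑ H ∈ HH, (∑ x ∈ H, μ x) * (2 * ((1/2:ℝ) ^ l H * (1/16) ^ n)) =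
          2 * (1/16) ^ n * ∑ H ∈ HH, (∑ x ∈ H, μ x) * (1/2) ^ l H := by
        rw [Finset.mul_sum]
        exact Finset.sum_congr rfl (fun H _ => by ring)
      rw [q1]
      have q2 : 0 ≤ 2 * (1/16:ℝ) ^ n := by positivity
      nlinarith
    -- conclusion
    rw [hsplit]
    have w1 : (4:ℝ) ^ n * (1/8) ^ n ≤ 1 := by
      rw [← mul_pow]; exact pow_le_one₀ (by norm_num) (by norm_num)
    have w2 : (4:ℝ) ^ n * (1/4) ^ n = 1 := by
      rw [← mul_pow]; norm_num
    have w3 : (4:ℝ) ^ n * (1/16) ^ n ≤ 1 := by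
      rw [← mul_pow]; exact pow_le_one₀ (by norm_num) (by norm_num)
    have w0 : 0 < (4:ℝ) ^ n := by positivity
    have v1 := mul_le_mul_of_nonneg_left hA w0.le
    have v2 := mul_le_mul_of_nonneg_left hBp w0.le
    have v3 := mul_le_mul_of_nonneg_left hCp w0.le
    have u0 : 0 ≤ C0 * M := mul_nonneg hC0 hM0
    have u1 : (4:ℝ) ^ n * ((1/8) ^ n * (C0 * M)) ≤ C0 * M := by
      rw [← mul_assoc]; exact mul_le_of_le_one_left u0 w1
    have u2 : (4:ℝ) ^ n * (2 * (1/4) ^ n * (C0 * M)) = 2 * (C0 * M) := by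
      calc _ = 2 * ((4:ℝ) ^ n * (1/4) ^ n) * (C0 * M) := by ring
        _ = _ := by rw [w2]; ring
    have u3 : (4:ℝ) ^ n * (8 * (1/16) ^ n * M) ≤ 8 * M := by
      calc _ = ((4:ℝ) ^ n * (1/16) ^ n) * (8 * M) := by ring
        _ ≤ 1 * (8 * M) := mul_le_mul_of_nonneg_right w3 (by positivity)
        _ = _ := by ring
    rw [mul_add, mul_add]
    linarith

end

end Pool.Agent.H433R3.Sep
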