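import Pool.Agent.H433R3.Sep4
import Pool.Agent.H433R3.Sep2

set_option autoImplicit false
set_option linter.unusedSectionVars false
set_option linter.unusedVariables false

namespace Pool.Agent.H433R3.Sep

open Finset

variable {X : Type*} [Fintype X] [DecidableEq X]

lemma geo_range {r : ℝ} (h0 : 0 ≤ r) (h1 : r < 1) (I : ℕ) : ∑ i ∈ range I, r ^ i ≤ 1 / (1 - r) := by
  have h2 : 0 < 1 - r := by linarith
  rw [le_div_iff₀ h2, geom_sum_mul_neg]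
  have : 0 ≤ r ^ I := by positivity
  linarith

lemma geo_range2 {r : ℝ} (h0 : 0 ≤ r) (h1 : r < 1) (G : ℕ) :
    ∑ g ∈ range G, r ^ (g / 2) ≤ 2 / (1 - r) := by
  have key : ∀ N : ℕ, ∑ g ∈ range (2 * N), r ^ (g / 2) = 2 * ∑ i ∈ range N, r ^ i := by
    intro N
    induction N with
    | zero => simp
    | succ N ih =>
      rw [Nat.mul_succ, Finset.sum_range_succ, Finset.sum_range_succ, ih, Finset.sum_range_succ]
      have e1 : (2 * N) / 2 = N := by omega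
      have e2 : (2 * N + 1) / 2 = N := by omega
      rw [e1, e2]; ring
  have h2 : ∑ g ∈ range G, r ^ (g / 2) ≤ ∑ g ∈ range (2 * G), r ^ (g / 2) := by
    apply Finset.sum_le_sum_of_subset_of_nonneg
    · exact Finset.range_mono (by omega)
    · intro i _ _; positivity
  rw [key] at h2
  have h3 := geo_range h0 h1 G
  calc _ ≤ _ := h2
    _ ≤ 2 * (1 / (1 - r)) := by linarith
    _ = _ := by ring

lemma geo_prod {r : ℝ} (h0 : 0 ≤ r) (h1 : r < 1) (I G : ℕ) :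
    ∑ p ∈ range I ×ˢ range G, r ^ (p.1 + p.2 / 2) ≤ (1 / (1 - r)) * (2 / (1 - r)) := by
  rw [Finset.sum_product]
  simp only [pow_add]
  rw [← Finset.sum_mul_sum]
  have h2 : 0 < 1 - r := by linarith
  exact mul_le_mul (geo_range h0 h1 I) (geo_range2 h0 h1 G)
    (Finset.sum_nonneg (fun i _ => by positivity)) (by positivity)

/-- **The testing theorem**: a one-sided bump gives the testing condition. -/
theorem Bump.testing {S : Finset (Finset X)} {m μ ν : X → ℝ} {ρ : Finset X → ℝ}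
    (h : Bump S m μ ν ρ) (R : Finset X) (hR : ∀ Q ∈ S, Q ⊆ R) (C0 : ℝ)
    (hC0 : 0 ≤ C0)
    (hB3 : ∑ Q ∈ S, (∑ x ∈ Q, μ x) / ρ Q ≤ C0 * ∑ x ∈ R, μ x) :
    ∑ x ∈ R, ν x * (∑ Q ∈ S with x ∈ Q, (1 / ∑ y ∈ Q, m y) * ∑ y ∈ Q, μ y) ^ 2 ≤
      18432 * (3 * C0 + 8) * ∑ x ∈ R, μ x := by
  classical
  have hS := h.lam
  have hex := fun Q (hQ : Q ∈ S) => exists_rec hS (kk m μ) hQ
  choose! π hπ using hex
  have hen := h.energy R hR C0 hC0 hB3 π hπ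
  set k : Finset X → ℤ := kk m μ with hk
  set M := ∑ x ∈ R, μ x with hM
  have hM0 : 0 ≤ M := Finset.sum_nonneg (fun x _ => h.hμ x)
  set I := S.sup (fun P => (k (π P) - k P).toNat) + 1 with hI
  set G := S.sup (fun P => (anc S π k P).card) + 1 with hG
  set D := range I ×ˢ range G with hD
  set idx : Finset X → ℕ × ℕ := fun P => ((k (π P) - k P).toNat, (anc S π k P).card) with hidx
  have hidxD : ∀ P ∈ S, idx P ∈ D := by
    intro P hP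
    rw [hD, Finset.mem_product, Finset.mem_range, Finset.mem_range]
    constructor
    · exact Nat.lt_succ_of_le (Finset.le_sup (f := fun P => (k (π P) - k P).toNat) hP)
    · exact Nat.lt_succ_of_le (Finset.le_sup (f := fun P => (anc S π k P).card) hP)
  set F : ℕ × ℕ → X → ℝ := fun p x => ∑ Q ∈ cls S π k p.1 p.2 with x ∈ Q, (2:ℝ) ^ k Q with hF
  have hcls : ∀ p : ℕ × ℕ, cls S π k p.1 p.2 = S.filter (fun P => idx P = p) := by
    intro p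
    unfold cls
    apply Finset.filter_congr
    intro P _
    simp only [hidx, Prod.ext_iff]
  have hpt1 : ∀ x, ∑ Q ∈ S with x ∈ Q, (1 / ∑ y ∈ Q, m y) * ∑ y ∈ Q, μ y ≤
      2 * ∑ p ∈ D, F p x := by
    intro x
    have e1 : ∑ p ∈ D, F p x = ∑ Q ∈ S with x ∈ Q, (2:ℝ) ^ k Q := by
      rw [← Finset.sum_fiberwise_of_maps_to (s := S.filter (fun Q => x ∈ Q)) (t := D) (g := idx)
        (fun Q hQ => hidxD Q (Finset.mem_filter.1 hQ).1)]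
      apply Finset.sum_congr rfl
      intro p _
      simp only [hF]
      rw [hcls]
      apply Finset.sum_congr _ (fun _ _ => rfl)
      rw [Finset.filter_filter, Finset.filter_filter]
      apply Finset.filter_congr
      intro Q _
      exact and_comm
    rw [e1, Finset.mul_sum]
    apply Finset.sum_le_sum
    intro Q _
    have := le_kk m μ Q
    unfold av at this
    rw [one_div, inv_mul_eq_div]
    exact this
  have hF0 : ∀ p x, 0 ≤ F p x := fun p x => Finset.sum_nonneg (fun Q _ => by positivity)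
  have hpt2 : ∀ p x, F p x ^ 2 ≤ 4 * ∑ Q ∈ cls S π k p.1 p.2 with x ∈ Q, ((2:ℝ) ^ k Q) ^ 2 := by
    intro p x
    apply geo3
    intro P hP Q hQ hPQ
    simp only [Finset.mem_filter] at hP hQ
    have hP' := mem_cls.1 hP.1
    have hQ' := mem_cls.1 hQ.1
    have h1 := hπ P hP'.1
    have h2 := hπ Q hQ'.1
    have hkk : k (π P) = k (π Q) := by
      have a1 := h1.2.2.1
      have a2 := h2.2.2.1
      have a3 := hP'.2.1
      have a4 := hQ'.2.1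
      omega
    have hππ : π P = π Q := by
      rcases hS.comp h1.1.1 h2.1.1 (h1.2.1 hP.2) (h2.2.1 hQ.2) with h3 | h3
      · rcases eq_or_ssubset_of_subset h3 with h3 | h3
        · exact h3
        · have := h1.1.2 _ h2.1.1 h3
          omega
      · have := h2.1.2 _ h1.1.1 h3
        omega
    exact class_disj S hS π k hP'.1 hQ'.1 hππ hPQ (hP'.2.2.trans hQ'.2.2.symm) hP.2 hQ.2
  have hpt3 : ∀ x, (∑ Q ∈ S with x ∈ Q, (1 / ∑ y ∈ Q, m y) * ∑ y ∈ Q, μ y) ^ 2 ≤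
      512 * ∑ p ∈ D, (4/3:ℝ) ^ (p.1 + p.2 / 2) *
        ∑ Q ∈ cls S π k p.1 p.2 with x ∈ Q, ((2:ℝ) ^ k Q) ^ 2 := by
    intro x
    have h0 : 0 ≤ ∑ Q ∈ S with x ∈ Q, (1 / ∑ y ∈ Q, m y) * ∑ y ∈ Q, μ y := by
      apply Finset.sum_nonneg
      intro Q _
      have a1 : 0 ≤ ∑ y ∈ Q, m y := Finset.sum_nonneg (fun x _ => h.hm x)
      have a2 : 0 ≤ ∑ y ∈ Q, μ y := Finset.sum_nonneg (fun x _ => h.hμ x)
      positivity
    have h1 : (∑ p ∈ D, F p x) ^ 2 ≤ (∑ p ∈ D, (3/4:ℝ) ^ (p.1 + p.2 / 2)) *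
        ∑ p ∈ D, (4/3:ℝ) ^ (p.1 + p.2 / 2) * F p x ^ 2 := by
      apply Finset.sum_sq_le_sum_mul_sum_of_sq_le_mul
      · intro p _; positivity
      · intro p _; positivity
      · intro p _
        rw [← mul_assoc, ← mul_pow]
        norm_num
    have h2 : ∑ p ∈ D, (3/4:ℝ) ^ (p.1 + p.2 / 2) ≤ 32 := by
      refine (geo_prod (by norm_num) (by norm_num) I G).trans ?_
      norm_num
    have h3 : ∑ p ∈ D, (4/3:ℝ) ^ (p.1 + p.2 / 2) * F p x ^ 2 ≤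
        4 * ∑ p ∈ D, (4/3:ℝ) ^ (p.1 + p.2 / 2) *
        ∑ Q ∈ cls S π k p.1 p.2 with x ∈ Q, ((2:ℝ) ^ k Q) ^ 2 := by
      rw [Finset.mul_sum]
      apply Finset.sum_le_sum
      intro p _
      have := mul_le_mul_of_nonneg_left (hpt2 p x)
        (show (0:ℝ) ≤ (4/3:ℝ) ^ (p.1 + p.2 / 2) by positivity)
      linarith
    have h4 : 0 ≤ ∑ p ∈ D, (4/3:ℝ) ^ (p.1 + p.2 / 2) * F p x ^ 2 :=
      Finset.sum_nonneg (fun p _ => by positivity)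
    calc _ ≤ (2 * ∑ p ∈ D, F p x) ^ 2 := pow_le_pow_left₀ h0 (hpt1 x) 2
      _ = 4 * (∑ p ∈ D, F p x) ^ 2 := by ring
      _ ≤ 4 * (32 * ∑ p ∈ D, (4/3:ℝ) ^ (p.1 + p.2 / 2) * F p x ^ 2) := by
          have := mul_le_mul_of_nonneg_right h2 h4
          linarith
      _ ≤ _ := by linarith
  have hE : ∀ p ∈ D, (4/3:ℝ) ^ (p.1 + p.2 / 2) *
      (∑ Q ∈ cls S π k p.1 p.2, ((2:ℝ) ^ k Q) ^ 2 * ∑ x ∈ Q, ν x) ≤
      2 * ((3 * C0 + 8) * M) * (2/3:ℝ) ^ (p.1 + p.2 / 2) := by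
    intro p _
    obtain ⟨e1, e2⟩ := hen p.1 p.2
    set E := ∑ Q ∈ cls S π k p.1 p.2, ((2:ℝ) ^ k Q) ^ 2 * ∑ x ∈ Q, ν x with hEdef
    set K := (3 * C0 + 8) * M with hK
    have hK0 : 0 ≤ K := by positivity
    have hCK : C0 * M ≤ K := by nlinarith [mul_nonneg hC0 hM0]
    have e3 : E ≤ K * ((1/2:ℝ) ^ p.1) ^ 2 := by
      have a1 : ((1/2:ℝ) ^ p.1) ^ 2 = 1 / 4 ^ p.1 := by
        rw [← pow_mul, mul_comm, pow_mul, show ((1/2:ℝ)) ^ 2 = 1/4 by norm_num, one_div_pow]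
      rw [a1, mul_one_div, le_div_iff₀ (by positivity)]
      linarith
    have e4 : E ≤ K * (2 * ((1/2:ℝ) ^ (p.2 / 2)) ^ 2) := by
      have a1 : ((1/2:ℝ) ^ (p.2 / 2)) ^ 2 = 1 / 4 ^ (p.2 / 2) := by
        rw [← pow_mul, mul_comm, pow_mul, show ((1/2:ℝ)) ^ 2 = 1/4 by norm_num, one_div_pow]
      rw [a1]
      have a2 : E ≤ K * (1 / 4 ^ (p.2 / 2)) := by
        rw [mul_one_div, le_div_iff₀ (by positivity)]
        linarith
      have a3 : 0 ≤ K * (1 / 4 ^ (p.2 / 2)) := by positivity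
      linarith
    have e5 := min_lemma hK0 (by positivity) (by positivity) e3 e4
    have e6 := mul_le_mul_of_nonneg_left e5
      (show (0:ℝ) ≤ (4/3:ℝ) ^ (p.1 + p.2 / 2) by positivity)
    refine e6.trans (le_of_eq ?_)
    rw [← pow_add]
    have e7 : (2/3:ℝ) ^ (p.1 + p.2 / 2) = (4/3:ℝ) ^ (p.1 + p.2 / 2) * (1/2) ^ (p.1 + p.2 / 2) := by
      rw [← mul_pow]; norm_num
    rw [e7]; ring
  have h5 : ∑ x ∈ R, ν x * (∑ Q ∈ S with x ∈ Q, (1 / ∑ y ∈ Q, m y) * ∑ y ∈ Q, μ y) ^ 2 ≤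
      ∑ x, ν x * (512 * ∑ p ∈ D, (4/3:ℝ) ^ (p.1 + p.2 / 2) *
        ∑ Q ∈ cls S π k p.1 p.2 with x ∈ Q, ((2:ℝ) ^ k Q) ^ 2) := by
    refine (Finset.sum_le_sum (fun x _ => mul_le_mul_of_nonneg_left (hpt3 x) (h.hν x))).trans ?_
    apply Finset.sum_le_sum_of_subset_of_nonneg (Finset.subset_univ _)
    intro x _ _
    apply mul_nonneg (h.hν x)
    apply mul_nonneg (by norm_num)
    apply Finset.sum_nonneg
    intro p _
    apply mul_nonneg (by positivity)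
    exact Finset.sum_nonneg (fun Q _ => by positivity)
  have h6 : ∑ x, ν x * (512 * ∑ p ∈ D, (4/3:ℝ) ^ (p.1 + p.2 / 2) *
        ∑ Q ∈ cls S π k p.1 p.2 with x ∈ Q, ((2:ℝ) ^ k Q) ^ 2) =
      512 * ∑ p ∈ D, (4/3:ℝ) ^ (p.1 + p.2 / 2) *
      (∑ Q ∈ cls S π k p.1 p.2, ((2:ℝ) ^ k Q) ^ 2 * ∑ x ∈ Q, ν x) := by
    have a1 : ∀ p : ℕ × ℕ, ∑ Q ∈ cls S π k p.1 p.2, ((2:ℝ) ^ k Q) ^ 2 * ∑ x ∈ Q, ν x =
        ∑ x, (∑ Q ∈ cls S π k p.1 p.2 with x ∈ Q, ((2:ℝ) ^ k Q) ^ 2) * ν x :=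
      fun p => sum_swap _ _ _
    have a2 : ∑ p ∈ D, (4/3:ℝ) ^ (p.1 + p.2 / 2) *
        (∑ Q ∈ cls S π k p.1 p.2, ((2:ℝ) ^ k Q) ^ 2 * ∑ x ∈ Q, ν x) =
        ∑ p ∈ D, (4/3:ℝ) ^ (p.1 + p.2 / 2) *
        ∑ x, (∑ Q ∈ cls S π k p.1 p.2 with x ∈ Q, ((2:ℝ) ^ k Q) ^ 2) * ν x :=
      Finset.sum_congr rfl (fun p _ => by rw [a1 p])
    rw [a2]
    simp only [Finset.mul_sum, Finset.sum_mul]
    rw [Finset.sum_comm]
    apply Finset.sum_congr rfl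
    intro p _
    apply Finset.sum_congr rfl
    intro x _
    apply Finset.sum_congr rfl
    intro Q _
    ring
  rw [h6] at h5
  refine h5.trans ?_
  have h7 := Finset.sum_le_sum hE
  rw [← Finset.mul_sum] at h7
  have h8 : ∑ p ∈ D, (2/3:ℝ) ^ (p.1 + p.2 / 2) ≤ 18 := by
    refine (geo_prod (by norm_num) (by norm_num) I G).trans ?_
    norm_num
  have h9 : 0 ≤ 2 * ((3 * C0 + 8) * M) := by positivity
  have h10 := mul_le_mul_of_nonneg_left h8 h9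
  nlinarith

/-- The discrete separated bump theorem, `p = 2`. -/
theorem discreteSep {S : Finset (Finset X)} {m μ ν : X → ℝ} {ρ₁ ρ₂ : Finset X → ℝ}
    (h₁ : Bump S m μ ν ρ₁) (h₂ : Bump S m ν μ ρ₂) (C0 : ℝ) (hC0 : 0 ≤ C0)
    (hB3 : ∀ R ∈ S, ∑ Q ∈ S with Q ⊆ R, (∑ x ∈ Q, μ x) / ρ₁ Q ≤ C0 * ∑ x ∈ R, μ x)
    (hB3' : ∀ R ∈ S, ∑ Q ∈ S with Q ⊆ R, (∑ x ∈ Q, ν x) / ρ₂ Q ≤ C0 * ∑ x ∈ R, ν x)
    (f g : X → ℝ) (hf : ∀ x, 0 ≤ f x) (hg : ∀ x, 0 ≤ g x) :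
    ∑ Q ∈ S, (1 / ∑ y ∈ Q, m y) * ((∑ x ∈ Q, f x * μ x) * (∑ x ∈ Q, g x * ν x)) ≤
      (16 * (18432 * (3 * C0 + 8)) + 17) * (∑ x, f x ^ 2 * μ x + ∑ x, g x ^ 2 * ν x) := by
  classical
  have key : ∀ (μ ν : X → ℝ) (ρ : Finset X → ℝ), Bump S m μ ν ρ →
      (∀ R ∈ S, ∑ Q ∈ S with Q ⊆ R, (∑ x ∈ Q, μ x) / ρ Q ≤ C0 * ∑ x ∈ R, μ x) →
      ∀ R ∈ S, ∀ S' ⊆ S, (∀ Q ∈ S', Q ⊆ R) →
      ∑ x ∈ R, ν x * (∑ Q ∈ S' with x ∈ Q, (1 / ∑ y ∈ Q, m y) * ∑ y ∈ Q, μ y) ^ 2 ≤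
        (18432 * (3 * C0 + 8)) * ∑ x ∈ R, μ x := by
    intro μ ν ρ h hb R hR S' hS' hQR
    apply (h.mono hS').testing R hQR C0 hC0
    refine le_trans ?_ (hb R hR)
    apply Finset.sum_le_sum_of_subset_of_nonneg
    · intro Q hQ
      simp only [Finset.mem_filter]
      exact ⟨hS' hQ, hQR Q hQ⟩
    · intro Q hQ _
      simp only [Finset.mem_filter] at hQ
      exact div_nonneg (Finset.sum_nonneg (fun x _ => h.hμ x))
        (le_trans zero_le_one (h.hρ Q hQ.1))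
  exact dyadicT1 S h₁.lam μ ν f g (fun Q => 1 / ∑ y ∈ Q, m y) h₁.hμ h₁.hν hf hg
    (fun Q hQ => by have := h₁.mpos Q hQ; positivity) h₁.μpos h₂.μpos _ (by positivity)
    (key μ ν ρ₁ h₁ hB3) (key ν μ ρ₂ h₂ hB3')

end Pool.Agent.H433R3.Sep
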