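import Pool.Agent.H433R3.Sep5

set_option autoImplicit false
set_option linter.unusedSectionVars false
set_option linter.unusedVariables false

namespace Pool.Agent.H433R3.Sep

open Finset MeasureTheory
open scoped ENNReal

section discrete

variable {X : Type*} [Fintype X] [DecidableEq X]

lemma Bump.smul {S : Finset (Finset X)} {m μ ν : X → ℝ} {ρ : Finset X → ℝ} {K : ℝ} (hK : 0 < K)
    (lam : Lam S)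
    (hm : ∀ x, 0 ≤ m x)
    (hμ : ∀ x, 0 ≤ μ x)
    (hν : ∀ x, 0 ≤ ν x)
    (mpos : ∀ Q ∈ S, 0 < ∑ x ∈ Q, m x)
    (μpos : ∀ Q ∈ S, 0 < ∑ x ∈ Q, μ x)
    (hH : ∀ Q ∈ S, 256 * ∑ x ∈ (S.filter (fun A => A ⊂ Q)).biUnion id, m x ≤ ∑ x ∈ Q, m x)
    (hρ : ∀ Q ∈ S, 1 ≤ ρ Q)
    (hB1 : ∀ Q ∈ S, (∑ x ∈ Q, μ x) * (∑ x ∈ Q, ν x) * ρ Q ≤ K * (∑ x ∈ Q, m x) ^ 2)
    (hB2 : ∀ H ∈ S, ∀ M ⊆ S, (∀ F ∈ M, F ⊆ H) → (∀ A ∈ M, ∀ B ∈ M, A ≠ B → Disjoint A B) →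
      ∑ F ∈ M, (∑ x ∈ F, μ x) * ρ F ≤ (∑ x ∈ H, μ x) * ρ H) :
    Bump S m (fun x => μ x / K) ν ρ ∧ (∀ C0 : ℝ,
      (∀ R ∈ S, ∑ Q ∈ S with Q ⊆ R, (∑ x ∈ Q, μ x) / ρ Q ≤ C0 * ∑ x ∈ R, μ x) →
      (∀ R ∈ S, ∑ Q ∈ S with Q ⊆ R, (∑ x ∈ Q, μ x / K) / ρ Q ≤ C0 * ∑ x ∈ R, μ x / K)) := by
  have hs : ∀ Q : Finset X, ∑ x ∈ Q, μ x / K = (∑ x ∈ Q, μ x) / K := fun Q => by
    rw [Finset.sum_div]
  refine ⟨⟨lam, hm, fun x => div_nonneg (hμ x) hK.le, hν, mpos, ?_, hH, hρ, ?_, ?_⟩, ?_⟩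
  · intro Q hQ
    rw [hs]
    exact div_pos (μpos Q hQ) hK
  · intro Q hQ
    rw [hs]
    have := hB1 Q hQ
    calc (∑ x ∈ Q, μ x) / K * (∑ x ∈ Q, ν x) * ρ Q
        = ((∑ x ∈ Q, μ x) * (∑ x ∈ Q, ν x) * ρ Q) / K := by ring
      _ ≤ (K * (∑ x ∈ Q, m x) ^ 2) / K := div_le_div_of_nonneg_right this hK.le
      _ = _ := by field_simp
  · intro H hH' M hM hMH hdis
    have := hB2 H hH' M hM hMH hdis
    rw [hs]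
    calc ∑ F ∈ M, (∑ x ∈ F, μ x / K) * ρ F = (∑ F ∈ M, (∑ x ∈ F, μ x) * ρ F) / K := by
          rw [Finset.sum_div]
          exact Finset.sum_congr rfl (fun F _ => by rw [hs]; ring)
      _ ≤ ((∑ x ∈ H, μ x) * ρ H) / K := div_le_div_of_nonneg_right this hK.le
      _ = _ := by ring
  · intro C0 hb R hR
    have := hb R hR
    rw [hs]
    calc ∑ Q ∈ S with Q ⊆ R, (∑ x ∈ Q, μ x / K) / ρ Q
        = (∑ Q ∈ S with Q ⊆ R, (∑ x ∈ Q, μ x) / ρ Q) / K := by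
          rw [Finset.sum_div]
          exact Finset.sum_congr rfl (fun F _ => by rw [hs]; ring)
      _ ≤ (C0 * ∑ x ∈ R, μ x) / K := div_le_div_of_nonneg_right this hK.le
      _ = _ := by ring

/-- The discrete separated bump theorem in operator form. -/
theorem discreteOp {S : Finset (Finset X)} {m μ ν : X → ℝ} {ρ₁ ρ₂ : Finset X → ℝ} {K : ℝ}
    (hK : 1 ≤ K) (lam : Lam S)
    (hm : ∀ x, 0 ≤ m x)
    (hμ : ∀ x, 0 ≤ μ x)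
    (hν : ∀ x, 0 ≤ ν x)
    (mpos : ∀ Q ∈ S, 0 < ∑ x ∈ Q, m x)
    (μpos : ∀ Q ∈ S, 0 < ∑ x ∈ Q, μ x)
    (νpos : ∀ Q ∈ S, 0 < ∑ x ∈ Q, ν x)
    (hH : ∀ Q ∈ S, 256 * ∑ x ∈ (S.filter (fun A => A ⊂ Q)).biUnion id, m x ≤ ∑ x ∈ Q, m x)
    (hρ₁ : ∀ Q ∈ S, 1 ≤ ρ₁ Q) (hρ₂ : ∀ Q ∈ S, 1 ≤ ρ₂ Q)
    (hB1 : ∀ Q ∈ S, (∑ x ∈ Q, μ x) * (∑ x ∈ Q, ν x) * ρ₁ Q ≤ K * (∑ x ∈ Q, m x) ^ 2)
    (hB1' : ∀ Q ∈ S, (∑ x ∈ Q, μ x) * (∑ x ∈ Q, ν x) * ρ₂ Q ≤ K * (∑ x ∈ Q, m x) ^ 2)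
    (hB2 : ∀ H ∈ S, ∀ M ⊆ S, (∀ F ∈ M, F ⊆ H) → (∀ A ∈ M, ∀ B ∈ M, A ≠ B → Disjoint A B) →
      ∑ F ∈ M, (∑ x ∈ F, μ x) * ρ₁ F ≤ (∑ x ∈ H, μ x) * ρ₁ H)
    (hB2' : ∀ H ∈ S, ∀ M ⊆ S, (∀ F ∈ M, F ⊆ H) → (∀ A ∈ M, ∀ B ∈ M, A ≠ B → Disjoint A B) →
      ∑ F ∈ M, (∑ x ∈ F, ν x) * ρ₂ F ≤ (∑ x ∈ H, ν x) * ρ₂ H)
    (C0 : ℝ) (hC0 : 0 ≤ C0)
    (hB3 : ∀ R ∈ S, ∑ Q ∈ S with Q ⊆ R, (∑ x ∈ Q, μ x) / ρ₁ Q ≤ C0 * ∑ x ∈ R, μ x)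
    (hB3' : ∀ R ∈ S, ∑ Q ∈ S with Q ⊆ R, (∑ x ∈ Q, ν x) / ρ₂ Q ≤ C0 * ∑ x ∈ R, ν x)
    (f : X → ℝ) (hf : ∀ x, 0 ≤ f x) :
    ∑ x, (∑ Q ∈ S with x ∈ Q, (1 / ∑ y ∈ Q, m y) * ∑ y ∈ Q, f y * μ y) ^ 2 * ν x ≤
      4 * K ^ 2 * (16 * (18432 * (3 * C0 + 8)) + 17) ^ 2 * ∑ x, f x ^ 2 * μ x := by
  classical
  have hK0 : 0 < K := by linarith
  obtain ⟨b1, c1⟩ := Bump.smul hK0 lam hm hμ hν mpos μpos hH hρ₁ hB1 hB2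
  have b2 : Bump S m ν (fun x => μ x / K) ρ₂ := by
    refine ⟨lam, hm, hν, fun x => div_nonneg (hμ x) hK0.le, mpos, νpos, hH, hρ₂, ?_, hB2'⟩
    intro Q hQ
    rw [← Finset.sum_div]
    have := hB1' Q hQ
    calc (∑ x ∈ Q, ν x) * ((∑ x ∈ Q, μ x) / K) * ρ₂ Q
        = ((∑ x ∈ Q, μ x) * (∑ x ∈ Q, ν x) * ρ₂ Q) / K := by ring
      _ ≤ (K * (∑ x ∈ Q, m x) ^ 2) / K := div_le_div_of_nonneg_right this hK0.le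
      _ = _ := by field_simp
  set C := (16 * (18432 * (3 * C0 + 8)) + 17) with hC
  have hCpos : 0 < C := by positivity
  set A : X → ℝ := fun x => ∑ Q ∈ S with x ∈ Q, (1 / ∑ y ∈ Q, m y) * ∑ y ∈ Q, f y * μ y with hA
  have hA0 : ∀ x, 0 ≤ A x := by
    intro x
    apply Finset.sum_nonneg
    intro Q _
    have a1 : 0 ≤ ∑ y ∈ Q, m y := Finset.sum_nonneg (fun x _ => hm x)
    have a2 : 0 ≤ ∑ y ∈ Q, f y * μ y := Finset.sum_nonneg (fun x _ => mul_nonneg (hf x) (hμ x))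
    positivity
  set ε : ℝ := 1 / (2 * C * K) with hε
  have hε0 : 0 < ε := by positivity
  have key := discreteSep b1 b2 C0 hC0 (c1 C0 hB3) hB3' f (fun x => ε * A x) hf
    (fun x => mul_nonneg hε0.le (hA0 x))
  rw [← hC] at key
  set SA := ∑ x, A x ^ 2 * ν x with hSA
  have hSA0 : 0 ≤ SA := Finset.sum_nonneg (fun x _ => mul_nonneg (sq_nonneg _) (hν x))
  set SF := ∑ x, f x ^ 2 * μ x with hSF
  have hSF0 : 0 ≤ SF := Finset.sum_nonneg (fun x _ => mul_nonneg (sq_nonneg _) (hμ x))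
  have e1 : ∑ Q ∈ S, (1 / ∑ y ∈ Q, m y) * ((∑ x ∈ Q, f x * (μ x / K)) *
      (∑ x ∈ Q, (ε * A x) * ν x)) = (ε / K) * SA := by
    have a1 : ∀ Q ∈ S, (1 / ∑ y ∈ Q, m y) * ((∑ x ∈ Q, f x * (μ x / K)) *
      (∑ x ∈ Q, (ε * A x) * ν x)) = ((1 / ∑ y ∈ Q, m y) * ∑ y ∈ Q, f y * μ y) *
        ∑ x ∈ Q, (ε / K) * A x * ν x := by
      intro Q _
      have a2 : ∑ x ∈ Q, f x * (μ x / K) = (∑ x ∈ Q, f x * μ x) / K := by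
        rw [Finset.sum_div]; exact Finset.sum_congr rfl (fun x _ => by ring)
      have a3 : ∑ x ∈ Q, (ε / K) * A x * ν x = (1 / K) * ∑ x ∈ Q, (ε * A x) * ν x := by
        rw [Finset.mul_sum]; exact Finset.sum_congr rfl (fun x _ => by ring)
      rw [a2, a3]; ring
    rw [Finset.sum_congr rfl a1, sum_swap, hSA, Finset.mul_sum]
    apply Finset.sum_congr rfl
    intro x _
    simp only [hA]
    ring
  have e2 : ∑ x, f x ^ 2 * (μ x / K) = SF / K := by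
    rw [hSF, Finset.sum_div]; exact Finset.sum_congr rfl (fun x _ => by ring)
  have e3 : ∑ x, (ε * A x) ^ 2 * ν x = ε ^ 2 * SA := by
    rw [hSA, Finset.mul_sum]; exact Finset.sum_congr rfl (fun x _ => by ring)
  rw [e1, e2, e3] at key
  -- (ε/K) SA ≤ C (SF/K + ε² SA)
  have e4 : C * ε = 1 / (2 * K) := by rw [hε]; field_simp
  have e5 : C * (SF / K + ε ^ 2 * SA) = C * SF / K + (1 / (2 * K)) * ε * SA := by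
    have : C * (ε ^ 2 * SA) = (C * ε) * ε * SA := by ring
    rw [mul_add, this, e4]; ring
  rw [e5] at key
  have e6 : (ε / K) * SA - (1 / (2 * K)) * ε * SA = (1 / (2 * K)) * ε * SA := by
    field_simp; ring
  have e7 : (1 / (2 * K)) * ε * SA ≤ C * SF / K := by linarith
  have e8 : (1 / (2 * K)) * ε * SA = SA / (4 * C * K ^ 2) := by
    rw [hε]; field_simp; ring
  rw [e8, div_le_div_iff₀ (by positivity) hK0] at e7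
  calc SA ≤ SA * K := le_mul_of_one_le_right hSA0 hK
    _ ≤ C * SF * (4 * C * K ^ 2) := e7
    _ = _ := by ring

end discrete

end Pool.Agent.H433R3.Sep
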