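import Pool.Agent.H433R3.Sep7

set_option autoImplicit false
set_option linter.unusedSectionVars false
set_option linter.unusedVariables false

namespace Pool.Agent.H433R3.Sep

open Finset MeasureTheory
open scoped ENNReal

variable {α : Type*} [MeasurableSpace α]

/-- Working properties of a Young function (extended to the reals). -/
structure YData (Φ : ℝ → ℝ) (t₀ : ℝ) : Prop where
  meas : Measurable Φ
  nn : ∀ t, 0 ≤ Φ t
  mono : ∀ s t, 0 < s → s ≤ t → Φ s / s ≤ Φ t / t
  one : 1 ≤ t₀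
  big : ∀ t, t₀ ≤ t → t ≤ Φ t

/-- `|Q|` times the Amemiya norm. -/
noncomputable def NN (vol : Measure α) (Φ : ℝ → ℝ) (w : α → ℝ) (Q : Set α) : ℝ≥0∞ :=
  ⨅ (l : ℝ) (_ : 0 < l),
    ENNReal.ofReal l * (vol Q + ∫⁻ x in Q, ENNReal.ofReal (Φ (w x / l)) ∂vol)

lemma NN_super (vol : Measure α) (Φ : ℝ → ℝ) (w : α → ℝ) (M : Finset (Set α)) (H : Set α)
    (hM : ∀ F ∈ M, MeasurableSet F) (hMH : ∀ F ∈ M, F ⊆ H)
    (hdis : ∀ A ∈ M, ∀ B ∈ M, A ≠ B → Disjoint A B) :
    ∑ F ∈ M, NN vol Φ w F ≤ NN vol Φ w H := by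
  unfold NN
  refine le_iInf₂ ?_
  intro l hl
  have h1 : ∀ F ∈ M, (⨅ (l : ℝ) (_ : 0 < l),
    ENNReal.ofReal l * (vol F + ∫⁻ x in F, ENNReal.ofReal (Φ (w x / l)) ∂vol)) ≤
      ENNReal.ofReal l * (vol F + ∫⁻ x in F, ENNReal.ofReal (Φ (w x / l)) ∂vol) :=
    fun F _ => iInf₂_le l hl
  refine (Finset.sum_le_sum h1).trans ?_
  rw [← Finset.mul_sum, Finset.sum_add_distrib]
  apply mul_le_mul' le_rfl
  apply add_le_add
  · rw [← measure_biUnion_finset (fun A hA B hB hAB => hdis A hA B hB hAB) hM]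
    exact measure_mono (Set.iUnion₂_subset hMH)
  · rw [← lintegral_biUnion_finset (fun A hA B hB hAB => hdis A hA B hB hAB) hM]
    exact lintegral_mono_set (Set.iUnion₂_subset hMH)

/-- the function κ -/
noncomputable def kap (Φ : ℝ → ℝ) (c₀ : ℝ) (u : ℝ) : ℝ :=
  1 / max c₀ (√(√u)) + 1 / max c₀ (Φ (√u / 2) / (√u / 2))

lemma kap_nonneg (Φ : ℝ → ℝ) {c₀ : ℝ} (hc : 0 < c₀) (u : ℝ) : 0 ≤ kap Φ c₀ u := by
  unfold kap
  have h1 : 0 < max c₀ (√(√u)) := lt_of_lt_of_le hc (le_max_left _ _)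
  have h2 : 0 < max c₀ (Φ (√u / 2) / (√u / 2)) := lt_of_lt_of_le hc (le_max_left _ _)
  positivity

lemma kap_le (Φ : ℝ → ℝ) {c₀ : ℝ} (hc : 0 < c₀) (u : ℝ) : kap Φ c₀ u ≤ 2 / c₀ := by
  unfold kap
  have h1 : 1 / max c₀ (√(√u)) ≤ 1 / c₀ := one_div_le_one_div_of_le hc (le_max_left _ _)
  have h2 : 1 / max c₀ (Φ (√u / 2) / (√u / 2)) ≤ 1 / c₀ :=
    one_div_le_one_div_of_le hc (le_max_left _ _)
  calc _ ≤ 1 / c₀ + 1 / c₀ := add_le_add h1 h2
    _ = _ := by ring

lemma kap_anti {Φ : ℝ → ℝ} {t₀ : ℝ} (hΦ : YData Φ t₀) {c₀ : ℝ} (hc : 0 < c₀) {u u' : ℝ}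
    (hu : 0 < u) (huu : u ≤ u') : kap Φ c₀ u' ≤ kap Φ c₀ u := by
  unfold kap
  have hs : √u ≤ √u' := Real.sqrt_le_sqrt huu
  have hs0 : 0 < √u := Real.sqrt_pos.2 hu
  apply add_le_add
  · apply one_div_le_one_div_of_le (lt_of_lt_of_le hc (le_max_left _ _))
    exact max_le_max le_rfl (Real.sqrt_le_sqrt hs)
  · apply one_div_le_one_div_of_le (lt_of_lt_of_le hc (le_max_left _ _))
    apply max_le_max le_rfl
    apply hΦ.mono _ _ (by positivity)
    linarith

lemma kap_meas {Φ : ℝ → ℝ} {t₀ : ℝ} (hΦ : YData Φ t₀) (c₀ : ℝ) : Measurable (kap Φ c₀) := by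
  unfold kap
  have h1 : Measurable (fun u : ℝ => √u / 2) := by fun_prop
  have h2 : Measurable (fun u : ℝ => Φ (√u / 2)) := hΦ.meas.comp h1
  have h3 : Measurable (fun u : ℝ => Φ (√u / 2) / (√u / 2)) := h2.div h1
  have h4 : Measurable (fun u : ℝ => √(√u)) := by fun_prop
  exact (measurable_const.div (measurable_const.max h4)).add
    (measurable_const.div (measurable_const.max h3))

/-- the pointwise inequality -/
lemma key_pt {Φ : ℝ → ℝ} {t₀ : ℝ} (hΦ : YData Φ t₀) {c₀ r g l N w : ℝ} (hc : 0 < c₀)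
    (hcr : c₀ ≤ r) (hg : 0 < g) (hl : 0 < l) (hN : N = g * r ^ 2) (hlN : l ≤ 2 * N) (hw : 0 ≤ w) :
    2 * w ≤ (1 / (4 * r)) * (c₀ * w + r * w + l * Φ (w / l)) +
      4 * r * (w * kap Φ c₀ (w / g)) := by
  have hr : 0 < r := lt_of_lt_of_le hc hcr
  have hN0 : 0 < N := by rw [hN]; positivity
  rcases hw.eq_or_lt with h0 | hw0
  · rw [← h0]
    have := hΦ.nn (0 / l)
    have : 0 ≤ (1 / (4 * r)) * (l * Φ (0 / l)) := by positivity
    simp only [mul_zero, zero_mul, zero_add, add_zero]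
    exact this
  set u := w / g with hu
  have hu0 : 0 < u := div_pos hw0 hg
  set A := √(√u) with hA
  have hA0 : 0 < A := Real.sqrt_pos.2 (Real.sqrt_pos.2 hu0)
  have hA2 : A ^ 2 = √u := Real.sq_sqrt (Real.sqrt_nonneg _)
  have hsu : 0 < √u := Real.sqrt_pos.2 hu0
  have hsu2 : √u ^ 2 = u := Real.sq_sqrt hu0.le
  set p := Φ (w / (2 * N)) / (w / (2 * N)) with hp
  have hp0 : 0 ≤ p := div_nonneg (hΦ.nn _) (by positivity)
  set ψ := max c₀ (max (min r A) p) with hψ
  have hψ0 : 0 < ψ := lt_of_lt_of_le hc (le_max_left _ _)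
  have h1 : w * p ≤ l * Φ (w / l) := by
    have h2 : p ≤ Φ (w / l) / (w / l) := by
      apply hΦ.mono _ _ (by positivity)
      exact div_le_div_of_nonneg_left hw0.le hl hlN
    calc w * p ≤ w * (Φ (w / l) / (w / l)) := mul_le_mul_of_nonneg_left h2 hw
      _ = l * Φ (w / l) := by field_simp
  have h2 : ψ ≤ c₀ + r + p := by
    apply max_le
    · linarith
    · apply max_le
      · have := min_le_left r A; linarith
      · linarith
  have h3 : 1 / ψ ≤ kap Φ c₀ u := by
    unfold kap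
    have k1 : 0 < max c₀ (√(√u)) := lt_of_lt_of_le hc (le_max_left _ _)
    have k2 : 0 < max c₀ (Φ (√u / 2) / (√u / 2)) := lt_of_lt_of_le hc (le_max_left _ _)
    have k1' : 0 ≤ 1 / max c₀ (√(√u)) := by positivity
    have k2' : 0 ≤ 1 / max c₀ (Φ (√u / 2) / (√u / 2)) := by positivity
    rcases le_total A r with h | h
    · have : 1 / ψ ≤ 1 / max c₀ (√(√u)) := by
        apply one_div_le_one_div_of_le k1
        apply max_le_max le_rfl
        rw [min_eq_right h]
        exact le_max_left _ _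
      linarith
    · have : 1 / ψ ≤ 1 / max c₀ (Φ (√u / 2) / (√u / 2)) := by
        apply one_div_le_one_div_of_le k2
        apply max_le_max le_rfl
        refine le_trans ?_ (le_max_right _ _)
        apply hΦ.mono _ _ (by positivity)
        have e1 : w = u * g := by rw [hu]; field_simp
        rw [hN, div_le_div_iff₀ (by norm_num) (by positivity)]
        rw [e1]
        have e2 : r ^ 2 ≤ √u := by
          rw [← hA2]; exact pow_le_pow_left₀ hr.le h 2
        have e3 : √u * r ^ 2 ≤ u := by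
          calc √u * r ^ 2 ≤ √u * √u := mul_le_mul_of_nonneg_left e2 hsu.le
            _ = u := by rw [← sq, hsu2]
        nlinarith
      linarith
  -- 2 ≤ tψ + 1/(tψ)
  have h4 : 2 ≤ (1 / (4 * r)) * ψ + 4 * r * (1 / ψ) := by
    have : (1 / (4 * r)) * ψ + 4 * r * (1 / ψ) - 2 = (ψ - 4 * r) ^ 2 / (4 * r * ψ) := by
      field_simp
      ring
    have h5 : 0 ≤ (ψ - 4 * r) ^ 2 / (4 * r * ψ) := by positivity
    linarith
  calc 2 * w ≤ ((1 / (4 * r)) * ψ + 4 * r * (1 / ψ)) * w := mul_le_mul_of_nonneg_right h4 hw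
    _ = (1 / (4 * r)) * (ψ * w) + 4 * r * (w * (1 / ψ)) := by ring
    _ ≤ (1 / (4 * r)) * (c₀ * w + r * w + l * Φ (w / l)) + 4 * r * (w * kap Φ c₀ u) := by
        apply add_le_add
        · apply mul_le_mul_of_nonneg_left _ (by positivity)
          have := mul_le_mul_of_nonneg_right h2 hw
          linarith
        · apply mul_le_mul_of_nonneg_left _ (by positivity)
          exact mul_le_mul_of_nonneg_left h3 hw

lemma le_NN (vol : Measure α) {Φ : ℝ → ℝ} {t₀ : ℝ} (hΦ : YData Φ t₀) {w : α → ℝ}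
    (hw : Measurable w) (hw0 : ∀ x, 0 ≤ w x) (Q : Set α) :
    ∫⁻ x in Q, ENNReal.ofReal (w x) ∂vol ≤ ENNReal.ofReal t₀ * NN vol Φ w Q := by
  unfold NN
  have ht : (0:ℝ) < t₀ := lt_of_lt_of_le one_pos hΦ.one
  rw [ENNReal.mul_iInf_of_ne (by simpa using ht) (by simp)]
  refine le_iInf fun l => ?_
  by_cases hl : 0 < l
  · simp only [hl, iInf_pos]
    have h1 : ∀ x, ENNReal.ofReal (w x) ≤ ENNReal.ofReal t₀ * (ENNReal.ofReal l *
        (1 + ENNReal.ofReal (Φ (w x / l)))) := by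
      intro x
      rw [← ENNReal.ofReal_one, ← ENNReal.ofReal_add (by norm_num) (hΦ.nn _),
        ← ENNReal.ofReal_mul hl.le, ← ENNReal.ofReal_mul ht.le]
      apply ENNReal.ofReal_le_ofReal
      have h2 : w x / l ≤ t₀ + Φ (w x / l) := by
        rcases le_total (w x / l) t₀ with h | h
        · have := hΦ.nn (w x / l); linarith
        · have := hΦ.big _ h; linarith
      have h3 : w x = l * (w x / l) := by field_simp
      have h4 : Φ (w x / l) ≤ t₀ * Φ (w x / l) := le_mul_of_one_le_left (hΦ.nn _) hΦ.one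
      calc w x = l * (w x / l) := h3
        _ ≤ l * (t₀ + Φ (w x / l)) := mul_le_mul_of_nonneg_left h2 hl.le
        _ ≤ l * (t₀ + t₀ * Φ (w x / l)) := by
            apply mul_le_mul_of_nonneg_left _ hl.le; linarith
        _ = _ := by ring
    calc ∫⁻ x in Q, ENNReal.ofReal (w x) ∂vol
        ≤ ∫⁻ x in Q, ENNReal.ofReal t₀ * (ENNReal.ofReal l *
          (1 + ENNReal.ofReal (Φ (w x / l)))) ∂vol := lintegral_mono h1
      _ = ENNReal.ofReal t₀ * (ENNReal.ofReal l *
          (vol Q + ∫⁻ x in Q, ENNReal.ofReal (Φ (w x / l)) ∂vol)) := by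
          have hm : Measurable (fun x => ENNReal.ofReal (Φ (w x / l))) :=
            (hΦ.meas.comp (hw.div_const l)).ennreal_ofReal
          rw [lintegral_const_mul _ (by fun_prop), lintegral_const_mul _ (by fun_prop),
            lintegral_add_left measurable_const]
          simp
  · simp only [hl, iInf_neg, not_false_eq_true]
    rw [ENNReal.mul_top (by simpa using ht)]
    exact le_top

/-- one-cube estimate -/
lemma oneCube (vol : Measure α) {Φ : ℝ → ℝ} {t₀ : ℝ} (hΦ : YData Φ t₀) {w : α → ℝ}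
    (hw : Measurable w) (hw0 : ∀ x, 0 ≤ w x) {Q : Set α} (hQm : MeasurableSet Q)
    (hv : 0 < vol Q ∧ vol Q < ∞)
    (hμ : 0 < ∫⁻ x in Q, ENNReal.ofReal (w x) ∂vol ∧ ∫⁻ x in Q, ENNReal.ofReal (w x) ∂vol < ∞)
    (hN : NN vol Φ w Q < ∞) {θ : ℝ} (hθ0 : 0 < θ) (hθ : θ ≤ (1 / t₀) / 16) {a b v g : ℝ}
    (ha : a = (∫⁻ x in Q, ENNReal.ofReal (w x) ∂vol).toReal) (hb : b = (NN vol Φ w Q).toReal)
    (hvv : v = (vol Q).toReal) (hgg : g = a ^ 2 / (b * v)) :
    0 < a ∧ 0 < b ∧ 0 < v ∧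
    ENNReal.ofReal (a ^ 2 / b) ≤ 8 * ∫⁻ x in Q, ENNReal.ofReal
      (if θ * g ≤ w x then w x * kap Φ (1 / t₀) (w x / g) else 0) ∂vol := by
  have ht : (0:ℝ) < t₀ := lt_of_lt_of_le one_pos hΦ.one
  have ha0 : 0 < a := by rw [ha]; exact ENNReal.toReal_pos hμ.1.ne' hμ.2.ne
  have hv0 : 0 < v := by rw [hvv]; exact ENNReal.toReal_pos hv.1.ne' hv.2.ne
  have haE : ∫⁻ x in Q, ENNReal.ofReal (w x) ∂vol = ENNReal.ofReal a := by
    rw [ha, ENNReal.ofReal_toReal hμ.2.ne]
  have hbE : NN vol Φ w Q = ENNReal.ofReal b := by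
    rw [hb, ENNReal.ofReal_toReal hN.ne]
  have hvE : vol Q = ENNReal.ofReal v := by
    rw [hvv, ENNReal.ofReal_toReal hv.2.ne]
  have hab : a ≤ t₀ * b := by
    have := le_NN vol hΦ hw hw0 Q
    rw [haE, hbE, ← ENNReal.ofReal_mul ht.le] at this
    have hb0 : 0 ≤ b := by rw [hb]; exact ENNReal.toReal_nonneg
    exact (ENNReal.ofReal_le_ofReal_iff (by positivity)).1 this
  have hb0 : 0 < b := by
    by_contra hcon
    push Not at hcon
    nlinarith
  refine ⟨ha0, hb0, hv0, ?_⟩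
  set c₀ := 1 / t₀ with hc₀
  have hc : 0 < c₀ := by positivity
  set r := b / a with hr
  have hcr : c₀ ≤ r := by
    rw [hc₀, hr, div_le_div_iff₀ ht ha0]; linarith
  have hr0 : 0 < r := by positivity
  have hg0 : 0 < g := by rw [hgg]; positivity
  -- choose l
  have hex : ∃ l : ℝ, 0 < l ∧ ENNReal.ofReal l * (vol Q +
      ∫⁻ x in Q, ENNReal.ofReal (Φ (w x / l)) ∂vol) < ENNReal.ofReal (2 * b) := by
    have h1 : NN vol Φ w Q < ENNReal.ofReal (2 * b) := by
      rw [hbE]; exact (ENNReal.ofReal_lt_ofReal_iff (by positivity)).2 (by linarith)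
    unfold NN at h1
    simp only [iInf_lt_iff] at h1
    obtain ⟨l, hl, h2⟩ := h1
    exact ⟨l, hl, h2⟩
  obtain ⟨l, hl, hl2⟩ := hex
  rw [mul_add] at hl2
  have hlv : l * v ≤ 2 * b := by
    have h1 : ENNReal.ofReal l * vol Q ≤ ENNReal.ofReal (2 * b) :=
      le_trans (le_add_right le_rfl) hl2.le
    rw [hvE, ← ENNReal.ofReal_mul hl.le] at h1
    exact (ENNReal.ofReal_le_ofReal_iff (by positivity)).1 h1
  have hΦl : ENNReal.ofReal l * ∫⁻ x in Q, ENNReal.ofReal (Φ (w x / l)) ∂vol ≤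
      ENNReal.ofReal (2 * b) := le_trans (le_add_left le_rfl) hl2.le
  set N := g * r ^ 2 with hNdef
  have hNv : N = b / v := by
    rw [hNdef, hgg, hr]; field_simp
  have hlN : l ≤ 2 * N := by
    rw [hNv, ← mul_div_assoc, le_div_iff₀ hv0]; exact hlv
  set Y' := ∫⁻ x in Q, ENNReal.ofReal
      (if θ * g ≤ w x then w x * kap Φ c₀ (w x / g) else 0) ∂vol with hY'
  by_cases hY'top : Y' = ∞
  · rw [hY'top]; simp
  set Y := ∫⁻ x in Q, ENNReal.ofReal (w x * kap Φ c₀ (w x / g)) ∂vol with hY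
  have hkm : Measurable (fun x => kap Φ c₀ (w x / g)) := (kap_meas hΦ c₀).comp (hw.div_const g)
  have hYY' : Y ≤ Y' + ENNReal.ofReal (g / 8 * v) := by
    calc Y ≤ ∫⁻ x in Q, (ENNReal.ofReal
      (if θ * g ≤ w x then w x * kap Φ c₀ (w x / g) else 0) + ENNReal.ofReal (g / 8)) ∂vol := by
          apply lintegral_mono
          intro x
          show ENNReal.ofReal (w x * kap Φ c₀ (w x / g)) ≤ ENNReal.ofReal
            (if θ * g ≤ w x then w x * kap Φ c₀ (w x / g) else 0) + ENNReal.ofReal (g / 8)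
          split_ifs with h
          · exact le_add_right le_rfl
          · rw [ENNReal.ofReal_zero, zero_add]
            apply ENNReal.ofReal_le_ofReal
            push Not at h
            have h1 := kap_le Φ hc (w x / g)
            have h2 := kap_nonneg Φ hc (w x / g)
            calc w x * kap Φ c₀ (w x / g) ≤ (θ * g) * (2 / c₀) :=
                  mul_le_mul h.le h1 h2 (by positivity)
              _ ≤ (c₀ / 16 * g) * (2 / c₀) := by
                  apply mul_le_mul_of_nonneg_right _ (by positivity)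
                  exact mul_le_mul_of_nonneg_right hθ hg0.le
              _ = g / 8 := by field_simp; norm_num
      _ = Y' + ENNReal.ofReal (g / 8 * v) := by
          rw [lintegral_add_right _ measurable_const, lintegral_const,
            Measure.restrict_apply MeasurableSet.univ, Set.univ_inter, hvE,
            ← ENNReal.ofReal_mul (by positivity)]
  have hYtop : Y ≠ ∞ := by
    refine (lt_of_le_of_lt hYY' (ENNReal.add_lt_top.2 ⟨lt_top_iff_ne_top.2 hY'top, ?_⟩)).ne
    exact ENNReal.ofReal_lt_top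
  -- integrate the pointwise inequality
  have hint : ENNReal.ofReal (2 * a) ≤ ENNReal.ofReal ((1 / (4 * r)) * (c₀ * a + r * a)) +
      ENNReal.ofReal ((1 / (4 * r)) * (2 * b)) + ENNReal.ofReal (4 * r) * Y := by
    have hpt : ∀ x, ENNReal.ofReal 2 * ENNReal.ofReal (w x) ≤
        (ENNReal.ofReal ((1 / (4 * r)) * (c₀ + r)) * ENNReal.ofReal (w x) +
          ENNReal.ofReal (1 / (4 * r)) * (ENNReal.ofReal l * ENNReal.ofReal (Φ (w x / l)))) +
          ENNReal.ofReal (4 * r) * ENNReal.ofReal (w x * kap Φ c₀ (w x / g)) := by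
      intro x
      have h1 := hw0 x
      have h2 := hΦ.nn (w x / l)
      have h3 := kap_nonneg Φ hc (w x / g)
      rw [← ENNReal.ofReal_mul (by norm_num), ← ENNReal.ofReal_mul (by positivity),
        ← ENNReal.ofReal_mul hl.le, ← ENNReal.ofReal_mul (by positivity),
        ← ENNReal.ofReal_mul (by positivity), ← ENNReal.ofReal_add (by positivity) (by positivity),
        ← ENNReal.ofReal_add (by positivity) (by positivity)]
      apply ENNReal.ofReal_le_ofReal
      have := key_pt hΦ hc hcr hg0 hl rfl hlN h1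
      calc 2 * w x ≤ _ := this
        _ = _ := by ring
    have h1 := lintegral_mono (μ := vol.restrict Q) hpt
    have hmΦ : Measurable (fun x => ENNReal.ofReal (Φ (w x / l))) :=
      (hΦ.meas.comp (hw.div_const l)).ennreal_ofReal
    have hmw : Measurable (fun x => ENNReal.ofReal (w x)) := hw.ennreal_ofReal
    have hmk : Measurable (fun x => ENNReal.ofReal (w x * kap Φ c₀ (w x / g))) :=
      (hw.mul hkm).ennreal_ofReal
    rw [lintegral_const_mul _ hmw, lintegral_add_left (by fun_prop),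
      lintegral_add_left (by fun_prop), lintegral_const_mul _ hmw,
      lintegral_const_mul _ (by fun_prop), lintegral_const_mul _ hmΦ,
      lintegral_const_mul _ hmk, haE] at h1
    rw [← hY] at h1
    have e1 : ENNReal.ofReal (2 * a) = ENNReal.ofReal 2 * ENNReal.ofReal a :=
      ENNReal.ofReal_mul (by norm_num)
    have e2 : ENNReal.ofReal ((1 / (4 * r)) * (c₀ * a + r * a)) =
        ENNReal.ofReal ((1 / (4 * r)) * (c₀ + r)) * ENNReal.ofReal a := by
      rw [← ENNReal.ofReal_mul (by positivity)]; congr 1; ring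
    have e3 : ENNReal.ofReal ((1 / (4 * r)) * (2 * b)) =
        ENNReal.ofReal (1 / (4 * r)) * ENNReal.ofReal (2 * b) := by
      rw [← ENNReal.ofReal_mul (by positivity)]
    rw [e1, e2, e3]
    refine h1.trans ?_
    apply add_le_add _ le_rfl
    apply add_le_add le_rfl
    exact mul_le_mul' le_rfl hΦl
  -- to the reals
  lift Y to NNReal using hYtop with y hy
  lift Y' to NNReal using hY'top with y' hy'
  have r1 : 2 * a ≤ (1 / (4 * r)) * (c₀ * a + r * a) + (1 / (4 * r)) * (2 * b) + 4 * r * y := by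
    rw [← ENNReal.ofReal_coe_nnreal, ← ENNReal.ofReal_mul (by positivity),
      ← ENNReal.ofReal_add (by positivity) (by positivity),
      ← ENNReal.ofReal_add (by positivity) (by positivity)] at hint
    exact (ENNReal.ofReal_le_ofReal_iff (by positivity)).1 hint
  have r2 : (y:ℝ) ≤ y' + g / 8 * v := by
    rw [← ENNReal.ofReal_coe_nnreal, ← ENNReal.ofReal_coe_nnreal,
      ← ENNReal.ofReal_add (by positivity) (by positivity)] at hYY'
    exact (ENNReal.ofReal_le_ofReal_iff (by positivity)).1 hYY'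
  have hbra : b = r * a := by rw [hr]; field_simp
  have r3 : (1 / (4 * r)) * (c₀ * a + r * a) ≤ a / 2 := by
    have : c₀ * a + r * a ≤ 2 * r * a := by nlinarith
    calc (1 / (4 * r)) * (c₀ * a + r * a) ≤ (1 / (4 * r)) * (2 * r * a) :=
          mul_le_mul_of_nonneg_left this (by positivity)
      _ = a / 2 := by field_simp; norm_num
  have r4 : (1 / (4 * r)) * (2 * b) = a / 2 := by
    rw [hbra]; field_simp; norm_num
  have r5 : a ≤ 4 * r * y := by linarith
  have r6 : a ^ 2 / b = a / r := by rw [hbra]; field_simp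
  have r7 : a ^ 2 / b = g * v := by rw [hgg]; field_simp
  have r8 : a / r ≤ 4 * y := by
    rw [div_le_iff₀ hr0]; linarith
  have r9 : a ^ 2 / b ≤ 8 * y' := by
    rw [← r6] at r8
    linarith
  have : (8:ℝ≥0∞) * (y' : ℝ≥0∞) = ENNReal.ofReal (8 * y') := by
    rw [ENNReal.ofReal_mul (by norm_num), ENNReal.ofReal_coe_nnreal]; norm_num
  rw [this]
  exact ENNReal.ofReal_le_ofReal r9

end Pool.Agent.H433R3.Sep
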