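import Pool.Agent.H433R3.Sep8

set_option autoImplicit false
set_option linter.unusedSectionVars false
set_option linter.unusedVariables false

namespace Pool.Agent.H433R3.Sep

open Finset MeasureTheory
open scoped ENNReal

variable {α : Type*} [MeasurableSpace α]

lemma setmax (G : Finset (Set α)) (hG : SLam G) :
    ∃ M ⊆ G, (∀ A ∈ M, ∀ B ∈ M, A ≠ B → Disjoint A B) ∧ ∀ A ∈ G, ∃ B ∈ M, A ⊆ B := by
  classical
  refine ⟨G.filter (fun A => ∀ B ∈ G, A ⊆ B → A = B), Finset.filter_subset _ _, ?_, ?_⟩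
  · intro A hA B hB hAB
    simp only [Finset.mem_filter] at hA hB
    rcases hG.2.2 A hA.1 B hB.1 with h | h | h
    · exact absurd (hA.2 B hB.1 h) hAB
    · exact absurd (hB.2 A hA.1 h).symm hAB
    · exact h
  · intro A hA
    obtain ⟨M, hAM, hM⟩ := Finset.exists_le_maximal G hA
    refine ⟨M, ?_, hAM⟩
    simp only [Finset.mem_filter]
    exact ⟨hM.prop, fun B hB hMB => Set.Subset.antisymm hMB (hM.le_of_ge hB hMB)⟩

/-- halving gives packing -/
lemma vol_sum_le (vol : Measure α) (G : Finset (Set α)) (hG : SLam G)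
    (hv : ∀ Q ∈ G, vol Q < ∞)
    (half : ∀ Q ∈ G, 2 * vol (⋃ A ∈ {A ∈ (G : Set (Set α)) | A ⊂ Q}, A) ≤ vol Q) :
    ∑ Q ∈ G, vol Q ≤ 2 * vol (⋃ Q ∈ G, Q) := by
  classical
  set E : Set α → Set α := fun Q => Q \ ⋃ A ∈ {A ∈ (G : Set (Set α)) | A ⊂ Q}, A with hE
  have hmU : ∀ Q, MeasurableSet (⋃ A ∈ {A ∈ (G : Set (Set α)) | A ⊂ Q}, A) := by
    intro Q
    apply Set.Finite.measurableSet_biUnion
    · exact G.finite_toSet.subset (fun A hA => hA.1)
    · intro A hA
      exact hG.1 A hA.1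
  have hEm : ∀ Q ∈ G, MeasurableSet (E Q) := fun Q hQ => (hG.1 Q hQ).diff (hmU Q)
  have h1 : ∀ Q ∈ G, vol Q ≤ 2 * vol (E Q) := by
    intro Q hQ
    set U := ⋃ A ∈ {A ∈ (G : Set (Set α)) | A ⊂ Q}, A with hU
    have hUQ : U ⊆ Q := by
      rw [hU]
      exact Set.iUnion₂_subset (fun A hA => hA.2.1)
    have hUfin : vol U ≠ ∞ := (lt_of_le_of_lt (measure_mono hUQ) (hv Q hQ)).ne
    have h2 : vol (E Q) = vol Q - vol U := measure_sdiff hUQ (hmU Q).nullMeasurableSet hUfin
    have h3 : vol Q = vol U + vol (E Q) := by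
      rw [h2, add_tsub_cancel_of_le (measure_mono hUQ)]
    have h4 := half Q hQ
    have hQfin := (hv Q hQ).ne
    have hEfin : vol (E Q) ≠ ∞ := (lt_of_le_of_lt (measure_mono Set.sdiff_subset) (hv Q hQ)).ne
    have h5 : 2 * vol U ≤ vol U + vol (E Q) := by rw [← h3]; exact h4
    rw [two_mul] at h5
    have h6 : vol U ≤ vol (E Q) := (ENNReal.add_le_add_iff_left hUfin).1 h5
    rw [h3, two_mul]
    exact add_le_add h6 le_rfl
  calc ∑ Q ∈ G, vol Q ≤ ∑ Q ∈ G, 2 * vol (E Q) := Finset.sum_le_sum h1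
    _ = 2 * ∑ Q ∈ G, vol (E Q) := by rw [Finset.mul_sum]
    _ = 2 * vol (⋃ Q ∈ G, E Q) := by
        rw [measure_biUnion_finset _ hEm]
        intro A hA B hB hAB
        show Disjoint (E A) (E B)
        rw [Set.disjoint_left]
        intro x hx hx'
        rcases hG.comp hA hB hx.1 hx'.1 with h | h
        · rcases eq_or_ssubset_of_subset h with h | h
          · exact hAB h
          · exact hx'.2 (Set.mem_iUnion₂.2 ⟨A, ⟨hA, h⟩, hx.1⟩)
        · exact hx.2 (Set.mem_iUnion₂.2 ⟨B, ⟨hB, h⟩, hx'.1⟩)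
    _ ≤ 2 * vol (⋃ Q ∈ G, Q) := by
        apply mul_le_mul' le_rfl
        apply measure_mono
        exact Set.iUnion₂_mono (fun Q _ => Set.sdiff_subset)

/-- The Carleson embedding behind a one-sided bump. -/
theorem embed (vol : Measure α) {Φ : ℝ → ℝ} {t₀ : ℝ} (hΦ : YData Φ t₀) {w : α → ℝ}
    (hw : Measurable w) (hw0 : ∀ x, 0 ≤ w x) {θ : ℝ} (hθ0 : 0 < θ) (hθ : θ ≤ (1 / t₀) / 16)
    {Ck : ℝ} (hCk : ∀ J : Finset ℕ, ∑ j ∈ J, kap Φ (1 / t₀) (θ * 16 ^ j / 16) ≤ Ck)
    (G : Finset (Set α)) (hG : SLam G)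
    (hv : ∀ Q ∈ G, 0 < vol Q ∧ vol Q < ∞)
    (hμ : ∀ Q ∈ G, 0 < ∫⁻ x in Q, ENNReal.ofReal (w x) ∂vol ∧
      ∫⁻ x in Q, ENNReal.ofReal (w x) ∂vol < ∞)
    (hN : ∀ Q ∈ G, NN vol Φ w Q < ∞)
    (half : ∀ Q ∈ G, 2 * vol (⋃ A ∈ {A ∈ (G : Set (Set α)) | A ⊂ Q}, A) ≤ vol Q)
    (R : Set α) (hR : ∀ Q ∈ G, Q ⊆ R) :
    ∑ Q ∈ G, ENNReal.ofReal ((∫⁻ x in Q, ENNReal.ofReal (w x) ∂vol).toReal ^ 2 /
      (NN vol Φ w Q).toReal) ≤ 256 * (ENNReal.ofReal Ck * ∫⁻ x in R, ENNReal.ofReal (w x) ∂vol) := by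
  classical
  have ht : (0:ℝ) < t₀ := lt_of_lt_of_le one_pos hΦ.one
  have hc : (0:ℝ) < 1 / t₀ := by positivity
  set a : Set α → ℝ := fun Q => (∫⁻ x in Q, ENNReal.ofReal (w x) ∂vol).toReal with ha
  set b : Set α → ℝ := fun Q => (NN vol Φ w Q).toReal with hb
  set v : Set α → ℝ := fun Q => (vol Q).toReal with hvv
  set g : Set α → ℝ := fun Q => a Q ^ 2 / (b Q * v Q) with hg
  have one := fun Q (hQ : Q ∈ G) => oneCube vol hΦ hw hw0 (hG.1 Q hQ) (hv Q hQ) (hμ Q hQ) (hN Q hQ)
    hθ0 hθ (a := a Q) (b := b Q) (v := v Q) (g := g Q) rfl rfl rfl rfl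
  have hg0 : ∀ Q ∈ G, 0 < g Q := by
    intro Q hQ
    obtain ⟨h1, h2, h3, _⟩ := one Q hQ
    simp only [hg]; positivity
  set k : Set α → ℤ := fun Q => Int.log 16 (g Q) with hk
  have hk1 : ∀ Q ∈ G, (16:ℝ) ^ k Q ≤ g Q := by
    intro Q hQ
    have := Int.zpow_log_le_self (b := 16) (by norm_num) (hg0 Q hQ)
    push_cast at this; exact this
  have hk2 : ∀ Q, g Q ≤ 16 * (16:ℝ) ^ k Q := by
    intro Q
    have := (Int.lt_zpow_succ_log_self (b := 16) (by norm_num) (g Q)).le
    rw [zpow_add₀ (by norm_num)] at this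
    push_cast at this
    simp only [hk]; linarith
  set h : ℤ → α → ℝ≥0∞ := fun j x => ENNReal.ofReal
    (if θ * (16:ℝ) ^ j ≤ w x then w x * kap Φ (1 / t₀) (w x / (16 * (16:ℝ) ^ j)) else 0) with hh
  have hhm : ∀ j, Measurable (h j) := by
    intro j
    apply Measurable.ennreal_ofReal
    apply Measurable.ite (measurableSet_le measurable_const hw) _ measurable_const
    exact hw.mul ((kap_meas hΦ _).comp (hw.div_const _))
  -- each level
  have hlev : ∀ j : ℤ, ∑ Q ∈ G with k Q = j, ENNReal.ofReal (a Q ^ 2 / b Q) ≤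
      256 * ∫⁻ x in R, h j x ∂vol := by
    intro j
    set Gj := G.filter (fun Q => k Q = j) with hGj
    have hGjG : Gj ⊆ G := Finset.filter_subset _ _
    have hGjk : ∀ Q ∈ Gj, k Q = j := fun Q hQ => (Finset.mem_filter.1 hQ).2
    have hGjL := hG.mono hGjG
    obtain ⟨M, hMG, hMdis, hMcov⟩ := setmax Gj hGjL
    have hval : ∀ Q ∈ G, ENNReal.ofReal (a Q ^ 2 / b Q) = ENNReal.ofReal (g Q) * vol Q := by
      intro Q hQ
      obtain ⟨h1, h2, h3, _⟩ := one Q hQ
      have : vol Q = ENNReal.ofReal (v Q) := by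
        simp only [hvv]; rw [ENNReal.ofReal_toReal (hv Q hQ).2.ne]
      rw [this, ← ENNReal.ofReal_mul (hg0 Q hQ).le]
      congr 1
      simp only [hg]; field_simp
    have hj16 : (0:ℝ) < (16:ℝ) ^ j := by positivity
    calc ∑ Q ∈ Gj, ENNReal.ofReal (a Q ^ 2 / b Q)
        ≤ ∑ Q ∈ Gj, ENNReal.ofReal (16 * (16:ℝ) ^ j) * vol Q := by
          apply Finset.sum_le_sum
          intro Q hQ
          rw [hval Q (hGjG hQ)]
          apply mul_le_mul' _ le_rfl
          apply ENNReal.ofReal_le_ofReal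
          rw [← hGjk Q hQ]; exact hk2 Q
      _ = ENNReal.ofReal (16 * (16:ℝ) ^ j) * ∑ Q ∈ Gj, vol Q := by rw [Finset.mul_sum]
      _ ≤ ENNReal.ofReal (16 * (16:ℝ) ^ j) * (2 * vol (⋃ Q ∈ Gj, Q)) := by
          apply mul_le_mul' le_rfl
          apply vol_sum_le vol Gj hGjL (fun Q hQ => (hv Q (hGjG hQ)).2)
          intro Q hQ
          refine le_trans (mul_le_mul' le_rfl (measure_mono ?_)) (half Q (hGjG hQ))
          intro x hx
          obtain ⟨A, hA, hxA⟩ := Set.mem_iUnion₂.1 hx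
          exact Set.mem_iUnion₂.2 ⟨A, ⟨hGjG hA.1, hA.2⟩, hxA⟩
      _ ≤ ENNReal.ofReal (16 * (16:ℝ) ^ j) * (2 * ∑ Q ∈ M, vol Q) := by
          apply mul_le_mul' le_rfl
          apply mul_le_mul' le_rfl
          rw [← measure_biUnion_finset (fun A hA B hB hAB => hMdis A hA B hB hAB)
            (fun Q hQ => hG.1 Q (hGjG (hMG hQ)))]
          apply measure_mono
          intro x hx
          obtain ⟨A, hA, hxA⟩ := Set.mem_iUnion₂.1 hx
          obtain ⟨B, hB, hAB⟩ := hMcov A hA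
          exact Set.mem_iUnion₂.2 ⟨B, hB, hAB hxA⟩
      _ = 32 * ∑ Q ∈ M, ENNReal.ofReal ((16:ℝ) ^ j) * vol Q := by
          rw [← Finset.mul_sum, ENNReal.ofReal_mul (by norm_num)]
          have : ENNReal.ofReal 16 = 16 := by norm_num
          rw [this]; ring
      _ ≤ 32 * ∑ Q ∈ M, 8 * ∫⁻ x in Q, h j x ∂vol := by
          apply mul_le_mul' le_rfl
          apply Finset.sum_le_sum
          intro Q hQ
          have hQG := hGjG (hMG hQ)
          have hQk := hGjk Q (hMG hQ)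
          calc ENNReal.ofReal ((16:ℝ) ^ j) * vol Q ≤ ENNReal.ofReal (g Q) * vol Q := by
                apply mul_le_mul' _ le_rfl
                apply ENNReal.ofReal_le_ofReal
                rw [← hQk]; exact hk1 Q hQG
            _ = ENNReal.ofReal (a Q ^ 2 / b Q) := (hval Q hQG).symm
            _ ≤ _ := (one Q hQG).2.2.2
            _ ≤ 8 * ∫⁻ x in Q, h j x ∂vol := by
                apply mul_le_mul' le_rfl
                apply lintegral_mono
                intro x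
                apply ENNReal.ofReal_le_ofReal
                have hk1' := hk1 Q hQG
                have hk2' := hk2 Q
                rw [hQk] at hk1' hk2'
                have hgQ := hg0 Q hQG
                split_ifs with c1 c2 c2
                · have hwx : 0 < w x := lt_of_lt_of_le (by positivity) c1
                  apply mul_le_mul_of_nonneg_left _ hwx.le
                  apply kap_anti hΦ hc (by positivity)
                  exact div_le_div_of_nonneg_left hwx.le hgQ hk2'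
                · exfalso; apply c2
                  exact le_trans (mul_le_mul_of_nonneg_left hk1' hθ0.le) c1
                · exact mul_nonneg (hw0 x) (kap_nonneg Φ hc _)
                · exact le_rfl
      _ = 256 * ∑ Q ∈ M, ∫⁻ x in Q, h j x ∂vol := by
          rw [← Finset.mul_sum, ← mul_assoc]; norm_num
      _ ≤ 256 * ∫⁻ x in R, h j x ∂vol := by
          apply mul_le_mul' le_rfl
          rw [← lintegral_biUnion_finset (fun A hA B hB hAB => hMdis A hA B hB hAB)
            (fun Q hQ => hG.1 Q (hGjG (hMG hQ)))]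
          exact lintegral_mono_set (Set.iUnion₂_subset (fun Q hQ => hR Q (hGjG (hMG hQ))))
  rw [← Finset.sum_fiberwise_of_maps_to (s := G) (t := G.image k) (g := k)
    (fun Q hQ => Finset.mem_image_of_mem k hQ)]
  refine (Finset.sum_le_sum (fun j _ => hlev j)).trans ?_
  rw [← Finset.mul_sum]
  apply mul_le_mul' le_rfl
  rw [← lintegral_finsetSum _ (fun j _ => hhm j), ← lintegral_const_mul _ hw.ennreal_ofReal]
  apply lintegral_mono
  intro x
  show ∑ j ∈ G.image k, h j x ≤ ENNReal.ofReal Ck * ENNReal.ofReal (w x)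
  rcases (hw0 x).eq_or_lt with hx0 | hx0
  · have : ∑ j ∈ G.image k, h j x = 0 := by
      apply Finset.sum_eq_zero
      intro j _
      simp only [hh]
      rw [← hx0]; simp
    rw [this]; exact bot_le
  have hCk0 : 0 ≤ Ck := by
    have := hCk ∅; simpa using this
  set L := Int.log 16 (w x / θ) with hL
  have hL1 : (16:ℝ) ^ L ≤ w x / θ := by
    have := Int.zpow_log_le_self (b := 16) (by norm_num) (div_pos hx0 hθ0)
    push_cast at this; exact this
  have hL2 : w x / θ < (16:ℝ) ^ (L + 1) := by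
    have := Int.lt_zpow_succ_log_self (b := 16) (by norm_num) (w x / θ)
    push_cast at this; exact this
  simp only [hh]
  rw [← ENNReal.ofReal_sum_of_nonneg, ← ENNReal.ofReal_mul hCk0]
  · apply ENNReal.ofReal_le_ofReal
    rw [← Finset.sum_filter]
    set J := (G.image k).filter (fun j => θ * (16:ℝ) ^ j ≤ w x) with hJ
    have hJL : ∀ j ∈ J, j ≤ L := by
      intro j hj
      have hj2 := (Finset.mem_filter.1 hj).2
      have h1 : (16:ℝ) ^ j ≤ w x / θ := by rw [le_div_iff₀ hθ0]; linarith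
      have h2 : (16:ℝ) ^ j < 16 ^ (L + 1) := lt_of_le_of_lt h1 hL2
      have := (zpow_lt_zpow_iff_right₀ (by norm_num : (1:ℝ) < 16)).1 h2
      omega
    have h1 : ∀ j ∈ J, w x * kap Φ (1 / t₀) (w x / (16 * (16:ℝ) ^ j)) ≤
        w x * kap Φ (1 / t₀) (θ * 16 ^ (L - j).toNat / 16) := by
      intro j hj
      apply mul_le_mul_of_nonneg_left _ hx0.le
      apply kap_anti hΦ hc (by positivity)
      have h2 : (16:ℝ) ^ (L - j).toNat = 16 ^ L / 16 ^ j := by
        rw [← zpow_natCast, Int.toNat_of_nonneg (by have := hJL j hj; omega),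
          zpow_sub₀ (by norm_num)]
      rw [h2]
      have h3 : θ * (16:ℝ) ^ L ≤ w x := by
        rw [le_div_iff₀ hθ0] at hL1; linarith
      have h4 : (0:ℝ) < 16 ^ j := by positivity
      calc θ * (16 ^ L / 16 ^ j) / 16 = (θ * 16 ^ L) / (16 * 16 ^ j) := by field_simp
        _ ≤ w x / (16 * 16 ^ j) := div_le_div_of_nonneg_right h3 (by positivity)
    refine (Finset.sum_le_sum h1).trans ?_
    rw [← Finset.mul_sum, mul_comm Ck]
    apply mul_le_mul_of_nonneg_left _ hx0.le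
    have h5 : ∑ j ∈ J, kap Φ (1 / t₀) (θ * 16 ^ (L - j).toNat / 16) =
        ∑ i ∈ J.image (fun j => (L - j).toNat), kap Φ (1 / t₀) (θ * 16 ^ i / 16) := by
      rw [Finset.sum_image]
      intro i hi j hj hij
      have a1 := hJL i hi
      have a2 := hJL j hj
      simp only at hij
      omega
    rw [h5]
    exact hCk _
  · intro j _
    split_ifs
    · exact mul_nonneg hx0.le (kap_nonneg Φ hc _)
    · exact le_rfl

end Pool.Agent.H433R3.Sep
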